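import Pool.Agent.R557.CKBase

set_option autoImplicit false

/-! Prefix complexity is bounded by an average of plain complexities. -/

namespace Pool.Agent.R557.CK

open Finset
open Pool.Agent.Helper981.KP (USC Kraft IsKP approx_le finite_of_kraft half_pow_le)
open Pool.Agent.TH676.CK (IsPlain PCount approx_plain exists_approx)
open Pool.Agent.H166R3.AT (c_add c_mul c_sub c_div c_mod c_pow c_sum c_le c_lt c_eq c_and c_or c_not)

def lo (n : ℕ) : ℕ := 2 ^ (2 ^ n)
def hi (n : ℕ) : ℕ := 2 ^ (2 ^ (n + 1))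

lemma lo_lt_hi (n : ℕ) : lo n < hi n :=
  Nat.pow_lt_pow_right (by norm_num) (Nat.pow_lt_pow_right (by norm_num) (Nat.lt_succ_self n))

/-- the weights -/
noncomputable def wt (n N : ℕ) : ℝ := (1 / 2) ^ n * (1 / 2) ^ (Nat.log 2 N)

lemma wt_nonneg (n N : ℕ) : 0 ≤ wt n N := by unfold wt; positivity

lemma sum_log (a b : ℕ) (h : a ≤ b) :
    ∑ N ∈ Ico (2 ^ a) (2 ^ b), ((1 : ℝ) / 2) ^ (Nat.log 2 N) = b - a := by
  induction b, h using Nat.le_induction with
  | base => simp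
  | succ b hab ih =>
    have h1 : 2 ^ a ≤ 2 ^ b := Nat.pow_le_pow_right (by norm_num) hab
    have h2 : 2 ^ b ≤ 2 ^ (b + 1) := Nat.pow_le_pow_right (by norm_num) (Nat.le_succ b)
    rw [← Finset.sum_Ico_consecutive _ h1 h2, ih]
    have h3 : ∑ N ∈ Ico (2 ^ b) (2 ^ (b + 1)), ((1 : ℝ) / 2) ^ (Nat.log 2 N) = 1 := by
      have h4 : ∀ N ∈ Ico (2 ^ b) (2 ^ (b + 1)), ((1 : ℝ) / 2) ^ (Nat.log 2 N) = (1 / 2) ^ b := by
        intro N hN
        rw [mem_Ico] at hN
        rw [Nat.log_eq_of_pow_le_of_lt_pow hN.1 hN.2]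
      rw [Finset.sum_congr rfl h4, Finset.sum_const, Nat.card_Ico, nsmul_eq_mul]
      have h5 : 2 ^ (b + 1) - 2 ^ b = 2 ^ b := by rw [pow_succ]; omega
      rw [h5]
      push_cast
      rw [← mul_pow]
      norm_num
    rw [h3]
    push_cast
    ring

lemma sum_wt (n : ℕ) : ∑ N ∈ Ico (lo n) (hi n), wt n N = 1 := by
  unfold wt lo hi
  rw [← Finset.mul_sum, sum_log _ _ (Nat.pow_le_pow_right (by norm_num) (Nat.le_succ n))]
  push_cast
  rw [pow_succ]
  have : ((1 : ℝ) / 2) ^ n * 2 ^ n = 1 := by rw [← mul_pow]; norm_num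
  linear_combination this

lemma main_ineq {K C : ℕ → ℕ} (hK : IsKP K) (hC : IsPlain C) (len : ℕ → ℕ)
    (hlen : Computable len)
    (hcard : ∀ (n : ℕ) (U : Finset ℕ), (∀ u ∈ U, len u = n) → U.card ≤ 2 ^ n) :
    ∃ c : ℝ, ∀ u, (K u : ℝ) ≤ K (len u) + c + ∑ N ∈ Ico (lo (len u)) (hi (len u)),
      wt (len u) N * ((C (Nat.pair u N) : ℝ) - Nat.log 2 N) := by
  classical
  obtain ⟨aK, haK, haK1, haK2⟩ := exists_approx hK.1
  obtain ⟨aC, haC, haC1, haC2⟩ := exists_approx hC.1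
  set B : ℕ → ℕ → ℕ := fun u t => ∑ N ∈ range (hi (len u)), aC (Nat.pair u N) t with hB
  set M : ℕ → ℕ → ℕ := fun u t => ∑ N ∈ range (hi (len u)),
    (if lo (len u) ≤ N then 2 ^ (B u t - aC (Nat.pair u N) t) else 0) with hM
  set e : ℕ → ℕ → ℕ := fun u t => B u t + aK (len u) t + len u + 3 with he
  have cu : Computable (fun q : ℕ × ℕ => q.1) := Computable.fst
  have ct : Computable (fun q : ℕ × ℕ => q.2) := Computable.snd
  have clen : Computable (fun q : ℕ × ℕ => len q.1) := hlen.comp cu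
  have clo : Computable (fun q : ℕ × ℕ => lo (len q.1)) :=
    c_pow (Computable.const 2) (c_pow (Computable.const 2) clen)
  have chi : Computable (fun q : ℕ × ℕ => hi (len q.1)) :=
    c_pow (Computable.const 2) (c_pow (Computable.const 2) (c_add clen (Computable.const 1)))
  have caC : Computable₂ (fun (q : ℕ × ℕ) (N : ℕ) => aC (Nat.pair q.1 N) q.2) :=
    haC.comp (c_pair (cu.comp Computable.fst) Computable.snd) (ct.comp Computable.fst)
  have cB : Computable₂ B := c_sum chi caC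
  have cM : Computable₂ M := by
    refine c_sum (α := ℕ × ℕ) (n := fun q => hi (len q.1))
      (f := fun q N => if lo (len q.1) ≤ N then 2 ^ (B q.1 q.2 - aC (Nat.pair q.1 N) q.2) else 0)
      chi ?_
    refine c_ite' (c_le (clo.comp Computable.fst) Computable.snd) ?_ (Computable.const 0)
    exact c_pow (Computable.const 2) (c_sub (cB.comp (cu.comp Computable.fst) (ct.comp Computable.fst)) caC)
  have ce : Computable₂ e :=
    c_add (c_add (c_add cB (haK.comp clen ct)) clen) (Computable.const 3)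
  -- the value of `M`
  have hMval : ∀ u t, (M u t : ℝ) = 2 ^ (B u t) * ∑ N ∈ Ico (lo (len u)) (hi (len u)),
      ((1 : ℝ) / 2) ^ (aC (Nat.pair u N) t) := by
    intro u t
    have h1 : M u t = ∑ N ∈ Ico (lo (len u)) (hi (len u)), 2 ^ (B u t - aC (Nat.pair u N) t) := by
      simp only [hM]
      rw [← Finset.sum_filter]
      apply Finset.sum_congr _ (fun _ _ => rfl)
      ext N
      rw [mem_filter, mem_range, mem_Ico]
      tauto
    rw [h1]
    push_cast
    rw [Finset.mul_sum]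
    apply Finset.sum_congr rfl
    intro N hN
    rw [mem_Ico] at hN
    have h2 : aC (Nat.pair u N) t ≤ B u t := by
      simp only [hB]
      exact Finset.single_le_sum (f := fun N => aC (Nat.pair u N) t) (fun _ _ => Nat.zero_le _)
        (mem_range.2 hN.2)
    have h3 : (2 : ℝ) ^ (B u t - aC (Nat.pair u N) t) * 2 ^ (aC (Nat.pair u N) t) = 2 ^ (B u t) := by
      rw [← pow_add]; congr 1; omega
    have h4 : ((1 : ℝ) / 2) ^ (aC (Nat.pair u N) t) * 2 ^ (aC (Nat.pair u N) t) = 1 := by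
      rw [← mul_pow]; norm_num
    calc (2 : ℝ) ^ (B u t - aC (Nat.pair u N) t) =
        2 ^ (B u t - aC (Nat.pair u N) t) *
          (((1 : ℝ) / 2) ^ (aC (Nat.pair u N) t) * 2 ^ (aC (Nat.pair u N) t)) := by rw [h4, mul_one]
      _ = (2 ^ (B u t - aC (Nat.pair u N) t) * 2 ^ (aC (Nat.pair u N) t)) *
          (1 / 2) ^ (aC (Nat.pair u N) t) := by ring
      _ = _ := by rw [h3]
  have hMe : ∀ u t, (M u t : ℝ) / 2 ^ (e u t) = (1 / 2) ^ (aK (len u) t) *
      ((1 / 2) ^ (len u + 3) * ∑ N ∈ Ico (lo (len u)) (hi (len u)),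
      ((1 : ℝ) / 2) ^ (aC (Nat.pair u N) t)) := by
    intro u t
    rw [hMval, he]
    simp only
    rw [div_eq_iff (by positivity), pow_add, pow_add, pow_add]
    have h4 : ((1 : ℝ) / 2) ^ (aK (len u) t) * 2 ^ (aK (len u) t) = 1 := by
      rw [← mul_pow]; norm_num
    have h5 : ((1 : ℝ) / 2) ^ (len u + 3) * (2 ^ (len u) * 2 ^ 3) = 1 := by
      rw [← pow_add, ← mul_pow]; norm_num
    set X := ∑ N ∈ Ico (lo (len u)) (hi (len u)), ((1 : ℝ) / 2) ^ (aC (Nat.pair u N) t)
    calc (2 : ℝ) ^ (B u t) * X = (2 ^ (B u t) * X) * (((1 : ℝ) / 2) ^ (aK (len u) t) *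
        2 ^ (aK (len u) t)) * (((1 : ℝ) / 2) ^ (len u + 3) * (2 ^ (len u) * 2 ^ 3)) := by
          rw [h4, h5, mul_one, mul_one]
      _ = _ := by ring
  -- the Kraft sum
  have hsum : ∀ (U : Finset ℕ) (τ : ℕ → ℕ), ∑ u ∈ U, (M u (τ u) : ℝ) / 2 ^ (e u (τ u)) ≤ 1 := by
    intro U τ
    have h1 : ∀ u ∈ U, (M u (τ u) : ℝ) / 2 ^ (e u (τ u)) ≤ (1 / 2) ^ (K (len u)) *
        ((1 / 2) ^ (len u + 3) * ∑ N ∈ Ico (lo (len u)) (hi (len u)),
        ((1 : ℝ) / 2) ^ (C (Nat.pair u N))) := by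
      intro u _
      rw [hMe]
      apply mul_le_mul (half_pow_le (haK1 _ _)) _ (by positivity) (by positivity)
      apply mul_le_mul_of_nonneg_left _ (by positivity)
      apply Finset.sum_le_sum
      intro N _
      exact half_pow_le (haC1 _ _)
    refine (Finset.sum_le_sum h1).trans ?_
    rw [← Finset.sum_fiberwise_of_maps_to (t := U.image len) (g := len)
      (fun u hu => mem_image_of_mem len hu)]
    refine le_trans (b := ∑ n ∈ U.image len, ((1 : ℝ) / 2) ^ (K n)) ?_ (finite_of_kraft hK.2.1 _)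
    apply Finset.sum_le_sum
    intro n _
    have h2 : ∑ u ∈ U.filter (fun u => len u = n), ((1 : ℝ) / 2) ^ (K (len u)) *
        ((1 / 2) ^ (len u + 3) * ∑ N ∈ Ico (lo (len u)) (hi (len u)),
        ((1 : ℝ) / 2) ^ (C (Nat.pair u N))) = ((1 : ℝ) / 2) ^ (K n) * ((1 / 2) ^ (n + 3) *
        ∑ u ∈ U.filter (fun u => len u = n), ∑ N ∈ Ico (lo n) (hi n),
        ((1 : ℝ) / 2) ^ (C (Nat.pair u N))) := by
      rw [Finset.mul_sum, Finset.mul_sum]
      apply Finset.sum_congr rfl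
      intro u hu
      rw [(mem_filter.1 hu).2]
    rw [h2]
    apply mul_le_of_le_one_right (by positivity)
    have h3 : ∑ u ∈ U.filter (fun u => len u = n), ∑ N ∈ Ico (lo n) (hi n),
        ((1 : ℝ) / 2) ^ (C (Nat.pair u N)) =
        ∑ z ∈ ((U.filter (fun u => len u = n)) ×ˢ (Ico (lo n) (hi n))).image
          (fun q => Nat.pair q.1 q.2), ((1 : ℝ) / 2) ^ (C z) := by
      rw [Finset.sum_image, Finset.sum_product]
      intro a _ b _ hab
      have := congrArg Nat.unpair hab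
      simp only [Nat.unpair_pair] at this
      exact this
    have h4 := plain_sum hC.2.1 (((U.filter (fun u => len u = n)) ×ˢ (Ico (lo n) (hi n))).image
          (fun q => Nat.pair q.1 q.2)) (n + 2 ^ (n + 1))
    rw [← h3] at h4
    have h5 : ((((U.filter (fun u => len u = n)) ×ˢ (Ico (lo n) (hi n))).image
          (fun q => Nat.pair q.1 q.2)).card : ℝ) ≤ 2 ^ (n + 2 ^ (n + 1)) := by
      have h6 : (((U.filter (fun u => len u = n)) ×ˢ (Ico (lo n) (hi n))).image
          (fun q => Nat.pair q.1 q.2)).card ≤ 2 ^ n * 2 ^ (2 ^ (n + 1)) := by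
        refine (Finset.card_image_le).trans ?_
        rw [Finset.card_product, Nat.card_Ico]
        apply Nat.mul_le_mul
        · exact hcard n _ (fun u hu => (mem_filter.1 hu).2)
        · exact Nat.sub_le _ _
      rw [pow_add]
      exact_mod_cast h6
    have h6 : ((((U.filter (fun u => len u = n)) ×ˢ (Ico (lo n) (hi n))).image
          (fun q => Nat.pair q.1 q.2)).card : ℝ) * (1 / 2) ^ (n + 2 ^ (n + 1)) ≤ 1 := by
      calc _ ≤ (2 : ℝ) ^ (n + 2 ^ (n + 1)) * (1 / 2) ^ (n + 2 ^ (n + 1)) :=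
            mul_le_mul_of_nonneg_right h5 (by positivity)
        _ = 1 := by rw [← mul_pow]; norm_num
    have h7 : ((n : ℝ) + 1) ≤ 2 ^ n := by
      have : n + 1 ≤ 2 ^ n := Nat.lt_two_pow_self
      exact_mod_cast this
    have h8 : ∑ u ∈ U.filter (fun u => len u = n), ∑ N ∈ Ico (lo n) (hi n),
        ((1 : ℝ) / 2) ^ (C (Nat.pair u N)) ≤ 8 * 2 ^ n := by
      refine h4.trans ?_
      push_cast
      have h9 : (2 : ℝ) ^ (n + 1) = 2 * 2 ^ n := by ring
      rw [h9]
      have h10 : (1 : ℝ) ≤ 2 ^ n := one_le_pow₀ (by norm_num)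
      linarith
    calc ((1 : ℝ) / 2) ^ (n + 3) * ∑ u ∈ U.filter (fun u => len u = n),
        ∑ N ∈ Ico (lo n) (hi n), ((1 : ℝ) / 2) ^ (C (Nat.pair u N))
        ≤ (1 / 2) ^ (n + 3) * (8 * 2 ^ n) := mul_le_mul_of_nonneg_left h8 (by positivity)
      _ = (1 / 2) ^ (n + 3) * 2 ^ (n + 3) := by rw [pow_add (2 : ℝ)]; ring
      _ = 1 := by rw [← mul_pow]; norm_num
  obtain ⟨c, hc⟩ := coding hK M e cM ce hsum
  refine ⟨c + 3, fun u => ?_⟩
  set n := len u with hn
  -- a late stage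
  have hstage : ∃ t, aK n t = K n ∧ ∀ N ∈ range (hi n), aC (Nat.pair u N) t = C (Nat.pair u N) := by
    obtain ⟨t0, ht0⟩ := haK2 n
    choose s hs using fun N => haC2 (Nat.pair u N)
    refine ⟨t0 + ∑ N ∈ range (hi n), s N, ht0 _ (by omega), ?_⟩
    intro N hN
    apply hs N
    have := Finset.single_le_sum (f := s) (fun _ _ => Nat.zero_le _) hN
    omega
  obtain ⟨t, ht1, ht2⟩ := hstage
  set X := ∑ N ∈ Ico (lo n) (hi n), ((1 : ℝ) / 2) ^ (C (Nat.pair u N)) with hX
  have hMt : (M u t : ℝ) = 2 ^ (B u t) * X := by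
    rw [hMval, hX]
    congr 1
    apply Finset.sum_congr rfl
    intro N hN
    rw [mem_Ico] at hN
    rw [ht2 N (mem_range.2 hN.2)]
  have hXpos : 0 < X := by
    rw [hX]
    apply Finset.sum_pos (fun _ _ => by positivity)
    rw [Finset.nonempty_Ico]
    exact lo_lt_hi n
  have hMpos : 0 < M u t := by
    have : (0 : ℝ) < M u t := by rw [hMt]; positivity
    exact_mod_cast this
  have h1 := hc u t hMpos
  have h2 : Real.logb 2 (M u t) = B u t + Real.logb 2 X := by
    rw [hMt, Real.logb_mul (by positivity) hXpos.ne', Real.logb_pow]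
    rw [Real.logb_self_eq_one (by norm_num), mul_one]
  have h3 : (e u t : ℝ) = B u t + K n + n + 3 := by
    simp only [he]
    rw [← hn, ht1]
    push_cast
    ring
  rw [h2, h3] at h1
  -- Jensen
  have hJ : ∑ N ∈ Ico (lo n) (hi n), wt n N * (Nat.log 2 N - (C (Nat.pair u N) : ℝ)) ≤
      - n + Real.logb 2 X := by
    have hconc : ConcaveOn ℝ (Set.Ioi 0) Real.log := strictConcaveOn_log_Ioi.concaveOn
    have h4 := hconc.le_map_sum (t := Ico (lo n) (hi n)) (w := wt n)
      (p := fun N => (1 / 2 : ℝ) ^ (C (Nat.pair u N)) * 2 ^ (Nat.log 2 N))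
      (fun N _ => wt_nonneg n N) (sum_wt n) (fun N _ => by
        rw [Set.mem_Ioi]; positivity)
    simp only [smul_eq_mul] at h4
    have h5 : ∑ N ∈ Ico (lo n) (hi n), wt n N * ((1 / 2 : ℝ) ^ (C (Nat.pair u N)) *
        2 ^ (Nat.log 2 N)) = (1 / 2) ^ n * X := by
      rw [hX, Finset.mul_sum]
      apply Finset.sum_congr rfl
      intro N _
      unfold wt
      have : ((1 : ℝ) / 2) ^ (Nat.log 2 N) * 2 ^ (Nat.log 2 N) = 1 := by
        rw [← mul_pow]; norm_num
      calc (1 / 2 : ℝ) ^ n * (1 / 2) ^ (Nat.log 2 N) * ((1 / 2) ^ (C (Nat.pair u N)) *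
          2 ^ (Nat.log 2 N)) = (1 / 2) ^ n * (1 / 2) ^ (C (Nat.pair u N)) *
          (((1 : ℝ) / 2) ^ (Nat.log 2 N) * 2 ^ (Nat.log 2 N)) := by ring
        _ = _ := by rw [this, mul_one]
    rw [h5] at h4
    have hl2 : 0 < Real.log 2 := Real.log_pos (by norm_num)
    have h6 : ∀ N, Real.log ((1 / 2 : ℝ) ^ (C (Nat.pair u N)) * 2 ^ (Nat.log 2 N)) =
        ((Nat.log 2 N : ℝ) - C (Nat.pair u N)) * Real.log 2 := by
      intro N
      rw [Real.log_mul (by positivity) (by positivity), Real.log_pow, Real.log_pow, one_div,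
        Real.log_inv]
      ring
    have h7 : Real.log ((1 / 2) ^ n * X) = (- n + Real.logb 2 X) * Real.log 2 := by
      rw [Real.log_mul (by positivity) hXpos.ne', Real.log_pow, one_div, Real.log_inv]
      unfold Real.logb
      field_simp
    rw [h7] at h4
    have h8 : ∑ N ∈ Ico (lo n) (hi n), wt n N *
        Real.log ((1 / 2 : ℝ) ^ (C (Nat.pair u N)) * 2 ^ (Nat.log 2 N)) =
        (∑ N ∈ Ico (lo n) (hi n), wt n N * (Nat.log 2 N - (C (Nat.pair u N) : ℝ))) *
          Real.log 2 := by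
      rw [Finset.sum_mul]
      apply Finset.sum_congr rfl
      intro N _
      rw [h6]
      ring
    rw [h8] at h4
    exact le_of_mul_le_mul_right h4 hl2
  have h9 : ∑ N ∈ Ico (lo n) (hi n), wt n N * ((C (Nat.pair u N) : ℝ) - Nat.log 2 N) =
      - ∑ N ∈ Ico (lo n) (hi n), wt n N * (Nat.log 2 N - (C (Nat.pair u N) : ℝ)) := by
    rw [← Finset.sum_neg_distrib]
    apply Finset.sum_congr rfl
    intro N _
    ring
  rw [h9]
  linarith

end Pool.Agent.R557.CK
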