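import Pool.Agent.TH676.CK.Bridge
import Pool.Agent.H166R3.AT.CT

set_option autoImplicit false

/-! Abstract facts on plain complexity `C` and prefix complexity `K` of natural numbers. -/

namespace Pool.Agent.R557.CK

open Finset
open Pool.Agent.Helper981.KP (USC Kraft IsKP approx_le finite_of_kraft half_pow_le)
open Pool.Agent.TH676.CK (IsPlain PCount approx_plain exists_approx)
open Pool.Agent.H166R3.AT (c_add c_mul c_sub c_div c_mod c_pow c_sum c_le c_lt c_eq c_and c_or c_not)

section basics
variable {α : Type*} [Primcodable α]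

lemma c_ite' {σ : Type*} [Primcodable σ] {p : α → Prop} [DecidablePred p] {f g : α → σ}
    (hp : Computable fun x => decide (p x)) (hf : Computable f) (hg : Computable g) :
    Computable fun x => if p x then f x else g x := by
  refine (Computable.cond hp hf hg).of_eq fun x => ?_
  by_cases h : p x
  · simp [h]
  · simp [h]

lemma c_pair {f g : α → ℕ} (hf : Computable f) (hg : Computable g) :
    Computable fun x => Nat.pair (f x) (g x) := (Primrec₂.natPair.to_comp).comp hf hg

lemma c_log2 {f : α → ℕ} (hf : Computable f) : Computable fun x => Nat.log 2 (f x) := by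
  have h : Primrec (fun n : ℕ => Nat.log 2 n) := by
    have hP : PrimrecRel (fun (n k : ℕ) => 2 ^ k ≤ n) := by
      have h1 : Primrec (fun q : ℕ × ℕ => 2 ^ q.2) :=
        (Pool.Agent.Helper981.KP.primrec_pow).comp (Primrec.const 2) Primrec.snd
      exact Primrec.nat_le.comp h1 Primrec.fst
    refine (Primrec.nat_findGreatest Primrec.id hP).of_eq fun n => ?_
    rw [Nat.findGreatest_eq_iff]
    refine ⟨Nat.log_le_self 2 n, ?_, ?_⟩
    · intro h0
      apply Nat.pow_log_le_self
      rintro rfl
      simp at h0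
    · intro m hm _ hm2
      have hn : n ≠ 0 := by
        rintro rfl
        have h3 : 0 < 2 ^ m := by positivity
        exact absurd hm2 (by omega)
      have := (Nat.le_log_iff_pow_le (by norm_num) hn).2 hm2
      omega
  exact h.to_comp.comp hf

end basics

/-! ### plain complexity -/

lemma two_geo (n : ℕ) : ∑ l ∈ range n, 2 ^ l ≤ 2 ^ n - 1 := by
  induction n with
  | zero => simp
  | succ n ih =>
    rw [sum_range_succ, pow_succ]
    have : 0 < 2 ^ n := by positivity
    omega

/-- computable maps do not increase plain complexity -/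
lemma plain_comp {C : ℕ → ℕ} (hC : IsPlain C) (h : ℕ → ℕ) (hh : Computable h) :
    ∃ c : ℕ, ∀ u, C (h u) ≤ C u + c := by
  classical
  obtain ⟨f, hf, hfC⟩ := hC.1
  set g : ℕ → ℕ → ℕ := fun z t => if h t.unpair.1 = z then f t.unpair.1 t.unpair.2 + 1
    else f z t.unpair.2 + 1 with hg
  have hgc : Computable₂ g := by
    have p1 : Computable (fun p : ℕ × ℕ => p.2.unpair.1) :=
      Computable.fst.comp (Computable.unpair.comp Computable.snd)
    have p2 : Computable (fun p : ℕ × ℕ => p.2.unpair.2) :=
      Computable.snd.comp (Computable.unpair.comp Computable.snd)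
    have hc : Computable (fun p : ℕ × ℕ => decide (h p.2.unpair.1 = p.1)) :=
      (Primrec.eq.decide.to_comp).comp (hh.comp p1) Computable.fst
    exact c_ite' hc (Computable.succ.comp (hf.comp p1 p2))
      (Computable.succ.comp (hf.comp Computable.fst p2))
  obtain ⟨c, hc⟩ := approx_plain hC g hgc (by
    intro k U τ hU
    cases k with
    | zero =>
      have : U = ∅ := by
        rw [Finset.eq_empty_iff_forall_notMem]
        intro u hu
        have := hU u hu
        simp only [hg] at this
        split_ifs at this <;> omega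
      rw [this]; simp
    | succ k =>
      rw [← Finset.card_filter_add_card_filter_not (s := U) (fun u => h (τ u).unpair.1 = u)]
      have h1 : (U.filter (fun u => h (τ u).unpair.1 = u)).card ≤ 2 ^ (k + 1) := by
        have hinj : Set.InjOn (fun z => (τ z).unpair.1)
            ((U.filter fun z => h (τ z).unpair.1 = z : Finset ℕ) : Set ℕ) := by
          intro a ha b hb hab
          simp only [Finset.coe_filter, Set.mem_ofPred_eq] at ha hb
          rw [← ha.2, ← hb.2]
          exact congrArg h hab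
        rw [← Finset.card_image_of_injOn hinj]
        apply hC.2.1
        intro x hx
        rw [Finset.mem_image] at hx
        obtain ⟨u, hu, rfl⟩ := hx
        rw [Finset.mem_filter] at hu
        have h2 := hU u hu.1
        simp only [hg, hu.2, if_true] at h2
        have h3 := (hfC (τ u).unpair.1).1 (τ u).unpair.2
        omega
      have h2 : (U.filter (fun u => ¬ h (τ u).unpair.1 = u)).card ≤ 2 ^ (k + 1) := by
        apply hC.2.1
        intro u hu
        rw [Finset.mem_filter] at hu
        have h2 := hU u hu.1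
        simp only [hg, hu.2, if_false] at h2
        have h3 := (hfC u).1 (τ u).unpair.2
        omega
      rw [pow_succ 2 (k + 1)]
      omega)
  refine ⟨c + 1, fun u => ?_⟩
  obtain ⟨v, hv⟩ := (hfC u).2
  have := hc (h u) (Nat.pair u v)
  simp only [hg, Nat.unpair_pair, if_true] at this
  rw [hv] at this
  omega

/-- `C(N)` is at most the length of the binary expansion -/
lemma plain_log {C : ℕ → ℕ} (hC : IsPlain C) : ∃ c : ℕ, ∀ u, C u ≤ Nat.log 2 u + c := by
  obtain ⟨c, hc⟩ := approx_plain hC (fun u _ => Nat.log 2 u) (c_log2 Computable.fst) (by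
    intro k U τ hU
    have h1 : U ⊆ range (2 ^ (k + 1)) := by
      intro u hu
      rw [mem_range]
      exact Nat.lt_pow_of_log_lt (by norm_num) (Nat.lt_succ_of_le (hU u hu))
    have := card_le_card h1
    rwa [card_range] at this)
  exact ⟨c, fun u => hc u 0⟩

/-- a bound for sums of `2 ^ (- C)` over finite sets -/
lemma plain_sum {C : ℕ → ℕ} (hC : PCount C) (Z : Finset ℕ) (M : ℕ) :
    ∑ z ∈ Z, ((1 : ℝ) / 2) ^ C z ≤ 2 * (M + 1) + Z.card * (1 / 2) ^ M := by
  classical
  rw [← Finset.sum_filter_add_sum_filter_not Z (fun z => C z ≤ M)]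
  have h1 : ∑ z ∈ Z.filter (fun z => C z ≤ M), ((1 : ℝ) / 2) ^ C z ≤ 2 * (M + 1) := by
    have hmaps : ∀ z ∈ Z.filter (fun z => C z ≤ M), C z ∈ range (M + 1) := fun z hz =>
      mem_range.2 (Nat.lt_succ_of_le (mem_filter.1 hz).2)
    rw [← Finset.sum_fiberwise_of_maps_to hmaps]
    have h2 : ∀ l ∈ range (M + 1), ∑ z ∈ (Z.filter (fun z => C z ≤ M)).filter (fun z => C z = l),
        ((1 : ℝ) / 2) ^ C z ≤ 2 := by
      intro l _
      have h3 : ∑ z ∈ (Z.filter (fun z => C z ≤ M)).filter (fun z => C z = l),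
          ((1 : ℝ) / 2) ^ C z = (((Z.filter (fun z => C z ≤ M)).filter (fun z => C z = l)).card : ℝ) *
            (1 / 2) ^ l := by
        rw [← nsmul_eq_mul, ← Finset.sum_const]
        apply Finset.sum_congr rfl
        intro z hz
        rw [(mem_filter.1 hz).2]
      rw [h3]
      have h4 : ((Z.filter (fun z => C z ≤ M)).filter (fun z => C z = l)).card ≤ 2 ^ (l + 1) := by
        apply hC
        intro z hz
        exact (mem_filter.1 hz).2.le
      have h5 : ((((Z.filter (fun z => C z ≤ M)).filter (fun z => C z = l)).card : ℕ) : ℝ) ≤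
          2 ^ (l + 1) := by exact_mod_cast h4
      calc (((Z.filter (fun z => C z ≤ M)).filter (fun z => C z = l)).card : ℝ) * (1 / 2) ^ l
          ≤ 2 ^ (l + 1) * (1 / 2) ^ l := mul_le_mul_of_nonneg_right h5 (by positivity)
        _ = 2 * (2 * (1 / 2)) ^ l := by rw [mul_pow]; ring
        _ = 2 := by norm_num
    refine (Finset.sum_le_sum h2).trans ?_
    rw [Finset.sum_const, card_range, nsmul_eq_mul]
    push_cast
    linarith
  have h2 : ∑ z ∈ Z.filter (fun z => ¬ C z ≤ M), ((1 : ℝ) / 2) ^ C z ≤ Z.card * (1 / 2) ^ M := by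
    calc ∑ z ∈ Z.filter (fun z => ¬ C z ≤ M), ((1 : ℝ) / 2) ^ C z
        ≤ ∑ z ∈ Z.filter (fun z => ¬ C z ≤ M), ((1 : ℝ) / 2) ^ M := by
          apply Finset.sum_le_sum
          intro z hz
          have := (mem_filter.1 hz).2
          exact half_pow_le (by omega)
      _ = ((Z.filter (fun z => ¬ C z ≤ M)).card : ℝ) * (1 / 2) ^ M := by
          rw [Finset.sum_const, nsmul_eq_mul]
      _ ≤ _ := by
          apply mul_le_mul_of_nonneg_right _ (by positivity)
          exact_mod_cast Finset.card_filter_le _ _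
  linarith

/-! ### prefix complexity -/

/-- the coding theorem for computable lower approximations `M u t / 2 ^ (e u t)` -/
lemma coding {K : ℕ → ℕ} (hK : IsKP K) (M e : ℕ → ℕ → ℕ) (hM : Computable₂ M)
    (he : Computable₂ e)
    (hsum : ∀ (U : Finset ℕ) (τ : ℕ → ℕ), ∑ u ∈ U, (M u (τ u) : ℝ) / 2 ^ (e u (τ u)) ≤ 1) :
    ∃ c : ℕ, ∀ u t, 0 < M u t → (K u : ℝ) + Real.logb 2 (M u t) ≤ e u t + c := by
  classical
  set g : ℕ → ℕ → ℕ := fun u t => if M u t = 0 then u + 2 else e u t + 2 - Nat.log 2 (M u t) with hg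
  have hgc : Computable₂ g := by
    refine c_ite' (c_eq hM (Computable.const 0)) (c_add Computable.fst (Computable.const 2)) ?_
    exact c_sub (c_add he (Computable.const 2)) (c_log2 hM)
  -- no truncation
  have hlog : ∀ u t, M u t ≠ 0 → Nat.log 2 (M u t) ≤ e u t := by
    intro u t h0
    have h1 := hsum {u} (fun _ => t)
    rw [sum_singleton, div_le_one (by positivity)] at h1
    have h2 : M u t ≤ 2 ^ (e u t) := by exact_mod_cast h1
    calc Nat.log 2 (M u t) ≤ Nat.log 2 (2 ^ (e u t)) := Nat.log_mono_right h2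
      _ = e u t := Nat.log_pow (by norm_num) _
  obtain ⟨c, hc⟩ := approx_le hK g hgc (by
    intro U τ
    have h1 : ∀ u, ((1 : ℝ) / 2) ^ (g u (τ u)) ≤ (1 / 2) ^ (u + 2) +
        (1 / 4) * ((M u (τ u) : ℝ) / 2 ^ (e u (τ u))) := by
      intro u
      simp only [hg]
      split_ifs with h0
      · rw [h0]; simp
      · have h2 := hlog u (τ u) h0
        have h3 : ((2 : ℝ) ^ (Nat.log 2 (M u (τ u)))) ≤ M u (τ u) := by
          exact_mod_cast Nat.pow_log_le_self 2 h0
        have h4 : ((1 : ℝ) / 2) ^ (e u (τ u) + 2 - Nat.log 2 (M u (τ u))) =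
            (1 / 4) * ((2 : ℝ) ^ (Nat.log 2 (M u (τ u))) / 2 ^ (e u (τ u))) := by
          have h5 : ((1 : ℝ) / 2) ^ (e u (τ u) + 2 - Nat.log 2 (M u (τ u))) *
              (1 / 2) ^ (Nat.log 2 (M u (τ u))) = (1 / 2) ^ (e u (τ u) + 2) := by
            rw [← pow_add]; congr 1; omega
          have h6 : ((1 : ℝ) / 2) ^ (Nat.log 2 (M u (τ u))) * 2 ^ (Nat.log 2 (M u (τ u))) = 1 := by
            rw [← mul_pow]; norm_num
          have h7 : ((1 : ℝ) / 2) ^ (e u (τ u)) * 2 ^ (e u (τ u)) = 1 := by
            rw [← mul_pow]; norm_num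
          calc ((1 : ℝ) / 2) ^ (e u (τ u) + 2 - Nat.log 2 (M u (τ u))) =
              (((1 : ℝ) / 2) ^ (e u (τ u) + 2 - Nat.log 2 (M u (τ u))) *
              (1 / 2) ^ (Nat.log 2 (M u (τ u)))) * 2 ^ (Nat.log 2 (M u (τ u))) := by
                rw [mul_assoc, h6, mul_one]
            _ = (1 / 2) ^ (e u (τ u) + 2) * 2 ^ (Nat.log 2 (M u (τ u))) := by rw [h5]
            _ = (1 / 4) * ((2 : ℝ) ^ (Nat.log 2 (M u (τ u))) / 2 ^ (e u (τ u))) := by
                rw [pow_add, eq_div_of_mul_eq (by positivity) h7]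
                ring
        rw [h4]
        have h5 : (2 : ℝ) ^ (Nat.log 2 (M u (τ u))) / 2 ^ (e u (τ u)) ≤
            (M u (τ u) : ℝ) / 2 ^ (e u (τ u)) := div_le_div_of_nonneg_right h3 (by positivity)
        have h6 : (0 : ℝ) ≤ (1 / 2) ^ (u + 2) := by positivity
        linarith
    refine (Finset.sum_le_sum fun u _ => h1 u).trans ?_
    rw [Finset.sum_add_distrib, ← Finset.mul_sum]
    have h2 := hsum U τ
    have h3 : ∑ u ∈ U, ((1 : ℝ) / 2) ^ (u + 2) ≤ 1 / 2 := by
      have h4 : U ⊆ range (U.sup id + 1) := by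
        intro u hu
        rw [mem_range]
        have := Finset.le_sup (f := id) hu
        simp only [id] at this
        omega
      refine (Finset.sum_le_sum_of_subset_of_nonneg h4 (fun _ _ _ => by positivity)).trans ?_
      have h5 := sum_geometric_two_le (U.sup id + 1)
      calc ∑ u ∈ range (U.sup id + 1), ((1 : ℝ) / 2) ^ (u + 2) =
          (1 / 4) * ∑ u ∈ range (U.sup id + 1), ((1 : ℝ) / 2) ^ u := by
            rw [Finset.mul_sum]
            apply Finset.sum_congr rfl
            intro u _
            rw [pow_add]; ring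
        _ ≤ 1 / 2 := by linarith
    linarith)
  refine ⟨c + 3, fun u t h0 => ?_⟩
  have h1 := hc u t
  simp only [hg] at h1
  rw [if_neg h0.ne'] at h1
  have h2 := hlog u t h0.ne'
  have h3 : K u + Nat.log 2 (M u t) ≤ e u t + 2 + c := by omega
  have h4 : Real.logb 2 (M u t) ≤ Nat.log 2 (M u t) + 1 := by
    rw [Real.logb_le_iff_le_rpow (by norm_num) (by exact_mod_cast h0)]
    have h5 := Nat.lt_pow_succ_log_self (b := 2) (by norm_num) (M u t)
    have h6 : (M u t : ℝ) ≤ 2 ^ (Nat.log 2 (M u t) + 1) := by exact_mod_cast h5.le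
    calc (M u t : ℝ) ≤ 2 ^ (Nat.log 2 (M u t) + 1) := h6
      _ = (2 : ℝ) ^ ((Nat.log 2 (M u t) : ℝ) + 1) := by
        rw [← Real.rpow_natCast]; push_cast; rfl
  have h5 : (K u : ℝ) + Nat.log 2 (M u t) ≤ e u t + 2 + c := by exact_mod_cast h3
  push_cast
  linarith

end Pool.Agent.R557.CK
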