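import Pool.Agent.R557.CKDef

set_option autoImplicit false

/-! A slowly growing clock: combinatorial part. -/

namespace Pool.Agent.R557.CK

open Finset
open Pool.Agent.Helper981.KP (USC Kraft IsKP approx_le finite_of_kraft half_pow_le comp_le fmin
  computable_fmin)

/-- the first `t` binary digits of `v` -/
def bitl (t v : ℕ) : List Bool := (List.range t).map (fun i => v.testBit i)

lemma bitl_length (t v : ℕ) : (bitl t v).length = t := by simp [bitl]

lemma bitl_take {s t : ℕ} (h : s ≤ t) (v : ℕ) : (bitl t v).take s = bitl s v := by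
  unfold bitl
  rw [← List.map_take, List.take_range, min_eq_left h]

lemma bitl_succ (t v : ℕ) : bitl (t + 1) v = bitl t v ++ [v.testBit t] := by
  unfold bitl
  rw [List.range_succ, List.map_append]
  rfl

lemma bitl_inj {t v w : ℕ} (hv : v < 2 ^ t) (hw : w < 2 ^ t) (h : bitl t v = bitl t w) : v = w := by
  unfold bitl at h
  rw [List.map_inj_left] at h
  apply Nat.eq_of_testBit_eq
  intro i
  by_cases hi : i < t
  · exact h i (List.mem_range.2 hi)
  · have h1 : 2 ^ t ≤ 2 ^ i := Nat.pow_le_pow_right (by norm_num) (by omega)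
    rw [Nat.testBit_lt_two_pow (lt_of_lt_of_le hv h1), Nat.testBit_lt_two_pow (lt_of_lt_of_le hw h1)]

lemma bitl_add (t v : ℕ) : bitl t (2 ^ t + v) = bitl t v := by
  unfold bitl
  rw [List.map_inj_left]
  intro i hi
  exact Nat.testBit_two_pow_add_gt (List.mem_range.1 hi) v

lemma exists_bitl (t : ℕ) : ∀ l : List Bool, l.length = t → ∃ v < 2 ^ t, bitl t v = l := by
  induction t with
  | zero =>
    intro l hl
    refine ⟨0, by norm_num, ?_⟩
    rw [List.length_eq_zero_iff] at hl
    rw [hl]; rfl
  | succ t ih =>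
    intro l hl
    have hne : l ≠ [] := by
      intro h
      rw [h] at hl
      simp at hl
    obtain ⟨v, hv, hvl⟩ := ih l.dropLast (by rw [List.length_dropLast]; omega)
    have h0 := List.dropLast_append_getLast hne
    cases hb : l.getLast hne with
    | false =>
      refine ⟨v, by rw [pow_succ]; omega, ?_⟩
      rw [bitl_succ, hvl, Nat.testBit_lt_two_pow hv, ← hb, h0]
    | true =>
      refine ⟨2 ^ t + v, by rw [pow_succ]; omega, ?_⟩
      rw [bitl_succ, bitl_add, hvl, Nat.testBit_two_pow_add_eq, Nat.testBit_lt_two_pow hv]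
      rw [Bool.not_false, ← hb, h0]

section
variable (str : ℕ ≃ List Bool)

/-- the number of the string number `v` of length `t` -/
def code (t v : ℕ) : ℕ := str.symm (bitl t v)

lemma len_code (t v : ℕ) : len str (code str t v) = t := by
  unfold len code
  rw [Equiv.apply_symm_apply, bitl_length]

lemma tk_code {s t : ℕ} (h : s ≤ t) (v : ℕ) : tk str s (code str t v) = code str s v := by
  unfold tk code
  rw [Equiv.apply_symm_apply, bitl_take h]

lemma tk_tk {s t : ℕ} (h : s ≤ t) (u : ℕ) : tk str s (tk str t u) = tk str s u := by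
  unfold tk
  rw [Equiv.apply_symm_apply, List.take_take, min_eq_left h]

lemma exists_code {t u : ℕ} (h : len str u = t) : ∃ v < 2 ^ t, code str t v = u := by
  obtain ⟨v, hv, hvl⟩ := exists_bitl t (str u) h
  refine ⟨v, hv, ?_⟩
  unfold code
  rw [hvl, Equiv.symm_apply_apply]

lemma code_add (t v : ℕ) : code str t (2 ^ t + v) = code str t v := by
  unfold code
  rw [bitl_add]

lemma code_inj {t v w : ℕ} (hv : v < 2 ^ t) (hw : w < 2 ^ t) (h : code str t v = code str t w) :
    v = w := bitl_inj hv hw (str.symm.injective h)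

/-- the mean over the strings of length `t` -/
noncomputable def Em (t : ℕ) (f : ℕ → ℝ) : ℝ := (∑ v ∈ range (2 ^ t), f (code str t v)) / 2 ^ t

lemma Em_mono (t : ℕ) {f g : ℕ → ℝ} (h : ∀ u, len str u = t → f u ≤ g u) : Em str t f ≤ Em str t g := by
  unfold Em
  apply div_le_div_of_nonneg_right _ (by positivity)
  exact Finset.sum_le_sum (fun v _ => h _ (len_code str t v))

lemma Em_add (t : ℕ) (f g : ℕ → ℝ) : Em str t (fun u => f u + g u) = Em str t f + Em str t g := by
  unfold Em
  rw [Finset.sum_add_distrib, add_div]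

lemma Em_sub (t : ℕ) (f g : ℕ → ℝ) : Em str t (fun u => f u - g u) = Em str t f - Em str t g := by
  unfold Em
  rw [Finset.sum_sub_distrib, sub_div]

lemma Em_mul (t : ℕ) (c : ℝ) (f : ℕ → ℝ) : Em str t (fun u => c * f u) = c * Em str t f := by
  unfold Em
  rw [← Finset.mul_sum, mul_div_assoc]

lemma Em_nonneg (t : ℕ) {f : ℕ → ℝ} (h : ∀ u, 0 ≤ f u) : 0 ≤ Em str t f := by
  unfold Em
  exact div_nonneg (Finset.sum_nonneg fun _ _ => h _) (by positivity)

lemma Em_sum {ι : Type*} (s : Finset ι) (t : ℕ) (f : ι → ℕ → ℝ) :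
    Em str t (fun u => ∑ i ∈ s, f i u) = ∑ i ∈ s, Em str t (f i) := by
  unfold Em
  rw [Finset.sum_comm, Finset.sum_div]

lemma sum_code_succ (t : ℕ) (f : ℕ → ℝ) :
    ∑ v ∈ range (2 ^ (t + 1)), f (code str t v) = 2 * ∑ v ∈ range (2 ^ t), f (code str t v) := by
  have e : 2 ^ (t + 1) = 2 ^ t + 2 ^ t := by ring
  rw [e, Finset.sum_range_add]
  simp only [code_add]
  ring

lemma Em_succ (t : ℕ) (f : ℕ → ℝ) : Em str (t + 1) (fun u => f (tk str t u)) = Em str t f := by
  unfold Em
  have h1 : ∀ v, f (tk str t (code str (t + 1) v)) = f (code str t v) := by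
    intro v
    rw [tk_code str (Nat.le_succ t)]
  simp only [h1]
  rw [sum_code_succ, pow_succ]
  field_simp

lemma Em_tk {s t : ℕ} (h : s ≤ t) (f : ℕ → ℝ) : Em str t (fun u => f (tk str s u)) = Em str s f := by
  induction t, h using Nat.le_induction with
  | base =>
    unfold Em
    have h1 : ∀ v, f (tk str s (code str s v)) = f (code str s v) := by
      intro v
      rw [tk_code str le_rfl]
    simp only [h1]
  | succ t h ih =>
    rw [← ih, ← Em_succ str t (fun u => f (tk str s u))]
    congr 1
    funext u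
    rw [tk_tk str h]

variable (a : ℕ → ℕ → ℕ)

/-- the mass of the initial segment of length `z` at stage `t` -/
noncomputable def qq (t z u : ℕ) : ℝ := 2 ^ z * (1 / 2) ^ (a (tk str z u) t)

/-- the mass of the initial segments of lengths between `s` and `t`, at stage `t` -/
noncomputable def TT (s t u : ℕ) : ℝ := ∑ z ∈ Ico s (t + 1), qq str a t z u

variable {a}

lemma qq_nonneg (t z u : ℕ) : 0 ≤ qq str a t z u := by unfold qq; positivity

lemma qq_pos (t z u : ℕ) : 0 < qq str a t z u := by unfold qq; positivity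

lemma TT_nonneg (s t u : ℕ) : 0 ≤ TT str a s t u := Finset.sum_nonneg fun _ _ => qq_nonneg str _ _ _

lemma qq_mono (ha : ∀ x t t', t ≤ t' → a x t' ≤ a x t) {t t' : ℕ} (h : t ≤ t') (z u : ℕ) :
    qq str a t z u ≤ qq str a t' z u := by
  unfold qq
  exact mul_le_mul_of_nonneg_left (half_pow_le (ha _ _ _ h)) (by positivity)

lemma qq_tk {z s : ℕ} (h : z ≤ s) (t u : ℕ) : qq str a t z (tk str s u) = qq str a t z u := by
  unfold qq
  rw [tk_tk str h]

lemma TT_tk (s t u : ℕ) : TT str a s t (tk str t u) = TT str a s t u := by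
  unfold TT
  apply Finset.sum_congr rfl
  intro z hz
  rw [mem_Ico] at hz
  exact qq_tk str (by omega) t u

lemma TT_split {s t : ℕ} (h : s ≤ t + 1) (u : ℕ) : TT str a 0 t u = ∑ z ∈ Ico 0 s, qq str a t z u +
    TT str a s t u := by
  unfold TT
  rw [Finset.sum_Ico_consecutive _ (Nat.zero_le _) h]

lemma TT_anti {s s' : ℕ} (h : s ≤ s') (t u : ℕ) : TT str a s' t u ≤ TT str a s t u := by
  unfold TT
  apply Finset.sum_le_sum_of_subset_of_nonneg _ (fun _ _ _ => qq_nonneg str _ _ _)
  exact Finset.Ico_subset_Ico_left h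

/-- increments -/
lemma TT_incr (ha : ∀ x t t', t ≤ t' → a x t' ≤ a x t) {s t : ℕ} (h : s ≤ t) (u : ℕ) :
    TT str a s (t + 1) u ≤ TT str a s t u + (TT str a 0 (t + 1) u - TT str a 0 t u) := by
  rw [TT_split str (s := s) (t := t + 1) (by omega), TT_split str (s := s) (t := t) (by omega)]
  have h1 : ∑ z ∈ Ico 0 s, qq str a t z u ≤ ∑ z ∈ Ico 0 s, qq str a (t + 1) z u :=
    Finset.sum_le_sum fun z _ => qq_mono str ha (Nat.le_succ t) z u
  linarith

lemma TT_last (ha : ∀ x t t', t ≤ t' → a x t' ≤ a x t) (t u : ℕ) :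
    TT str a (t + 1) (t + 1) u ≤ TT str a 0 (t + 1) u - TT str a 0 t u := by
  rw [TT_split str (s := t + 1) (t := t + 1) (by omega)]
  have h1 : TT str a 0 t u ≤ ∑ z ∈ Ico 0 (t + 1), qq str a (t + 1) z u := by
    unfold TT
    exact Finset.sum_le_sum fun z _ => qq_mono str ha (Nat.le_succ t) z u
  linarith

variable (a) (al : ℕ → ℝ)

/-- the excess -/
noncomputable def ee (k t u : ℕ) : ℝ :=
  (range (t + 1)).sup' ⟨t, by simp⟩ (fun s => al s + (1 / 2) ^ k * TT str a s t u) - al t

variable {a al}

lemma le_ee {s t : ℕ} (h : s ≤ t) (k u : ℕ) :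
    al s + (1 / 2) ^ k * TT str a s t u ≤ ee str a al k t u + al t := by
  have h1 : al s + (1 / 2) ^ k * TT str a s t u ≤ (range (t + 1)).sup' ⟨t, by simp⟩
      (fun s => al s + (1 / 2) ^ k * TT str a s t u) :=
    Finset.le_sup' (f := fun s => al s + (1 / 2) ^ k * TT str a s t u)
      (mem_range.2 (Nat.lt_succ_of_le h))
  unfold ee
  linarith

lemma ee_nonneg (k t u : ℕ) : 0 ≤ ee str a al k t u := by
  have h1 := le_ee str (a := a) (al := al) (le_refl t) k u
  have h2 : 0 ≤ (1 / 2 : ℝ) ^ k * TT str a t t u := mul_nonneg (by positivity) (TT_nonneg str _ _ _)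
  linarith

lemma ee_step (ha : ∀ x t t', t ≤ t' → a x t' ≤ a x t) (k t u : ℕ) :
    ee str a al k (t + 1) u ≤ ee str a al k t (tk str t u) -
      min (ee str a al k t (tk str t u)) (al (t + 1) - al t) +
      (1 / 2) ^ k * (TT str a 0 (t + 1) u - TT str a 0 t (tk str t u)) := by
  have hmax : ee str a al k t (tk str t u) - min (ee str a al k t (tk str t u)) (al (t + 1) - al t) =
      max 0 (ee str a al k t (tk str t u) - (al (t + 1) - al t)) := by
    rcases le_total (ee str a al k t (tk str t u)) (al (t + 1) - al t) with h | h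
    · rw [min_eq_left h, max_eq_left (by linarith)]; ring
    · rw [min_eq_right h, max_eq_right (by linarith)]
  rw [hmax, TT_tk]
  set D := TT str a 0 (t + 1) u - TT str a 0 t u with hD
  have hp : (0 : ℝ) ≤ (1 / 2) ^ k := by positivity
  have h0 : ee str a al k (t + 1) u + al (t + 1) ≤
      al (t + 1) + max 0 (ee str a al k t (tk str t u) - (al (t + 1) - al t)) + (1 / 2) ^ k * D := by
    have e1 : ee str a al k (t + 1) u + al (t + 1) = (range (t + 1 + 1)).sup' ⟨t + 1, by simp⟩
        (fun s => al s + (1 / 2) ^ k * TT str a s (t + 1) u) := by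
      unfold ee; ring
    rw [e1]
    apply Finset.sup'_le
    intro s hs
    rw [mem_range] at hs
    by_cases hst : s ≤ t
    · have h1 := TT_incr str ha hst u
      have h2 := mul_le_mul_of_nonneg_left h1 hp
      have h3 := le_ee str (a := a) (al := al) hst k (tk str t u)
      rw [TT_tk] at h3
      have h4 := le_max_right 0 (ee str a al k t (tk str t u) - (al (t + 1) - al t))
      rw [mul_add] at h2
      linarith
    · have e : s = t + 1 := by omega
      subst e
      have h1 := mul_le_mul_of_nonneg_left (TT_last str ha t u) hp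
      have h4 := le_max_left 0 (ee str a al k t (tk str t u) - (al (t + 1) - al t))
      linarith
  linarith

/-- the potential inequality -/
lemma potential (ha : ∀ x t t', t ≤ t' → a x t' ≤ a x t) (k N : ℕ) :
    ∑ t ∈ range N, Em str t (fun u => min (ee str a al k t u) (al (t + 1) - al t)) +
      Em str N (ee str a al k N) ≤ (1 / 2) ^ k * Em str N (TT str a 0 N) := by
  induction N with
  | zero =>
    rw [Finset.sum_range_zero, zero_add, ← Em_mul]
    apply Em_mono
    intro u _
    have : ee str a al k 0 u + al 0 ≤ al 0 + (1 / 2) ^ k * TT str a 0 0 u := by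
      have e1 : ee str a al k 0 u + al 0 = (range (0 + 1)).sup' ⟨0, by simp⟩
        (fun s => al s + (1 / 2) ^ k * TT str a s 0 u) := by
        unfold ee; ring
      rw [e1]
      apply Finset.sup'_le
      intro s hs
      rw [mem_range] at hs
      have : s = 0 := by omega
      rw [this]
    linarith
  | succ N ih =>
    rw [Finset.sum_range_succ]
    have h1 : Em str (N + 1) (ee str a al k (N + 1)) ≤ Em str (N + 1) (fun u =>
        (ee str a al k N (tk str N u) -
      min (ee str a al k N (tk str N u)) (al (N + 1) - al N)) +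
      (1 / 2) ^ k * (TT str a 0 (N + 1) u - TT str a 0 N (tk str N u))) :=
      Em_mono str _ (fun u _ => ee_step str ha k N u)
    rw [Em_add, Em_sub, Em_mul, Em_sub, Em_succ str N (ee str a al k N), Em_succ str N
      (fun u => min (ee str a al k N u) (al (N + 1) - al N)), Em_succ str N (TT str a 0 N)] at h1
    rw [mul_sub] at h1
    linarith

/-- the total mass is at most one -/
lemma mass_le {K : ℕ → ℕ} (hK : Kraft K) (ha1 : ∀ x t, K x ≤ a x t) (t : ℕ) :
    Em str t (TT str a 0 t) ≤ 1 := by
  classical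
  unfold TT
  rw [Em_sum]
  have h1 : ∀ z ∈ Ico 0 (t + 1), Em str t (fun u => qq str a t z u) ≤
      ∑ v ∈ range (2 ^ z), ((1 : ℝ) / 2) ^ (K (code str z v)) := by
    intro z hz
    rw [mem_Ico] at hz
    have h2 : Em str t (fun u => qq str a t z u) = Em str z (fun u => 2 ^ z * (1 / 2) ^ (a u t)) := by
      rw [← Em_tk str (s := z) (t := t) (by omega)]
      rfl
    rw [h2]
    unfold Em
    rw [← Finset.mul_sum, mul_comm, mul_div_assoc, div_self (by positivity), mul_one]
    exact Finset.sum_le_sum fun v _ => half_pow_le (ha1 _ _)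
  refine (Finset.sum_le_sum h1).trans ?_
  have h3 : ∑ z ∈ Ico 0 (t + 1), ∑ v ∈ range (2 ^ z), ((1 : ℝ) / 2) ^ (K (code str z v)) =
      ∑ u ∈ ((Ico 0 (t + 1)).sigma (fun z => range (2 ^ z))).image (fun p => code str p.1 p.2),
        ((1 : ℝ) / 2) ^ (K u) := by
    rw [Finset.sum_image, Finset.sum_sigma]
    intro p hp p' hp' h
    simp only [Finset.coe_sigma, Set.mem_sigma_iff, Finset.mem_coe, mem_range] at hp hp'
    obtain ⟨z, v⟩ := p
    obtain ⟨z', v'⟩ := p'
    simp only at hp hp' h
    have hz : z = z' := by rw [← len_code str z v, ← len_code str z' v', h]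
    subst hz
    have hv : v = v' := code_inj str hp.2 hp'.2 h
    rw [hv]
  rw [h3]
  exact finite_of_kraft hK _

end

end Pool.Agent.R557.CK
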