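import Pool.Agent.R557.CKStr

set_option autoImplicit false

/-! Long initial segments are compressible in terms of the prefix deficiency of short ones. -/

namespace Pool.Agent.R557.CK

open Finset
open Pool.Agent.Helper981.KP (USC Kraft IsKP approx_le finite_of_kraft half_pow_le comp_le fmin
  computable_fmin)
open Pool.Agent.TH676.CK (IsPlain PCount approx_plain fmin_anti' le_fmin' fmin_le' card_len)
open Pool.Agent.H166R3.AT (c_add c_mul c_sub c_div c_mod c_pow c_sum c_le c_lt c_eq c_and c_or
  c_not c_count)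

lemma nat_geo (m : ℕ) : ∑ N ∈ range m, 2 ^ N ≤ 2 ^ m := by
  exact le_trans (two_geo m) (Nat.sub_le _ _)

/-- `∑_{d ≤ m} 2^(d/2 - d) ≤ 4` -/
lemma half_geo (m : ℕ) : ∑ d ∈ range m, ((1 : ℝ) / 2) ^ (d - d / 2) ≤ 4 := by
  have key : ∀ m : ℕ, ∑ d ∈ range (2 * m), ((1 : ℝ) / 2) ^ (d - d / 2) ≤ 3 - 3 * (1 / 2) ^ m := by
    intro m
    induction m with
    | zero => simp
    | succ m ih =>
      have e : 2 * (m + 1) = 2 * m + 1 + 1 := by ring
      rw [e, sum_range_succ, sum_range_succ]
      have e1 : 2 * m - 2 * m / 2 = m := by omega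
      have e2 : 2 * m + 1 - (2 * m + 1) / 2 = m + 1 := by omega
      rw [e1, e2, pow_succ]
      linarith
  have h1 : ∑ d ∈ range m, ((1 : ℝ) / 2) ^ (d - d / 2) ≤
      ∑ d ∈ range (2 * m), ((1 : ℝ) / 2) ^ (d - d / 2) := by
    apply Finset.sum_le_sum_of_subset_of_nonneg _ (fun _ _ _ => by positivity)
    intro d hd
    rw [mem_range] at hd ⊢
    omega
  have h2 := key m
  have h3 : (0 : ℝ) ≤ (1 / 2) ^ m := by positivity
  linarith

section
variable (str : ℕ ≃ List Bool) (a : ℕ → ℕ → ℕ) (c : ℕ)

/-- number of strings of length `n` found at stage `t` with complexity at most `n + k - d` -/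
def cA (n k d t : ℕ) : ℕ :=
  ((range t).filter (fun u => (decide (len str u = n) && decide (a u t + d ≤ n + k)) = true)).card

/-- the condition at stage `t` -/
def cnd (y d t : ℕ) : Prop :=
  ((tk str (len str y).unpair.1 y < t ∧
    a (tk str (len str y).unpair.1 y) t + d ≤ (len str y).unpair.1 + (len str y).unpair.2) ∧
  cA str a (len str y).unpair.1 (len str y).unpair.2 d t * 2 ^ d ≤ 2 ^ ((len str y).unpair.1 + c)) ∧
  d ≤ (len str y).unpair.1 + c

instance (y d t : ℕ) : Decidable (cnd str a c y d t) := by unfold cnd; infer_instance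

/-- the requests -/
def gg (y t : ℕ) : ℕ :=
  if cnd str a c y t.unpair.1 t.unpair.2 then len str y + (c + 4) + (t.unpair.1 - t.unpair.1 / 2) -
    t.unpair.1 else len str y + 1

lemma c_gg (hs : Computable str) (ha : Computable₂ a) : Computable₂ (gg str a c) := by
  have cy : Computable (fun q : ℕ × ℕ => q.1) := Computable.fst
  have cd : Computable (fun q : ℕ × ℕ => q.2.unpair.1) :=
    Computable.fst.comp (Computable.unpair.comp Computable.snd)
  have ct : Computable (fun q : ℕ × ℕ => q.2.unpair.2) :=
    Computable.snd.comp (Computable.unpair.comp Computable.snd)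
  have cN : Computable (fun q : ℕ × ℕ => len str q.1) := (c_len str hs).comp cy
  have cn : Computable (fun q : ℕ × ℕ => (len str q.1).unpair.1) :=
    Computable.fst.comp (Computable.unpair.comp cN)
  have ck : Computable (fun q : ℕ × ℕ => (len str q.1).unpair.2) :=
    Computable.snd.comp (Computable.unpair.comp cN)
  have cx : Computable (fun q : ℕ × ℕ => tk str (len str q.1).unpair.1 q.1) := c_tk str hs cn cy
  have ccA : Computable (fun q : ℕ × ℕ => cA str a (len str q.1).unpair.1 (len str q.1).unpair.2
      q.2.unpair.1 q.2.unpair.2) := by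
    unfold cA
    refine c_count (α := ℕ × ℕ) (n := fun q => q.2.unpair.2)
      (f := fun q u => decide (len str u = (len str q.1).unpair.1) &&
        decide (a u q.2.unpair.2 + q.2.unpair.1 ≤ (len str q.1).unpair.1 + (len str q.1).unpair.2)) ct ?_
    refine c_and (c_eq ((c_len str hs).comp Computable.snd) (cn.comp Computable.fst)) ?_
    exact c_le (c_add (ha.comp Computable.snd (ct.comp Computable.fst)) (cd.comp Computable.fst))
      (c_add (cn.comp Computable.fst) (ck.comp Computable.fst))
  have ccnd : Computable (fun q : ℕ × ℕ => decide (cnd str a c q.1 q.2.unpair.1 q.2.unpair.2)) := by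
    have h := c_and (c_and (c_and (c_lt cx ct) (c_le (c_add (ha.comp cx ct) cd) (c_add cn ck)))
      (c_le (c_mul ccA (c_pow (Computable.const 2) cd)) (c_pow (Computable.const 2)
        (c_add cn (Computable.const c))))) (c_le cd (c_add cn (Computable.const c)))
    refine h.of_eq fun q => ?_
    rw [Bool.eq_iff_iff]
    simp only [Bool.and_eq_true, decide_eq_true_eq]
    exact Iff.rfl
  unfold gg
  refine c_ite' ccnd ?_ (c_add cN (Computable.const 1))
  refine c_sub (c_add (c_add cN (Computable.const (c + 4))) (c_sub cd ?_)) cd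
  exact c_div cd (Computable.const 2)

variable {a}

lemma cA_mono (h : ∀ x t t', t ≤ t' → a x t' ≤ a x t) {n k d t t' : ℕ} (ht : t ≤ t') :
    (range t).filter (fun u => (decide (len str u = n) && decide (a u t + d ≤ n + k)) = true) ⊆
    (range t').filter (fun u => (decide (len str u = n) && decide (a u t' + d ≤ n + k)) = true) := by
  intro u hu
  rw [mem_filter, mem_range] at hu ⊢
  simp only [Bool.and_eq_true, decide_eq_true_eq] at hu ⊢
  have := h u t t' ht
  omega

/-- for fixed `d` and `N`, few strings of length `N` are requested -/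
lemma count_dN (h : ∀ x t t', t ≤ t' → a x t' ≤ a x t) (d N : ℕ) (U : Finset ℕ) (σ : ℕ → ℕ)
    (hU : ∀ y ∈ U, len str y = N ∧ cnd str a c y d (σ y)) : U.card * 2 ^ d ≤ 2 ^ (N + c) := by
  classical
  by_cases hne : U.Nonempty
  swap
  · rw [Finset.not_nonempty_iff_eq_empty] at hne
    rw [hne]; simp
  set n := N.unpair.1 with hn
  set k := N.unpair.2 with hk
  have hnN : n ≤ N := Nat.unpair_left_le N
  -- the latest stage
  obtain ⟨y0, hy0, hmax⟩ := Finset.exists_max_image U σ hne
  have hc0 := (hU y0 hy0).2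
  unfold cnd at hc0
  rw [(hU y0 hy0).1] at hc0
  set A := (range (σ y0)).filter (fun u => (decide (len str u = n) &&
    decide (a u (σ y0) + d ≤ n + k)) = true) with hA
  have hAc : A.card * 2 ^ d ≤ 2 ^ (n + c) := hc0.1.2
  have hmaps : ∀ y ∈ U, tk str n y ∈ A := by
    intro y hy
    obtain ⟨h1, h2⟩ := hU y hy
    unfold cnd at h2
    rw [h1] at h2
    apply cA_mono str h (hmax y hy)
    rw [mem_filter, mem_range]
    simp only [Bool.and_eq_true, decide_eq_true_eq]
    refine ⟨h2.1.1.1, ?_, h2.1.1.2⟩
    exact len_tk str (by rw [h1]; exact hnN)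
  have h1 : U.card ≤ 2 ^ (N - n) * A.card := by
    calc U.card ≤ ∑ x ∈ A, (U.filter (fun y => tk str n y = x)).card := by
          rw [← Finset.card_eq_sum_card_fiberwise hmaps]
      _ ≤ ∑ x ∈ A, 2 ^ (N - n) := by
          apply Finset.sum_le_sum
          intro x _
          apply card_ext_le str hnN x
          intro u hu
          rw [mem_filter] at hu
          exact ⟨(hU u hu.1).1, hu.2⟩
      _ = 2 ^ (N - n) * A.card := by rw [Finset.sum_const, smul_eq_mul, mul_comm]
  calc U.card * 2 ^ d ≤ 2 ^ (N - n) * A.card * 2 ^ d := Nat.mul_le_mul_right _ h1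
    _ = 2 ^ (N - n) * (A.card * 2 ^ d) := by ring
    _ ≤ 2 ^ (N - n) * 2 ^ (n + c) := Nat.mul_le_mul_left _ hAc
    _ = 2 ^ (N + c) := by rw [← pow_add]; congr 1; omega

lemma gg_count (h : ∀ x t t', t ≤ t' → a x t' ≤ a x t) (k : ℕ) (U : Finset ℕ) (τ : ℕ → ℕ)
    (hU : ∀ u ∈ U, gg str a c u (τ u) ≤ k) : U.card ≤ 2 ^ (k + 1) := by
  classical
  rw [← Finset.card_filter_add_card_filter_not (s := U)
    (fun u => cnd str a c u (τ u).unpair.1 (τ u).unpair.2)]
  have h2 : (U.filter (fun u => ¬ cnd str a c u (τ u).unpair.1 (τ u).unpair.2)).card ≤ 2 ^ k := by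
    have hmaps : ∀ u ∈ U.filter (fun u => ¬ cnd str a c u (τ u).unpair.1 (τ u).unpair.2),
        len str u ∈ range k := by
      intro u hu
      rw [mem_filter] at hu
      have h3 := hU u hu.1
      unfold gg at h3
      rw [if_neg hu.2] at h3
      rw [mem_range]
      omega
    rw [Finset.card_eq_sum_card_fiberwise hmaps]
    refine le_trans (Finset.sum_le_sum (g := fun N => 2 ^ N) ?_) (nat_geo k)
    intro N _
    apply card_len_le str N
    intro u hu
    exact (mem_filter.1 hu).2
  have h1 : (U.filter (fun u => cnd str a c u (τ u).unpair.1 (τ u).unpair.2)).card ≤ 2 ^ k := by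
    set U1 := U.filter (fun u => cnd str a c u (τ u).unpair.1 (τ u).unpair.2) with hU1
    -- group by `d` and `N`
    set D := U1.image (fun u => (τ u).unpair.1) with hD
    have hmapsD : ∀ u ∈ U1, (τ u).unpair.1 ∈ D := fun u hu => mem_image_of_mem _ hu
    have hdcount : ∀ d ∈ D, ((U1.filter (fun u => (τ u).unpair.1 = d)).card : ℝ) ≤
        2 ^ k * (1 / 4) * (1 / 2) ^ (d - d / 2) := by
      intro d hd
      have hmaps : ∀ u ∈ U1.filter (fun u => (τ u).unpair.1 = d),
          len str u ∈ (range (k + d + 1)).filter (fun N => N + (c + 4) + (d - d / 2) ≤ k + d) := by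
        intro u hu
        rw [mem_filter, hU1, mem_filter] at hu
        obtain ⟨⟨hu1, hu2⟩, hu3⟩ := hu
        have h3 := hU u hu1
        unfold gg at h3
        rw [if_pos hu2, hu3] at h3
        rw [mem_filter, mem_range]
        omega
      have hN : ∀ N ∈ (range (k + d + 1)).filter (fun N => N + (c + 4) + (d - d / 2) ≤ k + d),
          (((U1.filter (fun u => (τ u).unpair.1 = d)).filter (fun u => len str u = N)).card : ℝ) ≤
            2 ^ (N + c) * (1 / 2) ^ d := by
        intro N _
        have h4 := count_dN str c h d N ((U1.filter (fun u => (τ u).unpair.1 = d)).filter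
          (fun u => len str u = N)) (fun u => (τ u).unpair.2) (by
            intro y hy
            rw [mem_filter, mem_filter, hU1, mem_filter] at hy
            refine ⟨hy.2, ?_⟩
            have := hy.1.1.2
            rw [hy.1.2] at this
            exact this)
        have h5 : ((((U1.filter (fun u => (τ u).unpair.1 = d)).filter
            (fun u => len str u = N)).card : ℕ) : ℝ) * 2 ^ d ≤ 2 ^ (N + c) := by exact_mod_cast h4
        have h6 : (2 : ℝ) ^ d * (1 / 2) ^ d = 1 := by rw [← mul_pow]; norm_num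
        calc ((((U1.filter (fun u => (τ u).unpair.1 = d)).filter
            (fun u => len str u = N)).card : ℕ) : ℝ) = ((((U1.filter (fun u => (τ u).unpair.1 = d)).filter
            (fun u => len str u = N)).card : ℕ) : ℝ) * 2 ^ d * (1 / 2) ^ d := by
              rw [mul_assoc, h6, mul_one]
          _ ≤ 2 ^ (N + c) * (1 / 2) ^ d := mul_le_mul_of_nonneg_right h5 (by positivity)
      rw [Finset.card_eq_sum_card_fiberwise hmaps]
      push_cast
      refine (Finset.sum_le_sum hN).trans ?_
      by_cases hbig : (c + 4) + (d - d / 2) ≤ k + d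
      · -- the geometric sum
        obtain ⟨m, hm⟩ := Nat.exists_eq_add_of_le hbig
        have hsub : (range (k + d + 1)).filter (fun N => N + (c + 4) + (d - d / 2) ≤ k + d) ⊆
            range (m + 1) := by
          intro N hN
          rw [mem_filter, mem_range] at hN
          rw [mem_range]
          omega
        have h4 : ∑ N ∈ (range (k + d + 1)).filter (fun N => N + (c + 4) + (d - d / 2) ≤ k + d),
            (2 : ℝ) ^ (N + c) * (1 / 2) ^ d ≤ 2 ^ (m + 1) * 2 ^ c * (1 / 2) ^ d := by
          calc _ ≤ ∑ N ∈ range (m + 1), (2 : ℝ) ^ (N + c) * (1 / 2) ^ d :=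
                Finset.sum_le_sum_of_subset_of_nonneg hsub (fun _ _ _ => by positivity)
            _ = (∑ N ∈ range (m + 1), (2 : ℝ) ^ N) * 2 ^ c * (1 / 2) ^ d := by
                rw [Finset.sum_mul, Finset.sum_mul]
                apply Finset.sum_congr rfl
                intro N _
                rw [pow_add]
            _ ≤ _ := by
                have h5 : ∑ N ∈ range (m + 1), (2 : ℝ) ^ N ≤ 2 ^ (m + 1) := by
                  exact_mod_cast nat_geo (m + 1)
                have h6 : (0 : ℝ) ≤ 2 ^ c := by positivity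
                have h7 : (0 : ℝ) ≤ (1 / 2) ^ d := by positivity
                exact mul_le_mul_of_nonneg_right (mul_le_mul_of_nonneg_right h5 h6) h7
        refine h4.trans (le_of_lt ?_)
        have h6 : (2 : ℝ) ^ (m + 1) * 2 ^ c * 2 ^ (d - d / 2) * 8 = 2 ^ k * 2 ^ d := by
          have : (8 : ℝ) = 2 ^ 3 := by norm_num
          rw [this, ← pow_add, ← pow_add, ← pow_add, ← pow_add]
          congr 1
          omega
        have h7 : (2 : ℝ) ^ d * (1 / 2) ^ d = 1 := by rw [← mul_pow]; norm_num
        have h8 : (2 : ℝ) ^ (d - d / 2) * (1 / 2) ^ (d - d / 2) = 1 := by rw [← mul_pow]; norm_num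
        have h9 : (2 : ℝ) ^ (m + 1) * 2 ^ c * (1 / 2) ^ d * 8 = 2 ^ k * (1 / 2) ^ (d - d / 2) := by
          calc (2 : ℝ) ^ (m + 1) * 2 ^ c * (1 / 2) ^ d * 8 =
              ((2 : ℝ) ^ (m + 1) * 2 ^ c * 2 ^ (d - d / 2) * 8) * (1 / 2) ^ d *
                (1 / 2) ^ (d - d / 2) := by
                linear_combination (- (2 : ℝ) ^ (m + 1) * 2 ^ c * (1 / 2) ^ d * 8) * h8
            _ = 2 ^ k * (2 ^ d * (1 / 2) ^ d) * (1 / 2) ^ (d - d / 2) := by rw [h6]; ring
            _ = _ := by rw [h7, mul_one]
        have h10 : (0 : ℝ) < 2 ^ k * (1 / 2) ^ (d - d / 2) := by positivity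
        linarith
      · have hemp : (range (k + d + 1)).filter (fun N => N + (c + 4) + (d - d / 2) ≤ k + d) = ∅ := by
          rw [Finset.filter_eq_empty_iff]
          intro N _
          omega
        rw [hemp, Finset.sum_empty]
        positivity
    have hfin : (U1.card : ℝ) ≤ 2 ^ k := by
      rw [Finset.card_eq_sum_card_fiberwise hmapsD]
      push_cast
      refine (Finset.sum_le_sum hdcount).trans ?_
      rw [← Finset.mul_sum]
      have h3 : ∑ d ∈ D, ((1 : ℝ) / 2) ^ (d - d / 2) ≤ 4 := by
        refine le_trans (Finset.sum_le_sum_of_subset_of_nonneg (t := range (D.sup id + 1)) ?_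
          (fun _ _ _ => by positivity)) (half_geo _)
        intro d hd
        rw [mem_range]
        have := Finset.le_sup (f := id) hd
        simp only [id] at this
        omega
      have h4 : (0 : ℝ) ≤ 2 ^ k * (1 / 4) := by positivity
      calc (2 : ℝ) ^ k * (1 / 4) * ∑ d ∈ D, ((1 : ℝ) / 2) ^ (d - d / 2) ≤ 2 ^ k * (1 / 4) * 4 :=
            mul_le_mul_of_nonneg_left h3 h4
        _ = 2 ^ k := by ring
    exact_mod_cast hfin
  rw [pow_succ]
  omega

end

/-- if `N = (n, K(n))` and the initial segment `x` of length `n` of `y` has `K(x) ≤ n + K(n) - d`,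
then `C(y) ≤ N - d / 2 + O(1)` -/
lemma compress (str : ℕ ≃ List Bool) (hs : Computable str) {K C : ℕ → ℕ} (hK : IsKP K)
    (hC : IsPlain C) : ∃ c : ℕ, ∀ (n d y : ℕ), len str y = Nat.pair n (K n) →
      K (tk str n y) + d ≤ n + K n → C y + d / 2 ≤ len str y + c := by
  obtain ⟨a, ha, ha1, ha3, ha2⟩ := exists_anti hK.1
  obtain ⟨c1, hc1⟩ := count_small str hK hs
  obtain ⟨c2, hc2⟩ := comp_le hK (len str) (c_len str hs)
  set c := c1 + c2 with hc
  obtain ⟨c3, hc3⟩ := approx_plain hC (gg str a c) (c_gg str a c hs ha)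
    (fun k U τ hU => gg_count str c ha3 k U τ hU)
  refine ⟨c + 4 + c3 + 1, fun n d y hy hd => ?_⟩
  have hnN : n ≤ len str y := by rw [hy]; exact Nat.left_le_pair _ _
  -- `d` is at most `n + c`
  have hdn : d ≤ n + c := by
    have h1 := hc2 (tk str n y)
    rw [len_tk str hnN] at h1
    omega
  obtain ⟨t0, ht0⟩ := ha2 (tk str n y)
  set t := t0 + tk str n y + 1 with ht
  have hcnd : cnd str a c y d t := by
    unfold cnd
    rw [hy, Nat.unpair_pair]
    simp only
    refine ⟨⟨⟨by omega, ?_⟩, ?_⟩, hdn⟩
    · rw [ht0 t (by omega)]; exact hd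
    · have h1 := hc1 n d ((range t).filter (fun u => (decide (len str u = n) &&
        decide (a u t + d ≤ n + K n)) = true)) (by
        intro u hu
        rw [mem_filter] at hu
        simp only [Bool.and_eq_true, decide_eq_true_eq] at hu
        refine ⟨hu.2.1, ?_⟩
        have := ha1 u t
        omega)
      refine le_trans h1 (Nat.pow_le_pow_right (by norm_num) (by omega))
  have h1 := hc3 y (Nat.pair d t)
  unfold gg at h1
  rw [Nat.unpair_pair] at h1
  simp only [hcnd, if_true] at h1
  omega

end Pool.Agent.R557.CK
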