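import Pool.Agent.R557.CKPlainK
import Pool.Agent.TH676.CK.Exist

set_option autoImplicit false

/-! The main inequalities for averages with respect to a measure. -/

namespace Pool.Agent.R557.CK

open Finset MeasureTheory
open Pool.Agent.Helper981.KP (IsKP)
open Pool.Agent.TH676.CK (IsPlain)
open Pool.Agent.H166R3.AT (c_add)

/-- a computable enumeration of all strings -/
lemma exists_str : ∃ str : ℕ ≃ List Bool, Computable str := by
  set f : ℕ → List Bool := fun n => bitl (Nat.log 2 (n + 1)) (n + 1) with hf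
  have hfc : Computable f := by
    have h1 : Computable (fun n : ℕ => n + 1) := Computable.succ
    exact c_bitl (c_log2 h1) h1
  have hdec : ∀ n : ℕ, ∃ v < 2 ^ (Nat.log 2 (n + 1)), n + 1 = 2 ^ (Nat.log 2 (n + 1)) + v := by
    intro n
    have h1 := Nat.pow_log_le_self 2 (Nat.succ_ne_zero n)
    have h2 := Nat.lt_pow_succ_log_self (b := 2) (by norm_num) (n + 1)
    obtain ⟨v, hv⟩ := Nat.exists_eq_add_of_le h1
    have hv' : n + 1 = 2 ^ (Nat.log 2 (n + 1)) + v := hv
    refine ⟨v, ?_, hv'⟩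
    rw [pow_succ] at h2
    omega
  have hinj : Function.Injective f := by
    intro n m h
    have hl : Nat.log 2 (n + 1) = Nat.log 2 (m + 1) := by
      have := congrArg List.length h
      simpa only [hf, bitl_length] using this
    obtain ⟨v, hv, hnv⟩ := hdec n
    obtain ⟨w, hw, hmw⟩ := hdec m
    have h1 : bitl (Nat.log 2 (n + 1)) v = bitl (Nat.log 2 (n + 1)) w := by
      have h2 : bitl (Nat.log 2 (n + 1)) (n + 1) = bitl (Nat.log 2 (m + 1)) (m + 1) := h
      rw [← hl] at h2 hmw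
      rw [← bitl_add (Nat.log 2 (n + 1)) v, ← bitl_add (Nat.log 2 (n + 1)) w, ← hnv, ← hmw]
      exact h2
    have h2 := bitl_inj hv (by rw [hl]; exact hw) h1
    rw [← hl] at hmw
    omega
  have hsurj : Function.Surjective f := by
    intro l
    obtain ⟨v, hv, hvl⟩ := exists_bitl l.length l rfl
    have h0 : 0 < 2 ^ l.length := by positivity
    refine ⟨2 ^ l.length + v - 1, ?_⟩
    have h1 : 2 ^ l.length + v - 1 + 1 = 2 ^ l.length + v := by omega
    simp only [hf, h1]
    have h2 : Nat.log 2 (2 ^ l.length + v) = l.length := by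
      apply Nat.log_eq_of_pow_le_of_lt_pow
      · omega
      · rw [pow_succ]; omega
    rw [h2, bitl_add, hvl]
  refine ⟨Equiv.ofBijective f ⟨hinj, hsurj⟩, hfc.of_eq fun n => rfl⟩

lemma star_meas (str : ℕ ≃ List Bool) (hs : Computable str) {K C : ℕ → ℕ} (hK : IsKP K)
    (hC : IsPlain C) : ∃ c : ℝ, ∀ p : ℕ, ∃ r : ℕ, ∃ w : ℕ → ℝ, (∀ z ∈ Ico p r, 0 ≤ w z) ∧
      ∑ z ∈ Ico p r, w z = 1 ∧ ∃ n₁, ∀ n ≥ n₁, ∀ (μ : Measure (ℕ → Bool)) [IsProbabilityMeasure μ],
        ∫ X, (C (str.symm (ini n X)) : ℝ) ∂μ ≤ n + c - (1 / 4) * ∑ z ∈ Ico p r,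
          w z * ((z : ℝ) + K z - ∫ X, (K (str.symm (ini z X)) : ℝ) ∂μ) := by
  obtain ⟨c, hc⟩ := star str hs hK hC
  refine ⟨c, fun p => ?_⟩
  obtain ⟨r, w, hw0, hw1, n₁, hn₁⟩ := hc p
  refine ⟨r, w, hw0, hw1, n₁, fun n hn μ hμ => ?_⟩
  obtain ⟨hrn, hx⟩ := hn₁ n hn
  have hI : ∀ z, Integrable (fun X => (K (str.symm (ini z X)) : ℝ)) μ := fun z =>
    integrable_ini μ z (fun x => (K (str.symm x) : ℝ))
  have hIC : Integrable (fun X => (C (str.symm (ini n X)) : ℝ)) μ :=
    integrable_ini μ n (fun x => (C (str.symm x) : ℝ))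
  have h1 : ∀ X, (C (str.symm (ini n X)) : ℝ) ≤ n + c - (1 / 4) * ∑ z ∈ Ico p r,
      w z * ((z : ℝ) + K z - (K (str.symm (ini z X)) : ℝ)) := by
    intro X
    have h2 := hx (str.symm (ini n X)) (len_ini str n X)
    refine h2.trans (le_of_eq ?_)
    congr 2
    apply Finset.sum_congr rfl
    intro z hz
    rw [mem_Ico] at hz
    rw [tk_ini str (by omega) X]
  have hIs : ∀ z, Integrable (fun X => w z * ((z : ℝ) + K z - (K (str.symm (ini z X)) : ℝ))) μ :=
    fun z => ((integrable_const _).sub (hI z)).const_mul _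
  have hIsum : Integrable (fun X => ∑ z ∈ Ico p r,
      w z * ((z : ℝ) + K z - (K (str.symm (ini z X)) : ℝ))) μ :=
    integrable_finsetSum _ (fun z _ => hIs z)
  have hint : Integrable (fun X => (n + c : ℝ) - (1 / 4) * ∑ z ∈ Ico p r,
      w z * ((z : ℝ) + K z - (K (str.symm (ini z X)) : ℝ))) μ :=
    (integrable_const _).sub (hIsum.const_mul _)
  refine (integral_mono hIC hint h1).trans (le_of_eq ?_)
  rw [integral_sub (integrable_const _) (hIsum.const_mul _), integral_const, integral_const_mul,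
    integral_finsetSum _ (fun z _ => hIs z)]
  simp only [probReal_univ, one_smul]
  congr 2
  apply Finset.sum_congr rfl
  intro z _
  rw [integral_const_mul, integral_sub (integrable_const _) (hI z), integral_const]
  simp only [probReal_univ, one_smul]

lemma K_half_meas (str : ℕ ≃ List Bool) (hs : Computable str) {K C : ℕ → ℕ} (hK : IsKP K)
    (hC : IsPlain C) : ∃ c : ℝ, ∀ (n : ℕ) (μ : Measure (ℕ → Bool)) [IsProbabilityMeasure μ],
      ∫ X, (K (str.symm (ini n X)) : ℝ) ∂μ ≤ K n + n / 2 +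
        (1 / 2) * ∫ X, (C (str.symm (ini n X)) : ℝ) ∂μ + c := by
  obtain ⟨c, hc⟩ := K_le_half str hs hK hC
  refine ⟨c / 2, fun n μ hμ => ?_⟩
  have hI : Integrable (fun X => (K (str.symm (ini n X)) : ℝ)) μ :=
    integrable_ini μ n (fun x => (K (str.symm x) : ℝ))
  have hIC : Integrable (fun X => (C (str.symm (ini n X)) : ℝ)) μ :=
    integrable_ini μ n (fun x => (C (str.symm x) : ℝ))
  have h1 : ∀ X, (K (str.symm (ini n X)) : ℝ) ≤ (K n + n / 2 + c / 2 : ℝ) +
      (1 / 2) * (C (str.symm (ini n X)) : ℝ) := by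
    intro X
    have h2 := hc (str.symm (ini n X))
    rw [len_ini] at h2
    have h3 : (2 : ℝ) * K (str.symm (ini n X)) ≤ 2 * K n + n + C (str.symm (ini n X)) + c := by
      exact_mod_cast h2
    linarith
  have hint : Integrable (fun X => (K n + n / 2 + c / 2 : ℝ) +
      (1 / 2) * (C (str.symm (ini n X)) : ℝ)) μ := (integrable_const _).add (hIC.const_mul _)
  refine (integral_mono hI hint h1).trans (le_of_eq ?_)
  rw [integral_add (integrable_const _) (hIC.const_mul _), integral_const, integral_const_mul]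
  simp only [probReal_univ, one_smul]
  ring

end Pool.Agent.R557.CK
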