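import Pool.Agent.R557.CKClock

set_option autoImplicit false

/-! A slowly growing clock: the computable construction. -/

namespace Pool.Agent.R557.CK

open Finset
open Pool.Agent.Helper981.KP (USC Kraft IsKP approx_le finite_of_kraft half_pow_le comp_le fmin
  computable_fmin)
open Pool.Agent.H166R3.AT (c_add c_mul c_sub c_div c_mod c_pow c_sum c_le c_lt c_eq c_and c_or
  c_not c_count bex bex_iff c_bex)

lemma c_testBit {α : Type*} [Primcodable α] {f g : α → ℕ} (hf : Computable f) (hg : Computable g) :
    Computable (fun x => (f x).testBit (g x)) := by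
  have h := c_eq (c_mod (c_div hf (c_pow (Computable.const 2) hg)) (Computable.const 2))
    (Computable.const 1)
  exact h.of_eq fun x => (Nat.testBit_eq_decide_div_mod_eq).symm

lemma primrec_testBit : Primrec₂ (fun v i : ℕ => v.testBit i) := by
  have hp : Primrec₂ (fun a b : ℕ => a ^ b) := Primrec₂.unpaired'.1 Nat.Primrec.pow
  have h1 : Primrec (fun q : ℕ × ℕ => decide (q.1 / 2 ^ q.2 % 2 = 1)) := by
    have h2 : Primrec (fun q : ℕ × ℕ => q.1 / 2 ^ q.2 % 2) :=
      Primrec.nat_mod.comp (Primrec.nat_div.comp Primrec.fst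
        (hp.comp (Primrec.const 2) Primrec.snd)) (Primrec.const 2)
    exact Primrec.eq.decide.comp h2 (Primrec.const 1)
  exact h1.of_eq fun q => (Nat.testBit_eq_decide_div_mod_eq).symm

lemma c_bitl {α : Type*} [Primcodable α] {t v : α → ℕ} (ht : Computable t) (hv : Computable v) :
    Computable (fun x => bitl (t x) (v x)) := by
  have h1 : Primrec₂ (fun t v : ℕ => bitl t v) := by
    unfold bitl
    refine Primrec.list_map (Primrec.list_range.comp Primrec.fst) ?_
    exact primrec_testBit.comp (Primrec.snd.comp Primrec.fst) Primrec.snd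
  exact h1.to_comp.comp ht hv

lemma c_code (str : ℕ ≃ List Bool) (hs : Computable str) {α : Type*} [Primcodable α] {t v : α → ℕ}
    (ht : Computable t) (hv : Computable v) : Computable (fun x => code str (t x) (v x)) :=
  (computable_symm str hs).comp (c_bitl ht hv)

lemma c_getD {α : Type*} [Primcodable α] {l : α → List ℕ} {s : α → ℕ} (hl : Computable l)
    (hs : Computable s) : Computable (fun x => (l x).getD (s x) 0) := by
  have h1 := ((Primrec.list_getD (0 : ℕ)).to_comp).comp hl hs
  exact h1

section
variable (str : ℕ ≃ List Bool) (a : ℕ → ℕ → ℕ)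

def BB (t u : ℕ) : ℕ := ∑ z ∈ range (t + 1), a (tk str z u) t

def MM (s t u : ℕ) : ℕ :=
  ∑ z ∈ range (t + 1), (if s ≤ z then 2 ^ (z + (BB str a t u - a (tk str z u) t)) else 0)

/-- the string `u` of length `t` is affected at position `Y / 2 ^ t` -/
def cs (l : List ℕ) (t k u Y : ℕ) : Bool :=
  bex (t + 1) (fun s => decide (2 ^ (k + BB str a t u) * Y <
    2 ^ (k + BB str a t u) * (l.getD s 0 * 2 ^ (t - s)) + 2 ^ t * MM str a s t u))

/-- too many strings of length `t` are affected at position `Y / 2 ^ t` -/
def bdd (l : List ℕ) (t Y : ℕ) : Bool :=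
  bex (t + 1) (fun k => decide (2 ^ t < 2 ^ (k / 2) *
    ((range (2 ^ t)).filter (fun v => cs str a l t k (code str t v) Y = true)).card))

/-- the next position -/
def nx (t : ℕ) (l : List ℕ) : ℕ :=
  2 * (l.getD t 0 + 1 + ((range (2 ^ (t + 2) + 1)).filter
    (fun i => bdd str a l t (l.getD t 0 + (i + 1)) = true)).card)

/-- the list of the positions up to stage `t` -/
def hist (t : ℕ) : List ℕ := Nat.rec [0] (fun t l => l ++ [nx str a t l]) t

def AA (t : ℕ) : ℕ := (hist str a t).getD t 0

lemma hist_succ (t : ℕ) : hist str a (t + 1) = hist str a t ++ [nx str a t (hist str a t)] := rfl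

lemma hist_length (t : ℕ) : (hist str a t).length = t + 1 := by
  induction t with
  | zero => rfl
  | succ t ih => rw [hist_succ, List.length_append, ih]; rfl

lemma hist_getD {s t : ℕ} (h : s ≤ t) : (hist str a t).getD s 0 = AA str a s := by
  induction t, h using Nat.le_induction with
  | base => rfl
  | succ t h ih =>
    rw [hist_succ, List.getD_append _ _ _ _ (by rw [hist_length]; omega), ih]

lemma AA_succ (t : ℕ) : AA str a (t + 1) = nx str a t (hist str a t) := by
  unfold AA
  rw [hist_succ, List.getD_append_right _ _ _ _ (by rw [hist_length]), hist_length]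
  simp

variable (hs : Computable str) (ha : Computable₂ a)

include hs ha in
lemma c_BB {α : Type*} [Primcodable α] {t u : α → ℕ} (ht : Computable t) (hu : Computable u) :
    Computable (fun x => BB str a (t x) (u x)) := by
  unfold BB
  refine c_sum (n := fun x => t x + 1) (f := fun x z => a (tk str z (u x)) (t x))
    (c_add ht (Computable.const 1)) ?_
  exact ha.comp (c_tk str hs Computable.snd (hu.comp Computable.fst)) (ht.comp Computable.fst)

include hs ha in
lemma c_MM {α : Type*} [Primcodable α] {s t u : α → ℕ} (hs' : Computable s) (ht : Computable t)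
    (hu : Computable u) : Computable (fun x => MM str a (s x) (t x) (u x)) := by
  unfold MM
  refine c_sum (n := fun x => t x + 1) (f := fun x z => if s x ≤ z then
    2 ^ (z + (BB str a (t x) (u x) - a (tk str z (u x)) (t x))) else 0)
    (c_add ht (Computable.const 1)) ?_
  refine c_ite' (c_le (hs'.comp Computable.fst) Computable.snd) ?_ (Computable.const 0)
  refine c_pow (Computable.const 2) (c_add Computable.snd (c_sub ?_ ?_))
  · exact c_BB str a hs ha (ht.comp Computable.fst) (hu.comp Computable.fst)
  · exact ha.comp (c_tk str hs Computable.snd (hu.comp Computable.fst)) (ht.comp Computable.fst)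

include hs ha in
lemma c_cs {α : Type*} [Primcodable α] {l : α → List ℕ} {t k u Y : α → ℕ} (hl : Computable l)
    (ht : Computable t) (hk : Computable k) (hu : Computable u) (hY : Computable Y) :
    Computable (fun x => cs str a (l x) (t x) (k x) (u x) (Y x)) := by
  unfold cs
  refine c_bex (n := fun x => t x + 1) (f := fun x s => decide (2 ^ (k x + BB str a (t x) (u x)) * Y x <
    2 ^ (k x + BB str a (t x) (u x)) * ((l x).getD s 0 * 2 ^ (t x - s)) +
      2 ^ (t x) * MM str a s (t x) (u x))) (c_add ht (Computable.const 1)) ?_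
  have h1 : Computable (fun q : α × ℕ => 2 ^ (k q.1 + BB str a (t q.1) (u q.1))) :=
    c_pow (Computable.const 2) (c_add (hk.comp Computable.fst)
      (c_BB str a hs ha (ht.comp Computable.fst) (hu.comp Computable.fst)))
  refine c_lt (c_mul h1 (hY.comp Computable.fst)) (c_add (c_mul h1 (c_mul ?_ ?_)) (c_mul ?_ ?_))
  · exact c_getD (hl.comp Computable.fst) Computable.snd
  · exact c_pow (Computable.const 2) (c_sub (ht.comp Computable.fst) Computable.snd)
  · exact c_pow (Computable.const 2) (ht.comp Computable.fst)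
  · exact c_MM str a hs ha Computable.snd (ht.comp Computable.fst) (hu.comp Computable.fst)

include hs ha in
lemma c_bdd {α : Type*} [Primcodable α] {l : α → List ℕ} {t Y : α → ℕ} (hl : Computable l)
    (ht : Computable t) (hY : Computable Y) :
    Computable (fun x => bdd str a (l x) (t x) (Y x)) := by
  unfold bdd
  refine c_bex (n := fun x => t x + 1) (f := fun x k => decide (2 ^ (t x) < 2 ^ (k / 2) *
    ((range (2 ^ (t x))).filter (fun v => cs str a (l x) (t x) k (code str (t x) v) (Y x) = true)).card))
    (c_add ht (Computable.const 1)) ?_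
  refine c_lt (c_pow (Computable.const 2) (ht.comp Computable.fst)) (c_mul
    (c_pow (Computable.const 2) (c_div Computable.snd (Computable.const 2))) ?_)
  refine c_count (α := α × ℕ) (n := fun q => 2 ^ (t q.1))
    (f := fun q v => cs str a (l q.1) (t q.1) q.2 (code str (t q.1) v) (Y q.1))
    (c_pow (Computable.const 2) (ht.comp Computable.fst)) ?_
  have c1 : Computable (fun q : (α × ℕ) × ℕ => q.1.1) := Computable.fst.comp Computable.fst
  exact c_cs str a hs ha (hl.comp c1) (ht.comp c1) (Computable.snd.comp Computable.fst)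
    (c_code str hs (ht.comp c1) Computable.snd) (hY.comp c1)

include hs ha in
lemma c_nx {α : Type*} [Primcodable α] {t : α → ℕ} {l : α → List ℕ} (ht : Computable t)
    (hl : Computable l) : Computable (fun x => nx str a (t x) (l x)) := by
  unfold nx
  refine c_mul (Computable.const 2) (c_add (c_add (c_getD hl ht) (Computable.const 1)) ?_)
  refine c_count (α := α) (n := fun x => 2 ^ (t x + 2) + 1)
    (f := fun x i => bdd str a (l x) (t x) ((l x).getD (t x) 0 + (i + 1)))
    (c_add (c_pow (Computable.const 2) (c_add ht (Computable.const 2))) (Computable.const 1)) ?_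
  exact c_bdd str a hs ha (hl.comp Computable.fst) (ht.comp Computable.fst)
    (c_add ((c_getD hl ht).comp Computable.fst) (c_add Computable.snd (Computable.const 1)))

include hs ha in
lemma c_hist {α : Type*} [Primcodable α] {t : α → ℕ} (ht : Computable t) :
    Computable (fun x => hist str a (t x)) := by
  have h1 := Computable.nat_rec (f := t) (g := fun _ => ([0] : List ℕ))
    (h := fun _ q => q.2 ++ [nx str a q.1 q.2]) ht (Computable.const [0]) (by
      have c2 : Computable (fun q : α × (ℕ × List ℕ) => q.2.2) := Computable.snd.comp Computable.snd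
      have c1 : Computable (fun q : α × (ℕ × List ℕ) => q.2.1) := Computable.fst.comp Computable.snd
      have h2 : Computable (fun q : α × (ℕ × List ℕ) => [nx str a q.2.1 q.2.2]) :=
        Computable.list_cons.comp (c_nx str a hs ha c1 c2) (Computable.const [])
      exact Computable.list_append.comp c2 h2)
  exact h1.of_eq fun x => rfl

include hs ha in
lemma c_AA {α : Type*} [Primcodable α] {t : α → ℕ} (ht : Computable t) :
    Computable (fun x => AA str a (t x)) := c_getD (c_hist str a hs ha ht) ht

/-! ### the meaning of the conditions -/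

variable {a}

lemma MM_val (s t u : ℕ) : (MM str a s t u : ℝ) = 2 ^ (BB str a t u) * TT str a s t u := by
  have h1 : MM str a s t u = ∑ z ∈ Ico s (t + 1), 2 ^ (z + (BB str a t u - a (tk str z u) t)) := by
    unfold MM
    rw [← Finset.sum_filter]
    apply Finset.sum_congr _ (fun _ _ => rfl)
    ext z
    rw [mem_filter, mem_range, mem_Ico]
    tauto
  rw [h1]
  push_cast
  unfold TT
  rw [Finset.mul_sum]
  apply Finset.sum_congr rfl
  intro z hz
  rw [mem_Ico] at hz
  have h2 : a (tk str z u) t ≤ BB str a t u := by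
    unfold BB
    exact Finset.single_le_sum (f := fun z => a (tk str z u) t) (fun _ _ => Nat.zero_le _)
      (mem_range.2 hz.2)
  have h3 : (2 : ℝ) ^ (BB str a t u - a (tk str z u) t) * 2 ^ (a (tk str z u) t) =
      2 ^ (BB str a t u) := by
    rw [← pow_add]; congr 1; omega
  have h4 : ((1 : ℝ) / 2) ^ (a (tk str z u) t) * 2 ^ (a (tk str z u) t) = 1 := by
    rw [← mul_pow]; norm_num
  unfold qq
  rw [pow_add, ← h3]
  linear_combination (- (2 : ℝ) ^ z * 2 ^ (BB str a t u - a (tk str z u) t)) * h4

variable (a)

/-- the positions -/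
noncomputable def al (t : ℕ) : ℝ := (AA str a t : ℝ) / 2 ^ t

variable {a}

lemma cs_iff (t k u Y : ℕ) : cs str a (hist str a t) t k u Y = true ↔
    ∃ s ≤ t, (Y : ℝ) / 2 ^ t < al str a s + (1 / 2) ^ k * TT str a s t u := by
  unfold cs
  rw [bex_iff]
  constructor
  · rintro ⟨s, hs, h⟩
    have hst : s ≤ t := by omega
    refine ⟨s, hst, ?_⟩
    rw [decide_eq_true_eq, hist_getD str a hst] at h
    have h1 : (2 : ℝ) ^ (k + BB str a t u) * Y < 2 ^ (k + BB str a t u) * (AA str a s * 2 ^ (t - s)) +
        2 ^ t * (MM str a s t u : ℝ) := by exact_mod_cast h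
    rw [MM_val] at h1
    unfold al
    rw [div_lt_iff₀ (by positivity)]
    have h2 : (0 : ℝ) < 2 ^ (k + BB str a t u) := by positivity
    apply lt_of_mul_lt_mul_left _ h2.le
    refine lt_of_lt_of_eq h1 ?_
    have h3 : (2 : ℝ) ^ t = 2 ^ s * 2 ^ (t - s) := by rw [← pow_add]; congr 1; omega
    have h4 : (2 : ℝ) ^ k * (1 / 2) ^ k = 1 := by rw [← mul_pow]; norm_num
    have h5 : (AA str a s : ℝ) / 2 ^ s * 2 ^ s = AA str a s := div_mul_cancel₀ _ (by positivity)
    rw [pow_add]
    calc (2 : ℝ) ^ k * 2 ^ BB str a t u * (↑(AA str a s) * 2 ^ (t - s)) +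
        2 ^ t * (2 ^ BB str a t u * TT str a s t u) =
        (2 : ℝ) ^ k * 2 ^ BB str a t u * (((AA str a s : ℝ) / 2 ^ s * 2 ^ s) * 2 ^ (t - s)) +
        2 ^ t * (2 ^ BB str a t u * TT str a s t u) * (2 ^ k * (1 / 2) ^ k) := by rw [h5, h4, mul_one]
      _ = _ := by rw [h3]; ring
  · rintro ⟨s, hst, h⟩
    refine ⟨s, by omega, ?_⟩
    rw [decide_eq_true_eq, hist_getD str a hst]
    unfold al at h
    rw [div_lt_iff₀ (by positivity)] at h
    have h2 : (0 : ℝ) < 2 ^ (k + BB str a t u) := by positivity
    have h1 := mul_lt_mul_of_pos_left h h2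
    have h3 : (2 : ℝ) ^ t = 2 ^ s * 2 ^ (t - s) := by rw [← pow_add]; congr 1; omega
    have h4 : (2 : ℝ) ^ k * (1 / 2) ^ k = 1 := by rw [← mul_pow]; norm_num
    have h5 : (AA str a s : ℝ) / 2 ^ s * 2 ^ s = AA str a s := div_mul_cancel₀ _ (by positivity)
    have h6 : (2 : ℝ) ^ (k + BB str a t u) * Y < 2 ^ (k + BB str a t u) * (AA str a s * 2 ^ (t - s)) +
        2 ^ t * (MM str a s t u : ℝ) := by
      refine lt_of_lt_of_eq h1 ?_
      rw [MM_val, pow_add]
      calc (2 : ℝ) ^ k * 2 ^ BB str a t u * (((AA str a s : ℝ) / 2 ^ s +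
          (1 / 2) ^ k * TT str a s t u) * 2 ^ t) =
          (2 : ℝ) ^ k * 2 ^ BB str a t u * (((AA str a s : ℝ) / 2 ^ s * 2 ^ s) * 2 ^ (t - s)) +
          2 ^ t * (2 ^ BB str a t u * TT str a s t u) * (2 ^ k * (1 / 2) ^ k) := by rw [h3]; ring
        _ = _ := by rw [h5, h4, mul_one]
    exact_mod_cast h6

end

/-- counting a decreasing predicate -/
lemma count_anti (P : ℕ → Prop) [DecidablePred P] (hP : ∀ i, P (i + 1) → P i) (J : ℕ)
    (hJ : ∃ i < J, ¬ P i) : ¬ P ((range J).filter P).card ∧
      (0 < ((range J).filter P).card → P (((range J).filter P).card - 1)) := by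
  have hex : ∃ i, ¬ P i := hJ.imp fun i hi => hi.2
  set n := Nat.find hex with hn
  have hn1 : ¬ P n := Nat.find_spec hex
  have hn2 : ∀ m < n, P m := fun m hm => not_not.1 (Nat.find_min hex hm)
  have hup : ∀ m, n ≤ m → ¬ P m := by
    intro m hm
    induction m, hm using Nat.le_induction with
    | base => exact hn1
    | succ m _ ih => exact fun h => ih (hP m h)
  have hnJ : n < J := by
    obtain ⟨i, hi, hPi⟩ := hJ
    exact lt_of_le_of_lt (Nat.find_min' hex hPi) hi
  have hcard : ((range J).filter P).card = n := by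
    have : (range J).filter P = range n := by
      ext i
      rw [mem_filter, mem_range, mem_range]
      constructor
      · rintro ⟨_, h2⟩
        by_contra h3
        exact hup i (by omega) h2
      · intro h
        exact ⟨by omega, hn2 i h⟩
    rw [this, card_range]
  rw [hcard]
  exact ⟨hn1, fun h => hn2 _ (by omega)⟩

end Pool.Agent.R557.CK
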