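import Pool.Agent.R557.CKHist

set_option autoImplicit false

/-! A slowly growing clock: it converges. -/

namespace Pool.Agent.R557.CK

open Finset
open Pool.Agent.Helper981.KP (USC Kraft IsKP approx_le finite_of_kraft half_pow_le comp_le fmin
  computable_fmin)
open Pool.Agent.H166R3.AT (bex bex_iff)

section
variable (str : ℕ ≃ List Bool) {a : ℕ → ℕ → ℕ}

lemma bdd_iff (t Y : ℕ) : bdd str a (hist str a t) t Y = true ↔ ∃ k ≤ t, 2 ^ t < 2 ^ (k / 2) *
    ((range (2 ^ t)).filter (fun v => cs str a (hist str a t) t k (code str t v) Y = true)).card := by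
  unfold bdd
  rw [bex_iff]
  constructor
  · rintro ⟨k, hk, h⟩
    exact ⟨k, by omega, by simpa using h⟩
  · rintro ⟨k, hk, h⟩
    exact ⟨k, by omega, by simpa using h⟩

lemma bdd_anti {t Y Y' : ℕ} (h : Y' ≤ Y) (hb : bdd str a (hist str a t) t Y = true) :
    bdd str a (hist str a t) t Y' = true := by
  rw [bdd_iff] at hb ⊢
  obtain ⟨k, hk, hc⟩ := hb
  refine ⟨k, hk, lt_of_lt_of_le hc (Nat.mul_le_mul_left _ (Finset.card_le_card ?_))⟩
  intro v hv
  rw [mem_filter] at hv ⊢
  refine ⟨hv.1, ?_⟩
  have h1 := hv.2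
  rw [cs_iff] at h1 ⊢
  obtain ⟨s, hs, h2⟩ := h1
  refine ⟨s, hs, lt_of_le_of_lt ?_ h2⟩
  apply div_le_div_of_nonneg_right _ (by positivity)
  exact_mod_cast h

/-- the cost of a large move -/
lemma bad_bound (t j : ℕ) (m : ℝ) (hm : (j : ℝ) / 2 ^ t ≤ m)
    (hb : bdd str a (hist str a t) t (AA str a t + j) = true) :
    (j : ℝ) / 2 ^ t ≤ ∑ k ∈ range (t + 1), 2 ^ (k / 2) *
      Em str t (fun u => min (ee str a (al str a) k t u) m) := by
  rw [bdd_iff] at hb
  obtain ⟨k, hk, hc⟩ := hb
  have hj0 : (0 : ℝ) ≤ (j : ℝ) / 2 ^ t := by positivity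
  have hmin0 : ∀ k u, 0 ≤ min (ee str a (al str a) k t u) m := fun k u =>
    le_min (ee_nonneg str k t u) (hj0.trans hm)
  refine le_trans ?_ (Finset.single_le_sum (f := fun k => (2 : ℝ) ^ (k / 2) *
      Em str t (fun u => min (ee str a (al str a) k t u) m))
      (fun k _ => mul_nonneg (by positivity) (Em_nonneg str t (hmin0 k)))
      (mem_range.2 (Nat.lt_succ_of_le hk)))
  set S := (range (2 ^ t)).filter
    (fun v => cs str a (hist str a t) t k (code str t v) (AA str a t + j) = true) with hS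
  have h1 : (S.card : ℝ) * ((j : ℝ) / 2 ^ t) ≤
      ∑ v ∈ range (2 ^ t), min (ee str a (al str a) k t (code str t v)) m := by
    rw [← nsmul_eq_mul, ← Finset.sum_const]
    refine le_trans (Finset.sum_le_sum (g := fun v => min (ee str a (al str a) k t (code str t v)) m) ?_)
      (Finset.sum_le_sum_of_subset_of_nonneg (Finset.filter_subset _ _) (fun v _ _ => hmin0 k _))
    intro v hv
    rw [hS, mem_filter] at hv
    have h2 := hv.2
    rw [cs_iff] at h2
    obtain ⟨s, hs, h3⟩ := h2
    have h4 := le_ee str (a := a) (al := al str a) hs k (code str t v)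
    refine le_min ?_ hm
    have h5 : ((AA str a t + j : ℕ) : ℝ) / 2 ^ t = al str a t + (j : ℝ) / 2 ^ t := by
      unfold al; push_cast; ring
    rw [h5] at h3
    linarith
  have h2 : (2 : ℝ) ^ t ≤ 2 ^ (k / 2) * S.card := by exact_mod_cast hc.le
  unfold Em
  calc (j : ℝ) / 2 ^ t = (j : ℝ) / 2 ^ t * 2 ^ t / 2 ^ t := by
        rw [mul_div_assoc, div_self (by positivity), mul_one]
    _ ≤ (j : ℝ) / 2 ^ t * (2 ^ (k / 2) * S.card) / 2 ^ t := by
        apply div_le_div_of_nonneg_right _ (by positivity)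
        exact mul_le_mul_of_nonneg_left h2 hj0
    _ = 2 ^ (k / 2) * ((S.card : ℝ) * ((j : ℝ) / 2 ^ t) / 2 ^ t) := by ring
    _ ≤ _ := by
        apply mul_le_mul_of_nonneg_left _ (by positivity)
        exact div_le_div_of_nonneg_right h1 (by positivity)

variable {K : ℕ → ℕ} (hK : Kraft K) (ha1 : ∀ x t, K x ≤ a x t)
  (ha3 : ∀ x t t', t ≤ t' → a x t' ≤ a x t)

/-- the number of extra steps at stage `t` -/
noncomputable def cnt (str : ℕ ≃ List Bool) (a : ℕ → ℕ → ℕ) (t : ℕ) : ℕ :=
  ((range (2 ^ (t + 2) + 1)).filter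
    (fun i => bdd str a (hist str a t) t (AA str a t + (i + 1)) = true)).card

lemma AA_next (t : ℕ) : AA str a (t + 1) = 2 * (AA str a t + 1 + cnt str a t) := by
  rw [AA_succ]; rfl

lemma al_diff (t : ℕ) : al str a (t + 1) - al str a t = ((cnt str a t : ℝ) + 1) / 2 ^ t := by
  unfold al
  rw [AA_next, pow_succ]
  push_cast
  field_simp
  ring

lemma al_lt (t : ℕ) : al str a t < al str a (t + 1) := by
  have h1 := al_diff str (a := a) t
  have h2 : (0 : ℝ) < ((cnt str a t : ℝ) + 1) / 2 ^ t := by positivity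
  linarith

lemma al_mono : Monotone (al str a) := monotone_nat_of_le_succ (fun t => (al_lt str t).le)

lemma al_strict : StrictMono (al str a) := strictMono_nat_of_lt_succ (fun t => al_lt str t)

include hK ha1 ha3

lemma pot_le (k N : ℕ) : ∑ t ∈ range N, Em str t (fun u => min (ee str a (al str a) k t u)
    (al str a (t + 1) - al str a t)) + Em str N (ee str a (al str a) k N) ≤ (1 / 2) ^ k := by
  have h1 := potential str (a := a) (al := al str a) ha3 k N
  have h2 := mass_le str (a := a) hK ha1 N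
  have h3 : (0 : ℝ) ≤ (1 / 2) ^ k := by positivity
  have h4 := mul_le_mul_of_nonneg_left h2 h3
  linarith

omit hK ha1 ha3 in
lemma min_nonneg (k t : ℕ) : 0 ≤ Em str t (fun u => min (ee str a (al str a) k t u)
    (al str a (t + 1) - al str a t)) :=
  Em_nonneg str t (fun u => le_min (ee_nonneg str k t u) (by linarith [al_lt str (a := a) t]))

omit hK ha1 ha3 in
lemma sum_half (N : ℕ) : ∑ k ∈ range N, (2 : ℝ) ^ (k / 2) * (1 / 2) ^ k ≤ 4 := by
  refine le_trans (le_of_eq ?_) (half_geo N)
  apply Finset.sum_congr rfl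
  intro k _
  have h1 : ((1 : ℝ) / 2) ^ k = (1 / 2) ^ (k - k / 2) * (1 / 2) ^ (k / 2) := by
    rw [← pow_add]; congr 1; omega
  have h2 : (2 : ℝ) ^ (k / 2) * (1 / 2) ^ (k / 2) = 1 := by rw [← mul_pow]; norm_num
  rw [h1]
  linear_combination ((1 : ℝ) / 2) ^ (k - k / 2) * h2

lemma not_bad (t : ℕ) : ¬ bdd str a (hist str a t) t (AA str a t + (2 ^ (t + 2) + 1)) = true := by
  intro hb
  have h1 := bad_bound str t (2 ^ (t + 2) + 1) _ le_rfl hb
  have h2 : ∑ k ∈ range (t + 1), (2 : ℝ) ^ (k / 2) *
      Em str t (fun u => min (ee str a (al str a) k t u) (((2 ^ (t + 2) + 1 : ℕ) : ℝ) / 2 ^ t)) ≤ 4 := by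
    refine le_trans (Finset.sum_le_sum ?_) (sum_half (t + 1))
    intro k _
    apply mul_le_mul_of_nonneg_left _ (by positivity)
    have h3 := pot_le str hK ha1 ha3 k t
    have h4 : 0 ≤ ∑ t ∈ range t, Em str t (fun u => min (ee str a (al str a) k t u)
        (al str a (t + 1) - al str a t)) :=
      Finset.sum_nonneg (fun t _ => min_nonneg str k t)
    have h5 : Em str t (fun u => min (ee str a (al str a) k t u) (((2 ^ (t + 2) + 1 : ℕ) : ℝ) / 2 ^ t)) ≤
        Em str t (ee str a (al str a) k t) := Em_mono str t (fun u _ => min_le_left _ _)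
    linarith
  have h3 : (4 : ℝ) < ((2 ^ (t + 2) + 1 : ℕ) : ℝ) / 2 ^ t := by
    rw [lt_div_iff₀ (by positivity)]
    push_cast
    rw [pow_add]
    linarith
  linarith

lemma cnt_spec (t : ℕ) : ¬ bdd str a (hist str a t) t (AA str a t + (cnt str a t + 1)) = true ∧
    (0 < cnt str a t → bdd str a (hist str a t) t (AA str a t + cnt str a t) = true) := by
  have h := count_anti (fun i => bdd str a (hist str a t) t (AA str a t + (i + 1)) = true)
    (fun i hi => bdd_anti str (by omega) hi) (2 ^ (t + 2) + 1)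
    ⟨2 ^ (t + 2), by omega, not_bad str hK ha1 ha3 t⟩
  refine ⟨h.1, fun h0 => ?_⟩
  have h1 := h.2 h0
  have h2 : cnt str a t - 1 + 1 = cnt str a t := Nat.succ_pred_eq_of_pos h0
  have h3 : bdd str a (hist str a t) t (AA str a t + (cnt str a t - 1 + 1)) = true := h1
  rwa [h2] at h3

lemma move_le (t : ℕ) : al str a (t + 1) - al str a t ≤ (1 / 2) ^ t +
    ∑ k ∈ range (t + 1), 2 ^ (k / 2) * Em str t (fun u => min (ee str a (al str a) k t u)
      (al str a (t + 1) - al str a t)) := by
  have hd := al_diff str (a := a) t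
  have h1 : ((cnt str a t : ℝ) + 1) / 2 ^ t = (1 / 2) ^ t + (cnt str a t : ℝ) / 2 ^ t := by
    rw [one_div, inv_pow]; ring
  have h2 : (cnt str a t : ℝ) / 2 ^ t ≤ ∑ k ∈ range (t + 1), 2 ^ (k / 2) * Em str t
      (fun u => min (ee str a (al str a) k t u) (al str a (t + 1) - al str a t)) := by
    rcases Nat.eq_zero_or_pos (cnt str a t) with h0 | h0
    · rw [h0]
      simp only [Nat.cast_zero, zero_div]
      exact Finset.sum_nonneg (fun k _ => mul_nonneg (by positivity) (min_nonneg str k t))
    · apply bad_bound str t (cnt str a t) _ _ ((cnt_spec str hK ha1 ha3 t).2 h0)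
      rw [hd]
      apply div_le_div_of_nonneg_right _ (by positivity)
      linarith
  linarith

/-- the positions are bounded -/
lemma al_le (N : ℕ) : al str a N ≤ 6 := by
  have h0 : al str a 0 = 0 := by
    unfold al AA hist
    simp
  have h1 : al str a N = ∑ t ∈ range N, (al str a (t + 1) - al str a t) := by
    rw [Finset.sum_range_sub, h0, sub_zero]
  rw [h1]
  refine (Finset.sum_le_sum (fun t _ => move_le str hK ha1 ha3 t)).trans ?_
  rw [Finset.sum_add_distrib]
  have h2 := sum_geometric_two_le N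
  have h3 : ∑ t ∈ range N, ∑ k ∈ range (t + 1), (2 : ℝ) ^ (k / 2) * Em str t
      (fun u => min (ee str a (al str a) k t u) (al str a (t + 1) - al str a t)) ≤ 4 := by
    calc _ ≤ ∑ t ∈ range N, ∑ k ∈ range N, (2 : ℝ) ^ (k / 2) * Em str t
          (fun u => min (ee str a (al str a) k t u) (al str a (t + 1) - al str a t)) := by
          apply Finset.sum_le_sum
          intro t ht
          rw [mem_range] at ht
          apply Finset.sum_le_sum_of_subset_of_nonneg
          · intro k hk
            rw [mem_range] at hk ⊢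
            omega
          · intro k _ _
            exact mul_nonneg (by positivity) (min_nonneg str k t)
      _ = ∑ k ∈ range N, (2 : ℝ) ^ (k / 2) * ∑ t ∈ range N, Em str t
          (fun u => min (ee str a (al str a) k t u) (al str a (t + 1) - al str a t)) := by
          rw [Finset.sum_comm]
          apply Finset.sum_congr rfl
          intro k _
          rw [Finset.mul_sum]
      _ ≤ ∑ k ∈ range N, (2 : ℝ) ^ (k / 2) * (1 / 2) ^ k := by
          apply Finset.sum_le_sum
          intro k _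
          apply mul_le_mul_of_nonneg_left _ (by positivity)
          have h4 := pot_le str hK ha1 ha3 k N
          have h5 := Em_nonneg str N (fun u => ee_nonneg str (a := a) (al := al str a) k N u)
          linarith
      _ ≤ 4 := sum_half N
  linarith

/-- the main property -/
lemma few (n k : ℕ) (hk : k ≤ n) : 2 ^ (k / 2) * ((range (2 ^ n)).filter (fun v =>
    cs str a (hist str a n) n k (code str n v) (AA str a (n + 1) / 2) = true)).card ≤ 2 ^ n := by
  have h1 := (cnt_spec str hK ha1 ha3 n).1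
  have h2 : AA str a (n + 1) / 2 = AA str a n + (cnt str a n + 1) := by
    rw [AA_next]; omega
  rw [h2]
  by_contra h3
  push Not at h3
  exact h1 ((bdd_iff str n _).2 ⟨k, hk, h3⟩)

end

lemma half_AA (str : ℕ ≃ List Bool) (a : ℕ → ℕ → ℕ) (n : ℕ) :
    ((AA str a (n + 1) / 2 : ℕ) : ℝ) / 2 ^ n = al str a (n + 1) := by
  have h2 : AA str a (n + 1) / 2 = AA str a n + (cnt str a n + 1) := by
    rw [AA_next]; omega
  unfold al
  rw [h2, AA_next, pow_succ]
  push_cast
  field_simp
  ring

end Pool.Agent.R557.CK
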