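import Pool.Agent.R557.CKAvg

set_option autoImplicit false

/-! Averages of functions of the initial segments with respect to a measure. -/

namespace Pool.Agent.R557.CK

open Finset MeasureTheory

/-- the first `n` bits of `X`, as a string -/
def ini (n : ℕ) (X : ℕ → Bool) : List Bool := List.ofFn (fun i : Fin n => X i)

lemma ini_length (n : ℕ) (X : ℕ → Bool) : (ini n X).length = n := by simp [ini]

lemma ini_take {n N : ℕ} (h : n ≤ N) (X : ℕ → Bool) : (ini N X).take n = ini n X := by
  unfold ini
  apply List.ext_getElem
  · simp [h]
  · intro i h1 h2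
    simp

/-- restriction to the first `n` coordinates -/
def rs (n : ℕ) (X : ℕ → Bool) : Fin n → Bool := fun i => X i

lemma rs_meas (n : ℕ) : Measurable (rs n) := by
  apply measurable_pi_lambda
  intro i
  exact measurable_pi_apply _

/-- functions of an initial segment are integrable -/
lemma integrable_ini (μ : Measure (ℕ → Bool)) [IsProbabilityMeasure μ] (n : ℕ) (F : List Bool → ℝ) :
    Integrable (fun X => F (ini n X)) μ := by
  have h1 : Integrable (fun x : Fin n → Bool => F (List.ofFn x)) (μ.map (rs n)) := by
    have := (Measure.isProbabilityMeasure_map (μ := μ) (rs_meas n).aemeasurable)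
    exact Integrable.of_finite
  exact h1.comp_measurable (rs_meas n)

lemma integral_ini (μ : Measure (ℕ → Bool)) [IsProbabilityMeasure μ] (n : ℕ) (F : List Bool → ℝ) :
    ∑ x : Fin n → Bool, μ.real {X | ∀ i : Fin n, X i = x i} * F (List.ofFn x) =
      ∫ X, F (ini n X) ∂μ := by
  have hp := (Measure.isProbabilityMeasure_map (μ := μ) (rs_meas n).aemeasurable)
  have h1 : Integrable (fun x : Fin n → Bool => F (List.ofFn x)) (μ.map (rs n)) :=
    Integrable.of_finite
  have h2 := integral_fintype h1
  rw [integral_map (rs_meas n).aemeasurable h1.1] at h2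
  have h3 : ∫ X, F (ini n X) ∂μ = ∑ x : Fin n → Bool, (μ.map (rs n)).real {x} • F (List.ofFn x) := h2
  rw [h3]
  apply Finset.sum_congr rfl
  intro x _
  rw [smul_eq_mul, map_measureReal_apply (rs_meas n) (measurableSet_singleton x)]
  congr 2
  ext X
  simp only [Set.mem_ofPred_eq, Set.mem_preimage, Set.mem_singleton_iff]
  constructor
  · intro h; funext i; exact h i
  · intro h i; exact congrFun h i

end Pool.Agent.R557.CK
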