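import Pool.Agent.R557.CKStar

set_option autoImplicit false

/-! Prefix complexity of a string in terms of its plain complexity. -/

namespace Pool.Agent.R557.CK

open Finset
open Pool.Agent.Helper981.KP (USC Kraft IsKP approx_le finite_of_kraft half_pow_le comp_le fmin
  computable_fmin)
open Pool.Agent.TH676.CK (IsPlain PCount approx_plain card_len)
open Pool.Agent.H166R3.AT (c_add c_mul c_sub c_div c_mod c_pow c_sum c_le c_lt c_eq c_and c_or
  c_not c_count)

lemma half_geo2 (m : ℕ) : ∑ d ∈ range m, ((1 : ℝ) / 2) ^ (d / 2) ≤ 4 := by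
  have key : ∀ m : ℕ, ∑ d ∈ range (2 * m), ((1 : ℝ) / 2) ^ (d / 2) = 4 - 4 * (1 / 2) ^ m := by
    intro m
    induction m with
    | zero => simp
    | succ m ih =>
      have e : 2 * (m + 1) = 2 * m + 1 + 1 := by ring
      rw [e, sum_range_succ, sum_range_succ, ih]
      have e1 : 2 * m / 2 = m := by omega
      have e2 : (2 * m + 1) / 2 = m := by omega
      rw [e1, e2, pow_succ]
      ring
  have h1 : ∑ d ∈ range m, ((1 : ℝ) / 2) ^ (d / 2) ≤ ∑ d ∈ range (2 * m), ((1 : ℝ) / 2) ^ (d / 2) := by
    apply Finset.sum_le_sum_of_subset_of_nonneg _ (fun _ _ _ => by positivity)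
    intro d hd
    rw [mem_range] at hd ⊢
    omega
  have h2 := key m
  have h3 : (0 : ℝ) ≤ (1 / 2) ^ m := by positivity
  linarith

/-- `K(x) ≤ K(n) + (n + C(x)) / 2 + O(1)` for strings `x` of length `n` -/
lemma K_le_half (str : ℕ ≃ List Bool) (hs : Computable str) {K C : ℕ → ℕ} (hK : IsKP K)
    (hC : IsPlain C) : ∃ c : ℕ, ∀ x, 2 * K x ≤ 2 * K (len str x) + len str x + C x + c := by
  classical
  obtain ⟨a, ha, ha1, ha3, ha2⟩ := exists_anti hK.1
  obtain ⟨b, hb, hb1, hb3, hb2⟩ := exists_anti hC.1
  set g : ℕ → ℕ → ℕ := fun x t => a (len str x) t + ((len str x - (len str x - b x t)) +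
    (len str x - b x t) / 2 + 3) with hg
  have cx : Computable (fun q : ℕ × ℕ => q.1) := Computable.fst
  have ct : Computable (fun q : ℕ × ℕ => q.2) := Computable.snd
  have cn : Computable (fun q : ℕ × ℕ => len str q.1) := (c_len str hs).comp cx
  have cd : Computable (fun q : ℕ × ℕ => len str q.1 - b q.1 q.2) := c_sub cn (hb.comp cx ct)
  have cg : Computable₂ g := c_add (ha.comp cn ct) (c_add (c_add (c_sub cn cd)
    (c_div cd (Computable.const 2))) (Computable.const 3))
  obtain ⟨c, hc⟩ := approx_le hK g cg (by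
    intro U τ
    set D : ℕ → ℕ := fun x => len str x - C x with hD
    have h1 : ∀ x ∈ U, ((1 : ℝ) / 2) ^ (g x (τ x)) ≤ (1 / 2) ^ (K (len str x)) *
        (1 / 2) ^ ((len str x - D x) + D x / 2 + 3) := by
      intro x _
      rw [← pow_add]
      apply half_pow_le
      simp only [hg, hD]
      have h2 := ha1 (len str x) (τ x)
      have h3 := hb1 x (τ x)
      omega
    refine (Finset.sum_le_sum h1).trans ?_
    rw [← Finset.sum_fiberwise_of_maps_to (t := U.image (len str)) (g := len str)
      (fun u hu => mem_image_of_mem (len str) hu)]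
    refine le_trans (b := ∑ n ∈ U.image (len str), ((1 : ℝ) / 2) ^ (K n)) ?_
      (finite_of_kraft hK.2.1 _)
    apply Finset.sum_le_sum
    intro n _
    have h2 : ∑ x ∈ U.filter (fun x => len str x = n), ((1 : ℝ) / 2) ^ (K (len str x)) *
        (1 / 2) ^ ((len str x - D x) + D x / 2 + 3) = ((1 : ℝ) / 2) ^ (K n) *
        ∑ x ∈ U.filter (fun x => len str x = n), ((1 : ℝ) / 2) ^ ((n - D x) + D x / 2 + 3) := by
      rw [Finset.mul_sum]
      apply Finset.sum_congr rfl
      intro x hx
      rw [(mem_filter.1 hx).2]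
    rw [h2]
    apply mul_le_of_le_one_right (by positivity)
    set V := U.filter (fun x => len str x = n) with hV
    have hmaps : ∀ x ∈ V, D x ∈ range (n + 1) := by
      intro x hx
      rw [hV, mem_filter] at hx
      rw [mem_range]
      simp only [hD]
      omega
    rw [← Finset.sum_fiberwise_of_maps_to hmaps]
    have h3 : ∀ d ∈ range (n + 1), ∑ x ∈ V.filter (fun x => D x = d),
        ((1 : ℝ) / 2) ^ ((n - D x) + D x / 2 + 3) ≤ (1 / 4) * (1 / 2) ^ (d / 2) := by
      intro d hd
      rw [mem_range] at hd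
      have h4 : ∑ x ∈ V.filter (fun x => D x = d), ((1 : ℝ) / 2) ^ ((n - D x) + D x / 2 + 3) =
          ((V.filter (fun x => D x = d)).card : ℝ) * (1 / 2) ^ ((n - d) + d / 2 + 3) := by
        rw [← nsmul_eq_mul, ← Finset.sum_const]
        apply Finset.sum_congr rfl
        intro x hx
        rw [(mem_filter.1 hx).2]
      have h5 : (V.filter (fun x => D x = d)).card ≤ 2 ^ (n - d + 1) := by
        rcases Nat.eq_zero_or_pos d with h0 | h0
        · subst h0
          refine le_trans (card_len_le str n _ ?_) (Nat.pow_le_pow_right (by norm_num) (by omega))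
          intro x hx
          rw [mem_filter, hV, mem_filter] at hx
          exact hx.1.2
        · apply hC.2.1
          intro x hx
          rw [mem_filter, hV, mem_filter] at hx
          have h6 := hx.2
          simp only [hD] at h6
          omega
      have h6 : ((V.filter (fun x => D x = d)).card : ℝ) ≤ 2 ^ (n - d + 1) := by exact_mod_cast h5
      rw [h4]
      have h7 : ((1 : ℝ) / 2) ^ (n - d) * 2 ^ (n - d) = 1 := by rw [← mul_pow]; norm_num
      calc ((V.filter (fun x => D x = d)).card : ℝ) * (1 / 2) ^ ((n - d) + d / 2 + 3)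
          ≤ 2 ^ (n - d + 1) * (1 / 2) ^ ((n - d) + d / 2 + 3) :=
            mul_le_mul_of_nonneg_right h6 (by positivity)
        _ = (1 / 4) * (1 / 2) ^ (d / 2) := by
            rw [pow_add, pow_add, pow_add]
            linear_combination ((1 / 4 : ℝ) * (1 / 2) ^ (d / 2)) * h7
    refine (Finset.sum_le_sum h3).trans ?_
    rw [← Finset.mul_sum]
    have := half_geo2 (n + 1)
    linarith)
  refine ⟨2 * c + 6, fun x => ?_⟩
  obtain ⟨t1, ht1⟩ := ha2 (len str x)
  obtain ⟨t2, ht2⟩ := hb2 x
  have h1 := hc x (t1 + t2)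
  simp only [hg] at h1
  rw [ht1 _ (by omega), ht2 _ (by omega)] at h1
  omega

end Pool.Agent.R557.CK
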