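import Pool.Agent.R557.CKLim

set_option autoImplicit false

/-! Plain complexity of long strings in terms of averaged prefix deficiencies. -/

namespace Pool.Agent.R557.CK

open Finset
open Pool.Agent.Helper981.KP (USC Kraft IsKP approx_le finite_of_kraft half_pow_le comp_le fmin
  computable_fmin)
open Pool.Agent.TH676.CK (IsPlain PCount approx_plain card_len)
open Pool.Agent.H166R3.AT (c_add c_mul c_sub c_div c_mod c_pow c_sum c_le c_lt c_eq c_and c_or
  c_not c_count)

section
variable (str : ℕ ≃ List Bool)

/-- the condition for a string `u` with parameter `k` -/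
def hit (a : ℕ → ℕ → ℕ) (u k : ℕ) : Prop :=
  k ≤ len str u ∧ cs str a (hist str a (len str u)) (len str u) k u (AA str a (len str u + 1) / 2) = true

instance (a : ℕ → ℕ → ℕ) (u k : ℕ) : Decidable (hit str a u k) := by unfold hit; infer_instance

/-- the requests -/
def hg (a : ℕ → ℕ → ℕ) (u k : ℕ) : ℕ :=
  if hit str a u k then len str u + 4 + k / 4 - k / 2 else len str u + 1

lemma c_hg {a : ℕ → ℕ → ℕ} (hs : Computable str) (ha : Computable₂ a) : Computable₂ (hg str a) := by
  have cu : Computable (fun q : ℕ × ℕ => q.1) := Computable.fst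
  have ck : Computable (fun q : ℕ × ℕ => q.2) := Computable.snd
  have cn : Computable (fun q : ℕ × ℕ => len str q.1) := (c_len str hs).comp cu
  have c1 : Computable (fun q : ℕ × ℕ => decide (hit str a q.1 q.2)) := by
    have h := c_and (c_le ck cn) (c_cs str a hs ha (c_hist str a hs ha cn) cn ck cu
      (c_div (c_AA str a hs ha (c_add cn (Computable.const 1))) (Computable.const 2)))
    refine h.of_eq fun q => ?_
    rw [Bool.eq_iff_iff]
    simp only [Bool.and_eq_true, decide_eq_true_eq]
    exact Iff.rfl
  unfold hg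
  refine c_ite' c1 ?_ (c_add cn (Computable.const 1))
  exact c_sub (c_add (c_add cn (Computable.const 4)) (c_div ck (Computable.const 4)))
    (c_div ck (Computable.const 2))

variable {a : ℕ → ℕ → ℕ} {K : ℕ → ℕ} (hK : Kraft K) (ha1 : ∀ x t, K x ≤ a x t)
  (ha3 : ∀ x t t', t ≤ t' → a x t' ≤ a x t)

include hK ha1 ha3 in
lemma hit_card (k N : ℕ) (U : Finset ℕ) (hU : ∀ u ∈ U, len str u = N ∧ hit str a u k) :
    2 ^ (k / 2) * U.card ≤ 2 ^ N := by
  classical
  by_cases hne : U.Nonempty
  swap
  · rw [Finset.not_nonempty_iff_eq_empty] at hne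
    rw [hne]; simp
  obtain ⟨u0, hu0⟩ := hne
  have hkN : k ≤ N := by
    have := (hU u0 hu0).2.1
    rwa [(hU u0 hu0).1] at this
  refine le_trans (Nat.mul_le_mul_left _ ?_) (few str hK ha1 ha3 N k hkN)
  have hsub : U ⊆ ((range (2 ^ N)).filter (fun v => cs str a (hist str a N) N k (code str N v)
      (AA str a (N + 1) / 2) = true)).image (code str N) := by
    intro u hu
    obtain ⟨v, hv, hvu⟩ := exists_code str (hU u hu).1
    rw [Finset.mem_image]
    refine ⟨v, ?_, hvu⟩
    rw [mem_filter, mem_range]
    refine ⟨hv, ?_⟩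
    have h1 := (hU u hu).2.2
    rw [(hU u hu).1, ← hvu] at h1
    exact h1
  exact (Finset.card_le_card hsub).trans Finset.card_image_le

/-- `∑_{k < m} 2^(-(k/4)) ≤ 8` -/
lemma quarter_geo (m : ℕ) : ∑ k ∈ range m, ((1 : ℝ) / 2) ^ (k / 4) ≤ 8 := by
  have key : ∀ m : ℕ, ∑ k ∈ range (4 * m), ((1 : ℝ) / 2) ^ (k / 4) = 8 - 8 * (1 / 2) ^ m := by
    intro m
    induction m with
    | zero => simp
    | succ m ih =>
      have e : 4 * (m + 1) = 4 * m + 1 + 1 + 1 + 1 := by ring
      rw [e, sum_range_succ, sum_range_succ, sum_range_succ, sum_range_succ, ih]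
      have e0 : 4 * m / 4 = m := by omega
      have e1 : (4 * m + 1) / 4 = m := by omega
      have e2 : (4 * m + 1 + 1) / 4 = m := by omega
      have e3 : (4 * m + 1 + 1 + 1) / 4 = m := by omega
      rw [e0, e1, e2, e3, pow_succ]
      ring
  have h1 : ∑ k ∈ range m, ((1 : ℝ) / 2) ^ (k / 4) ≤ ∑ k ∈ range (4 * m), ((1 : ℝ) / 2) ^ (k / 4) := by
    apply Finset.sum_le_sum_of_subset_of_nonneg _ (fun _ _ _ => by positivity)
    intro d hd
    rw [mem_range] at hd ⊢
    omega
  have h2 := key m
  have h3 : (0 : ℝ) ≤ (1 / 2) ^ m := by positivity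
  linarith

include hK ha1 ha3 in
lemma hg_count (m : ℕ) (U : Finset ℕ) (τ : ℕ → ℕ) (hU : ∀ u ∈ U, hg str a u (τ u) ≤ m) :
    U.card ≤ 2 ^ (m + 1) := by
  classical
  rw [← Finset.card_filter_add_card_filter_not (s := U) (fun u => hit str a u (τ u))]
  have h2 : (U.filter (fun u => ¬ hit str a u (τ u))).card ≤ 2 ^ m := by
    have hmaps : ∀ u ∈ U.filter (fun u => ¬ hit str a u (τ u)), len str u ∈ range m := by
      intro u hu
      rw [mem_filter] at hu
      have h3 := hU u hu.1
      unfold hg at h3
      rw [if_neg hu.2] at h3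
      rw [mem_range]
      omega
    rw [Finset.card_eq_sum_card_fiberwise hmaps]
    refine le_trans (Finset.sum_le_sum (g := fun N => 2 ^ N) ?_) (nat_geo m)
    intro N _
    apply card_len_le str N
    intro u hu
    exact (mem_filter.1 hu).2
  have h1 : (U.filter (fun u => hit str a u (τ u))).card ≤ 2 ^ m := by
    set U1 := U.filter (fun u => hit str a u (τ u)) with hU1
    set D := U1.image τ with hD
    have hmapsD : ∀ u ∈ U1, τ u ∈ D := fun u hu => mem_image_of_mem _ hu
    have hdcount : ∀ k ∈ D, ((U1.filter (fun u => τ u = k)).card : ℝ) ≤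
        2 ^ m * (1 / 8) * (1 / 2) ^ (k / 4) := by
      intro k hk
      have hmaps : ∀ u ∈ U1.filter (fun u => τ u = k),
          len str u ∈ (range (m + k + 1)).filter (fun N => N + 4 + k / 4 ≤ m + k / 2) := by
        intro u hu
        rw [mem_filter, hU1, mem_filter] at hu
        obtain ⟨⟨hu1, hu2⟩, hu3⟩ := hu
        have h3 := hU u hu1
        unfold hg at h3
        rw [if_pos hu2, hu3] at h3
        rw [hu3] at hu2
        have h4 := hu2.1
        rw [mem_filter, mem_range]
        omega
      have hN : ∀ N ∈ (range (m + k + 1)).filter (fun N => N + 4 + k / 4 ≤ m + k / 2),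
          (((U1.filter (fun u => τ u = k)).filter (fun u => len str u = N)).card : ℝ) ≤
            2 ^ N * (1 / 2) ^ (k / 2) := by
        intro N _
        have h4 := hit_card str hK ha1 ha3 k N ((U1.filter (fun u => τ u = k)).filter
          (fun u => len str u = N)) (by
            intro y hy
            rw [mem_filter, mem_filter, hU1, mem_filter] at hy
            refine ⟨hy.2, ?_⟩
            have := hy.1.1.2
            rw [hy.1.2] at this
            exact this)
        have h5 : (2 : ℝ) ^ (k / 2) * ((((U1.filter (fun u => τ u = k)).filter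
            (fun u => len str u = N)).card : ℕ) : ℝ) ≤ 2 ^ N := by exact_mod_cast h4
        have h6 : (2 : ℝ) ^ (k / 2) * (1 / 2) ^ (k / 2) = 1 := by rw [← mul_pow]; norm_num
        have h7 : (0 : ℝ) ≤ (1 / 2) ^ (k / 2) := by positivity
        have h8 := mul_le_mul_of_nonneg_right h5 h7
        refine le_trans (le_of_eq ?_) h8
        linear_combination (- ((((U1.filter (fun u => τ u = k)).filter
            (fun u => len str u = N)).card : ℕ) : ℝ)) * h6
      rw [Finset.card_eq_sum_card_fiberwise hmaps]
      push_cast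
      refine (Finset.sum_le_sum hN).trans ?_
      by_cases hbig : 4 + k / 4 ≤ m + k / 2
      · obtain ⟨M, hM⟩ := Nat.exists_eq_add_of_le hbig
        have hsub : (range (m + k + 1)).filter (fun N => N + 4 + k / 4 ≤ m + k / 2) ⊆
            range (M + 1) := by
          intro N hN
          rw [mem_filter, mem_range] at hN
          rw [mem_range]
          omega
        have h4 : ∑ N ∈ (range (m + k + 1)).filter (fun N => N + 4 + k / 4 ≤ m + k / 2),
            (2 : ℝ) ^ N * (1 / 2) ^ (k / 2) ≤ 2 ^ (M + 1) * (1 / 2) ^ (k / 2) := by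
          calc _ ≤ ∑ N ∈ range (M + 1), (2 : ℝ) ^ N * (1 / 2) ^ (k / 2) :=
                Finset.sum_le_sum_of_subset_of_nonneg hsub (fun _ _ _ => by positivity)
            _ = (∑ N ∈ range (M + 1), (2 : ℝ) ^ N) * (1 / 2) ^ (k / 2) := by
                rw [Finset.sum_mul]
            _ ≤ _ := by
                have h5 : ∑ N ∈ range (M + 1), (2 : ℝ) ^ N ≤ 2 ^ (M + 1) := by
                  exact_mod_cast nat_geo (M + 1)
                exact mul_le_mul_of_nonneg_right h5 (by positivity)
        refine h4.trans (le_of_eq ?_)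
        have h6 : (2 : ℝ) ^ (M + 1) * 2 ^ (k / 4) * 8 = 2 ^ m * 2 ^ (k / 2) := by
          have : (8 : ℝ) = 2 ^ 3 := by norm_num
          rw [this, ← pow_add, ← pow_add, ← pow_add]
          congr 1
          omega
        have h7 : (2 : ℝ) ^ (k / 4) * (1 / 2) ^ (k / 4) = 1 := by rw [← mul_pow]; norm_num
        have h8 : (2 : ℝ) ^ (k / 2) * (1 / 2) ^ (k / 2) = 1 := by rw [← mul_pow]; norm_num
        calc (2 : ℝ) ^ (M + 1) * (1 / 2) ^ (k / 2) =
            ((2 : ℝ) ^ (M + 1) * 2 ^ (k / 4) * 8) * (1 / 8) * (1 / 2) ^ (k / 2) * (1 / 2) ^ (k / 4) := by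
              linear_combination (- (2 : ℝ) ^ (M + 1) * (1 / 2) ^ (k / 2)) * h7
          _ = _ := by
              rw [h6]
              linear_combination ((2 : ℝ) ^ m * (1 / 8) * (1 / 2) ^ (k / 4)) * h8
      · have hemp : (range (m + k + 1)).filter (fun N => N + 4 + k / 4 ≤ m + k / 2) = ∅ := by
          rw [Finset.filter_eq_empty_iff]
          intro N _
          omega
        rw [hemp, Finset.sum_empty]
        positivity
    have hfin : (U1.card : ℝ) ≤ 2 ^ m := by
      rw [Finset.card_eq_sum_card_fiberwise hmapsD]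
      push_cast
      refine (Finset.sum_le_sum hdcount).trans ?_
      rw [← Finset.mul_sum]
      have h3 : ∑ k ∈ D, ((1 : ℝ) / 2) ^ (k / 4) ≤ 8 := by
        refine le_trans (Finset.sum_le_sum_of_subset_of_nonneg (t := range (D.sup id + 1)) ?_
          (fun _ _ _ => by positivity)) (quarter_geo _)
        intro d hd
        rw [mem_range]
        have := Finset.le_sup (f := id) hd
        simp only [id] at this
        omega
      have h4 : (0 : ℝ) ≤ 2 ^ m * (1 / 8) := by positivity
      calc (2 : ℝ) ^ m * (1 / 8) * ∑ k ∈ D, ((1 : ℝ) / 2) ^ (k / 4) ≤ 2 ^ m * (1 / 8) * 8 :=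
            mul_le_mul_of_nonneg_left h3 h4
        _ = 2 ^ m := by ring
    exact_mod_cast hfin
  rw [pow_succ]
  omega

/-- the settling time of the approximations for all strings of length less than `r` -/
lemma settle (ha2 : ∀ x, ∃ t₀, ∀ t ≥ t₀, a x t = K x) (r : ℕ) :
    ∃ t₀, ∀ t ≥ t₀, ∀ z < r, ∀ u, z ≤ len str u → a (tk str z u) t = K (tk str z u) := by
  choose s hs using ha2
  refine ⟨∑ z ∈ range r, ∑ v ∈ range (2 ^ z), s (code str z v), ?_⟩
  intro t ht z hz u hu
  obtain ⟨v, hv, hvu⟩ := exists_code str (len_tk str hu)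
  rw [← hvu]
  apply hs
  refine le_trans ?_ ht
  refine le_trans ?_ (Finset.single_le_sum (f := fun z => ∑ v ∈ range (2 ^ z), s (code str z v))
    (fun _ _ => Nat.zero_le _) (mem_range.2 hz))
  exact Finset.single_le_sum (f := fun v => s (code str z v)) (fun _ _ => Nat.zero_le _)
    (mem_range.2 hv)

end

/-- The main inequality: the plain complexity of all sufficiently long strings is bounded in terms
of a weighted average of the prefix deficiencies of their initial segments. -/
lemma star (str : ℕ ≃ List Bool) (hs : Computable str) {K C : ℕ → ℕ} (hK : IsKP K)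
    (hC : IsPlain C) : ∃ c : ℝ, ∀ p : ℕ, ∃ r : ℕ, ∃ w : ℕ → ℝ, (∀ z ∈ Ico p r, 0 ≤ w z) ∧
      ∑ z ∈ Ico p r, w z = 1 ∧ ∃ n₁, ∀ n ≥ n₁, r ≤ n ∧ ∀ x, len str x = n →
        (C x : ℝ) ≤ n + c - (1 / 4) * ∑ z ∈ Ico p r, w z * ((z : ℝ) + K z - K (tk str z x)) := by
  classical
  obtain ⟨a, ha, ha1, ha3, ha2⟩ := exists_anti hK.1
  have hKr := hK.2.1
  -- the coding constant for the increments
  have hcnt_c : Computable₂ (fun t _ : ℕ => cnt str a t + 1) := by
    have h1 : Computable (fun q : ℕ × ℕ => AA str a (q.1 + 1) / 2 - AA str a q.1) :=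
      c_sub (c_div (c_AA str a hs ha (c_add Computable.fst (Computable.const 1)))
        (Computable.const 2)) (c_AA str a hs ha Computable.fst)
    refine h1.of_eq fun q => ?_
    show AA str a (q.1 + 1) / 2 - AA str a q.1 = cnt str a q.1 + 1
    rw [AA_next]
    omega
  obtain ⟨c1, hc1⟩ := coding hK (fun t _ => cnt str a t + 1) (fun t _ => t + 3) hcnt_c
    (c_add Computable.fst (Computable.const 3)) (by
      intro U τ
      have h1 : ∀ t, ((cnt str a t + 1 : ℕ) : ℝ) / 2 ^ (t + 3) =
          (1 / 8) * (al str a (t + 1) - al str a t) := by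
        intro t
        rw [al_diff, pow_add]
        push_cast
        field_simp
        norm_num
      simp only [h1]
      rw [← Finset.mul_sum]
      have h2 : ∑ t ∈ U, (al str a (t + 1) - al str a t) ≤ 6 := by
        have h3 : U ⊆ range (U.sup id + 1) := by
          intro u hu
          rw [mem_range]
          have := Finset.le_sup (f := id) hu
          simp only [id] at this
          omega
        refine (Finset.sum_le_sum_of_subset_of_nonneg h3 (fun t _ _ => by
          linarith [al_lt str (a := a) t])).trans ?_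
        rw [Finset.sum_range_sub]
        have h4 := al_le str hKr ha1 ha3 (U.sup id + 1)
        have h5 : 0 ≤ al str a 0 := by unfold al; positivity
        linarith
      linarith)
  -- the plain requests
  obtain ⟨c2, hc2⟩ := approx_plain hC (hg str a) (c_hg str hs ha)
    (fun m U τ hU => hg_count str hKr ha1 ha3 m U τ hU)
  have htriv : ∀ x, (C x : ℝ) ≤ len str x + 1 + c2 := by
    intro x
    have h1 := hc2 x (len str x + 1)
    unfold hg at h1
    rw [if_neg (by unfold hit; omega)] at h1
    exact_mod_cast h1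
  -- the limit
  have hbdd : BddAbove (Set.range (al str a)) := by
    refine ⟨6, ?_⟩
    rintro _ ⟨n, rfl⟩
    exact al_le str hKr ha1 ha3 n
  set L := ⨆ t, al str a t with hL
  have hLle : ∀ t, al str a t ≤ L := fun t => le_ciSup hbdd t
  refine ⟨c2 + 5 + (c1 + 4) / 4, fun p => ?_⟩
  have hpL : al str a p < L := lt_of_lt_of_le (al_lt str p) (hLle (p + 1))
  obtain ⟨r, hr⟩ : ∃ r, L - al str a p < 2 * (al str a r - al str a p) := by
    have h1 : (L + al str a p) / 2 < L := by linarith
    obtain ⟨r, hr⟩ := exists_lt_of_lt_ciSup h1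
    exact ⟨r, by linarith⟩
  have hpr : p < r := by
    by_contra h
    have := (al_mono str (a := a)) (not_lt.1 h)
    linarith
  set W := al str a r - al str a p with hW
  have hWpos : 0 < W := by
    have := (al_strict str (a := a)) hpr
    linarith
  set de : ℕ → ℝ := fun z => al str a (z + 1) - al str a z with hde
  have hdepos : ∀ z, 0 < de z := fun z => by
    have := al_lt str (a := a) z
    simp only [hde]
    linarith
  have hdesum : ∑ z ∈ Ico p r, de z = W := by
    simp only [hde]
    rw [Finset.sum_Ico_eq_sub _ hpr.le, Finset.sum_range_sub, Finset.sum_range_sub]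
    ring
  have hw1 : ∑ z ∈ Ico p r, de z / W = 1 := by
    rw [← Finset.sum_div, hdesum, div_self hWpos.ne']
  refine ⟨r, fun z => de z / W, fun z _ => div_nonneg (hdepos z).le hWpos.le, hw1, ?_⟩
  obtain ⟨t0, ht0⟩ := settle str ha2 r
  obtain ⟨n2, hn2⟩ : ∃ n2 : ℕ, (∑ z ∈ Ico p r, (2 : ℝ) ^ z) / (L - al str a p) < 2 ^ n2 :=
    pow_unbounded_of_one_lt _ (by norm_num)
  refine ⟨t0 + n2 + r, fun n hn => ⟨by omega, fun x hx => ?_⟩⟩
  set R := ∑ z ∈ Ico p r, (2 : ℝ) ^ z * (1 / 2) ^ (K (tk str z x)) with hR
  have hRpos : 0 < R := by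
    rw [hR]
    exact Finset.sum_pos (fun _ _ => by positivity) (by rw [Finset.nonempty_Ico]; exact hpr)
  have hRT : R ≤ TT str a p n x := by
    unfold TT
    have h1 : R = ∑ z ∈ Ico p r, qq str a n z x := by
      rw [hR]
      apply Finset.sum_congr rfl
      intro z hz
      rw [mem_Ico] at hz
      unfold qq
      rw [ht0 n (by omega) z hz.2 x (by rw [hx]; omega)]
    rw [h1]
    apply Finset.sum_le_sum_of_subset_of_nonneg _ (fun _ _ _ => qq_nonneg str _ _ _)
    exact Finset.Ico_subset_Ico_right (by omega)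
  set rho := R / (L - al str a p) with hrho
  have hLp : 0 < L - al str a p := by linarith
  have hrhopos : 0 < rho := div_pos hRpos hLp
  -- Jensen
  have hJ : ∑ z ∈ Ico p r, de z / W * ((z : ℝ) + K z - K (tk str z x)) ≤
      Real.logb 2 rho + 4 + c1 := by
    have hconc : ConcaveOn ℝ (Set.Ioi 0) Real.log := strictConcaveOn_log_Ioi.concaveOn
    have h4 := hconc.le_map_sum (t := Ico p r) (w := fun z => de z / W)
      (p := fun z => (2 : ℝ) ^ z * (1 / 2) ^ (K (tk str z x)) / de z)
      (fun z _ => div_nonneg (hdepos z).le hWpos.le) hw1 (fun z _ => by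
        rw [Set.mem_Ioi]
        have := hdepos z
        positivity)
    simp only [smul_eq_mul] at h4
    have h5 : ∑ z ∈ Ico p r, de z / W * ((2 : ℝ) ^ z * (1 / 2) ^ (K (tk str z x)) / de z) = R / W := by
      rw [hR, Finset.sum_div]
      apply Finset.sum_congr rfl
      intro z _
      have := (hdepos z).ne'
      field_simp
    rw [h5] at h4
    have h6 : R / W ≤ 2 * rho := by
      rw [hrho, div_le_iff₀ hWpos]
      have h7 : 2 * (R / (L - al str a p)) * W = R * (2 * W / (L - al str a p)) := by ring
      rw [h7]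
      have h8 : 1 ≤ 2 * W / (L - al str a p) := by
        rw [one_le_div hLp]; exact hr.le
      nlinarith
    have hl2 : 0 < Real.log 2 := Real.log_pos (by norm_num)
    have h7 : Real.log (R / W) ≤ Real.log (2 * rho) := Real.log_le_log (by positivity) h6
    rw [Real.log_mul (by norm_num) hrhopos.ne'] at h7
    have h8 : ∀ z, Real.log ((2 : ℝ) ^ z * (1 / 2) ^ (K (tk str z x)) / de z) =
        ((z : ℝ) - K (tk str z x)) * Real.log 2 - Real.log (de z) := by
      intro z
      rw [Real.log_div (by positivity) (hdepos z).ne', Real.log_mul (by positivity) (by positivity),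
        Real.log_pow, Real.log_pow, one_div, Real.log_inv]
      ring
    have h9 : ∀ z, ((K z : ℝ) - 3 - c1) * Real.log 2 ≤ - Real.log (de z) := by
      intro z
      have h10 := hc1 z 0 (Nat.succ_pos _)
      have h11 : Real.log (de z) = Real.log ((cnt str a z + 1 : ℕ) : ℝ) - z * Real.log 2 := by
        simp only [hde]
        rw [al_diff, Real.log_div (by positivity) (by positivity), Real.log_pow]
        push_cast
        ring
      have h12 : Real.log ((cnt str a z + 1 : ℕ) : ℝ) =
          Real.logb 2 ((cnt str a z + 1 : ℕ) : ℝ) * Real.log 2 := by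
        unfold Real.logb
        field_simp
      rw [h11, h12]
      push_cast at h10 ⊢
      have h13 : ((K z : ℝ) - 3 - c1) ≤ z - Real.logb 2 ((cnt str a z : ℝ) + 1) := by linarith
      have h14 := mul_le_mul_of_nonneg_right h13 hl2.le
      linarith
    have h15 : (∑ z ∈ Ico p r, de z / W * ((z : ℝ) + K z - K (tk str z x)) - 3 - c1) * Real.log 2 ≤
        ∑ z ∈ Ico p r, de z / W * Real.log ((2 : ℝ) ^ z * (1 / 2) ^ (K (tk str z x)) / de z) := by
      have h16 : (∑ z ∈ Ico p r, de z / W * ((z : ℝ) + K z - K (tk str z x)) - 3 - c1) * Real.log 2 =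
          ∑ z ∈ Ico p r, de z / W * (((z : ℝ) + K z - K (tk str z x) - 3 - c1) * Real.log 2) := by
        have h17 : ∑ z ∈ Ico p r, de z / W * (((z : ℝ) + K z - K (tk str z x) - 3 - c1) * Real.log 2) =
            (∑ z ∈ Ico p r, de z / W * ((z : ℝ) + K z - K (tk str z x))) * Real.log 2 -
            (∑ z ∈ Ico p r, de z / W) * ((3 + c1) * Real.log 2) := by
          rw [Finset.sum_mul, Finset.sum_mul, ← Finset.sum_sub_distrib]
          apply Finset.sum_congr rfl
          intro z _
          ring
        rw [h17, hw1]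
        ring
      rw [h16]
      apply Finset.sum_le_sum
      intro z _
      apply mul_le_mul_of_nonneg_left _ (div_nonneg (hdepos z).le hWpos.le)
      rw [h8]
      have := h9 z
      nlinarith
    have h18 : (∑ z ∈ Ico p r, de z / W * ((z : ℝ) + K z - K (tk str z x)) - 3 - c1) * Real.log 2 ≤
        (1 + Real.logb 2 rho) * Real.log 2 := by
      refine h15.trans (h4.trans (h7.trans (le_of_eq ?_)))
      unfold Real.logb
      field_simp
    have h19 := le_of_mul_le_mul_right h18 hl2
    linarith
  -- the bound in terms of `rho`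
  have hmain : (C x : ℝ) ≤ n + (c2 + 5) - (1 / 4) * Real.logb 2 rho := by
    by_cases h1 : rho ≤ 1
    · have h2 : Real.logb 2 rho ≤ 0 := Real.logb_nonpos (by norm_num) hrhopos.le h1
      have h3 := htriv x
      rw [hx] at h3
      linarith
    · push Not at h1
      -- the largest `k` with `2 ^ k < rho`
      have hex : ∃ k : ℕ, rho ≤ 2 ^ (k + 1) := by
        obtain ⟨k, hk⟩ := pow_unbounded_of_one_lt rho (by norm_num : (1 : ℝ) < 2)
        exact ⟨k, hk.le.trans (pow_le_pow_right₀ (by norm_num) (Nat.le_succ k))⟩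
      set k := Nat.find hex with hk
      have hk1 : rho ≤ 2 ^ (k + 1) := Nat.find_spec hex
      have hk2 : (2 : ℝ) ^ k < rho := by
        rcases Nat.eq_zero_or_pos k with h0 | h0
        · rw [h0]; simpa using h1
        · have h2 := Nat.find_min hex (m := k - 1) (by omega)
          rw [Nat.sub_add_cancel h0] at h2
          exact not_le.1 h2
      have hkn : k ≤ n := by
        have h2 : rho < 2 ^ n := by
          refine lt_of_le_of_lt ?_ (lt_of_lt_of_le hn2 (pow_le_pow_right₀ (by norm_num)
            (by omega : n2 ≤ n)))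
          rw [hrho]
          apply div_le_div_of_nonneg_right _ hLp.le
          rw [hR]
          apply Finset.sum_le_sum
          intro z _
          exact mul_le_of_le_one_right (by positivity) (pow_le_one₀ (by norm_num) (by norm_num))
        have h3 : (2 : ℝ) ^ k < 2 ^ n := hk2.trans h2
        exact (pow_lt_pow_iff_right₀ (by norm_num : (1 : ℝ) < 2)).1 h3 |>.le
      have hhit : hit str a x k := by
        unfold hit
        rw [hx]
        refine ⟨hkn, ?_⟩
        rw [cs_iff, half_AA]
        refine ⟨p, by omega, ?_⟩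
        have h2 := hLle (n + 1)
        have h3 : L - al str a p < (1 / 2) ^ k * R := by
          rw [hrho, lt_div_iff₀ hLp] at hk2
          have h4 : (2 : ℝ) ^ k * (1 / 2) ^ k = 1 := by rw [← mul_pow]; norm_num
          have h5 : (0 : ℝ) < (1 / 2) ^ k := by positivity
          have h6 := mul_lt_mul_of_pos_left hk2 h5
          have h7 : (1 / 2 : ℝ) ^ k * (2 ^ k * (L - al str a p)) = L - al str a p := by
            linear_combination (L - al str a p) * h4
          rwa [h7] at h6
        have h4 : (1 / 2 : ℝ) ^ k * R ≤ (1 / 2) ^ k * TT str a p n x :=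
          mul_le_mul_of_nonneg_left hRT (by positivity)
        linarith
      have h2 := hc2 x k
      unfold hg at h2
      rw [if_pos hhit, hx] at h2
      have h3 : C x + k ≤ n + 4 * (C x) + 0 + 4 * c2 + 100 + 4 * n + k := by omega
      have h4 : 4 * C x + k ≤ 4 * n + 4 * c2 + 16 + 2 := by omega
      have h5 : (4 : ℝ) * C x + k ≤ 4 * n + 4 * c2 + 18 := by exact_mod_cast h4
      have h6 : Real.logb 2 rho ≤ k + 1 := by
        rw [Real.logb_le_iff_le_rpow (by norm_num) hrhopos]
        refine hk1.trans (le_of_eq ?_)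
        rw [← Real.rpow_natCast]
        push_cast
        rfl
      linarith
  have h20 : (1 / 4 : ℝ) * ∑ z ∈ Ico p r, de z / W * ((z : ℝ) + K z - K (tk str z x)) ≤
      (1 / 4) * (Real.logb 2 rho + 4 + c1) := mul_le_mul_of_nonneg_left hJ (by norm_num)
  linarith

end Pool.Agent.R557.CK
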