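import Pool.Agent.R557.CKMeas

set_option autoImplicit false

/-! Complexities of strings and of their lengths. -/

namespace Pool.Agent.R557.CK

open Finset
open Pool.Agent.Helper981.KP (USC Kraft IsKP approx_le finite_of_kraft half_pow_le comp_le fmin
  computable_fmin)
open Pool.Agent.TH676.CK (IsPlain PCount approx_plain fmin_anti' le_fmin' fmin_le' card_len)
open Pool.Agent.H166R3.AT (c_add c_mul c_sub c_div c_mod c_pow c_sum c_le c_lt c_eq c_and c_or
  c_not c_count)

/-- approximations which are non-increasing in the stage -/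
lemma exists_anti {K : ℕ → ℕ} (h : USC K) : ∃ a : ℕ → ℕ → ℕ, Computable₂ a ∧
    (∀ x t, K x ≤ a x t) ∧ (∀ x t t', t ≤ t' → a x t' ≤ a x t) ∧ ∀ x, ∃ t₀, ∀ t ≥ t₀, a x t = K x := by
  obtain ⟨f, hf, hfK⟩ := h
  refine ⟨fmin f, computable_fmin hf, fun x t => le_fmin' (fun x t => (hfK x).1 t) x t,
    fun x t t' h => fmin_anti' f x h, ?_⟩
  intro x
  obtain ⟨t₀, ht₀⟩ := (hfK x).2
  refine ⟨t₀, fun t ht => le_antisymm ?_ (le_fmin' (fun x t => (hfK x).1 t) x t)⟩
  exact (fmin_anti' f x ht).trans ((fmin_le' f x t₀).trans ht₀.le)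

lemma computable_symm (str : ℕ ≃ List Bool) (hs : Computable str) : Computable str.symm := by
  have h1 : Partrec (fun x : List Bool => Nat.rfind (fun n => Part.some (decide (str n = x)))) := by
    have h2 : Computable₂ (fun (x : List Bool) (n : ℕ) => decide (str n = x)) :=
      (Primrec.eq.decide.to_comp).comp (hs.comp Computable.snd) Computable.fst
    exact Partrec.rfind h2.partrec₂
  have h2 : ∀ x : List Bool, Nat.rfind (fun n => Part.some (decide (str n = x))) =
      Part.some (str.symm x) := by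
    intro x
    apply Part.eq_some_iff.2
    refine (Nat.mem_rfind (p := fun n => Part.some (decide (str n = x)))).2 ⟨?_, ?_⟩
    · simp
    · intro m hm
      rw [Part.mem_some_iff]
      symm
      rw [decide_eq_false_iff_not]
      intro h
      rw [← h, Equiv.symm_apply_apply] at hm
      exact lt_irrefl _ hm
  exact h1.of_eq h2

section str
variable (str : ℕ ≃ List Bool)

/-- length of the string number `u` -/
def len (u : ℕ) : ℕ := (str u).length

/-- the number of the initial segment of length `n` -/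
def tk (n u : ℕ) : ℕ := str.symm ((str u).take n)

lemma len_tk {n u : ℕ} (h : n ≤ len str u) : len str (tk str n u) = n := by
  unfold len tk
  rw [Equiv.apply_symm_apply, List.length_take]
  unfold len at h
  omega

lemma tk_ini {n N : ℕ} (h : n ≤ N) (X : ℕ → Bool) :
    tk str n (str.symm (ini N X)) = str.symm (ini n X) := by
  unfold tk
  rw [Equiv.apply_symm_apply, ini_take h]

lemma len_ini (n : ℕ) (X : ℕ → Bool) : len str (str.symm (ini n X)) = n := by
  unfold len
  rw [Equiv.apply_symm_apply, ini_length]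

lemma card_len_le (n : ℕ) (U : Finset ℕ) (h : ∀ u ∈ U, len str u = n) : U.card ≤ 2 ^ n := by
  classical
  rw [← Finset.card_image_of_injective U str.injective]
  apply card_len
  intro p hp
  obtain ⟨u, hu, rfl⟩ := Finset.mem_image.1 hp
  exact h u hu

lemma card_ext_le {n N : ℕ} (hn : n ≤ N) (x : ℕ) (U : Finset ℕ)
    (h : ∀ u ∈ U, len str u = N ∧ tk str n u = x) : U.card ≤ 2 ^ (N - n) := by
  classical
  have hinj : Set.InjOn (fun u => (str u).drop n) (U : Set ℕ) := by
    intro a ha b hb hab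
    have h1 := (h a ha).2
    have h2 := (h b hb).2
    rw [← h2] at h1
    unfold tk at h1
    have h3 := str.symm.injective h1
    apply str.injective
    rw [← List.take_append_drop n (str a), ← List.take_append_drop n (str b), h3]
    congr 1
  rw [← Finset.card_image_of_injOn hinj]
  apply card_len
  intro p hp
  obtain ⟨u, hu, rfl⟩ := Finset.mem_image.1 hp
  rw [List.length_drop]
  have := (h u hu).1
  unfold len at this
  omega

variable (hs : Computable str)

include hs in
lemma c_len : Computable (len str) := Computable.list_length.comp hs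

include hs in
lemma c_tk {α : Type*} [Primcodable α] {n u : α → ℕ} (hn : Computable n) (hu : Computable u) :
    Computable fun a => tk str (n a) (u a) :=
  (computable_symm str hs).comp ((Primrec.list_take.to_comp).comp hn (hs.comp hu))

/-- the marginal: `∑_{|x| = n} 2^(-K(x)) ≤ c 2^(-K(n))` -/
lemma marginal {K : ℕ → ℕ} (hK : IsKP K) (hs : Computable str) : ∃ c : ℕ, ∀ (n : ℕ) (U : Finset ℕ),
    (∀ u ∈ U, len str u = n) → ∑ u ∈ U, ((1 : ℝ) / 2) ^ K u ≤ 2 ^ c * (1 / 2) ^ K n := by
  classical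
  obtain ⟨a, ha, ha1, -, ha2⟩ := exists_anti hK.1
  set B : ℕ → ℕ → ℕ := fun n t => ∑ u ∈ range t, a u t with hB
  set M : ℕ → ℕ → ℕ := fun n t => ∑ u ∈ range t, (if len str u = n then 2 ^ (B n t - a u t) else 0)
    with hM
  have cn : Computable (fun q : ℕ × ℕ => q.1) := Computable.fst
  have ct : Computable (fun q : ℕ × ℕ => q.2) := Computable.snd
  have ca : Computable₂ (fun (q : ℕ × ℕ) (u : ℕ) => a u q.2) :=
    ha.comp Computable.snd (ct.comp Computable.fst)
  have cB : Computable₂ B := c_sum ct ca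
  have cM : Computable₂ M := by
    refine c_sum (α := ℕ × ℕ) (n := fun q => q.2)
      (f := fun q u => if len str u = q.1 then 2 ^ (B q.1 q.2 - a u q.2) else 0) ct ?_
    refine c_ite' (c_eq ((c_len str hs).comp Computable.snd) (cn.comp Computable.fst)) ?_
      (Computable.const 0)
    exact c_pow (Computable.const 2)
      (c_sub (cB.comp (cn.comp Computable.fst) (ct.comp Computable.fst)) ca)
  have hMval : ∀ n t, (M n t : ℝ) = 2 ^ (B n t) * ∑ u ∈ (range t).filter (fun u => len str u = n),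
      ((1 : ℝ) / 2) ^ (a u t) := by
    intro n t
    simp only [hM]
    rw [← Finset.sum_filter]
    push_cast
    rw [Finset.mul_sum]
    apply Finset.sum_congr rfl
    intro u hu
    rw [mem_filter, mem_range] at hu
    have h2 : a u t ≤ B n t := by
      simp only [hB]
      exact Finset.single_le_sum (f := fun u => a u t) (fun _ _ => Nat.zero_le _)
        (mem_range.2 hu.1)
    have h3 : (2 : ℝ) ^ (B n t - a u t) * 2 ^ (a u t) = 2 ^ (B n t) := by
      rw [← pow_add]; congr 1; omega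
    have h4 : ((1 : ℝ) / 2) ^ (a u t) * 2 ^ (a u t) = 1 := by
      rw [← mul_pow]; norm_num
    calc (2 : ℝ) ^ (B n t - a u t) = 2 ^ (B n t - a u t) * (((1 : ℝ) / 2) ^ (a u t) * 2 ^ (a u t)) := by
          rw [h4, mul_one]
      _ = (2 ^ (B n t - a u t) * 2 ^ (a u t)) * (1 / 2) ^ (a u t) := by ring
      _ = _ := by rw [h3]
  have hsum : ∀ (U : Finset ℕ) (τ : ℕ → ℕ), ∑ n ∈ U, (M n (τ n) : ℝ) / 2 ^ (B n (τ n)) ≤ 1 := by
    intro U τ
    have h1 : ∀ n ∈ U, (M n (τ n) : ℝ) / 2 ^ (B n (τ n)) ≤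
        ∑ u ∈ (range (∑ m ∈ U, τ m)).filter (fun u => len str u = n), ((1 : ℝ) / 2) ^ (K u) := by
      intro n hn
      rw [hMval, mul_comm, mul_div_assoc, div_self (by positivity), mul_one]
      refine (Finset.sum_le_sum (fun u _ => half_pow_le (ha1 u (τ n)))).trans ?_
      apply Finset.sum_le_sum_of_subset_of_nonneg _ (fun _ _ _ => by positivity)
      intro u hu
      rw [mem_filter, mem_range] at hu ⊢
      refine ⟨?_, hu.2⟩
      have := Finset.single_le_sum (f := τ) (fun _ _ => Nat.zero_le _) hn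
      omega
    refine (Finset.sum_le_sum h1).trans ?_
    have h2 : ∑ n ∈ U, ∑ u ∈ (range (∑ m ∈ U, τ m)).filter (fun u => len str u = n),
        ((1 : ℝ) / 2) ^ (K u) = ∑ u ∈ ((range (∑ m ∈ U, τ m)).filter (fun u => len str u ∈ U)),
        ((1 : ℝ) / 2) ^ (K u) := by
      rw [← Finset.sum_fiberwise_of_maps_to (s := (range (∑ m ∈ U, τ m)).filter
        (fun u => len str u ∈ U)) (t := U) (g := len str) (fun u hu => (mem_filter.1 hu).2)]
      apply Finset.sum_congr rfl
      intro n hn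
      apply Finset.sum_congr _ (fun _ _ => rfl)
      ext u
      simp only [mem_filter, mem_range]
      constructor
      · rintro ⟨h3, h4⟩; exact ⟨⟨h3, h4 ▸ hn⟩, h4⟩
      · rintro ⟨⟨h3, -⟩, h4⟩; exact ⟨h3, h4⟩
    rw [h2]
    exact finite_of_kraft hK.2.1 _
  obtain ⟨c, hc⟩ := coding hK M B cM cB hsum
  refine ⟨c, fun n U hU => ?_⟩
  by_cases hne : U.Nonempty
  swap
  · rw [Finset.not_nonempty_iff_eq_empty] at hne
    rw [hne, Finset.sum_empty]
    positivity
  -- a late stage
  have hstage : ∃ t, (∀ u ∈ U, u < t) ∧ ∀ u ∈ U, a u t = K u := by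
    choose s hs using ha2
    refine ⟨∑ u ∈ U, (s u + u + 1), ?_, ?_⟩
    · intro u hu
      have := Finset.single_le_sum (f := fun u => s u + u + 1) (fun _ _ => Nat.zero_le _) hu
      omega
    · intro u hu
      apply hs u
      have := Finset.single_le_sum (f := fun u => s u + u + 1) (fun _ _ => Nat.zero_le _) hu
      omega
  obtain ⟨t, ht1, ht2⟩ := hstage
  have h1 : 2 ^ (B n t) * ∑ u ∈ U, ((1 : ℝ) / 2) ^ K u ≤ M n t := by
    rw [hMval]
    apply mul_le_mul_of_nonneg_left _ (by positivity)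
    have h2 : ∑ u ∈ U, ((1 : ℝ) / 2) ^ K u = ∑ u ∈ U, ((1 : ℝ) / 2) ^ (a u t) :=
      Finset.sum_congr rfl (fun u hu => by rw [ht2 u hu])
    rw [h2]
    apply Finset.sum_le_sum_of_subset_of_nonneg _ (fun _ _ _ => by positivity)
    intro u hu
    rw [mem_filter, mem_range]
    exact ⟨ht1 u hu, hU u hu⟩
  have hpos : 0 < ∑ u ∈ U, ((1 : ℝ) / 2) ^ K u := Finset.sum_pos (fun _ _ => by positivity) hne
  have hMpos' : (0 : ℝ) < M n t := lt_of_lt_of_le (by positivity) h1
  have hMpos : 0 < M n t := by exact_mod_cast hMpos'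
  have h2 := hc n t hMpos
  have h3 : Real.logb 2 (2 ^ (B n t) * ∑ u ∈ U, ((1 : ℝ) / 2) ^ K u) ≤ Real.logb 2 (M n t) :=
    Real.logb_le_logb_of_le (by norm_num) (by positivity) h1
  rw [Real.logb_mul (by positivity) hpos.ne', Real.logb_pow, Real.logb_self_eq_one (by norm_num),
    mul_one] at h3
  have h4 : Real.logb 2 (∑ u ∈ U, ((1 : ℝ) / 2) ^ K u) ≤ (c : ℝ) - K n := by linarith
  rw [Real.logb_le_iff_le_rpow (by norm_num) hpos] at h4
  refine h4.trans (le_of_eq ?_)
  rw [Real.rpow_sub (by norm_num), Real.rpow_natCast, Real.rpow_natCast, one_div, inv_pow,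
    div_eq_mul_inv]

/-- counting strings of small complexity -/
lemma count_small {K : ℕ → ℕ} (hK : IsKP K) (hs : Computable str) : ∃ c : ℕ, ∀ (n d : ℕ)
    (U : Finset ℕ), (∀ u ∈ U, len str u = n ∧ K u + d ≤ n + K n) → U.card * 2 ^ d ≤ 2 ^ (n + c) := by
  obtain ⟨c, hc⟩ := marginal str hK hs
  refine ⟨c, fun n d U hU => ?_⟩
  have h1 := hc n U (fun u hu => (hU u hu).1)
  have h2 : (U.card : ℝ) * ((2 : ℝ) ^ d * ((1 / 2) ^ n * (1 / 2) ^ K n)) ≤
      ∑ u ∈ U, ((1 : ℝ) / 2) ^ K u := by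
    rw [← nsmul_eq_mul, ← Finset.sum_const]
    apply Finset.sum_le_sum
    intro u hu
    have h3 : ((1 : ℝ) / 2) ^ n * (1 / 2) ^ K n ≤ (1 / 2) ^ K u * (1 / 2) ^ d := by
      rw [← pow_add, ← pow_add]
      exact half_pow_le (hU u hu).2
    calc (2 : ℝ) ^ d * ((1 / 2) ^ n * (1 / 2) ^ K n) ≤ 2 ^ d * ((1 / 2) ^ K u * (1 / 2) ^ d) :=
          mul_le_mul_of_nonneg_left h3 (by positivity)
      _ = (1 / 2) ^ K u * (2 * (1 / 2)) ^ d := by rw [mul_pow]; ring
      _ = (1 / 2) ^ K u := by norm_num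
  have h3 := h2.trans h1
  have h4 : (U.card : ℝ) * 2 ^ d * (1 / 2) ^ n ≤ 2 ^ c := by
    have hpos : (0 : ℝ) < (1 / 2) ^ K n := by positivity
    apply le_of_mul_le_mul_right _ hpos
    calc (U.card : ℝ) * 2 ^ d * (1 / 2) ^ n * (1 / 2) ^ K n =
        (U.card : ℝ) * ((2 : ℝ) ^ d * ((1 / 2) ^ n * (1 / 2) ^ K n)) := by ring
      _ ≤ _ := h3
  have h5 : (U.card : ℝ) * 2 ^ d ≤ 2 ^ (n + c) := by
    have h6 : ((1 : ℝ) / 2) ^ n * 2 ^ n = 1 := by rw [← mul_pow]; norm_num
    calc (U.card : ℝ) * 2 ^ d = (U.card : ℝ) * 2 ^ d * (1 / 2) ^ n * 2 ^ n := by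
          rw [mul_assoc _ _ ((2 : ℝ) ^ n), h6, mul_one]
      _ ≤ 2 ^ c * 2 ^ n := mul_le_mul_of_nonneg_right h4 (by positivity)
      _ = _ := by rw [pow_add]; ring
  exact_mod_cast h5

end str

end Pool.Agent.R557.CK
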