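import Pool.Agent.R557.CSDef

set_option autoImplicit false

/-! Lists of coefficients as ordinals below `ω ^ ω`. -/

namespace Pool.Agent.R557.CS

open Ordinal

lemma ordv_nil : ordv [] = 0 := rfl
lemma ordv_cons (a : ℕ) (l : List ℕ) : ordv (a :: l) = ω * ordv l + a := rfl

lemma nat_lt (a : ℕ) : (a : Ordinal.{0}) < ω := natCast_lt_omega0 a

/-- comparison of `ω * x + a` -/
lemma cmp_lt {x y : Ordinal.{0}} {a b : ℕ} : ω * x + a < ω * y + b ↔ x < y ∨ (x = y ∧ a < b) := by
  constructor
  · intro h
    rcases lt_trichotomy x y with h1 | h1 | h1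
    · exact Or.inl h1
    · subst h1
      right
      refine ⟨rfl, ?_⟩
      have := (add_lt_add_iff_left (ω * x)).1 h
      exact_mod_cast this
    · exfalso
      have h2 : ω * y + b < ω * x + a := by
        calc ω * y + b < ω * y + ω := (add_lt_add_iff_left _).2 (nat_lt b)
          _ = ω * Order.succ y := by rw [mul_succ]
          _ ≤ ω * x := mul_le_mul_right (Order.succ_le_of_lt h1) ω
          _ ≤ ω * x + a := le_self_add
      exact absurd (h.trans h2) (lt_irrefl _)
  · rintro (h | ⟨rfl, h⟩)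
    · calc ω * x + a < ω * x + ω := (add_lt_add_iff_left _).2 (nat_lt a)
        _ = ω * Order.succ x := by rw [mul_succ]
        _ ≤ ω * y := mul_le_mul_right (Order.succ_le_of_lt h) ω
        _ ≤ ω * y + b := le_self_add
    · exact (add_lt_add_iff_left _).2 (by exact_mod_cast h)

lemma ordv_unfold (l : List ℕ) : ordv l = ω * ordv l.tail + (l.getD 0 0 : ℕ) := by
  cases l with
  | nil => simp [ordv_nil]
  | cons a l => rw [ordv_cons]; simp

lemma getD_tail (l : List ℕ) (j : ℕ) : l.tail.getD j 0 = l.getD (j + 1) 0 := by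
  cases l with
  | nil => simp
  | cons a l => simp

lemma ordv_zero : ∀ {l : List ℕ}, (∀ j, l.getD j 0 = 0) → ordv l = 0
  | [], _ => rfl
  | a :: l, h => by
    have h1 := ordv_zero (l := l) fun j => by simpa using h (j + 1)
    have h2 : a = 0 := by simpa using h 0
    rw [ordv_cons, h1, h2]; simp

lemma ordv_congr : ∀ {l l' : List ℕ}, (∀ j, l.getD j 0 = l'.getD j 0) → ordv l = ordv l'
  | [], l', h => by rw [ordv_zero (l := l') fun j => by rw [← h j]; simp]; rfl
  | a :: l, l', h => by
    have h1 := ordv_congr (l := l) (l' := l'.tail) fun j => by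
      rw [getD_tail, ← h (j + 1)]; simp
    have h2 := h 0
    rw [ordv_unfold l', ordv_cons, h1, ← h2]; simp

lemma ordv_lt_of : ∀ (i : ℕ) {l l' : List ℕ}, l.getD i 0 < l'.getD i 0 →
    (∀ j, i < j → l.getD j 0 = l'.getD j 0) → ordv l < ordv l'
  | 0, l, l', h1, h2 => by
    rw [ordv_unfold l, ordv_unfold l', cmp_lt]
    right
    refine ⟨ordv_congr fun j => ?_, h1⟩
    rw [getD_tail, getD_tail]
    exact h2 _ (by omega)
  | i + 1, l, l', h1, h2 => by
    rw [ordv_unfold l, ordv_unfold l', cmp_lt]
    left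
    apply ordv_lt_of i
    · rw [getD_tail, getD_tail]; exact h1
    · intro j hj
      rw [getD_tail, getD_tail]
      exact h2 _ (by omega)

lemma trich (l l' : List ℕ) : (∀ j, l.getD j 0 = l'.getD j 0) ∨
    ∃ i, l.getD i 0 ≠ l'.getD i 0 ∧ ∀ j, i < j → l.getD j 0 = l'.getD j 0 := by
  classical
  have hfin : ∃ m, ∀ i ≥ m, l.getD i 0 = l'.getD i 0 := ⟨l.length + l'.length, fun i hi => by
    rw [List.getD_eq_default _ _ (by omega), List.getD_eq_default _ _ (by omega)]⟩
  rcases Nat.eq_zero_or_pos (Nat.find hfin) with h | h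
  · left
    intro j
    exact Nat.find_spec hfin j (by omega)
  · right
    have h1 := Nat.find_min hfin (m := Nat.find hfin - 1) (by omega)
    push Not at h1
    obtain ⟨i, h2, h3⟩ := h1
    refine ⟨i, h3, fun j hj => Nat.find_spec hfin j (by omega)⟩

/-- comparison of lists from the top, with missing coefficients zero -/
lemma ordv_lt_iff (l l' : List ℕ) : ordv l < ordv l' ↔
    ∃ i, l.getD i 0 < l'.getD i 0 ∧ ∀ j, i < j → l.getD j 0 = l'.getD j 0 := by
  constructor
  · intro h
    rcases trich l l' with h1 | ⟨i, h1, h2⟩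
    · rw [ordv_congr h1] at h
      exact absurd h (lt_irrefl _)
    · rcases lt_or_gt_of_ne h1 with h3 | h3
      · exact ⟨i, h3, h2⟩
      · exact absurd (h.trans (ordv_lt_of i h3 fun j hj => (h2 j hj).symm)) (lt_irrefl _)
  · rintro ⟨i, h1, h2⟩
    exact ordv_lt_of i h1 h2

lemma ordv_eq_iff (l l' : List ℕ) : ordv l = ordv l' ↔ ∀ j, l.getD j 0 = l'.getD j 0 := by
  refine ⟨fun h => ?_, ordv_congr⟩
  rcases trich l l' with h1 | ⟨i, h1, h2⟩
  · exact h1
  · exfalso
    rcases lt_or_gt_of_ne h1 with h3 | h3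
    · exact absurd h (ordv_lt_of i h3 h2).ne
    · exact absurd h (ordv_lt_of i h3 fun j hj => (h2 j hj).symm).ne'

/-- the bounded form of the comparison -/
lemma ordv_lt_iff' (l l' : List ℕ) : ordv l < ordv l' ↔
    ∃ i < l'.length, l.getD i 0 < l'.getD i 0 ∧ ∀ j < l.length + l'.length, i < j →
      l.getD j 0 = l'.getD j 0 := by
  rw [ordv_lt_iff]
  constructor
  · rintro ⟨i, h1, h2⟩
    refine ⟨i, ?_, h1, fun j _ hj => h2 j hj⟩
    by_contra hlt
    rw [List.getD_eq_default l' _ (by omega)] at h1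
    omega
  · rintro ⟨i, _, h1, h2⟩
    refine ⟨i, h1, fun j hj => ?_⟩
    by_cases h3 : j < l.length + l'.length
    · exact h2 j h3 hj
    · rw [List.getD_eq_default _ _ (by omega), List.getD_eq_default _ _ (by omega)]

lemma ordv_lt_pow (l : List ℕ) : ordv l < ω ^ l.length := by
  induction l with
  | nil => simp [ordv_nil]
  | cons a l ih =>
    rw [ordv_cons, List.length_cons]
    have e : (ω : Ordinal.{0}) ^ (l.length + 1) = ω * ω ^ l.length := by
      rw [← pow_succ']
    calc ω * ordv l + a < ω * ordv l + ω := (add_lt_add_iff_left _).2 (nat_lt a)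
      _ = ω * Order.succ (ordv l) := by rw [mul_succ]
      _ ≤ ω * ω ^ l.length := mul_le_mul_right (Order.succ_le_of_lt ih) ω
      _ = _ := e.symm

lemma exists_ordv : ∀ (n : ℕ) {o : Ordinal.{0}}, o < ω ^ n → ∃ l : List ℕ, ordv l = o
  | 0, o, h => ⟨[], by
    have h1 : o = 0 := by simpa using h
    rw [h1]; rfl⟩
  | n + 1, o, h => by
    have h1 : o / ω < ω ^ n := by
      rw [← lt_mul_iff_div_lt omega0_ne_zero, ← pow_succ']
      exact h
    obtain ⟨l, hl⟩ := exists_ordv n h1
    have h2 : o % ω < ω := mod_lt o omega0_ne_zero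
    obtain ⟨a, ha⟩ := lt_omega0.1 h2
    refine ⟨a :: l, ?_⟩
    rw [ordv_cons, hl, ← ha]
    exact div_add_mod o ω

/-- every list has the value of a list without leading zero -/
lemma exists_canon (l : List ℕ) : ∃ l' : List ℕ, l'.getLast? ≠ some 0 ∧
    ∀ j, l'.getD j 0 = l.getD j 0 := by
  induction l with
  | nil => exact ⟨[], by simp, fun _ => rfl⟩
  | cons a l ih =>
    obtain ⟨l', h1, h2⟩ := ih
    by_cases h : l' = [] ∧ a = 0
    · refine ⟨[], by simp, fun j => ?_⟩
      obtain ⟨h3, h4⟩ := h
      subst h3 h4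
      cases j with
      | zero => simp
      | succ j => have := h2 j; simp at this ⊢; exact this
    · refine ⟨a :: l', ?_, fun j => ?_⟩
      · cases l' with
        | nil => simp at h ⊢; exact h
        | cons b l'' => rw [List.getLast?_cons_cons]; exact h1
      · cases j with
        | zero => simp
        | succ j => have := h2 j; simpa using this

lemma canon_unique : ∀ {l l' : List ℕ}, l.getLast? ≠ some 0 → l'.getLast? ≠ some 0 →
    (∀ j, l.getD j 0 = l'.getD j 0) → l = l' := by
  have key : ∀ {l l' : List ℕ}, l.getLast? ≠ some 0 → (∀ j, l.getD j 0 = l'.getD j 0) →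
      l.length ≤ l'.length := by
    intro l l' h1 h2
    by_contra hlt
    push Not at hlt
    have hne : l ≠ [] := by rintro rfl; simp at hlt
    have h3 := h2 (l.length - 1)
    rw [List.getD_eq_default l' _ (by omega), List.getD_eq_getElem _ _ (by omega)] at h3
    apply h1
    rw [List.getLast?_eq_getElem?, List.getElem?_eq_getElem (by omega), h3]
  intro l l' h1 h2 h3
  have h4 := key h1 h3
  have h5 := key h2 fun j => (h3 j).symm
  apply List.ext_getElem (by omega)
  intro i hi hi'
  have := h3 i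
  rwa [List.getD_eq_getElem _ _ hi, List.getD_eq_getElem _ _ hi'] at this

end Pool.Agent.R557.CS
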