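import Pool.Agent.R557.CSPrim
import Pool.Agent.R557.CSOrd

set_option autoImplicit false

/-! A decreasing measure for sequences of vectors none of which is above an earlier one. -/

namespace Pool.Agent.R557.CS

/-- the box `b` (entry `0`: the coordinate is free; entry `j + 1`: the coordinate is `j`) contains
the point `a` -/
def inB (m : ℕ) (b a : List ℕ) : Bool :=
  qall m fun i => decide (b.getD i 0 = 0) || decide (b.getD i 0 = a.getD i 0 + 1)

lemma inB_iff {m : ℕ} {b a : List ℕ} : inB m b a = true ↔
    ∀ i < m, b.getD i 0 = 0 ∨ b.getD i 0 = a.getD i 0 + 1 := by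
  unfold inB
  rw [qall_iff]
  simp only [Bool.or_eq_true, decide_eq_true_eq]

/-- change one entry -/
def upd (m : ℕ) (b : List ℕ) (i v : ℕ) : List ℕ :=
  (List.range m).map fun i' => bif decide (i' = i) then v else b.getD i' 0

lemma upd_getD {m : ℕ} {b : List ℕ} {i v j : ℕ} (hj : j < m) :
    (upd m b i v).getD j 0 = if j = i then v else b.getD j 0 := by
  unfold upd
  rw [List.getD_eq_getElem _ _ (by simpa using hj)]
  simp only [List.getElem_map, List.getElem_range]
  by_cases h : j = i <;> simp [h]

/-- the boxes covering the points of the box `b` that are not above `a` -/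
def refB (m : ℕ) (b a : List ℕ) : List (List ℕ) :=
  (List.range m).flatMap fun i =>
    bif decide (b.getD i 0 = 0) then (List.range (a.getD i 0)).map fun j => upd m b i (j + 1) else []

lemma mem_refB {m : ℕ} {b a c : List ℕ} : c ∈ refB m b a ↔
    ∃ i < m, b.getD i 0 = 0 ∧ ∃ j < a.getD i 0, c = upd m b i (j + 1) := by
  unfold refB
  rw [List.mem_flatMap]
  constructor
  · rintro ⟨i, hi, h⟩
    rw [List.mem_range] at hi
    by_cases h0 : b.getD i 0 = 0
    · simp only [h0, decide_true, cond_true, List.mem_map, List.mem_range] at h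
      obtain ⟨j, hj, rfl⟩ := h
      exact ⟨i, hi, h0, j, hj, rfl⟩
    · simp only [h0, decide_false, cond_false, List.not_mem_nil] at h
  · rintro ⟨i, hi, h0, j, hj, rfl⟩
    refine ⟨i, List.mem_range.2 hi, ?_⟩
    simp only [h0, decide_true, cond_true, List.mem_map, List.mem_range]
    exact ⟨j, hj, rfl⟩

/-- the list of boxes after one step -/
def stepB (m : ℕ) (a : List ℕ) (bs : List (List ℕ)) : List (List ℕ) :=
  bs.flatMap fun b => bif inB m b a then refB m b a else [b]

/-- boxes covering the points not above a member of the list -/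
def boxes (m : ℕ) (L : List (List ℕ)) : List (List ℕ) :=
  L.foldr (fun a bs => stepB m a bs) [[]]

/-- number of free coordinates -/
def fre (m : ℕ) (b : List ℕ) : ℕ := qcnt m fun i => decide (b.getD i 0 = 0)

/-- number of boxes with `d` free coordinates -/
def cnt (m : ℕ) (bs : List (List ℕ)) (d : ℕ) : ℕ :=
  bs.foldr (fun b r => r + bif decide (fre m b = d) then 1 else 0) 0

/-- the measure -/
def meas (m : ℕ) (L : List (List ℕ)) : List ℕ :=
  (List.range (m + 1)).map fun d => cnt m (boxes m L) d

/-- the point `z` is above `a` -/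
def abv (m : ℕ) (a z : List ℕ) : Prop := ∀ i < m, a.getD i 0 ≤ z.getD i 0

lemma covered {m : ℕ} : ∀ {L : List (List ℕ)} {z : List ℕ}, (∀ a ∈ L, ¬ abv m a z) →
    ∃ b ∈ boxes m L, inB m b z = true
  | [], z, _ => ⟨[], by simp [boxes], by rw [inB_iff]; intro i _; left; simp⟩
  | a :: L, z, h => by
    obtain ⟨b, hb, hbz⟩ := covered (L := L) (z := z) fun a' ha' => h a' (List.mem_cons_of_mem _ ha')
    have e : boxes m (a :: L) = stepB m a (boxes m L) := rfl
    rw [e]
    unfold stepB
    simp only [List.mem_flatMap]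
    by_cases hba : inB m b a = true
    · have h1 := h a List.mem_cons_self
      unfold abv at h1
      push Not at h1
      obtain ⟨i, hi, hlt⟩ := h1
      rw [inB_iff] at hbz hba
      have h0 : b.getD i 0 = 0 := by
        rcases hbz i hi with h2 | h2
        · exact h2
        · rcases hba i hi with h3 | h3 <;> omega
      refine ⟨upd m b i (z.getD i 0 + 1), ⟨b, hb, ?_⟩, ?_⟩
      · rw [inB_iff.2 hba, cond_true, mem_refB]
        exact ⟨i, hi, h0, _, hlt, rfl⟩
      · rw [inB_iff]
        intro j hj
        rw [upd_getD hj]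
        by_cases hji : j = i
        · subst hji; simp
        · rw [if_neg hji]; exact hbz j hj
    · refine ⟨b, ⟨b, hb, ?_⟩, hbz⟩
      rw [Bool.not_eq_true] at hba
      rw [hba]
      simp

lemma fre_upd {m : ℕ} {b : List ℕ} {i v : ℕ} (hi : i < m) (h0 : b.getD i 0 = 0) :
    fre m (upd m b i (v + 1)) < fre m b := by
  unfold fre
  rw [qcnt_eq, qcnt_eq]
  apply Finset.card_lt_card
  rw [Finset.ssubset_iff_of_subset]
  · refine ⟨i, ?_, ?_⟩
    · rw [Finset.mem_filter, Finset.mem_range]
      exact ⟨hi, by simpa using h0⟩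
    · rw [Finset.mem_filter, Finset.mem_range]
      rintro ⟨_, h2⟩
      rw [upd_getD hi, if_pos rfl] at h2
      simp at h2
  · intro j hj
    rw [Finset.mem_filter, Finset.mem_range] at hj ⊢
    obtain ⟨h1, h2⟩ := hj
    rw [upd_getD h1] at h2
    refine ⟨h1, ?_⟩
    by_cases hji : j = i
    · rw [hji]; simpa using h0
    · rwa [if_neg hji] at h2

lemma cnt_nil (m d : ℕ) : cnt m [] d = 0 := rfl
lemma cnt_cons (m d : ℕ) (b : List ℕ) (bs : List (List ℕ)) :
    cnt m (b :: bs) d = cnt m bs d + if fre m b = d then 1 else 0 := by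
  have : cnt m (b :: bs) d = cnt m bs d + bif decide (fre m b = d) then 1 else 0 := rfl
  rw [this]
  by_cases h : fre m b = d <;> simp [h]

lemma cnt_append (m d : ℕ) (bs bs' : List (List ℕ)) :
    cnt m (bs ++ bs') d = cnt m bs d + cnt m bs' d := by
  induction bs with
  | nil => rw [List.nil_append, cnt_nil, zero_add]
  | cons b bs ih => rw [List.cons_append, cnt_cons, cnt_cons, ih]; ring

lemma cnt_eq_zero {m d : ℕ} {bs : List (List ℕ)} (h : ∀ b ∈ bs, fre m b ≠ d) : cnt m bs d = 0 := by
  induction bs with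
  | nil => rfl
  | cons b bs ih =>
    rw [cnt_cons, ih fun b' hb' => h b' (List.mem_cons_of_mem _ hb'), if_neg (h b List.mem_cons_self)]

lemma stepB_nil (m : ℕ) (a : List ℕ) : stepB m a [] = [] := rfl
lemma stepB_cons (m : ℕ) (a b : List ℕ) (bs : List (List ℕ)) :
    stepB m a (b :: bs) = (if inB m b a = true then refB m b a else [b]) ++ stepB m a bs := by
  unfold stepB
  rw [List.flatMap_cons]
  cases h : inB m b a <;> simp

lemma fre_ref {m : ℕ} {b a c : List ℕ} (h : c ∈ refB m b a) : fre m c < fre m b := by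
  rw [mem_refB] at h
  obtain ⟨i, hi, h0, j, _, rfl⟩ := h
  exact fre_upd hi h0

lemma step_high {m d : ℕ} {a : List ℕ} {bs : List (List ℕ)}
    (h : ∀ b ∈ bs, inB m b a = true → fre m b < d) : cnt m (stepB m a bs) d = cnt m bs d := by
  induction bs with
  | nil => rfl
  | cons b bs ih =>
    rw [stepB_cons, cnt_append, cnt_cons, ih fun b' hb' => h b' (List.mem_cons_of_mem _ hb')]
    by_cases hb : inB m b a = true
    · have h1 := h b List.mem_cons_self hb
      rw [if_pos hb, cnt_eq_zero, if_neg (by omega)]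
      · omega
      · intro c hc
        have := fre_ref hc
        omega
    · rw [if_neg hb, cnt_cons, cnt_nil]; omega

lemma step_low {m d : ℕ} {a : List ℕ} {bs : List (List ℕ)}
    (h : ∀ b ∈ bs, inB m b a = true → fre m b ≤ d) : cnt m (stepB m a bs) d ≤ cnt m bs d := by
  induction bs with
  | nil => exact le_rfl
  | cons b bs ih =>
    have ih' := ih fun b' hb' => h b' (List.mem_cons_of_mem _ hb')
    rw [stepB_cons, cnt_append, cnt_cons]
    by_cases hb : inB m b a = true
    · have h1 := h b List.mem_cons_self hb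
      rw [if_pos hb, cnt_eq_zero]
      · omega
      · intro c hc
        have := fre_ref hc
        omega
    · rw [if_neg hb, cnt_cons, cnt_nil]; omega

lemma step_top {m d : ℕ} {a : List ℕ} {bs : List (List ℕ)}
    (h : ∀ b ∈ bs, inB m b a = true → fre m b ≤ d) {b₀ : List ℕ} (hb₀ : b₀ ∈ bs)
    (hin : inB m b₀ a = true) (hfre : fre m b₀ = d) : cnt m (stepB m a bs) d < cnt m bs d := by
  induction bs with
  | nil => simp at hb₀
  | cons b bs ih =>
    have hrest := step_low (m := m) (d := d) (a := a) (bs := bs)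
      fun b' hb' => h b' (List.mem_cons_of_mem _ hb')
    rw [stepB_cons, cnt_append, cnt_cons]
    by_cases hb : inB m b a = true
    · have h1 := h b List.mem_cons_self hb
      have h0 : cnt m (refB m b a) d = 0 := by
        apply cnt_eq_zero
        intro c hc
        have := fre_ref hc
        omega
      rw [if_pos hb, h0]
      rcases List.mem_cons.1 hb₀ with rfl | h2
      · rw [if_pos hfre]; omega
      · have := ih (fun b' hb' => h b' (List.mem_cons_of_mem _ hb')) h2
        omega
    · rw [if_neg hb, cnt_cons, cnt_nil]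
      rcases List.mem_cons.1 hb₀ with rfl | h2
      · exact absurd hin hb
      · have := ih (fun b' hb' => h b' (List.mem_cons_of_mem _ hb')) h2
        omega

lemma fre_le (m : ℕ) (b : List ℕ) : fre m b ≤ m := by
  unfold fre
  rw [qcnt_eq]
  exact (Finset.card_filter_le _ _).trans (by simp)

lemma meas_getD {m : ℕ} {L : List (List ℕ)} {d : ℕ} :
    (meas m L).getD d 0 = if d < m + 1 then cnt m (boxes m L) d else 0 := by
  unfold meas
  split_ifs with h
  · rw [List.getD_eq_getElem _ _ (by simpa using h)]
    simp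
  · rw [List.getD_eq_default _ _ (by simpa using h)]

/-- the measure decreases when a vector not above the members of the list is added -/
lemma meas_lt {m : ℕ} {L : List (List ℕ)} {a : List ℕ} (h : ∀ a' ∈ L, ¬ abv m a' a) (x y : ℕ) :
    ordv (x :: meas m (a :: L)) < ordv (y :: meas m L) := by
  obtain ⟨b, hb, hba⟩ := covered h
  -- the largest dimension of a box containing the point
  have hex : ∃ d, ∃ b ∈ boxes m L, inB m b a = true ∧ fre m b = d := ⟨_, b, hb, hba, rfl⟩
  obtain ⟨d, ⟨b₀, h1, h2, h3⟩, hmax⟩ : ∃ d, (∃ b ∈ boxes m L, inB m b a = true ∧ fre m b = d) ∧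
      ∀ b ∈ boxes m L, inB m b a = true → fre m b ≤ d := by
    classical
    have hP : ∃ n, ∃ b ∈ boxes m L, inB m b a = true ∧ fre m b = m - n :=
      ⟨m - fre m b, b, hb, hba, by have := fre_le m b; omega⟩
    obtain ⟨b₁, h4, h5, h6⟩ := Nat.find_spec hP
    refine ⟨m - Nat.find hP, ⟨b₁, h4, h5, h6⟩, fun b' hb' hin' => ?_⟩
    by_contra hlt
    push Not at hlt
    have h7 := fre_le m b'
    exact Nat.find_min hP (m := m - fre m b') (by omega) ⟨b', hb', hin', by omega⟩
  have e : boxes m (a :: L) = stepB m a (boxes m L) := rfl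
  have hdm : d ≤ m := h3 ▸ fre_le m b₀
  apply ordv_lt_of (d + 1)
  · simp only [List.getD_cons_succ]
    rw [meas_getD, meas_getD, if_pos (by omega), if_pos (by omega), e]
    exact step_top hmax h1 h2 h3
  · intro j hj
    obtain ⟨j, rfl⟩ : ∃ j', j = j' + 1 := ⟨j - 1, by omega⟩
    simp only [List.getD_cons_succ]
    rw [meas_getD, meas_getD]
    split_ifs with h4
    · rw [e]
      exact step_high fun b hb hin => lt_of_le_of_lt (hmax b hb hin) (by omega)
    · rfl

/-! primitive recursiveness -/

section
variable {α : Type*} [Primcodable α]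

lemma p_inB {m : α → ℕ} {b a : α → List ℕ} (hm : Primrec m) (hb : Primrec b) (ha : Primrec a) :
    Primrec fun x => inB (m x) (b x) (a x) := by
  unfold inB
  have hbi : Primrec fun p : α × ℕ => (b p.1).getD p.2 0 :=
    p_getD (hb.comp Primrec.fst) Primrec.snd
  have hai : Primrec fun p : α × ℕ => (a p.1).getD p.2 0 :=
    p_getD (ha.comp Primrec.fst) Primrec.snd
  refine p_qall (f := fun x i => decide ((b x).getD i 0 = 0) ||
    decide ((b x).getD i 0 = (a x).getD i 0 + 1)) hm ?_
  exact p_or (p_eq hbi (Primrec.const 0)) (p_eq hbi (p_add hai (Primrec.const 1)))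

lemma p_upd {m i v : α → ℕ} {b : α → List ℕ} (hm : Primrec m) (hb : Primrec b) (hi : Primrec i)
    (hv : Primrec v) : Primrec fun x => upd (m x) (b x) (i x) (v x) := by
  unfold upd
  refine Primrec.list_map (Primrec.list_range.comp hm) ?_
  exact Primrec.cond (p_eq Primrec.snd (hi.comp Primrec.fst)) (hv.comp Primrec.fst)
    (p_getD (hb.comp Primrec.fst) Primrec.snd)

lemma p_refB {m : α → ℕ} {b a : α → List ℕ} (hm : Primrec m) (hb : Primrec b) (ha : Primrec a) :
    Primrec fun x => refB (m x) (b x) (a x) := by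
  unfold refB
  refine Primrec.list_flatMap (Primrec.list_range.comp hm) ?_
  refine Primrec.cond (p_eq (p_getD (hb.comp Primrec.fst) Primrec.snd) (Primrec.const 0)) ?_
    (Primrec.const [])
  refine Primrec.list_map (Primrec.list_range.comp (p_getD (ha.comp Primrec.fst) Primrec.snd)) ?_
  exact p_upd (α := (α × ℕ) × ℕ) (hm.comp (Primrec.fst.comp Primrec.fst))
    (hb.comp (Primrec.fst.comp Primrec.fst)) (Primrec.snd.comp Primrec.fst)
    (p_add Primrec.snd (Primrec.const 1))

lemma p_boxes {m : α → ℕ} {L : α → List (List ℕ)} (hm : Primrec m) (hL : Primrec L) :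
    Primrec fun x => boxes (m x) (L x) := by
  unfold boxes
  refine Primrec.list_foldr (f := L) (g := fun _ => [[]])
    (h := fun x p => stepB (m x) p.1 p.2) hL (Primrec.const _) ?_
  unfold stepB
  refine Primrec.list_flatMap (Primrec.snd.comp Primrec.snd) ?_
  have h1 : Primrec fun p : (α × List ℕ × List (List ℕ)) × List ℕ => m p.1.1 :=
    hm.comp (Primrec.fst.comp Primrec.fst)
  have h2 : Primrec fun p : (α × List ℕ × List (List ℕ)) × List ℕ => p.1.2.1 :=
    Primrec.fst.comp (Primrec.snd.comp Primrec.fst)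
  exact Primrec.cond (p_inB h1 Primrec.snd h2) (p_refB h1 Primrec.snd h2)
    (Primrec.list_cons.comp Primrec.snd (Primrec.const []))

lemma p_meas {m : α → ℕ} {L : α → List (List ℕ)} (hm : Primrec m) (hL : Primrec L) :
    Primrec fun x => meas (m x) (L x) := by
  unfold meas
  refine Primrec.list_map (Primrec.list_range.comp (p_add hm (Primrec.const 1))) ?_
  unfold cnt
  refine Primrec.list_foldr (f := fun p : α × ℕ => boxes (m p.1) (L p.1)) (g := fun _ => 0)
    (h := fun p q => q.2 + bif decide (fre (m p.1) q.1 = p.2) then 1 else 0)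
    (p_boxes (hm.comp Primrec.fst) (hL.comp Primrec.fst)) (Primrec.const 0) ?_
  have h0 : Primrec fun p : (α × ℕ) × List ℕ × ℕ => m p.1.1 :=
    hm.comp (Primrec.fst.comp Primrec.fst)
  have hf : Primrec fun p : (α × ℕ) × List ℕ × ℕ => fre (m p.1.1) p.2.1 := by
    unfold fre
    refine p_qcnt (f := fun (p : (α × ℕ) × List ℕ × ℕ) i => decide (p.2.1.getD i 0 = 0)) h0 ?_
    exact p_eq (p_getD (Primrec.fst.comp (Primrec.snd.comp Primrec.fst)) Primrec.snd)
      (Primrec.const 0)
  exact p_add (Primrec.snd.comp Primrec.snd) (Primrec.cond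
    (p_eq hf (Primrec.snd.comp Primrec.fst)) (Primrec.const 1) (Primrec.const 0))

end

end Pool.Agent.R557.CS
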