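import Pool.Agent.R557.CSFin

set_option autoImplicit false

/-! The codings of Cantor normal forms below `ω ^ ω`: existence, computability and order type. -/

namespace Pool.Agent.R557.CS

/-- a coding -/
def cod (n : ℕ) : List ℕ :=
  Nat.casesOn n [] fun n => (Denumerable.ofNat (List ℕ × ℕ) n).1 ++ [(Denumerable.ofNat (List ℕ × ℕ) n).2 + 1]

lemma cod_zero : cod 0 = [] := rfl
lemma cod_succ (n : ℕ) : cod (n + 1) =
    (Denumerable.ofNat (List ℕ × ℕ) n).1 ++ [(Denumerable.ofNat (List ℕ × ℕ) n).2 + 1] := rfl

theorem isCNF_cod : IsCNF cod := by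
  refine ⟨?_, ?_, ?_⟩
  · have h : Primrec cod := by
      unfold cod
      refine Primrec.nat_casesOn (f := fun n : ℕ => n) (g := fun _ => ([] : List ℕ))
        (h := fun _ n => (Denumerable.ofNat (List ℕ × ℕ) n).1 ++
          [(Denumerable.ofNat (List ℕ × ℕ) n).2 + 1]) Primrec.id (Primrec.const _) ?_
      have h1 : Primrec fun p : ℕ × ℕ => Denumerable.ofNat (List ℕ × ℕ) p.2 :=
        (Primrec.ofNat (List ℕ × ℕ)).comp Primrec.snd
      exact Primrec.list_append.comp (Primrec.fst.comp h1)
        (Primrec.list_cons.comp (p_add (Primrec.snd.comp h1) (Primrec.const 1)) (Primrec.const []))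
    exact h.to_comp
  · intro a b hab
    cases a with
    | zero =>
      cases b with
      | zero => rfl
      | succ b => rw [cod_zero, cod_succ] at hab; simp at hab
    | succ a =>
      cases b with
      | zero => rw [cod_zero, cod_succ] at hab; simp at hab
      | succ b =>
        rw [cod_succ, cod_succ] at hab
        have h1 := List.append_inj' hab (by simp)
        have h2 : Denumerable.ofNat (List ℕ × ℕ) a = Denumerable.ofNat (List ℕ × ℕ) b := by
          apply Prod.ext h1.1
          have := h1.2
          simpa using this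
        have h3 := congrArg Encodable.encode h2
        simp only [Denumerable.encode_ofNat] at h3
        rw [h3]
  · ext l
    simp only [Set.mem_range, Set.mem_ofPred_eq]
    constructor
    · rintro ⟨n, rfl⟩
      cases n with
      | zero => rw [cod_zero]; simp
      | succ n => rw [cod_succ]; simp
    · intro h
      rcases List.eq_nil_or_concat l with rfl | ⟨l', b, rfl⟩
      · exact ⟨0, rfl⟩
      · have hb : b ≠ 0 := by
          rintro rfl
          apply h
          simp
        refine ⟨Encodable.encode ((l', b - 1) : List ℕ × ℕ) + 1, ?_⟩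
        rw [cod_succ, Denumerable.ofNat_encode]
        simp only
        rw [Nat.sub_add_cancel (Nat.pos_of_ne_zero hb)]
        simp

/-- comparison as a Boolean -/
def ltb (l l' : List ℕ) : Bool :=
  qex l'.length fun i => decide (l.getD i 0 < l'.getD i 0) &&
    qall (l.length + l'.length) fun j => !decide (i < j) || decide (l.getD j 0 = l'.getD j 0)

lemma ltb_iff (l l' : List ℕ) : ltb l l' = true ↔ ordv l < ordv l' := by
  unfold ltb
  rw [qex_iff, ordv_lt_iff']
  simp only [Bool.and_eq_true, decide_eq_true_eq, qall_iff, Bool.or_eq_true, Bool.not_eq_true',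
    decide_eq_false_iff_not]
  constructor
  · rintro ⟨i, h1, h2, h3⟩
    refine ⟨i, h1, h2, fun j hj hij => ?_⟩
    rcases h3 j hj with h4 | h4
    · exact absurd hij h4
    · exact h4
  · rintro ⟨i, h1, h2, h3⟩
    refine ⟨i, h1, h2, fun j hj => ?_⟩
    by_cases hij : i < j
    · exact Or.inr (h3 j hj hij)
    · exact Or.inl hij

lemma p_ltb : Primrec₂ ltb := by
  unfold ltb
  refine p_qex (f := fun (p : List ℕ × List ℕ) i => decide (p.1.getD i 0 < p.2.getD i 0) &&
    qall (p.1.length + p.2.length) fun j => !decide (i < j) || decide (p.1.getD j 0 = p.2.getD j 0))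
    (Primrec.list_length.comp Primrec.snd) ?_
  refine p_and (p_lt (p_getD (Primrec.fst.comp Primrec.fst) Primrec.snd)
    (p_getD (Primrec.snd.comp Primrec.fst) Primrec.snd)) ?_
  refine p_qall (f := fun (p : (List ℕ × List ℕ) × ℕ) j =>
    !decide (p.2 < j) || decide (p.1.1.getD j 0 = p.1.2.getD j 0))
    (p_add (Primrec.list_length.comp (Primrec.fst.comp Primrec.fst))
      (Primrec.list_length.comp (Primrec.snd.comp Primrec.fst))) ?_
  exact p_or (p_not (p_lt (Primrec.snd.comp Primrec.fst) Primrec.snd))
    (p_eq (p_getD (Primrec.fst.comp (Primrec.fst.comp Primrec.fst)) Primrec.snd)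
      (p_getD (Primrec.snd.comp (Primrec.fst.comp Primrec.fst)) Primrec.snd))

/-- the ordering of the codes is computable -/
theorem order_computable {c : ℕ → List ℕ} (hc : IsCNF c) :
    ComputablePred fun p : ℕ × ℕ => ordv (c p.1) < ordv (c p.2) := by
  refine ComputablePred.computable_iff.2 ⟨fun p => ltb (c p.1) (c p.2), ?_, ?_⟩
  · exact p_ltb.to_comp.comp (hc.comp.comp Computable.fst) (hc.comp.comp Computable.snd)
  · funext p
    rw [eq_iff_iff]
    exact (ltb_iff _ _).symm

/-- the codes enumerate the ordinals below `ω ^ ω` without repetition -/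
theorem order_type {c : ℕ → List ℕ} (hc : IsCNF c) :
    Function.Injective (fun n => ordv (c n)) ∧
      Set.range (fun n => ordv (c n)) = Set.Iio (Ordinal.omega0 ^ Ordinal.omega0) := by
  constructor
  · intro a b hab
    apply hc.inj
    have ha : c a ∈ {l : List ℕ | l.getLast? ≠ some 0} := by rw [← hc.range]; exact ⟨a, rfl⟩
    have hb : c b ∈ {l : List ℕ | l.getLast? ≠ some 0} := by rw [← hc.range]; exact ⟨b, rfl⟩
    exact canon_unique ha hb ((ordv_eq_iff _ _).1 hab)
  · ext o
    simp only [Set.mem_range, Set.mem_Iio]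
    constructor
    · rintro ⟨n, rfl⟩
      refine (ordv_lt_pow (c n)).trans ?_
      rw [← Ordinal.opow_natCast]
      exact (Ordinal.opow_lt_opow_iff_right Ordinal.one_lt_omega0).2 (Ordinal.natCast_lt_omega0 _)
    · intro ho
      obtain ⟨n, hn⟩ : ∃ n : ℕ, o < Ordinal.omega0 ^ n := by
        rw [Ordinal.lt_opow_of_isSuccLimit Ordinal.omega0_ne_zero Ordinal.isSuccLimit_omega0] at ho
        obtain ⟨b, hb, hob⟩ := ho
        obtain ⟨n, rfl⟩ := Ordinal.lt_omega0.1 hb
        exact ⟨n, by rwa [Ordinal.opow_natCast] at hob⟩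
      obtain ⟨l, rfl⟩ := exists_ordv n hn
      obtain ⟨l', h1, h2⟩ := exists_canon l
      have h3 : l' ∈ Set.range c := by rw [hc.range]; exact h1
      obtain ⟨x, rfl⟩ := h3
      exact ⟨x, ordv_congr h2⟩

end Pool.Agent.R557.CS
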