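import Pool.Agent.R557.CSRe

set_option autoImplicit false

/-! Congruences of free commutative semigroups and homomorphisms. -/

namespace Pool.Agent.R557.CS

open Relation

/-- constructor -/
def mkV {k : ℕ} (a : Fin k → ℕ) (h : a ≠ 0) : FS k := ⟨a, h⟩

lemma mkV_val {k : ℕ} (a : Fin k → ℕ) (h : a ≠ 0) : (mkV a h).1 = a := rfl

/-- the list of exponents -/
def vec {k : ℕ} (u : FS k) : List ℕ := List.ofFn u.1

lemma vec_inj {k : ℕ} {u v : FS k} (h : vec u = vec v) : u = v :=
  Subtype.ext (List.ofFn_injective h)

lemma vec_length {k : ℕ} (u : FS k) : (vec u).length = k := by simp [vec]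

lemma vec_getD {k : ℕ} (u : FS k) (i : Fin k) : (vec u).getD i 0 = u.1 i := by
  unfold vec
  rw [List.getD_eq_getElem _ _ (by simp)]
  simp

/-- lists of length `k` that are not zero -/
def isV (k : ℕ) (l : List ℕ) : Bool :=
  decide (l.length = k) && qex k fun i => !decide (l.getD i 0 = 0)

lemma isV_iff {k : ℕ} {l : List ℕ} : isV k l = true ↔ ∃ u : FS k, vec u = l := by
  unfold isV
  rw [Bool.and_eq_true, decide_eq_true_eq, qex_iff]
  constructor
  · rintro ⟨h1, i, hi, h2⟩
    have hne : (fun j : Fin k => l.getD j 0) ≠ 0 := by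
      intro h
      have := congrFun h ⟨i, hi⟩
      simp only [Pi.zero_apply] at this
      rw [this] at h2
      simp at h2
    refine ⟨mkV _ hne, ?_⟩
    apply List.ext_getElem
    · rw [vec_length, h1]
    · intro j hj hj'
      have h3 := vec_getD (mkV _ hne) ⟨j, h1 ▸ hj'⟩
      rw [mkV_val] at h3
      simp only at h3
      rwa [List.getD_eq_getElem _ _ hj, List.getD_eq_getElem _ _ hj'] at h3
  · rintro ⟨u, rfl⟩
    refine ⟨vec_length u, ?_⟩
    have hne : ∃ i, u.1 i ≠ 0 := by
      by_contra h
      push Not at h
      exact u.2 (funext h)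
    obtain ⟨i, hi⟩ := hne
    refine ⟨i, i.2, ?_⟩
    rw [vec_getD]
    simpa using hi

/-- sum of a vector and a list -/
def addL (k : ℕ) (p c : List ℕ) : List ℕ := (List.range k).map fun i => p.getD i 0 + c.getD i 0

lemma addL_length (k : ℕ) (p c : List ℕ) : (addL k p c).length = k := by simp [addL]

lemma addL_getD {k : ℕ} {p c : List ℕ} {i : ℕ} (hi : i < k) :
    (addL k p c).getD i 0 = p.getD i 0 + c.getD i 0 := by
  unfold addL
  rw [List.getD_eq_getElem _ _ (by simpa using hi)]
  simp

lemma list_ext {k : ℕ} {l l' : List ℕ} (h : l.length = k) (h' : l'.length = k)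
    (he : ∀ i < k, l.getD i 0 = l'.getD i 0) : l = l' := by
  apply List.ext_getElem (by omega)
  intro i hi hi'
  have := he i (by omega)
  rwa [List.getD_eq_getElem _ _ hi, List.getD_eq_getElem _ _ hi'] at this

lemma vec_add {k : ℕ} (u v : FS k) : vec (u + v) = addL k (vec u) (vec v) := by
  apply list_ext (vec_length _) (addL_length _ _ _)
  intro i hi
  rw [addL_getD hi]
  have h1 := vec_getD (u + v) ⟨i, hi⟩
  have h2 := vec_getD u ⟨i, hi⟩
  have h3 := vec_getD v ⟨i, hi⟩
  simp only at h1 h2 h3
  rw [h1, h2, h3]
  rfl

/-- one elementary step between vectors -/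
def stp (k e : ℕ) (a b : List ℕ) : Prop :=
  ∃ w : List ℕ × List ℕ × List ℕ, ((isV k w.1 && isV k w.2.1) = true ∧
    (decide (a = addL k w.1 w.2.2) && decide (b = addL k w.2.1 w.2.2)) = true) ∧
    (Encodable.encode (w.1, w.2.1) ∈ We e ∨ Encodable.encode (w.2.1, w.1) ∈ We e)

lemma stp_symm {k e : ℕ} {a b : List ℕ} (h : stp k e a b) : stp k e b a := by
  obtain ⟨⟨p, q, c⟩, ⟨h1, h2⟩, h3⟩ := h
  simp only [Bool.and_eq_true, decide_eq_true_eq] at h1 h2
  refine ⟨⟨q, p, c⟩, ⟨?_, ?_⟩, h3.symm⟩
  · simp only [Bool.and_eq_true]; exact ⟨h1.2, h1.1⟩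
  · simp only [Bool.and_eq_true, decide_eq_true_eq]; exact ⟨h2.2, h2.1⟩

lemma stp_add {k e : ℕ} {a b : List ℕ} (h : stp k e a b) (w : List ℕ) :
    stp k e (addL k a w) (addL k b w) := by
  obtain ⟨⟨p, q, c⟩, ⟨h1, h2⟩, h3⟩ := h
  simp only [Bool.and_eq_true, decide_eq_true_eq] at h1 h2
  refine ⟨⟨p, q, addL k c w⟩, ⟨?_, ?_⟩, h3⟩
  · simp only [Bool.and_eq_true]; exact h1
  · simp only [Bool.and_eq_true, decide_eq_true_eq]
    rw [h2.1, h2.2]
    constructor <;>
    · apply list_ext (addL_length _ _ _) (addL_length _ _ _)
      intro i hi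
      rw [addL_getD hi, addL_getD hi, addL_getD hi, addL_getD hi]
      ring

lemma rtg_add {k e : ℕ} {a b : List ℕ} (h : ReflTransGen (stp k e) a b) (w : List ℕ) :
    ReflTransGen (stp k e) (addL k a w) (addL k b w) := by
  induction h with
  | refl => exact ReflTransGen.refl
  | tail _ h1 ih => exact ih.tail (stp_add h1 w)

lemma rtg_symm {k e : ℕ} {a b : List ℕ} (h : ReflTransGen (stp k e) a b) :
    ReflTransGen (stp k e) b a := by
  induction h with
  | refl => exact ReflTransGen.refl
  | tail _ h1 ih => exact ReflTransGen.head (stp_symm h1) ih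

lemma addL_comm (k : ℕ) (a b : List ℕ) : addL k a b = addL k b a := by
  apply list_ext (addL_length _ _ _) (addL_length _ _ _)
  intro i hi
  rw [addL_getD hi, addL_getD hi]
  ring

lemma con_iff {k e : ℕ} {u v : FS k} : con k e u v ↔ ReflTransGen (stp k e) (vec u) (vec v) := by
  constructor
  · intro h
    have h' : AddConGen.Rel (fun u v : FS k => eqn u v ∈ We e) u v := h
    clear h
    induction h' with
    | of x y hxy =>
      refine ReflTransGen.single ⟨⟨vec x, vec y, []⟩, ⟨?_, ?_⟩, Or.inl hxy⟩
      · simp only [Bool.and_eq_true]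
        exact ⟨isV_iff.2 ⟨x, rfl⟩, isV_iff.2 ⟨y, rfl⟩⟩
      · simp only [Bool.and_eq_true, decide_eq_true_eq]
        constructor
        · apply list_ext (vec_length _) (addL_length _ _ _)
          intro i hi
          rw [addL_getD hi]; simp
        · apply list_ext (vec_length _) (addL_length _ _ _)
          intro i hi
          rw [addL_getD hi]; simp
    | refl x => exact ReflTransGen.refl
    | symm _ ih => exact rtg_symm ih
    | trans _ _ ih1 ih2 => exact ih1.trans ih2
    | @add w x y z _ _ ih1 ih2 =>
      rw [vec_add, vec_add]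
      refine (rtg_add ih1 (vec y)).trans ?_
      rw [addL_comm k (vec x) (vec y), addL_comm k (vec x) (vec z)]
      exact rtg_add ih2 (vec x)
  · intro h
    have key : ∀ b, ReflTransGen (stp k e) (vec u) b → ∃ v : FS k, vec v = b ∧ con k e u v := by
      intro b hb
      induction hb with
      | refl => exact ⟨u, rfl, (con k e).refl u⟩
      | @tail b b' _ h1 ih =>
        obtain ⟨v, rfl, hv⟩ := ih
        obtain ⟨⟨p, q, c⟩, ⟨h2, h3⟩, h4⟩ := h1
        simp only [Bool.and_eq_true, decide_eq_true_eq, isV_iff] at h2 h3
        obtain ⟨⟨p, rfl⟩, ⟨q, rfl⟩⟩ := h2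
        simp only at h3 h4
        have hpq : con k e p q := by
          rcases h4 with h4 | h4
          · exact AddConGen.Rel.of _ _ h4
          · exact (con k e).symm (AddConGen.Rel.of _ _ h4)
        by_cases hc : ∀ i < k, c.getD i 0 = 0
        · have e1 : vec v = vec p := by
            rw [h3.1]
            apply list_ext (addL_length _ _ _) (vec_length _)
            intro i hi
            rw [addL_getD hi, hc i hi]; rfl
          have e2 : b' = vec q := by
            rw [h3.2]
            apply list_ext (addL_length _ _ _) (vec_length _)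
            intro i hi
            rw [addL_getD hi, hc i hi]; rfl
          rw [vec_inj e1] at hv
          exact ⟨q, e2.symm, (con k e).trans hv hpq⟩
        · push Not at hc
          obtain ⟨i, hi, hci⟩ := hc
          set c' : FS k := mkV (fun j : Fin k => c.getD j 0) (fun h => hci (by
            have := congrFun h ⟨i, hi⟩
            simpa using this)) with hc'
          have e0 : ∀ x : FS k, addL k (vec x) c = vec (x + c') := by
            intro x
            rw [vec_add]
            apply list_ext (addL_length _ _ _) (addL_length _ _ _)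
            intro j hj
            rw [addL_getD hj, addL_getD hj]
            have := vec_getD c' ⟨j, hj⟩
            rw [hc', mkV_val] at this
            simp only at this
            rw [hc', this]
          rw [e0] at h3
          rw [e0] at h3
          rw [vec_inj h3.1] at hv
          exact ⟨q + c', h3.2.symm, (con k e).trans hv ((con k e).add hpq ((con k e).refl c'))⟩
    obtain ⟨v', h1, h2⟩ := key _ h
    rwa [vec_inj h1] at h2

/-! ### Homomorphisms -/

/-- generators -/
def gen {m : ℕ} (j : Fin m) : FS m := mkV (Pi.single j 1) fun h => by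
  have := congrFun h j
  simp at this

/-- value of a word at a tuple of words -/
def comb {m k : ℕ} (τ : Fin m → FS k) (a : FS m) : FS k :=
  mkV (fun i => ∑ j, a.1 j * (τ j).1 i) fun h => by
    have h1 : ∃ j, a.1 j ≠ 0 := by
      by_contra hc
      push Not at hc
      exact a.2 (funext hc)
    obtain ⟨j, hj⟩ := h1
    have h2 : ∃ i, (τ j).1 i ≠ 0 := by
      by_contra hc
      push Not at hc
      exact (τ j).2 (funext hc)
    obtain ⟨i, hi⟩ := h2
    have h3 := congrFun h i
    simp only [Pi.zero_apply] at h3
    rw [Finset.sum_eq_zero_iff] at h3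
    have h4 := h3 j (Finset.mem_univ _)
    rcases Nat.mul_eq_zero.1 h4 with h5 | h5
    · exact hj h5
    · exact hi h5

lemma comb_add {m k : ℕ} (τ : Fin m → FS k) (a b : FS m) : comb τ (a + b) = comb τ a + comb τ b := by
  apply Subtype.ext
  funext i
  show ∑ j, (a.1 j + b.1 j) * (τ j).1 i = (∑ j, a.1 j * (τ j).1 i) + ∑ j, b.1 j * (τ j).1 i
  rw [← Finset.sum_add_distrib]
  apply Finset.sum_congr rfl
  intro j _
  ring

lemma comb_gen {m k : ℕ} (τ : Fin m → FS k) (j : Fin m) : comb τ (gen j) = τ j := by
  apply Subtype.ext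
  funext i
  show ∑ j', (Pi.single j 1 : Fin m → ℕ) j' * (τ j').1 i = (τ j).1 i
  rw [Finset.sum_eq_single j]
  · simp
  · intro j' _ h
    rw [Pi.single_eq_of_ne h]; simp
  · intro h
    exact absurd (Finset.mem_univ _) h

/-- two maps preserving addition and agreeing at the generators agree -/
lemma hom_ext {m : ℕ} {P : Type*} [AddSemigroup P] {f g : FS m → P}
    (hf : ∀ a b, f (a + b) = f a + f b) (hg : ∀ a b, g (a + b) = g a + g b)
    (h : ∀ j, f (gen j) = g (gen j)) : ∀ a, f a = g a := by
  have key : ∀ n, ∀ a : FS m, ∑ j, a.1 j ≤ n → f a = g a := by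
    intro n
    induction n with
    | zero =>
      intro a ha
      exfalso
      apply a.2
      funext j
      have h1 : ∑ j, a.1 j = 0 := by omega
      rw [Finset.sum_eq_zero_iff] at h1
      exact h1 j (Finset.mem_univ _)
    | succ n ih =>
      intro a ha
      have h1 : ∃ j, a.1 j ≠ 0 := by
        by_contra hc
        push Not at hc
        exact a.2 (funext hc)
      obtain ⟨j, hj⟩ := h1
      by_cases hz : a.1 - Pi.single j 1 = 0
      · have : a = gen j := by
          apply Subtype.ext
          funext i
          have h2 := congrFun hz i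
          simp only [Pi.sub_apply, Pi.zero_apply] at h2
          show a.1 i = (Pi.single j 1 : Fin m → ℕ) i
          by_cases hij : i = j
          · subst hij
            rw [Pi.single_eq_same] at h2 ⊢
            omega
          · rw [Pi.single_eq_of_ne hij] at h2 ⊢
            omega
        rw [this]; exact h j
      · have e : a = gen j + mkV (a.1 - Pi.single j 1) hz := by
          apply Subtype.ext
          funext i
          show a.1 i = (Pi.single j 1 : Fin m → ℕ) i + (a.1 i - (Pi.single j 1 : Fin m → ℕ) i)
          by_cases hij : i = j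
          · subst hij
            rw [Pi.single_eq_same]
            omega
          · rw [Pi.single_eq_of_ne hij]
            omega
        rw [e, hf, hg, h j]
        congr 1
        apply ih
        have h3 : ∑ i, (a.1 - Pi.single j 1 : Fin m → ℕ) i + 1 = ∑ i, a.1 i := by
          have h4 : ∑ i, a.1 i = ∑ i, ((a.1 - Pi.single j 1 : Fin m → ℕ) i + (Pi.single j 1 : Fin m → ℕ) i) := by
            apply Finset.sum_congr rfl
            intro i _
            simp only [Pi.sub_apply]
            by_cases hij : i = j
            · subst hij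
              rw [Pi.single_eq_same]
              omega
            · rw [Pi.single_eq_of_ne hij]
              omega
          rw [h4, Finset.sum_add_distrib]
          congr 1
          rw [Finset.sum_pi_single']
          simp
        show ∑ i, (a.1 - Pi.single j 1 : Fin m → ℕ) i ≤ n
        omega
  intro a
  exact key _ a le_rfl

end Pool.Agent.R557.CS
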