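import Mathlib

set_option autoImplicit false

/-! Definitions: c.e. presentations of commutative semigroups, and the relations `E_min`. -/

namespace Pool.Agent.R557.CS

open Nat.Partrec (Code)

/-- The `e`-th c.e. set. -/
def We (e : ℕ) : Set ℕ := {x | ((Denumerable.ofNat Code e).eval x).Dom}

/-- The free commutative semigroup on `k` generators: the nonzero vectors of `k` natural numbers
(the exponents of the generators in a nonempty commutative word). -/
def FS (k : ℕ) : Type := {a : Fin k → ℕ // a ≠ 0}

instance instFS (k : ℕ) : AddCommSemigroup (FS k) where
  add a b := ⟨a.1 + b.1, fun h => a.2 (by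
    funext i
    have h1 := congrFun h i
    simp only [Pi.add_apply, Pi.zero_apply] at h1 ⊢
    omega)⟩
  add_assoc a b c := Subtype.ext (add_assoc a.1 b.1 c.1)
  add_comm a b := Subtype.ext (add_comm a.1 b.1)

/-- The code of the equation `u = v`. -/
def eqn {k : ℕ} (u v : FS k) : ℕ := Encodable.encode (List.ofFn u.1, List.ofFn v.1)

/-- The congruence generated by the equations with codes in the `e`-th c.e. set. -/
def con (k e : ℕ) : AddCon (FS k) := addConGen fun u v => eqn u v ∈ We e

/-- The semigroups presented by `k` generators and the equations listed in the `e`-th c.e. set, and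
by `k'` generators and the equations listed in the `e'`-th c.e. set, are isomorphic. -/
def Iso (k e k' e' : ℕ) : Prop := Nonempty ((con k e).Quotient ≃+ (con k' e').Quotient)

/-- The ordinal `l₀ + ω l₁ + ω² l₂ + ...` (with the larger powers first in the sum). -/
noncomputable def ordv : List ℕ → Ordinal.{0}
  | [] => 0
  | a :: l => Ordinal.omega0 * ordv l + a

/-- A coding by natural numbers of the Cantor normal forms of the ordinals below `ω ^ ω`: the number
`n` codes the normal form with the list of coefficients `c n`, without leading zero coefficient. -/
structure IsCNF (c : ℕ → List ℕ) : Prop where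
  comp : Computable c
  inj : Function.Injective c
  range : Set.range c = {l | l.getLast? ≠ some 0}

/-- `E_min` for the ordering of the codes of Cantor normal forms of ordinals below `ω ^ ω`: the c.e.
sets with indices `e`, `i` are both empty, or have the same least element. -/
def Emin (c : ℕ → List ℕ) (e i : ℕ) : Prop :=
  (We e = ∅ ∧ We i = ∅) ∨ ∃ x, (x ∈ We e ∧ ∀ y ∈ We e, ordv (c x) ≤ ordv (c y)) ∧
    (x ∈ We i ∧ ∀ y ∈ We i, ordv (c x) ≤ ordv (c y))

end Pool.Agent.R557.CS
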