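import Pool.Agent.R557.CSMain

set_option autoImplicit false

/-! The reduction of isomorphism to `E_min(ω ^ ω)`. -/

namespace Pool.Agent.R557.CS

open Relation

section
variable {α : Type*} [Primcodable α]

lemma p_isV {k : α → ℕ} {l : α → List ℕ} (hk : Primrec k) (hl : Primrec l) :
    Primrec fun x => isV (k x) (l x) := by
  unfold isV
  refine p_and (p_eq (Primrec.list_length.comp hl) hk) ?_
  refine p_qex (f := fun x i => !decide ((l x).getD i 0 = 0)) hk ?_
  exact p_not (p_eq (p_getD (hl.comp Primrec.fst) Primrec.snd) (Primrec.const 0))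

lemma p_addL {k : α → ℕ} {p c : α → List ℕ} (hk : Primrec k) (hp : Primrec p) (hc : Primrec c) :
    Primrec fun x => addL (k x) (p x) (c x) := by
  unfold addL
  refine Primrec.list_map (Primrec.list_range.comp hk) ?_
  exact p_add (p_getD (hp.comp Primrec.fst) Primrec.snd) (p_getD (hc.comp Primrec.fst) Primrec.snd)

lemma p_lexlt {m : α → ℕ} {b a : α → List ℕ} (hm : Primrec m) (hb : Primrec b) (ha : Primrec a) :
    Primrec fun x => lexlt (m x) (b x) (a x) := by
  unfold lexlt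
  have hb' : Primrec fun p : α × ℕ => (b p.1).getD p.2 0 :=
    p_getD (hb.comp Primrec.fst) Primrec.snd
  have ha' : Primrec fun p : α × ℕ => (a p.1).getD p.2 0 :=
    p_getD (ha.comp Primrec.fst) Primrec.snd
  refine p_qex (f := fun x i => decide ((b x).getD i 0 < (a x).getD i 0) &&
    qall i fun j => decide ((b x).getD j 0 = (a x).getD j 0)) hm ?_
  refine p_and (p_lt hb' ha') ?_
  refine p_qall (f := fun (p : α × ℕ) j => decide ((b p.1).getD j 0 = (a p.1).getD j 0))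
    Primrec.snd ?_
  exact p_eq (p_getD (hb.comp (Primrec.fst.comp Primrec.fst)) Primrec.snd)
    (p_getD (ha.comp (Primrec.fst.comp Primrec.fst)) Primrec.snd)

lemma p_combL {k m : α → ℕ} {T : α → List (List ℕ)} {a : α → List ℕ} (hk : Primrec k)
    (hm : Primrec m) (hT : Primrec T) (ha : Primrec a) :
    Primrec fun x => combL (k x) (m x) (T x) (a x) := by
  unfold combL
  refine Primrec.list_map (Primrec.list_range.comp hk) ?_
  refine p_qsum (f := fun (p : α × ℕ) j => (a p.1).getD j 0 * ((T p.1).getD j []).getD p.2 0)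
    (hm.comp Primrec.fst) ?_
  refine p_mul (p_getD (ha.comp (Primrec.fst.comp Primrec.fst)) Primrec.snd) ?_
  refine p_getD ?_ (Primrec.snd.comp Primrec.fst)
  exact (Primrec.list_getD []).comp (hT.comp (Primrec.fst.comp Primrec.fst)) Primrec.snd

lemma p_unitL {k i : α → ℕ} (hk : Primrec k) (hi : Primrec i) :
    Primrec fun x => unitL (k x) (i x) := by
  unfold unitL
  refine Primrec.list_map (Primrec.list_range.comp hk) ?_
  exact Primrec.cond (p_eq Primrec.snd (hi.comp Primrec.fst)) (Primrec.const 1) (Primrec.const 0)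

lemma p_val {m : α → ℕ} {L : α → List (List ℕ × List ℕ)} (hm : Primrec m) (hL : Primrec L) :
    Primrec fun x => val (m x) (L x) := by
  unfold val
  refine Primrec.list_cons.comp (Primrec.encode.comp (Primrec.pair hm hL)) ?_
  exact p_meas hm (Primrec.list_map hL (Primrec.fst.comp Primrec.snd))

end

/-- equality of coefficients -/
def eqv (l l' : List ℕ) : Bool :=
  qall (l.length + l'.length) fun j => decide (l.getD j 0 = l'.getD j 0)

lemma eqv_iff {l l' : List ℕ} : eqv l l' = true ↔ ordv l = ordv l' := by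
  unfold eqv
  rw [ordv_eq_iff, qall_iff]
  simp only [decide_eq_true_eq]
  constructor
  · intro h j
    by_cases hj : j < l.length + l'.length
    · exact h j hj
    · rw [List.getD_eq_default _ _ (by omega), List.getD_eq_default _ _ (by omega)]
  · intro h j _
    exact h j

lemma p_eqv : Primrec₂ eqv := by
  unfold eqv
  refine p_qall (f := fun (p : List ℕ × List ℕ) j => decide (p.1.getD j 0 = p.2.getD j 0))
    (p_add (Primrec.list_length.comp Primrec.fst) (Primrec.list_length.comp Primrec.snd)) ?_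
  exact p_eq (p_getD (Primrec.fst.comp Primrec.fst) Primrec.snd)
    (p_getD (Primrec.snd.comp Primrec.fst) Primrec.snd)

lemma re_stp : REPred fun q : (ℕ × ℕ) × (List ℕ × List ℕ) => stp q.1.1 q.1.2 q.2.1 q.2.2 := by
  unfold stp
  refine re_ex (γ := List ℕ × List ℕ × List ℕ)
    (p := fun (q : (ℕ × ℕ) × (List ℕ × List ℕ)) w => ((isV q.1.1 w.1 && isV q.1.1 w.2.1) = true ∧
    (decide (q.2.1 = addL q.1.1 w.1 w.2.2) && decide (q.2.2 = addL q.1.1 w.2.1 w.2.2)) = true) ∧
    (Encodable.encode (w.1, w.2.1) ∈ We q.1.2 ∨ Encodable.encode (w.2.1, w.1) ∈ We q.1.2)) ?_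
  have k1 : Primrec fun q : ((ℕ × ℕ) × (List ℕ × List ℕ)) × (List ℕ × List ℕ × List ℕ) => q.1.1.1 :=
    Primrec.fst.comp (Primrec.fst.comp Primrec.fst)
  have e1 : Primrec fun q : ((ℕ × ℕ) × (List ℕ × List ℕ)) × (List ℕ × List ℕ × List ℕ) => q.1.1.2 :=
    Primrec.snd.comp (Primrec.fst.comp Primrec.fst)
  have a1 : Primrec fun q : ((ℕ × ℕ) × (List ℕ × List ℕ)) × (List ℕ × List ℕ × List ℕ) => q.1.2.1 :=
    Primrec.fst.comp (Primrec.snd.comp Primrec.fst)
  have b1 : Primrec fun q : ((ℕ × ℕ) × (List ℕ × List ℕ)) × (List ℕ × List ℕ × List ℕ) => q.1.2.2 :=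
    Primrec.snd.comp (Primrec.snd.comp Primrec.fst)
  have w1 : Primrec fun q : ((ℕ × ℕ) × (List ℕ × List ℕ)) × (List ℕ × List ℕ × List ℕ) => q.2.1 :=
    Primrec.fst.comp Primrec.snd
  have w2 : Primrec fun q : ((ℕ × ℕ) × (List ℕ × List ℕ)) × (List ℕ × List ℕ × List ℕ) => q.2.2.1 :=
    Primrec.fst.comp (Primrec.snd.comp Primrec.snd)
  have w3 : Primrec fun q : ((ℕ × ℕ) × (List ℕ × List ℕ)) × (List ℕ × List ℕ × List ℕ) => q.2.2.2 :=
    Primrec.snd.comp (Primrec.snd.comp Primrec.snd)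
  refine re_and (re_and (re_bool ?_) (re_bool ?_)) (re_or ?_ ?_)
  · exact (p_and (p_isV k1 w1) (p_isV k1 w2)).to_comp
  · exact (p_and (p_eq a1 (p_addL k1 w1 w3)) (p_eq b1 (p_addL k1 w2 w3))).to_comp
  · exact re_comp (f := fun q : ((ℕ × ℕ) × (List ℕ × List ℕ)) × (List ℕ × List ℕ × List ℕ) =>
      (q.1.1.2, Encodable.encode (q.2.1, q.2.2.1))) re_We
      (Primrec.pair e1 (Primrec.encode.comp (Primrec.pair w1 w2))).to_comp
  · exact re_comp (f := fun q : ((ℕ × ℕ) × (List ℕ × List ℕ)) × (List ℕ × List ℕ × List ℕ) =>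
      (q.1.1.2, Encodable.encode (q.2.2.1, q.2.1))) re_We
      (Primrec.pair e1 (Primrec.encode.comp (Primrec.pair w2 w1))).to_comp

lemma re_path : REPred fun q : (ℕ × ℕ) × (List ℕ × List ℕ) =>
    ReflTransGen (stp q.1.1 q.1.2) q.2.1 q.2.2 :=
  re_rtg (R := fun q : ℕ × ℕ => stp q.1 q.2) re_stp []

lemma re_path' {α : Type*} [Primcodable α] {k e : α → ℕ} {a b : α → List ℕ} (hk : Primrec k)
    (he : Primrec e) (ha : Primrec a) (hb : Primrec b) :
    REPred fun x => ReflTransGen (stp (k x) (e x)) (a x) (b x) :=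
  re_comp (f := fun x => ((k x, e x), (a x, b x))) re_path
    (Primrec.pair (Primrec.pair hk he) (Primrec.pair ha hb)).to_comp

lemma re_validL : REPred fun q : (ℕ × ℕ) × (ℕ × List (List ℕ × List ℕ)) =>
    validL q.1.1 q.1.2 q.2.1 q.2.2 := by
  unfold validL
  refine re_ex (γ := List (List ℕ)) (p := fun (q : (ℕ × ℕ) × (ℕ × List (List ℕ × List ℕ))) T =>
    (qall q.2.1 fun j => isV q.1.1 (T.getD j [])) = true ∧
    (∀ l < q.2.2.length, ((isV q.2.1 (q.2.2.getD l ([], [])).1 && isV q.2.1 (q.2.2.getD l ([], [])).2) &&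
      lexlt q.2.1 (q.2.2.getD l ([], [])).2 (q.2.2.getD l ([], [])).1) = true ∧
      ReflTransGen (stp q.1.1 q.1.2) (combL q.1.1 q.2.1 T (q.2.2.getD l ([], [])).1)
        (combL q.1.1 q.2.1 T (q.2.2.getD l ([], [])).2)) ∧
    ∀ i < q.1.1, ∃ g : List ℕ, isV q.2.1 g = true ∧
      ReflTransGen (stp q.1.1 q.1.2) (combL q.1.1 q.2.1 T g) (unitL q.1.1 i)) ?_
  have k1 : Primrec fun q : ((ℕ × ℕ) × (ℕ × List (List ℕ × List ℕ))) × List (List ℕ) => q.1.1.1 :=
    Primrec.fst.comp (Primrec.fst.comp Primrec.fst)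
  have e1 : Primrec fun q : ((ℕ × ℕ) × (ℕ × List (List ℕ × List ℕ))) × List (List ℕ) => q.1.1.2 :=
    Primrec.snd.comp (Primrec.fst.comp Primrec.fst)
  have m1 : Primrec fun q : ((ℕ × ℕ) × (ℕ × List (List ℕ × List ℕ))) × List (List ℕ) => q.1.2.1 :=
    Primrec.fst.comp (Primrec.snd.comp Primrec.fst)
  have L1 : Primrec fun q : ((ℕ × ℕ) × (ℕ × List (List ℕ × List ℕ))) × List (List ℕ) => q.1.2.2 :=
    Primrec.snd.comp (Primrec.snd.comp Primrec.fst)
  refine re_and (re_bool ?_) (re_and ?_ ?_)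
  · refine (p_qall (f := fun (q : ((ℕ × ℕ) × (ℕ × List (List ℕ × List ℕ))) × List (List ℕ)) j =>
      isV q.1.1.1 (q.2.getD j [])) m1 ?_).to_comp
    exact p_isV (k1.comp Primrec.fst) ((Primrec.list_getD []).comp
      (Primrec.snd.comp Primrec.fst) Primrec.snd)
  · refine re_ball (p := fun (q : ((ℕ × ℕ) × (ℕ × List (List ℕ × List ℕ))) × List (List ℕ)) l =>
      ((isV q.1.2.1 (q.1.2.2.getD l ([], [])).1 && isV q.1.2.1 (q.1.2.2.getD l ([], [])).2) &&
      lexlt q.1.2.1 (q.1.2.2.getD l ([], [])).2 (q.1.2.2.getD l ([], [])).1) = true ∧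
      ReflTransGen (stp q.1.1.1 q.1.1.2) (combL q.1.1.1 q.1.2.1 q.2 (q.1.2.2.getD l ([], [])).1)
        (combL q.1.1.1 q.1.2.1 q.2 (q.1.2.2.getD l ([], [])).2)) ?_
        (Primrec.list_length.comp L1).to_comp
    have g1 : Primrec fun q : (((ℕ × ℕ) × (ℕ × List (List ℕ × List ℕ))) × List (List ℕ)) × ℕ =>
        q.1.1.2.2.getD q.2 ([], []) :=
      (Primrec.list_getD ([], [])).comp (L1.comp Primrec.fst) Primrec.snd
    have m2 := m1.comp (Primrec.fst (α := ((ℕ × ℕ) × (ℕ × List (List ℕ × List ℕ))) × List (List ℕ))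
      (β := ℕ))
    have k2 := k1.comp (Primrec.fst (α := ((ℕ × ℕ) × (ℕ × List (List ℕ × List ℕ))) × List (List ℕ))
      (β := ℕ))
    have e2 := e1.comp (Primrec.fst (α := ((ℕ × ℕ) × (ℕ × List (List ℕ × List ℕ))) × List (List ℕ))
      (β := ℕ))
    have gf := Primrec.fst.comp g1
    have gs := Primrec.snd.comp g1
    refine re_and (re_bool ?_) ?_
    · exact (p_and (p_and (p_isV m2 gf) (p_isV m2 gs)) (p_lexlt m2 gs gf)).to_comp
    · exact re_path' k2 e2 (p_combL k2 m2 (Primrec.snd.comp Primrec.fst) gf)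
        (p_combL k2 m2 (Primrec.snd.comp Primrec.fst) gs)
  · refine re_ball (p := fun (q : ((ℕ × ℕ) × (ℕ × List (List ℕ × List ℕ))) × List (List ℕ)) i =>
      ∃ g : List ℕ, isV q.1.2.1 g = true ∧
      ReflTransGen (stp q.1.1.1 q.1.1.2) (combL q.1.1.1 q.1.2.1 q.2 g) (unitL q.1.1.1 i)) ?_
      k1.to_comp
    refine re_ex (γ := List ℕ)
      (p := fun (q : (((ℕ × ℕ) × (ℕ × List (List ℕ × List ℕ))) × List (List ℕ)) × ℕ) g =>
      isV q.1.1.2.1 g = true ∧ ReflTransGen (stp q.1.1.1.1 q.1.1.1.2)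
        (combL q.1.1.1.1 q.1.1.2.1 q.1.2 g) (unitL q.1.1.1.1 q.2)) ?_
    have p1 : Primrec fun q : ((((ℕ × ℕ) × (ℕ × List (List ℕ × List ℕ))) × List (List ℕ)) × ℕ) ×
        List ℕ => q.1.1 := Primrec.fst.comp Primrec.fst
    have k3 := k1.comp p1
    have e3 := e1.comp p1
    have m3 := m1.comp p1
    refine re_and (re_bool (p_isV m3 Primrec.snd).to_comp) ?_
    exact re_path' k3 e3 (p_combL k3 m3 (Primrec.snd.comp p1) Primrec.snd)
      (p_unitL k3 (Primrec.snd.comp Primrec.fst))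

/-- the values enumerated -/
def vals (c : ℕ → List ℕ) (k e x : ℕ) : Prop :=
  ∃ y : ℕ × List (List ℕ × List ℕ), validL k e y.1 y.2 ∧ eqv (c x) (val y.1 y.2) = true

lemma re_vals {c : ℕ → List ℕ} (hc : Computable c) :
    REPred fun q : ℕ × ℕ => vals c q.1.unpair.1 q.1.unpair.2 q.2 := by
  unfold vals
  refine re_ex (γ := ℕ × List (List ℕ × List ℕ)) (p := fun (q : ℕ × ℕ) y =>
    validL q.1.unpair.1 q.1.unpair.2 y.1 y.2 ∧ eqv (c q.2) (val y.1 y.2) = true) ?_
  refine re_and ?_ (re_bool ?_)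
  · refine re_comp (f := fun q : (ℕ × ℕ) × (ℕ × List (List ℕ × List ℕ)) =>
      ((q.1.1.unpair.1, q.1.1.unpair.2), q.2)) re_validL ?_
    exact (Primrec.pair (Primrec.unpair.comp (Primrec.fst.comp Primrec.fst)) Primrec.snd).to_comp
  · exact p_eqv.to_comp.comp (hc.comp (Computable.snd.comp Computable.fst))
      (p_val (Primrec.fst.comp Primrec.snd) (Primrec.snd.comp Primrec.snd)).to_comp

/-- a valid presentation exists -/
lemma exists_valid (k e : ℕ) : Valid (con k e).Quotient k [] :=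
  ⟨fun u => (u : (con k e).Quotient), fun _ _ => rfl, fun x => Quot.exists_rep x, by simp⟩

/-- the reduction -/
theorem main {c : ℕ → List ℕ} (hc : IsCNF c) : ∃ f : ℕ → ℕ, Computable f ∧
    ∀ k e k' e', Iso k e k' e' ↔ Emin c (f (Nat.pair k e)) (f (Nat.pair k' e')) := by
  obtain ⟨f, hf, hfv⟩ := re_index (p := fun a x => vals c a.unpair.1 a.unpair.2 x) (re_vals hc.comp)
  refine ⟨f, hf, fun k e k' e' => ?_⟩
  have hW : ∀ k e x, x ∈ We (f (Nat.pair k e)) ↔
      ∃ m L, Valid (con k e).Quotient m L ∧ ordv (c x) = ordv (val m L) := by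
    intro k e x
    rw [hfv]
    simp only [Nat.unpair_pair]
    unfold vals
    constructor
    · rintro ⟨⟨m, L⟩, h1, h2⟩
      exact ⟨m, L, valid_iff.2 h1, eqv_iff.1 h2⟩
    · rintro ⟨m, L, h1, h2⟩
      exact ⟨(m, L), valid_iff.1 h1, eqv_iff.2 h2⟩
  have hex : ∀ m L, ∃ x, ordv (c x) = ordv (val m L) := by
    intro m L
    obtain ⟨l, h1, h2⟩ := exists_canon (val m L)
    have h3 : l ∈ Set.range c := by rw [hc.range]; exact h1
    obtain ⟨x, rfl⟩ := h3
    exact ⟨x, ordv_congr h2⟩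
  constructor
  · rintro ⟨σ⟩
    right
    have hiff : ∀ x, x ∈ We (f (Nat.pair k e)) ↔ x ∈ We (f (Nat.pair k' e')) := by
      intro x
      rw [hW, hW]
      constructor
      · rintro ⟨m, L, h1, h2⟩
        exact ⟨m, L, valid_equiv σ h1, h2⟩
      · rintro ⟨m, L, h1, h2⟩
        exact ⟨m, L, valid_equiv σ.symm h1, h2⟩
    obtain ⟨x₀, hx₀⟩ := hex k []
    have hne : ∃ o : Ordinal.{0}, ∃ x ∈ We (f (Nat.pair k e)), ordv (c x) = o :=
      ⟨_, x₀, (hW k e x₀).2 ⟨k, [], exists_valid k e, hx₀⟩, rfl⟩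
    classical
    obtain ⟨x, hx, hxo⟩ := WellFounded.min_mem Ordinal.lt_wf {o | ∃ x ∈ We (f (Nat.pair k e)), ordv (c x) = o} hne
    have hmin : ∀ y ∈ We (f (Nat.pair k e)), ordv (c x) ≤ ordv (c y) := by
      intro y hy
      rw [hxo]
      exact not_lt.1 (WellFounded.not_lt_min Ordinal.lt_wf {o | ∃ x ∈ We (f (Nat.pair k e)), ordv (c x) = o} ⟨y, hy, rfl⟩)
    exact ⟨x, ⟨hx, hmin⟩, (hiff x).1 hx, fun y hy => hmin y ((hiff y).2 hy)⟩
  · rintro (⟨h1, _⟩ | ⟨x, ⟨h1, h2⟩, h3, h4⟩)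
    · exfalso
      obtain ⟨x₀, hx₀⟩ := hex k []
      have : x₀ ∈ We (f (Nat.pair k e)) := (hW k e x₀).2 ⟨k, [], exists_valid k e, hx₀⟩
      rw [h1] at this
      exact this
    · obtain ⟨m, L, hv, ho⟩ := (hW k e x).1 h1
      obtain ⟨m', L', hv', ho'⟩ := (hW k' e' x).1 h3
      have hcode : Encodable.encode (m, L) = Encodable.encode (m', L') := by
        have h5 : ordv (val m L) = ordv (val m' L') := ho ▸ ho'
        have h6 := (ordv_eq_iff _ _).1 h5 0
        simpa [val] using h6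
      have hml := Encodable.encode_injective hcode
      rw [Prod.mk.injEq] at hml
      obtain ⟨rfl, rfl⟩ := hml
      refine equiv_of_min hv hv' (fun L' hL' => ?_) (fun L' hL' => ?_)
      · obtain ⟨y, hy⟩ := hex m L'
        rw [← ho, ← hy]
        exact h2 y ((hW k e y).2 ⟨m, L', hL', hy⟩)
      · obtain ⟨y, hy⟩ := hex m L'
        rw [← ho, ← hy]
        exact h4 y ((hW k' e' y).2 ⟨m, L', hL', hy⟩)

end Pool.Agent.R557.CS
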