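import Pool.Agent.R557.CSCong

set_option autoImplicit false

/-! Least values of the presentations of a commutative semigroup. -/

namespace Pool.Agent.R557.CS

open Relation

/-- lexicographic comparison -/
def lexlt (m : ℕ) (b a : List ℕ) : Bool :=
  qex m fun i => decide (b.getD i 0 < a.getD i 0) && qall i fun j => decide (b.getD j 0 = a.getD j 0)

lemma lexlt_iff {m : ℕ} (b a : FS m) :
    lexlt m (vec b) (vec a) = true ↔ toLex b.1 < toLex a.1 := by
  have h0 : toLex b.1 < toLex a.1 ↔ ∃ i : Fin m, (∀ j, j < i → b.1 j = a.1 j) ∧ b.1 i < a.1 i :=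
    Iff.rfl
  rw [h0]
  unfold lexlt
  rw [qex_iff]
  simp only [Bool.and_eq_true, decide_eq_true_eq, qall_iff]
  constructor
  · rintro ⟨i, hi, h1, h2⟩
    have e1 := vec_getD b ⟨i, hi⟩
    have e2 := vec_getD a ⟨i, hi⟩
    simp only at e1 e2
    refine ⟨⟨i, hi⟩, fun j hj => ?_, by rw [← e1, ← e2]; exact h1⟩
    rw [← vec_getD b j, ← vec_getD a j]
    exact h2 j hj
  · rintro ⟨i, h1, h2⟩
    refine ⟨i, i.2, by rw [vec_getD, vec_getD]; exact h2, fun j hj => ?_⟩
    have e1 := vec_getD b ⟨j, hj.trans i.2⟩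
    have e2 := vec_getD a ⟨j, hj.trans i.2⟩
    simp only at e1 e2
    rw [e1, e2]
    exact h1 _ hj

/-- `L` is a list of equations true in `P` for some generating `m`-tuple, each with the larger side
first -/
def Valid (P : Type*) [AddSemigroup P] (m : ℕ) (L : List (List ℕ × List ℕ)) : Prop :=
  ∃ h : FS m → P, (∀ a b, h (a + b) = h a + h b) ∧ Function.Surjective h ∧
    ∀ p ∈ L, ∃ a b : FS m, p = (vec a, vec b) ∧ toLex b.1 < toLex a.1 ∧ h a = h b

/-- the value of a presentation -/
def val (m : ℕ) (L : List (List ℕ × List ℕ)) : List ℕ :=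
  Encodable.encode (m, L) :: meas m (L.map Prod.fst)

lemma lex_add {m : ℕ} {a b : FS m} (h : toLex b.1 < toLex a.1) (c : FS m) :
    toLex (b + c).1 < toLex (a + c).1 := by
  have h' : ∃ i : Fin m, (∀ j, j < i → b.1 j = a.1 j) ∧ b.1 i < a.1 i := h
  obtain ⟨i, h1, h2⟩ := h'
  refine ⟨i, fun j hj => ?_, ?_⟩
  · show b.1 j + c.1 j = a.1 j + c.1 j
    rw [h1 j hj]
  · show b.1 i + c.1 i < a.1 i + c.1 i
    omega

section
variable {P : Type*} [AddSemigroup P] {m : ℕ} {L : List (List ℕ × List ℕ)} {h : FS m → P}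

lemma rel_sound (hadd : ∀ a b, h (a + b) = h a + h b)
    (hL : ∀ p ∈ L, ∃ a b : FS m, p = (vec a, vec b) ∧ toLex b.1 < toLex a.1 ∧ h a = h b)
    {a b : FS m} (hab : AddConGen.Rel (fun a b : FS m => (vec a, vec b) ∈ L) a b) : h a = h b := by
  induction hab with
  | of x y hxy =>
    obtain ⟨a, b, h1, _, h3⟩ := hL _ hxy
    rw [Prod.mk.injEq] at h1
    rw [vec_inj h1.1, vec_inj h1.2]
    exact h3
  | refl x => rfl
  | symm _ ih => exact ih.symm
  | trans _ _ ih1 ih2 => exact ih1.trans ih2
  | add _ _ ih1 ih2 => rw [hadd, hadd, ih1, ih2]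

lemma ker_of_min (hadd : ∀ a b, h (a + b) = h a + h b)
    (hL : ∀ p ∈ L, ∃ a b : FS m, p = (vec a, vec b) ∧ toLex b.1 < toLex a.1 ∧ h a = h b)
    (hmin : ∀ a b : FS m, toLex b.1 < toLex a.1 → h a = h b →
      ordv (val m L) ≤ ordv (val m ((vec a, vec b) :: L))) (a b : FS m) :
    h a = h b ↔ AddConGen.Rel (fun a b : FS m => (vec a, vec b) ∈ L) a b := by
  refine ⟨fun hab => ?_, rel_sound hadd hL⟩
  have hin : ∀ a b : FS m, toLex b.1 < toLex a.1 → h a = h b → ∃ p ∈ L, abv m p.1 (vec a) := by
    intro a b h1 h2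
    by_contra hc
    push Not at hc
    have h3 := hmin a b h1 h2
    have h4 : ordv (val m ((vec a, vec b) :: L)) < ordv (val m L) := by
      unfold val
      rw [List.map_cons]
      apply meas_lt
      intro a' ha'
      rw [List.mem_map] at ha'
      obtain ⟨p, hp, rfl⟩ := ha'
      exact hc p hp
    exact absurd h4 (not_lt_of_ge h3)
  have hnorm : ∀ a : FS m, ∃ n : FS m, AddConGen.Rel (fun a b : FS m => (vec a, vec b) ∈ L) a n ∧
      ∀ b : FS m, toLex b.1 < toLex n.1 → h n ≠ h b := by
    have hwf : WellFounded ((· < ·) : Lex (Fin m → ℕ) → Lex (Fin m → ℕ) → Prop) :=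
      wellFounded_lt
    have key : ∀ x : Lex (Fin m → ℕ), ∀ a : FS m, toLex a.1 = x →
        ∃ n : FS m, AddConGen.Rel (fun a b : FS m => (vec a, vec b) ∈ L) a n ∧
          ∀ b : FS m, toLex b.1 < toLex n.1 → h n ≠ h b := by
      intro x
      induction x using hwf.induction with
      | _ x ih =>
        intro a hax
        by_cases hred : ∃ b : FS m, toLex b.1 < toLex a.1 ∧ h a = h b
        · obtain ⟨b, h1, h2⟩ := hred
          obtain ⟨p, hp, habv⟩ := hin a b h1 h2
          obtain ⟨p1, p2, rfl, h3, h4⟩ := hL p hp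
          simp only at habv
          have hle : ∀ i, p1.1 i ≤ a.1 i := by
            intro i
            rw [← vec_getD p1 i, ← vec_getD a i]
            exact habv i i.2
          have hrel : AddConGen.Rel (fun a b : FS m => (vec a, vec b) ∈ L) p1 p2 :=
            AddConGen.Rel.of _ _ hp
          by_cases hz : a.1 - p1.1 = 0
          · have e : a = p1 := by
              apply Subtype.ext
              funext i
              have h5 := congrFun hz i
              simp only [Pi.sub_apply, Pi.zero_apply] at h5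
              have := hle i
              omega
            obtain ⟨n, h6, h7⟩ := ih (toLex p2.1) (by rw [← hax, e]; exact h3) p2 rfl
            exact ⟨n, (e ▸ hrel).trans h6, h7⟩
          · have e : a = p1 + mkV (a.1 - p1.1) hz := by
              apply Subtype.ext
              funext i
              show a.1 i = p1.1 i + (a.1 i - p1.1 i)
              have := hle i
              omega
            have h5 := lex_add h3 (mkV (a.1 - p1.1) hz)
            rw [← e] at h5
            obtain ⟨n, h6, h7⟩ := ih _ (by rw [← hax]; exact h5) (p2 + mkV (a.1 - p1.1) hz) rfl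
            refine ⟨n, AddConGen.Rel.trans ?_ h6, h7⟩
            have h8 := AddConGen.Rel.add hrel
              (AddConGen.Rel.refl (r := fun a b : FS m => (vec a, vec b) ∈ L)
                (mkV (a.1 - p1.1) hz))
            rwa [← e] at h8
        · push Not at hred
          exact ⟨a, AddConGen.Rel.refl a, hred⟩
    intro a
    exact key _ a rfl
  obtain ⟨na, h1, h2⟩ := hnorm a
  obtain ⟨nb, h3, h4⟩ := hnorm b
  have h5 : h na = h nb := by
    rw [← rel_sound hadd hL h1, ← rel_sound hadd hL h3]; exact hab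
  have h6 : na = nb := by
    apply Subtype.ext
    have h7 : toLex na.1 = toLex nb.1 := by
      rcases lt_trichotomy (toLex na.1) (toLex nb.1) with h8 | h8 | h8
      · exact absurd h5.symm (h4 na h8)
      · exact h8
      · exact absurd h5 (h2 nb h8)
    exact toLex_inj.1 h7
  rw [h6] at h1
  exact h1.trans h3.symm

end

/-- two semigroups with generating tuples satisfying the same equations are isomorphic -/
lemma equiv_of_ker {P P' : Type*} [AddSemigroup P] [AddSemigroup P'] {m : ℕ} {h : FS m → P}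
    {h' : FS m → P'} (hadd : ∀ a b, h (a + b) = h a + h b) (hadd' : ∀ a b, h' (a + b) = h' a + h' b)
    (hs : Function.Surjective h) (hs' : Function.Surjective h') (hk : ∀ a b, h a = h b ↔ h' a = h' b) :
    Nonempty (P ≃+ P') := by
  have hi := Function.surjInv_eq hs
  refine ⟨AddEquiv.ofBijective (⟨fun x => h' (Function.surjInv hs x), fun x y => ?_⟩ : P →ₙ+ P')
    ⟨fun x y hxy => ?_, fun z => ?_⟩⟩
  · rw [← hadd', ← hk, hadd, hi, hi, hi]
  · have h1 : h' (Function.surjInv hs x) = h' (Function.surjInv hs y) := hxy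
    rw [← hk, hi, hi] at h1
    exact h1
  · obtain ⟨a, rfl⟩ := hs' z
    refine ⟨h a, ?_⟩
    show h' (Function.surjInv hs (h a)) = h' a
    rw [← hk, hi]

lemma valid_equiv {P P' : Type*} [AddSemigroup P] [AddSemigroup P'] (σ : P ≃+ P') {m : ℕ}
    {L : List (List ℕ × List ℕ)} (hv : Valid P m L) : Valid P' m L := by
  obtain ⟨h, h1, h2, h3⟩ := hv
  refine ⟨fun a => σ (h a), fun a b => ?_, σ.surjective.comp h2, fun p hp => ?_⟩
  · show σ (h (a + b)) = σ (h a) + σ (h b)
    rw [h1, map_add]
  obtain ⟨a, b, h4, h5, h6⟩ := h3 p hp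
  exact ⟨a, b, h4, h5, congrArg σ h6⟩

/-- the least value determines the semigroup -/
lemma equiv_of_min {P P' : Type*} [AddSemigroup P] [AddSemigroup P'] {m : ℕ}
    {L : List (List ℕ × List ℕ)} (hv : Valid P m L) (hv' : Valid P' m L)
    (hmin : ∀ L', Valid P m L' → ordv (val m L) ≤ ordv (val m L'))
    (hmin' : ∀ L', Valid P' m L' → ordv (val m L) ≤ ordv (val m L')) : Nonempty (P ≃+ P') := by
  obtain ⟨h, h1, h2, h3⟩ := hv
  obtain ⟨h', h1', h2', h3'⟩ := hv'
  have k := ker_of_min h1 h3 fun a b hab hh => hmin _ ⟨h, h1, h2, fun p hp => by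
    rcases List.mem_cons.1 hp with rfl | hp
    · exact ⟨a, b, rfl, hab, hh⟩
    · exact h3 p hp⟩
  have k' := ker_of_min h1' h3' fun a b hab hh => hmin' _ ⟨h', h1', h2', fun p hp => by
    rcases List.mem_cons.1 hp with rfl | hp
    · exact ⟨a, b, rfl, hab, hh⟩
    · exact h3' p hp⟩
  exact equiv_of_ker h1 h1' h2 h2' fun a b => (k a b).trans (k' a b).symm

/-! ### Validity is c.e. -/

/-- value of a word, on lists -/
def combL (k m : ℕ) (τ : List (List ℕ)) (a : List ℕ) : List ℕ :=
  (List.range k).map fun i => qsum m fun j => a.getD j 0 * (τ.getD j []).getD i 0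

/-- unit vectors -/
def unitL (k i : ℕ) : List ℕ := (List.range k).map fun j => bif decide (j = i) then 1 else 0

lemma combL_eq {k m : ℕ} (τ : Fin m → FS k) (T : List (List ℕ))
    (hT : ∀ j : Fin m, T.getD j [] = vec (τ j)) (a : FS m) :
    combL k m T (vec a) = vec (comb τ a) := by
  apply list_ext (k := k) (by simp [combL]) (vec_length _)
  intro i hi
  unfold combL
  rw [List.getD_eq_getElem _ _ (by simpa using hi)]
  simp only [List.getElem_map, List.getElem_range]
  have h1 := vec_getD (comb τ a) ⟨i, hi⟩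
  simp only at h1
  rw [h1, qsum_eq]
  show _ = ∑ j, a.1 j * (τ j).1 ⟨i, hi⟩
  rw [Finset.sum_range]
  apply Finset.sum_congr rfl
  intro j _
  rw [vec_getD, hT j]
  have h2 := vec_getD (τ j) ⟨i, hi⟩
  simp only at h2
  rw [h2]

lemma unitL_eq {k : ℕ} (i : Fin k) : unitL k i = vec (gen i) := by
  apply list_ext (k := k) (by simp [unitL]) (vec_length _)
  intro j hj
  unfold unitL
  rw [List.getD_eq_getElem _ _ (by simpa using hj)]
  simp only [List.getElem_map, List.getElem_range]
  have h1 := vec_getD (gen i) ⟨j, hj⟩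
  simp only at h1
  rw [h1]
  show _ = (Pi.single i 1 : Fin k → ℕ) ⟨j, hj⟩
  by_cases hij : j = i
  · have : (⟨j, hj⟩ : Fin k) = i := Fin.ext hij
    rw [this, Pi.single_eq_same]
    simp [hij]
  · have : (⟨j, hj⟩ : Fin k) ≠ i := fun h => hij (congrArg Fin.val h)
    rw [Pi.single_eq_of_ne this]
    simp [hij]

/-- list version of validity -/
def validL (k e m : ℕ) (L : List (List ℕ × List ℕ)) : Prop :=
  ∃ T : List (List ℕ), (qall m fun j => isV k (T.getD j [])) = true ∧
    (∀ l < L.length, ((isV m (L.getD l ([], [])).1 && isV m (L.getD l ([], [])).2) &&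
      lexlt m (L.getD l ([], [])).2 (L.getD l ([], [])).1) = true ∧
      ReflTransGen (stp k e) (combL k m T (L.getD l ([], [])).1)
        (combL k m T (L.getD l ([], [])).2)) ∧
    ∀ i < k, ∃ g : List ℕ, isV m g = true ∧ ReflTransGen (stp k e) (combL k m T g) (unitL k i)

lemma valid_iff {k e m : ℕ} {L : List (List ℕ × List ℕ)} :
    Valid (con k e).Quotient m L ↔ validL k e m L := by
  have heq : ∀ u v : FS k, ((u : (con k e).Quotient) = v) ↔ con k e u v := fun u v => (con k e).eq
  constructor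
  · rintro ⟨h, h1, h2, h3⟩
    have hrep : ∀ j, ∃ u : FS k, (u : (con k e).Quotient) = h (gen j) := fun j =>
      Quot.exists_rep (h (gen j))
    choose τ hτ using hrep
    have hh : ∀ a, h a = ((comb τ a : FS k) : (con k e).Quotient) := by
      apply hom_ext h1
      · intro a b
        rw [comb_add]; rfl
      · intro j
        rw [comb_gen]; exact (hτ j).symm
    have hT : ∀ j : Fin m, (List.ofFn fun j => vec (τ j)).getD j [] = vec (τ j) := by
      intro j
      rw [List.getD_eq_getElem _ _ (by simp)]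
      simp
    refine ⟨List.ofFn fun j => vec (τ j), ?_, fun l hl => ?_, fun i hi => ?_⟩
    · rw [qall_iff]
      intro j hj
      have := hT ⟨j, hj⟩
      simp only at this
      rw [this, isV_iff]
      exact ⟨_, rfl⟩
    · rw [List.getD_eq_getElem _ _ hl]
      obtain ⟨a, b, h4, h5, h6⟩ := h3 _ (List.getElem_mem hl)
      rw [h4]
      simp only [Bool.and_eq_true]
      refine ⟨⟨⟨isV_iff.2 ⟨a, rfl⟩, isV_iff.2 ⟨b, rfl⟩⟩, (lexlt_iff b a).2 h5⟩, ?_⟩
      rw [combL_eq τ _ hT, combL_eq τ _ hT, ← con_iff, ← heq, ← hh, ← hh]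
      exact h6
    · obtain ⟨a, ha⟩ := h2 ((gen ⟨i, hi⟩ : FS k) : (con k e).Quotient)
      refine ⟨vec a, isV_iff.2 ⟨a, rfl⟩, ?_⟩
      have e1 := unitL_eq (⟨i, hi⟩ : Fin k)
      simp only at e1
      rw [combL_eq τ _ hT, e1, ← con_iff, ← heq, ← hh]
      exact ha
  · rintro ⟨T, h1, h2, h3⟩
    rw [qall_iff] at h1
    have hτ : ∀ j : Fin m, ∃ u : FS k, vec u = T.getD j [] := fun j => isV_iff.1 (h1 j j.2)
    choose τ hτ using hτ
    have hT : ∀ j : Fin m, T.getD j [] = vec (τ j) := fun j => (hτ j).symm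
    have hadd : ∀ a b : FS m, ((comb τ (a + b) : FS k) : (con k e).Quotient) =
        (comb τ a : FS k) + (comb τ b : FS k) := by
      intro a b
      rw [comb_add]; rfl
    refine ⟨fun a => ((comb τ a : FS k) : (con k e).Quotient), hadd, ?_, ?_⟩
    · have hg : ∀ i : Fin k, ∃ g : FS m, ((comb τ g : FS k) : (con k e).Quotient) = (gen i : FS k) := by
        intro i
        obtain ⟨g, h4, h5⟩ := h3 i i.2
        obtain ⟨g, rfl⟩ := isV_iff.1 h4
        rw [combL_eq τ _ hT, unitL_eq i, ← con_iff, ← heq] at h5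
        exact ⟨g, h5⟩
      choose g hg using hg
      intro x
      obtain ⟨u, rfl⟩ := Quot.exists_rep x
      refine ⟨comb g u, ?_⟩
      have := hom_ext (f := fun u : FS k => ((comb τ (comb g u) : FS k) : (con k e).Quotient))
        (g := fun u : FS k => (u : (con k e).Quotient)) (by
          intro a b
          rw [comb_add]; exact hadd _ _) (fun a b => rfl) (by
          intro j
          rw [comb_gen]; exact hg j) u
      exact this
    · intro p hp
      obtain ⟨l, hl, rfl⟩ := List.getElem_of_mem hp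
      obtain ⟨h4, h5⟩ := h2 l hl
      rw [List.getD_eq_getElem _ _ hl] at h4 h5
      simp only [Bool.and_eq_true] at h4
      obtain ⟨⟨h6, h7⟩, h8⟩ := h4
      obtain ⟨a, ha⟩ := isV_iff.1 h6
      obtain ⟨b, hb⟩ := isV_iff.1 h7
      rw [← ha, ← hb] at h8 h5
      refine ⟨a, b, Prod.ext ha.symm hb.symm, (lexlt_iff b a).1 h8, ?_⟩
      rw [combL_eq τ _ hT, combL_eq τ _ hT, ← con_iff, ← heq] at h5
      exact h5

end Pool.Agent.R557.CS
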