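import Mathlib

set_option autoImplicit false

/-! Bounded quantifiers, counting and sums preserve primitive recursion. -/

namespace Pool.Agent.R557.CS

open Finset

/-- bounded universal quantifier -/
def qall (n : ℕ) (f : ℕ → Bool) : Bool := Nat.rec true (fun i r => r && f i) n
/-- bounded existential quantifier -/
def qex (n : ℕ) (f : ℕ → Bool) : Bool := Nat.rec false (fun i r => r || f i) n
/-- bounded sum -/
def qsum (n : ℕ) (f : ℕ → ℕ) : ℕ := Nat.rec 0 (fun i r => r + f i) n
/-- bounded count -/
def qcnt (n : ℕ) (f : ℕ → Bool) : ℕ := Nat.rec 0 (fun i r => r + bif f i then 1 else 0) n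

lemma qall_iff (n : ℕ) (f : ℕ → Bool) : qall n f = true ↔ ∀ i < n, f i = true := by
  induction n with
  | zero => simp [qall]
  | succ n ih =>
    have : qall (n + 1) f = (qall n f && f n) := rfl
    rw [this, Bool.and_eq_true, ih]
    constructor
    · rintro ⟨h1, h2⟩ i hi
      rcases Nat.lt_succ_iff_lt_or_eq.1 hi with h | rfl
      · exact h1 i h
      · exact h2
    · intro h
      exact ⟨fun i hi => h i (by omega), h n (by omega)⟩

lemma qex_iff (n : ℕ) (f : ℕ → Bool) : qex n f = true ↔ ∃ i < n, f i = true := by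
  induction n with
  | zero => simp [qex]
  | succ n ih =>
    have : qex (n + 1) f = (qex n f || f n) := rfl
    rw [this, Bool.or_eq_true, ih]
    constructor
    · rintro (⟨i, h1, h2⟩ | h)
      · exact ⟨i, by omega, h2⟩
      · exact ⟨n, by omega, h⟩
    · rintro ⟨i, h1, h2⟩
      rcases Nat.lt_succ_iff_lt_or_eq.1 h1 with h | rfl
      · exact Or.inl ⟨i, h, h2⟩
      · exact Or.inr h2

lemma qsum_eq (n : ℕ) (f : ℕ → ℕ) : qsum n f = ∑ i ∈ range n, f i := by
  induction n with
  | zero => rfl
  | succ n ih => rw [sum_range_succ, ← ih]; rfl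

lemma qcnt_eq (n : ℕ) (f : ℕ → Bool) : qcnt n f = ((range n).filter (fun i => f i = true)).card := by
  induction n with
  | zero => rfl
  | succ n ih =>
    have : qcnt (n + 1) f = qcnt n f + bif f n then 1 else 0 := rfl
    rw [this, ih, range_add_one, filter_insert]
    cases h : f n
    · simp
    · simp

section
variable {α : Type*} [Primcodable α]

lemma p_qall {n : α → ℕ} {f : α → ℕ → Bool} (hn : Primrec n) (hf : Primrec₂ f) :
    Primrec fun a => qall (n a) (f a) := by
  unfold qall
  exact Primrec.nat_rec' (f := n) (g := fun _ => true) (h := fun a p => p.2 && f a p.1) hn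
    (Primrec.const true)
    (Primrec.and.comp (Primrec.snd.comp Primrec.snd)
      (hf.comp Primrec.fst (Primrec.fst.comp Primrec.snd)))

lemma p_qex {n : α → ℕ} {f : α → ℕ → Bool} (hn : Primrec n) (hf : Primrec₂ f) :
    Primrec fun a => qex (n a) (f a) := by
  unfold qex
  exact Primrec.nat_rec' (f := n) (g := fun _ => false) (h := fun a p => p.2 || f a p.1) hn
    (Primrec.const false)
    (Primrec.or.comp (Primrec.snd.comp Primrec.snd)
      (hf.comp Primrec.fst (Primrec.fst.comp Primrec.snd)))

lemma p_qsum {n : α → ℕ} {f : α → ℕ → ℕ} (hn : Primrec n) (hf : Primrec₂ f) :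
    Primrec fun a => qsum (n a) (f a) := by
  unfold qsum
  exact Primrec.nat_rec' (f := n) (g := fun _ => 0) (h := fun a p => p.2 + f a p.1) hn
    (Primrec.const 0)
    (Primrec.nat_add.comp (Primrec.snd.comp Primrec.snd)
      (hf.comp Primrec.fst (Primrec.fst.comp Primrec.snd)))

lemma p_qcnt {n : α → ℕ} {f : α → ℕ → Bool} (hn : Primrec n) (hf : Primrec₂ f) :
    Primrec fun a => qcnt (n a) (f a) := by
  unfold qcnt
  exact Primrec.nat_rec' (f := n) (g := fun _ => 0)
    (h := fun a p => p.2 + bif f a p.1 then 1 else 0) hn (Primrec.const 0)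
    (Primrec.nat_add.comp (Primrec.snd.comp Primrec.snd)
      (Primrec.cond (hf.comp Primrec.fst (Primrec.fst.comp Primrec.snd)) (Primrec.const 1)
        (Primrec.const 0)))

lemma p_add {f g : α → ℕ} (hf : Primrec f) (hg : Primrec g) : Primrec fun a => f a + g a :=
  Primrec.nat_add.comp hf hg
lemma p_sub {f g : α → ℕ} (hf : Primrec f) (hg : Primrec g) : Primrec fun a => f a - g a :=
  Primrec.nat_sub.comp hf hg
lemma p_mul {f g : α → ℕ} (hf : Primrec f) (hg : Primrec g) : Primrec fun a => f a * g a :=
  Primrec.nat_mul.comp hf hg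
lemma p_lt {f g : α → ℕ} (hf : Primrec f) (hg : Primrec g) : Primrec fun a => decide (f a < g a) :=
  Primrec.nat_lt.decide.comp hf hg
lemma p_le {f g : α → ℕ} (hf : Primrec f) (hg : Primrec g) : Primrec fun a => decide (f a ≤ g a) :=
  Primrec.nat_le.decide.comp hf hg
lemma p_eq {β : Type*} [Primcodable β] [DecidableEq β] {f g : α → β} (hf : Primrec f)
    (hg : Primrec g) : Primrec fun a => decide (f a = g a) :=
  (Primrec.eq (α := β)).decide.comp hf hg
lemma p_and {f g : α → Bool} (hf : Primrec f) (hg : Primrec g) : Primrec fun a => (f a && g a) :=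
  Primrec.and.comp hf hg
lemma p_or {f g : α → Bool} (hf : Primrec f) (hg : Primrec g) : Primrec fun a => (f a || g a) :=
  Primrec.or.comp hf hg
lemma p_not {f : α → Bool} (hf : Primrec f) : Primrec fun a => !(f a) := Primrec.not.comp hf
lemma p_getD {l : α → List ℕ} {i : α → ℕ} (hl : Primrec l) (hi : Primrec i) :
    Primrec fun a => (l a).getD (i a) 0 := (Primrec.list_getD 0).comp hl hi

end

end Pool.Agent.R557.CS
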