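import Pool.Agent.R557.PJCover
import Pool.Agent.R557.CSBox

set_option autoImplicit false

/-! Closure properties of c.e. predicates. -/

namespace Pool.Agent.R557.CS

open Pool.Agent.R557.PJ (re_stage c_map)
open Pool.Agent.H166R3.AT (c_add c_mul c_sub c_div c_mod c_pow c_sum c_le c_lt c_eq c_and c_or
  c_not c_count ball ball_iff c_ball bex bex_iff c_bex)

section
variable {α : Type*} [Primcodable α]

/-- a computable monotone stage function -/
lemma re_mono {p : α → Prop} (hp : REPred p) :
    ∃ g : α → ℕ → Bool, Computable₂ g ∧ (∀ a s t, s ≤ t → g a s = true → g a t = true) ∧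
      ∀ a, p a ↔ ∃ s, g a s = true := by
  obtain ⟨g, hg, h⟩ := re_stage hp
  refine ⟨fun a s => bex (s + 1) fun s' => g a s', ?_, ?_, ?_⟩
  · refine c_bex (n := fun q : α × ℕ => q.2 + 1) (f := fun q s' => g q.1 s')
      (c_add Computable.snd (Computable.const 1)) ?_
    exact hg.comp (Computable.fst.comp Computable.fst) Computable.snd
  · intro a s t hst h1
    rw [bex_iff] at h1 ⊢
    obtain ⟨s', h2, h3⟩ := h1
    exact ⟨s', by omega, h3⟩
  · intro a
    rw [h a]
    constructor
    · rintro ⟨s, hs⟩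
      exact ⟨s, by rw [bex_iff]; exact ⟨s, by omega, hs⟩⟩
    · rintro ⟨s, hs⟩
      rw [bex_iff] at hs
      obtain ⟨s', _, h3⟩ := hs
      exact ⟨s', h3⟩

lemma re_of_stage {p : α → Prop} {g : α → ℕ → Bool} (hg : Computable₂ g)
    (h : ∀ a, p a ↔ ∃ s, g a s = true) : REPred p := by
  have h1 : Partrec fun a => Nat.rfind fun s => Part.some (g a s) :=
    Partrec.rfind hg.partrec₂
  refine (h1.dom_re).of_eq fun a => ?_
  rw [h a]
  refine (Nat.rfind_dom (p := fun s => Part.some (g a s))).trans ?_
  constructor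
  · rintro ⟨s, hs, _⟩
    exact ⟨s, by simpa using hs⟩
  · rintro ⟨s, hs⟩
    exact ⟨s, by simpa using hs, fun _ => by simp⟩

lemma re_bool {f : α → Bool} (hf : Computable f) : REPred fun a => f a = true :=
  re_of_stage (g := fun a _ => f a) (hf.comp Computable.fst) fun a =>
    ⟨fun h => ⟨0, h⟩, fun ⟨_, h⟩ => h⟩

lemma re_and {p q : α → Prop} (hp : REPred p) (hq : REPred q) : REPred fun a => p a ∧ q a := by
  obtain ⟨g, hg, hm, h⟩ := re_mono hp
  obtain ⟨g', hg', hm', h'⟩ := re_mono hq
  refine re_of_stage (g := fun a s => g a s && g' a s) (c_and hg hg') fun a => ?_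
  rw [h a, h' a]
  constructor
  · rintro ⟨⟨s, hs⟩, t, ht⟩
    refine ⟨max s t, ?_⟩
    rw [Bool.and_eq_true]
    exact ⟨hm a s _ (le_max_left _ _) hs, hm' a t _ (le_max_right _ _) ht⟩
  · rintro ⟨s, hs⟩
    rw [Bool.and_eq_true] at hs
    exact ⟨⟨s, hs.1⟩, s, hs.2⟩

lemma re_or {p q : α → Prop} (hp : REPred p) (hq : REPred q) : REPred fun a => p a ∨ q a := by
  obtain ⟨g, hg, hm, h⟩ := re_mono hp
  obtain ⟨g', hg', hm', h'⟩ := re_mono hq
  refine re_of_stage (g := fun a s => g a s || g' a s) (c_or hg hg') fun a => ?_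
  rw [h a, h' a]
  constructor
  · rintro (⟨s, hs⟩ | ⟨t, ht⟩)
    · exact ⟨s, by rw [Bool.or_eq_true]; exact Or.inl hs⟩
    · exact ⟨t, by rw [Bool.or_eq_true]; exact Or.inr ht⟩
  · rintro ⟨s, hs⟩
    rw [Bool.or_eq_true] at hs
    rcases hs with hs | hs
    · exact Or.inl ⟨s, hs⟩
    · exact Or.inr ⟨s, hs⟩

lemma re_comp {β : Type*} [Primcodable β] {p : β → Prop} (hp : REPred p) {f : α → β}
    (hf : Computable f) : REPred fun a => p (f a) := by
  have h2 := Partrec.comp (f := fun b => Part.assert (p b) fun _ => Part.some ()) hp hf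
  exact h2

lemma re_ball {p : α → ℕ → Prop} (hp : REPred fun q : α × ℕ => p q.1 q.2) {n : α → ℕ}
    (hn : Computable n) : REPred fun a => ∀ i < n a, p a i := by
  obtain ⟨g, hg, hm, h⟩ := re_mono hp
  refine re_of_stage (g := fun a s => ball (n a) fun i => g (a, i) s) ?_ fun a => ?_
  · refine c_ball (n := fun q : α × ℕ => n q.1) (f := fun q i => g (q.1, i) q.2)
      (hn.comp Computable.fst) ?_
    exact hg.comp (Computable.pair (Computable.fst.comp Computable.fst) Computable.snd)
      (Computable.snd.comp Computable.fst)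
  · constructor
    · intro h1
      have h2 : ∀ i, ∃ s, i < n a → g (a, i) s = true := by
        intro i
        by_cases hi : i < n a
        · obtain ⟨s, hs⟩ := (h (a, i)).1 (h1 i hi)
          exact ⟨s, fun _ => hs⟩
        · exact ⟨0, fun h => absurd h hi⟩
      choose σ hσ using h2
      refine ⟨∑ i ∈ Finset.range (n a), σ i, ?_⟩
      rw [ball_iff]
      intro i hi
      refine hm _ _ _ ?_ (hσ i hi)
      exact Finset.single_le_sum (f := σ) (fun _ _ => Nat.zero_le _) (Finset.mem_range.2 hi)
    · rintro ⟨s, hs⟩ i hi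
      rw [ball_iff] at hs
      exact (h (a, i)).2 ⟨s, hs i hi⟩

lemma re_exN {p : α → ℕ → Prop} (hp : REPred fun q : α × ℕ => p q.1 q.2) :
    REPred fun a => ∃ i, p a i := by
  obtain ⟨g, hg, hm, h⟩ := re_mono hp
  refine re_of_stage (g := fun a s => bex s fun i => g (a, i) s) ?_ fun a => ?_
  · refine c_bex (n := fun q : α × ℕ => q.2) (f := fun q i => g (q.1, i) q.2) Computable.snd ?_
    exact hg.comp (Computable.pair (Computable.fst.comp Computable.fst) Computable.snd)
      (Computable.snd.comp Computable.fst)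
  · constructor
    · rintro ⟨i, hi⟩
      obtain ⟨s, hs⟩ := (h (a, i)).1 hi
      refine ⟨max (i + 1) s, ?_⟩
      rw [bex_iff]
      exact ⟨i, by omega, hm _ _ _ (le_max_right _ _) hs⟩
    · rintro ⟨s, hs⟩
      rw [bex_iff] at hs
      obtain ⟨i, _, h1⟩ := hs
      exact ⟨i, (h (a, i)).2 ⟨s, h1⟩⟩

lemma re_ex {γ : Type*} [Denumerable γ] {p : α → γ → Prop}
    (hp : REPred fun q : α × γ => p q.1 q.2) : REPred fun a => ∃ i, p a i := by
  have h1 : REPred fun q : α × ℕ => p q.1 (Denumerable.ofNat γ q.2) := by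
    exact re_comp (f := fun q : α × ℕ => (q.1, Denumerable.ofNat γ q.2)) hp
      (Computable.pair Computable.fst ((Primrec.ofNat γ).to_comp.comp Computable.snd))
  refine (re_exN (p := fun a i => p a (Denumerable.ofNat γ i)) h1).of_eq fun a => ?_
  constructor
  · rintro ⟨i, hi⟩
    exact ⟨_, hi⟩
  · rintro ⟨x, hx⟩
    exact ⟨Encodable.encode x, by simpa using hx⟩

/-- reflexive transitive closures -/
lemma re_rtg {β : Type} [Denumerable β] [DecidableEq β] {R : α → β → β → Prop}
    (hR : REPred fun q : α × (β × β) => R q.1 q.2.1 q.2.2) (d : β) :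
    REPred fun q : α × (β × β) => Relation.ReflTransGen (R q.1) q.2.1 q.2.2 := by
  have key : ∀ (a : α) (x y : β), Relation.ReflTransGen (R a) x y ↔ ∃ w : List β × ℕ,
      (decide (w.1.getD 0 d = x) = true ∧ decide (w.1.getD w.2 d = y) = true) ∧
        ∀ i < w.2, R a (w.1.getD i d) (w.1.getD (i + 1) d) := by
    intro a x y
    constructor
    · intro h
      induction h using Relation.ReflTransGen.head_induction_on with
      | refl => exact ⟨([y], 0), by simp, fun i hi => by simp at hi⟩
      | @head x z hxz _ ih =>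
        obtain ⟨⟨w, n⟩, ⟨h1, h2⟩, h3⟩ := ih
        simp only [decide_eq_true_eq] at h1 h2 h3
        refine ⟨(x :: w, n + 1), ⟨by simp, by simpa using h2⟩, fun i hi => ?_⟩
        rcases Nat.eq_zero_or_pos i with rfl | hi0
        · simp only [List.getD_cons_zero, zero_add, List.getD_cons_succ]
          rw [h1]; exact hxz
        · obtain ⟨i, rfl⟩ : ∃ i', i = i' + 1 := ⟨i - 1, by omega⟩
          simp only [List.getD_cons_succ]
          exact h3 i (by simpa using hi)
    · rintro ⟨⟨w, n⟩, ⟨h1, h2⟩, h3⟩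
      simp only [decide_eq_true_eq] at h1 h2 h3
      rw [← h1, ← h2]
      have : ∀ j ≤ n, Relation.ReflTransGen (R a) (w.getD 0 d) (w.getD j d) := by
        intro j hj
        induction j with
        | zero => exact Relation.ReflTransGen.refl
        | succ j ih => exact (ih (by omega)).tail (h3 j (by omega))
      exact this n le_rfl
  have cg : Computable₂ fun (l : List β) (n : ℕ) => l.getD n d := (Primrec.list_getD d).to_comp
  have ceq : ∀ {f g : (α × (β × β)) × (List β × ℕ) → β}, Computable f → Computable g →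
      Computable fun q => decide (f q = g q) := by
    intro f g hf hg
    exact (Primrec.eq (α := β)).decide.to_comp.comp hf hg
  have c1 : Computable fun q : (α × (β × β)) × (List β × ℕ) => q.2.1 :=
    Computable.fst.comp Computable.snd
  have c2 : Computable fun q : (α × (β × β)) × (List β × ℕ) => q.2.2 :=
    Computable.snd.comp Computable.snd
  refine (re_ex (γ := List β × ℕ) (p := fun (q : α × (β × β)) w =>
    (decide (w.1.getD 0 d = q.2.1) = true ∧ decide (w.1.getD w.2 d = q.2.2) = true) ∧
        ∀ i < w.2, R q.1 (w.1.getD i d) (w.1.getD (i + 1) d)) ?_).of_eq fun q => (key _ _ _).symm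
  refine re_and (re_and (re_bool (ceq (cg.comp c1 (Computable.const 0))
    (Computable.fst.comp (Computable.snd.comp Computable.fst))))
    (re_bool (ceq (cg.comp c1 c2) (Computable.snd.comp (Computable.snd.comp Computable.fst))))) ?_
  refine re_ball (p := fun (q : (α × (β × β)) × (List β × ℕ)) i =>
    R q.1.1 (q.2.1.getD i d) (q.2.1.getD (i + 1) d)) ?_ c2
  refine re_comp (f := fun q : ((α × (β × β)) × (List β × ℕ)) × ℕ =>
    (q.1.1.1, (q.1.2.1.getD q.2 d, q.1.2.1.getD (q.2 + 1) d))) hR ?_
  exact Computable.pair (Computable.fst.comp (Computable.fst.comp Computable.fst))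
    (Computable.pair (cg.comp (c1.comp Computable.fst) Computable.snd)
      (cg.comp (c1.comp Computable.fst) (Computable.succ.comp Computable.snd)))

end

/-- membership in the `e`-th c.e. set is c.e. -/
lemma re_We : REPred fun q : ℕ × ℕ => q.2 ∈ We q.1 := by
  have h1 : Partrec fun q : ℕ × ℕ => (Denumerable.ofNat Nat.Partrec.Code q.1).eval q.2 :=
    Nat.Partrec.Code.eval_part.comp ((Primrec.ofNat Nat.Partrec.Code).to_comp.comp Computable.fst)
      Computable.snd
  exact h1.dom_re

/-- uniformly c.e. sets have computable indices -/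
lemma re_index {p : ℕ → ℕ → Prop} (hp : REPred fun q : ℕ × ℕ => p q.1 q.2) :
    ∃ f : ℕ → ℕ, Computable f ∧ ∀ a x, x ∈ We (f a) ↔ p a x := by
  obtain ⟨c, hc⟩ := Nat.Partrec.Code.exists_code.1 hp
  refine ⟨fun a => Encodable.encode (c.curry a), ?_, fun a x => ?_⟩
  · exact Computable.encode.comp ((Nat.Partrec.Code.primrec₂_curry.comp (Primrec.const c)
      Primrec.id).to_comp)
  · unfold We
    rw [Set.mem_ofPred_eq, Denumerable.ofNat_encode, Nat.Partrec.Code.eval_curry, hc]
    simp [Part.assert]

end Pool.Agent.R557.CS
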