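import Pool.Agent.R557.DSEnd

set_option autoImplicit false

/-! A computable coding of the rational points exists. -/

namespace Pool.Agent.R557.DS

open Pool.Agent.R557.CK (exists_str)
open Pool.Agent.H166R3.AT (c_and)

lemma c_rat_eq : Computable₂ fun (a : (ℤ × ℕ) × (ℤ × ℕ)) (j : ℕ) =>
    decide (rat j = (valF a.1, valF a.2)) := by
  have hj1 : CQ fun p : ((ℤ × ℕ) × (ℤ × ℕ)) × ℕ => (rat p.2).1 := CQ.rat1 Computable.snd
  have hj2 : CQ fun p : ((ℤ × ℕ) × (ℤ × ℕ)) × ℕ => (rat p.2).2 := CQ.rat2 Computable.snd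
  have h1 : CQ fun p : ((ℤ × ℕ) × (ℤ × ℕ)) × ℕ => valF p.1.1 :=
    CQ.of_F (Computable.fst.comp Computable.fst) fun _ => rfl
  have h2 : CQ fun p : ((ℤ × ℕ) × (ℤ × ℕ)) × ℕ => valF p.1.2 :=
    CQ.of_F (Computable.snd.comp Computable.fst) fun _ => rfl
  refine (c_and (c_and (CQ.le hj1 h1) (CQ.le h1 hj1)) (c_and (CQ.le hj2 h2) (CQ.le h2 hj2))).of_eq
    fun p => ?_
  rw [Bool.eq_iff_iff]
  simp only [Bool.and_eq_true, decide_eq_true_eq]
  rw [Prod.ext_iff]
  simp only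
  constructor
  · rintro ⟨⟨h1, h2⟩, h3, h4⟩
    exact ⟨le_antisymm h1 h2, le_antisymm h3 h4⟩
  · rintro ⟨h1, h2⟩
    exact ⟨⟨h1.le, h1.ge⟩, h2.le, h2.ge⟩

theorem exists_coding : ∃ c : ℚ × ℚ → List Bool, IsCoding c := by
  obtain ⟨str, hs⟩ := exists_str
  refine ⟨fun q => str (jq q), ?_, ?_⟩
  · intro q q' h
    have h1 : jq q = jq q' := str.injective h
    rw [← rat_jq q, ← rat_jq q', h1]
  · have h1 : Partrec (fun a : (ℤ × ℕ) × (ℤ × ℕ) =>
        Nat.rfind (fun n => Part.some (decide (rat n = (valF a.1, valF a.2))))) :=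
      Partrec.rfind c_rat_eq.partrec₂
    have h2 : ∀ a : (ℤ × ℕ) × (ℤ × ℕ), Nat.rfind (fun n => Part.some (decide (rat n =
        (valF a.1, valF a.2)))) = Part.some (jq (valF a.1, valF a.2)) := by
      intro a
      apply Part.eq_some_iff.2
      refine (Nat.mem_rfind (p := fun n => Part.some (decide (rat n =
        (valF a.1, valF a.2))))).2 ⟨?_, ?_⟩
      · simp [rat_jq]
      · intro m hm
        rw [Part.mem_some_iff]
        symm
        rw [decide_eq_false_iff_not]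
        exact lt_jq hm
    have h3 : Computable (fun a : (ℤ × ℕ) × (ℤ × ℕ) => jq (valF a.1, valF a.2)) := h1.of_eq h2
    exact hs.comp h3

end Pool.Agent.R557.DS
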