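import Pool.Agent.R557.DSPoly

set_option autoImplicit false

/-! Many simple points on the graph make the point over `0` simple. -/

namespace Pool.Agent.R557.DS

open Finset Real
open Pool.Agent.Helper981.KP (IsKP)
open Pool.Agent.R557.CK (c_ite' c_pair)
open Pool.Agent.H166R3.AT (c_add c_mul c_sub c_div c_mod c_pow c_sum c_le c_lt c_eq c_and c_or
  c_not c_count ball ball_iff c_ball)

/-- the pair of fractions coded by a number -/
def rep (j : ℕ) : (ℤ × ℕ) × (ℤ × ℕ) := Denumerable.ofNat ((ℤ × ℕ) × (ℤ × ℕ)) j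

/-- the pair of rationals coded by a number -/
def rat (j : ℕ) : ℚ × ℚ := (valF (rep j).1, valF (rep j).2)

lemma c_rep : Computable rep := (Primrec.ofNat ((ℤ × ℕ) × (ℤ × ℕ))).to_comp

lemma rep_encode (p : (ℤ × ℕ) × (ℤ × ℕ)) : rep (Encodable.encode p) = p := by
  unfold rep; exact Denumerable.ofNat_encode p

lemma exists_valF (q : ℚ) : ∃ p : ℤ × ℕ, valF p = q := by
  refine ⟨(q.num, q.den - 1), ?_⟩
  unfold valF
  have h1 : (1 : ℕ) ≤ q.den := q.pos
  push_cast [Nat.cast_sub h1]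
  rw [sub_add_cancel]
  exact Rat.num_div_den q

lemma exists_rat (q : ℚ × ℚ) : ∃ j, rat j = q := by
  obtain ⟨p1, h1⟩ := exists_valF q.1
  obtain ⟨p2, h2⟩ := exists_valF q.2
  refine ⟨Encodable.encode (p1, p2), ?_⟩
  unfold rat
  rw [rep_encode, h1, h2]

/-- the least code of a pair of rationals -/
noncomputable def jq (q : ℚ × ℚ) : ℕ := sInf {j | rat j = q}

lemma rat_jq (q : ℚ × ℚ) : rat (jq q) = q := Nat.sInf_mem (s := {j | rat j = q}) (exists_rat q)

lemma lt_jq {q : ℚ × ℚ} {j : ℕ} (h : j < jq q) : rat j ≠ q := fun he => by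
  have : jq q ≤ j := Nat.sInf_le (s := {j | rat j = q}) he
  omega

section
variable {α : Type*} [Primcodable α]

lemma CQ.rat1 {j : α → ℕ} (hj : Computable j) : CQ fun a => (rat (j a)).1 :=
  CQ.of_F (Computable.fst.comp (c_rep.comp hj)) fun _ => rfl

lemma CQ.rat2 {j : α → ℕ} (hj : Computable j) : CQ fun a => (rat (j a)).2 :=
  CQ.of_F (Computable.snd.comp (c_rep.comp hj)) fun _ => rfl

end

/-- the value computed from a tuple of points -/
def LL (m r e : ℕ) : ℚ := Lg (2 * m + 1) (fun i => tau r (rat (nth e i)).1)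
  (fun i => (rat (nth e i)).2 * (1 + tau r (rat (nth e i)).1 ^ 2) ^ m)

lemma CQ_LL (m : ℕ) : CQ fun q : ℕ × ℕ => LL m q.1 q.2 := by
  unfold LL Lg
  have hn : Computable fun p : (ℕ × ℕ) × ℕ => nth p.1.2 p.2 :=
    c_nth (Computable.snd.comp Computable.fst) Computable.snd
  have ht : CQ fun p : (ℕ × ℕ) × ℕ => tau p.1.1 (rat (nth p.1.2 p.2)).1 :=
    CQ.tau (Computable.fst.comp Computable.fst) (CQ.rat1 hn)
  refine CQ.sum (α := ℕ × ℕ) (n := fun _ => 2 * m + 1)
    (f := fun q i => (rat (nth q.2 i)).2 * (1 + tau q.1 (rat (nth q.2 i)).1 ^ 2) ^ m *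
      ∏ j ∈ range (2 * m + 1), (if j = i then 1 else tau q.1 (rat (nth q.2 j)).1 /
        (tau q.1 (rat (nth q.2 j)).1 - tau q.1 (rat (nth q.2 i)).1))) (Computable.const _) ?_
  refine ((CQ.rat2 hn).mul (((CQ.const 1).add (ht.pow 2)).pow m)).mul ?_
  refine CQ.prod (α := (ℕ × ℕ) × ℕ) (n := fun _ => 2 * m + 1)
    (f := fun p j => (if j = p.2 then 1 else tau p.1.1 (rat (nth p.1.2 j)).1 /
        (tau p.1.1 (rat (nth p.1.2 j)).1 - tau p.1.1 (rat (nth p.1.2 p.2)).1)))
    (Computable.const _) ?_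
  have h1 : Computable fun p : ((ℕ × ℕ) × ℕ) × ℕ => (p.1.1, p.2) :=
    Computable.pair (Computable.fst.comp Computable.fst) Computable.snd
  have ht' : CQ fun p : ((ℕ × ℕ) × ℕ) × ℕ => tau p.1.1.1 (rat (nth p.1.1.2 p.2)).1 :=
    ht.comp (h := fun p : ((ℕ × ℕ) × ℕ) × ℕ => (p.1.1, p.2)) h1
  exact CQ.ite (c_eq Computable.snd (Computable.snd.comp Computable.fst)) (CQ.const 1)
    (ht'.div (ht'.sub (ht.comp (h := fun p : ((ℕ × ℕ) × ℕ) × ℕ => p.1) Computable.fst)))

/-- the precision of the output -/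
def r' (N M r : ℕ) : ℕ := r - (N + 1) * (r / M)

/-- the integer computed from a tuple of points -/
def VV (m M B r e : ℕ) : ℕ := ⌊2 ^ r' (2 * m + 1) M r * (LL m r e + B)⌋₊

lemma c_r' (N M : ℕ) : Computable fun r => r' N M r :=
  c_sub Computable.id (c_mul (Computable.const _) (c_div Computable.id (Computable.const _)))

lemma c_VV (m M B : ℕ) : Computable fun q : ℕ × ℕ => VV m M B q.1 q.2 := by
  unfold VV
  refine CQ.floor (f := fun q : ℕ × ℕ => 2 ^ r' (2 * m + 1) M q.1 * (LL m q.1 q.2 + B)) ?_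
  exact (CQ.two_pow ((c_r' (2 * m + 1) M).comp Computable.fst)).mul
    ((CQ_LL m).add (CQ.const (B : ℚ)))

/-- the code of the rational point computed -/
def jv (ρ B v : ℕ) : ℕ := Encodable.encode
  ((((0 : ℤ), (0 : ℕ)), ((v : ℤ) - ((B * 2 ^ ρ : ℕ) : ℤ), 2 ^ ρ - 1)) : (ℤ × ℕ) × (ℤ × ℕ))

lemma rat_jv (ρ B v : ℕ) : rat (jv ρ B v) = ((0 : ℚ), (v / 2 ^ ρ - B : ℚ)) := by
  unfold rat jv
  rw [rep_encode]
  unfold valF
  have h1 : (1 : ℕ) ≤ 2 ^ ρ := Nat.one_le_two_pow
  have h2 : (2 : ℚ) ^ ρ ≠ 0 := by positivity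
  simp only [Prod.mk.injEq]
  refine ⟨by simp, ?_⟩
  push_cast [Nat.cast_sub h1]
  rw [sub_add_cancel, sub_div, mul_div_assoc, div_self h2, mul_one]

lemma c_jv {α : Type*} [Primcodable α] {ρ v : α → ℕ} (hρ : Computable ρ) (hv : Computable v) (B : ℕ) :
    Computable fun a => jv (ρ a) B (v a) := by
  unfold jv
  have h2 : Computable fun a => 2 ^ ρ a := c_pow (Computable.const 2) hρ
  exact Computable.encode.comp (Computable.pair (Computable.const ((0 : ℤ), (0 : ℕ)))
    (Computable.pair (z_sub' hv (c_mul (Computable.const B) h2)) (c_sub h2 (Computable.const 1))))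

/-- a finite set of naturals enumerated with gaps -/
lemma spread (A : Finset ℕ) : ∃ α : ℕ → ℕ, (∀ i < A.card, α i ∈ A) ∧
    ∀ i j, i ≤ j → j < A.card → α i + (j - i) ≤ α j := by
  refine ⟨fun i => if h : i < A.card then A.orderEmbOfFin rfl ⟨i, h⟩ else 0, fun i hi => ?_,
    fun i j hij hj => ?_⟩
  · simp only [hi, dif_pos]
    exact Finset.orderEmbOfFin_mem A rfl _
  · induction j, hij using Nat.le_induction with
    | base => simp
    | succ n hn ih =>
      have h1 := ih (by omega)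
      have h2 : n < A.card := by omega
      have h3 : (A.orderEmbOfFin rfl ⟨n, h2⟩ : ℕ) < A.orderEmbOfFin rfl ⟨n + 1, hj⟩ :=
        (A.orderEmbOfFin rfl).strictMono (by simp)
      simp only [h2, hj, dif_pos] at h1 ⊢
      omega

lemma arctan_lip {a b : ℝ} (ha : 0 ≤ a) (hb : 0 ≤ b) : |arctan a - arctan b| ≤ |a - b| := by
  rcases lt_trichotomy a b with h | h | h
  · obtain ⟨h1, h2⟩ := arctan_diff ha h
    have h3 : (b - a) / (1 + a ^ 2) ≤ b - a := div_le_self (sub_pos.2 h).le (by nlinarith)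
    have h4 : 0 ≤ (b - a) / (1 + b ^ 2) := div_nonneg (sub_pos.2 h).le (by positivity)
    rw [abs_sub_comm, abs_sub_comm a b, abs_of_nonneg (by linarith), abs_of_pos (sub_pos.2 h)]
    linarith
  · rw [h]; simp
  · obtain ⟨h1, h2⟩ := arctan_diff hb h
    have h3 : (a - b) / (1 + b ^ 2) ≤ a - b := div_le_self (sub_pos.2 h).le (by nlinarith)
    have h4 : 0 ≤ (a - b) / (1 + a ^ 2) := div_nonneg (sub_pos.2 h).le (by positivity)
    rw [abs_of_nonneg (by linarith), abs_of_pos (sub_pos.2 h)]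
    linarith

end Pool.Agent.R557.DS
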