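import Pool.Agent.R557.DSFin
import Pool.Agent.R557.CKStr
import Pool.Agent.R557.CKFin

set_option autoImplicit false

/-! The dimension spectrum of the graph of a trigonometric polynomial is not a singleton. -/

namespace Pool.Agent.R557.DS

open Finset Real MeasureTheory Filter
open Pool.Agent.Helper981.KP (IsKP)
open Pool.Agent.TH676.CK (OptPFree cx isKP_cx)
open Pool.Agent.R557.CK (exists_str computable_symm)
open Pool.Agent.H166R3.AT (c_add c_mul c_sub c_div c_mod c_pow c_eq c_and c_lt)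

/-- the point over `0` has complexity at most `r + r / M + O(1)` -/
lemma zero_upper {K : ℕ → ℕ} (hK : IsKP K) (w : ℕ → ℕ) (hw : Computable w)
    (hwr : ∀ j j', w j = w j' ↔ rat j = rat j') (y : ℝ) (M : ℕ) (hM : 0 < M) :
    ∃ c : ℕ, ∀ r : ℕ, ∃ q : ℚ, |(q : ℝ) - y| < (1 / 2) ^ r ∧
      K (w (jq ((0 : ℚ), q))) ≤ r + r / M + c := by
  classical
  obtain ⟨B, hB⟩ := exists_nat_ge (|y| + 1)
  set P : ℕ → ℕ → ℕ → Bool := fun u r st =>
    decide (u = w (jv r B st)) && decide (st < 2 ^ (r + 2 * B)) with hP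
  have hPc : Computable fun q : ℕ × ℕ × ℕ => P q.1 q.2.1 q.2.2 := by
    have cr : Computable fun q : ℕ × ℕ × ℕ => q.2.1 := Computable.fst.comp Computable.snd
    have cs : Computable fun q : ℕ × ℕ × ℕ => q.2.2 := Computable.snd.comp Computable.snd
    exact c_and (c_eq Computable.fst (hw.comp (c_jv cr cs B)))
      (c_lt cs (c_pow (Computable.const 2) (c_add cr (Computable.const _))))
  obtain ⟨c, hc⟩ := enum_le hK M hM P hPc (fun r => r + 2 * B)
    (c_add Computable.id (Computable.const _)) (by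
      intro r W σ hW
      have h1 : W.card ≤ (range (2 ^ (r + 2 * B))).card := by
        apply Finset.card_le_card_of_injOn σ
        · intro u hu
          have := hW u hu
          simp only [hP, Bool.and_eq_true, decide_eq_true_eq] at this
          rw [Finset.mem_coe, mem_range]
          exact this.2
        · intro u hu v hv huv
          have h2 := hW u hu
          have h3 := hW v hv
          simp only [hP, Bool.and_eq_true, decide_eq_true_eq] at h2 h3
          rw [h2.1, h3.1, huv]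
      rwa [card_range] at h1)
  refine ⟨2 * B + c, fun r => ?_⟩
  have hp : (0 : ℝ) < 2 ^ r := by positivity
  have h1 : (1 : ℝ) ≤ 2 ^ r := one_le_pow₀ (by norm_num)
  have h2 : 1 ≤ y + B := by have := neg_abs_le y; linarith
  have h2' : y + B ≤ 2 * B := by have := le_abs_self y; linarith
  set z : ℝ := 2 ^ r * (y + B) with hz
  have hz0 : 0 ≤ z := by rw [hz]; positivity
  set v := ⌊z⌋₊ with hv
  have hv1 : (v : ℝ) ≤ z := Nat.floor_le hz0
  have hv2 : z < v + 1 := Nat.lt_floor_add_one z
  refine ⟨v / 2 ^ r - B, ?_, ?_⟩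
  · push_cast
    have e : (v : ℝ) / 2 ^ r - B - y = (v - z) / 2 ^ r := by rw [hz]; field_simp; ring
    rw [e, abs_div, abs_of_pos hp, one_div_pow]
    apply div_lt_div_of_pos_right _ hp
    rw [abs_lt]; constructor <;> linarith
  · have h3 : w (jq ((0 : ℚ), (v / 2 ^ r - B : ℚ))) = w (jv r B v) := by
      rw [hwr, rat_jq, rat_jv]
    rw [h3]
    have h4 : v < 2 ^ (r + 2 * B) := by
      have h5 : (v : ℝ) < 2 ^ (r + 2 * B) := by
        have h6 : ((2 * B : ℕ) : ℝ) < 2 ^ (2 * B) := by exact_mod_cast (Nat.lt_two_pow_self)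
        push_cast at h6
        rw [pow_add]
        calc (v : ℝ) ≤ 2 ^ r * (y + B) := hv1
          _ ≤ 2 ^ r * (2 * B) := mul_le_mul_of_nonneg_left h2' hp.le
          _ < 2 ^ r * 2 ^ (2 * B) := mul_lt_mul_of_pos_left h6 hp
      exact_mod_cast h5
    have h5 := hc (w (jv r B v)) r v (by
      simp only [hP, decide_true, Bool.true_and, decide_eq_true_eq]
      exact h4)
    omega

theorem main (U : List Bool →. List Bool) (hU : OptPFree U) (c : ℚ × ℚ → List Bool)
    (hc : IsCoding c) (m : ℕ) (a b : ℕ → ℝ) :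
    ∃ x y : ℝ, edim U c x (tp m a b x) ≠ edim U c y (tp m a b y) := by
  classical
  obtain ⟨str, hs⟩ := exists_str
  have hsym := computable_symm str hs
  set K : ℕ → ℕ := fun n => cx U (str n) with hKd
  have hK : IsKP K := isKP_cx hU str hs
  set w : ℕ → ℕ := fun j => str.symm (c (rat j)) with hwd
  have hw : Computable w := hsym.comp (hc.2.comp c_rep)
  have hwr : ∀ j j', w j = w j' ↔ rat j = rat j' := by
    intro j j'
    constructor
    · intro h; exact hc.1 (str.symm.injective h)
    · intro h; simp only [hwd, h]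
  have hKw : ∀ q, K (w (jq q)) = cx U (c q) := by
    intro q
    simp only [hKd, hwd, Equiv.apply_symm_apply, rat_jq]
  set N := 2 * m + 1 with hN
  set M := 8 * (2 * N + 1) with hM
  have hM0 : 0 < M := by omega
  -- finitely many simple points
  have hfin : ∀ s : ℕ, ∃ Q : Finset (ℚ × ℚ), (∀ q, cx U (c q) ≤ s → q ∈ Q) ∧ Q.card ≤ 2 ^ s := by
    intro s
    have hcard : ∀ Q : Finset (ℚ × ℚ), (∀ q ∈ Q, cx U (c q) ≤ s) → Q.card ≤ 2 ^ s := by
      intro Q hQ
      have hinj : Function.Injective (fun q : ℚ × ℚ => str.symm (c q)) :=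
        str.symm.injective.comp hc.1
      rw [← Finset.card_image_of_injective Q hinj]
      apply card_kp hK
      intro n hn
      rw [mem_image] at hn
      obtain ⟨q, hq, rfl⟩ := hn
      simp only [hKd, Equiv.apply_symm_apply]
      exact hQ q hq
    have hf : {q : ℚ × ℚ | cx U (c q) ≤ s}.Finite := by
      by_contra hinf
      obtain ⟨Q, hQ, hQc⟩ := Set.Infinite.exists_subset_card_eq hinf (2 ^ s + 1)
      have := hcard Q (fun q hq => hQ hq)
      omega
    refine ⟨hf.toFinset, fun q hq => ?_, hcard _ fun q hq => ?_⟩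
    · rw [Set.Finite.mem_toFinset]; exact hq
    · rw [Set.Finite.mem_toFinset] at hq; exact hq
  -- the blocks with simple points
  set A : ℕ → Finset ℕ := fun r => (range (2 ^ r)).filter (fun n => ∃ (x : ℝ) (q : ℚ × ℚ),
      (n : ℝ) / 2 ^ r ≤ x ∧ x < (n + 1) / 2 ^ r ∧ |(q.1 : ℝ) - x| ≤ 1 / 2 ^ r ∧
        |(q.2 : ℝ) - tp m a b x| ≤ 1 / 2 ^ r ∧ K (w (jq q)) ≤ r + r / M) with hA
  by_cases hcase : ∃ᶠ r in atTop, 2 ^ (r - r / M) ≤ (A r).card
  · -- the point over `0` has small dimension
    obtain ⟨c₀, r₁, hcore⟩ := core hK w hw hwr m a b M (by omega)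
    have h0 : edim U c 0 (tp m a b 0) ≤ ((1 / 2 : ℝ) : EReal) := by
      apply edim_le
      rw [frequently_atTop] at hcase ⊢
      intro R
      obtain ⟨r, hr, hAr⟩ := hcase (r₁ + 4 * (c₀ + 1) + 2 * R + 16)
      obtain ⟨y, hy, hKy⟩ := hcore r (by omega) (A r) (by
        intro n hn
        rw [hA] at hn
        simp only [mem_filter, mem_range] at hn
        exact hn) hAr
      have hε : 8 * ((2 * N + 1) * (r / M)) ≤ r := by
        have h1 := Nat.mul_div_le r M
        have h2 : 8 * ((2 * N + 1) * (r / M)) = M * (r / M) := by rw [hM]; ring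
        omega
      have hε2 : (N + 1) * (r / M) ≤ (2 * N + 1) * (r / M) := Nat.mul_le_mul_right _ (by omega)
      have hr' : r' N M r + (N + 1) * (r / M) = r := by
        unfold r'; omega
      have hρ : r' N M r - 2 + 2 = r' N M r := by omega
      refine ⟨r' N M r - 2, by omega, ?_⟩
      have hnear : |(y : ℝ) - tp m a b 0| < (1 / 2) ^ (r' N M r - 2) := by
        refine lt_of_le_of_lt hy ?_
        rw [← hN]
        have h1 : (2 : ℝ) ^ r' N M r = 2 ^ (r' N M r - 2) * 2 ^ 2 := by rw [← pow_add, hρ]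
        have h2 : (0 : ℝ) < 2 ^ (r' N M r - 2) := by positivity
        rw [h1, one_div_pow, div_lt_div_iff₀ (by positivity) h2]
        nlinarith
      have hKr : Kr U c (r' N M r - 2) 0 (tp m a b 0) ≤ (2 * N + 1) * (r / M) + c₀ := by
        refine (Kr_le (near_zero hnear)).trans ?_
        rw [← hKw]
        exact hKy
      rw [div_le_iff₀ (by
        have : 0 < r' N M r - 2 := by omega
        exact_mod_cast this)]
      have h3 : 2 * Kr U c (r' N M r - 2) 0 (tp m a b 0) ≤ r' N M r - 2 := by omega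
      have h4 : (2 : ℝ) * (Kr U c (r' N M r - 2) 0 (tp m a b 0) : ℝ) ≤ ((r' N M r - 2 : ℕ) : ℝ) := by
        exact_mod_cast h3
      linarith
    -- almost every point has large dimension
    obtain ⟨x, -, hx⟩ := bc M hM0 (fun r => {x : ℝ | Kr U c r x (tp m a b x) ≤ r - r / M}) (by
      filter_upwards with r
      obtain ⟨Q, hQ, hQc⟩ := hfin (r - r / M)
      have hsub : {x : ℝ | Kr U c r x (tp m a b x) ≤ r - r / M} ⊆
          ⋃ q ∈ Q, Set.Icc ((q.1 : ℝ) - 1 / 2 ^ r) (q.1 + 1 / 2 ^ r) := by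
        intro x hx
        simp only [Set.mem_ofPred_eq] at hx
        obtain ⟨q, hq, hqK⟩ := exists_of_Kr (U := U) (c := c) r x (tp m a b x)
        rw [← hqK] at hx
        have h1 := (near_coord hq).1
        rw [abs_le] at h1
        simp only [Set.mem_iUnion]
        exact ⟨q, hQ q hx, by constructor <;> linarith⟩
      refine (measure_mono hsub).trans ((measure_biUnion_finset_le _ _).trans ?_)
      have h2 : ∀ q ∈ Q, volume (Set.Icc ((q.1 : ℝ) - 1 / 2 ^ r) (q.1 + 1 / 2 ^ r)) =
          ENNReal.ofReal (2 * (1 / 2 ^ r)) := by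
        intro q _
        rw [Real.volume_Icc]
        congr 1
        ring
      rw [Finset.sum_congr rfl h2, Finset.sum_const, nsmul_eq_mul, ← ENNReal.ofReal_natCast,
        ← ENNReal.ofReal_mul (Nat.cast_nonneg _)]
      apply ENNReal.ofReal_le_ofReal
      have h3 : (Q.card : ℝ) ≤ 2 ^ (r - r / M) := by exact_mod_cast hQc
      have h4 : (2 : ℝ) ^ (r - r / M) * 2 ^ (r / M) = 2 ^ r := by
        rw [← pow_add, Nat.sub_add_cancel (Nat.div_le_self r M)]
      calc (Q.card : ℝ) * (2 * (1 / 2 ^ r)) ≤ 2 ^ (r - r / M) * (2 * (1 / 2 ^ r)) :=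
            mul_le_mul_of_nonneg_right h3 (by positivity)
        _ = 2 * (1 / 2) ^ (r / M) := by
            rw [← h4, one_div_pow]; field_simp)
    refine ⟨x, 0, ?_⟩
    have h1 : ((3 / 4 : ℝ) : EReal) ≤ edim U c x (tp m a b x) := by
      apply le_edim
      filter_upwards [hx, eventually_gt_atTop 0] with r hr hr0
      simp only [not_le] at hr
      rw [le_div_iff₀ (by exact_mod_cast hr0)]
      have h2 : 8 * (r / M) ≤ r := by
        have h3 := Nat.mul_div_le r M
        have h4 : 8 * (r / M) ≤ M * (r / M) := Nat.mul_le_mul_right _ (by omega)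
        omega
      have h3 : 3 * r ≤ 4 * Kr U c r x (tp m a b x) := by omega
      have h4 : (3 : ℝ) * r ≤ 4 * (Kr U c r x (tp m a b x) : ℝ) := by exact_mod_cast h3
      linarith
    intro heq
    rw [heq] at h1
    have h2 := h1.trans h0
    have h3 : (3 / 4 : ℝ) ≤ 1 / 2 := EReal.coe_le_coe_iff.1 h2
    norm_num at h3
  · -- almost every point has dimension larger than `1`
    rw [not_frequently] at hcase
    obtain ⟨c₀, hup⟩ := zero_upper hK w hw hwr (tp m a b 0) (4 * M) (by omega)
    have hMr : (0 : ℝ) < M := by exact_mod_cast hM0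
    have h0 : edim U c 0 (tp m a b 0) ≤ ((1 + 3 / (8 * M) : ℝ) : EReal) := by
      apply edim_le
      apply Eventually.frequently
      filter_upwards [eventually_ge_atTop (8 * M * c₀ + 1)] with r hr
      obtain ⟨q, hq, hqK⟩ := hup r
      have hKr : Kr U c r 0 (tp m a b 0) ≤ r + r / (4 * M) + c₀ := by
        refine (Kr_le (near_zero hq)).trans ?_
        rw [← hKw]
        exact hqK
      rw [div_le_iff₀ (by
        have : 0 < r := by omega
        exact_mod_cast this)]
      have h1 : (Kr U c r 0 (tp m a b 0) : ℝ) ≤ r + ((r / (4 * M) : ℕ) : ℝ) + c₀ := by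
        exact_mod_cast hKr
      have h2 : ((r / (4 * M) : ℕ) : ℝ) ≤ (r : ℝ) / ((4 * M : ℕ) : ℝ) := Nat.cast_div_le
      push_cast at h2
      have h3 : (8 : ℝ) * M * c₀ + 1 ≤ r := by exact_mod_cast hr
      have h4 : (c₀ : ℝ) ≤ r / (8 * M) := by
        rw [le_div_iff₀ (by positivity)]
        linarith
      have h5 : (1 + 3 / (8 * (M : ℝ))) * r = r + r / (4 * M) + r / (8 * M) := by
        field_simp; ring
      linarith
    obtain ⟨x, hx01, hx⟩ := bc M hM0
      (fun r => {x : ℝ | x ∈ Set.Ico (0 : ℝ) 1 ∧ Kr U c r x (tp m a b x) ≤ r + r / M}) (by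
      filter_upwards [hcase] with r hr
      rw [not_le] at hr
      have hsub : {x : ℝ | x ∈ Set.Ico (0 : ℝ) 1 ∧ Kr U c r x (tp m a b x) ≤ r + r / M} ⊆
          ⋃ n ∈ A r, Set.Ico ((n : ℝ) / 2 ^ r) ((n + 1) / 2 ^ r) := by
        intro x hx
        simp only [Set.mem_ofPred_eq] at hx
        obtain ⟨⟨hx0, hx1⟩, hxK⟩ := hx
        obtain ⟨q, hq, hqK⟩ := exists_of_Kr (U := U) (c := c) r x (tp m a b x)
        rw [← hqK, ← hKw] at hxK
        obtain ⟨h1, h1'⟩ := near_coord hq
        have hp : (0 : ℝ) < 2 ^ r := by positivity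
        have h2 : (⌊x * 2 ^ r⌋₊ : ℝ) ≤ x * 2 ^ r := Nat.floor_le (by positivity)
        have h3 : x * 2 ^ r < ⌊x * 2 ^ r⌋₊ + 1 := Nat.lt_floor_add_one _
        have h4 : ((⌊x * 2 ^ r⌋₊ : ℝ)) / 2 ^ r ≤ x := by rwa [div_le_iff₀ hp]
        have h5 : x < ((⌊x * 2 ^ r⌋₊ : ℝ) + 1) / 2 ^ r := by rwa [lt_div_iff₀ hp]
        simp only [Set.mem_iUnion]
        refine ⟨⌊x * 2 ^ r⌋₊, ?_, h4, h5⟩
        rw [hA]
        simp only [mem_filter, mem_range]
        refine ⟨?_, x, q, h4, h5, h1, h1', hxK⟩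
        have h6 : (⌊x * 2 ^ r⌋₊ : ℝ) < 2 ^ r := by nlinarith
        exact_mod_cast h6
      refine (measure_mono hsub).trans ((measure_biUnion_finset_le _ _).trans ?_)
      have h2 : ∀ n ∈ A r, volume (Set.Ico ((n : ℝ) / 2 ^ r) ((n + 1) / 2 ^ r)) =
          ENNReal.ofReal (1 / 2 ^ r) := by
        intro n _
        rw [Real.volume_Ico]
        congr 1
        ring
      rw [Finset.sum_congr rfl h2, Finset.sum_const, nsmul_eq_mul, ← ENNReal.ofReal_natCast,
        ← ENNReal.ofReal_mul (Nat.cast_nonneg _)]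
      apply ENNReal.ofReal_le_ofReal
      have h3 : ((A r).card : ℝ) ≤ 2 ^ (r - r / M) := by exact_mod_cast hr.le
      have h4 : (2 : ℝ) ^ (r - r / M) * 2 ^ (r / M) = 2 ^ r := by
        rw [← pow_add, Nat.sub_add_cancel (Nat.div_le_self r M)]
      have h5 : (0 : ℝ) < 2 ^ (r - r / M) := by positivity
      have h6 : (0 : ℝ) < 2 ^ (r / M) := by positivity
      calc ((A r).card : ℝ) * (1 / 2 ^ r) ≤ 2 ^ (r - r / M) * (1 / 2 ^ r) :=
            mul_le_mul_of_nonneg_right h3 (by positivity)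
        _ = (1 / 2) ^ (r / M) := by
            rw [← h4, one_div_pow]; field_simp
        _ ≤ 2 * (1 / 2) ^ (r / M) := by
            have : (0 : ℝ) ≤ (1 / 2) ^ (r / M) := by positivity
            linarith)
    refine ⟨x, 0, ?_⟩
    have h1 : ((1 + 1 / (2 * M) : ℝ) : EReal) ≤ edim U c x (tp m a b x) := by
      apply le_edim
      filter_upwards [hx, eventually_ge_atTop (2 * M)] with r hr hr0
      simp only [not_and, not_le] at hr
      have h2 := hr hx01
      have hrpos : (0 : ℝ) < r := by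
        have : 0 < r := by omega
        exact_mod_cast this
      rw [le_div_iff₀ hrpos]
      have h3 : r < M * (r / M) + M := Nat.lt_mul_div_succ r hM0
      have h4 : (r : ℝ) ≤ M * ((r / M : ℕ) : ℝ) + M := by exact_mod_cast h3.le
      have h5 : (r : ℝ) + ((r / M : ℕ) : ℝ) + 1 ≤ (Kr U c r x (tp m a b x) : ℝ) := by
        exact_mod_cast h2
      have h6 : (1 + 1 / (2 * (M : ℝ))) * r = r + r / (2 * M) := by ring
      have h7 : (r : ℝ) / (2 * M) ≤ ((r / M : ℕ) : ℝ) + 1 := by
        rw [div_le_iff₀ (by positivity)]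
        nlinarith
      linarith
    intro heq
    rw [heq] at h1
    have h2 := h1.trans h0
    have h3 : (1 + 1 / (2 * M) : ℝ) ≤ 1 + 3 / (8 * M) := EReal.coe_le_coe_iff.1 h2
    have h4 : (1 : ℝ) / (2 * M) ≤ 3 / (8 * M) := by linarith
    rw [div_le_div_iff₀ (by positivity) (by positivity)] at h4
    nlinarith

end Pool.Agent.R557.DS
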