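import Pool.Agent.R557.CKBase

set_option autoImplicit false

/-! Prefix complexity of objects that are enumerated in small groups. -/

namespace Pool.Agent.R557.DS

open Finset
open Pool.Agent.Helper981.KP (USC Kraft IsKP approx_le finite_of_kraft half_pow_le)
open Pool.Agent.R557.CK (c_ite' c_pair)
open Pool.Agent.H166R3.AT (c_add c_mul c_sub c_div c_mod c_pow c_sum c_le c_lt c_eq c_and c_or
  c_not c_count ball ball_iff c_ball)

lemma sum_wt (M : ℕ) (hM : 0 < M) (n : ℕ) : ∑ r ∈ range n, ((1 : ℝ) / 2) ^ (r / M) ≤ 2 * M := by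
  have key : ∀ k : ℕ, ∑ r ∈ range (M * k), ((1 : ℝ) / 2) ^ (r / M) = 2 * M * (1 - (1 / 2) ^ k) := by
    intro k
    induction k with
    | zero => simp
    | succ k ih =>
      rw [Nat.mul_succ, Finset.sum_range_add, ih]
      have h1 : ∑ j ∈ range M, ((1 : ℝ) / 2) ^ ((M * k + j) / M) = M * (1 / 2) ^ k := by
        rw [Finset.sum_congr rfl (g := fun _ => ((1 : ℝ) / 2) ^ k)]
        · rw [Finset.sum_const, card_range, nsmul_eq_mul]
        · intro j hj
          rw [mem_range] at hj
          rw [Nat.mul_add_div hM, Nat.div_eq_of_lt hj, add_zero]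
      rw [h1, pow_succ]
      ring
  have h1 : ∑ r ∈ range n, ((1 : ℝ) / 2) ^ (r / M) ≤ ∑ r ∈ range (M * n), ((1 : ℝ) / 2) ^ (r / M) := by
    apply Finset.sum_le_sum_of_subset_of_nonneg _ (fun _ _ _ => by positivity)
    intro d hd
    rw [mem_range] at hd ⊢
    exact lt_of_lt_of_le hd (Nat.le_mul_of_pos_left n hM)
  rw [key] at h1
  refine h1.trans ?_
  have h2 : (0 : ℝ) ≤ (1 / 2) ^ n := by positivity
  have h3 : (0 : ℝ) ≤ M := Nat.cast_nonneg M
  nlinarith

/-- objects enumerated in groups of size `2 ^ ℓ r` have complexity at most `ℓ r + r / M + O(1)` -/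
lemma enum_le {K : ℕ → ℕ} (hK : IsKP K) (M : ℕ) (hM : 0 < M) (P : ℕ → ℕ → ℕ → Bool)
    (hP : Computable fun q : ℕ × ℕ × ℕ => P q.1 q.2.1 q.2.2) (ℓ : ℕ → ℕ) (hℓ : Computable ℓ)
    (hc : ∀ (r : ℕ) (U : Finset ℕ) (σ : ℕ → ℕ), (∀ u ∈ U, P u r (σ u) = true) →
      U.card ≤ 2 ^ ℓ r) :
    ∃ c : ℕ, ∀ u r st, P u r st = true → K u ≤ ℓ r + r / M + c := by
  classical
  set g : ℕ → ℕ → ℕ := fun u t => if P u t.unpair.1 t.unpair.2 = true then
    ℓ t.unpair.1 + t.unpair.1 / M + 4 * M else u + 2 with hg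
  have hgc : Computable₂ g := by
    have p1 : Computable (fun p : ℕ × ℕ => p.2.unpair.1) :=
      Computable.fst.comp (Computable.unpair.comp Computable.snd)
    have p2 : Computable (fun p : ℕ × ℕ => p.2.unpair.2) :=
      Computable.snd.comp (Computable.unpair.comp Computable.snd)
    refine c_ite' (p := fun q : ℕ × ℕ => P q.1 q.2.unpair.1 q.2.unpair.2 = true) ?_
      (c_add (c_add (hℓ.comp p1) (c_div p1 (Computable.const M))) (Computable.const _))
      (c_add Computable.fst (Computable.const 2))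
    refine (hP.comp (Computable.pair Computable.fst (Computable.pair p1 p2))).of_eq fun q => ?_
    simp
  obtain ⟨c, hc'⟩ := approx_le hK g hgc (by
    intro U τ
    rw [← Finset.sum_filter_add_sum_filter_not U
      (fun u => P u (τ u).unpair.1 (τ u).unpair.2 = true)]
    have h1 : ∑ u ∈ U.filter (fun u => ¬ P u (τ u).unpair.1 (τ u).unpair.2 = true),
        ((1 : ℝ) / 2) ^ (g u (τ u)) ≤ 1 / 2 := by
      have h2 : ∀ u ∈ U.filter (fun u => ¬ P u (τ u).unpair.1 (τ u).unpair.2 = true),
          ((1 : ℝ) / 2) ^ (g u (τ u)) = (1 / 2) ^ (u + 2) := by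
        intro u hu
        simp only [hg, if_neg (mem_filter.1 hu).2]
      rw [Finset.sum_congr rfl h2]
      have h4 : U.filter (fun u => ¬ P u (τ u).unpair.1 (τ u).unpair.2 = true) ⊆
          range (U.sup id + 1) := by
        intro u hu
        rw [mem_range]
        have := Finset.le_sup (f := id) (mem_filter.1 hu).1
        simp only [id] at this
        omega
      refine (Finset.sum_le_sum_of_subset_of_nonneg h4 (fun _ _ _ => by positivity)).trans ?_
      have h5 := sum_geometric_two_le (U.sup id + 1)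
      calc ∑ u ∈ range (U.sup id + 1), ((1 : ℝ) / 2) ^ (u + 2) =
          (1 / 4) * ∑ u ∈ range (U.sup id + 1), ((1 : ℝ) / 2) ^ u := by
            rw [Finset.mul_sum]
            apply Finset.sum_congr rfl
            intro u _
            rw [pow_add]; ring
        _ ≤ 1 / 2 := by linarith
    have h2 : ∑ u ∈ U.filter (fun u => P u (τ u).unpair.1 (τ u).unpair.2 = true),
        ((1 : ℝ) / 2) ^ (g u (τ u)) ≤ 1 / 2 := by
      set R := U.sup (fun u => (τ u).unpair.1) + 1 with hR
      have hmaps : ∀ u ∈ U.filter (fun u => P u (τ u).unpair.1 (τ u).unpair.2 = true),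
          (τ u).unpair.1 ∈ range R := by
        intro u hu
        rw [mem_range, hR]
        exact Nat.lt_succ_of_le (Finset.le_sup (f := fun u => (τ u).unpair.1) (mem_filter.1 hu).1)
      rw [← Finset.sum_fiberwise_of_maps_to hmaps]
      have h3 : ∀ r ∈ range R, ∑ u ∈ (U.filter
          (fun u => P u (τ u).unpair.1 (τ u).unpair.2 = true)).filter
          (fun u => (τ u).unpair.1 = r), ((1 : ℝ) / 2) ^ (g u (τ u)) ≤
            (1 / 2) ^ (4 * M) * (1 / 2) ^ (r / M) := by
        intro r _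
        have h4 : ∀ u ∈ (U.filter (fun u => P u (τ u).unpair.1 (τ u).unpair.2 = true)).filter
            (fun u => (τ u).unpair.1 = r), ((1 : ℝ) / 2) ^ (g u (τ u)) =
              (1 / 2) ^ (ℓ r + r / M + 4 * M) := by
          intro u hu
          rw [mem_filter, mem_filter] at hu
          simp only [hg, if_pos hu.1.2, hu.2]
        rw [Finset.sum_congr rfl h4, Finset.sum_const, nsmul_eq_mul]
        have h5 := hc r ((U.filter (fun u => P u (τ u).unpair.1 (τ u).unpair.2 = true)).filter
            (fun u => (τ u).unpair.1 = r)) (fun u => (τ u).unpair.2) (by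
              intro u hu
              rw [mem_filter, mem_filter] at hu
              have := hu.1.2
              rwa [hu.2] at this)
        have h6 : ((((U.filter (fun u => P u (τ u).unpair.1 (τ u).unpair.2 = true)).filter
            (fun u => (τ u).unpair.1 = r)).card : ℕ) : ℝ) ≤ 2 ^ ℓ r := by exact_mod_cast h5
        have h7 : (2 : ℝ) ^ ℓ r * (1 / 2) ^ ℓ r = 1 := by rw [← mul_pow]; norm_num
        calc _ ≤ (2 : ℝ) ^ ℓ r * (1 / 2) ^ (ℓ r + r / M + 4 * M) :=
              mul_le_mul_of_nonneg_right h6 (by positivity)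
          _ = (2 ^ ℓ r * (1 / 2) ^ ℓ r) * ((1 / 2) ^ (4 * M) * (1 / 2) ^ (r / M)) := by
              rw [pow_add, pow_add]; ring
          _ = _ := by rw [h7, one_mul]
      refine (Finset.sum_le_sum h3).trans ?_
      rw [← Finset.mul_sum]
      have h4 := sum_wt M hM R
      have h5 : ((4 * M : ℕ) : ℝ) ≤ 2 ^ (4 * M) := by
        exact_mod_cast (Nat.lt_two_pow_self (n := 4 * M)).le
      have h6 : (2 : ℝ) ^ (4 * M) * (1 / 2) ^ (4 * M) = 1 := by rw [← mul_pow]; norm_num
      have h7 : (0 : ℝ) ≤ (1 / 2) ^ (4 * M) := by positivity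
      push_cast at h5
      calc ((1 : ℝ) / 2) ^ (4 * M) * ∑ r ∈ range R, ((1 : ℝ) / 2) ^ (r / M) ≤
          (1 / 2) ^ (4 * M) * (2 * M) := mul_le_mul_of_nonneg_left h4 h7
        _ ≤ 1 / 2 := by nlinarith
    linarith)
  refine ⟨4 * M + c, fun u r st h => ?_⟩
  have h1 := hc' u (Nat.pair r st)
  simp only [hg, Nat.unpair_pair, h, if_true] at h1
  omega

/-- few objects are simple -/
lemma card_kp {K : ℕ → ℕ} (hK : IsKP K) (s : ℕ) (W : Finset ℕ) (h : ∀ w ∈ W, K w ≤ s) :
    W.card ≤ 2 ^ s := by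
  have h1 := finite_of_kraft hK.2.1 W
  have h2 : (W.card : ℝ) * (1 / 2) ^ s ≤ 1 := by
    calc (W.card : ℝ) * (1 / 2) ^ s = ∑ w ∈ W, ((1 : ℝ) / 2) ^ s := by
          rw [Finset.sum_const, nsmul_eq_mul]
      _ ≤ ∑ w ∈ W, ((1 : ℝ) / 2) ^ K w := Finset.sum_le_sum fun w hw => half_pow_le (h w hw)
      _ ≤ 1 := h1
  have h3 : (2 : ℝ) ^ s * (1 / 2) ^ s = 1 := by rw [← mul_pow]; norm_num
  have h4 : (W.card : ℝ) ≤ 2 ^ s := by
    have h5 : (0 : ℝ) < (1 / 2) ^ s := by positivity
    by_contra hlt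
    push Not at hlt
    have := mul_lt_mul_of_pos_right hlt h5
    linarith
  exact_mod_cast h4

/-- the list coded by a number -/
def lst (e : ℕ) : List ℕ := Denumerable.ofNat (List ℕ) e

/-- the entries of the list coded by a number -/
def nth (e i : ℕ) : ℕ := (lst e).getD i 0

lemma c_lst {α : Type*} [Primcodable α] {f : α → ℕ} (hf : Computable f) :
    Computable fun a => lst (f a) := (Primrec.ofNat (List ℕ)).to_comp.comp hf

lemma c_nth {α : Type*} [Primcodable α] {f g : α → ℕ} (hf : Computable f) (hg : Computable g) :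
    Computable fun a => nth (f a) (g a) := by
  have h : Primrec₂ (fun (l : List ℕ) (i : ℕ) => l.getD i 0) := Primrec.list_getD 0
  exact h.to_comp.comp (c_lst hf) hg

lemma exists_lst (N : ℕ) (x : ℕ → ℕ) : ∃ e, (lst e).length = N ∧ ∀ i < N, nth e i = x i := by
  refine ⟨Encodable.encode ((List.range N).map x), ?_, ?_⟩
  · simp [lst]
  · intro i hi
    simp [nth, lst, hi]

lemma nth_ext {N e e' : ℕ} (h : (lst e).length = N) (h' : (lst e').length = N)
    (hx : ∀ i < N, nth e i = nth e' i) : e = e' := by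
  have h1 : lst e = lst e' := by
    apply List.ext_getElem (by rw [h, h'])
    intro i hi hi'
    have := hx i (by omega)
    unfold nth at this
    rw [List.getD_eq_getElem _ _ hi, List.getD_eq_getElem _ _ hi'] at this
    exact this
  have h2 := congrArg Encodable.encode h1
  simpa [lst] using h2

section heavy
variable (a : ℕ → ℕ → ℕ) (w : ℕ → ℕ) (Φ : ℕ → ℕ → ℕ) (N : ℕ) (s : ℕ → ℕ)

/-- the tuple `e` is found at stage `st` and gives the value `u` -/
def gd (u r st e : ℕ) : Bool :=
  (decide ((lst e).length = N) && ball N (fun i => decide (a (w (nth e i)) st ≤ s r) &&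
    ball (nth e i) (fun j => !decide (w j = w (nth e i))))) && decide (Φ r e = u)

lemma gd_iff {u r st e : ℕ} : gd a w Φ N s u r st e = true ↔ (lst e).length = N ∧
    (∀ i < N, a (w (nth e i)) st ≤ s r ∧ ∀ j < nth e i, w j ≠ w (nth e i)) ∧ Φ r e = u := by
  unfold gd
  rw [Bool.and_eq_true, Bool.and_eq_true, ball_iff]
  simp only [decide_eq_true_eq, Bool.and_eq_true, ball_iff, Bool.not_eq_true', decide_eq_false_iff_not,
    ne_eq]
  tauto

variable {a w Φ s}

lemma c_gd (ha : Computable₂ a) (hw : Computable w) (hΦ : Computable₂ Φ) (hs : Computable s) :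
    Computable fun q : (ℕ × ℕ × ℕ) × ℕ => gd a w Φ N s q.1.1 q.1.2.1 q.1.2.2 q.2 := by
  have cu : Computable (fun q : (ℕ × ℕ × ℕ) × ℕ => q.1.1) := Computable.fst.comp Computable.fst
  have cr : Computable (fun q : (ℕ × ℕ × ℕ) × ℕ => q.1.2.1) :=
    Computable.fst.comp (Computable.snd.comp Computable.fst)
  have cst : Computable (fun q : (ℕ × ℕ × ℕ) × ℕ => q.1.2.2) :=
    Computable.snd.comp (Computable.snd.comp Computable.fst)
  have ce : Computable (fun q : (ℕ × ℕ × ℕ) × ℕ => q.2) := Computable.snd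
  unfold gd
  refine c_and (c_and (c_eq (Computable.list_length.comp (c_lst ce)) (Computable.const N)) ?_)
    (c_eq (hΦ.comp cr ce) cu)
  refine c_ball (α := (ℕ × ℕ × ℕ) × ℕ) (n := fun _ => N)
    (f := fun q i => decide (a (w (nth q.2 i)) q.1.2.2 ≤ s q.1.2.1) &&
      ball (nth q.2 i) (fun j => !decide (w j = w (nth q.2 i)))) (Computable.const N) ?_
  have ci : Computable (fun p : ((ℕ × ℕ × ℕ) × ℕ) × ℕ => nth p.1.2 p.2) :=
    c_nth (ce.comp Computable.fst) Computable.snd
  refine c_and (c_le (ha.comp (hw.comp ci) (cst.comp Computable.fst))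
    (hs.comp (cr.comp Computable.fst))) ?_
  refine c_ball (α := ((ℕ × ℕ × ℕ) × ℕ) × ℕ) (n := fun p => nth p.1.2 p.2)
    (f := fun p j => !decide (w j = w (nth p.1.2 p.2))) ci ?_
  exact c_not (c_eq (hw.comp Computable.snd) (hw.comp (ci.comp Computable.fst)))

end heavy

/-- a value that is taken on many tuples of simple objects is simple -/
lemma heavy {K : ℕ → ℕ} (hK : IsKP K) (M : ℕ) (hM : 0 < M) (w : ℕ → ℕ) (hw : Computable w)
    (Φ : ℕ → ℕ → ℕ) (hΦ : Computable₂ Φ) (N : ℕ) (s b : ℕ → ℕ) (hs : Computable s)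
    (hb : Computable b) :
    ∃ c : ℕ, ∀ (r u : ℕ) (T : Finset ℕ), (∀ e ∈ T, (lst e).length = N ∧
      (∀ i < N, K (w (nth e i)) ≤ s r ∧ ∀ j < nth e i, w j ≠ w (nth e i)) ∧ Φ r e = u) →
      2 ^ b r ≤ T.card → K u + b r ≤ N * s r + r / M + c := by
  classical
  obtain ⟨a, ha, ha1, ha2⟩ := Pool.Agent.TH676.CK.exists_approx hK.1
  set P : ℕ → ℕ → ℕ → Bool := fun u r st =>
    decide (2 ^ b r ≤ ((range st).filter (fun e => gd a w Φ N s u r st e = true)).card) with hP
  have hPc : Computable fun q : ℕ × ℕ × ℕ => P q.1 q.2.1 q.2.2 := by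
    refine c_le (c_pow (Computable.const 2) (hb.comp (Computable.fst.comp Computable.snd))) ?_
    refine c_count (α := ℕ × ℕ × ℕ) (n := fun q => q.2.2)
      (f := fun q e => gd a w Φ N s q.1 q.2.1 q.2.2 e) (Computable.snd.comp Computable.snd) ?_
    exact c_gd N ha hw hΦ hs
  have hcount : ∀ (r : ℕ) (U : Finset ℕ) (σ : ℕ → ℕ), (∀ u ∈ U, P u r (σ u) = true) →
      U.card * 2 ^ b r ≤ 2 ^ (N * s r) := by
    intro r U σ hU
    set G : ℕ → Finset ℕ := fun u => (range (σ u)).filter
      (fun e => gd a w Φ N s u r (σ u) e = true) with hG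
    have hGc : ∀ u ∈ U, 2 ^ b r ≤ (G u).card := by
      intro u hu
      have := hU u hu
      simp only [hP, decide_eq_true_eq] at this
      exact this
    have hGm : ∀ u, ∀ e ∈ G u, (lst e).length = N ∧
        (∀ i < N, K (w (nth e i)) ≤ s r ∧ ∀ j < nth e i, w j ≠ w (nth e i)) ∧ Φ r e = u := by
      intro u e he
      have h1 := (mem_filter.1 he).2
      rw [gd_iff] at h1
      refine ⟨h1.1, fun i hi => ⟨le_trans (ha1 _ _) (h1.2.1 i hi).1, (h1.2.1 i hi).2⟩, h1.2.2⟩
    have hdisj : ∀ u ∈ U, ∀ u' ∈ U, u ≠ u' → Disjoint (G u) (G u') := by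
      intro u _ u' _ hne
      rw [Finset.disjoint_left]
      intro e he he'
      exact hne ((hGm u e he).2.2.symm.trans (hGm u' e he').2.2)
    have h1 : U.card * 2 ^ b r ≤ (U.biUnion G).card := by
      rw [Finset.card_biUnion hdisj, ← smul_eq_mul, ← Finset.sum_const]
      exact Finset.sum_le_sum hGc
    refine h1.trans ?_
    set B := U.biUnion G with hB
    have hBm : ∀ e ∈ B, (lst e).length = N ∧
        (∀ i < N, K (w (nth e i)) ≤ s r ∧ ∀ j < nth e i, w j ≠ w (nth e i)) := by
      intro e he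
      rw [hB, mem_biUnion] at he
      obtain ⟨u, _, hu⟩ := he
      exact ⟨(hGm u e hu).1, (hGm u e hu).2.1⟩
    set W := (B ×ˢ range N).image (fun p => w (nth p.1 p.2)) with hW
    have hWc : W.card ≤ 2 ^ s r := by
      apply card_kp hK
      intro x hx
      rw [hW, mem_image] at hx
      obtain ⟨p, hp, rfl⟩ := hx
      rw [mem_product, mem_range] at hp
      exact ((hBm p.1 hp.1).2 p.2 hp.2).1
    have h2 : B.card ≤ (Fintype.piFinset (fun _ : Fin N => W)).card := by
      apply Finset.card_le_card_of_injOn (fun e => fun i : Fin N => w (nth e i))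
      · intro e he
        rw [Finset.mem_coe, Fintype.mem_piFinset]
        intro i
        rw [hW, mem_image]
        exact ⟨(e, i), by rw [mem_product, mem_range]; exact ⟨he, i.2⟩, rfl⟩
      · intro e he e' he' hee
        obtain ⟨h3, h4⟩ := hBm e he
        obtain ⟨h5, h6⟩ := hBm e' he'
        apply nth_ext h3 h5
        intro i hi
        have h7 : w (nth e i) = w (nth e' i) := congrFun hee ⟨i, hi⟩
        rcases lt_trichotomy (nth e i) (nth e' i) with h | h | h
        · exact absurd h7 ((h6 i hi).2 _ h)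
        · exact h
        · exact absurd h7.symm ((h4 i hi).2 _ h)
    rw [Fintype.card_piFinset, Finset.prod_const, Finset.card_univ, Fintype.card_fin] at h2
    refine h2.trans ?_
    calc W.card ^ N ≤ (2 ^ s r) ^ N := Nat.pow_le_pow_left hWc N
      _ = 2 ^ (N * s r) := by rw [← pow_mul, mul_comm]
  obtain ⟨c, hc⟩ := enum_le hK M hM P hPc (fun r => N * s r - b r)
    (c_sub (c_mul (Computable.const N) hs) hb) (by
      intro r U σ hU
      have h1 := hcount r U σ hU
      rcases Nat.eq_zero_or_pos U.card with h0 | h0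
      · rw [h0]; positivity
      have h2 : 2 ^ b r ≤ 2 ^ (N * s r) :=
        le_trans (Nat.le_mul_of_pos_left _ h0) h1
      have h3 : b r ≤ N * s r := (Nat.pow_le_pow_iff_right (by norm_num)).1 h2
      have h4 : 2 ^ (N * s r) = 2 ^ (N * s r - b r) * 2 ^ b r := by
        rw [← pow_add]; congr 1; omega
      rw [h4] at h1
      exact Nat.le_of_mul_le_mul_right h1 (by positivity))
  refine ⟨c, fun r u T hT hTc => ?_⟩
  -- the stage at which `u` is found
  have hst : ∃ st, ∀ e ∈ T, e < st ∧ gd a w Φ N s u r st e = true := by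
    choose t₀ ht₀ using ha2
    refine ⟨T.sup (fun e => e + (range N).sup (fun i => t₀ (w (nth e i)))) + 1, fun e he => ?_⟩
    have h1 := Finset.le_sup (f := fun e => e + (range N).sup (fun i => t₀ (w (nth e i)))) he
    refine ⟨by omega, ?_⟩
    rw [gd_iff]
    obtain ⟨h2, h3, h4⟩ := hT e he
    refine ⟨h2, fun i hi => ⟨?_, (h3 i hi).2⟩, h4⟩
    have h5 := Finset.le_sup (f := fun i => t₀ (w (nth e i))) (mem_range.2 hi)
    rw [ht₀ _ _ (by omega)]
    exact (h3 i hi).1
  obtain ⟨st, hst⟩ := hst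
  have hPu : P u r st = true := by
    simp only [hP, decide_eq_true_eq]
    refine le_trans hTc (Finset.card_le_card fun e he => ?_)
    rw [mem_filter, mem_range]
    exact hst e he
  have h1 := hc u r st hPu
  have h2 := hcount r {u} (fun _ => st) (by
    intro v hv
    rw [mem_singleton] at hv
    rw [hv]; exact hPu)
  rw [card_singleton, one_mul] at h2
  have h3 : b r ≤ N * s r := (Nat.pow_le_pow_iff_right (by norm_num)).1 h2
  omega

end Pool.Agent.R557.DS
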