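import Pool.Agent.R557.DSMain
import Pool.Agent.TH676.CK.Exist

set_option autoImplicit false

/-! Effective dimension of points of the plane, and the two cases. -/

namespace Pool.Agent.R557.DS

open Finset Real MeasureTheory Filter
open Pool.Agent.Helper981.KP (IsKP)
open Pool.Agent.TH676.CK (OptPFree cx isKP_cx)
open Pool.Agent.H166R3.AT (c_add c_mul c_sub c_div c_mod c_pow c_eq c_and c_lt)

/-- A computable coding of the rational points of the plane by binary strings: it is injective, and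
the code of `(n / (d + 1), n' / (d' + 1))` is computed from `(n, d, n', d')`. -/
def IsCoding (c : ℚ × ℚ → List Bool) : Prop :=
  Function.Injective c ∧ Computable fun a : (ℤ × ℕ) × (ℤ × ℕ) =>
    c (((a.1.1 : ℚ) / ((a.1.2 : ℚ) + 1)), ((a.2.1 : ℚ) / ((a.2.2 : ℚ) + 1)))

/-- The complexity of the point `(x, y)` at precision `r` with respect to the machine `U` and the
coding `c`: the least complexity of a rational point at Euclidean distance less than `2 ^ (-r)`. -/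
noncomputable def Kr (U : List Bool →. List Bool) (c : ℚ × ℚ → List Bool) (r : ℕ) (x y : ℝ) : ℕ :=
  sInf {n : ℕ | ∃ q : ℚ × ℚ, √(((q.1 : ℝ) - x) ^ 2 + ((q.2 : ℝ) - y) ^ 2) < (1 / 2) ^ r ∧
    cx U (c q) = n}

/-- The effective Hausdorff dimension of the point `(x, y)`. -/
noncomputable def edim (U : List Bool →. List Bool) (c : ℚ × ℚ → List Bool) (x y : ℝ) : EReal :=
  liminf (fun r : ℕ => (((Kr U c r x y : ℝ) / (r : ℝ) : ℝ) : EReal)) atTop

lemma bc (M : ℕ) (hM : 0 < M) (E : ℕ → Set ℝ)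
    (hE : ∀ᶠ r in atTop, volume (E r) ≤ ENNReal.ofReal (2 * (1 / 2) ^ (r / M))) :
    ∃ x ∈ Set.Ico (0 : ℝ) 1, ∀ᶠ r in atTop, x ∉ E r := by
  classical
  obtain ⟨r0, hr0⟩ := eventually_atTop.1 hE
  set E' : ℕ → Set ℝ := fun r => if r < r0 then ∅ else E r with hE'
  have hs : Summable (fun r : ℕ => 2 * ((1 : ℝ) / 2) ^ (r / M)) := by
    apply summable_of_sum_range_le (c := 2 * (2 * M)) (fun _ => by positivity)
    intro n
    rw [← Finset.mul_sum]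
    exact mul_le_mul_of_nonneg_left (sum_wt M hM n) (by norm_num)
  have h1 : ∑' r, volume (E' r) ≠ ⊤ := by
    have h2 : ∑' r, volume (E' r) ≤ ∑' r : ℕ, ENNReal.ofReal (2 * (1 / 2) ^ (r / M)) := by
      apply ENNReal.tsum_le_tsum
      intro r
      simp only [hE']
      split_ifs with h
      · simp
      · exact hr0 r (not_lt.1 h)
    rw [← ENNReal.ofReal_tsum_of_nonneg (fun _ => by positivity) hs] at h2
    exact ne_top_of_le_ne_top ENNReal.ofReal_ne_top h2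
  have h2 := measure_limsup_atTop_eq_zero h1
  have h3 : ∃ x ∈ Set.Ico (0 : ℝ) 1, x ∉ limsup E' atTop := by
    by_contra hcon
    push Not at hcon
    have h4 : volume (Set.Ico (0 : ℝ) 1) ≤ volume (limsup E' atTop) := measure_mono hcon
    rw [h2, Real.volume_Ico] at h4
    simp at h4
  obtain ⟨x, hx, hx'⟩ := h3
  refine ⟨x, hx, ?_⟩
  rw [mem_limsup_iff_frequently_mem, not_frequently] at hx'
  filter_upwards [hx', eventually_ge_atTop r0] with r hr hr'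
  simp only [hE', not_lt.2 hr', if_false] at hr
  exact hr

section
variable {U : List Bool →. List Bool} {c : ℚ × ℚ → List Bool}

lemma le_edim {x y t : ℝ} (h : ∀ᶠ r : ℕ in atTop, t ≤ (Kr U c r x y : ℝ) / r) :
    (t : EReal) ≤ edim U c x y := by
  unfold edim
  apply le_liminf_of_le (by isBoundedDefault)
  filter_upwards [h] with r hr
  exact EReal.coe_le_coe_iff.2 hr

lemma edim_le {x y t : ℝ} (h : ∃ᶠ r : ℕ in atTop, (Kr U c r x y : ℝ) / r ≤ t) :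
    edim U c x y ≤ (t : EReal) := by
  unfold edim
  apply liminf_le_of_frequently_le' 
  exact h.mono fun r hr => EReal.coe_le_coe_iff.2 hr

lemma exists_near (r : ℕ) (x y : ℝ) : ∃ q : ℚ × ℚ,
    √(((q.1 : ℝ) - x) ^ 2 + ((q.2 : ℝ) - y) ^ 2) < (1 / 2) ^ r := by
  have h0 : (0 : ℝ) < (1 / 2) ^ r := by positivity
  obtain ⟨q1, h1, h1'⟩ := exists_rat_btwn (show x < x + (1 / 2) ^ r / 2 by linarith)
  obtain ⟨q2, h2, h2'⟩ := exists_rat_btwn (show y < y + (1 / 2) ^ r / 2 by linarith)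
  refine ⟨(q1, q2), ?_⟩
  rw [Real.sqrt_lt' h0]
  simp only
  have h3 : ((q1 : ℝ) - x) ^ 2 ≤ ((1 / 2) ^ r / 2) ^ 2 :=
    pow_le_pow_left₀ (by linarith) (by linarith) 2
  have h4 : ((q2 : ℝ) - y) ^ 2 ≤ ((1 / 2) ^ r / 2) ^ 2 :=
    pow_le_pow_left₀ (by linarith) (by linarith) 2
  nlinarith [pow_pos h0 2]

lemma Kr_le {r : ℕ} {x y : ℝ} {q : ℚ × ℚ}
    (h : √(((q.1 : ℝ) - x) ^ 2 + ((q.2 : ℝ) - y) ^ 2) < (1 / 2) ^ r) :
    Kr U c r x y ≤ cx U (c q) := Nat.sInf_le ⟨q, h, rfl⟩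

lemma exists_of_Kr (r : ℕ) (x y : ℝ) : ∃ q : ℚ × ℚ,
    √(((q.1 : ℝ) - x) ^ 2 + ((q.2 : ℝ) - y) ^ 2) < (1 / 2) ^ r ∧ cx U (c q) = Kr U c r x y := by
  have h : {n : ℕ | ∃ q : ℚ × ℚ, √(((q.1 : ℝ) - x) ^ 2 + ((q.2 : ℝ) - y) ^ 2) < (1 / 2) ^ r ∧
    cx U (c q) = n}.Nonempty := by
    obtain ⟨q, hq⟩ := exists_near r x y
    exact ⟨_, q, hq, rfl⟩
  exact Nat.sInf_mem h

lemma near_coord {r : ℕ} {x y : ℝ} {q : ℚ × ℚ}
    (h : √(((q.1 : ℝ) - x) ^ 2 + ((q.2 : ℝ) - y) ^ 2) < (1 / 2) ^ r) :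
    |(q.1 : ℝ) - x| ≤ 1 / 2 ^ r ∧ |(q.2 : ℝ) - y| ≤ 1 / 2 ^ r := by
  have h0 : (0 : ℝ) < (1 / 2) ^ r := by positivity
  have e : ((1 : ℝ) / 2) ^ r = 1 / 2 ^ r := by rw [one_div_pow]
  rw [Real.sqrt_lt' h0, e] at h
  have h1 : (0 : ℝ) ≤ 1 / 2 ^ r := by positivity
  constructor
  · apply abs_le_of_sq_le_sq _ h1
    nlinarith [sq_nonneg ((q.2 : ℝ) - y)]
  · apply abs_le_of_sq_le_sq _ h1
    nlinarith [sq_nonneg ((q.1 : ℝ) - x)]

lemma near_zero {r : ℕ} {y : ℝ} {q : ℚ} (h : |(q : ℝ) - y| < (1 / 2) ^ r) :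
    √(((((0 : ℚ), q) : ℚ × ℚ).1 - (0 : ℝ)) ^ 2 + ((((((0 : ℚ), q) : ℚ × ℚ)).2 : ℝ) - y) ^ 2) <
      (1 / 2) ^ r := by
  simp only [Rat.cast_zero, sub_zero]
  rw [zero_pow (by norm_num), zero_add, Real.sqrt_sq_eq_abs]
  exact h

end

end Pool.Agent.R557.DS
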