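import Pool.Agent.R557.DSCore

set_option autoImplicit false

/-! The core lemma on simple points of the graph of a trigonometric polynomial. -/

namespace Pool.Agent.R557.DS

open Finset Real
open Pool.Agent.Helper981.KP (IsKP)
open Pool.Agent.H166R3.AT (c_add c_mul c_sub c_div c_mod c_pow)

lemma LL_cast (m r e : ℕ) : ((LL m r e : ℚ) : ℝ) = Lg (2 * m + 1)
    (fun i => (tau r (rat (nth e i)).1 : ℝ))
    (fun i => ((rat (nth e i)).2 : ℝ) * (1 + (tau r (rat (nth e i)).1 : ℝ) ^ 2) ^ m) := by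
  unfold LL Lg
  push_cast
  apply Finset.sum_congr rfl
  intro i _
  congr 1
  apply Finset.prod_congr rfl
  intro j _
  split_ifs
  · simp
  · push_cast; rfl

/-- the tuples of indices -/
lemma tuples (A : Finset ℕ) (N : ℕ) (k : ℕ) (hk0 : 0 < k) (hk : 16 * N * k ≤ A.card) :
    ∃ ν : ℕ → ℕ → ℕ, (∀ i < N, ∀ t < k, ν i t ∈ A) ∧
      (∀ i < N, ∀ t t', t < t' → t' < k → ν i t + 8 ≤ ν i t') ∧
      (∀ i j, i < j → j < N → ∀ t < k, ∀ t' < k, ν i t + (8 * k + 8) ≤ ν j t') := by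
  obtain ⟨α, h1, h2⟩ := spread A
  have hlt : ∀ i < N, ∀ t < k, 16 * (i * k) + 8 * t < A.card := by
    intro i hi t ht
    have h3 : (i + 1) * k ≤ N * k := Nat.mul_le_mul_right k hi
    have h4 : (i + 1) * k = i * k + k := by ring
    have h5 : 16 * N * k = 16 * (N * k) := by ring
    omega
  refine ⟨fun i t => α (16 * (i * k) + 8 * t), fun i hi t ht => h1 _ (hlt i hi t ht), ?_, ?_⟩
  · intro i hi t t' htt ht'
    have h3 := h2 (16 * (i * k) + 8 * t) (16 * (i * k) + 8 * t') (by omega) (hlt i hi t' ht')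
    simp only
    omega
  · intro i j hij hj t ht t' ht'
    have h6 : (i + 1) * k ≤ j * k := Nat.mul_le_mul_right k hij
    have h7 : (i + 1) * k = i * k + k := by ring
    have h3 := h2 (16 * (i * k) + 8 * t) (16 * (j * k) + 8 * t') (by omega) (hlt j hj t' ht')
    simp only
    omega

lemma core {K : ℕ → ℕ} (hK : IsKP K) (w : ℕ → ℕ) (hw : Computable w)
    (hwr : ∀ j j', w j = w j' ↔ rat j = rat j') (m : ℕ) (a b : ℕ → ℝ) (M : ℕ)
    (hM : 2 * m + 2 ≤ M) :
    ∃ c r₁ : ℕ, ∀ r ≥ r₁, ∀ A : Finset ℕ, (∀ n ∈ A, n < 2 ^ r ∧ ∃ (x : ℝ) (q : ℚ × ℚ),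
      (n : ℝ) / 2 ^ r ≤ x ∧ x < (n + 1) / 2 ^ r ∧ |(q.1 : ℝ) - x| ≤ 1 / 2 ^ r ∧
        |(q.2 : ℝ) - tp m a b x| ≤ 1 / 2 ^ r ∧ K (w (jq q)) ≤ r + r / M) →
      2 ^ (r - r / M) ≤ A.card →
      ∃ y : ℚ, |(y : ℝ) - tp m a b 0| ≤ 2 / 2 ^ (r' (2 * m + 1) M r) ∧
        K (w (jq ((0 : ℚ), y))) ≤ (2 * (2 * m + 1) + 1) * (r / M) + c := by
  classical
  obtain ⟨D, hD⟩ := approx_zero m a b
  obtain ⟨B, hB⟩ := exists_nat_ge (|tp m a b 0| + 2)
  set N := 2 * m + 1 with hN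
  have hN0 : 0 < N := by omega
  set c1 := 16 * N with hc1
  have hM0 : 0 < M := by omega
  have hΦc : Computable₂ (fun r e => w (jv (r' N M r) B (VV m M B r e))) :=
    hw.comp (c_jv ((c_r' N M).comp Computable.fst) (c_VV m M B) B)
  obtain ⟨c, hc⟩ := heavy hK M hM0 w hw (fun r e => w (jv (r' N M r) B (VV m M B r e))) hΦc N
    (fun r => r + r / M) (fun r => N * (r - r / M - c1) - 2)
    (c_add Computable.id (c_div Computable.id (Computable.const _)))
    (c_sub (c_mul (Computable.const _) (c_sub (c_sub Computable.id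
      (c_div Computable.id (Computable.const _))) (Computable.const _))) (Computable.const _))
  refine ⟨c + N * c1 + 2, M * (D + N * c1 + c1 + 2), fun r hr A hA hAc => ?_⟩
  -- large `r`
  set ε := r / M with hε
  have hε1 : D + N * c1 + c1 + 2 ≤ ε := (Nat.le_div_iff_mul_le hM0).2 (by linarith)
  have hε2 : M * ε ≤ r := Nat.mul_div_le r M
  have hε3 : (N + 1) * ε ≤ r := le_trans (Nat.mul_le_mul_right _ (by omega)) hε2
  have hNε : ε ≤ N * ε := Nat.le_mul_of_pos_left _ hN0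
  have hε3' : N * ε + ε ≤ r := by
    have : (N + 1) * ε = N * ε + ε := by ring
    omega
  set h : ℝ := 1 / 2 ^ r with hh
  have hpos : 0 < h := by positivity
  -- the points
  have hA' : ∀ n, ∃ (x : ℝ) (q : ℚ × ℚ), n ∈ A → (n : ℝ) / 2 ^ r ≤ x ∧ x < (n + 1) / 2 ^ r ∧
      |(q.1 : ℝ) - x| ≤ h ∧ |(q.2 : ℝ) - tp m a b x| ≤ h ∧ K (w (jq q)) ≤ r + ε := by
    intro n
    by_cases hn : n ∈ A
    · obtain ⟨x, q, h1⟩ := (hA n hn).2
      exact ⟨x, q, fun _ => h1⟩
    · exact ⟨0, 0, fun h => absurd h hn⟩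
  choose x q hxq using hA'
  have hx01 : ∀ n ∈ A, 0 ≤ x n ∧ x n < 1 := by
    intro n hn
    obtain ⟨h1, h2, -⟩ := hxq n hn
    have h3 : (n : ℝ) + 1 ≤ 2 ^ r := by exact_mod_cast (hA n hn).1
    refine ⟨le_trans (by positivity) h1, lt_of_lt_of_le h2 ?_⟩
    rw [div_le_one (by positivity)]
    exact h3
  have hxd : ∀ n ∈ A, ∀ n' ∈ A, ∀ d : ℕ, n + d ≤ n' → (d - 1) * h ≤ x n' - x n := by
    intro n hn n' hn' d hd
    obtain ⟨-, h2, -⟩ := hxq n hn
    obtain ⟨h1, -, -⟩ := hxq n' hn'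
    have h3 : (n : ℝ) + d ≤ n' := by exact_mod_cast hd
    have h4 : ((d : ℝ) - 1) * h + (n + 1) / 2 ^ r = (n + d) / 2 ^ r := by rw [hh]; ring
    have h5 : ((n : ℝ) + d) / 2 ^ r ≤ n' / 2 ^ r := div_le_div_of_nonneg_right h3 (by positivity)
    linarith
  -- the number of points in a block
  set k := A.card / (16 * N) with hk
  have hkc : 16 * N * k ≤ A.card := Nat.mul_div_le _ _
  have hk1 : 2 ^ (r - ε - c1) ≤ k := by
    rw [hk, Nat.le_div_iff_mul_le (by positivity)]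
    refine le_trans ?_ hAc
    have h1 : 16 * N ≤ 2 ^ c1 := by rw [hc1]; exact (Nat.lt_two_pow_self).le
    calc 2 ^ (r - ε - c1) * (16 * N) ≤ 2 ^ (r - ε - c1) * 2 ^ c1 := Nat.mul_le_mul_left _ h1
      _ = 2 ^ (r - ε) := by rw [← pow_add]; congr 1; omega
  have hk0 : 0 < k := lt_of_lt_of_le (by positivity) hk1
  obtain ⟨ν, hν1, hν2, hν3⟩ := tuples A N k hk0 hkc
  choose E hE1 hE2 using exists_lst N
  set xs : (Fin N → Fin k) → ℕ → ℕ := fun s i => if hi : i < N then jq (q (ν i (s ⟨i, hi⟩))) else 0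
    with hxs
  have hnth : ∀ (s : Fin N → Fin k) (i : ℕ) (hi : i < N), nth (E (xs s)) i =
      jq (q (ν i (s ⟨i, hi⟩))) := by
    intro s i hi
    rw [hE2 (xs s) i hi]
    simp only [hxs, hi, dif_pos]
  -- distinct points in a block
  have hqne : ∀ i < N, ∀ t t', t < t' → t' < k → q (ν i t) ≠ q (ν i t') := by
    intro i hi t t' htt ht' he
    have hn := hν1 i hi t (by omega)
    have hn' := hν1 i hi t' ht'
    have h1 := hxd _ hn _ hn' 8 (hν2 i hi t t' htt ht')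
    obtain ⟨-, -, h2, -⟩ := hxq _ hn
    obtain ⟨-, -, h3, -⟩ := hxq _ hn'
    rw [he] at h2
    rw [abs_le] at h2 h3
    push_cast at h1
    nlinarith
  have hinj : Function.Injective (fun s : Fin N → Fin k => E (xs s)) := by
    intro s s' hss
    funext i
    have h1 : nth (E (xs s)) i = nth (E (xs s')) i := congrArg (fun e => nth e i) hss
    rw [hnth s i i.2, hnth s' i i.2] at h1
    have h2 := congrArg rat h1
    rw [rat_jq, rat_jq] at h2
    by_contra hne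
    have hne' : ((s i : Fin k) : ℕ) ≠ s' i := fun h => hne (Fin.ext h)
    rcases Nat.lt_or_gt_of_ne hne' with h3 | h3
    · exact hqne i i.2 _ _ h3 (s' i).2 h2
    · exact hqne i i.2 _ _ h3 (s i).2 h2.symm
  set Tall : Finset ℕ := (univ : Finset (Fin N → Fin k)).image (fun s => E (xs s)) with hTall
  have hTc : Tall.card = k ^ N := by
    rw [hTall, Finset.card_image_of_injective _ hinj, Finset.card_univ, Fintype.card_fun,
      Fintype.card_fin, Fintype.card_fin]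
  -- the main estimate
  set ρ' := r' N M r with hρ'
  have hρe : ρ' + (N * ε + ε) = r := by
    rw [hρ', r', ← hε]
    have : (N + 1) * ε = N * ε + ε := by ring
    omega
  have hest : ∀ e ∈ Tall, |((LL m r e : ℚ) : ℝ) - tp m a b 0| ≤ 1 / 2 ^ ρ' := by
    intro e he
    rw [hTall, mem_image] at he
    obtain ⟨s, -, rfl⟩ := he
    set e := E (xs s) with he
    -- the points of the tuple
    set n : ℕ → ℕ := fun i => if hi : i < N then ν i (s ⟨i, hi⟩) else 0 with hn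
    have hnA : ∀ i < N, n i ∈ A := by
      intro i hi
      simp only [hn, hi, dif_pos]
      exact hν1 i hi _ (s ⟨i, hi⟩).2
    have hre : ∀ i < N, rat (nth e i) = q (n i) := by
      intro i hi
      rw [he, hnth s i hi, rat_jq]
      simp only [hn, hi, dif_pos]
    have hsep : ∀ i < N, ∀ j < N, i < j → ((8 * k + 7 : ℕ) : ℝ) * h ≤ x (n j) - x (n i) := by
      intro i hi j hj hij
      have h1 := hxd _ (hnA i hi) _ (hnA j hj) (8 * k + 8) (by
        simp only [hn, hi, hj, dif_pos]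
        exact hν3 i j hij hj _ (s ⟨i, hi⟩).2 _ (s ⟨j, hj⟩).2)
      push_cast at h1 ⊢
      linarith
    have hρk : (1 : ℝ) / 2 ^ (ε + c1) ≤ k * h := by
      have h1 : ((2 : ℝ) ^ (r - ε - c1)) ≤ k := by exact_mod_cast hk1
      have h2 : (2 : ℝ) ^ r = 2 ^ (r - ε - c1) * 2 ^ (ε + c1) := by
        rw [← pow_add]; congr 1; omega
      calc (1 : ℝ) / 2 ^ (ε + c1) = 2 ^ (r - ε - c1) * h := by
            rw [hh, h2]; field_simp
        _ ≤ k * h := mul_le_mul_of_nonneg_right h1 hpos.le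
    have hk1' : (1 : ℝ) ≤ k := by exact_mod_cast hk0
    have hτ : ∀ i < N, (0 : ℝ) ≤ (tau r (rat (nth e i)).1 : ℝ) ∧
        ((tau r (rat (nth e i)).1 : ℚ) : ℝ) ≤ 1 := by
      intro i _
      exact ⟨by exact_mod_cast tau_nonneg r _, by exact_mod_cast tau_le_one r _⟩
    have hp : ∀ i < N, |2 * arctan ((tau r (rat (nth e i)).1 : ℚ) : ℝ) - ((rat (nth e i)).1 : ℝ)| ≤
        4 * h := by
      intro i hi
      obtain ⟨h1, h2⟩ := hx01 _ (hnA i hi)
      obtain ⟨-, -, h3, -⟩ := hxq _ (hnA i hi)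
      rw [abs_le] at h3
      rw [hre i hi]
      apply tau_spec
      · rw [← hh]; linarith
      · rw [← hh]; linarith
    have hpx : ∀ i < N, |((rat (nth e i)).1 : ℝ) - x (n i)| ≤ h := by
      intro i hi
      rw [hre i hi]
      exact (hxq _ (hnA i hi)).2.2.1
    have hqx : ∀ i < N, |((rat (nth e i)).2 : ℝ) - tp m a b (x (n i))| ≤ h := by
      intro i hi
      rw [hre i hi]
      exact (hxq _ (hnA i hi)).2.2.2.1
    have hsepτ' : ∀ i < N, ∀ j < N, i < j → (1 : ℝ) / 2 ^ (ε + c1) ≤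
        |((tau r (rat (nth e i)).1 : ℚ) : ℝ) - ((tau r (rat (nth e j)).1 : ℚ) : ℝ)| := by
      intro i hi j hj hij
      refine le_trans ?_ (arctan_lip (hτ i hi).1 (hτ j hj).1)
      have h1 := hsep i hi j hj hij
      have h2 := hp i hi
      have h3 := hp j hj
      have h4 := hpx i hi
      have h5 := hpx j hj
      rw [abs_le] at h2 h3 h4 h5
      rw [abs_sub_comm]
      refine le_trans ?_ (le_abs_self _)
      push_cast at h1
      have h6 : (k : ℝ) * h ≥ h := by nlinarith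
      nlinarith
    have hsepτ : ∀ i < N, ∀ j < N, i ≠ j → (1 : ℝ) / 2 ^ (ε + c1) ≤
        |((tau r (rat (nth e i)).1 : ℚ) : ℝ) - ((tau r (rat (nth e j)).1 : ℚ) : ℝ)| := by
      intro i hi j hj hij
      rcases Nat.lt_or_gt_of_ne hij with h1 | h1
      · exact hsepτ' i hi j hj h1
      · rw [abs_sub_comm]; exact hsepτ' j hj i hi h1
    have h1 := hD h (1 / 2 ^ (ε + c1)) (fun i => ((tau r (rat (nth e i)).1 : ℚ) : ℝ))
      (fun i => x (n i)) (fun i => ((rat (nth e i)).1 : ℝ)) (fun i => ((rat (nth e i)).2 : ℝ))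
      hpos (by positivity) (by
        rw [div_le_one (by positivity)]
        exact one_le_pow₀ (by norm_num)) hτ hp hpx hqx hsepτ
    rw [LL_cast]
    refine h1.trans ?_
    rw [one_div_one_div, ← pow_mul]
    have h2 : (D : ℝ) * 2 ^ (N * c1) ≤ 2 ^ ε := by
      have h3 : D * 2 ^ (N * c1) ≤ 2 ^ ε := by
        calc D * 2 ^ (N * c1) ≤ 2 ^ D * 2 ^ (N * c1) :=
              Nat.mul_le_mul_right _ (Nat.lt_two_pow_self).le
          _ = 2 ^ (D + N * c1) := by rw [pow_add]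
          _ ≤ 2 ^ ε := Nat.pow_le_pow_right (by norm_num) (by omega)
      exact_mod_cast h3
    have h3 : (2 : ℝ) ^ r = 2 ^ ρ' * (2 ^ (N * ε) * 2 ^ ε) := by
      rw [← pow_add, ← pow_add]; congr 1; omega
    have h4 : (2 : ℝ) ^ ((ε + c1) * N) = 2 ^ (N * ε) * 2 ^ (N * c1) := by
      rw [← pow_add]; congr 1; ring
    rw [h4, hh, h3]
    have p1 : (0 : ℝ) < 2 ^ ρ' := by positivity
    have p2 : (0 : ℝ) < 2 ^ (N * ε) := by positivity
    have p3 : (0 : ℝ) < 2 ^ ε := by positivity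
    calc (D : ℝ) * (1 / (2 ^ ρ' * (2 ^ (N * ε) * 2 ^ ε))) * (2 ^ (N * ε) * 2 ^ (N * c1)) =
        (1 / 2 ^ ρ') * ((D * 2 ^ (N * c1)) / 2 ^ ε) := by field_simp
      _ ≤ (1 / 2 ^ ρ') * 1 := by
          apply mul_le_mul_of_nonneg_left _ (by positivity)
          rw [div_le_one p3]
          exact h2
      _ = 1 / 2 ^ ρ' := mul_one _
  -- the values
  set z0 : ℝ := 2 ^ ρ' * (tp m a b 0 + B) with hz0
  have hp0 : (0 : ℝ) < 2 ^ ρ' := by positivity
  have hz0pos : 2 ≤ z0 := by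
    have h1 : (1 : ℝ) ≤ 2 ^ ρ' := one_le_pow₀ (by norm_num)
    have h2 : 2 ≤ tp m a b 0 + B := by
      have := neg_abs_le (tp m a b 0)
      linarith
    rw [hz0]; nlinarith
  have hV : ∀ e ∈ Tall, |(VV m M B r e : ℝ) - (z0 - 1 / 2)| ≤ 1 + 1 / 2 ∧
      |(VV m M B r e : ℝ) / 2 ^ ρ' - B - tp m a b 0| ≤ 2 / 2 ^ ρ' := by
    intro e he
    have h1 := hest e he
    set z : ℚ := 2 ^ ρ' * (LL m r e + B) with hz
    have hzr : (z : ℝ) = 2 ^ ρ' * ((LL m r e : ℝ) + B) := by rw [hz]; push_cast; rfl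
    have h2 : |(z : ℝ) - z0| ≤ 1 := by
      rw [hzr, hz0, ← mul_sub, abs_mul, abs_of_pos hp0]
      have h3 : ((LL m r e : ℝ) + B) - (tp m a b 0 + B) = (LL m r e : ℝ) - tp m a b 0 := by ring
      rw [h3]
      calc (2 : ℝ) ^ ρ' * |(LL m r e : ℝ) - tp m a b 0| ≤ 2 ^ ρ' * (1 / 2 ^ ρ') :=
            mul_le_mul_of_nonneg_left h1 hp0.le
        _ = 1 := by field_simp
    rw [abs_le] at h2
    have hzpos : 0 ≤ z := by
      have : (0 : ℝ) ≤ z := by linarith
      exact_mod_cast this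
    have hVe : VV m M B r e = ⌊z⌋₊ := rfl
    have h3 : ((⌊z⌋₊ : ℚ) : ℝ) ≤ z := by exact_mod_cast Nat.floor_le hzpos
    have h4 : (z : ℝ) < ((⌊z⌋₊ : ℚ) : ℝ) + 1 := by exact_mod_cast Nat.lt_floor_add_one z
    rw [hVe]
    push_cast at h3 h4
    constructor
    · rw [abs_le]; constructor <;> linarith
    · have h5 : ((⌊z⌋₊ : ℝ)) / 2 ^ ρ' - B - tp m a b 0 = ((⌊z⌋₊ : ℝ) - z0) / 2 ^ ρ' := by
        rw [hz0]; field_simp; ring
      rw [h5, abs_div, abs_of_pos hp0]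
      apply div_le_div_of_nonneg_right _ hp0.le
      rw [abs_le]; constructor <;> linarith
  set v0 := ⌊z0⌋₊ with hv0
  have hv01 : (v0 : ℝ) ≤ z0 := Nat.floor_le (by linarith)
  have hv02 : z0 < v0 + 1 := Nat.lt_floor_add_one z0
  have hmaps : ∀ e ∈ Tall, VV m M B r e ∈ Icc (v0 - 2) (v0 + 1) := by
    intro e he
    obtain ⟨h1, -⟩ := hV e he
    rw [abs_le] at h1
    rw [mem_Icc]
    have h2 : (VV m M B r e : ℝ) < v0 + 1 + 1 := by linarith
    have h3 : (v0 : ℝ) < VV m M B r e + 2 + 1 := by linarith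
    have h4 : VV m M B r e < v0 + 1 + 1 := by exact_mod_cast h2
    have h5 : v0 < VV m M B r e + 2 + 1 := by exact_mod_cast h3
    omega
  have hb2 : N * (r - ε - c1) - 2 + 2 = N * (r - ε - c1) := by
    have h1 : 2 ≤ r - ε - c1 := by omega
    have h2 : r - ε - c1 ≤ N * (r - ε - c1) := Nat.le_mul_of_pos_left _ hN0
    omega
  obtain ⟨v, -, hv⟩ := Finset.exists_le_card_fiber_of_mul_le_card_of_maps_to
    (n := 2 ^ (N * (r - ε - c1) - 2)) hmaps ⟨v0, by rw [mem_Icc]; omega⟩ (by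
      rw [hTc, Nat.card_Icc]
      calc (v0 + 1 + 1 - (v0 - 2)) * 2 ^ (N * (r - ε - c1) - 2) ≤
          2 ^ 2 * 2 ^ (N * (r - ε - c1) - 2) := Nat.mul_le_mul_right _ (by omega)
        _ = (2 ^ (r - ε - c1)) ^ N := by
            rw [← pow_add, add_comm, hb2, ← pow_mul, mul_comm]
        _ ≤ k ^ N := Nat.pow_le_pow_left hk1 N)
  set T := Tall.filter (fun e => VV m M B r e = v) with hT
  have hKv := hc r (w (jv ρ' B v)) T (by
    intro e he
    rw [hT, mem_filter, hTall, mem_image] at he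
    obtain ⟨⟨s, -, rfl⟩, hev⟩ := he
    refine ⟨hE1 _, fun i hi => ?_, ?_⟩
    · rw [hnth s i hi]
      refine ⟨(hxq _ (hν1 i hi _ (s ⟨i, hi⟩).2)).2.2.2.2, fun j hj he => ?_⟩
      rw [hwr, rat_jq] at he
      exact lt_jq hj he
    · rw [hev]) hv
  refine ⟨v / 2 ^ ρ' - B, ?_, ?_⟩
  · have hne : T.Nonempty := by
      rw [← Finset.card_pos]
      exact lt_of_lt_of_le (by positivity) hv
    obtain ⟨e, he⟩ := hne
    rw [hT, mem_filter] at he
    have h1 := (hV e he.1).2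
    rw [he.2] at h1
    push_cast
    exact h1
  · have h1 : w (jq ((0 : ℚ), (v / 2 ^ ρ' - B : ℚ))) = w (jv ρ' B v) := by
      rw [hwr, rat_jq, rat_jv]
    rw [h1]
    have h2 : N * (r - ε - c1) + N * ε + N * c1 = N * r := by
      rw [← Nat.mul_add, ← Nat.mul_add]; congr 1; omega
    have h3 : N * (r + ε) = N * r + N * ε := Nat.mul_add _ _ _
    have h4 : (2 * N + 1) * ε = 2 * (N * ε) + ε := by ring
    rw [h4]
    have h5 : K (w (jv ρ' B v)) + (N * (r - ε - c1) - 2) ≤ N * (r + ε) + ε + c := hKv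
    omega

end Pool.Agent.R557.DS
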