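import Pool.Agent.R557.DSTan

set_option autoImplicit false

/-! Trigonometric polynomials, the half-angle substitution and interpolation. -/

namespace Pool.Agent.R557.DS

open Finset Real Polynomial

/-- a trigonometric polynomial -/
noncomputable def tp (m : ℕ) (a b : ℕ → ℝ) (x : ℝ) : ℝ :=
  a 0 + ∑ k ∈ Icc 1 m, (a k * cos (k * x) + b k * sin (k * x))

lemma tp_lip (m : ℕ) (a b : ℕ → ℝ) : ∃ L : ℕ, ∀ x y, |tp m a b x - tp m a b y| ≤ L * |x - y| := by
  obtain ⟨L, hL⟩ := exists_nat_ge (∑ k ∈ Icc 1 m, ((|a k| + |b k|) * k))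
  refine ⟨L, fun x y => ?_⟩
  have h1 : tp m a b x - tp m a b y = ∑ k ∈ Icc 1 m,
      (a k * (cos (k * x) - cos (k * y)) + b k * (sin (k * x) - sin (k * y))) := by
    unfold tp
    rw [add_sub_add_left_eq_sub, ← Finset.sum_sub_distrib]
    apply Finset.sum_congr rfl
    intro k _
    ring
  rw [h1]
  refine (Finset.abs_sum_le_sum_abs _ _).trans ?_
  have h2 : ∀ k ∈ Icc 1 m, |a k * (cos (k * x) - cos (k * y)) + b k * (sin (k * x) - sin (k * y))| ≤
      (|a k| + |b k|) * k * |x - y| := by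
    intro k _
    have h3 := abs_cos_sub_cos_le (k * x) (k * y)
    have h4 := abs_sin_sub_sin_le (k * x) (k * y)
    have h5 : |(k : ℝ) * x - k * y| = k * |x - y| := by
      rw [← mul_sub, abs_mul, Nat.abs_cast]
    rw [h5] at h3 h4
    refine (abs_add_le _ _).trans ?_
    rw [abs_mul, abs_mul]
    have h6 := mul_le_mul_of_nonneg_left h3 (abs_nonneg (a k))
    have h7 := mul_le_mul_of_nonneg_left h4 (abs_nonneg (b k))
    linarith
  refine (Finset.sum_le_sum h2).trans ?_
  rw [← Finset.sum_mul]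
  exact mul_le_mul_of_nonneg_right hL (abs_nonneg _)

lemma cos_two_arctan (t : ℝ) : (1 + t ^ 2) * cos (2 * arctan t) = 1 - t ^ 2 := by
  have h : (0 : ℝ) < 1 + t ^ 2 := by positivity
  rw [cos_two_mul, cos_sq_arctan]
  field_simp
  ring

lemma sin_two_arctan (t : ℝ) : (1 + t ^ 2) * sin (2 * arctan t) = 2 * t := by
  have h : (0 : ℝ) < 1 + t ^ 2 := by positivity
  have h1 : sin (arctan t) = t * cos (arctan t) := by
    have h2 := tan_mul_cos (cos_arctan_pos t).ne'
    rw [tan_arctan] at h2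
    exact h2.symm
  rw [sin_two_mul, h1]
  have h2 := cos_sq_arctan t
  have h3 : 2 * (t * cos (arctan t)) * cos (arctan t) = 2 * t * cos (arctan t) ^ 2 := by ring
  rw [h3, h2]
  field_simp

lemma exists_CS (k : ℕ) : ∃ C S : ℝ[X], C.natDegree ≤ 2 * k ∧ S.natDegree ≤ 2 * k ∧
    ∀ t : ℝ, C.eval t = (1 + t ^ 2) ^ k * cos (k * (2 * arctan t)) ∧
      S.eval t = (1 + t ^ 2) ^ k * sin (k * (2 * arctan t)) := by
  induction k with
  | zero => exact ⟨1, 0, by simp, by simp, fun t => by simp⟩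
  | succ k ih =>
    obtain ⟨C, S, hC, hS, h⟩ := ih
    have d1 : ((1 : ℝ[X]) - X ^ 2).natDegree ≤ 2 := by compute_degree
    have d2 : ((2 : ℝ[X]) * X).natDegree ≤ 2 := by
      refine (natDegree_mul_le_of_le (m := 0) (n := 1) ?_ natDegree_X_le).trans (by norm_num)
      exact (natDegree_ofNat 2).le
    refine ⟨C * (1 - X ^ 2) - S * (2 * X), S * (1 - X ^ 2) + C * (2 * X), ?_, ?_, fun t => ⟨?_, ?_⟩⟩
    · refine (natDegree_sub_le_of_le (natDegree_mul_le_of_le hC d1)
        (natDegree_mul_le_of_le hS d2)).trans ?_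
      simp; omega
    · refine (natDegree_add_le_of_le (natDegree_mul_le_of_le hS d1)
        (natDegree_mul_le_of_le hC d2)).trans ?_
      simp; omega
    · simp only [eval_sub, eval_mul, eval_one, eval_pow, eval_X, eval_ofNat]
      rw [(h t).1, (h t).2, ← cos_two_arctan t, ← sin_two_arctan t]
      push_cast
      rw [add_mul (k : ℝ) 1, one_mul, cos_add, pow_succ]
      ring
    · simp only [eval_add, eval_sub, eval_mul, eval_one, eval_pow, eval_X, eval_ofNat]
      rw [(h t).1, (h t).2, ← cos_two_arctan t, ← sin_two_arctan t]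
      push_cast
      rw [add_mul (k : ℝ) 1, one_mul, sin_add, pow_succ]
      ring

lemma exists_poly (m : ℕ) (a b : ℕ → ℝ) : ∃ P : ℝ[X], P.natDegree ≤ 2 * m ∧
    ∀ t : ℝ, P.eval t = (1 + t ^ 2) ^ m * tp m a b (2 * arctan t) := by
  choose C S hC hS h using exists_CS
  have d0 : ((1 : ℝ[X]) + X ^ 2).natDegree ≤ 2 := by compute_degree
  have dp : ∀ n : ℕ, (((1 : ℝ[X]) + X ^ 2) ^ n).natDegree ≤ n * 2 := fun n =>
    natDegree_pow_le_of_le n d0
  refine ⟨Polynomial.C (a 0) * (1 + X ^ 2) ^ m + ∑ k ∈ Icc 1 m,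
    (Polynomial.C (a k) * (C k * (1 + X ^ 2) ^ (m - k)) +
      Polynomial.C (b k) * (S k * (1 + X ^ 2) ^ (m - k))), ?_, fun t => ?_⟩
  · refine (natDegree_add_le_of_le (m := 2 * m) (n := 2 * m) ?_ ?_).trans (by simp)
    · refine (natDegree_C_mul_le _ _).trans ((dp m).trans (by omega))
    · apply natDegree_sum_le_of_forall_le
      intro k hk
      rw [mem_Icc] at hk
      refine (natDegree_add_le_of_le (m := 2 * m) (n := 2 * m) ?_ ?_).trans (by simp)
      · refine (natDegree_C_mul_le _ _).trans ?_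
        refine (natDegree_mul_le_of_le (hC k) (dp (m - k))).trans (by omega)
      · refine (natDegree_C_mul_le _ _).trans ?_
        refine (natDegree_mul_le_of_le (hS k) (dp (m - k))).trans (by omega)
  · unfold tp
    simp only [eval_add, eval_mul, eval_C, eval_pow, eval_one, eval_X, eval_finsetSum]
    rw [mul_add, Finset.mul_sum]
    congr 1
    · ring
    · apply Finset.sum_congr rfl
      intro k hk
      rw [mem_Icc] at hk
      rw [(h k t).1, (h k t).2]
      have h1 : (1 + t ^ 2) ^ m = (1 + t ^ 2) ^ k * (1 + t ^ 2) ^ (m - k) := by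
        rw [← pow_add]; congr 1; omega
      rw [h1]
      ring

/-- the value at `0` of the interpolation polynomial -/
def Lg {F : Type*} [Field F] (N : ℕ) (v y : ℕ → F) : F :=
  ∑ i ∈ range N, y i * ∏ j ∈ range N, (if j = i then 1 else v j / (v j - v i))

lemma Lg_eq (N : ℕ) (P : ℝ[X]) (hP : P.natDegree < N) (v : ℕ → ℝ)
    (hv : ∀ i < N, ∀ j < N, i ≠ j → v i ≠ v j) : P.eval 0 = Lg N v (fun i => P.eval (v i)) := by
  have hinj : Set.InjOn v (range N : Finset ℕ) := by
    intro i hi j hj hij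
    rw [Finset.mem_coe, mem_range] at hi hj
    by_contra hne
    exact hv i hi j hj hne hij
  have hdeg : P.degree < ((range N).card : WithBot ℕ) := by
    rw [card_range]
    exact lt_of_le_of_lt degree_le_natDegree (by exact_mod_cast hP)
  have h1 := Lagrange.eq_interpolate hinj hdeg
  have h2 := congrArg (fun Q => eval 0 Q) h1
  rw [Lagrange.interpolate_apply, eval_finsetSum] at h2
  rw [h2]
  unfold Lg
  apply Finset.sum_congr rfl
  intro i hi
  rw [eval_mul, eval_C]
  congr 1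
  unfold Lagrange.basis
  rw [eval_prod, ← Finset.mul_prod_erase (range N) _ hi]
  rw [if_pos rfl, one_mul]
  apply Finset.prod_congr rfl
  intro j hj
  rw [mem_erase, mem_range] at hj
  rw [if_neg hj.1]
  unfold Lagrange.basisDivisor
  simp only [eval_mul, eval_C, eval_sub, eval_X, zero_sub]
  have h3 : v j - v i ≠ 0 := sub_ne_zero.2 (hv j hj.2 i (mem_range.1 hi) hj.1)
  have h4 : v i - v j ≠ 0 := by rw [← neg_sub]; exact neg_ne_zero.2 h3
  field_simp
  ring

lemma Lg_sub (N : ℕ) (v y y' : ℕ → ℝ) : Lg N v y - Lg N v y' = Lg N v (fun i => y i - y' i) := by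
  unfold Lg
  rw [← Finset.sum_sub_distrib]
  apply Finset.sum_congr rfl
  intro i _
  ring

lemma Lg_le (N : ℕ) (v y : ℕ → ℝ) (ρ η : ℝ) (hρ : 0 < ρ) (hρ1 : ρ ≤ 1) (hη : 0 ≤ η)
    (hv1 : ∀ i < N, |v i| ≤ 1) (hv : ∀ i < N, ∀ j < N, i ≠ j → ρ ≤ |v i - v j|)
    (hy : ∀ i < N, |y i| ≤ η) : |Lg N v y| ≤ N * η * (1 / ρ) ^ N := by
  unfold Lg
  refine (Finset.abs_sum_le_sum_abs _ _).trans ?_
  have h1 : ∀ i ∈ range N, |y i * ∏ j ∈ range N, (if j = i then 1 else v j / (v j - v i))| ≤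
      η * (1 / ρ) ^ N := by
    intro i hi
    rw [mem_range] at hi
    rw [abs_mul]
    apply mul_le_mul (hy i hi) _ (abs_nonneg _) hη
    rw [Finset.abs_prod]
    calc ∏ j ∈ range N, |if j = i then 1 else v j / (v j - v i)| ≤ ∏ j ∈ range N, (1 / ρ) := by
          apply Finset.prod_le_prod (fun _ _ => abs_nonneg _)
          intro j hj
          rw [mem_range] at hj
          split_ifs with h
          · rw [abs_one, le_div_iff₀ hρ]; linarith
          · rw [abs_div]
            apply div_le_div₀ (by norm_num) (hv1 j hj) hρ (hv j hj i hi h)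
      _ = (1 / ρ) ^ N := by rw [Finset.prod_const, card_range]
  refine (Finset.sum_le_sum h1).trans (le_of_eq ?_)
  rw [Finset.sum_const, card_range, nsmul_eq_mul]
  ring

/-- the main estimate: the value at `0` is computed from approximate values at separated points -/
lemma approx_zero (m : ℕ) (a b : ℕ → ℝ) : ∃ D : ℕ, ∀ (h ρ : ℝ) (τ x p q : ℕ → ℝ), 0 < h → 0 < ρ →
    ρ ≤ 1 →
    (∀ i < 2 * m + 1, 0 ≤ τ i ∧ τ i ≤ 1) →
    (∀ i < 2 * m + 1, |2 * arctan (τ i) - p i| ≤ 4 * h) →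
    (∀ i < 2 * m + 1, |p i - x i| ≤ h) → (∀ i < 2 * m + 1, |q i - tp m a b (x i)| ≤ h) →
    (∀ i < 2 * m + 1, ∀ j < 2 * m + 1, i ≠ j → ρ ≤ |τ i - τ j|) →
    |Lg (2 * m + 1) τ (fun i => q i * (1 + τ i ^ 2) ^ m) - tp m a b 0| ≤
      D * h * (1 / ρ) ^ (2 * m + 1) := by
  obtain ⟨L, hL⟩ := tp_lip m a b
  obtain ⟨P, hPd, hP⟩ := exists_poly m a b
  refine ⟨(2 * m + 1) * (2 ^ m * (1 + 5 * L)), fun h ρ τ x p q hh hρ hρ1 hτ hp hpx hq hsep => ?_⟩
  have h0 : tp m a b 0 = P.eval 0 := by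
    rw [hP 0]; simp
  have hinj : ∀ i < 2 * m + 1, ∀ j < 2 * m + 1, i ≠ j → τ i ≠ τ j := by
    intro i hi j hj hij he
    have := hsep i hi j hj hij
    rw [he, sub_self, abs_zero] at this
    linarith
  rw [h0, Lg_eq (2 * m + 1) P (by omega) τ hinj, Lg_sub]
  have h1 : ∀ i < 2 * m + 1, |q i * (1 + τ i ^ 2) ^ m - P.eval (τ i)| ≤ 2 ^ m * (1 + 5 * L) * h := by
    intro i hi
    rw [hP]
    have h2 : q i * (1 + τ i ^ 2) ^ m - (1 + τ i ^ 2) ^ m * tp m a b (2 * arctan (τ i)) =
        (1 + τ i ^ 2) ^ m * ((q i - tp m a b (x i)) + (tp m a b (x i) -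
          tp m a b (2 * arctan (τ i)))) := by ring
    rw [h2, abs_mul]
    have h3 : |(1 + τ i ^ 2) ^ m| ≤ 2 ^ m := by
      rw [abs_of_nonneg (by positivity)]
      apply pow_le_pow_left₀ (by positivity)
      have := pow_le_one₀ (n := 2) (hτ i hi).1 (hτ i hi).2
      linarith
    have h4 : |(q i - tp m a b (x i)) + (tp m a b (x i) - tp m a b (2 * arctan (τ i)))| ≤
        (1 + 5 * L) * h := by
      refine (abs_add_le _ _).trans ?_
      have h5 := hL (x i) (2 * arctan (τ i))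
      have h6 : |x i - 2 * arctan (τ i)| ≤ 5 * h := by
        have e : x i - 2 * arctan (τ i) = -(2 * arctan (τ i) - p i) - (p i - x i) := by ring
        rw [e]
        refine (abs_sub _ _).trans ?_
        rw [abs_neg]
        linarith [hp i hi, hpx i hi]
      have h7 := mul_le_mul_of_nonneg_left h6 (Nat.cast_nonneg (α := ℝ) L)
      linarith [hq i hi]
    calc |(1 + τ i ^ 2) ^ m| * |(q i - tp m a b (x i)) + (tp m a b (x i) -
          tp m a b (2 * arctan (τ i)))| ≤ 2 ^ m * ((1 + 5 * L) * h) :=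
          mul_le_mul h3 h4 (abs_nonneg _) (by positivity)
      _ = _ := by ring
  have h2 := Lg_le (2 * m + 1) τ (fun i => q i * (1 + τ i ^ 2) ^ m - P.eval (τ i)) ρ
    (2 ^ m * (1 + 5 * L) * h) hρ hρ1 (by positivity) (fun i hi => by
      rw [abs_of_nonneg (hτ i hi).1]; exact (hτ i hi).2) hsep h1
  refine h2.trans (le_of_eq ?_)
  push_cast
  ring

end Pool.Agent.R557.DS
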