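import Pool.Agent.R557.DSEnum

set_option autoImplicit false

/-! Computable functions with integer and rational values. -/

namespace Pool.Agent.R557.DS

open Finset Encodable
open Pool.Agent.R557.CK (c_ite' c_pair)
open Pool.Agent.H166R3.AT (c_add c_mul c_sub c_div c_mod c_pow c_sum c_le c_lt c_eq c_and c_or
  c_not c_count ball ball_iff c_ball)

section int

theorem enc_ofNat (n : ℕ) : encode (n : ℤ) = 2 * n := rfl
theorem enc_negSucc (n : ℕ) : encode (Int.negSucc n) = 2 * n + 1 := rfl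

theorem prim_toNat : Primrec Int.toNat := by
  have h : Primrec (fun n : ℕ => if n % 2 = 0 then n / 2 else 0) := by
    refine Primrec.ite ?_ ?_ (Primrec.const 0)
    · exact Primrec.eq.comp (Primrec.nat_mod.comp Primrec.id (Primrec.const 2)) (Primrec.const 0)
    · exact Primrec.nat_div.comp Primrec.id (Primrec.const 2)
  refine (h.comp Primrec.encode).of_eq fun z => ?_
  cases z with
  | ofNat n =>
    show (if (encode (n : ℤ)) % 2 = 0 then (encode (n : ℤ)) / 2 else 0) = n
    rw [enc_ofNat, if_pos (by omega)]; omega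
  | negSucc n =>
    show (if (encode (Int.negSucc n)) % 2 = 0 then (encode (Int.negSucc n)) / 2 else 0) = 0
    rw [enc_negSucc, if_neg (by omega)]

theorem prim_toNat_neg : Primrec (fun z : ℤ => (-z).toNat) := by
  have h : Primrec (fun n : ℕ => if n % 2 = 0 then 0 else n / 2 + 1) := by
    refine Primrec.ite ?_ (Primrec.const 0) ?_
    · exact Primrec.eq.comp (Primrec.nat_mod.comp Primrec.id (Primrec.const 2)) (Primrec.const 0)
    · exact Primrec.succ.comp (Primrec.nat_div.comp Primrec.id (Primrec.const 2))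
  refine (h.comp Primrec.encode).of_eq fun z => ?_
  cases z with
  | ofNat n =>
    show (if (encode (n : ℤ)) % 2 = 0 then 0 else (encode (n : ℤ)) / 2 + 1) = (-(n:ℤ)).toNat
    rw [enc_ofNat, if_pos (by omega)]; omega
  | negSucc n =>
    show (if (encode (Int.negSucc n)) % 2 = 0 then 0 else (encode (Int.negSucc n)) / 2 + 1) =
      (-(Int.negSucc n)).toNat
    rw [enc_negSucc, if_neg (by omega)]
    rw [Int.neg_negSucc]
    simp
    omega

theorem prim_natSub : Primrec₂ (fun p q : ℕ => (p : ℤ) - (q : ℤ)) := by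
  have h : Primrec₂ (fun p q : ℕ => if q ≤ p then 2 * (p - q) else 2 * (q - p) - 1) := by
    refine Primrec.ite ?_ ?_ ?_
    · exact Primrec.nat_le.comp Primrec.snd Primrec.fst
    · exact Primrec.nat_mul.comp (Primrec.const 2) (Primrec.nat_sub.comp Primrec.fst Primrec.snd)
    · exact Primrec.nat_sub.comp (Primrec.nat_mul.comp (Primrec.const 2)
        (Primrec.nat_sub.comp Primrec.snd Primrec.fst)) (Primrec.const 1)
  refine Primrec.encode_iff.1 (Primrec.of_eq (α := ℕ × ℕ) h fun a => ?_)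
  obtain ⟨p, q⟩ := a
  show (if q ≤ p then 2 * (p - q) else 2 * (q - p) - 1) = encode ((p : ℤ) - (q : ℤ))
  split_ifs with hq
  · have : (p : ℤ) - q = ((p - q : ℕ) : ℤ) := by omega
    rw [this, enc_ofNat]
  · have : (p : ℤ) - q = Int.negSucc (q - p - 1) := by
      rw [Int.negSucc_eq]; omega
    rw [this, enc_negSucc]; omega

variable {α : Type*} [Primcodable α]

lemma z_toNat {f : α → ℤ} (hf : Computable f) : Computable fun a => (f a).toNat :=
  prim_toNat.to_comp.comp hf

lemma z_toNat_neg {f : α → ℤ} (hf : Computable f) : Computable fun a => (-(f a)).toNat :=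
  prim_toNat_neg.to_comp.comp hf

lemma z_sub' {f g : α → ℕ} (hf : Computable f) (hg : Computable g) :
    Computable fun a => (f a : ℤ) - (g a : ℤ) := prim_natSub.to_comp.comp hf hg

lemma z_cast {f : α → ℕ} (hf : Computable f) : Computable fun a => (f a : ℤ) :=
  (z_sub' hf (Computable.const 0)).of_eq fun a => by simp

lemma z_add {f g : α → ℤ} (hf : Computable f) (hg : Computable g) :
    Computable fun a => f a + g a :=
  (z_sub' (c_add (z_toNat hf) (z_toNat hg)) (c_add (z_toNat_neg hf) (z_toNat_neg hg))).of_eq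
    fun a => by push_cast; omega

lemma z_neg {f : α → ℤ} (hf : Computable f) : Computable fun a => - f a :=
  (z_sub' (z_toNat_neg hf) (z_toNat hf)).of_eq fun a => by omega

lemma z_mul {f g : α → ℤ} (hf : Computable f) (hg : Computable g) :
    Computable fun a => f a * g a := by
  refine (z_sub' (c_add (c_mul (z_toNat hf) (z_toNat hg)) (c_mul (z_toNat_neg hf) (z_toNat_neg hg)))
    (c_add (c_mul (z_toNat hf) (z_toNat_neg hg)) (c_mul (z_toNat_neg hf) (z_toNat hg)))).of_eq
    fun a => ?_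
  push_cast
  have hx : f a = ((f a).toNat : ℤ) - ((-(f a)).toNat : ℤ) := by omega
  have hy : g a = ((g a).toNat : ℤ) - ((-(g a)).toNat : ℤ) := by omega
  generalize ((f a).toNat : ℤ) = x at *
  generalize ((-(f a)).toNat : ℤ) = x' at *
  generalize ((g a).toNat : ℤ) = y at *
  generalize ((-(g a)).toNat : ℤ) = y' at *
  rw [hx, hy]
  ring

lemma z_le {f g : α → ℤ} (hf : Computable f) (hg : Computable g) :
    Computable fun a => decide (f a ≤ g a) :=
  (c_le (c_add (z_toNat hf) (z_toNat_neg hg)) (c_add (z_toNat_neg hf) (z_toNat hg))).of_eq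
    fun a => by
      congr 1
      rw [eq_iff_iff]
      omega

end int

section rat
variable {α : Type*} [Primcodable α]

/-- `f` is a computable function with rational values -/
def CQ (f : α → ℚ) : Prop :=
  ∃ (n : α → ℤ) (d : α → ℕ), Computable n ∧ Computable d ∧ ∀ a, f a = n a / (d a + 1 : ℚ)

lemma CQ.of_eq {f g : α → ℚ} (hf : CQ f) (h : ∀ a, f a = g a) : CQ g := by
  obtain ⟨n, d, hn, hd, hf⟩ := hf
  exact ⟨n, d, hn, hd, fun a => by rw [← h, hf]⟩

lemma CQ.int {f : α → ℤ} (hf : Computable f) : CQ fun a => (f a : ℚ) :=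
  ⟨f, fun _ => 0, hf, Computable.const 0, fun a => by simp⟩

lemma CQ.nat {f : α → ℕ} (hf : Computable f) : CQ fun a => (f a : ℚ) :=
  (CQ.int (z_cast hf)).of_eq fun a => by simp

lemma CQ.const (q : ℚ) : CQ fun _ : α => q := by
  refine ⟨fun _ => q.num, fun _ => q.den - 1, Computable.const _, Computable.const _, fun _ => ?_⟩
  have h1 : (1 : ℕ) ≤ q.den := q.pos
  push_cast [Nat.cast_sub h1]
  rw [sub_add_cancel]
  exact (Rat.num_div_den q).symm

lemma CQ.comp {β : Type*} [Primcodable β] {f : α → ℚ} (hf : CQ f) {h : β → α} (hh : Computable h) :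
    CQ fun b => f (h b) := by
  obtain ⟨n, d, hn, hd, hf⟩ := hf
  exact ⟨fun b => n (h b), fun b => d (h b), hn.comp hh, hd.comp hh, fun b => hf (h b)⟩

/-- addition of fractions -/
def addF (p q : ℤ × ℕ) : ℤ × ℕ :=
  (p.1 * (q.2 + 1 : ℕ) + q.1 * (p.2 + 1 : ℕ), p.2 * q.2 + p.2 + q.2)

/-- multiplication of fractions -/
def mulF (p q : ℤ × ℕ) : ℤ × ℕ := (p.1 * q.1, p.2 * q.2 + p.2 + q.2)

/-- the value of a fraction -/
def valF (p : ℤ × ℕ) : ℚ := p.1 / (p.2 + 1 : ℚ)

lemma valF_add (p q : ℤ × ℕ) : valF (addF p q) = valF p + valF q := by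
  unfold valF addF
  have h1 : (p.2 + 1 : ℚ) ≠ 0 := by positivity
  have h2 : (q.2 + 1 : ℚ) ≠ 0 := by positivity
  have h3 : ((p.2 * q.2 + p.2 + q.2 : ℕ) : ℚ) + 1 = (p.2 + 1) * (q.2 + 1) := by push_cast; ring
  simp only
  rw [h3, div_add_div _ _ h1 h2]
  push_cast
  ring

lemma valF_mul (p q : ℤ × ℕ) : valF (mulF p q) = valF p * valF q := by
  unfold valF mulF
  have h3 : ((p.2 * q.2 + p.2 + q.2 : ℕ) : ℚ) + 1 = (p.2 + 1) * (q.2 + 1) := by push_cast; ring
  simp only
  rw [h3, div_mul_div_comm]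
  push_cast
  ring

lemma c_addF {f g : α → ℤ × ℕ} (hf : Computable f) (hg : Computable g) :
    Computable fun a => addF (f a) (g a) := by
  have f1 := Computable.fst.comp hf
  have f2 := Computable.snd.comp hf
  have g1 := Computable.fst.comp hg
  have g2 := Computable.snd.comp hg
  exact Computable.pair (z_add (z_mul f1 (z_cast (c_add g2 (Computable.const 1))))
    (z_mul g1 (z_cast (c_add f2 (Computable.const 1))))) (c_add (c_add (c_mul f2 g2) f2) g2)

lemma c_mulF {f g : α → ℤ × ℕ} (hf : Computable f) (hg : Computable g) :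
    Computable fun a => mulF (f a) (g a) := by
  have f1 := Computable.fst.comp hf
  have f2 := Computable.snd.comp hf
  have g1 := Computable.fst.comp hg
  have g2 := Computable.snd.comp hg
  exact Computable.pair (z_mul f1 g1) (c_add (c_add (c_mul f2 g2) f2) g2)

lemma CQ.exists_F {f : α → ℚ} (hf : CQ f) : ∃ F : α → ℤ × ℕ, Computable F ∧ ∀ a, f a = valF (F a) := by
  obtain ⟨n, d, hn, hd, hf⟩ := hf
  exact ⟨fun a => (n a, d a), Computable.pair hn hd, hf⟩

lemma CQ.of_F {f : α → ℚ} {F : α → ℤ × ℕ} (hF : Computable F) (h : ∀ a, f a = valF (F a)) : CQ f :=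
  ⟨fun a => (F a).1, fun a => (F a).2, Computable.fst.comp hF, Computable.snd.comp hF, h⟩

lemma CQ.add {f g : α → ℚ} (hf : CQ f) (hg : CQ g) : CQ fun a => f a + g a := by
  obtain ⟨F, hF, hf⟩ := hf.exists_F
  obtain ⟨G, hG, hg⟩ := hg.exists_F
  exact CQ.of_F (c_addF hF hG) fun a => by rw [valF_add, hf, hg]

lemma CQ.mul {f g : α → ℚ} (hf : CQ f) (hg : CQ g) : CQ fun a => f a * g a := by
  obtain ⟨F, hF, hf⟩ := hf.exists_F
  obtain ⟨G, hG, hg⟩ := hg.exists_F
  exact CQ.of_F (c_mulF hF hG) fun a => by rw [valF_mul, hf, hg]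

lemma CQ.neg {f : α → ℚ} (hf : CQ f) : CQ fun a => - f a :=
  ((CQ.const (-1)).mul hf).of_eq fun a => by ring

lemma CQ.sub {f g : α → ℚ} (hf : CQ f) (hg : CQ g) : CQ fun a => f a - g a :=
  (hf.add hg.neg).of_eq fun a => by ring

lemma CQ.ite {p : α → Prop} [DecidablePred p] {f g : α → ℚ} (hp : Computable fun a => decide (p a))
    (hf : CQ f) (hg : CQ g) : CQ fun a => if p a then f a else g a := by
  obtain ⟨F, hF, hf⟩ := hf.exists_F
  obtain ⟨G, hG, hg⟩ := hg.exists_F
  refine CQ.of_F (c_ite' hp hF hG) fun a => ?_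
  split_ifs
  · exact hf a
  · exact hg a

lemma CQ.le {f g : α → ℚ} (hf : CQ f) (hg : CQ g) : Computable fun a => decide (f a ≤ g a) := by
  obtain ⟨n, d, hn, hd, hf⟩ := hf
  obtain ⟨n', d', hn', hd', hg⟩ := hg
  refine (z_le (z_mul hn (z_cast (c_add hd' (Computable.const 1))))
    (z_mul hn' (z_cast (c_add hd (Computable.const 1))))).of_eq fun a => ?_
  congr 1
  rw [hf, hg, div_le_div_iff₀ (by positivity) (by positivity), eq_iff_iff]
  constructor
  · intro h; exact_mod_cast h
  · intro h; exact_mod_cast h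

lemma CQ.inv {f : α → ℚ} (hf : CQ f) : CQ fun a => (f a)⁻¹ := by
  obtain ⟨n, d, hn, hd, hf⟩ := hf
  have hF : CQ fun a => if n a ≤ 0 then
      (if 0 ≤ n a then (0 : ℚ) else - ((d a + 1 : ℕ) : ℚ) / (((-(n a)).toNat - 1 : ℕ) + 1 : ℚ)) else
      (((d a + 1 : ℕ) : ℚ)) / (((n a).toNat - 1 : ℕ) + 1 : ℚ) := by
    refine CQ.ite (z_le hn (Computable.const 0)) (CQ.ite (z_le (Computable.const 0) hn)
      (CQ.const 0) ?_) ?_
    · refine ⟨fun a => - ((d a + 1 : ℕ) : ℤ), fun a => (-(n a)).toNat - 1,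
        z_neg (z_cast (c_add hd (Computable.const 1))), c_sub (z_toNat_neg hn) (Computable.const 1),
        fun a => by push_cast; rfl⟩
    · refine ⟨fun a => ((d a + 1 : ℕ) : ℤ), fun a => (n a).toNat - 1,
        z_cast (c_add hd (Computable.const 1)), c_sub (z_toNat hn) (Computable.const 1),
        fun a => by push_cast; rfl⟩
  refine hF.of_eq fun a => ?_
  rw [hf, inv_div]
  split_ifs with h1 h2
  · have : n a = 0 := le_antisymm h1 h2
    rw [this]; simp
  · have h3 : ((((-(n a)).toNat - 1 : ℕ) : ℚ) + 1) = - (n a : ℚ) := by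
      have h4 : (((((-(n a)).toNat - 1 : ℕ) : ℤ)) + 1) = - n a := by omega
      exact_mod_cast h4
    rw [h3]
    push_cast
    rw [neg_div_neg_eq]
  · have h3 : ((((n a).toNat - 1 : ℕ) : ℚ) + 1) = (n a : ℚ) := by
      have h4 : (((((n a).toNat - 1 : ℕ) : ℤ)) + 1) = n a := by omega
      exact_mod_cast h4
    rw [h3]
    push_cast
    rfl

lemma CQ.div {f g : α → ℚ} (hf : CQ f) (hg : CQ g) : CQ fun a => f a / g a :=
  (hf.mul hg.inv).of_eq fun a => by rw [div_eq_mul_inv]

lemma CQ.pow {f : α → ℚ} (hf : CQ f) (k : ℕ) : CQ fun a => f a ^ k := by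
  induction k with
  | zero => exact (CQ.const 1).of_eq fun a => by simp
  | succ k ih => exact (ih.mul hf).of_eq fun a => by rw [pow_succ]

lemma CQ.sum {f : α → ℕ → ℚ} {n : α → ℕ} (hn : Computable n)
    (hf : CQ fun p : α × ℕ => f p.1 p.2) : CQ fun a => ∑ i ∈ range (n a), f a i := by
  obtain ⟨F, hF, hf⟩ := hf.exists_F
  have h := Computable.nat_rec (f := n) (g := fun _ => ((0, 0) : ℤ × ℕ))
    (h := fun a q => addF q.2 (F (a, q.1))) hn (Computable.const _)
    (c_addF (Computable.snd.comp Computable.snd)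
      (hF.comp (Computable.pair Computable.fst (Computable.fst.comp Computable.snd))))
  refine CQ.of_F h fun a => ?_
  induction n a with
  | zero => simp [valF]
  | succ m ih =>
    rw [Finset.sum_range_succ, ih]
    have := hf (a, m)
    simp only at this
    rw [this, ← valF_add]

lemma CQ.prod {f : α → ℕ → ℚ} {n : α → ℕ} (hn : Computable n)
    (hf : CQ fun p : α × ℕ => f p.1 p.2) : CQ fun a => ∏ i ∈ range (n a), f a i := by
  obtain ⟨F, hF, hf⟩ := hf.exists_F
  have h := Computable.nat_rec (f := n) (g := fun _ => ((1, 0) : ℤ × ℕ))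
    (h := fun a q => mulF q.2 (F (a, q.1))) hn (Computable.const _)
    (c_mulF (Computable.snd.comp Computable.snd)
      (hF.comp (Computable.pair Computable.fst (Computable.fst.comp Computable.snd))))
  refine CQ.of_F h fun a => ?_
  induction n a with
  | zero => simp [valF]
  | succ m ih =>
    rw [Finset.prod_range_succ, ih]
    have := hf (a, m)
    simp only at this
    rw [this, ← valF_mul]

lemma CQ.floor {f : α → ℚ} (hf : CQ f) : Computable fun a => ⌊f a⌋₊ := by
  obtain ⟨n, d, hn, hd, hf⟩ := hf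
  refine (c_div (z_toNat hn) (c_add hd (Computable.const 1))).of_eq fun a => ?_
  rw [hf]
  rcases le_total 0 (n a) with h | h
  · obtain ⟨k, hk⟩ := Int.eq_ofNat_of_zero_le h
    rw [hk]
    have h1 : ((k : ℤ) : ℚ) / ((d a : ℚ) + 1) = (k : ℚ) / ((d a + 1 : ℕ) : ℚ) := by push_cast; rfl
    rw [h1, Nat.floor_div_eq_div]
    simp
  · have h1 : ((n a : ℤ) : ℚ) / ((d a : ℚ) + 1) ≤ 0 :=
      div_nonpos_of_nonpos_of_nonneg (by exact_mod_cast h) (by positivity)
    rw [Nat.floor_of_nonpos h1]
    have h2 : (n a).toNat = 0 := by omega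
    rw [h2, Nat.zero_div]

end rat

end Pool.Agent.R557.DS
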