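import Pool.Agent.R557.DSRat

set_option autoImplicit false

/-! A computable approximation of the tangent. -/

namespace Pool.Agent.R557.DS

open Finset Real
open Pool.Agent.R557.CK (c_ite' c_pair)
open Pool.Agent.H166R3.AT (c_add c_mul c_sub c_div c_mod c_pow c_sum c_le c_lt c_eq c_and c_or
  c_not c_count ball ball_iff c_ball)

lemma arctan_diff {a b : ℝ} (ha : 0 ≤ a) (hab : a < b) :
    (b - a) / (1 + b ^ 2) ≤ arctan b - arctan a ∧ arctan b - arctan a ≤ (b - a) / (1 + a ^ 2) := by
  obtain ⟨c, hc, hc'⟩ := exists_hasDerivAt_eq_slope arctan (fun x => 1 / (1 + x ^ 2)) hab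
    continuous_arctan.continuousOn (fun x _ => hasDerivAt_arctan x)
  have hba : 0 < b - a := sub_pos.2 hab
  have h1 : arctan b - arctan a = (b - a) / (1 + c ^ 2) := by
    rw [eq_div_iff hba.ne'] at hc'
    rw [← hc']
    ring
  have h2 : 0 < 1 + c ^ 2 := by positivity
  have h3 : 0 < 1 + b ^ 2 := by positivity
  have h4 : 0 < 1 + a ^ 2 := by positivity
  have hc0 : 0 ≤ c := ha.trans hc.1.le
  rw [h1]
  constructor
  · apply div_le_div_of_nonneg_left hba.le h2
    have := pow_le_pow_left₀ hc0 hc.2.le 2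
    linarith
  · apply div_le_div_of_nonneg_left hba.le h4
    have := pow_le_pow_left₀ ha hc.1.le 2
    linarith

/-- Riemann sums for the arc tangent -/
def Sr (r k : ℕ) : ℚ := ∑ j ∈ range k, (1 / 2 ^ r) / (1 + (j / 2 ^ r) ^ 2)

lemma Sr_succ (r k : ℕ) : Sr r (k + 1) = Sr r k + (1 / 2 ^ r) / (1 + (k / 2 ^ r) ^ 2) := by
  unfold Sr; rw [sum_range_succ]

lemma Sr_mono (r : ℕ) {k k' : ℕ} (h : k ≤ k') : Sr r k ≤ Sr r k' := by
  induction k', h using Nat.le_induction with
  | base => exact le_rfl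
  | succ n _ ih =>
    rw [Sr_succ]
    have : (0 : ℚ) ≤ (1 / 2 ^ r) / (1 + (n / 2 ^ r) ^ 2) := by positivity
    linarith

lemma Sr_bd (r k : ℕ) : arctan ((k : ℝ) / 2 ^ r) ≤ (Sr r k : ℝ) ∧
    (Sr r k : ℝ) ≤ arctan ((k : ℝ) / 2 ^ r) + (1 / 2 ^ r - (1 / 2 ^ r) / (1 + (k / 2 ^ r) ^ 2)) := by
  induction k with
  | zero => simp [Sr]
  | succ k ih =>
    have hp : (0 : ℝ) < 2 ^ r := by positivity
    have hlt : (k : ℝ) / 2 ^ r < ((k + 1 : ℕ) : ℝ) / 2 ^ r := by
      apply div_lt_div_of_pos_right _ hp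
      push_cast; linarith
    obtain ⟨h1, h2⟩ := arctan_diff (by positivity) hlt
    have h3 : ((k + 1 : ℕ) : ℝ) / 2 ^ r - (k : ℝ) / 2 ^ r = 1 / 2 ^ r := by
      push_cast; ring
    rw [h3] at h1 h2
    rw [Sr_succ]
    push_cast at *
    constructor
    · linarith [ih.1]
    · linarith [ih.2]

lemma count_down (p : ℕ → Bool) (hp : ∀ i j, i ≤ j → p j = true → p i = true) (n : ℕ) :
    (∀ j < ((range n).filter (fun i => p i = true)).card, p j = true) ∧
    (((range n).filter (fun i => p i = true)).card < n →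
      p ((range n).filter (fun i => p i = true)).card = false) ∧
    ((range n).filter (fun i => p i = true)).card ≤ n := by
  induction n with
  | zero => simp
  | succ n ih =>
    by_cases h : p n = true
    · have h1 : (range (n + 1)).filter (fun i => p i = true) = range (n + 1) := by
        rw [Finset.filter_true_of_mem]
        intro i hi
        rw [mem_range] at hi
        exact hp i n (by omega) h
      rw [h1, card_range]
      exact ⟨fun j hj => hp j n (by omega) h, fun h => absurd h (lt_irrefl _), le_rfl⟩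
    · have h1 : (range (n + 1)).filter (fun i => p i = true) = (range n).filter (fun i => p i = true) := by
        rw [Finset.range_add_one, Finset.filter_insert, if_neg h]
      rw [h1]
      refine ⟨ih.1, fun _ => ?_, by omega⟩
      rcases Nat.lt_or_ge ((range n).filter (fun i => p i = true)).card n with h2 | h2
      · exact ih.2.1 h2
      · have h3 : ((range n).filter (fun i => p i = true)).card = n := le_antisymm ih.2.2 h2
        rw [h3]
        simpa using h

/-- the index of the approximation of the tangent of `x / 2` -/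
def kk (r : ℕ) (x : ℚ) : ℕ := ((range (2 ^ r)).filter
  (fun j => decide (2 * Sr r (j + 1) ≤ x) = true)).card

/-- the approximation of the tangent of `x / 2` -/
def tau (r : ℕ) (x : ℚ) : ℚ := kk r x / 2 ^ r

section
variable {α : Type*} [Primcodable α]

lemma CQ.two_pow {r : α → ℕ} (hr : Computable r) : CQ fun a => (2 : ℚ) ^ r a :=
  (CQ.nat (c_pow (Computable.const 2) hr)).of_eq fun a => by push_cast; rfl

lemma CQ.Sr {r k : α → ℕ} (hr : Computable r) (hk : Computable k) : CQ fun a => Sr (r a) (k a) := by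
  refine CQ.sum (f := fun a j => (1 / 2 ^ r a) / (1 + (j / 2 ^ r a) ^ 2)) hk ?_
  have h1 : CQ fun p : α × ℕ => (2 : ℚ) ^ r p.1 := CQ.two_pow (hr.comp Computable.fst)
  exact ((CQ.const 1).div h1).div ((CQ.const 1).add (((CQ.nat Computable.snd).div h1).pow 2))

lemma c_kk {r : α → ℕ} {x : α → ℚ} (hr : Computable r) (hx : CQ x) :
    Computable fun a => kk (r a) (x a) := by
  unfold kk
  refine c_count (n := fun a => 2 ^ r a) (f := fun a j => decide (2 * DS.Sr (r a) (j + 1) ≤ x a))
    (c_pow (Computable.const 2) hr) ?_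
  exact CQ.le ((CQ.const 2).mul (CQ.Sr (hr.comp Computable.fst)
    (c_add Computable.snd (Computable.const 1)))) (hx.comp Computable.fst)

lemma CQ.tau {r : α → ℕ} {x : α → ℚ} (hr : Computable r) (hx : CQ x) :
    CQ fun a => tau (r a) (x a) := (CQ.nat (c_kk hr hx)).div (CQ.two_pow hr)

end

lemma tau_nonneg (r : ℕ) (x : ℚ) : 0 ≤ tau r x := by unfold tau; positivity

lemma tau_le_one (r : ℕ) (x : ℚ) : tau r x ≤ 1 := by
  unfold tau
  rw [div_le_one (by positivity)]
  have h : kk r x ≤ 2 ^ r := by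
    unfold kk
    refine (Finset.card_filter_le _ _).trans ?_
    rw [card_range]
  exact_mod_cast h

lemma tau_spec (r : ℕ) (x : ℚ) (h0 : - (1 / 2 ^ r : ℝ) ≤ x) (h1 : (x : ℝ) ≤ 1 + 1 / 2 ^ r) :
    |2 * arctan (tau r x : ℝ) - x| ≤ 4 * (1 / 2 ^ r) := by
  have hp : (0 : ℝ) < 2 ^ r := by positivity
  have hp1 : (0 : ℝ) < 1 / 2 ^ r := by positivity
  obtain ⟨a1, a2, a3⟩ := count_down (fun j => decide (2 * Sr r (j + 1) ≤ x)) (by
    intro i j hij h
    simp only [decide_eq_true_eq] at h ⊢
    have := Sr_mono r (Nat.succ_le_succ hij)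
    linarith) (2 ^ r)
  change ∀ j < kk r x, _ at a1
  change kk r x < 2 ^ r → _ at a2
  change kk r x ≤ 2 ^ r at a3
  have hte : (tau r x : ℝ) = (kk r x : ℝ) / 2 ^ r := by unfold tau; push_cast; rfl
  rw [hte]
  set k := kk r x with hk
  obtain ⟨b1, b2⟩ := Sr_bd r k
  have b3 : (0 : ℝ) ≤ (1 / 2 ^ r) / (1 + (k / 2 ^ r) ^ 2) := by positivity
  have b4 : ((1 : ℝ) / 2 ^ r) / (1 + (k / 2 ^ r) ^ 2) ≤ 1 / 2 ^ r := by
    apply div_le_self hp1.le
    have : (0 : ℝ) ≤ ((k : ℝ) / 2 ^ r) ^ 2 := by positivity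
    linarith
  -- upper bound for `x`
  have hup : (x : ℝ) ≤ 2 * (Sr r k : ℝ) + 2 * (1 / 2 ^ r) := by
    rcases Nat.lt_or_ge k (2 ^ r) with h | h
    · have h2 := a2 h
      simp only [decide_eq_false_iff_not, not_le] at h2
      have h3 : (x : ℝ) < 2 * (Sr r (k + 1) : ℝ) := by exact_mod_cast h2
      have h4 : (Sr r (k + 1) : ℝ) = Sr r k + (1 / 2 ^ r) / (1 + (k / 2 ^ r) ^ 2) := by
        rw [Sr_succ]; push_cast; rfl
      rw [h4] at h3
      linarith
    · have h2 : k = 2 ^ r := le_antisymm a3 h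
      have h3 : (k : ℝ) / 2 ^ r = 1 := by rw [h2]; push_cast; exact div_self hp.ne'
      rw [h3, arctan_one] at b1
      have h4 := pi_gt_three
      linarith
  -- lower bound for `x`
  have hlo : 2 * (Sr r k : ℝ) - 1 / 2 ^ r ≤ x := by
    rcases Nat.eq_zero_or_pos k with h | h
    · rw [h]
      simp only [Sr, range_zero, sum_empty, Rat.cast_zero, mul_zero, zero_sub]
      exact h0
    · have h2 := a1 (k - 1) (by omega)
      simp only [decide_eq_true_eq] at h2
      rw [Nat.sub_add_cancel h] at h2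
      have h3 : 2 * (Sr r k : ℝ) ≤ x := by exact_mod_cast h2
      linarith
  rw [abs_le]
  constructor
  · linarith
  · linarith

end Pool.Agent.R557.DS
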