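import Mathlib

set_option autoImplicit false

/-! Definitions: first-order formulas in the language of groups, profinite permutation groups of the
natural numbers and their trees, Turing ideals and Scott ideals. -/

namespace Pool.Agent.R557.EF

/-! ### Formulas -/

/-- Terms of the language of groups, with variables numbered by the natural numbers. -/
inductive Trm : Type
  | var (i : ℕ) : Trm
  | one : Trm
  | mul (s t : Trm) : Trm
  | inv (t : Trm) : Trm

/-- The value of a term. -/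
def Trm.ev {G : Type} [Group G] (v : ℕ → G) : Trm → G
  | .var i => v i
  | .one => 1
  | .mul s t => s.ev v * t.ev v
  | .inv t => (t.ev v)⁻¹

/-- First-order formulas of the language of groups. -/
inductive Fml : Type
  | eq (s t : Trm) : Fml
  | neg (φ : Fml) : Fml
  | and (φ ψ : Fml) : Fml
  | all (i : ℕ) (φ : Fml) : Fml

/-- Satisfaction of a formula in a group. -/
def Fml.Sat {G : Type} [Group G] : Fml → (ℕ → G) → Prop
  | .eq s t, v => s.ev v = t.ev v
  | .neg φ, v => ¬ φ.Sat v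
  | .and φ ψ, v => φ.Sat v ∧ ψ.Sat v
  | .all i φ, v => ∀ g : G, φ.Sat (Function.update v i g)

/-- Existential quantification. -/
def Fml.ex (i : ℕ) (φ : Fml) : Fml := .neg (.all i (.neg φ))

/-- Quantifier-free formulas. -/
inductive IsQF : Fml → Prop
  | eq (s t : Trm) : IsQF (.eq s t)
  | neg {φ : Fml} : IsQF φ → IsQF (.neg φ)
  | and {φ ψ : Fml} : IsQF φ → IsQF ψ → IsQF (.and φ ψ)

/-- Universal formulas: a block of universal quantifiers and a quantifier-free formula. -/
inductive IsAll : Fml → Prop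
  | qf {φ : Fml} : IsQF φ → IsAll φ
  | all (i : ℕ) {φ : Fml} : IsAll φ → IsAll (.all i φ)

/-- `∃∀` formulas: a block of existential quantifiers and a universal formula. -/
inductive IsExAll : Fml → Prop
  | univ {φ : Fml} : IsAll φ → IsExAll φ
  | ex (i : ℕ) {φ : Fml} : IsExAll φ → IsExAll (.ex i φ)

/-- The formulas `∃ x ∀ y ψ` with exactly two quantifiers and `ψ` quantifier-free. -/
def IsExAllOne (φ : Fml) : Prop := ∃ i j ψ, IsQF ψ ∧ φ = .ex i (.all j ψ)

/-- The formulas `∀ x ∃ y ψ` with exactly two quantifiers and `ψ` quantifier-free. -/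
def IsAllExOne (φ : Fml) : Prop := ∃ i j ψ, IsQF ψ ∧ φ = .all i (.ex j ψ)

lemma IsExAllOne.isExAll {φ : Fml} (h : IsExAllOne φ) : IsExAll φ := by
  obtain ⟨i, j, ψ, hψ, rfl⟩ := h
  exact .ex i (.univ (.all j (.qf hψ)))

/-- `H ≼_Γ G` for a subgroup `H` of `G` (both given as subgroups of a group `S`). -/
def ElemFor (Γ : Fml → Prop) {S : Type} [Group S] (H G : Subgroup S) : Prop :=
  H ≤ G ∧ ∀ φ, Γ φ → ∀ (v : ℕ → H) (w : ℕ → G), (∀ i, (w i : S) = v i) → (φ.Sat v ↔ φ.Sat w)

/-! ### Profinite permutation groups -/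

/-- A profinite subgroup of the group of permutations of the natural numbers: closed in the topology
of pointwise convergence, with finite orbits. -/
structure IsProfinite (G : Subgroup (Equiv.Perm ℕ)) : Prop where
  closed : ∀ g : Equiv.Perm ℕ, (∀ n, ∃ h ∈ G, ∀ m < n, h m = g m) → g ∈ G
  orbits : ∀ n : ℕ, {m : ℕ | ∃ g ∈ G, g n = m}.Finite

/-- The tree `T_G` of the initial segments of the sequences `g 0, g⁻¹ 0, g 1, g⁻¹ 1, ...`. -/
def TG (G : Subgroup (Equiv.Perm ℕ)) : Set (List ℕ) :=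
  {σ | ∃ g ∈ G, ∀ i < σ.length, σ.getD i 0 = if i % 2 = 0 then g (i / 2) else g⁻¹ (i / 2)}

/-- The number of immediate successors in the tree. -/
noncomputable def branch (G : Subgroup (Equiv.Perm ℕ)) (σ : List ℕ) : ℕ :=
  {m : ℕ | σ ++ [m] ∈ TG G}.ncard

/-! ### Ideals -/

/-- The function `f` is Turing reducible to the function `g`. -/
def Red (f g : ℕ → ℕ) : Prop := TuringReducible (f : ℕ →. ℕ) (g : ℕ →. ℕ)

/-- A Turing ideal, given as the set of the functions with degree in the ideal. -/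
structure TuringIdeal (I : Set (ℕ → ℕ)) : Prop where
  nonempty : I.Nonempty
  down : ∀ f ∈ I, ∀ g, Red g f → g ∈ I
  join : ∀ f ∈ I, ∀ g ∈ I, (fun n => Nat.pair (f n) (g n)) ∈ I

open Classical in
/-- The characteristic function of (the set of the codes of the elements of) a set. -/
noncomputable def chr {α : Type} [Encodable α] (T : Set α) : ℕ → ℕ :=
  fun n => if ∃ a ∈ T, Encodable.encode a = n then 1 else 0

/-- A Scott ideal: a Turing ideal such that each infinite binary tree computable from a member has an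
infinite path in the ideal. -/
def ScottIdeal (I : Set (ℕ → ℕ)) : Prop :=
  TuringIdeal I ∧ ∀ f ∈ I, ∀ T : Set (List Bool), (∀ σ τ : List Bool, σ <+: τ → τ ∈ T → σ ∈ T) →
    T.Infinite → Red (chr T) f → ∃ P : ℕ → Bool, (fun n => (P n).toNat) ∈ I ∧
      ∀ n, (List.range n).map P ∈ T

/-- The degree of `T_G` (with its branching function) is in the ideal. -/
def TreeIn (I : Set (ℕ → ℕ)) (G : Subgroup (Equiv.Perm ℕ)) : Prop :=
  chr (TG G) ∈ I ∧ (fun n => branch G (Denumerable.ofNat (List ℕ) n)) ∈ I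

/-! ### Closure of Turing reducibility -/

lemma red_iff {f g : ℕ → ℕ} : Red f g ↔ Nat.RecursiveIn {(g : ℕ →. ℕ)} (f : ℕ →. ℕ) :=
  RecursiveIn.iff_nat

lemma red_prim {f g : ℕ → ℕ} (hf : Nat.Primrec f) : Red f g :=
  red_iff.2 (Nat.Primrec.recursiveIn hf)

lemma red_refl (f : ℕ → ℕ) : Red f f := TuringReducible.refl _

lemma red_trans {f g h : ℕ → ℕ} (h1 : Red f g) (h2 : Red g h) : Red f h :=
  TuringReducible.trans h1 h2

lemma red_comp {f g h : ℕ → ℕ} (hf : Red f h) (hg : Red g h) : Red (fun n => f (g n)) h := by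
  refine red_iff.2 ((Nat.RecursiveIn.comp (red_iff.1 hf) (red_iff.1 hg)).of_eq fun n => ?_)
  exact Part.bind_some _ _

lemma red_pair {f g h : ℕ → ℕ} (hf : Red f h) (hg : Red g h) :
    Red (fun n => Nat.pair (f n) (g n)) h := by
  refine red_iff.2 ((Nat.RecursiveIn.pair (red_iff.1 hf) (red_iff.1 hg)).of_eq fun n => ?_)
  simp [Seq.seq]

lemma red_left {f h : ℕ → ℕ} (hf : Red f h) : Red (fun n => (f n).unpair.1) h := by
  have h1 : Nat.Primrec fun n : ℕ => n.unpair.1 := Nat.Primrec.left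
  exact red_comp (red_prim h1) hf

lemma red_right {f h : ℕ → ℕ} (hf : Red f h) : Red (fun n => (f n).unpair.2) h := by
  have h1 : Nat.Primrec fun n : ℕ => n.unpair.2 := Nat.Primrec.right
  exact red_comp (red_prim h1) hf

/-- search -/
lemma red_find {f h k : ℕ → ℕ} (hf : Red f h)
    (hk : ∀ a, f (Nat.pair a (k a)) = 0 ∧ ∀ n < k a, f (Nat.pair a n) ≠ 0) : Red k h := by
  refine red_iff.2 ((Nat.RecursiveIn.rfind (red_iff.1 hf)).of_eq fun a => ?_)
  refine Part.eq_some_iff.2 (Nat.mem_rfind.2 ⟨?_, ?_⟩)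
  · simp [(hk a).1]
  · intro m hm
    have := (hk a).2 m hm
    simp [this]

lemma red_comp_perm {g₁ g₂ : ℕ → ℕ} {I : Set (ℕ → ℕ)} (hI : TuringIdeal I) (h₁ : g₁ ∈ I)
    (h₂ : g₂ ∈ I) : (fun n => g₁ (g₂ n)) ∈ I := by
  refine hI.down _ (hI.join _ h₁ _ h₂) _ ?_
  have h3 := red_refl fun n => Nat.pair (g₁ n) (g₂ n)
  have h4 : Red g₁ fun n => Nat.pair (g₁ n) (g₂ n) := by
    have := red_left h3
    simpa using this
  have h5 : Red g₂ fun n => Nat.pair (g₁ n) (g₂ n) := by
    have := red_right h3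
    simpa using this
  exact red_comp h4 h5

lemma red_inv (g : Equiv.Perm ℕ) : Red (⇑g⁻¹ : ℕ → ℕ) (⇑g : ℕ → ℕ) := by
  have hd : Nat.Primrec fun p : ℕ => if p.unpair.1 = p.unpair.2 then 0 else 1 := by
    refine Primrec.nat_iff.1 (Primrec.ite ?_ (Primrec.const 0) (Primrec.const 1))
    exact Primrec.eq.comp (Primrec.fst.comp Primrec.unpair) (Primrec.snd.comp Primrec.unpair)
  have h1 : Red (fun p => if p.unpair.1 = g p.unpair.2 then 0 else 1) (⇑g : ℕ → ℕ) := by
    have h2 : Red (fun p => Nat.pair p.unpair.1 (g p.unpair.2)) (⇑g : ℕ → ℕ) :=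
      red_pair (red_left (red_prim (Primrec.nat_iff.1 Primrec.id)))
        (red_comp (red_refl _) (red_right (red_prim (Primrec.nat_iff.1 Primrec.id))))
    have h3 := red_comp (red_prim (g := (⇑g : ℕ → ℕ)) hd) h2
    simpa using h3
  refine red_find h1 fun a => ⟨?_, fun n hn => ?_⟩
  · simp
  · simp only [Nat.unpair_pair]
    rw [if_neg]
    · simp
    · rintro rfl
      simp at hn

/-- The subgroup `G_I` of the elements of `G` with degree in the Turing ideal `I`. -/
def GI {I : Set (ℕ → ℕ)} (hI : TuringIdeal I) (G : Subgroup (Equiv.Perm ℕ)) :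
    Subgroup (Equiv.Perm ℕ) where
  carrier := {g | g ∈ G ∧ (⇑g : ℕ → ℕ) ∈ I}
  mul_mem' := by
    rintro a b ⟨ha, ha'⟩ ⟨hb, hb'⟩
    exact ⟨G.mul_mem ha hb, red_comp_perm (g₁ := ⇑a) (g₂ := ⇑b) hI ha' hb'⟩
  one_mem' := by
    refine ⟨G.one_mem, ?_⟩
    obtain ⟨f, hf⟩ := hI.nonempty
    refine hI.down f hf _ ?_
    exact red_prim (Primrec.nat_iff.1 Primrec.id)
  inv_mem' := by
    rintro a ⟨ha, ha'⟩
    exact ⟨G.inv_mem ha, hI.down _ ha' _ (red_inv a)⟩

end Pool.Agent.R557.EF
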