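import Mathlib

set_option autoImplicit false

/-! The finite group of the construction and its actions. -/

namespace Pool.Agent.R557.EF

open Nat.Partrec (Code)

/-- the finite group -/
@[ext] structure Hs : Type where
  y0 : ZMod 2
  y1 : ZMod 2
  y2 : ZMod 2
  xc : ZMod 2
  xd : ZMod 2
  xs : ZMod 2
  zn : ZMod 2
  zz : ZMod 2
  z0 : ZMod 2
  z1 : ZMod 2
deriving DecidableEq

namespace Hs

instance : Mul Hs where
  mul a b := ⟨a.y0 + b.y0, a.y1 + b.y1, a.y2 + b.y2, a.xc + b.xc, a.xd + b.xd, a.xs + b.xs,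
    a.zn + b.zn + a.y1 * b.xd + a.y2 * b.xs, a.zz + b.zz + a.y1 * b.xc + a.y2 * b.xd + a.y1 * b.xs,
    a.z0 + b.z0 + a.y0 * (b.xc + b.xd), a.z1 + b.z1 + a.y0 * b.xs⟩

instance : One Hs := ⟨⟨0, 0, 0, 0, 0, 0, 0, 0, 0, 0⟩⟩

instance : Inv Hs where
  inv a := ⟨-a.y0, -a.y1, -a.y2, -a.xc, -a.xd, -a.xs,
    -a.zn + a.y1 * a.xd + a.y2 * a.xs, -a.zz + a.y1 * a.xc + a.y2 * a.xd + a.y1 * a.xs,
    -a.z0 + a.y0 * (a.xc + a.xd), -a.z1 + a.y0 * a.xs⟩

section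
variable (a b : Hs)
@[simp] lemma mul_y0 : (a * b).y0 = a.y0 + b.y0 := rfl
@[simp] lemma mul_y1 : (a * b).y1 = a.y1 + b.y1 := rfl
@[simp] lemma mul_y2 : (a * b).y2 = a.y2 + b.y2 := rfl
@[simp] lemma mul_xc : (a * b).xc = a.xc + b.xc := rfl
@[simp] lemma mul_xd : (a * b).xd = a.xd + b.xd := rfl
@[simp] lemma mul_xs : (a * b).xs = a.xs + b.xs := rfl
@[simp] lemma mul_zn : (a * b).zn = a.zn + b.zn + a.y1 * b.xd + a.y2 * b.xs := rfl
@[simp] lemma mul_zz : (a * b).zz = a.zz + b.zz + a.y1 * b.xc + a.y2 * b.xd + a.y1 * b.xs := rfl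
@[simp] lemma mul_z0 : (a * b).z0 = a.z0 + b.z0 + a.y0 * (b.xc + b.xd) := rfl
@[simp] lemma mul_z1 : (a * b).z1 = a.z1 + b.z1 + a.y0 * b.xs := rfl
@[simp] lemma one_y0 : (1 : Hs).y0 = 0 := rfl
@[simp] lemma one_y1 : (1 : Hs).y1 = 0 := rfl
@[simp] lemma one_y2 : (1 : Hs).y2 = 0 := rfl
@[simp] lemma one_xc : (1 : Hs).xc = 0 := rfl
@[simp] lemma one_xd : (1 : Hs).xd = 0 := rfl
@[simp] lemma one_xs : (1 : Hs).xs = 0 := rfl
@[simp] lemma one_zn : (1 : Hs).zn = 0 := rfl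
@[simp] lemma one_zz : (1 : Hs).zz = 0 := rfl
@[simp] lemma one_z0 : (1 : Hs).z0 = 0 := rfl
@[simp] lemma one_z1 : (1 : Hs).z1 = 0 := rfl
@[simp] lemma inv_y0 : (a⁻¹).y0 = -a.y0 := rfl
@[simp] lemma inv_y1 : (a⁻¹).y1 = -a.y1 := rfl
@[simp] lemma inv_y2 : (a⁻¹).y2 = -a.y2 := rfl
@[simp] lemma inv_xc : (a⁻¹).xc = -a.xc := rfl
@[simp] lemma inv_xd : (a⁻¹).xd = -a.xd := rfl
@[simp] lemma inv_xs : (a⁻¹).xs = -a.xs := rfl
@[simp] lemma inv_zn : (a⁻¹).zn = -a.zn + a.y1 * a.xd + a.y2 * a.xs := rfl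
@[simp] lemma inv_zz : (a⁻¹).zz = -a.zz + a.y1 * a.xc + a.y2 * a.xd + a.y1 * a.xs := rfl
@[simp] lemma inv_z0 : (a⁻¹).z0 = -a.z0 + a.y0 * (a.xc + a.xd) := rfl
@[simp] lemma inv_z1 : (a⁻¹).z1 = -a.z1 + a.y0 * a.xs := rfl
end

instance : Group Hs where
  mul_assoc a b c := by ext <;> simp <;> ring
  one_mul a := by ext <;> simp
  mul_one a := by ext <;> simp
  inv_mul_cancel a := by
    ext <;> simp only [inv_y0, inv_y1, inv_y2, inv_xc, inv_xd, inv_xs, inv_zn, inv_zz, inv_z0,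
      inv_z1, mul_y0, mul_y1, mul_y2, mul_xc, mul_xd, mul_xs, mul_zn, mul_zz, mul_z0, mul_z1,
      one_y0, one_y1, one_y2, one_xc, one_xd, one_xs, one_zn, one_zz, one_z0, one_z1] <;> ring

instance : Finite Hs := by
  refine Finite.of_injective (β := ZMod 2 × ZMod 2 × ZMod 2 × ZMod 2 × ZMod 2 × ZMod 2 × ZMod 2 ×
    ZMod 2 × ZMod 2 × ZMod 2)
    (fun a => (a.y0, a.y1, a.y2, a.xc, a.xd, a.xs, a.zn, a.zz, a.z0, a.z1)) ?_
  intro a b h
  simp only [Prod.mk.injEq] at h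
  obtain ⟨h1, h2, h3, h4, h5, h6, h7, h8, h9, h10⟩ := h
  exact Hs.ext h1 h2 h3 h4 h5 h6 h7 h8 h9 h10

noncomputable instance : Fintype Hs := Fintype.ofFinite _

/-- erase the first central coordinate -/
def rz (a : Hs) : Hs := { a with zn := 0 }

/-- the actions: `0` the action through the quotient, `1` the regular action, else the trivial one -/
def T : ℕ → Hs → Hs → Hs
  | 0, h, p => { h * p with zn := p.zn }
  | 1, h, p => h * p
  | _, _, p => p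

lemma T_one (t : ℕ) (p : Hs) : T t 1 p = p := by
  match t with
  | 0 => unfold T; ext <;> simp
  | 1 => unfold T; simp
  | t + 2 => rfl

lemma T_mul (t : ℕ) (a b p : Hs) : T t (a * b) p = T t a (T t b p) := by
  match t with
  | 0 => unfold T; ext <;> simp <;> ring
  | 1 => unfold T; simp [mul_assoc]
  | t + 2 => rfl

lemma T_zero_one (a : Hs) : T 0 a 1 = rz a := by
  unfold T rz; ext <;> simp

lemma T_zero_congr {a b : Hs} (h : rz a = rz b) (p : Hs) : T 0 a p = T 0 b p := by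
  unfold rz at h
  simp only [Hs.mk.injEq] at h
  obtain ⟨h1, h2, h3, h4, h5, h6, h7, h8, h9, h10⟩ := h
  unfold T
  ext <;> simp [h1, h2, h3, h4, h5, h6, h8, h9, h10]

end Hs

open Hs

/-- the cardinality -/
noncomputable def N : ℕ := Fintype.card Hs

lemma N_pos : 0 < N := Fintype.card_pos

/-- the numbering of the group -/
noncomputable def e : Hs ≃ Fin N := Fintype.equivFin Hs

/-- coding of points -/
noncomputable def Ei (m : ℕ) (x : Hs) : ℕ := N * m + e x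

/-- the element given by a number -/
noncomputable def el (r : ℕ) : Hs := e.symm ⟨r % N, Nat.mod_lt _ N_pos⟩

lemma Ei_div (m : ℕ) (x : Hs) : Ei m x / N = m := by
  unfold Ei
  rw [Nat.mul_add_div N_pos, Nat.div_eq_of_lt (e x).2, add_zero]

lemma Ei_mod (m : ℕ) (x : Hs) : Ei m x % N = e x := by
  unfold Ei
  rw [Nat.mul_add_mod, Nat.mod_eq_of_lt (e x).2]

lemma el_Ei (m : ℕ) (x : Hs) : el (Ei m x) = x := by
  unfold el
  simp only [Ei_mod]
  simp

lemma el_e (x : Hs) : el (e x) = x := by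
  have := el_Ei 0 x
  unfold Ei at this
  simpa using this

lemma Ei_el (p : ℕ) : Ei (p / N) (el p) = p := by
  unfold Ei el
  simp only [Equiv.apply_symm_apply]
  exact Nat.div_add_mod p N

lemma Ei_inj {m m' : ℕ} {x x' : Hs} (h : Ei m x = Ei m' x') : m = m' ∧ x = x' := by
  have h1 := congrArg (· / N) h
  have h2 := congrArg el h
  simp only [Ei_div] at h1
  rw [el_Ei, el_Ei] at h2
  exact ⟨h1, h2⟩

/-- the stages of the halting problem -/
def R (n s : ℕ) : Bool := (Code.evaln s (Denumerable.ofNat Code n) 0).isSome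

/-- the halting problem -/
def KS (n : ℕ) : Prop := ∃ s, R n s = true

/-- the type of the block -/
def ty (m : ℕ) : ℕ := if m.unpair.2 = 0 then 0 else if R m.unpair.1 (m.unpair.2 - 1) = true then 1 else 2

/-- the action -/
noncomputable def act (h : ℕ → Hs) (p : ℕ) : ℕ :=
  Ei (p / N) (T (ty (p / N)) (h (p / N).unpair.1) (el p))

lemma act_Ei (h : ℕ → Hs) (m : ℕ) (x : Hs) : act h (Ei m x) = Ei m (T (ty m) (h m.unpair.1) x) := by
  unfold act
  rw [Ei_div, el_Ei]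

lemma act_one (p : ℕ) : act 1 p = p := by
  unfold act
  rw [Pi.one_apply, T_one, Ei_el]

lemma act_mul (h h' : ℕ → Hs) (p : ℕ) : act (h * h') p = act h (act h' p) := by
  conv_rhs => rw [show act h' p = Ei (p / N) (T (ty (p / N)) (h' (p / N).unpair.1) (el p)) from rfl,
    act_Ei, ← T_mul]
  rfl

/-- the homomorphism -/
noncomputable def Ph : (ℕ → Hs) →* Equiv.Perm ℕ where
  toFun h := ⟨act h, act h⁻¹, fun p => by rw [← act_mul]; simp [act_one],
    fun p => by rw [← act_mul]; simp [act_one]⟩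
  map_one' := by ext p; exact act_one p
  map_mul' h h' := by ext p; exact act_mul h h' p

lemma Ph_apply (h : ℕ → Hs) (p : ℕ) : Ph h p = act h p := rfl

/-- the group -/
noncomputable def GG : Subgroup (Equiv.Perm ℕ) := Ph.range

/-- the equality of coordinates -/
def Eqv (n : ℕ) (a b : Hs) : Prop := rz a = rz b ∧ (KS n → a.zn = b.zn)

lemma Eqv.refl (n : ℕ) (a : Hs) : Eqv n a a := ⟨rfl, fun _ => rfl⟩

lemma eq_of_rz {a b : Hs} (h : rz a = rz b) (h' : a.zn = b.zn) : a = b := by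
  unfold rz at h
  simp only [Hs.mk.injEq] at h
  obtain ⟨h1, h2, h3, h4, h5, h6, -, h8, h9, h10⟩ := h
  exact Hs.ext h1 h2 h3 h4 h5 h6 h' h8 h9 h10

lemma Ph_eq_iff {h h' : ℕ → Hs} : Ph h = Ph h' ↔ ∀ n, Eqv n (h n) (h' n) := by
  constructor
  · intro he n
    have key : ∀ m x, T (ty m) (h m.unpair.1) x = T (ty m) (h' m.unpair.1) x := by
      intro m x
      have h1 : Ph h (Ei m x) = Ph h' (Ei m x) := by rw [he]
      rw [Ph_apply, Ph_apply, act_Ei, act_Ei] at h1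
      exact (Ei_inj h1).2
    refine ⟨?_, ?_⟩
    · have := key (Nat.pair n 0) 1
      have ht : ty (Nat.pair n 0) = 0 := by unfold ty; simp
      rw [ht, Nat.unpair_pair, T_zero_one, T_zero_one] at this
      exact this
    · rintro ⟨s, hs⟩
      have := key (Nat.pair n (s + 1)) 1
      have ht : ty (Nat.pair n (s + 1)) = 1 := by unfold ty; simp [hs]
      rw [ht, Nat.unpair_pair] at this
      unfold T at this
      simp only [mul_one] at this
      rw [this]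
  · intro he
    ext p
    rw [Ph_apply, Ph_apply]
    unfold act
    congr 1
    obtain ⟨h1, h2⟩ := he (p / N).unpair.1
    by_cases h0 : (p / N).unpair.2 = 0
    · have ht : ty (p / N) = 0 := by unfold ty; rw [if_pos h0]
      rw [ht]
      exact T_zero_congr h1 _
    · by_cases hR : R (p / N).unpair.1 ((p / N).unpair.2 - 1) = true
      · rw [eq_of_rz h1 (h2 ⟨_, hR⟩)]
      · have ht : ty (p / N) = 2 := by unfold ty; rw [if_neg h0, if_neg hR]
        rw [ht]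
        rfl

lemma Ph_mul_comm_iff {h h' : ℕ → Hs} : Ph h * Ph h' = Ph h' * Ph h ↔
    ∀ n, Eqv n (h n * h' n) (h' n * h n) := by
  rw [← map_mul, ← map_mul, Ph_eq_iff]
  rfl

/-! ### The parameters -/

def aC : Hs := ⟨0, 0, 0, 1, 0, 0, 0, 0, 0, 0⟩
def aD : Hs := ⟨0, 0, 0, 0, 1, 0, 0, 0, 0, 0⟩
def aS : Hs := ⟨0, 0, 0, 0, 0, 1, 0, 0, 0, 0⟩
def a0 : Hs := ⟨1, 0, 0, 0, 0, 0, 0, 0, 0, 0⟩
def aZ : Hs := ⟨0, 0, 0, 0, 0, 0, 0, 0, 1, 0⟩
def b1 : Hs := ⟨0, 1, 0, 0, 0, 0, 0, 0, 0, 0⟩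
def b2 : Hs := ⟨0, 0, 1, 0, 0, 0, 0, 0, 0, 0⟩

lemma eqv_c {n : ℕ} {a : Hs} : Eqv n (a * aC) (aC * a) ↔ a.y1 = 0 ∧ a.y0 = 0 := by
  unfold Eqv rz aC
  simp [Hs.ext_iff, add_comm]

lemma eqv_d {n : ℕ} {a : Hs} : Eqv n (a * aD) (aD * a) ↔
    (a.y2 = 0 ∧ a.y0 = 0) ∧ (KS n → a.y1 = 0) := by
  unfold Eqv rz aD
  simp [Hs.ext_iff, add_comm]

lemma eqv_0 {n : ℕ} {a : Hs} : Eqv n (a0 * a) (aZ * a * a0) ↔ a.xc + a.xd = 1 ∧ a.xs = 0 := by
  unfold Eqv rz a0 aZ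
  simp only [Hs.ext_iff, mul_y0, mul_y1, mul_y2, mul_xc, mul_xd, mul_xs, mul_zn, mul_zz, mul_z0,
    mul_z1, zero_add, add_zero, mul_zero, zero_mul, one_mul, true_and, and_true]
  constructor
  · rintro ⟨⟨h0, h1, h2⟩, h3⟩
    constructor
    · rw [add_comm 1 a.z0] at h1
      exact add_left_cancel h1
    · simpa using h2
  · rintro ⟨h1, h2⟩
    rw [h1, h2]
    refine ⟨⟨add_comm _ _, add_comm _ _, by simp⟩, fun _ => trivial⟩

lemma eqv_s {n : ℕ} {b : Hs} : Eqv n (aS * b) (b * aS) ↔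
    (b.y1 = 0 ∧ b.y0 = 0) ∧ (KS n → b.y2 = 0) := by
  unfold Eqv rz aS
  simp [Hs.ext_iff, add_comm]

/-- the conditions of the formula without the second quantifier -/
def Cnd (a : Hs) : Prop :=
  (a.y0 = 0 ∧ a.y1 = 0 ∧ a.y2 = 0) ∧ a.xc + a.xd = 1 ∧ a.xs = 0

lemma eqv_xy {n : ℕ} {a b : Hs} (ha : Cnd a) : Eqv n (a * b) (b * a) ↔
    (b.y1 * a.xc + b.y2 * a.xd = 0 ∧ b.y0 = 0) ∧ (KS n → b.y1 * a.xd = 0) := by
  obtain ⟨⟨h0, h1, h2⟩, h3, h4⟩ := ha
  unfold Eqv rz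
  simp only [Hs.ext_iff, mul_y0, mul_y1, mul_y2, mul_xc, mul_xd, mul_xs, mul_zn, mul_zz, mul_z0,
    mul_z1, h0, h1, h2, h3, h4, zero_add, add_zero, mul_zero, zero_mul, mul_one, one_mul, true_and,
    and_true]
  constructor
  · rintro ⟨⟨-, -, h5, h6, -⟩, h7⟩
    refine ⟨⟨?_, ?_⟩, fun hn => ?_⟩
    · rw [add_comm b.zz a.zz, add_assoc] at h5
      simpa using h5
    · rw [add_comm b.z0 a.z0] at h6
      simpa using h6
    · have := h7 hn
      rw [add_comm b.zn a.zn] at this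
      simpa using this
  · rintro ⟨⟨h5, h6⟩, h7⟩
    refine ⟨⟨add_comm _ _, add_comm _ _, ?_, ?_, add_comm _ _⟩, fun hn => ?_⟩
    · rw [add_assoc, h5, add_zero, add_comm]
    · rw [h6, add_zero, add_comm]
    · rw [h7 hn, add_zero, add_comm]

end Pool.Agent.R557.EF
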