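import Pool.Agent.Y785.EN.Cone
import Pool.Agent.R557.EFDef

set_option autoImplicit false

/-! A Scott ideal that does not contain a given non-computable set. -/

namespace Pool.Agent.R557.EF

open Pool.Agent Pool.Agent.Helper227 Pool.Agent.Helper227.EN Pool.Agent.Y785.EN Encodable
open Nat.Partrec (Code)

lemma isClosed_PiC' (C : List Bool × List Bool → Prop) (X : ℕ → Bool) : IsClosed (PiC C X) := by
  have : PiC C X = ⋂ s, {y | ¬ C (pre X s, pre y s)} := by
    ext y; simp [PiC]
  simp only [this]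
  refine isClosed_iInter fun s => ?_
  have hcont : Continuous (fun y : ℕ → Bool => fun i : Fin s => y i) := by fun_prop
  have h2 : {y : ℕ → Bool | ¬ C (pre X s, pre y s)} =
      (fun y : ℕ → Bool => fun i : Fin s => y i) ⁻¹' {v | ¬ C (pre X s, List.ofFn v)} := by
    ext y
    simp only [Set.mem_setOf_eq, Set.mem_preimage]
    have : List.ofFn (fun i : Fin s => y i) = pre y s := by
      refine List.ext_getElem (by simp) fun i h1 h2 => ?_
      simp [getElem_pre]
    rw [this]
  rw [h2]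
  exact (isClosed_discrete _).preimage hcont

/-- The cone avoidance basis theorem. -/
lemma basisK {K X : ℕ → Bool} (hK : ¬ TLe K X) {C : List Bool × List Bool → Prop} (hC : S1 C)
    (hne : (PiC C X).Nonempty) : ∃ P ∈ PiC C X, ¬ TLe K (join X P) := by
  classical
  obtain ⟨e, he⟩ := exists_surjective_nat Code
  let St := {D : List Bool × List Bool → Prop // S1 D ∧ (PiC D X).Nonempty}
  have hstep : ∀ (c : Code) (D : St), ∃ D' : St, PiC D'.1 X ⊆ PiC D.1 X ∧
      ∀ P ∈ PiC D'.1 X, ¬ cpt2 c K X P := by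
    rintro c ⟨D, hD, hDne⟩
    have hle : TLe (join X X) X := join_tLe (TLe.refl X) (TLe.refl X)
    have hno : ¬ TLe K (join X X) := fun h => hK (h.trans hle)
    obtain ⟨D1, hD1, hne1, hsub, hP⟩ := avoid_step hno hD hDne c
    obtain ⟨D2, hD2, e2⟩ := PiC_of_tLe hle hD1
    refine ⟨⟨D2, hD2, ?_⟩, ?_, ?_⟩
    · rw [e2]; exact hne1
    · simp only
      rw [e2]; exact hsub
    · simp only
      rw [e2]; exact hP
  choose f hf1 hf2 using hstep
  let g : ℕ → St := fun n => Nat.rec ⟨C, hC, hne⟩ (fun n p => f (e n) p) n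
  have hg : ∀ n, g (n + 1) = f (e n) (g n) := fun n => rfl
  obtain ⟨P, hP⟩ := IsCompact.nonempty_iInter_of_sequence_nonempty_isCompact_isClosed
    (fun n => PiC (g n).1 X) (fun n => by
      show PiC (g (n + 1)).1 X ⊆ PiC (g n).1 X
      rw [hg]; exact hf1 _ _) (fun n => (g n).2.2)
    (isClosed_PiC' _ _).isCompact (fun n => isClosed_PiC' _ _)
  rw [Set.mem_iInter] at hP
  refine ⟨P, hP 0, fun hle => ?_⟩
  obtain ⟨c, hc⟩ := exists_cpt2 hle
  obtain ⟨n, rfl⟩ := he c
  have h1 : P ∈ PiC (g (n + 1)).1 X := hP (n + 1)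
  rw [hg] at h1
  exact hf2 _ _ P h1 hc

lemma basisK' {K X Y : ℕ → Bool} (hK : ¬ TLe K X) (hY : TLe Y X)
    {C : List Bool × List Bool → Prop} (hC : S1 C)
    (hne : (PiC C Y).Nonempty) : ∃ P ∈ PiC C Y, ¬ TLe K (join X P) := by
  obtain ⟨C', hC', e⟩ := PiC_of_tLe hY hC
  rw [← e] at hne ⊢
  exact basisK hK hC' hne

/-- the enumeration of the c.e. sets -/
def W (c : Code) (x : List Bool × List Bool) : Prop := (c.eval (encode x)).Dom

lemma s1_W (c : Code) : S1 (W c) := by
  have h : S1 fun x : List Bool × List Bool =>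
      ∃ r : ℕ, (c.evaln r (encode x)).isSome = true := by
    refine S1.ex (S1.of_prim ?_)
    exact Primrec.eq.comp (Primrec.option_isSome.comp (Nat.Partrec.Code.primrec_evaln.comp
      ((Primrec.snd.pair (Primrec.const c)).pair (Primrec.encode.comp Primrec.fst))))
      (Primrec.const true)
  refine h.of_eq fun x => ?_
  unfold W
  constructor
  · rintro ⟨n, hn⟩
    obtain ⟨y, hy⟩ := Option.isSome_iff_exists.1 hn
    exact Part.dom_iff_mem.2 ⟨y, Nat.Partrec.Code.evaln_sound hy⟩
  · intro h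
    obtain ⟨y, hy⟩ := Part.dom_iff_mem.1 h
    obtain ⟨k, hk⟩ := Nat.Partrec.Code.evaln_complete.1 hy
    exact ⟨k, Option.isSome_iff_exists.2 ⟨y, hk⟩⟩

lemma exists_W {C : List Bool × List Bool → Prop} (hC : S1 C) : ∃ c, W c = C := by
  obtain ⟨c, hc⟩ := Nat.Partrec.Code.exists_code.1 hC.re
  refine ⟨c, funext fun x => ?_⟩
  unfold W
  rw [hc]
  simp [Part.assert]

lemma evn_tLe (X : ℕ → Bool) : TLe (evn X) X := by
  have := tLe_join_left (evn X) (odd' X)
  rwa [join_evn_odd] at this

lemma evn_iter_tLe (k : ℕ) (X : ℕ → Bool) : TLe (evn^[k] X) X := by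
  induction k generalizing X with
  | zero => exact TLe.refl X
  | succ k ih =>
    rw [Function.iterate_succ_apply]
    exact (ih _).trans (evn_tLe X)

lemma exists_nxt {K : ℕ → Bool} (m : ℕ) (X : {X : ℕ → Bool // ¬ TLe K X}) :
    ∃ X' : {X : ℕ → Bool // ¬ TLe K X}, evn X'.1 = X.1 ∧
      ((PiC (W (Denumerable.ofNat Code m.unpair.2)) (evn^[m - m.unpair.1] X.1)).Nonempty →
        odd' X'.1 ∈ PiC (W (Denumerable.ofNat Code m.unpair.2)) (evn^[m - m.unpair.1] X.1)) := by
  by_cases h : (PiC (W (Denumerable.ofNat Code m.unpair.2)) (evn^[m - m.unpair.1] X.1)).Nonempty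
  · obtain ⟨P, hP, hP'⟩ := basisK' X.2 (evn_iter_tLe _ _) (s1_W _) h
    refine ⟨⟨join X.1 P, hP'⟩, evn_join _ _, fun _ => ?_⟩
    simp only [odd_join]
    exact hP
  · exact ⟨⟨join X.1 X.1, fun h' => X.2 (h'.trans (join_tLe (TLe.refl _) (TLe.refl _)))⟩,
      evn_join _ _, fun h' => absurd h' h⟩

/-- the characteristic function with values in the natural numbers -/
def ch (A : ℕ → Bool) : ℕ → ℕ := fun n => (A n).toNat

lemma red_ch {A B : ℕ → Bool} : Red (ch A) (ch B) ↔ TLe A B := Iff.rfl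

/-- The infinite path of an infinite binary tree. -/
lemma konig {T : Set (List Bool)} (hT : ∀ σ τ : List Bool, σ <+: τ → τ ∈ T → σ ∈ T)
    (hinf : T.Infinite) : ∃ P : ℕ → Bool, ∀ n, pre P n ∈ T := by
  have hne : ∀ n, {P : ℕ → Bool | pre P n ∈ T}.Nonempty := by
    intro n
    have h1 : ∃ σ ∈ T, n ≤ σ.length := by
      by_contra hcon
      push Not at hcon
      apply hinf
      refine (List.finite_length_lt Bool n).subset fun σ hσ => hcon σ hσ
    obtain ⟨σ, hσ, hl⟩ := h1
    refine ⟨fun i => σ.getD i false, ?_⟩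
    refine hT _ σ ?_ hσ
    have : pre (fun i => σ.getD i false) n = σ.take n := by
      refine List.ext_getElem (by simp [hl]) fun i h1 h2 => ?_
      rw [getElem_pre, List.getElem_take, List.getD_eq_getElem]
    rw [this]
    exact List.take_prefix _ _
  have hcl : ∀ n, IsClosed {P : ℕ → Bool | pre P n ∈ T} := by
    intro n
    have hcont : Continuous (fun y : ℕ → Bool => fun i : Fin n => y i) := by fun_prop
    have h2 : {y : ℕ → Bool | pre y n ∈ T} =
        (fun y : ℕ → Bool => fun i : Fin n => y i) ⁻¹' {v | List.ofFn v ∈ T} := by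
      ext y
      simp only [Set.mem_setOf_eq, Set.mem_preimage]
      have : List.ofFn (fun i : Fin n => y i) = pre y n := by
        refine List.ext_getElem (by simp) fun i h1 h2 => ?_
        simp [getElem_pre]
      rw [this]
    rw [h2]
    exact (isClosed_discrete _).preimage hcont
  obtain ⟨P, hP⟩ := IsCompact.nonempty_iInter_of_sequence_nonempty_isCompact_isClosed
    (fun n => {P : ℕ → Bool | pre P n ∈ T}) (fun n P hP => hT _ _ (pre_prefix P (Nat.le_succ n)) hP)
    hne (hcl 0).isCompact hcl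
  rw [Set.mem_iInter] at hP
  exact ⟨P, hP⟩

/-- The class of the paths of a tree. -/
lemma class_tree {T : Set (List Bool)} {X : ℕ → Bool} (h : Red (chr T) (ch X)) :
    ∃ C : List Bool × List Bool → Prop, S1 C ∧ PiC C X = {P | ∀ n, pre P n ∈ T} := by
  classical
  obtain ⟨A, hA⟩ : ∃ A : ℕ → Bool, A = fun n => decide (∃ a ∈ T, encode a = n) := ⟨_, rfl⟩
  have hc : ch A = chr T := by
    funext n
    rw [hA]
    unfold ch chr
    by_cases h : ∃ a ∈ T, encode a = n <;> simp [h]
  have hAm : ∀ σ : List Bool, A (encode σ) = true ↔ σ ∈ T := by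
    intro σ
    rw [hA]
    simp
  rw [← hc] at h
  have hle : TLe A X := h
  have hS : S1 fun x : List Bool × List Bool => ∃ k : ℕ, (k ≤ x.2.length ∧
      x.1[encode (x.2.take k)]? = some false) := by
    refine S1.ex (S1.of_prim (PrimrecPred.and ?_ ?_))
    · exact Primrec.nat_le.comp Primrec.snd (Primrec.list_length.comp
        (Primrec.snd.comp Primrec.fst))
    · exact Primrec.eq.comp (Primrec.list_getElem?.comp (Primrec.fst.comp Primrec.fst)
        (Primrec.encode.comp (Primrec.list_take.comp Primrec.snd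
          (Primrec.snd.comp Primrec.fst)))) (Primrec.const (some false))
  obtain ⟨C, hC, eC⟩ := PiC_of_tLe hle hS
  refine ⟨C, hC, ?_⟩
  rw [eC]
  ext P
  constructor
  · intro hP n
    have h1 := hP (max n (encode (pre P n) + 1))
    push Not at h1
    have h2 := h1 n (by simp)
    simp only at h2
    rw [take_pre _ _ _ (le_max_left _ _), pre_getElem? _ _ _ (by omega)] at h2
    rw [← hAm]
    simpa using h2
  · rintro hP s ⟨k, hk, h1⟩
    simp only [length_pre] at hk
    simp only at h1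
    rw [take_pre _ _ _ hk] at h1
    have h2 := (hAm _).2 (hP k)
    by_cases h3 : encode (pre P k) < s
    · rw [pre_getElem? _ _ _ h3, h2] at h1
      simp at h1
    · rw [pre_getElem?_none _ _ _ (by omega)] at h1
      simp at h1

theorem exists_scott {K : ℕ → Bool} (hK : ¬ Computable K) :
    ∃ I : Set (ℕ → ℕ), ScottIdeal I ∧ ch K ∉ I := by
  classical
  choose f hf1 hf2 using (exists_nxt (K := K))
  have h0 : ¬ TLe K (fun _ => false) := fun h => hK (computable_iff_tLe.2 h)
  let X : ℕ → {X : ℕ → Bool // ¬ TLe K X} := fun n => Nat.rec ⟨fun _ => false, h0⟩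
    (fun n p => f n p) n
  have hX : ∀ n, X (n + 1) = f n (X n) := fun n => rfl
  have hev : ∀ k m, evn^[k] (X (m + k)).1 = (X m).1 := by
    intro k
    induction k with
    | zero => intro m; rfl
    | succ k ih =>
      intro m
      rw [Function.iterate_succ_apply, ← add_assoc, hX, hf1]
      exact ih m
  have hmono : ∀ m n, m ≤ n → TLe (X m).1 (X n).1 := by
    intro m n h
    obtain ⟨k, rfl⟩ := Nat.exists_eq_add_of_le h
    rw [← hev k m]
    exact evn_iter_tLe _ _
  refine ⟨{f | ∃ n, Red f (ch (X n).1)}, ⟨⟨⟨ch (X 0).1, 0, red_refl _⟩, ?_, ?_⟩, ?_⟩, ?_⟩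
  · rintro g ⟨n, hn⟩ h hh
    exact ⟨n, red_trans hh hn⟩
  · rintro g ⟨n, hn⟩ h ⟨m, hm⟩
    refine ⟨max n m, red_pair (red_trans hn ?_) (red_trans hm ?_)⟩
    · exact red_ch.2 (hmono _ _ (le_max_left _ _))
    · exact red_ch.2 (hmono _ _ (le_max_right _ _))
  · rintro g ⟨n, hn⟩ T hT hinf hr
    obtain ⟨C, hC, eC⟩ := class_tree (red_trans hr hn)
    obtain ⟨c, rfl⟩ := exists_W hC
    have hmn : n ≤ Nat.pair n (encode c) := Nat.left_le_pair _ _
    obtain ⟨m, hm⟩ : ∃ m, m = Nat.pair n (encode c) := ⟨_, rfl⟩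
    rw [← hm] at hmn
    have h1 := hf2 m (X m)
    rw [← hX] at h1
    have e1 : m.unpair.1 = n := by rw [hm]; simp
    have e2 : Denumerable.ofNat Code m.unpair.2 = c := by rw [hm]; simp
    have e3 : evn^[m - n] (X m).1 = (X n).1 := by
      have := hev (m - n) n
      rwa [Nat.add_sub_cancel' hmn] at this
    rw [e1, e2, e3, eC] at h1
    obtain ⟨P, hP⟩ := konig hT hinf
    have h2 := h1 ⟨P, hP⟩
    refine ⟨odd' (X (m + 1)).1, ⟨m + 1, ?_⟩, h2⟩
    have h3 := tLe_join_right (evn (X (m + 1)).1) (odd' (X (m + 1)).1)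
    rw [join_evn_odd] at h3
    exact h3
  · rintro ⟨n, hn⟩
    exact (X n).2 hn

end Pool.Agent.R557.EF
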