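import Pool.Agent.R557.EFTree
import Pool.Agent.R557.EFScott

set_option autoImplicit false

/-! The formula and the main theorem. -/

namespace Pool.Agent.R557.EF

open Nat.Partrec (Code)
open Pool.Agent.R557.CS Hs Encodable

/-- the matrix of the formula -/
def mat : Fml :=
  .and (.and (.eq (.mul (.var 5) (.var 0)) (.mul (.var 0) (.var 5)))
    (.eq (.mul (.var 5) (.var 1)) (.mul (.var 1) (.var 5))))
  (.and (.eq (.mul (.var 3) (.var 5)) (.mul (.mul (.var 4) (.var 5)) (.var 3)))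
    (.neg (.and (.eq (.mul (.var 5) (.var 6)) (.mul (.var 6) (.var 5)))
      (.neg (.eq (.mul (.var 2) (.var 6)) (.mul (.var 6) (.var 2)))))))

lemma qf_mat : IsQF mat :=
  .and (.and (.eq _ _) (.eq _ _)) (.and (.eq _ _) (.neg (.and (.eq _ _) (.neg (.eq _ _)))))

/-- the formula -/
def fml : Fml := .ex 5 (.all 6 mat)

/-- the negated formula -/
def fml' : Fml := .all 5 (.ex 6 (.neg mat))

lemma fml_ok : IsExAllOne fml := ⟨5, 6, mat, qf_mat, rfl⟩

lemma fml'_ok : IsAllExOne fml' := ⟨5, 6, .neg mat, .neg qf_mat, rfl⟩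

lemma sat_fml' {G : Type} [Group G] (v : ℕ → G) : fml'.Sat v ↔ ¬ fml.Sat v := by
  unfold fml fml' Fml.ex
  simp only [Fml.Sat, not_not]

/-- the truth of the formula in a subgroup -/
def Tr (H : Subgroup (Equiv.Perm ℕ)) (p : ℕ → Equiv.Perm ℕ) : Prop :=
  ∃ x ∈ H, ∀ y ∈ H, ((x * p 0 = p 0 * x ∧ x * p 1 = p 1 * x) ∧ p 3 * x = p 4 * x * p 3) ∧
    (x * y = y * x → p 2 * y = y * p 2)

lemma sat_fml {H : Subgroup (Equiv.Perm ℕ)} (v : ℕ → H) (p : ℕ → Equiv.Perm ℕ)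
    (hp : ∀ i, (v i : Equiv.Perm ℕ) = p i) : fml.Sat v ↔ Tr H p := by
  have key : ∀ x y : H, mat.Sat (Function.update (Function.update v 5 x) 6 y) ↔
      (((x : Equiv.Perm ℕ) * p 0 = p 0 * x ∧ (x : Equiv.Perm ℕ) * p 1 = p 1 * x) ∧
        p 3 * x = p 4 * x * p 3) ∧
      ((x : Equiv.Perm ℕ) * y = y * x → p 2 * y = y * p 2) := by
    intro x y
    unfold mat
    simp only [Fml.Sat, Trm.ev, Subtype.ext_iff, Function.update, Subgroup.coe_mul]
    simp [hp, and_assoc]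
  have h1 : fml.Sat v ↔ ∃ x : H, ∀ y : H, mat.Sat (Function.update (Function.update v 5 x) 6 y) := by
    unfold fml Fml.ex
    simp only [Fml.Sat, not_forall, not_exists, not_not]
  rw [h1]
  simp only [key]
  unfold Tr
  constructor
  · rintro ⟨x, hx⟩
    exact ⟨x, x.2, fun y hy => hx ⟨y, hy⟩⟩
  · rintro ⟨x, hx, h⟩
    exact ⟨⟨x, hx⟩, fun y => h y y.2⟩

/-- the parameters -/
def par : ℕ → Hs
  | 0 => aC
  | 1 => aD
  | 2 => aS
  | 3 => a0
  | 4 => aZ
  | _ => 1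

/-- the parameters in the group -/
noncomputable def pg (i : ℕ) : Equiv.Perm ℕ := Ph fun _ => par i

lemma cond_iff (h : ℕ → Hs) :
    ((Ph h * pg 0 = pg 0 * Ph h ∧ Ph h * pg 1 = pg 1 * Ph h) ∧ pg 3 * Ph h = pg 4 * Ph h * pg 3) ↔
      ∀ n, Cnd (h n) := by
  have h1 : Ph h * pg 0 = pg 0 * Ph h ↔ ∀ n, (h n).y1 = 0 ∧ (h n).y0 = 0 := by
    unfold pg
    rw [Ph_mul_comm_iff]
    exact forall_congr' fun n => eqv_c
  have h2 : Ph h * pg 1 = pg 1 * Ph h ↔
      ∀ n, ((h n).y2 = 0 ∧ (h n).y0 = 0) ∧ (KS n → (h n).y1 = 0) := by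
    unfold pg
    rw [Ph_mul_comm_iff]
    exact forall_congr' fun n => eqv_d
  have h3 : pg 3 * Ph h = pg 4 * Ph h * pg 3 ↔
      ∀ n, (h n).xc + (h n).xd = 1 ∧ (h n).xs = 0 := by
    unfold pg
    rw [← map_mul, ← map_mul, ← map_mul, Ph_eq_iff]
    exact forall_congr' fun n => eqv_0
  rw [h1, h2, h3]
  unfold Cnd
  constructor
  · rintro ⟨⟨ha, hb⟩, hc⟩ n
    exact ⟨⟨(ha n).2, (ha n).1, (hb n).1.1⟩, hc n⟩
  · intro ha
    exact ⟨⟨fun n => ⟨(ha n).1.2.1, (ha n).1.1⟩,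
      fun n => ⟨⟨(ha n).1.2.2, (ha n).1.1⟩, fun _ => (ha n).1.2.1⟩⟩, fun n => (ha n).2⟩

lemma comm_s (h : ℕ → Hs) : pg 2 * Ph h = Ph h * pg 2 ↔
    ∀ n, ((h n).y1 = 0 ∧ (h n).y0 = 0) ∧ (KS n → (h n).y2 = 0) := by
  unfold pg
  rw [Ph_mul_comm_iff]
  exact forall_congr' fun n => eqv_s

lemma true_in_G : Tr GG pg := by
  classical
  have hC : ∀ n, Cnd (if KS n then aD else aC) := by
    intro n
    by_cases h : KS n
    · rw [if_pos h]; unfold Cnd aD; simp
    · rw [if_neg h]; unfold Cnd aC; simp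
  refine ⟨Ph fun n => if KS n then aD else aC, ⟨_, rfl⟩, ?_⟩
  rintro y ⟨h, rfl⟩
  refine ⟨(cond_iff _).2 hC, fun hxy => ?_⟩
  rw [Ph_mul_comm_iff] at hxy
  rw [comm_s]
  intro n
  have h1 := (eqv_xy (hC n)).1 (hxy n)
  by_cases hn : KS n
  · simp only [if_pos hn] at h1
    obtain ⟨⟨h2, h3⟩, h4⟩ := h1
    have h4 := h4 hn
    unfold aD at h2 h4
    simp only [mul_zero, mul_one, zero_add] at h2 h4
    exact ⟨⟨h4, h3⟩, fun _ => h2⟩
  · simp only [if_neg hn] at h1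
    obtain ⟨⟨h2, h3⟩, -⟩ := h1
    unfold aC at h2
    simp only [mul_zero, mul_one, add_zero] at h2
    exact ⟨⟨h2, h3⟩, fun h => absurd h hn⟩

open Classical in
/-- the halting problem as a set -/
noncomputable def HP : ℕ → Bool := fun n => decide (KS n)

lemma mem_of_prim {I : Set (ℕ → ℕ)} (hI : TuringIdeal I) {f : ℕ → ℕ} (hf : Nat.Primrec f) :
    f ∈ I := by
  obtain ⟨g, hg⟩ := hI.nonempty
  exact hI.down g hg _ (red_prim hf)

lemma Ph_mem {I : Set (ℕ → ℕ)} (hI : TuringIdeal I) {h : ℕ → Hs}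
    (hh : Primrec fun n => (e (h n) : ℕ)) : Ph h ∈ GI hI GG :=
  ⟨⟨_, rfl⟩, mem_of_prim hI (p_Ph hh)⟩

lemma update_mem {I : Set (ℕ → ℕ)} (hI : TuringIdeal I) (n : ℕ) (b : Hs) :
    Ph (Function.update (1 : ℕ → Hs) n b) ∈ GI hI GG := by
  refine Ph_mem hI ?_
  have : Primrec fun m : ℕ => if m = n then (e b : ℕ) else e 1 :=
    Primrec.ite (Primrec.eq.comp Primrec.id (Primrec.const n)) (Primrec.const _) (Primrec.const _)
  refine this.of_eq fun m => ?_
  by_cases hm : m = n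
  · rw [if_pos hm, hm, Function.update_self]
  · rw [if_neg hm, Function.update_of_ne hm]
    rfl

lemma not_true {I : Set (ℕ → ℕ)} (hI : TuringIdeal I) (hK : ch HP ∉ I) : ¬ Tr (GI hI GG) pg := by
  classical
  rintro ⟨x, ⟨⟨h, rfl⟩, hxI⟩, hx⟩
  have hC : ∀ n, Cnd (h n) := (cond_iff h).1 (hx 1 (one_mem _)).1
  have key : ∀ (n : ℕ) (b : Hs), Eqv n (h n * b) (b * h n) →
      (b.y1 = 0 ∧ b.y0 = 0) ∧ (KS n → b.y2 = 0) := by
    intro n b hb
    have h1 := (hx _ (update_mem hI n b)).2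
    rw [Ph_mul_comm_iff, comm_s] at h1
    have h2 := h1 (fun m => by
      by_cases hm : m = n
      · subst hm
        rw [Function.update_self]
        exact hb
      · rw [Function.update_of_ne hm, Pi.one_apply, mul_one, one_mul]
        exact Eqv.refl _ _) n
    rwa [Function.update_self] at h2
  have hz : ∀ x y : ZMod 2, x + y = 1 → (y ≠ 1 → x = 1 ∧ y = 0) ∧ (y = 1 → x = 0) := by decide
  have hval : ∀ n, KS n ↔ (h n).xd = 1 := by
    intro n
    constructor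
    · intro hn
      by_contra hcon
      obtain ⟨h1, h2⟩ := (hz _ _ (hC n).2.1).1 hcon
      have h3 := (key n b2 ((eqv_xy (hC n)).2 (by unfold b2; simp [h1, h2]))).2 hn
      unfold b2 at h3
      simp at h3
    · intro hd
      by_contra hn
      have h1 := (hz _ _ (hC n).2.1).2 hd
      have h3 := (key n b1 ((eqv_xy (hC n)).2 (by unfold b1; simp [h1, hn]))).1.1
      unfold b1 at h3
      simp at h3
  apply hK
  refine hI.down _ hxI _ ?_
  -- the reduction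
  have hr : Primrec fun r : ℕ => if (el r).xd = 1 then 1 else 0 := by
    have h1 : Primrec fun r : Fin N => if (el r).xd = 1 then 1 else 0 := Primrec.dom_finite _
    refine (h1.comp (p_fin N_pos)).of_eq fun r => ?_
    simp only [el_mod]
  have hp : Primrec fun n : ℕ => Ei (Nat.pair n 0) 1 := by
    unfold Ei
    exact Primrec.nat_add.comp (Primrec.nat_mul.comp (Primrec.const N)
      (Primrec₂.natPair.comp Primrec.id (Primrec.const 0))) (Primrec.const _)
  have h5 : ch HP = fun n => (fun r : ℕ => if (el r).xd = 1 then 1 else 0)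
      (Ph h (Ei (Nat.pair n 0) 1)) := by
    funext n
    have ht : ty (Nat.pair n 0) = 0 := by unfold ty; simp
    simp only
    rw [Ph_apply, act_Ei, el_Ei, ht, Nat.unpair_pair, T_zero_one]
    unfold ch HP rz
    simp only
    by_cases hn : KS n
    · rw [if_pos ((hval n).1 hn)]
      simp [hn]
    · rw [if_neg (fun h' => hn ((hval n).2 h'))]
      simp [hn]
  rw [h5]
  exact red_comp (red_prim (Primrec.nat_iff.1 hr))
    (red_comp (red_refl _) (red_prim (Primrec.nat_iff.1 hp)))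

lemma KS_iff (n : ℕ) : KS n ↔ (Code.eval (Denumerable.ofNat Code n) 0).Dom := by
  unfold KS R
  constructor
  · rintro ⟨s, hs⟩
    obtain ⟨y, hy⟩ := Option.isSome_iff_exists.1 hs
    exact Part.dom_iff_mem.2 ⟨y, Nat.Partrec.Code.evaln_sound hy⟩
  · intro h
    obtain ⟨y, hy⟩ := Part.dom_iff_mem.1 h
    obtain ⟨k, hk⟩ := Nat.Partrec.Code.evaln_complete.1 hy
    exact ⟨k, Option.isSome_iff_exists.2 ⟨y, hk⟩⟩

lemma not_computable_HP : ¬ Computable HP := by
  intro h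
  apply ComputablePred.halting_problem 0
  rw [ComputablePred.computable_iff]
  refine ⟨fun c => HP (encode c), h.comp Computable.encode, ?_⟩
  funext c
  unfold HP
  simp only [decide_eq_true_eq, KS_iff, Denumerable.ofNat_encode]

/-- the values of the parameters -/
lemma pg_mem {I : Set (ℕ → ℕ)} (hI : TuringIdeal I) (i : ℕ) : pg i ∈ GI hI GG :=
  Ph_mem hI (Primrec.const _)

theorem main_neg {I : Set (ℕ → ℕ)} (hI : TuringIdeal I) (hK : ch HP ∉ I) (Γ : Fml → Prop)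
    (hΓ : (∀ φ, IsExAllOne φ → Γ φ) ∨ (∀ φ, IsAllExOne φ → Γ φ)) : ¬ ElemFor Γ (GI hI GG) GG := by
  rintro ⟨-, h⟩
  have h1 : (fml.Sat (G := GI hI GG) fun i => ⟨pg i, pg_mem hI i⟩) ↔
      (fml.Sat (G := GG) fun i => ⟨pg i, ⟨_, rfl⟩⟩) := by
    rcases hΓ with hΓ | hΓ
    · exact h fml (hΓ _ fml_ok) _ _ fun i => rfl
    · have h2 := h fml' (hΓ _ fml'_ok) (fun i => ⟨pg i, pg_mem hI i⟩)
        (fun i => ⟨pg i, ⟨_, rfl⟩⟩) fun i => rfl
      rw [sat_fml', sat_fml'] at h2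
      exact not_iff_not.1 h2
  rw [sat_fml _ pg (fun _ => rfl), sat_fml _ pg (fun _ => rfl)] at h1
  exact not_true hI hK (h1.2 true_in_G)

end Pool.Agent.R557.EF
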