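import Pool.Agent.R557.EFDef
import Pool.Agent.R557.EFGrp
import Pool.Agent.R557.CSPrim

set_option autoImplicit false

/-! The group is profinite, its tree and the branching function are computable. -/

namespace Pool.Agent.R557.EF

open Nat.Partrec (Code)
open Pool.Agent.R557.CS Hs

/-! ### Profiniteness -/

lemma GG_profinite : IsProfinite GG := by
  constructor
  · intro g hg
    have key : ∀ n, ∃ a : Hs, ∀ m x, m.unpair.1 = n → g (Ei m x) = Ei m (T (ty m) a x) := by
      intro n
      by_contra hcon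
      push Not at hcon
      choose m x h1 h2 using hcon
      obtain ⟨h', ⟨h, rfl⟩, hh⟩ := hg (Finset.univ.sup (fun a => Ei (m a) (x a)) + 1)
      have h3 : Ei (m (h n)) (x (h n)) < Finset.univ.sup (fun a => Ei (m a) (x a)) + 1 :=
        Nat.lt_succ_of_le (Finset.le_sup (f := fun a => Ei (m a) (x a)) (Finset.mem_univ (h n)))
      have h4 := hh _ h3
      rw [Ph_apply, act_Ei, h1] at h4
      exact h2 (h n) h4.symm
    choose a ha using key
    refine ⟨a, ?_⟩
    ext p
    rw [Ph_apply]
    conv_rhs => rw [← Ei_el p]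
    rw [ha _ (p / N) (el p) rfl]
    rfl
  · intro n
    refine (Set.finite_range (fun x : Hs => Ei (n / N) x)).subset ?_
    rintro m ⟨g, ⟨h, rfl⟩, rfl⟩
    exact ⟨_, rfl⟩

/-! ### Computability -/

/-- the table of the actions -/
noncomputable def tb (t q a r : ℕ) : ℕ := e (T t (if q = 0 then el a else (el a)⁻¹) (el r))

lemma el_mod (a : ℕ) : el (a % N) = el a := by
  unfold el
  simp

lemma p_fin {n : ℕ} (hn : 0 < n) : Primrec fun a : ℕ => (⟨a % n, Nat.mod_lt _ hn⟩ : Fin n) :=
  Primrec.fin_val_iff.1 (Primrec.nat_mod.comp Primrec.id (Primrec.const n))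

lemma p_tb {α : Type*} [Primcodable α] {t q a r : α → ℕ} (ht : Primrec t) (hq : Primrec q)
    (ha : Primrec a) (hr : Primrec r) (h3 : ∀ x, t x < 3) (h2 : ∀ x, q x < 2) :
    Primrec fun x => tb (t x) (q x) (a x) (r x) := by
  have hF : Primrec fun x : Fin 3 × Fin 2 × Fin N × Fin N => tb x.1 x.2.1 x.2.2.1 x.2.2.2 :=
    Primrec.dom_finite _
  have hc := hF.comp (((p_fin (n := 3) (by norm_num)).comp ht).pair
    (((p_fin (n := 2) (by norm_num)).comp hq).pair
      (((p_fin N_pos).comp ha).pair ((p_fin N_pos).comp hr))))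
  refine hc.of_eq fun x => ?_
  simp only
  rw [Nat.mod_eq_of_lt (h3 x), Nat.mod_eq_of_lt (h2 x)]
  unfold tb
  rw [el_mod, el_mod]

lemma p_R : Primrec₂ fun n s : ℕ => R n s := by
  unfold R
  exact Primrec.option_isSome.comp (Nat.Partrec.Code.primrec_evaln.comp
    ((Primrec.snd.pair ((Primrec.ofNat Code).comp Primrec.fst)).pair (Primrec.const 0)))

lemma p_ty : Primrec ty := by
  unfold ty
  refine Primrec.ite ?_ (Primrec.const 0) (Primrec.ite ?_ (Primrec.const 1) (Primrec.const 2))
  · exact Primrec.eq.comp (Primrec.snd.comp Primrec.unpair) (Primrec.const 0)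
  · refine Primrec.eq.comp ?_ (Primrec.const true)
    exact p_R.comp (Primrec.fst.comp Primrec.unpair)
      (Primrec.nat_sub.comp (Primrec.snd.comp Primrec.unpair) (Primrec.const 1))

lemma ty_lt (m : ℕ) : ty m < 3 := by
  unfold ty
  split_ifs <;> norm_num

/-- the value at a position of the sequence -/
noncomputable def val (i a : ℕ) : ℕ := N * (i / 2 / N) + tb (ty (i / 2 / N)) (i % 2) a (i / 2)

lemma p_val : Primrec₂ val := by
  unfold val
  have h1 : Primrec fun x : ℕ × ℕ => x.1 / 2 :=
    Primrec.nat_div.comp Primrec.fst (Primrec.const 2)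
  have h2 : Primrec fun x : ℕ × ℕ => x.1 / 2 / N := Primrec.nat_div.comp h1 (Primrec.const N)
  refine Primrec.nat_add.comp (Primrec.nat_mul.comp (Primrec.const N) h2) ?_
  exact p_tb (p_ty.comp h2) (Primrec.nat_mod.comp Primrec.fst (Primrec.const 2)) Primrec.snd h1
    (fun _ => ty_lt _) (fun _ => Nat.mod_lt _ (by norm_num))

lemma val_eq (h : ℕ → Hs) (i : ℕ) : (if i % 2 = 0 then Ph h (i / 2) else (Ph h)⁻¹ (i / 2)) =
    val i (e (h (i / 2 / N).unpair.1)) := by
  rw [← map_inv]
  by_cases h0 : i % 2 = 0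
  · rw [if_pos h0, Ph_apply]
    unfold act val tb Ei
    rw [if_pos h0, el_e]
  · rw [if_neg h0, Ph_apply]
    unfold act val tb Ei
    rw [if_neg h0, el_e]
    rfl

lemma tg_iff (σ : List ℕ) : σ ∈ TG GG ↔ ∀ n < σ.length, ∃ a < N, ∀ i < σ.length,
    (i / 2 / N).unpair.1 = n → σ.getD i 0 = val i a := by
  constructor
  · rintro ⟨g, ⟨h, rfl⟩, hg⟩ n hn
    refine ⟨e (h n), (e (h n)).2, fun i hi he => ?_⟩
    rw [hg i hi, val_eq, he]
  · intro hσ
    have h1 : ∀ n, ∃ a < N, ∀ i < σ.length,
        (i / 2 / N).unpair.1 = n → σ.getD i 0 = val i a := by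
      intro n
      by_cases hn : n < σ.length
      · exact hσ n hn
      · refine ⟨0, N_pos, fun i hi he => ?_⟩
        exfalso
        have := Nat.unpair_left_le (i / 2 / N)
        have h2 : i / 2 / N ≤ i := (Nat.div_le_self _ _).trans (Nat.div_le_self _ _)
        omega
    choose a ha ha' using h1
    refine ⟨Ph (fun n => el (a n)), ⟨_, rfl⟩, fun i hi => ?_⟩
    rw [ha' _ i hi rfl, val_eq]
    congr 1
    unfold el
    simp [Nat.mod_eq_of_lt (ha _)]

/-- the decision procedure -/
noncomputable def chk (σ : List ℕ) : Bool :=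
  qall σ.length fun n => qex N fun a => qall σ.length fun i =>
    !(decide ((i / 2 / N).unpair.1 = n)) || decide (σ.getD i 0 = val i a)

lemma chk_iff (σ : List ℕ) : chk σ = true ↔ σ ∈ TG GG := by
  rw [tg_iff]
  unfold chk
  simp only [qall_iff, qex_iff, Bool.or_eq_true, Bool.not_eq_true', decide_eq_false_iff_not,
    decide_eq_true_eq]
  simp only [imp_iff_not_or]

lemma p_chk : Primrec chk := by
  unfold chk
  refine p_qall Primrec.list_length ?_
  refine p_qex (Primrec.const N) ?_
  refine p_qall (α := (List ℕ × ℕ) × ℕ) (Primrec.list_length.comp (Primrec.fst.comp Primrec.fst)) ?_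
  refine p_or (p_not (p_eq ?_ ?_)) (p_eq ?_ ?_)
  · exact Primrec.fst.comp (Primrec.unpair.comp (Primrec.nat_div.comp
      (Primrec.nat_div.comp Primrec.snd (Primrec.const 2)) (Primrec.const N)))
  · exact Primrec.snd.comp (Primrec.fst.comp Primrec.fst)
  · exact p_getD (Primrec.fst.comp (Primrec.fst.comp Primrec.fst)) Primrec.snd
  · exact p_val.comp Primrec.snd (Primrec.snd.comp Primrec.fst)

lemma chr_TG : chr (TG GG) = fun n => (chk (Denumerable.ofNat (List ℕ) n)).toNat := by
  funext n
  unfold chr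
  have : (∃ a ∈ TG GG, Encodable.encode a = n) ↔ chk (Denumerable.ofNat (List ℕ) n) = true := by
    rw [chk_iff]
    constructor
    · rintro ⟨a, ha, rfl⟩
      rwa [Denumerable.ofNat_encode]
    · intro h
      exact ⟨_, h, Denumerable.encode_ofNat n⟩
  by_cases h : ∃ a ∈ TG GG, Encodable.encode a = n
  · rw [if_pos h, this.1 h]
    rfl
  · rw [if_neg h]
    have h2 : chk (Denumerable.ofNat (List ℕ) n) = false := by
      rw [← Bool.not_eq_true]
      exact fun h' => h (this.2 h')
    rw [h2]
    rfl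

lemma p_chr : Nat.Primrec (chr (TG GG)) := by
  rw [chr_TG]
  exact Primrec.nat_iff.1 ((Primrec.dom_bool Bool.toNat).comp
    (p_chk.comp (Primrec.ofNat (List ℕ))))

lemma branch_eq (σ : List ℕ) : branch GG σ = qcnt (σ.length + N) fun m => chk (σ ++ [m]) := by
  unfold branch
  rw [qcnt_eq, ← Set.ncard_coe_finset]
  congr 1
  ext m
  simp only [Set.mem_setOf_eq, Finset.coe_filter, Finset.mem_range, chk_iff]
  constructor
  · intro h
    refine ⟨?_, h⟩
    obtain ⟨g, ⟨h, rfl⟩, hg⟩ := h
    have h1 := hg σ.length (by simp)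
    rw [val_eq] at h1
    simp only [List.getD_append_right _ _ _ _ le_rfl, Nat.sub_self, List.getD_cons_zero] at h1
    rw [h1]
    unfold val tb
    have h2 : N * (σ.length / 2 / N) ≤ σ.length / 2 := Nat.mul_div_le _ _
    have h3 : σ.length / 2 ≤ σ.length := Nat.div_le_self _ _
    have h4 := (e (T (ty (σ.length / 2 / N)) (if σ.length % 2 = 0 then
      el (e (h (σ.length / 2 / N).unpair.1)) else (el (e (h (σ.length / 2 / N).unpair.1)))⁻¹)
      (el (σ.length / 2)))).2
    omega
  · exact fun h => h.2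

lemma p_branch : Nat.Primrec fun n => branch GG (Denumerable.ofNat (List ℕ) n) := by
  have h1 : Primrec fun σ : List ℕ => qcnt (σ.length + N) fun m => chk (σ ++ [m]) := by
    refine p_qcnt (Primrec.nat_add.comp Primrec.list_length (Primrec.const N)) ?_
    exact p_chk.comp (Primrec.list_concat.comp Primrec.fst Primrec.snd)
  refine Primrec.nat_iff.1 ((h1.comp (Primrec.ofNat (List ℕ))).of_eq fun n => ?_)
  rw [branch_eq]

/-- elements with primitive recursive coordinates -/
lemma p_Ph {h : ℕ → Hs} (hh : Primrec fun n => (e (h n) : ℕ)) : Nat.Primrec (⇑(Ph h)) := by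
  have h1 : Primrec fun p : ℕ => N * (p / N) + tb (ty (p / N)) 0 (e (h (p / N).unpair.1)) p := by
    have h2 : Primrec fun p : ℕ => p / N := Primrec.nat_div.comp Primrec.id (Primrec.const N)
    refine Primrec.nat_add.comp (Primrec.nat_mul.comp (Primrec.const N) h2) ?_
    exact p_tb (p_ty.comp h2) (Primrec.const 0)
      (hh.comp (Primrec.fst.comp (Primrec.unpair.comp h2))) Primrec.id (fun _ => ty_lt _)
      (fun _ => by norm_num)
  refine Primrec.nat_iff.1 (h1.of_eq fun p => ?_)
  rw [Ph_apply]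
  unfold act tb Ei
  rw [if_pos rfl, el_e]

end Pool.Agent.R557.EF
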