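import Pool.Agent.R557.PAShort

set_option autoImplicit false

/-! The average. -/

namespace Pool.Agent.R557.PA

open Module Finset

/-- average from tail bounds -/
lemma sum_le_of_tail {ι : Type} [Fintype ι] (X : ι → ℝ) (A h : ℝ) (hh : 0 < h)
    (H : ∀ j : ℕ, ((Finset.univ.filter (fun i => A + h * j < X i)).card : ℝ) ≤
      (Fintype.card ι : ℝ) / 2 ^ j) : ∑ i, X i ≤ (Fintype.card ι : ℝ) * (A + 2 * h) := by
  classical
  let m : ι → ℕ := fun i => ⌈(X i - A) / h⌉₊
  have hm : ∀ i (j : ℕ), j < m i ↔ A + h * j < X i := by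
    intro i j
    simp only [m]
    rw [Nat.lt_ceil, lt_div_iff₀ hh]
    constructor <;> intro h1 <;> nlinarith
  have hX : ∀ i, X i ≤ A + h * m i := by
    intro i
    have h1 : (X i - A) / h ≤ m i := Nat.le_ceil _
    rw [div_le_iff₀ hh] at h1
    nlinarith
  let J := ∑ i, m i
  have hJ : ∀ i, m i ≤ J := fun i => Finset.single_le_sum (f := m) (fun _ _ => Nat.zero_le _)
    (Finset.mem_univ i)
  have hcount : ∀ i, (m i : ℝ) = ∑ j ∈ Finset.range J, (if j < m i then (1 : ℝ) else 0) := by
    intro i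
    rw [← Finset.sum_filter, Finset.sum_const, nsmul_eq_mul, mul_one]
    congr 1
    have h1 : (Finset.range J).filter (fun j => j < m i) = Finset.range (m i) := by
      ext j
      rw [Finset.mem_filter, Finset.mem_range, Finset.mem_range]
      constructor
      · exact fun h => h.2
      · exact fun h => ⟨lt_of_lt_of_le h (hJ i), h⟩
    rw [h1, Finset.card_range]
  have h1 : ∑ i, X i ≤ ∑ i, (A + h * m i) := Finset.sum_le_sum (fun i _ => hX i)
  have h2 : ∑ i, (A + h * m i) = (Fintype.card ι : ℝ) * A + h * ∑ i, (m i : ℝ) := by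
    rw [Finset.sum_add_distrib, Finset.sum_const, Finset.card_univ, nsmul_eq_mul, Finset.mul_sum]
  have h3 : ∑ i, (m i : ℝ) ≤ (Fintype.card ι : ℝ) * 2 := by
    calc ∑ i, (m i : ℝ) = ∑ i, ∑ j ∈ Finset.range J, (if j < m i then (1 : ℝ) else 0) :=
          Finset.sum_congr rfl (fun i _ => hcount i)
      _ = ∑ j ∈ Finset.range J, ∑ i, (if j < m i then (1 : ℝ) else 0) := Finset.sum_comm
      _ ≤ ∑ j ∈ Finset.range J, (Fintype.card ι : ℝ) / 2 ^ j := by
          apply Finset.sum_le_sum
          intro j _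
          rw [← Finset.sum_filter, Finset.sum_const, nsmul_eq_mul, mul_one]
          refine le_trans ?_ (H j)
          apply le_of_eq
          congr 2
          ext i
          simp only [Finset.mem_filter, Finset.mem_univ, true_and]
          exact hm i j
      _ = (Fintype.card ι : ℝ) * ∑ j ∈ Finset.range J, (1 / 2 : ℝ) ^ j := by
          rw [Finset.mul_sum]
          apply Finset.sum_congr rfl
          intro j _
          rw [one_div, inv_pow]
          rfl
      _ ≤ (Fintype.card ι : ℝ) * 2 := by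
          apply mul_le_mul_of_nonneg_left _ (Nat.cast_nonneg _)
          exact sum_geometric_two_le J
  calc ∑ i, X i ≤ (Fintype.card ι : ℝ) * A + h * ∑ i, (m i : ℝ) := by rw [← h2]; exact h1
    _ ≤ (Fintype.card ι : ℝ) * A + h * ((Fintype.card ι : ℝ) * 2) := by
        have := mul_le_mul_of_nonneg_left h3 hh.le
        linarith
    _ = _ := by ring

variable {R : Type} [CommRing R] (S : Setup R)

namespace Setup

open Classical in
lemma count_good [IsDomain R] (n : ℕ) (B : ℝ) :
    ((Finset.univ.filter (fun w : Fin n → Fin S.N => S.Good w B)).card : ℝ) ≤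
      ((3 * B) ^ (S.k + 1)) ^ 2 := by
  by_cases hB : 1 ≤ B
  swap
  · have h0 : Finset.univ.filter (fun w : Fin n → Fin S.N => S.Good w B) = ∅ := by
      rw [Finset.filter_eq_empty_iff]
      intro w _ hw
      obtain ⟨f, g, hf, hg, hcop, -⟩ := hw
      apply hB
      apply S.one_le_of_ne hg
      rintro rfl
      rw [isCoprime_zero_left] at hcop
      have h1 : S.p ∣ 1 := hcop.dvd
      rw [S.p_dvd_iff, S.co_one] at h1
      simp only [if_true] at h1
      have h2 := Int.le_of_dvd one_pos h1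
      have := S.hN
      omega
    rw [h0]
    simp only [Finset.card_empty, Nat.cast_zero]
    positivity
  obtain ⟨T, hT, hTc⟩ := S.Box_finset B hB
  have h1 : (Finset.univ.filter (fun w : Fin n → Fin S.N => S.Good w B)).card ≤ (T ×ˢ T).card := by
    let F : (Fin n → Fin S.N) → R × R := fun w =>
      if h : S.Good w B then (h.choose, h.choose_spec.choose) else 0
    apply Finset.card_le_card_of_injOn F
    · intro w hw
      rw [Finset.mem_coe, Finset.mem_filter] at hw
      have h := hw.2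
      simp only [F, dif_pos h]
      have hs := h.choose_spec.choose_spec
      rw [Finset.mem_coe, Finset.mem_product]
      exact ⟨hT _ hs.1, hT _ hs.2.1⟩
    · intro w hw w' hw' hF
      rw [Finset.mem_coe, Finset.mem_filter] at hw hw'
      have hP : ∀ v, S.Good v B → IsCoprime (F v).2 S.p ∧ S.p ^ n ∣ (F v).2 * S.val v - (F v).1 := by
        intro v h
        simp only [F, dif_pos h]
        exact h.choose_spec.choose_spec.2.2
      have h1 := hP w hw.2
      have h2 := hP w' hw'.2
      rw [← hF] at h2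
      apply S.word_unique
      have h3 := dvd_sub h1.2 h2.2
      have h4 : (F w).2 * S.val w - (F w).1 - ((F w).2 * S.val w' - (F w).1) =
          (F w).2 * (S.val w - S.val w') := by ring
      rw [h4] at h3
      exact (h1.1.symm.pow_left).dvd_of_dvd_mul_left h3
  rw [Finset.card_product] at h1
  have h2 : ((Finset.univ.filter (fun w : Fin n → Fin S.N => S.Good w B)).card : ℝ) ≤
      (T.card : ℝ) * T.card := by exact_mod_cast h1
  refine le_trans h2 ?_
  rw [sq]
  exact mul_le_mul hTc hTc (Nat.cast_nonneg _) (by positivity)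

lemma logb_nu : Real.logb S.N S.nu = 1 / ((S.k + 1 : ℕ) : ℝ) := by
  unfold nu
  rw [Real.logb_rpow_eq_mul_logb_of_pos (by linarith [S.one_le_N]),
    Real.logb_self_eq_one (by linarith [S.two_le_N]), mul_one]

/-- the average of a function comparable with the size is `n / 2 + O(1)` -/
theorem average [IsDomain R] {n : ℕ} (X : (Fin n → Fin S.N) → ℝ) (e : ℝ) (t : ℕ)
    (ht : S.k + 1 ≤ 2 ^ t)
    (H1 : ∀ w B, 1 ≤ B → S.Good w B → X w ≤ (S.k + 1) * Real.logb S.N B + e)
    (H2 : ∀ w s, X w < s → S.Good w ((S.N : ℝ) ^ (s / (S.k + 1)))) :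
    (∑ w, X w) / (S.N : ℝ) ^ n ≤ n / 2 + (S.k + 1) * (19 / 2 + 3 / 2 * t) - 1 + e ∧
    (n : ℝ) / 2 - (2 * (S.k + 1) + 1) ≤ (∑ w, X w) / (S.N : ℝ) ^ n := by
  classical
  have hN := S.two_le_N
  have hN1 : (1 : ℝ) < S.N := by linarith
  have hNpos : (0 : ℝ) < S.N := by linarith
  have hnu := S.nu_pos
  have hk : (0 : ℝ) ≤ S.k := Nat.cast_nonneg _
  have hcardι : (Fintype.card (Fin n → Fin S.N) : ℝ) = (S.N : ℝ) ^ n := by
    rw [Fintype.card_fun, Fintype.card_fin, Fintype.card_fin]
    push_cast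
    rfl
  have hNn : (0 : ℝ) < (S.N : ℝ) ^ n := by positivity
  constructor
  · -- upper bound
    have htail := sum_le_of_tail X (n / 2 + (S.k + 1) * (17 / 2 + 3 / 2 * t) - 1 + e)
      ((S.k + 1) / 2) (by linarith) ?_
    · rw [hcardι] at htail
      rw [div_le_iff₀ hNn]
      refine le_trans htail (le_of_eq ?_)
      ring
    · intro j
      rw [hcardι]
      let q : ℕ := S.N ^ (11 + t + j)
      have hq : 0 < q := pow_pos (by have := S.hN; omega) _
      have hqr : (q : ℝ) = (S.N : ℝ) ^ (11 + t + j) := by simp [q]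
      have hqpos : (0 : ℝ) < q := by exact_mod_cast hq
      let B : ℝ := Real.sqrt ((q + 1) * S.nu ^ (n + S.k + 1))
      have hB2 : B ^ 2 = (q + 1) * S.nu ^ (n + S.k + 1) := Real.sq_sqrt (by positivity)
      have hB0 : 0 ≤ B := Real.sqrt_nonneg _
      have hB1 : 1 ≤ B := by
        have h1 : (1 : ℝ) ≤ S.nu ^ (n + S.k + 1) := one_le_pow₀ S.one_le_nu
        have h2 : (1 : ℝ) ≤ B ^ 2 := by rw [hB2]; nlinarith
        nlinarith
      -- bad words have short vectors
      have hsub : Finset.univ.filter (fun w => (n : ℝ) / 2 + (S.k + 1) * (17 / 2 + 3 / 2 * t) - 1 + e +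
          (S.k + 1) / 2 * j < X w) ⊆
          Finset.univ.filter (fun w : Fin n → Fin S.N => S.Short w (2 * B / q)) := by
        intro w hw
        rw [Finset.mem_filter] at hw ⊢
        refine ⟨Finset.mem_univ _, ?_⟩
        rcases S.alternative w q hq B hB0 hB2 with h1 | h1
        · exfalso
          have hnuk : (1 : ℝ) ≤ S.nu ^ S.k := one_le_pow₀ S.one_le_nu
          have hBB : 1 ≤ 2 * ((S.k : ℝ) + 1) * S.nu ^ S.k * B := by
            have h2 : (1 : ℝ) ≤ 2 * ((S.k : ℝ) + 1) := by linarith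
            have h3 := mul_le_mul h2 hnuk zero_le_one (by linarith)
            have h4 := mul_le_mul h3 hB1 zero_le_one (by nlinarith)
            simpa using h4
          have h2 := H1 w _ hBB h1
          have h3 : Real.logb S.N (2 * ((S.k : ℝ) + 1) * S.nu ^ S.k * B) ≤
              (1 + t) + S.k / (S.k + 1) + ((12 + t + j) + (n + S.k + 1) / (S.k + 1)) / 2 := by
            rw [Real.logb_mul (by positivity) (by positivity),
              Real.logb_mul (by positivity) (by positivity)]
            have e1 : Real.logb S.N (2 * ((S.k : ℝ) + 1)) ≤ 1 + t := by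
              rw [Real.logb_le_iff_le_rpow hN1 (by positivity)]
              have h5 : ((S.k : ℝ) + 1) ≤ 2 ^ t := by exact_mod_cast ht
              calc 2 * ((S.k : ℝ) + 1) ≤ 2 * 2 ^ t := by linarith
                _ = (2 : ℝ) ^ (t + 1) := by ring
                _ ≤ (S.N : ℝ) ^ (t + 1) := pow_le_pow_left₀ (by norm_num) hN _
                _ = (S.N : ℝ) ^ ((1 : ℝ) + t) := by
                    rw [← Real.rpow_natCast]; push_cast; ring_nf
            have e2 : Real.logb S.N (S.nu ^ S.k) = S.k / (S.k + 1) := by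
              rw [Real.logb_pow, S.logb_nu]
              push_cast
              ring
            have e3 : Real.logb S.N B ≤ ((12 + t + j) + (n + S.k + 1) / (S.k + 1)) / 2 := by
              have h5 : Real.logb S.N (B ^ 2) = 2 * Real.logb S.N B := by
                rw [Real.logb_pow]; push_cast; ring
              rw [hB2, Real.logb_mul (by positivity) (by positivity), Real.logb_pow, S.logb_nu] at h5
              have h6 : Real.logb S.N ((q : ℝ) + 1) ≤ 12 + t + j := by
                rw [Real.logb_le_iff_le_rpow hN1 (by positivity)]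
                have h7 : (1 : ℝ) ≤ q := by exact_mod_cast hq
                calc (q : ℝ) + 1 ≤ q * 2 := by linarith
                  _ ≤ q * S.N := by nlinarith
                  _ = (S.N : ℝ) ^ (12 + t + j) := by rw [hqr]; ring
                  _ = (S.N : ℝ) ^ ((12 : ℝ) + t + j) := by
                    rw [← Real.rpow_natCast]; push_cast; ring_nf
              have h8 : ((n + S.k + 1 : ℕ) : ℝ) * (1 / ((S.k + 1 : ℕ) : ℝ)) =
                (n + S.k + 1) / (S.k + 1) := by push_cast; ring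
              rw [h8] at h5
              linarith
            rw [e2]
            linarith
          have h4 := mul_le_mul_of_nonneg_left h3 (by linarith : (0 : ℝ) ≤ S.k + 1)
          have h5 : ((S.k : ℝ) + 1) * ((1 + t) + S.k / (S.k + 1) +
              ((12 + t + j) + (n + S.k + 1) / (S.k + 1)) / 2) =
              (n : ℝ) / 2 + (S.k + 1) * (17 / 2 + 3 / 2 * t) - 1 + (S.k + 1) / 2 * j := by
            field_simp
            ring
          rw [h5] at h4
          linarith [hw.2]
        · exact h1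
      have h1 : ((Finset.univ.filter (fun w => (n : ℝ) / 2 + (S.k + 1) * (17 / 2 + 3 / 2 * t) - 1 + e +
          (S.k + 1) / 2 * j < X w)).card : ℝ) ≤
          (36 * (S.k + 1)) ^ (S.k + 1) * (S.N : ℝ) ^ S.k * ((2 * B / q) ^ 2) ^ (S.k + 1) := by
        refine le_trans ?_ (S.count_short n (2 * B / q))
        exact_mod_cast Finset.card_le_card hsub
      refine le_trans h1 ?_
      -- arithmetic
      have h2 : (2 * B / q) ^ 2 ≤ 8 / q * S.nu ^ (n + S.k + 1) := by
        rw [div_pow, mul_pow, hB2]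
        have hq1 : (1 : ℝ) ≤ q := by exact_mod_cast hq
        have hnn : 0 ≤ S.nu ^ (n + S.k + 1) := by positivity
        rw [div_le_iff₀ (by positivity)]
        have h3 : 8 / (q : ℝ) * S.nu ^ (n + S.k + 1) * (q : ℝ) ^ 2 = 8 * q * S.nu ^ (n + S.k + 1) := by
          field_simp
        rw [h3]
        nlinarith
      have h3 : ((2 * B / q) ^ 2) ^ (S.k + 1) ≤ (8 / q) ^ (S.k + 1) * (S.N : ℝ) ^ (n + S.k + 1) := by
        calc ((2 * B / q) ^ 2) ^ (S.k + 1) ≤ (8 / q * S.nu ^ (n + S.k + 1)) ^ (S.k + 1) :=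
              pow_le_pow_left₀ (by positivity) h2 _
          _ = (8 / q) ^ (S.k + 1) * (S.N : ℝ) ^ (n + S.k + 1) := by
              rw [mul_pow, ← pow_mul, mul_comm (n + S.k + 1), pow_mul, S.nu_pow]
      have h4 : (36 * ((S.k : ℝ) + 1)) ^ (S.k + 1) * (S.N : ℝ) ^ S.k * ((2 * B / q) ^ 2) ^ (S.k + 1) ≤
          (36 * ((S.k : ℝ) + 1)) ^ (S.k + 1) * (S.N : ℝ) ^ S.k *
            ((8 / q) ^ (S.k + 1) * (S.N : ℝ) ^ (n + S.k + 1)) :=
        mul_le_mul_of_nonneg_left h3 (by positivity)
      refine le_trans h4 ?_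
      have h5 : (36 * ((S.k : ℝ) + 1)) ^ (S.k + 1) * (S.N : ℝ) ^ S.k *
            ((8 / q) ^ (S.k + 1) * (S.N : ℝ) ^ (n + S.k + 1)) =
          (288 * ((S.k : ℝ) + 1) / q) ^ (S.k + 1) * (S.N : ℝ) ^ (2 * S.k + 1) * (S.N : ℝ) ^ n := by
        have : (288 * ((S.k : ℝ) + 1) / q) = (36 * ((S.k : ℝ) + 1)) * (8 / q) := by ring
        rw [this, mul_pow (36 * ((S.k : ℝ) + 1)) (8 / (q : ℝ))]
        generalize (36 * ((S.k : ℝ) + 1)) ^ (S.k + 1) = a1
        generalize (8 / (q : ℝ)) ^ (S.k + 1) = a2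
        have e1 : (S.N : ℝ) ^ (n + S.k + 1) = (S.N : ℝ) ^ n * (S.N : ℝ) ^ S.k * S.N := by
          rw [pow_succ, pow_add]
        have e2 : (S.N : ℝ) ^ (2 * S.k + 1) = (S.N : ℝ) ^ S.k * (S.N : ℝ) ^ S.k * S.N := by
          rw [pow_succ, two_mul, pow_add]
        rw [e1, e2]
        ring
      rw [h5]
      have h6 : (288 * ((S.k : ℝ) + 1) / q) ≤ 1 / (S.N : ℝ) ^ (2 + j) := by
        rw [hqr, div_le_div_iff₀ (by positivity) (by positivity)]
        have h7 : ((S.k : ℝ) + 1) ≤ 2 ^ t := by exact_mod_cast ht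
        calc 288 * ((S.k : ℝ) + 1) * (S.N : ℝ) ^ (2 + j) ≤ 2 ^ 9 * 2 ^ t * (S.N : ℝ) ^ (2 + j) := by
              apply mul_le_mul_of_nonneg_right _ (by positivity)
              nlinarith
          _ = 2 ^ (9 + t) * (S.N : ℝ) ^ (2 + j) := by rw [pow_add (2 : ℝ) 9 t]
          _ ≤ (S.N : ℝ) ^ (9 + t) * (S.N : ℝ) ^ (2 + j) := by
              apply mul_le_mul_of_nonneg_right _ (by positivity)
              exact pow_le_pow_left₀ (by norm_num) hN _
          _ = 1 * (S.N : ℝ) ^ (11 + t + j) := by rw [one_mul, ← pow_add]; congr 1; omega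
      have h7 : (288 * ((S.k : ℝ) + 1) / q) ^ (S.k + 1) * (S.N : ℝ) ^ (2 * S.k + 1) ≤ 1 / 2 ^ j := by
        have h8 : (288 * ((S.k : ℝ) + 1) / q) ^ (S.k + 1) ≤ (1 / (S.N : ℝ) ^ (2 + j)) ^ (S.k + 1) :=
          pow_le_pow_left₀ (by positivity) h6 _
        have h9 : (1 / (S.N : ℝ) ^ (2 + j)) ^ (S.k + 1) * (S.N : ℝ) ^ (2 * S.k + 1) ≤ 1 / 2 ^ j := by
          rw [one_div_pow, ← pow_mul, div_mul_eq_mul_div, one_mul,
            div_le_div_iff₀ (by positivity) (by positivity), one_mul]
          calc (S.N : ℝ) ^ (2 * S.k + 1) * 2 ^ j ≤ (S.N : ℝ) ^ (2 * S.k + 1) * (S.N : ℝ) ^ j := by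
                apply mul_le_mul_of_nonneg_left _ (by positivity)
                exact pow_le_pow_left₀ (by norm_num) hN _
            _ = (S.N : ℝ) ^ (2 * S.k + 1 + j) := by rw [← pow_add]
            _ ≤ (S.N : ℝ) ^ ((2 + j) * (S.k + 1)) := by
                apply pow_le_pow_right₀ (by linarith)
                nlinarith
        exact le_trans (mul_le_mul_of_nonneg_right h8 (by positivity)) h9
      calc (288 * ((S.k : ℝ) + 1) / q) ^ (S.k + 1) * (S.N : ℝ) ^ (2 * S.k + 1) * (S.N : ℝ) ^ n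
          ≤ 1 / 2 ^ j * (S.N : ℝ) ^ n := mul_le_mul_of_nonneg_right h7 (by positivity)
        _ = (S.N : ℝ) ^ n / 2 ^ j := by ring
  · -- lower bound
    have htail := sum_le_of_tail (fun w => - X w) (-(n / 2 : ℝ) + 2 * (S.k + 1)) (1 / 2)
      (by norm_num) ?_
    · rw [hcardι, Finset.sum_neg_distrib] at htail
      rw [le_div_iff₀ hNn]
      have h1 : ((n : ℝ) / 2 - (2 * (S.k + 1) + 1)) * (S.N : ℝ) ^ n =
        -((S.N : ℝ) ^ n * (-(n / 2 : ℝ) + 2 * (S.k + 1) + 2 * (1 / 2))) := by ring
      rw [h1]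
      linarith
    · intro j
      rw [hcardι]
      set s : ℝ := n / 2 - 2 * (S.k + 1) - 1 / 2 * j with hs
      have hsub : Finset.univ.filter (fun w => -(n / 2 : ℝ) + 2 * (S.k + 1) + 1 / 2 * j < - X w) ⊆
          Finset.univ.filter (fun w : Fin n → Fin S.N => S.Good w ((S.N : ℝ) ^ (s / (S.k + 1)))) := by
        intro w hw
        rw [Finset.mem_filter] at hw ⊢
        refine ⟨Finset.mem_univ _, ?_⟩
        apply H2
        rw [hs]
        linarith [hw.2]
      have h1 : ((Finset.univ.filter (fun w => -(n / 2 : ℝ) + 2 * (S.k + 1) + 1 / 2 * j < - X w)).card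
          : ℝ) ≤ ((3 * (S.N : ℝ) ^ (s / (S.k + 1))) ^ (S.k + 1)) ^ 2 := by
        refine le_trans ?_ (S.count_good n _)
        exact_mod_cast Finset.card_le_card hsub
      refine le_trans h1 ?_
      have h2 : ((3 * (S.N : ℝ) ^ (s / (S.k + 1))) ^ (S.k + 1)) ^ 2 =
          9 ^ (S.k + 1) * (S.N : ℝ) ^ (2 * s) := by
        rw [mul_pow, mul_pow, ← pow_mul, mul_comm (S.k + 1) 2, pow_mul]
        congr 1
        · norm_num
        · rw [← Real.rpow_natCast ((S.N : ℝ) ^ (s / (S.k + 1))), ← Real.rpow_mul hNpos.le,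
            ← Real.rpow_natCast, ← Real.rpow_mul hNpos.le]
          congr 1
          push_cast
          field_simp
      rw [h2]
      have h3 : (S.N : ℝ) ^ (2 * s) * (S.N : ℝ) ^ (4 * (S.k + 1) + j) = (S.N : ℝ) ^ n := by
        rw [← Real.rpow_natCast (S.N : ℝ) (4 * (S.k + 1) + j), ← Real.rpow_add hNpos,
          ← Real.rpow_natCast (S.N : ℝ) n]
        congr 1
        rw [hs]
        push_cast
        ring
      rw [le_div_iff₀ (by positivity), ← h3]
      have h4 : (9 : ℝ) ^ (S.k + 1) * 2 ^ j ≤ (S.N : ℝ) ^ (4 * (S.k + 1) + j) := by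
        rw [pow_add (S.N : ℝ), pow_mul (S.N : ℝ)]
        apply mul_le_mul _ (pow_le_pow_left₀ (by norm_num) hN _) (by positivity) (by positivity)
        apply pow_le_pow_left₀ (by norm_num)
        calc (9 : ℝ) ≤ 2 ^ 4 := by norm_num
          _ ≤ (S.N : ℝ) ^ 4 := pow_le_pow_left₀ (by norm_num) hN _
      have h5 : (0 : ℝ) < (S.N : ℝ) ^ (2 * s) := Real.rpow_pos_of_pos hNpos _
      calc (9 : ℝ) ^ (S.k + 1) * (S.N : ℝ) ^ (2 * s) * 2 ^ j =
          (S.N : ℝ) ^ (2 * s) * ((9 : ℝ) ^ (S.k + 1) * 2 ^ j) := by ring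
        _ ≤ _ := mul_le_mul_of_nonneg_left h4 h5.le

/-! ### Extending words to sequences -/

lemma extend [IsDomain R] {n : ℕ} (w : Fin n → Fin S.N) {f g : R} (hg : IsCoprime g S.p)
    (h : S.p ^ n ∣ g * S.val w - f) : ∃ b : ℕ → Fin S.N, (∀ i : Fin n, b i = w i) ∧
      ∀ m : ℕ, S.p ^ m ∣ g * (∑ i ∈ Finset.range m, ((b i : ℕ) : R) * S.p ^ i) - f := by
  have hex : ∀ m : ℕ, ∃ W : Fin m → Fin S.N, S.p ^ m ∣ g * S.val W - f := by
    intro m
    obtain ⟨u, v, huv⟩ := hg.pow_right (n := m)
    obtain ⟨W, hW⟩ := S.exists_word m (u * f)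
    refine ⟨W, ?_⟩
    have h1 : g * S.val W - f = -(g * (u * f - S.val W)) + S.p ^ m * (-(v * f)) := by
      have : f = (u * g + v * S.p ^ m) * f := by rw [huv, one_mul]
      calc g * S.val W - f = g * S.val W - (u * g + v * S.p ^ m) * f := by rw [← this]
        _ = _ := by ring
    rw [h1]
    exact dvd_add ((dvd_neg).2 (Dvd.dvd.mul_left hW g)) (dvd_mul_right _ _)
  choose W hW using hex
  have huniq : ∀ {m : ℕ} (V V' : Fin m → Fin S.N), S.p ^ m ∣ g * S.val V - f →
      S.p ^ m ∣ g * S.val V' - f → V = V' := by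
    intro m V V' h1 h2
    apply S.word_unique
    have h3 := dvd_sub h1 h2
    have h4 : g * S.val V - f - (g * S.val V' - f) = g * (S.val V - S.val V') := by ring
    rw [h4] at h3
    exact (hg.symm.pow_left).dvd_of_dvd_mul_left h3
  have hinit : ∀ m, Fin.init (W (m + 1)) = W m := by
    intro m
    apply huniq _ _ _ (hW m)
    have h1 := hW (m + 1)
    rw [← Fin.snoc_init_self (W (m + 1)), S.val_snoc] at h1
    have h2 := dvd_trans (pow_dvd_pow S.p (Nat.le_succ m)) h1
    have h3 : g * S.val (Fin.init (W (m + 1))) - f =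
      (g * (S.val (Fin.init (W (m + 1))) + ((W (m + 1) (Fin.last m) : ℕ) : R) * S.p ^ m) - f) -
      S.p ^ m * (g * ((W (m + 1) (Fin.last m) : ℕ) : R)) := by ring
    rw [h3]
    exact dvd_sub h2 (dvd_mul_right _ _)
  let b : ℕ → Fin S.N := fun i => W (i + 1) (Fin.last i)
  have hb : ∀ m (i : Fin m), W m i = b i := by
    intro m
    induction m with
    | zero => intro i; exact i.elim0
    | succ m ih =>
      intro i
      induction i using Fin.lastCases with
      | last => rfl
      | cast i =>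
        have h1 : W (m + 1) i.castSucc = Fin.init (W (m + 1)) i := rfl
        rw [h1, hinit m, ih i]
        rfl
  refine ⟨b, ?_, ?_⟩
  · intro i
    rw [← hb n i, huniq _ _ (hW n) h]
  · intro m
    have h1 := hW m
    have h2 : S.val (W m) = ∑ i ∈ Finset.range m, ((b i : ℕ) : R) * S.p ^ i := by
      unfold val
      rw [← Fin.sum_univ_eq_sum_range (fun i => ((b i : ℕ) : R) * S.p ^ i) m]
      apply Finset.sum_congr rfl
      intro i _
      rw [hb m i]
    rw [← h2]
    exact h1

end Setup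

end Pool.Agent.R557.PA
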