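import Mathlib

set_option autoImplicit false

/-! Boxes in a ring with basis `1, p, ..., p ^ k` and `p ^ (k + 1) = c`. -/

namespace Pool.Agent.R557.PA

open Module Finset

/-- A ring with a power basis `1, p, ..., p ^ k` over the integers such that `p ^ (k+1) = c`, with
`|c| = N ≥ 2`. -/
structure Setup (R : Type) [CommRing R] where
  k : ℕ
  N : ℕ
  hN : 2 ≤ N
  c : ℤ
  hc : c.natAbs = N
  p : R
  b : Basis (Fin (k + 1)) ℤ R
  hb : ∀ i, b i = p ^ (i : ℕ)
  hp : p ^ (k + 1) = (c : R)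

variable {R : Type} [CommRing R] (S : Setup R)

namespace Setup

/-- the real number `N ^ (1 / (k+1))` -/
noncomputable def nu : ℝ := (S.N : ℝ) ^ ((1 : ℝ) / ((S.k + 1 : ℕ) : ℝ))

lemma one_le_N : (1 : ℝ) ≤ S.N := by
  have := S.hN
  exact_mod_cast (by omega : 1 ≤ S.N)

lemma two_le_N : (2 : ℝ) ≤ S.N := by
  have := S.hN
  exact_mod_cast this

lemma nu_pos : 0 < S.nu := Real.rpow_pos_of_pos (by linarith [S.one_le_N]) _

lemma one_le_nu : 1 ≤ S.nu := Real.one_le_rpow S.one_le_N (by positivity)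

lemma nu_pow : S.nu ^ (S.k + 1) = S.N := by
  unfold nu
  rw [← Real.rpow_natCast, ← Real.rpow_mul (by linarith [S.one_le_N])]
  rw [one_div, inv_mul_cancel₀ (by positivity), Real.rpow_one]

/-- coordinates -/
noncomputable def co (x : R) (i : Fin (S.k + 1)) : ℤ := S.b.repr x i

lemma co_add (x y : R) (i) : S.co (x + y) i = S.co x i + S.co y i := by simp [co]
lemma co_sub (x y : R) (i) : S.co (x - y) i = S.co x i - S.co y i := by simp [co]
lemma co_neg (x : R) (i) : S.co (-x) i = - S.co x i := by simp [co]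
lemma co_zero (i) : S.co 0 i = 0 := by simp [co]
lemma co_intmul (m : ℤ) (x : R) (i) : S.co ((m : R) * x) i = m * S.co x i := by
  have : (m : R) * x = m • x := (zsmul_eq_mul x m).symm
  unfold co
  rw [this, map_smul, Finsupp.smul_apply, smul_eq_mul]

lemma co_sum {ι : Type} (s : Finset ι) (f : ι → R) (i) :
    S.co (∑ j ∈ s, f j) i = ∑ j ∈ s, S.co (f j) i := by
  simp [co, map_sum, Finsupp.finsetSum_apply]

lemma ext_co {x y : R} (h : ∀ i, S.co x i = S.co y i) : x = y := by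
  apply S.b.repr.injective
  ext i
  exact h i

/-- the element with given coordinates -/
noncomputable def el (u : Fin (S.k + 1) → ℤ) : R := ∑ i, (u i : R) * S.p ^ (i : ℕ)

lemma co_el (u : Fin (S.k + 1) → ℤ) (i) : S.co (S.el u) i = u i := by
  have : S.el u = ∑ j, u j • S.b j := by
    unfold el
    apply Finset.sum_congr rfl
    intro j _
    rw [S.hb]
    exact (zsmul_eq_mul _ _).symm
  rw [this, co, S.b.repr_sum_self]

lemma el_co (x : R) : S.el (S.co x) = x := S.ext_co (fun i => S.co_el _ i)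

lemma mul_p (u : Fin (S.k + 1) → ℤ) : S.p * S.el u =
    S.el (Fin.cons (S.c * u (Fin.last S.k)) (fun i : Fin S.k => u i.castSucc)) := by
  unfold el
  rw [Fin.sum_univ_castSucc, Fin.sum_univ_succ]
  simp only [Fin.cons_zero, Fin.cons_succ, Fin.val_castSucc, Fin.val_last, Fin.val_zero,
    Fin.val_succ, pow_zero, mul_one, mul_add, Finset.mul_sum, Int.cast_mul]
  rw [← S.hp]
  rw [add_comm]
  congr 1
  · ring
  · apply Finset.sum_congr rfl
    intro i _
    ring

lemma co_p_mul_zero (x : R) : S.co (S.p * x) 0 = S.c * S.co x (Fin.last S.k) := by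
  rw [← S.el_co x, S.mul_p, S.co_el]
  simp [S.el_co]

lemma co_p_mul_succ (x : R) (i : Fin S.k) : S.co (S.p * x) i.succ = S.co x i.castSucc := by
  rw [← S.el_co x, S.mul_p, S.co_el]
  simp [S.el_co]

/-- the box of size `B` -/
def Box (B : ℝ) : Set R := {x | ∀ i, |(S.co x i : ℝ)| * S.nu ^ (i : ℕ) ≤ B}

lemma mem_Box {B : ℝ} {x : R} : x ∈ S.Box B ↔ ∀ i, |(S.co x i : ℝ)| * S.nu ^ (i : ℕ) ≤ B := Iff.rfl

lemma Box_mono {B B' : ℝ} (h : B ≤ B') : S.Box B ⊆ S.Box B' := fun _ hx i => le_trans (hx i) h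

lemma Box_nonneg {B : ℝ} {x : R} (h : x ∈ S.Box B) : 0 ≤ B :=
  le_trans (mul_nonneg (abs_nonneg _) (pow_nonneg S.nu_pos.le _)) (h 0)

lemma zero_mem_Box {B : ℝ} (h : 0 ≤ B) : (0 : R) ∈ S.Box B := by
  intro i
  simp [S.co_zero, h]

lemma Box_add {B B' : ℝ} {x y : R} (hx : x ∈ S.Box B) (hy : y ∈ S.Box B') :
    x + y ∈ S.Box (B + B') := by
  intro i
  rw [S.co_add]
  push_cast
  calc |(S.co x i : ℝ) + S.co y i| * S.nu ^ (i : ℕ)
      ≤ (|(S.co x i : ℝ)| + |(S.co y i : ℝ)|) * S.nu ^ (i : ℕ) :=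
        mul_le_mul_of_nonneg_right (abs_add_le _ _) (pow_nonneg S.nu_pos.le _)
    _ ≤ B + B' := by rw [add_mul]; exact add_le_add (hx i) (hy i)

lemma Box_neg {B : ℝ} {x : R} (hx : x ∈ S.Box B) : -x ∈ S.Box B := by
  intro i
  rw [S.co_neg]
  push_cast
  rw [abs_neg]
  exact hx i

lemma Box_sub {B B' : ℝ} {x y : R} (hx : x ∈ S.Box B) (hy : y ∈ S.Box B') :
    x - y ∈ S.Box (B + B') := by
  rw [sub_eq_add_neg]
  exact S.Box_add hx (S.Box_neg hy)

lemma Box_sum {ι : Type} (s : Finset ι) (f : ι → R) (B : ι → ℝ) (h : ∀ j ∈ s, f j ∈ S.Box (B j)) :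
    ∑ j ∈ s, f j ∈ S.Box (∑ j ∈ s, B j) := by
  classical
  induction s using Finset.induction_on with
  | empty => simpa using S.zero_mem_Box (le_refl 0)
  | insert a s ha ih =>
    rw [Finset.sum_insert ha, Finset.sum_insert ha]
    exact S.Box_add (h a (Finset.mem_insert_self _ _))
      (ih (fun j hj => h j (Finset.mem_insert_of_mem hj)))

lemma Box_intmul {B : ℝ} {x : R} (m : ℤ) (hx : x ∈ S.Box B) : (m : R) * x ∈ S.Box (|(m : ℝ)| * B) := by
  intro i
  rw [S.co_intmul]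
  push_cast
  rw [abs_mul, mul_assoc]
  exact mul_le_mul_of_nonneg_left (hx i) (abs_nonneg _)

lemma Box_of_intmul {B : ℝ} {x : R} {m : ℤ} (hm : m ≠ 0) (hx : (m : R) * x ∈ S.Box (|(m : ℝ)| * B)) :
    x ∈ S.Box B := by
  intro i
  have h := hx i
  rw [S.co_intmul] at h
  push_cast at h
  rw [abs_mul, mul_assoc] at h
  have hm' : (0 : ℝ) < |(m : ℝ)| := abs_pos.2 (by exact_mod_cast hm)
  exact le_of_mul_le_mul_left h hm'

lemma c_abs : |(S.c : ℝ)| = S.N := by
  rw [← S.hc]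
  rw [Nat.cast_natAbs]
  push_cast
  rfl

lemma Box_p_mul {B : ℝ} {x : R} : S.p * x ∈ S.Box (S.nu * B) ↔ x ∈ S.Box B := by
  have hnu := S.nu_pos
  constructor
  · intro h i
    induction i using Fin.lastCases with
    | last =>
      have h0 := h 0
      rw [S.co_p_mul_zero] at h0
      push_cast at h0
      rw [abs_mul, S.c_abs, Fin.val_zero, pow_zero, mul_one, ← S.nu_pow, pow_succ'] at h0
      rw [Fin.val_last]
      have : S.nu * (|(S.co x (Fin.last S.k) : ℝ)| * S.nu ^ S.k) ≤ S.nu * B := by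
        calc S.nu * (|(S.co x (Fin.last S.k) : ℝ)| * S.nu ^ S.k) =
          S.nu * S.nu ^ S.k * |(S.co x (Fin.last S.k) : ℝ)| := by ring
          _ ≤ _ := h0
      exact le_of_mul_le_mul_left this hnu
    | cast i =>
      have h0 := h i.succ
      rw [S.co_p_mul_succ, Fin.val_succ, pow_succ'] at h0
      rw [Fin.val_castSucc]
      have : S.nu * (|(S.co x i.castSucc : ℝ)| * S.nu ^ (i : ℕ)) ≤ S.nu * B := by
        calc S.nu * (|(S.co x i.castSucc : ℝ)| * S.nu ^ (i : ℕ)) =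
          |(S.co x i.castSucc : ℝ)| * (S.nu * S.nu ^ (i : ℕ)) := by ring
          _ ≤ _ := h0
      exact le_of_mul_le_mul_left this hnu
  · intro h i
    induction i using Fin.cases with
    | zero =>
      rw [S.co_p_mul_zero]
      push_cast
      rw [abs_mul, S.c_abs, Fin.val_zero, pow_zero, mul_one, ← S.nu_pow, pow_succ']
      have h0 := h (Fin.last S.k)
      rw [Fin.val_last] at h0
      calc S.nu * S.nu ^ S.k * |(S.co x (Fin.last S.k) : ℝ)| =
        S.nu * (|(S.co x (Fin.last S.k) : ℝ)| * S.nu ^ S.k) := by ring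
        _ ≤ _ := mul_le_mul_of_nonneg_left h0 hnu.le
    | succ i =>
      rw [S.co_p_mul_succ, Fin.val_succ, pow_succ']
      have h0 := h i.castSucc
      rw [Fin.val_castSucc] at h0
      calc |(S.co x i.castSucc : ℝ)| * (S.nu * S.nu ^ (i : ℕ)) =
        S.nu * (|(S.co x i.castSucc : ℝ)| * S.nu ^ (i : ℕ)) := by ring
        _ ≤ _ := mul_le_mul_of_nonneg_left h0 hnu.le

lemma Box_p_pow_mul {B : ℝ} {x : R} (n : ℕ) : S.p ^ n * x ∈ S.Box (S.nu ^ n * B) ↔ x ∈ S.Box B := by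
  induction n with
  | zero => simp
  | succ n ih =>
    rw [pow_succ', pow_succ', mul_assoc, mul_assoc, S.Box_p_mul, ih]

lemma one_le_of_ne {B : ℝ} {x : R} (hx : x ∈ S.Box B) (h0 : x ≠ 0) : 1 ≤ B := by
  have : ∃ i, S.co x i ≠ 0 := by
    by_contra h
    push Not at h
    apply h0
    apply S.ext_co
    intro i
    rw [h i, S.co_zero]
  obtain ⟨i, hi⟩ := this
  refine le_trans ?_ (hx i)
  have h1 : (1 : ℝ) ≤ |(S.co x i : ℝ)| := by
    have := Int.one_le_abs hi
    exact_mod_cast this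
  have h2 : (1 : ℝ) ≤ S.nu ^ (i : ℕ) := one_le_pow₀ S.one_le_nu
  nlinarith

/-- the number of points in a box -/
lemma Box_finset (B : ℝ) (hB : 1 ≤ B) : ∃ T : Finset R, (∀ x, x ∈ S.Box B → x ∈ T) ∧
    (T.card : ℝ) ≤ (3 * B) ^ (S.k + 1) := by
  classical
  let U : Finset (Fin (S.k + 1) → ℤ) := Fintype.piFinset (fun _ => Finset.Icc (-⌊B⌋) ⌊B⌋)
  refine ⟨U.image S.el, ?_, ?_⟩
  · intro x hx
    rw [Finset.mem_image]
    refine ⟨S.co x, ?_, S.el_co x⟩
    rw [Fintype.mem_piFinset]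
    intro i
    have h1 : |(S.co x i : ℝ)| ≤ B := by
      refine le_trans ?_ (hx i)
      have h2 : (1 : ℝ) ≤ S.nu ^ (i : ℕ) := one_le_pow₀ S.one_le_nu
      exact le_mul_of_one_le_right (abs_nonneg _) h2
    have h3 : |S.co x i| ≤ ⌊B⌋ := by
      rw [Int.le_floor]
      exact_mod_cast h1
    rw [Finset.mem_Icc]
    exact abs_le.1 h3
  · have hfl : (0 : ℤ) ≤ ⌊B⌋ := Int.floor_nonneg.2 (by linarith)
    have h1 : (U.image S.el).card ≤ U.card := Finset.card_image_le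
    have h2 : (U.card : ℝ) = (2 * ⌊B⌋ + 1 : ℝ) ^ (S.k + 1) := by
      rw [Fintype.card_piFinset]
      simp only [Int.card_Icc, Finset.prod_const, Finset.card_univ, Fintype.card_fin]
      push_cast
      congr 1
      have h3 : ((⌊B⌋ + 1 - -⌊B⌋).toNat : ℤ) = 2 * ⌊B⌋ + 1 := by
        rw [Int.toNat_of_nonneg (by linarith)]; ring
      exact_mod_cast h3
    calc ((U.image S.el).card : ℝ) ≤ U.card := by exact_mod_cast h1
      _ = (2 * ⌊B⌋ + 1 : ℝ) ^ (S.k + 1) := h2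
      _ ≤ (3 * B) ^ (S.k + 1) := by
        apply pow_le_pow_left₀
        · have : (0 : ℝ) ≤ ⌊B⌋ := by exact_mod_cast hfl
          linarith
        · have := Int.floor_le B
          linarith

/-! ### Rounding -/

lemma mod_int (E : ℤ) (hE : E ≠ 0) (y : R) : ∃ z r : R, y = (E : R) * z + r ∧
    ∀ i, |S.co r i| ≤ |E| := by
  refine ⟨S.el (fun i => S.co y i / E), S.el (fun i => S.co y i % E), ?_, ?_⟩
  · apply S.ext_co
    intro i
    rw [S.co_add, S.co_intmul, S.co_el, S.co_el]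
    exact (Int.mul_ediv_add_emod (S.co y i) E).symm
  · intro i
    rw [S.co_el]
    have h1 := Int.emod_nonneg (S.co y i) hE
    have h2 := Int.emod_lt_abs (S.co y i) hE
    rw [abs_of_nonneg h1]
    exact h2.le

lemma small_mul {r v : R} {e : ℤ} {B : ℝ} (hr : ∀ i, |S.co r i| ≤ e) (hv : v ∈ S.Box B) :
    r * v ∈ S.Box ((e : ℝ) * ((S.k + 1) * S.nu ^ S.k * B)) := by
  have hB := S.Box_nonneg hv
  have he : 0 ≤ e := le_trans (abs_nonneg _) (hr 0)
  have h1 : r * v = ∑ i, ((S.co r i : R) * (S.p ^ (i : ℕ) * v)) := by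
    conv_lhs => rw [← S.el_co r]
    unfold el
    rw [Finset.sum_mul]
    apply Finset.sum_congr rfl
    intro i _
    ring
  rw [h1]
  have h2 := S.Box_sum Finset.univ (fun i => ((S.co r i : R) * (S.p ^ (i : ℕ) * v)))
    (fun _ => (e : ℝ) * (S.nu ^ S.k * B)) ?_
  · refine S.Box_mono ?_ h2
    rw [Finset.sum_const, Finset.card_univ, Fintype.card_fin, nsmul_eq_mul]
    push_cast
    apply le_of_eq
    ring
  · intro i _
    have h3 : S.p ^ (i : ℕ) * v ∈ S.Box (S.nu ^ (i : ℕ) * B) := (S.Box_p_pow_mul _).2 hv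
    have h4 := S.Box_intmul (S.co r i) h3
    refine S.Box_mono ?_ h4
    have h5 : |(S.co r i : ℝ)| ≤ e := by exact_mod_cast hr i
    have h6 : S.nu ^ (i : ℕ) ≤ S.nu ^ S.k := pow_le_pow_right₀ S.one_le_nu (by omega)
    have he' : (0 : ℝ) ≤ e := by exact_mod_cast he
    apply mul_le_mul h5 (mul_le_mul_of_nonneg_right h6 hB)
      (mul_nonneg (pow_nonneg S.nu_pos.le _) hB) he'

end Setup

include S in
/-- every nonzero element divides a nonzero integer -/
lemma exists_int_multiple [IsDomain R] {D : R} (hD : D ≠ 0) :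
    ∃ (E : ℤ) (D' : R), E ≠ 0 ∧ D' * D = (E : R) := by
  have : Module.Finite ℤ R := Module.Finite.of_basis S.b
  have hint : IsIntegral ℤ D := Algebra.IsIntegral.isIntegral D
  have h := Ideal.comap_ne_bot_of_integral_mem (R := ℤ) (I := Ideal.span {D}) hD
    (Ideal.mem_span_singleton_self D) hint
  rw [Submodule.ne_bot_iff] at h
  obtain ⟨E, hE, hE0⟩ := h
  rw [Ideal.mem_comap, Ideal.mem_span_singleton] at hE
  obtain ⟨D', hD'⟩ := hE
  refine ⟨E, D', hE0, ?_⟩
  rw [mul_comm, ← hD']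
  simp

/-- rounding modulo one element -/
lemma round1 [IsDomain R] {x : R} {B : ℝ} (hx : x ∈ S.Box B) (h0 : x ≠ 0) (y : R) :
    ∃ z, y - z * x ∈ S.Box ((S.k + 1) * S.nu ^ S.k * B) := by
  obtain ⟨E, D', hE, hD'⟩ := exists_int_multiple S h0
  obtain ⟨z, r, h1, h2⟩ := S.mod_int E hE (D' * y)
  refine ⟨z, ?_⟩
  apply S.Box_of_intmul hE
  have h3 : (E : R) * (y - z * x) = r * x := by
    have h4 : (E : R) * y = (D' * y) * x := by rw [← hD']; ring
    rw [mul_sub, h4, h1]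
    ring
  rw [h3]
  have h5 := S.small_mul h2 hx
  push_cast at h5
  exact h5

/-- rounding modulo two independent vectors -/
lemma round2 [IsDomain R] {f1 g1 f2 g2 : R} {B : ℝ} (hf1 : f1 ∈ S.Box B) (hg1 : g1 ∈ S.Box B)
    (hf2 : f2 ∈ S.Box B) (hg2 : g2 ∈ S.Box B) (h0 : f1 * g2 - f2 * g1 ≠ 0) (f g : R) :
    ∃ z1 z2, f - z1 * f1 - z2 * f2 ∈ S.Box (2 * (S.k + 1) * S.nu ^ S.k * B) ∧
      g - z1 * g1 - z2 * g2 ∈ S.Box (2 * (S.k + 1) * S.nu ^ S.k * B) := by
  obtain ⟨E, D', hE, hD'⟩ := exists_int_multiple S h0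
  obtain ⟨z1, r1, h1, h2⟩ := S.mod_int E hE (D' * (f * g2 - f2 * g))
  obtain ⟨z2, r2, h3, h4⟩ := S.mod_int E hE (D' * (f1 * g - f * g1))
  have key : ∀ {a1 a2 a : R}, a1 ∈ S.Box B → a2 ∈ S.Box B →
      (f1 * g2 - f2 * g1) * a = (f * g2 - f2 * g) * a1 + (f1 * g - f * g1) * a2 →
      a - z1 * a1 - z2 * a2 ∈ S.Box (2 * (S.k + 1) * S.nu ^ S.k * B) := by
    intro a1 a2 a ha1 ha2 hcr
    apply S.Box_of_intmul hE
    have h5 : (E : R) * (a - z1 * a1 - z2 * a2) = r1 * a1 + r2 * a2 := by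
      have h6 : (E : R) * a = (D' * (f * g2 - f2 * g)) * a1 + (D' * (f1 * g - f * g1)) * a2 := by
        rw [← hD', mul_assoc, hcr]; ring
      have h7 : (E : R) * (a - z1 * a1 - z2 * a2) = E * a - (E * z1) * a1 - (E * z2) * a2 := by ring
      rw [h7, h6, h1, h3]
      ring
    rw [h5]
    have h8 := S.Box_add (S.small_mul h2 ha1) (S.small_mul h4 ha2)
    refine S.Box_mono ?_ h8
    push_cast
    apply le_of_eq
    ring
  exact ⟨z1, z2, key hf1 hf2 (by ring), key hg1 hg2 (by ring)⟩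

end Pool.Agent.R557.PA
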