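import Pool.Agent.R557.PABox

set_option autoImplicit false

/-! Digits, words and counting. -/

namespace Pool.Agent.R557.PA

open Module Finset

variable {R : Type} [CommRing R] (S : Setup R)

namespace Setup

lemma N_dvd_c : (S.N : ℤ) ∣ S.c := by
  rw [← S.hc]; exact Int.natAbs_dvd.2 (dvd_refl _)

lemma c_dvd_N : S.c ∣ (S.N : ℤ) := by
  rw [← S.hc]; exact Int.dvd_natAbs.2 (dvd_refl _)

lemma co_one (i : Fin (S.k + 1)) : S.co 1 i = if i = 0 then 1 else 0 := by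
  have h : (1 : R) = S.b 0 := by rw [S.hb]; simp
  rw [h, co, Basis.repr_self, Finsupp.single_apply]
  simp only [eq_comm]

lemma co_int_zero (m : ℤ) : S.co (m : R) 0 = m := by
  have := S.co_intmul m 1 0
  rw [mul_one, S.co_one] at this
  simpa using this

lemma co_nat_zero (m : ℕ) : S.co (m : R) 0 = m := by
  have := S.co_int_zero m
  simpa using this

include S in
lemma int_ne_zero {m : ℤ} (hm : m ≠ 0) : (m : R) ≠ 0 := by
  intro h
  apply hm
  rw [← S.co_int_zero m, h, S.co_zero]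

lemma c_ne_zero : S.c ≠ 0 := by
  intro h
  have h1 := S.hc
  rw [h] at h1
  have := S.hN
  simp at h1
  omega

lemma p_ne_zero : S.p ≠ 0 := by
  intro h
  apply S.int_ne_zero S.c_ne_zero
  rw [← S.hp, h, zero_pow (by omega)]

lemma p_dvd_iff (x : R) : S.p ∣ x ↔ (S.N : ℤ) ∣ S.co x 0 := by
  constructor
  · rintro ⟨y, rfl⟩
    rw [S.co_p_mul_zero]
    exact Dvd.dvd.mul_right S.N_dvd_c _
  · intro h
    obtain ⟨m, hm⟩ := dvd_trans S.c_dvd_N h
    let u : Fin (S.k + 1) → ℤ := Fin.snoc (fun i : Fin S.k => S.co x i.succ) m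
    refine ⟨S.el u, ?_⟩
    apply S.ext_co
    intro i
    rw [S.mul_p, S.co_el]
    induction i using Fin.cases with
    | zero => simp [u, hm]
    | succ i => simp [u]

/-- the value of a word -/
def val {n : ℕ} (w : Fin n → Fin S.N) : R := ∑ i : Fin n, ((w i : ℕ) : R) * S.p ^ (i : ℕ)

lemma val_snoc {n : ℕ} (w : Fin n → Fin S.N) (a : Fin S.N) :
    S.val (Fin.snoc w a : Fin (n + 1) → Fin S.N) = S.val w + ((a : ℕ) : R) * S.p ^ n := by
  unfold val
  rw [Fin.sum_univ_castSucc]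
  simp

lemma exists_digit (x : R) : ∃ a : Fin S.N, S.p ∣ x - ((a : ℕ) : R) := by
  have hN := S.hN
  have hN' : (S.N : ℤ) ≠ 0 := by omega
  have h1 : 0 ≤ S.co x 0 % (S.N : ℤ) := Int.emod_nonneg _ hN'
  have h2 : S.co x 0 % (S.N : ℤ) < S.N := Int.emod_lt_of_pos _ (by omega)
  refine ⟨⟨(S.co x 0 % (S.N : ℤ)).toNat, by omega⟩, ?_⟩
  rw [S.p_dvd_iff, S.co_sub, S.co_nat_zero, Fin.val_mk, Int.toNat_of_nonneg h1]
  exact Int.dvd_self_sub_emod

lemma digit_unique {a a' : Fin S.N} (h : S.p ∣ ((a : ℕ) : R) - ((a' : ℕ) : R)) : a = a' := by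
  rw [S.p_dvd_iff, S.co_sub, S.co_nat_zero, S.co_nat_zero] at h
  have h1 := a.isLt
  have h2 := a'.isLt
  have h3 : ((a : ℕ) : ℤ) - ((a' : ℕ) : ℤ) = 0 := by
    apply Int.eq_zero_of_abs_lt_dvd h
    rw [abs_lt]; constructor <;> omega
  apply Fin.ext
  omega

lemma exists_word (n : ℕ) (x : R) : ∃ w : Fin n → Fin S.N, S.p ^ n ∣ x - S.val w := by
  induction n with
  | zero => exact ⟨Fin.elim0, by simp⟩
  | succ n ih =>
    obtain ⟨w, y, hy⟩ := ih
    obtain ⟨a, z, hz⟩ := S.exists_digit y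
    refine ⟨Fin.snoc w a, z, ?_⟩
    rw [S.val_snoc]
    have h1 : x - (S.val w + ((a : ℕ) : R) * S.p ^ n) = S.p ^ n * (y - ((a : ℕ) : R)) := by
      rw [mul_sub, ← hy]; ring
    rw [h1, hz]
    ring

lemma word_unique [IsDomain R] {n : ℕ} {w w' : Fin n → Fin S.N} (h : S.p ^ n ∣ S.val w - S.val w') :
    w = w' := by
  induction n with
  | zero => exact Subsingleton.elim _ _
  | succ n ih =>
    rw [← Fin.snoc_init_self w, ← Fin.snoc_init_self w'] at h ⊢
    rw [S.val_snoc, S.val_snoc] at h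
    have h1 : S.p ^ n ∣ S.val (Fin.init w) - S.val (Fin.init w') := by
      have h2 := dvd_trans (pow_dvd_pow S.p (Nat.le_succ n)) h
      have h3 : S.val (Fin.init w) - S.val (Fin.init w') =
        (S.val (Fin.init w) + ((w (Fin.last n) : ℕ) : R) * S.p ^ n -
          (S.val (Fin.init w') + ((w' (Fin.last n) : ℕ) : R) * S.p ^ n)) -
        S.p ^ n * (((w (Fin.last n) : ℕ) : R) - ((w' (Fin.last n) : ℕ) : R)) := by ring
      rw [h3]
      exact dvd_sub h2 (dvd_mul_right _ _)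
    have h4 := ih h1
    rw [h4] at h ⊢
    have h5 : S.p ^ (n + 1) ∣ S.p ^ n * (((w (Fin.last n) : ℕ) : R) - ((w' (Fin.last n) : ℕ) : R)) := by
      have h6 : S.p ^ n * (((w (Fin.last n) : ℕ) : R) - ((w' (Fin.last n) : ℕ) : R)) =
        (S.val (Fin.init w') + ((w (Fin.last n) : ℕ) : R) * S.p ^ n -
          (S.val (Fin.init w') + ((w' (Fin.last n) : ℕ) : R) * S.p ^ n)) := by ring
      rw [h6]
      exact h
    rw [pow_succ] at h5
    have h7 := (mul_dvd_mul_iff_left (pow_ne_zero n S.p_ne_zero)).1 h5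
    rw [S.digit_unique h7]

/-- a word representing an element modulo `p ^ n` -/
noncomputable def wd (n : ℕ) (x : R) : Fin n → Fin S.N := (S.exists_word n x).choose

lemma wd_spec (n : ℕ) (x : R) : S.p ^ n ∣ x - S.val (S.wd n x) := (S.exists_word n x).choose_spec

lemma wd_eq {n : ℕ} {x y : R} (h : S.wd n x = S.wd n y) : S.p ^ n ∣ x - y := by
  have h1 := S.wd_spec n x
  have h2 := S.wd_spec n y
  rw [h] at h1
  have h3 := dvd_sub h1 h2
  have h4 : x - S.val (S.wd n y) - (y - S.val (S.wd n y)) = x - y := by ring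
  rwa [h4] at h3

end Setup

/-- pigeonhole modulo `q` in a lattice of small rank -/
lemma qtrick {M : Type} [AddCommGroup M] (L : Submodule ℤ M) [Module.Free ℤ L] [Module.Finite ℤ L]
    {r : ℕ} (hr : finrank ℤ L ≤ r) (T : Finset M) (hT : ∀ x ∈ T, x ∈ L) (q : ℕ) (hq : 0 < q)
    (hcard : q ^ r < T.card) : ∃ x ∈ T, ∃ y ∈ T, x ≠ y ∧ ∃ z ∈ L, x - y = (q : ℤ) • z := by
  classical
  have : NeZero q := ⟨hq.ne'⟩
  let e := Module.finBasis ℤ L
  let F : M → (Fin (finrank ℤ L) → ZMod q) := fun x =>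
    if h : x ∈ L then (fun i => ((e.repr ⟨x, h⟩ i : ℤ) : ZMod q)) else 0
  have hcard' : (Finset.univ : Finset (Fin (finrank ℤ L) → ZMod q)).card < T.card := by
    rw [Finset.card_univ, Fintype.card_fun, ZMod.card, Fintype.card_fin]
    exact lt_of_le_of_lt (Nat.pow_le_pow_right hq hr) hcard
  obtain ⟨x, hx, y, hy, hxy, hF⟩ := Finset.exists_ne_map_eq_of_card_lt_of_maps_to hcard'
    (f := F) (fun x _ => Finset.mem_coe.2 (Finset.mem_univ _))
  refine ⟨x, hx, y, hy, hxy, ?_⟩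
  have hxL := hT x hx
  have hyL := hT y hy
  simp only [F, hxL, hyL, dif_pos] at hF
  have hd : ∀ i, (q : ℤ) ∣ e.repr ⟨x, hxL⟩ i - e.repr ⟨y, hyL⟩ i := by
    intro i
    have h1 := congrFun hF i
    rw [eq_comm, ZMod.intCast_eq_intCast_iff_dvd_sub] at h1
    exact h1
  choose m hm using hd
  refine ⟨((∑ i, m i • e i : L) : M), (∑ i, m i • e i : L).2, ?_⟩
  have h2 : (⟨x, hxL⟩ : L) - ⟨y, hyL⟩ = (q : ℤ) • (∑ i, m i • e i) := by
    apply e.repr.injective
    ext i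
    rw [map_sub, map_smul, Finsupp.sub_apply, Finsupp.smul_apply, hm i, e.repr_sum_self]
    simp
  have h3 := congrArg (Subtype.val) h2
  simpa using h3

namespace Setup

lemma finrank_R : finrank ℤ R = S.k + 1 := by
  rw [Module.finrank_eq_card_basis S.b, Fintype.card_fin]

/-! ### The alternative -/

/-- the nonnegative box -/
noncomputable def PB (B : ℝ) : Finset R := open Classical in
  (Fintype.piFinset (fun i : Fin (S.k + 1) => Finset.Icc (0 : ℤ) ⌊B / S.nu ^ (i : ℕ)⌋)).image S.el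

lemma PB_sub {B : ℝ} {x y : R} (hx : x ∈ S.PB B) (hy : y ∈ S.PB B) : x - y ∈ S.Box B := by
  classical
  unfold PB at hx hy
  rw [Finset.mem_image] at hx hy
  obtain ⟨u, hu, rfl⟩ := hx
  obtain ⟨v, hv, rfl⟩ := hy
  rw [Fintype.mem_piFinset] at hu hv
  intro i
  rw [S.co_sub, S.co_el, S.co_el]
  have h1 := Finset.mem_Icc.1 (hu i)
  have h2 := Finset.mem_Icc.1 (hv i)
  have hpos : 0 < S.nu ^ (i : ℕ) := pow_pos S.nu_pos _
  have h3 : (u i : ℝ) ≤ B / S.nu ^ (i : ℕ) := (Int.le_floor.1 h1.2)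
  have h4 : (v i : ℝ) ≤ B / S.nu ^ (i : ℕ) := (Int.le_floor.1 h2.2)
  have h5 : (0 : ℝ) ≤ u i := by exact_mod_cast h1.1
  have h6 : (0 : ℝ) ≤ v i := by exact_mod_cast h2.1
  have h7 : |((u i - v i : ℤ) : ℝ)| ≤ B / S.nu ^ (i : ℕ) := by
    push_cast
    rw [abs_le]
    constructor <;> linarith
  calc |((u i - v i : ℤ) : ℝ)| * S.nu ^ (i : ℕ) ≤ B / S.nu ^ (i : ℕ) * S.nu ^ (i : ℕ) :=
        mul_le_mul_of_nonneg_right h7 hpos.le
    _ = B := by field_simp

lemma PB_card {B : ℝ} (hB : 0 ≤ B) : (B ^ (S.k + 1)) ^ 2 ≤ ((S.PB B).card : ℝ) ^ 2 * (S.N : ℝ) ^ S.k := by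
  classical
  have hinj : Function.Injective S.el := by
    intro u v h
    funext i
    rw [← S.co_el u i, h, S.co_el]
  have h1 : ((S.PB B).card : ℝ) = ∏ i : Fin (S.k + 1), ((⌊B / S.nu ^ (i : ℕ)⌋ + 1 : ℤ) : ℝ) := by
    unfold PB
    rw [Finset.card_image_of_injective _ hinj, Fintype.card_piFinset]
    push_cast
    apply Finset.prod_congr rfl
    intro i _
    rw [Int.card_Icc, sub_zero]
    have h2 : 0 ≤ ⌊B / S.nu ^ (i : ℕ)⌋ := Int.floor_nonneg.2 (div_nonneg hB (pow_nonneg S.nu_pos.le _))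
    have h3 : ((⌊B / S.nu ^ (i : ℕ)⌋ + 1).toNat : ℤ) = ⌊B / S.nu ^ (i : ℕ)⌋ + 1 :=
      Int.toNat_of_nonneg (by linarith)
    have h4 : (((⌊B / S.nu ^ (i : ℕ)⌋ + 1).toNat : ℤ) : ℝ) = ((⌊B / S.nu ^ (i : ℕ)⌋ + 1 : ℤ) : ℝ) := by
      rw [h3]
    push_cast at h4
    exact h4
  have h2 : ∏ i : Fin (S.k + 1), (B / S.nu ^ (i : ℕ)) ≤ ((S.PB B).card : ℝ) := by
    rw [h1]
    apply Finset.prod_le_prod
    · intro i _
      exact div_nonneg hB (pow_nonneg S.nu_pos.le _)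
    · intro i _
      push_cast
      exact (Int.lt_floor_add_one _).le
  have h3 : ∏ i : Fin (S.k + 1), (B / S.nu ^ (i : ℕ)) =
      B ^ (S.k + 1) / S.nu ^ (∑ i : Fin (S.k + 1), (i : ℕ)) := by
    rw [Finset.prod_div_distrib, Finset.prod_const, Finset.card_univ, Fintype.card_fin,
      Finset.prod_pow_eq_pow_sum]
  have h4 : (S.nu ^ (∑ i : Fin (S.k + 1), (i : ℕ))) ^ 2 = (S.N : ℝ) ^ S.k := by
    rw [← pow_mul, Fin.sum_univ_eq_sum_range (fun i => i) (S.k + 1), Finset.sum_range_id_mul_two,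
      Nat.add_sub_cancel, pow_mul, S.nu_pow]
  rw [h3] at h2
  have hpos : 0 < S.nu ^ (∑ i : Fin (S.k + 1), (i : ℕ)) := pow_pos S.nu_pos _
  rw [← h4, ← mul_pow]
  rw [div_le_iff₀ hpos] at h2
  apply pow_le_pow_left₀ (pow_nonneg hB _) h2

/-- the word `w` is generated by a pair in the box of size `B` -/
def Good {n : ℕ} (w : Fin n → Fin S.N) (B : ℝ) : Prop :=
  ∃ f g : R, f ∈ S.Box B ∧ g ∈ S.Box B ∧ IsCoprime g S.p ∧ S.p ^ n ∣ g * S.val w - f

/-- there is a short nonzero vector -/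
def Short {n : ℕ} (w : Fin n → Fin S.N) (B : ℝ) : Prop :=
  ∃ f g : R, f ∈ S.Box B ∧ g ∈ S.Box B ∧ (f ≠ 0 ∨ g ≠ 0) ∧ S.p ^ n ∣ g * S.val w - f

lemma alternative [IsDomain R] {n : ℕ} (w : Fin n → Fin S.N) (q : ℕ) (hq : 0 < q) (B : ℝ)
    (hB : 0 ≤ B) (hB2 : B ^ 2 = (q + 1) * S.nu ^ (n + S.k + 1)) :
    S.Good w (2 * (S.k + 1) * S.nu ^ S.k * B) ∨ S.Short w (2 * B / q) := by
  classical
  by_contra hcon
  push Not at hcon
  obtain ⟨hgood, hshort⟩ := hcon
  -- the pigeonhole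
  let F : R × R → (Fin n → Fin S.N) × (Fin 1 → Fin S.N) := fun v =>
    (S.wd n (v.1 - v.2 * S.val w), S.wd 1 v.2)
  have hcard : (Finset.univ : Finset ((Fin n → Fin S.N) × (Fin 1 → Fin S.N))).card * q ^ (S.k + 1) <
      (S.PB B ×ˢ S.PB B).card := by
    rw [Finset.card_univ, Fintype.card_prod, Fintype.card_fun, Fintype.card_fun, Fintype.card_fin,
      Fintype.card_fin, Fintype.card_fin, Finset.card_product]
    have h1 := S.PB_card hB
    have hN := S.two_le_N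
    have h2 : (B ^ (S.k + 1)) ^ 2 = ((q : ℝ) + 1) ^ (S.k + 1) * ((S.N : ℝ) ^ (n + 1)) * (S.N : ℝ) ^ S.k := by
      rw [← pow_mul, mul_comm (S.k + 1) 2, pow_mul, hB2, mul_pow, ← pow_mul,
        mul_comm (n + S.k + 1) (S.k + 1), pow_mul, S.nu_pow]
      ring
    rw [h2] at h1
    have hNk : (0 : ℝ) < (S.N : ℝ) ^ S.k := by positivity
    have h3 : ((q : ℝ) + 1) ^ (S.k + 1) * ((S.N : ℝ) ^ (n + 1)) ≤ ((S.PB B).card : ℝ) ^ 2 :=
      le_of_mul_le_mul_right h1 hNk
    have h4 : (q : ℝ) ^ (S.k + 1) < ((q : ℝ) + 1) ^ (S.k + 1) := by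
      apply pow_lt_pow_left₀ (by linarith) (by positivity) (by omega)
    have h5 : (q : ℝ) ^ (S.k + 1) * ((S.N : ℝ) ^ (n + 1)) < ((S.PB B).card : ℝ) ^ 2 :=
      lt_of_lt_of_le (mul_lt_mul_of_pos_right h4 (by positivity)) h3
    have h6 : ((S.N ^ n * S.N ^ 1 * q ^ (S.k + 1) : ℕ) : ℝ) < (((S.PB B).card * (S.PB B).card : ℕ) : ℝ) := by
      push_cast
      calc (S.N : ℝ) ^ n * (S.N : ℝ) ^ 1 * (q : ℝ) ^ (S.k + 1) =
          (q : ℝ) ^ (S.k + 1) * ((S.N : ℝ) ^ (n + 1)) := by ring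
        _ < _ := h5
        _ = _ := by ring
    exact_mod_cast h6
  obtain ⟨y, -, hy⟩ := Finset.exists_lt_card_fiber_of_mul_lt_card_of_maps_to
    (f := F) (fun x _ => Finset.mem_univ _) hcard
  set fib := (S.PB B ×ˢ S.PB B).filter (fun x => F x = y) with hfib
  have hne : fib.Nonempty := by
    rw [← Finset.card_pos]
    exact lt_of_le_of_lt (Nat.zero_le _) hy
  obtain ⟨x0, hx0⟩ := hne
  let T := fib.image (fun x => x - x0)
  have hTcard : q ^ (S.k + 1) < T.card := by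
    rw [Finset.card_image_of_injective _ (sub_left_injective)]
    exact hy
  have hT : ∀ v ∈ T, (v.1 ∈ S.Box B ∧ v.2 ∈ S.Box B) ∧ S.p ^ n ∣ v.1 - v.2 * S.val w ∧
      S.p ∣ v.2 := by
    intro v hv
    rw [Finset.mem_image] at hv
    obtain ⟨x, hx, rfl⟩ := hv
    rw [hfib, Finset.mem_filter, Finset.mem_product] at hx hx0
    have hFx : F x = F x0 := hx.2.trans hx0.2.symm
    refine ⟨⟨S.PB_sub hx.1.1 hx0.1.1, S.PB_sub hx.1.2 hx0.1.2⟩, ?_, ?_⟩
    · have h1 := S.wd_eq (congrArg Prod.fst hFx)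
      have h2 : (x - x0).1 - (x - x0).2 * S.val w = x.1 - x.2 * S.val w - (x0.1 - x0.2 * S.val w) := by
        rw [Prod.fst_sub, Prod.snd_sub]; ring
      rw [h2]
      exact h1
    · have h1 := S.wd_eq (congrArg Prod.snd hFx)
      rw [pow_one] at h1
      exact h1
  -- a nonzero vector
  have hex : ∃ w0 ∈ T, w0 ≠ 0 := by
    have h1 : 1 < T.card := by
      refine lt_of_le_of_lt ?_ hTcard
      exact Nat.one_le_pow _ _ hq
    obtain ⟨a, ha, hane⟩ := Finset.exists_mem_ne h1 0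
    exact ⟨a, ha, hane⟩
  obtain ⟨w0, hw0, hw0ne⟩ := hex
  by_cases hind : ∃ v ∈ T, v.1 * w0.2 - w0.1 * v.2 ≠ 0
  · obtain ⟨v, hv, hD⟩ := hind
    apply hgood
    obtain ⟨⟨a1, a2⟩, a3, a4⟩ := hT v hv
    obtain ⟨⟨b1, b2⟩, b3, b4⟩ := hT w0 hw0
    obtain ⟨z1, z2, h1, h2⟩ := round2 S a1 a2 b1 b2 hD (S.val w) 1
    refine ⟨_, _, h1, h2, ?_, ?_⟩
    · -- coprime to p
      obtain ⟨s1, hs1⟩ := a4
      obtain ⟨s2, hs2⟩ := b4
      refine ⟨1, z1 * s1 + z2 * s2, ?_⟩
      rw [hs1, hs2]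
      ring
    · have h3 : (1 - z1 * v.2 - z2 * w0.2) * S.val w - (S.val w - z1 * v.1 - z2 * w0.1) =
        z1 * (v.1 - v.2 * S.val w) + z2 * (w0.1 - w0.2 * S.val w) := by ring
      rw [h3]
      exact dvd_add (Dvd.dvd.mul_left a3 _) (Dvd.dvd.mul_left b3 _)
  · push Not at hind
    -- collinear case
    let L : Submodule ℤ (R × R) :=
      { carrier := {v | S.p ^ n ∣ v.1 - v.2 * S.val w ∧ v.1 * w0.2 - w0.1 * v.2 = 0}
        add_mem' := by
          rintro a b ⟨ha1, ha2⟩ ⟨hb1, hb2⟩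
          refine ⟨?_, ?_⟩
          · have h1 : (a + b).1 - (a + b).2 * S.val w =
              (a.1 - a.2 * S.val w) + (b.1 - b.2 * S.val w) := by
              rw [Prod.fst_add, Prod.snd_add]; ring
            rw [h1]; exact dvd_add ha1 hb1
          · rw [Prod.fst_add, Prod.snd_add]
            calc (a.1 + b.1) * w0.2 - w0.1 * (a.2 + b.2) =
              (a.1 * w0.2 - w0.1 * a.2) + (b.1 * w0.2 - w0.1 * b.2) := by ring
              _ = 0 := by rw [ha2, hb2, add_zero]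
        zero_mem' := by simp
        smul_mem' := by
          rintro m a ⟨ha1, ha2⟩
          refine ⟨?_, ?_⟩
          · rw [Prod.smul_fst, Prod.smul_snd, smul_mul_assoc, ← smul_sub, zsmul_eq_mul]
            exact Dvd.dvd.mul_left ha1 _
          · rw [Prod.smul_fst, Prod.smul_snd, smul_mul_assoc, mul_smul_comm, ← smul_sub, ha2,
              smul_zero] }
    have : Module.Free ℤ R := Module.Free.of_basis S.b
    have : Module.Finite ℤ R := Module.Finite.of_basis S.b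
    have hrank : finrank ℤ L ≤ S.k + 1 := by
      rw [← S.finrank_R]
      by_cases h2 : w0.2 = 0
      · have h1 : w0.1 ≠ 0 := by
          intro h1
          exact hw0ne (Prod.ext h1 h2)
        let φ : L →ₗ[ℤ] R := (LinearMap.fst ℤ R R).comp L.subtype
        apply LinearMap.finrank_le_finrank_of_injective (f := φ)
        rw [← LinearMap.ker_eq_bot, LinearMap.ker_eq_bot']
        rintro ⟨v, hv1, hv2⟩ hφ
        have h3 : v.1 = 0 := hφ
        rw [h3, zero_mul, zero_sub, neg_eq_zero] at hv2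
        have h4 : v.2 = 0 := (mul_eq_zero.1 hv2).resolve_left h1
        apply Subtype.ext
        exact Prod.ext h3 h4
      · let φ : L →ₗ[ℤ] R := (LinearMap.snd ℤ R R).comp L.subtype
        apply LinearMap.finrank_le_finrank_of_injective (f := φ)
        rw [← LinearMap.ker_eq_bot, LinearMap.ker_eq_bot']
        rintro ⟨v, hv1, hv2⟩ hφ
        have h3 : v.2 = 0 := hφ
        rw [h3, mul_zero, sub_zero] at hv2
        have h4 : v.1 = 0 := (mul_eq_zero.1 hv2).resolve_right h2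
        apply Subtype.ext
        exact Prod.ext h4 h3
    obtain ⟨x, hx, y', hy', hxy, z, hz, hxyz⟩ := qtrick L hrank T
      (fun v hv => ⟨(hT v hv).2.1, hind v hv⟩) q hq hTcard
    apply hshort
    have hq' : (0 : ℝ) < q := by exact_mod_cast hq
    have hqz : ((q : ℤ)) ≠ 0 := by exact_mod_cast hq.ne'
    have hz0 : z ≠ 0 := by
      rintro rfl
      rw [smul_zero, sub_eq_zero] at hxyz
      exact hxy hxyz
    have e1 : x.1 - y'.1 = ((q : ℤ) : R) * z.1 := by
      have := congrArg Prod.fst hxyz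
      simpa [zsmul_eq_mul] using this
    have e2 : x.2 - y'.2 = ((q : ℤ) : R) * z.2 := by
      have := congrArg Prod.snd hxyz
      simpa [zsmul_eq_mul] using this
    have hqe : |(((q : ℤ)) : ℝ)| * (2 * B / q) = B + B := by
      rw [Int.cast_natCast, abs_of_pos hq']
      field_simp
      ring
    refine ⟨z.1, z.2, ?_, ?_, ?_, ?_⟩
    · apply S.Box_of_intmul hqz
      rw [← e1, hqe]
      exact S.Box_sub (hT x hx).1.1 (hT y' hy').1.1
    · apply S.Box_of_intmul hqz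
      rw [← e2, hqe]
      exact S.Box_sub (hT x hx).1.2 (hT y' hy').1.2
    · by_contra hcon
      push Not at hcon
      exact hz0 (Prod.ext hcon.1 hcon.2)
    · have h1 := hz.1
      rw [← dvd_neg, neg_sub] at h1
      exact h1

end Setup

end Pool.Agent.R557.PA
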