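import Pool.Agent.R557.PACount

set_option autoImplicit false

/-! Counting the words with a short vector. -/

namespace Pool.Agent.R557.PA

open Module Finset

variable {R : Type} [CommRing R] (S : Setup R)

namespace Setup

/-- the quotient modulo `p ^ n` -/
abbrev Q (n : ℕ) : Type := R ⧸ Ideal.span {S.p ^ n}

lemma mk_eq_iff {n : ℕ} {x y : R} : (Ideal.Quotient.mk (Ideal.span {S.p ^ n}) x : S.Q n) =
    Ideal.Quotient.mk (Ideal.span {S.p ^ n}) y ↔ S.p ^ n ∣ x - y := by
  rw [Ideal.Quotient.eq, Ideal.mem_span_singleton]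

lemma finite_Q (n : ℕ) : Finite (S.Q n) := by
  apply Finite.of_surjective
    (fun w : Fin n → Fin S.N => (Ideal.Quotient.mk (Ideal.span {S.p ^ n}) (S.val w) : S.Q n))
  intro y
  obtain ⟨x, rfl⟩ := Ideal.Quotient.mk_surjective y
  refine ⟨S.wd n x, ?_⟩
  rw [S.mk_eq_iff, ← dvd_neg, neg_sub]
  exact S.wd_spec n x

lemma card_ker_eq (n : ℕ) (μ : S.Q n →+ S.Q n) :
    Nat.card μ.ker = Nat.card (S.Q n ⧸ μ.range) := by
  have := S.finite_Q n
  have h1 := AddSubgroup.card_eq_card_quotient_mul_card_addSubgroup μ.ker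
  have h2 := AddSubgroup.card_eq_card_quotient_mul_card_addSubgroup μ.range
  have h3 : Nat.card (S.Q n ⧸ μ.ker) = Nat.card μ.range :=
    Nat.card_congr (QuotientAddGroup.quotientKerEquivRange μ).toEquiv
  rw [h3] at h1
  rw [h1] at h2
  have h4 : 0 < Nat.card μ.range := Nat.card_pos
  have h5 : Nat.card μ.range * Nat.card μ.ker = Nat.card μ.range * Nat.card (S.Q n ⧸ μ.range) := by
    rw [h2, mul_comm]
  exact Nat.eq_of_mul_eq_mul_left h4 h5

open Classical in
lemma count_one [IsDomain R] (n : ℕ) {g : R} (hg0 : g ≠ 0) {B : ℝ} (hg : g ∈ S.Box B) :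
    ((Finset.univ.filter (fun w : Fin n → Fin S.N => ∃ f ∈ S.Box B, S.p ^ n ∣ g * S.val w - f)).card
      : ℝ) ≤ (12 * (S.k + 1) * S.nu ^ S.k * B) ^ (S.k + 1) := by
  have hB1 : 1 ≤ B := S.one_le_of_ne hg hg0
  have hB0 : 0 < B := by linarith
  have : Module.Free ℤ R := Module.Free.of_basis S.b
  have : Module.Finite ℤ R := Module.Finite.of_basis S.b
  have hfinQ := S.finite_Q n
  let H : Ideal R := Ideal.span {g, S.p ^ n}
  have hgH : g ∈ H := Ideal.subset_span (by simp)
  -- the least q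
  have hex : ∃ q : ℕ, 0 < q ∧ ∀ x ∈ H, x ≠ 0 → x ∉ S.Box (2 * B / q) := by
    obtain ⟨q, hq⟩ := exists_nat_gt (2 * B)
    have hq0 : (0 : ℝ) < q := by linarith
    refine ⟨q, by exact_mod_cast hq0, ?_⟩
    intro x _ hx0 hx
    have h1 := S.one_le_of_ne hx hx0
    rw [le_div_iff₀ hq0] at h1
    linarith
  set q := Nat.find hex with hqdef
  obtain ⟨hq0, hq⟩ := Nat.find_spec hex
  rw [← hqdef] at hq0 hq
  have hq3 : 3 ≤ q := by
    by_contra hcon
    have h1 : q = 1 ∨ q = 2 := by omega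
    apply hq g hgH hg0
    refine S.Box_mono ?_ hg
    rcases h1 with h1 | h1
    · rw [h1]; push_cast; linarith
    · rw [h1]; push_cast; linarith
  have hpred := Nat.find_min hex (m := q - 1) (by omega)
  push Not at hpred
  obtain ⟨x, hxH, hx0, hx⟩ := hpred (by omega)
  have hq1 : ((q - 1 : ℕ) : ℝ) = (q : ℝ) - 1 := by
    rw [Nat.cast_sub (by omega)]; simp
  rw [hq1] at hx
  have hq1pos : (0 : ℝ) < (q : ℝ) - 1 := by
    have : (3 : ℝ) ≤ q := by exact_mod_cast hq3
    linarith
  have hBx : 1 ≤ 2 * B / ((q : ℝ) - 1) := S.one_le_of_ne hx hx0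
  -- points of `H` in the box
  obtain ⟨TB, hTB, -⟩ := S.Box_finset B hB1
  let TH := TB.filter (fun f => f ∈ S.Box B ∧ f ∈ H)
  have hTH : TH.card ≤ q ^ (S.k + 1) := by
    by_contra hcon
    push Not at hcon
    have hrank : finrank ℤ (H.restrictScalars ℤ) ≤ S.k + 1 := by
      rw [← S.finrank_R]
      exact Submodule.finrank_le _
    obtain ⟨a, ha, b, hb, hab, z, hz, habz⟩ := qtrick (H.restrictScalars ℤ) hrank TH
      (fun v hv => (Finset.mem_filter.1 hv).2.2) q hq0 hcon
    have hz0 : z ≠ 0 := by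
      rintro rfl
      rw [smul_zero, sub_eq_zero] at habz
      exact hab habz
    apply hq z hz hz0
    have hqz : ((q : ℤ)) ≠ 0 := by exact_mod_cast hq0.ne'
    have hq' : (0 : ℝ) < q := by exact_mod_cast hq0
    apply S.Box_of_intmul hqz
    have hqe : |(((q : ℤ)) : ℝ)| * (2 * B / q) = B + B := by
      rw [Int.cast_natCast, abs_of_pos hq']
      field_simp
      ring
    rw [hqe, ← zsmul_eq_mul, ← habz]
    exact S.Box_sub (Finset.mem_filter.1 ha).2.1 (Finset.mem_filter.1 hb).2.1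
  -- multiplication by g
  let mk := Ideal.Quotient.mk (Ideal.span {S.p ^ n})
  let μ : S.Q n →+ S.Q n := AddMonoidHom.mulLeft (mk g)
  have hcok : (Nat.card (S.Q n ⧸ μ.range) : ℝ) ≤
      (3 * ((S.k + 1) * S.nu ^ S.k * (2 * B / ((q : ℝ) - 1)))) ^ (S.k + 1) := by
    have hB2 : 1 ≤ (S.k + 1) * S.nu ^ S.k * (2 * B / ((q : ℝ) - 1)) := by
      have h1 : (1 : ℝ) ≤ S.nu ^ S.k := one_le_pow₀ S.one_le_nu
      have h2 : (1 : ℝ) ≤ (S.k + 1 : ℝ) := by
        have : (0 : ℝ) ≤ S.k := Nat.cast_nonneg _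
        linarith
      have h3 := mul_le_mul h2 h1 zero_le_one (by linarith)
      have h4 := mul_le_mul h3 hBx zero_le_one (by nlinarith)
      simpa using h4
    obtain ⟨T2, hT2, hT2c⟩ := S.Box_finset _ hB2
    refine le_trans ?_ hT2c
    have hsurj : Function.Surjective (fun r : T2 =>
        (QuotientAddGroup.mk (mk (r : R)) : S.Q n ⧸ μ.range)) := by
      intro y
      obtain ⟨y1, rfl⟩ := QuotientAddGroup.mk_surjective y
      obtain ⟨y2, rfl⟩ := Ideal.Quotient.mk_surjective y1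
      obtain ⟨z, hz⟩ := round1 S hx hx0 y2
      refine ⟨⟨y2 - z * x, hT2 _ hz⟩, ?_⟩
      simp only
      rw [QuotientAddGroup.eq]
      obtain ⟨s, t, hst⟩ := Ideal.mem_span_pair.1 hxH
      refine ⟨mk (z * s), ?_⟩
      change mk g * mk (z * s) = -mk (y2 - z * x) + mk y2
      rw [← map_mul, ← map_neg, ← map_add, S.mk_eq_iff]
      refine ⟨- (z * t), ?_⟩
      rw [← hst]
      ring
    have h1 := Nat.card_le_card_of_surjective _ hsurj
    rw [Nat.card_eq_fintype_card (α := T2), Fintype.card_coe] at h1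
    exact_mod_cast h1
  -- the count
  set W := Finset.univ.filter (fun w : Fin n → Fin S.N => ∃ f ∈ S.Box B, S.p ^ n ∣ g * S.val w - f)
    with hW
  have := Fintype.ofFinite (S.Q n)
  let A : Finset (S.Q n) := W.image (fun w => mk (S.val w))
  have hA : A.card = W.card := by
    apply Finset.card_image_of_injective
    intro w w' h
    exact S.word_unique (S.mk_eq_iff.1 h)
  have hAf : ∀ b ∈ A.image μ, (A.filter (fun a => μ a = b)).card ≤ Nat.card μ.ker := by
    intro b _
    by_cases hne : (A.filter (fun a => μ a = b)).Nonempty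
    · obtain ⟨a0, ha0⟩ := hne
      rw [Finset.mem_filter] at ha0
      have h1 : (A.filter (fun a => μ a = b)).card ≤
          ((Finset.univ : Finset (S.Q n)).filter (fun a => a ∈ μ.ker)).card := by
        apply Finset.card_le_card_of_injOn (fun a => a - a0)
        · intro a ha
          rw [Finset.mem_coe, Finset.mem_filter] at ha
          rw [Finset.mem_coe, Finset.mem_filter]
          refine ⟨Finset.mem_univ _, ?_⟩
          rw [AddMonoidHom.mem_ker, map_sub, ha.2, ha0.2, sub_self]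
        · intro a _ a' _ h
          exact sub_left_injective h
      refine le_trans h1 ?_
      rw [Nat.card_eq_fintype_card, Fintype.card_subtype]
    · rw [Finset.not_nonempty_iff_eq_empty] at hne
      rw [hne]
      simp
  have h1 := Finset.card_le_mul_card_image A (Nat.card μ.ker) hAf
  have h2 : (A.image μ).card ≤ TH.card := by
    have h3 : A.image μ ⊆ TH.image (fun f => mk f) := by
      intro b hb
      rw [Finset.mem_image] at hb
      obtain ⟨a, ha, rfl⟩ := hb
      rw [Finset.mem_image] at ha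
      obtain ⟨w, hw, rfl⟩ := ha
      rw [hW, Finset.mem_filter] at hw
      obtain ⟨-, f, hf, hdvd⟩ := hw
      rw [Finset.mem_image]
      refine ⟨f, ?_, ?_⟩
      · rw [Finset.mem_filter]
        refine ⟨hTB f hf, hf, ?_⟩
        obtain ⟨t, ht⟩ := hdvd
        apply Ideal.mem_span_pair.2
        refine ⟨S.val w, -t, ?_⟩
        linear_combination ht
      · change mk f = mk g * mk (S.val w)
        rw [← map_mul, eq_comm, S.mk_eq_iff]
        exact hdvd
    exact le_trans (Finset.card_le_card h3) Finset.card_image_le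
  rw [hA, S.card_ker_eq] at h1
  have h3 : (W.card : ℝ) ≤ (Nat.card (S.Q n ⧸ μ.range) : ℝ) * (q : ℝ) ^ (S.k + 1) := by
    have h4 : W.card ≤ Nat.card (S.Q n ⧸ μ.range) * q ^ (S.k + 1) :=
      le_trans h1 (Nat.mul_le_mul_left _ (le_trans h2 hTH))
    exact_mod_cast h4
  refine le_trans h3 ?_
  refine le_trans (mul_le_mul_of_nonneg_right hcok (by positivity)) ?_
  rw [← mul_pow]
  have hnu : 0 < S.nu ^ S.k := pow_pos S.nu_pos _
  have hk : (0 : ℝ) ≤ S.k := Nat.cast_nonneg _
  apply pow_le_pow_left₀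
  · have := div_nonneg (by linarith : (0:ℝ) ≤ 2 * B) hq1pos.le
    positivity
  · have h5 : (q : ℝ) / ((q : ℝ) - 1) ≤ 2 := by
      rw [div_le_iff₀ hq1pos]
      have : (3 : ℝ) ≤ q := by exact_mod_cast hq3
      linarith
    calc 3 * ((S.k + 1) * S.nu ^ S.k * (2 * B / ((q : ℝ) - 1))) * q =
        (6 * (S.k + 1) * S.nu ^ S.k * B) * ((q : ℝ) / ((q : ℝ) - 1)) := by
          field_simp
          ring
      _ ≤ (6 * (S.k + 1) * S.nu ^ S.k * B) * 2 := by
          apply mul_le_mul_of_nonneg_left h5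
          positivity
      _ = _ := by ring

open Classical in
/-- the number of words with a short vector -/
lemma count_short [IsDomain R] (n : ℕ) (B : ℝ) :
    ((Finset.univ.filter (fun w : Fin n → Fin S.N => S.Short w B)).card : ℝ) ≤
      (36 * (S.k + 1)) ^ (S.k + 1) * (S.N : ℝ) ^ S.k * (B ^ 2) ^ (S.k + 1) := by
  have hN := S.two_le_N
  have hk : (0 : ℝ) ≤ S.k := Nat.cast_nonneg _
  by_cases hB : 1 ≤ B
  swap
  · have h0 : Finset.univ.filter (fun w : Fin n → Fin S.N => S.Short w B) = ∅ := by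
      rw [Finset.filter_eq_empty_iff]
      intro w _ hw
      obtain ⟨f, g, hf, hg, h0, -⟩ := hw
      rcases h0 with h0 | h0
      · exact hB (S.one_le_of_ne hf h0)
      · exact hB (S.one_le_of_ne hg h0)
    rw [h0]
    simp only [Finset.card_empty, Nat.cast_zero]
    positivity
  by_cases hBn : S.nu ^ n ≤ B
  · -- trivial bound
    have h1 : (Finset.univ.filter (fun w : Fin n → Fin S.N => S.Short w B)).card ≤ S.N ^ n := by
      refine le_trans (Finset.card_filter_le _ _) ?_
      rw [Finset.card_univ, Fintype.card_fun, Fintype.card_fin, Fintype.card_fin]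
    have h2 : ((Finset.univ.filter (fun w : Fin n → Fin S.N => S.Short w B)).card : ℝ) ≤
        (S.N : ℝ) ^ n := by exact_mod_cast h1
    refine le_trans h2 ?_
    have h3 : (S.N : ℝ) ^ n = (S.nu ^ n) ^ (S.k + 1) := by
      rw [← pow_mul, mul_comm, pow_mul, S.nu_pow]
    rw [h3]
    have h4 : (S.nu ^ n) ^ (S.k + 1) ≤ (B ^ 2) ^ (S.k + 1) := by
      apply pow_le_pow_left₀ (pow_nonneg S.nu_pos.le _)
      calc S.nu ^ n ≤ B := hBn
        _ ≤ B ^ 2 := by nlinarith
    have h5 : (1 : ℝ) ≤ (36 * (S.k + 1)) ^ (S.k + 1) * (S.N : ℝ) ^ S.k := by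
      have h6 : (1 : ℝ) ≤ (36 * (S.k + 1) : ℝ) ^ (S.k + 1) := one_le_pow₀ (by linarith)
      have h7 : (1 : ℝ) ≤ (S.N : ℝ) ^ S.k := one_le_pow₀ (by linarith)
      nlinarith
    calc (S.nu ^ n) ^ (S.k + 1) ≤ 1 * (B ^ 2) ^ (S.k + 1) := by rw [one_mul]; exact h4
      _ ≤ _ := mul_le_mul_of_nonneg_right h5 (by positivity)
  push Not at hBn
  obtain ⟨TB, hTB, hTBc⟩ := S.Box_finset B hB
  let G := TB.filter (fun g => g ∈ S.Box B ∧ g ≠ 0)
  have hsub : Finset.univ.filter (fun w : Fin n → Fin S.N => S.Short w B) ⊆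
      G.biUnion (fun g => Finset.univ.filter (fun w : Fin n → Fin S.N =>
        ∃ f ∈ S.Box B, S.p ^ n ∣ g * S.val w - f)) := by
    intro w hw
    rw [Finset.mem_filter] at hw
    obtain ⟨-, f, g, hf, hg, h0, hd⟩ := hw
    have hg0 : g ≠ 0 := by
      rintro rfl
      have hf0 : f ≠ 0 := by
        rcases h0 with h0 | h0
        · exact h0
        · exact absurd rfl h0
      rw [zero_mul, zero_sub, dvd_neg] at hd
      obtain ⟨y, hy⟩ := hd
      rw [hy] at hf hf0
      have h1 : y ≠ 0 := by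
        rintro rfl
        simp at hf0
      have h2 : y ∈ S.Box (B / S.nu ^ n) := by
        rw [← S.Box_p_pow_mul n]
        have h3 : S.nu ^ n * (B / S.nu ^ n) = B := by
          have := pow_pos S.nu_pos n
          field_simp
        rw [h3]
        exact hf
      have h4 := S.one_le_of_ne h2 h1
      rw [le_div_iff₀ (pow_pos S.nu_pos n)] at h4
      linarith
    rw [Finset.mem_biUnion]
    refine ⟨g, ?_, ?_⟩
    · rw [Finset.mem_filter]
      exact ⟨hTB g hg, hg, hg0⟩
    · rw [Finset.mem_filter]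
      exact ⟨Finset.mem_univ _, f, hf, hd⟩
  have h1 := le_trans (Finset.card_le_card hsub) Finset.card_biUnion_le
  have h2 : ((Finset.univ.filter (fun w : Fin n → Fin S.N => S.Short w B)).card : ℝ) ≤
      ∑ g ∈ G, ((Finset.univ.filter (fun w : Fin n → Fin S.N =>
        ∃ f ∈ S.Box B, S.p ^ n ∣ g * S.val w - f)).card : ℝ) := by
    exact_mod_cast h1
  refine le_trans h2 ?_
  have h3 : ∑ g ∈ G, ((Finset.univ.filter (fun w : Fin n → Fin S.N =>
        ∃ f ∈ S.Box B, S.p ^ n ∣ g * S.val w - f)).card : ℝ) ≤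
      ∑ g ∈ G, (12 * (S.k + 1) * S.nu ^ S.k * B) ^ (S.k + 1) := by
    apply Finset.sum_le_sum
    intro g hg
    rw [Finset.mem_filter] at hg
    exact S.count_one n hg.2.2 hg.2.1
  refine le_trans h3 ?_
  rw [Finset.sum_const, nsmul_eq_mul]
  have h4 : (G.card : ℝ) ≤ (3 * B) ^ (S.k + 1) := by
    refine le_trans ?_ hTBc
    exact_mod_cast Finset.card_filter_le _ _
  have hpos : 0 ≤ (12 * (S.k + 1) * S.nu ^ S.k * B) ^ (S.k + 1) := by
    have := pow_pos S.nu_pos S.k
    positivity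
  refine le_trans (mul_le_mul_of_nonneg_right h4 hpos) ?_
  apply le_of_eq
  have h5 : (S.N : ℝ) ^ S.k = (S.nu ^ S.k) ^ (S.k + 1) := by
    rw [← pow_mul, mul_comm, pow_mul, S.nu_pow]
  rw [h5, ← mul_pow, ← mul_pow, ← mul_pow]
  congr 1
  ring

end Setup

end Pool.Agent.R557.PA
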