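import Pool.Agent.R557.PJTrig

set_option autoImplicit false

/-! Certificates: the projections of a square in an arc of directions are covered. -/

namespace Pool.Agent.R557.PJ

open Finset Real
open Pool.Agent.R557.DS
open Pool.Agent.H166R3.AT (c_add c_mul c_sub c_div c_mod c_pow c_sum c_le c_lt c_eq c_and c_or
  c_not c_count ball ball_iff c_ball bex bex_iff c_bex)

lemma sum_two_mul (f : ℕ → ℝ) (n : ℕ) :
    ∑ i ∈ range (2 * n), f i = ∑ i ∈ range n, (f (2 * i) + f (2 * i + 1)) := by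
  induction n with
  | zero => simp
  | succ n ih =>
    rw [Nat.mul_succ, show 2 * n + 2 = (2 * n + 1) + 1 by ring, sum_range_succ, sum_range_succ, ih,
      sum_range_succ]
    ring

lemma sum_two_mul' (f : ℕ → ℕ) (n : ℕ) :
    ∑ i ∈ range (2 * n), f i = ∑ i ∈ range n, (f (2 * i) + f (2 * i + 1)) := by
  induction n with
  | zero => simp
  | succ n ih =>
    rw [Nat.mul_succ, show 2 * n + 2 = (2 * n + 1) + 1 by ring, sum_range_succ, sum_range_succ, ih,
      sum_range_succ]
    ring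

variable (g : List ℕ × ℕ × ℕ × ℕ → ℕ → Bool) (B : ℕ)

/-- the window radius -/
def RR : ℕ := 2 ^ (B + 5)

/-- the certificate -/
def cert (t a b i n : ℕ) : Bool :=
  ball (2 * RR B + 1) fun d => covg g t i n ((AN B t a b i + d - RR B) % 2 ^ t)

lemma cert_iff {t a b i n : ℕ} : cert g B t a b i n = true ↔ ∀ d < 2 * RR B + 1,
    covg g t i n ((AN B t a b i + d - RR B) % 2 ^ t) = true := by
  unfold cert; rw [ball_iff]

lemma AN_ge {t a b i : ℕ} (ha : a < 2 ^ t) (hb : b < 2 ^ t) (hi : i < 2 ^ t) :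
    RR B ≤ AN B t a b i := by
  have h1 := AN_spec B ha hb hi
  have h2 := (vx_bd B (i := i) ha hb).1
  rw [abs_le] at h1
  have h3 : (1 : ℝ) ≤ 2 ^ t := one_le_pow₀ (by norm_num)
  have h4 : (1 : ℝ) ≤ 2 ^ B := one_le_pow₀ (by norm_num)
  have h5 : ((RR B : ℕ) : ℝ) ≤ AN B t a b i := by
    unfold RR
    push_cast
    have e1 : (2 : ℝ) ^ (B + 5) = 32 * 2 ^ B := by rw [pow_add]; norm_num; ring
    have e2 : (2 : ℝ) ^ (B + t) = 2 ^ B * 2 ^ t := pow_add _ _ _
    rw [e1]
    rw [e2] at h2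
    have h6 : (2 : ℝ) ^ B ≤ 2 ^ B * 2 ^ t := by nlinarith
    linarith [h1.1]
  exact_mod_cast h5

lemma cert_mono {t a b i n : ℕ} (ha : a < 2 ^ (t + 1)) (hb : b < 2 ^ (t + 1)) (hi : i < 2 ^ (t + 1))
    (h : cert g B t (a / 2) (b / 2) (i / 2) n = true) : cert g B (t + 1) a b i n = true := by
  rw [cert_iff] at h ⊢
  intro d' hd'
  have ha2 : a / 2 < 2 ^ t := by rw [pow_succ] at ha; omega
  have hb2 : b / 2 < 2 ^ t := by rw [pow_succ] at hb; omega
  have hi2 : i / 2 < 2 ^ t := by rw [pow_succ] at hi; omega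
  have h1 := AN_spec B ha hb hi
  have h2 := AN_spec B ha2 hb2 hi2
  have h3 := vx_step B (t := t) (a' := a) (b' := b) (i' := i) rfl rfl rfl ha hb
  rw [abs_le] at h1 h2 h3
  have hPe : RR B = 32 * 2 ^ B := by unfold RR; rw [pow_add]; ring
  have hP1 : 1 ≤ 2 ^ B := Nat.one_le_two_pow
  have k1 : 2 * AN B t (a / 2) (b / 2) (i / 2) ≤ AN B (t + 1) a b i + 18 * 2 ^ B + 6 := by
    have : (2 : ℝ) * AN B t (a / 2) (b / 2) (i / 2) ≤ AN B (t + 1) a b i + 18 * 2 ^ B + 6 := by
      linarith [h1.1, h1.2, h2.1, h2.2, h3.1, h3.2]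
    exact_mod_cast this
  have k2 : AN B (t + 1) a b i ≤ 2 * AN B t (a / 2) (b / 2) (i / 2) + 18 * 2 ^ B + 6 := by
    have : (AN B (t + 1) a b i : ℝ) ≤ 2 * AN B t (a / 2) (b / 2) (i / 2) + 18 * 2 ^ B + 6 := by
      linarith [h1.1, h1.2, h2.1, h2.2, h3.1, h3.2]
    exact_mod_cast this
  have k3 := AN_ge B ha hb hi
  have k4 := AN_ge B ha2 hb2 hi2
  apply covg_mono g (Nat.le_succ t)
  have e1 : t.succ - t = 1 := by omega
  rw [e1, pow_one]
  have e2 : (AN B (t + 1) a b i + d' - RR B) % 2 ^ (t + 1) / 2 =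
      ((AN B (t + 1) a b i + d' - RR B) / 2) % 2 ^ t := by
    rw [pow_succ, mul_comm]
    exact Nat.mod_mul_right_div_self _ _ _
  rw [e2]
  have h4 := h ((AN B (t + 1) a b i + d' - RR B) / 2 + RR B - AN B t (a / 2) (b / 2) (i / 2)) (by
    omega)
  have e3 : AN B t (a / 2) (b / 2) (i / 2) + ((AN B (t + 1) a b i + d' - RR B) / 2 + RR B -
      AN B t (a / 2) (b / 2) (i / 2)) - RR B = (AN B (t + 1) a b i + d' - RR B) / 2 := by omega
  rwa [e3] at h4

/-- the number of tests passed -/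
def GG (t a b i : ℕ) : ℕ := ((range t).filter (fun n => cert g B t a b i n = true)).card

lemma GG_mono {t a b i : ℕ} (ha : a < 2 ^ (t + 1)) (hb : b < 2 ^ (t + 1)) (hi : i < 2 ^ (t + 1)) :
    GG g B t (a / 2) (b / 2) (i / 2) ≤ GG g B (t + 1) a b i := by
  unfold GG
  apply card_le_card
  intro n hn
  rw [mem_filter, mem_range] at hn ⊢
  exact ⟨by omega, cert_mono g B ha hb hi hn.2⟩

/-- the sum over all directions -/
def FF (t a b : ℕ) : ℕ := ∑ i ∈ range (2 ^ t), GG g B t a b i

lemma FF_mono {t a b : ℕ} (ha : a < 2 ^ (t + 1)) (hb : b < 2 ^ (t + 1)) :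
    2 * FF g B t (a / 2) (b / 2) ≤ FF g B (t + 1) a b := by
  unfold FF
  rw [pow_succ, mul_comm (2 ^ t) 2, sum_two_mul', Finset.mul_sum]
  apply Finset.sum_le_sum
  intro i hi
  rw [mem_range] at hi
  have h1 := GG_mono g B (t := t) (i := 2 * i) ha hb (by rw [pow_succ]; omega)
  have h2 := GG_mono g B (t := t) (i := 2 * i + 1) ha hb (by rw [pow_succ]; omega)
  rw [show 2 * i / 2 = i by omega] at h1
  rw [show (2 * i + 1) / 2 = i by omega] at h2
  omega

/-- the squares where the sum is large -/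
def AA (c t a b : ℕ) : Bool :=
  (decide (a < 2 ^ t) && decide (b < 2 ^ t)) && decide (2 ^ c * 2 ^ t ≤ FF g B t a b)

lemma AA_iff {c t a b : ℕ} : AA g B c t a b = true ↔
    (a < 2 ^ t ∧ b < 2 ^ t) ∧ 2 ^ c * 2 ^ t ≤ FF g B t a b := by
  unfold AA
  simp only [Bool.and_eq_true, decide_eq_true_eq]

lemma AA_mono {c t a b : ℕ} (ha : a < 2 ^ (t + 1)) (hb : b < 2 ^ (t + 1))
    (h : AA g B c t (a / 2) (b / 2) = true) : AA g B c (t + 1) a b = true := by
  rw [AA_iff] at h ⊢
  refine ⟨⟨ha, hb⟩, ?_⟩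
  have h1 := FF_mono g B ha hb
  calc 2 ^ c * 2 ^ (t + 1) = 2 * (2 ^ c * 2 ^ t) := by rw [pow_succ]; ring
    _ ≤ 2 * FF g B t (a / 2) (b / 2) := Nat.mul_le_mul_left _ h.2
    _ ≤ _ := h1

variable {g}

section comp
variable {α : Type*} [Primcodable α]

lemma c_cert (hg : Computable₂ g) {t a b i n : α → ℕ} (ht : Computable t) (ha : Computable a)
    (hb : Computable b) (hi : Computable i) (hn : Computable n) :
    Computable fun x => cert g B (t x) (a x) (b x) (i x) (n x) := by
  unfold cert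
  refine c_ball (n := fun _ => 2 * RR B + 1) (f := fun x d =>
    covg g (t x) (i x) (n x) ((AN B (t x) (a x) (b x) (i x) + d - RR B) % 2 ^ t x))
    (Computable.const _) ?_
  refine c_covg hg (ht.comp Computable.fst) (hi.comp Computable.fst) (hn.comp Computable.fst) ?_
  refine c_mod (c_sub (c_add ?_ Computable.snd) (Computable.const _))
    (c_pow (Computable.const 2) (ht.comp Computable.fst))
  exact (c_AN B ht ha hb hi).comp Computable.fst

lemma c_GG (hg : Computable₂ g) {t a b i : α → ℕ} (ht : Computable t) (ha : Computable a)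
    (hb : Computable b) (hi : Computable i) :
    Computable fun x => GG g B (t x) (a x) (b x) (i x) := by
  unfold GG
  refine c_count (n := t) (f := fun x n => cert g B (t x) (a x) (b x) (i x) n) ht ?_
  exact c_cert B hg (ht.comp Computable.fst) (ha.comp Computable.fst) (hb.comp Computable.fst)
    (hi.comp Computable.fst) Computable.snd

lemma c_FF (hg : Computable₂ g) {t a b : α → ℕ} (ht : Computable t) (ha : Computable a)
    (hb : Computable b) : Computable fun x => FF g B (t x) (a x) (b x) := by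
  unfold FF
  refine c_sum (n := fun x => 2 ^ t x) (f := fun x i => GG g B (t x) (a x) (b x) i)
    (c_pow (Computable.const 2) ht) ?_
  exact c_GG B hg (ht.comp Computable.fst) (ha.comp Computable.fst) (hb.comp Computable.fst)
    Computable.snd

lemma c_AA (hg : Computable₂ g) {c t a b : α → ℕ} (hc : Computable c) (ht : Computable t)
    (ha : Computable a) (hb : Computable b) : Computable fun x => AA g B (c x) (t x) (a x) (b x) := by
  unfold AA
  have h2 : Computable fun x => 2 ^ t x := c_pow (Computable.const 2) ht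
  exact c_and (c_and (c_lt ha h2) (c_lt hb h2))
    (c_le (c_mul (c_pow (Computable.const 2) hc) h2) (c_FF B hg ht ha hb))

end comp

end Pool.Agent.R557.PJ
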