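import Pool.Agent.R557.DSTan

set_option autoImplicit false

/-! Stage approximations of a relatively enumerable cover, and trimming. -/

namespace Pool.Agent.R557.PJ

open Finset
open Pool.Agent.R557.CK (c_ite' c_pair)
open Pool.Agent.H166R3.AT (c_add c_mul c_sub c_div c_mod c_pow c_sum c_le c_lt c_eq c_and c_or
  c_not c_count ball ball_iff c_ball bex bex_iff c_bex)

/-- an enumerable predicate has a computable stage function -/
lemma re_stage {α : Type*} [Primcodable α] {p : α → Prop} (hp : REPred p) :
    ∃ g : α → ℕ → Bool, Computable₂ g ∧ ∀ a, p a ↔ ∃ s, g a s = true := by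
  obtain ⟨c, hc⟩ := Nat.Partrec.Code.exists_code.1 hp
  refine ⟨fun a s => (Nat.Partrec.Code.evaln s c (Encodable.encode a)).isSome, ?_, fun a => ?_⟩
  · have h1 : Computable (fun q : α × ℕ => Nat.Partrec.Code.evaln q.2 c (Encodable.encode q.1)) :=
      (Nat.Partrec.Code.primrec_evaln.to_comp).comp
        (Computable.pair (Computable.pair Computable.snd (Computable.const c))
          (Computable.encode.comp Computable.fst))
    exact Primrec.option_isSome.to_comp.comp h1
  · have h2 : (c.eval (Encodable.encode a)).Dom ↔ p a := by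
      rw [hc]
      simp [Part.assert]
    rw [← h2]
    constructor
    · intro h
      obtain ⟨s, hs⟩ := Nat.Partrec.Code.evaln_complete.1 (Part.get_mem h)
      exact ⟨s, by show (Nat.Partrec.Code.evaln s c (Encodable.encode a)).isSome = true; rw [Option.mem_def.1 hs]; rfl⟩
    · rintro ⟨s, hs⟩
      obtain ⟨x, hx⟩ := Option.isSome_iff_exists.1 hs
      exact (Part.dom_iff_mem).2 ⟨x, Nat.Partrec.Code.evaln_sound (Option.mem_def.2 hx)⟩

lemma c_map {α β : Type*} [Primcodable α] [Primcodable β] {n : α → ℕ} {f : α → ℕ → β}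
    (hn : Computable n) (hf : Computable₂ f) :
    Computable fun a => (List.range (n a)).map (f a) := by
  have h := Computable.nat_rec (f := n) (g := fun _ => ([] : List β))
    (h := fun a q => q.2 ++ [f a q.1]) hn (Computable.const _) (by
      have h1 : Computable fun p : α × ℕ × List β => f p.1 p.2.1 :=
        hf.comp Computable.fst (Computable.fst.comp Computable.snd)
      have h2 : Computable fun p : α × ℕ × List β => [f p.1 p.2.1] :=
        Computable.list_cons.comp h1 (Computable.const [])
      exact Computable.list_append.comp (Computable.snd.comp Computable.snd) h2)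
  refine h.of_eq fun a => ?_
  induction n a with
  | zero => rfl
  | succ m ih => rw [List.range_succ, List.map_append, ← ih]; rfl

/-- the first `m` values of the oracle, computed from the value at level `t` -/
def preI (t i m : ℕ) : List ℕ := (List.range m).map fun l => i / 2 ^ (t - l)

lemma preI_eq {t t' i m : ℕ} (h : t ≤ t') (hm : m ≤ t + 1) :
    preI t (i / 2 ^ (t' - t)) m = preI t' i m := by
  unfold preI
  apply List.map_congr_left
  intro l hl
  rw [List.mem_range] at hl
  rw [Nat.div_div_eq_div_mul, ← pow_add]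
  congr 2
  omega

lemma c_preI {α : Type*} [Primcodable α] {t i m : α → ℕ} (ht : Computable t) (hi : Computable i)
    (hm : Computable m) : Computable fun a => preI (t a) (i a) (m a) := by
  unfold preI
  refine c_map (f := fun a l => i a / 2 ^ (t a - l)) hm ?_
  exact c_div (hi.comp Computable.fst) (c_pow (Computable.const 2)
    (c_sub (ht.comp Computable.fst) Computable.snd))

section
variable (g : List ℕ × ℕ × ℕ × ℕ → ℕ → Bool)

/-- the cell `j` of level `t` is covered at stage `t` -/
def cov (t i n j : ℕ) : Bool := bex t fun e =>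
  g (preI t i e.unpair.1, n, e.unpair.2.unpair.1, j / 2 ^ (t - e.unpair.2.unpair.1))
    e.unpair.2.unpair.2

lemma cov_iff {t i n j : ℕ} : cov g t i n j = true ↔ ∃ m k s, Nat.pair m (Nat.pair k s) < t ∧
    g (preI t i m, n, k, j / 2 ^ (t - k)) s = true := by
  unfold cov
  rw [bex_iff]
  constructor
  · rintro ⟨e, he, h⟩
    exact ⟨e.unpair.1, e.unpair.2.unpair.1, e.unpair.2.unpair.2, by simpa using he, h⟩
  · rintro ⟨m, k, s, he, h⟩
    exact ⟨_, he, by simpa using h⟩

lemma pair_lt {m k s t : ℕ} (h : Nat.pair m (Nat.pair k s) < t) : m < t ∧ k < t := by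
  have h1 := Nat.left_le_pair m (Nat.pair k s)
  have h2 := Nat.right_le_pair m (Nat.pair k s)
  have h3 := Nat.left_le_pair k s
  omega

lemma cov_mono {t t' i n j : ℕ} (h : t ≤ t')
    (hc : cov g t (i / 2 ^ (t' - t)) n (j / 2 ^ (t' - t)) = true) : cov g t' i n j = true := by
  rw [cov_iff] at hc ⊢
  obtain ⟨m, k, s, h1, h2⟩ := hc
  obtain ⟨h3, h4⟩ := pair_lt h1
  refine ⟨m, k, s, by omega, ?_⟩
  rw [preI_eq h (by omega), Nat.div_div_eq_div_mul, ← pow_add] at h2
  have e : t' - t + (t - k) = t' - k := by omega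
  rwa [e] at h2

/-- the set covered at stage `t` is small -/
def good (t i n : ℕ) : Bool :=
  decide (((range (2 ^ t)).filter (fun j => cov g t i n j = true)).card * 2 ^ n ≤ 2 ^ t)

/-- the trimmed cover -/
def covg (t i n j : ℕ) : Bool := bex (t + 1) fun t₁ =>
  good g t₁ (i / 2 ^ (t - t₁)) n && cov g t₁ (i / 2 ^ (t - t₁)) n (j / 2 ^ (t - t₁))

lemma covg_iff {t i n j : ℕ} : covg g t i n j = true ↔ ∃ t₁ ≤ t,
    good g t₁ (i / 2 ^ (t - t₁)) n = true ∧
      cov g t₁ (i / 2 ^ (t - t₁)) n (j / 2 ^ (t - t₁)) = true := by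
  unfold covg
  rw [bex_iff]
  simp only [Bool.and_eq_true, Nat.lt_succ_iff]

lemma covg_mono {t t' i n j : ℕ} (h : t ≤ t')
    (hc : covg g t (i / 2 ^ (t' - t)) n (j / 2 ^ (t' - t)) = true) : covg g t' i n j = true := by
  rw [covg_iff] at hc ⊢
  obtain ⟨t₁, h1, h2⟩ := hc
  refine ⟨t₁, by omega, ?_⟩
  rw [Nat.div_div_eq_div_mul, Nat.div_div_eq_div_mul, ← pow_add] at h2
  have e : t' - t + (t - t₁) = t' - t₁ := by omega
  rwa [e] at h2

lemma card_div (p : ℕ → Bool) (a b : ℕ) :
    ((range (2 ^ (a + b))).filter (fun j => p (j / 2 ^ b) = true)).card ≤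
      2 ^ b * ((range (2 ^ a)).filter (fun j => p j = true)).card := by
  have hmaps : ∀ j ∈ (range (2 ^ (a + b))).filter (fun j => p (j / 2 ^ b) = true),
      j / 2 ^ b ∈ (range (2 ^ a)).filter (fun j => p j = true) := by
    intro j hj
    rw [mem_filter, mem_range] at hj ⊢
    refine ⟨?_, hj.2⟩
    rw [Nat.div_lt_iff_lt_mul (by positivity), ← pow_add]
    exact hj.1
  rw [Finset.card_eq_sum_card_fiberwise hmaps]
  refine (Finset.sum_le_sum (g := fun _ => 2 ^ b) ?_).trans (by
    rw [Finset.sum_const, smul_eq_mul, mul_comm])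
  intro v _
  have h1 : ((range (2 ^ (a + b))).filter (fun j => p (j / 2 ^ b) = true)).filter
      (fun j => j / 2 ^ b = v) ⊆ Finset.Ico (v * 2 ^ b) (v * 2 ^ b + 2 ^ b) := by
    intro j hj
    rw [mem_filter] at hj
    rw [mem_Ico]
    have h2 := Nat.div_add_mod j (2 ^ b)
    have h3 := Nat.mod_lt j (show 0 < 2 ^ b by positivity)
    rw [hj.2, mul_comm] at h2
    omega
  refine (card_le_card h1).trans ?_
  simp

lemma card_covg (t i n : ℕ) :
    ((range (2 ^ t)).filter (fun j => covg g t i n j = true)).card * 2 ^ n ≤ 2 ^ t := by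
  classical
  by_cases hex : ∃ t₁ ≤ t, good g t₁ (i / 2 ^ (t - t₁)) n = true
  swap
  · have h1 : (range (2 ^ t)).filter (fun j => covg g t i n j = true) = ∅ := by
      rw [Finset.filter_eq_empty_iff]
      intro j _ hj
      rw [covg_iff] at hj
      obtain ⟨t₁, h1, h2, _⟩ := hj
      exact hex ⟨t₁, h1, h2⟩
    rw [h1]; simp
  · -- the last good stage
    obtain ⟨s, hs, hsg, hmax⟩ : ∃ s ≤ t, good g s (i / 2 ^ (t - s)) n = true ∧
        ∀ t₁ ≤ t, good g t₁ (i / 2 ^ (t - t₁)) n = true → t₁ ≤ s := by
      have hne : ((range (t + 1)).filter (fun s => good g s (i / 2 ^ (t - s)) n = true)).Nonempty := by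
        obtain ⟨t₁, h1, h2⟩ := hex
        exact ⟨t₁, by rw [mem_filter, mem_range]; exact ⟨by omega, h2⟩⟩
      obtain ⟨s, hs, hs'⟩ := Finset.exists_max_image _ id hne
      rw [mem_filter, mem_range] at hs
      refine ⟨s, by omega, hs.2, fun t₁ h1 h2 => hs' t₁ ?_⟩
      rw [mem_filter, mem_range]
      exact ⟨by omega, h2⟩
    have hsub : (range (2 ^ t)).filter (fun j => covg g t i n j = true) ⊆
        (range (2 ^ (s + (t - s)))).filter
          (fun j => cov g s (i / 2 ^ (t - s)) n (j / 2 ^ (t - s)) = true) := by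
      intro j hj
      rw [mem_filter] at hj
      rw [mem_filter, Nat.add_sub_cancel' hs]
      refine ⟨hj.1, ?_⟩
      obtain ⟨t₁, h1, h2, h3⟩ := (covg_iff g).1 hj.2
      have h4 := hmax t₁ h1 h2
      apply cov_mono g h4
      rw [Nat.div_div_eq_div_mul, Nat.div_div_eq_div_mul, ← pow_add]
      have e : t - s + (s - t₁) = t - t₁ := by omega
      rwa [e]
    have h1 := card_le_card hsub
    have h2 := card_div (fun j => cov g s (i / 2 ^ (t - s)) n j) s (t - s)
    have h3 : ((range (2 ^ s)).filter (fun j => cov g s (i / 2 ^ (t - s)) n j = true)).card * 2 ^ n ≤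
        2 ^ s := by
      unfold good at hsg
      exact of_decide_eq_true hsg
    calc _ ≤ (2 ^ (t - s) * ((range (2 ^ s)).filter
          (fun j => cov g s (i / 2 ^ (t - s)) n j = true)).card) * 2 ^ n :=
          Nat.mul_le_mul_right _ (h1.trans h2)
      _ = 2 ^ (t - s) * (((range (2 ^ s)).filter
          (fun j => cov g s (i / 2 ^ (t - s)) n j = true)).card * 2 ^ n) := by ring
      _ ≤ 2 ^ (t - s) * 2 ^ s := Nat.mul_le_mul_left _ h3
      _ = 2 ^ t := by rw [← pow_add]; congr 1; omega

variable {g}

lemma c_cov (hg : Computable₂ g) {α : Type*} [Primcodable α] {t i n j : α → ℕ} (ht : Computable t)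
    (hi : Computable i) (hn : Computable n) (hj : Computable j) :
    Computable fun a => cov g (t a) (i a) (n a) (j a) := by
  unfold cov
  have u1 : Computable fun p : α × ℕ => p.2.unpair.1 :=
    Computable.fst.comp (Computable.unpair.comp Computable.snd)
  have u2 : Computable fun p : α × ℕ => p.2.unpair.2 :=
    Computable.snd.comp (Computable.unpair.comp Computable.snd)
  have u21 : Computable fun p : α × ℕ => p.2.unpair.2.unpair.1 :=
    Computable.fst.comp (Computable.unpair.comp u2)
  have u22 : Computable fun p : α × ℕ => p.2.unpair.2.unpair.2 :=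
    Computable.snd.comp (Computable.unpair.comp u2)
  refine c_bex (n := t) (f := fun a e => g (preI (t a) (i a) e.unpair.1, n a, e.unpair.2.unpair.1,
    j a / 2 ^ (t a - e.unpair.2.unpair.1)) e.unpair.2.unpair.2) ht ?_
  refine hg.comp (Computable.pair (c_preI (ht.comp Computable.fst) (hi.comp Computable.fst) u1)
    (Computable.pair (hn.comp Computable.fst) (Computable.pair u21 ?_))) u22
  exact c_div (hj.comp Computable.fst) (c_pow (Computable.const 2)
    (c_sub (ht.comp Computable.fst) u21))

lemma c_good (hg : Computable₂ g) {α : Type*} [Primcodable α] {t i n : α → ℕ} (ht : Computable t)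
    (hi : Computable i) (hn : Computable n) :
    Computable fun a => good g (t a) (i a) (n a) := by
  unfold good
  refine c_le (c_mul (c_count (n := fun a => 2 ^ t a) (f := fun a j => cov g (t a) (i a) (n a) j)
    (c_pow (Computable.const 2) ht) ?_) (c_pow (Computable.const 2) hn))
    (c_pow (Computable.const 2) ht)
  exact c_cov hg (ht.comp Computable.fst) (hi.comp Computable.fst) (hn.comp Computable.fst)
    Computable.snd

lemma c_covg (hg : Computable₂ g) {α : Type*} [Primcodable α] {t i n j : α → ℕ} (ht : Computable t)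
    (hi : Computable i) (hn : Computable n) (hj : Computable j) :
    Computable fun a => covg g (t a) (i a) (n a) (j a) := by
  unfold covg
  have c1 : Computable fun p : α × ℕ => 2 ^ (t p.1 - p.2) :=
    c_pow (Computable.const 2) (c_sub (ht.comp Computable.fst) Computable.snd)
  refine c_bex (n := fun a => t a + 1) (f := fun a t₁ => good g t₁ (i a / 2 ^ (t a - t₁)) (n a) &&
    cov g t₁ (i a / 2 ^ (t a - t₁)) (n a) (j a / 2 ^ (t a - t₁)))
    (c_add ht (Computable.const 1)) ?_
  exact c_and (c_good hg Computable.snd (c_div (hi.comp Computable.fst) c1) (hn.comp Computable.fst))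
    (c_cov hg Computable.snd (c_div (hi.comp Computable.fst) c1) (hn.comp Computable.fst)
      (c_div (hj.comp Computable.fst) c1))

end

end Pool.Agent.R557.PJ
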