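import Mathlib
import Pool.Agent.TH676.CK.Defs

set_option autoImplicit false

/-! Definitions: complexity of points of the plane, effective dimension, relative randomness. -/

namespace Pool.Agent.R557.PJ

open MeasureTheory Filter
open Pool.Agent.TH676.CK (cx)

/-- A computable coding of the rational points of the plane by binary strings: it is injective, and
the code of `(n / (d + 1), n' / (d' + 1))` is computed from `(n, d, n', d')`. -/
def IsCoding (c : ℚ × ℚ → List Bool) : Prop :=
  Function.Injective c ∧ Computable fun a : (ℤ × ℕ) × (ℤ × ℕ) =>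
    c (((a.1.1 : ℚ) / ((a.1.2 : ℚ) + 1)), ((a.2.1 : ℚ) / ((a.2.2 : ℚ) + 1)))

/-- The complexity `K_r(x, y)` of the point `(x, y)` at precision `r` with respect to the machine `U`
and the coding `c`: the least complexity of a rational point at Euclidean distance at most
`2 ^ (-r)`. -/
noncomputable def Kpt (U : List Bool →. List Bool) (c : ℚ × ℚ → List Bool) (r : ℕ) (x y : ℝ) : ℕ :=
  sInf {n : ℕ | ∃ q : ℚ × ℚ, √(((q.1 : ℝ) - x) ^ 2 + ((q.2 : ℝ) - y) ^ 2) ≤ (1 / 2) ^ r ∧
    cx U (c q) = n}

/-- The effective dimension `liminf K_r(x, y) / r` of the point `(x, y)`. -/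
noncomputable def effdim (U : List Bool →. List Bool) (c : ℚ × ℚ → List Bool) (x y : ℝ) : EReal :=
  liminf (fun r : ℕ => (((Kpt U c r x y : ℝ) / (r : ℝ) : ℝ) : EReal)) atTop

/-- The list of the first `m` values of the oracle `z`. -/
def pre {β : Type*} (z : ℕ → β) (m : ℕ) : List β := (List.range m).map z

/-- The `n`-th set enumerated by `W` with the oracle `z`: the union of the dyadic intervals
`[j / 2 ^ k, (j + 1) / 2 ^ k)` of `[0, 1)` such that `(pre z m, n, k, j) ∈ W` for some `m`. -/
def opn {β : Type*} (W : Set (List β × ℕ × ℕ × ℕ)) (z : ℕ → β) (n : ℕ) : Set ℝ :=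
  {u : ℝ | ∃ m k j : ℕ, (pre z m, n, k, j) ∈ W ∧ j < 2 ^ k ∧ (j : ℝ) / 2 ^ k ≤ u ∧
    u < ((j : ℝ) + 1) / 2 ^ k}

/-- The number `u` of `[0, 1)` is Martin-Löf random relative to the oracle `z`: no sequence of open
sets, enumerated uniformly with the oracle `z`, whose `n`-th member has measure at most `2 ^ (-n)`,
contains `u` in all its members. -/
def MLRandom {β : Type} [Primcodable β] (z : ℕ → β) (u : ℝ) : Prop :=
  ∀ W : Set (List β × ℕ × ℕ × ℕ), REPred (fun q => q ∈ W) →
    (∀ n, volume (opn W z n) ≤ ENNReal.ofReal ((1 / 2) ^ n)) → ∃ n, u ∉ opn W z n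

/-- The oracle given by a number `θ` of `[0, 1)`: the integer parts of `2 ^ n * θ`. -/
noncomputable def orc (θ : ℝ) : ℕ → ℕ := fun n => ⌊2 ^ n * θ⌋₊

/-- The oracle given by a point of the plane: the integer parts of `2 ^ n * x` and `2 ^ n * y`. -/
noncomputable def orc₂ (x y : ℝ) : ℕ → ℤ × ℤ := fun n => (⌊2 ^ n * x⌋, ⌊2 ^ n * y⌋)

end Pool.Agent.R557.PJ
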