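import Pool.Agent.R557.PJRand

set_option autoImplicit false

/-! The projection of a point of dimension larger than one in a random direction is random. -/

namespace Pool.Agent.R557.PJ

open Finset Real MeasureTheory Filter
open Pool.Agent.R557.DS
open Pool.Agent.TH676.CK (OptPFree)
open Pool.Agent.H166R3.AT (c_add c_mul c_sub c_div c_mod c_pow c_sum c_le c_lt c_eq c_and c_or
  c_not c_count ball ball_iff c_ball bex bex_iff c_bex)

lemma preI_floor {θ : ℝ} {k m : ℕ} (hm : m ≤ k + 1) : preI k ⌊2 ^ k * θ⌋₊ m = pre (orc θ) m := by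
  unfold preI pre orc
  apply List.map_congr_left
  intro l hl
  rw [List.mem_range] at hl
  exact (floor_scale θ (show l ≤ k by omega)).symm

/-- small covers are never trimmed -/
lemma all_good {g : List ℕ × ℕ × ℕ × ℕ → ℕ → Bool} {W : Set (List ℕ × ℕ × ℕ × ℕ)}
    (hW : ∀ q, q ∈ W ↔ ∃ s, g q s = true) {θ : ℝ} {n : ℕ}
    (hv : volume (opn W (orc θ) n) ≤ ENNReal.ofReal ((1 / 2) ^ n)) (k : ℕ) :
    good g k ⌊2 ^ k * θ⌋₊ n = true := by
  classical
  set I := (range (2 ^ k)).filter (fun j => cov g k ⌊2 ^ k * θ⌋₊ n j = true) with hI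
  have hsub : (⋃ j ∈ I, Set.Ico ((j : ℝ) / 2 ^ k) (((j : ℝ) + 1) / 2 ^ k)) ⊆ opn W (orc θ) n := by
    intro u hu
    simp only [Set.mem_iUnion] at hu
    obtain ⟨j, hj, hu⟩ := hu
    rw [hI, mem_filter, mem_range, cov_iff] at hj
    obtain ⟨hj, m, κ, s, h1, h2⟩ := hj
    obtain ⟨h3, h4⟩ := pair_lt h1
    rw [preI_floor (by omega)] at h2
    have hu0 : 0 ≤ u := le_trans (by positivity) hu.1
    have h5 : ⌊2 ^ k * u⌋₊ = j := (cell_iff hu0).1 ⟨hu.1, hu.2⟩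
    have h6 := floor_scale u h4.le
    rw [h5] at h6
    obtain ⟨h7, h8⟩ := (cell_iff (k := κ) hu0).2 h6
    refine ⟨m, κ, j / 2 ^ (k - κ), (hW _).2 ⟨s, h2⟩, ?_, h7, h8⟩
    rw [Nat.div_lt_iff_lt_mul (by positivity), ← pow_add]
    have e : κ + (k - κ) = k := by omega
    rwa [e]
  have h1 := (measure_mono hsub).trans hv
  rw [cells_volume, ENNReal.ofReal_le_ofReal_iff (by positivity)] at h1
  unfold good
  rw [decide_eq_true_eq]
  rw [one_div_pow, mul_one_div, div_le_div_iff₀ (by positivity) (by positivity), one_mul] at h1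
  have h2 : I.card * 2 ^ n ≤ 2 ^ k := by exact_mod_cast h1
  exact h2

/-- the neighbourhood of `v` is covered at the test `n` -/
def Nb (g : List ℕ × ℕ × ℕ × ℕ → ℕ → Bool) (θ v : ℝ) (n : ℕ) : Prop :=
  ∃ ρ : ℝ, 0 < ρ ∧ ∃ s0 : ℕ, ∀ u : ℝ, |u - v| < ρ → ∃ m κ s, Nat.pair m (Nat.pair κ s) < s0 ∧
    g (pre (orc θ) m, n, κ, ⌊2 ^ κ * Int.fract u⌋₊) s = true

lemma floor_lt {θ : ℝ} (hθ : 0 ≤ θ ∧ θ < 1) (k : ℕ) : ⌊2 ^ k * θ⌋₊ < 2 ^ k := by
  have h3 : (⌊2 ^ k * θ⌋₊ : ℝ) ≤ 2 ^ k * θ := Nat.floor_le (by have := hθ.1; positivity)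
  have h4 : (0 : ℝ) < 2 ^ k := by positivity
  have h5 : (⌊2 ^ k * θ⌋₊ : ℝ) < 2 ^ k := by nlinarith [hθ.2]
  exact_mod_cast h5

/-- the value computed at the point -/
lemma vx_near {B : ℕ} {x y θ : ℝ} (hx : |x| < 2 ^ B) (hy : |y| < 2 ^ B) (hθ : 0 ≤ θ ∧ θ < 1)
    (k : ℕ) : |vx B k (ax B x k) (ax B y k) ⌊2 ^ k * θ⌋₊ -
      2 ^ k * (cos (2 * π * θ) * x + sin (2 * π * θ) * y + 2 ^ (B + 10))| ≤ 18 * 2 ^ B := by
  have hp : (0 : ℝ) < 2 ^ k := by positivity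
  have hpB : (0 : ℝ) < 2 ^ B := by positivity
  set i := ⌊2 ^ k * θ⌋₊ with hi
  have h0 := hθ.1
  have i1 : (i : ℝ) ≤ 2 ^ k * θ := Nat.floor_le (by positivity)
  have i2 : 2 ^ k * θ < (i : ℝ) + 1 := Nat.lt_floor_add_one _
  have hang : |2 * π * ((i : ℝ) / 2 ^ k) - 2 * π * θ| ≤ 7 / 2 ^ k := by
    have e : 2 * π * ((i : ℝ) / 2 ^ k) - 2 * π * θ = (2 * π * (i - 2 ^ k * θ)) / 2 ^ k := by
      field_simp
    rw [e, abs_div, abs_of_pos hp]
    apply div_le_div_of_nonneg_right _ hp.le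
    rw [abs_mul, abs_of_pos (show (0 : ℝ) < 2 * π by have := pi_pos; positivity)]
    have h1 : |(i : ℝ) - 2 ^ k * θ| ≤ 1 := by rw [abs_le]; constructor <;> linarith
    have := pi_lt_d2
    have hpi := pi_pos
    nlinarith [abs_nonneg ((i : ℝ) - 2 ^ k * θ)]
  have hcos := (abs_cos_sub_cos_le (2 * π * ((i : ℝ) / 2 ^ k)) (2 * π * θ)).trans hang
  have hsin := (abs_sin_sub_sin_le (2 * π * ((i : ℝ) / 2 ^ k)) (2 * π * θ)).trans hang
  have hX : ∀ {x : ℝ}, |x| < 2 ^ B →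
      |(2 : ℝ) ^ (B + 1) * ax B x k - 2 ^ (B + k) - 2 ^ k * x| ≤ 2 * 2 ^ B := by
    intro x hx
    have h1 := ax_near hx k
    have e : (2 : ℝ) ^ (B + 1) * ax B x k - 2 ^ (B + k) - 2 ^ k * x =
        2 ^ k * (2 ^ (B + 1) * (ax B x k : ℝ) / 2 ^ k - 2 ^ B - x) := by
      rw [pow_add 2 B k]; field_simp
    rw [e, abs_mul, abs_of_pos hp]
    calc 2 ^ k * |2 ^ (B + 1) * (ax B x k : ℝ) / 2 ^ k - 2 ^ B - x| ≤
          2 ^ k * (2 ^ (B + 1) / 2 ^ k) := mul_le_mul_of_nonneg_left h1 hp.le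
      _ = 2 * 2 ^ B := by rw [mul_div_cancel₀ _ hp.ne', pow_succ]; ring
  have e : vx B k (ax B x k) (ax B y k) i -
      2 ^ k * (cos (2 * π * θ) * x + sin (2 * π * θ) * y + 2 ^ (B + 10)) =
      (cos (2 * π * ((i : ℝ) / 2 ^ k)) - cos (2 * π * θ)) * (2 ^ (B + 1) * ax B x k - 2 ^ (B + k)) +
      cos (2 * π * θ) * (2 ^ (B + 1) * ax B x k - 2 ^ (B + k) - 2 ^ k * x) +
      ((sin (2 * π * ((i : ℝ) / 2 ^ k)) - sin (2 * π * θ)) * (2 ^ (B + 1) * ax B y k - 2 ^ (B + k)) +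
      sin (2 * π * θ) * (2 ^ (B + 1) * ax B y k - 2 ^ (B + k) - 2 ^ k * y)) := by
    unfold vx
    have h5 : (2 : ℝ) ^ (k + B + 10) = 2 ^ k * 2 ^ (B + 10) := by
      rw [← pow_add]; congr 1
    rw [h5]
    ring
  rw [e]
  have hb : (2 : ℝ) ^ (B + k) = 2 ^ B * 2 ^ k := pow_add _ _ _
  have k1 : |(cos (2 * π * ((i : ℝ) / 2 ^ k)) - cos (2 * π * θ)) *
      ((2 : ℝ) ^ (B + 1) * ax B x k - 2 ^ (B + k))| ≤ 7 * 2 ^ B := by
    rw [abs_mul]
    refine (mul_le_mul hcos (coord_le B (ax_lt hx k)) (abs_nonneg _) (by positivity)).trans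
      (le_of_eq ?_)
    rw [hb]; field_simp
  have k2 : |(sin (2 * π * ((i : ℝ) / 2 ^ k)) - sin (2 * π * θ)) *
      ((2 : ℝ) ^ (B + 1) * ax B y k - 2 ^ (B + k))| ≤ 7 * 2 ^ B := by
    rw [abs_mul]
    refine (mul_le_mul hsin (coord_le B (ax_lt hy k)) (abs_nonneg _) (by positivity)).trans
      (le_of_eq ?_)
    rw [hb]; field_simp
  have k3 : |cos (2 * π * θ) * ((2 : ℝ) ^ (B + 1) * ax B x k - 2 ^ (B + k) - 2 ^ k * x)| ≤
      2 * 2 ^ B := by
    rw [abs_mul]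
    exact (mul_le_mul (abs_cos_le_one _) (hX hx) (abs_nonneg _) (by norm_num)).trans
      (le_of_eq (one_mul _))
  have k4 : |sin (2 * π * θ) * ((2 : ℝ) ^ (B + 1) * ax B y k - 2 ^ (B + k) - 2 ^ k * y)| ≤
      2 * 2 ^ B := by
    rw [abs_mul]
    exact (mul_le_mul (abs_sin_le_one _) (hX hy) (abs_nonneg _) (by norm_num)).trans
      (le_of_eq (one_mul _))
  rw [abs_le] at k1 k2 k3 k4 ⊢
  constructor
  · linarith [k1.1, k2.1, k3.1, k4.1]
  · linarith [k1.2, k2.2, k3.2, k4.2]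

lemma fract_cell (N k κ B : ℕ) (h : κ ≤ k) :
    ⌊2 ^ κ * Int.fract ((N : ℝ) / 2 ^ k - 2 ^ (B + 10))⌋₊ = (N % 2 ^ k) / 2 ^ (k - κ) := by
  have h1 : Int.fract ((N : ℝ) / 2 ^ k - 2 ^ (B + 10)) = ((N % 2 ^ k : ℕ) : ℝ) / 2 ^ k := by
    have h2 : ((2 : ℝ) ^ (B + 10)) = ((2 ^ (B + 10) : ℕ) : ℝ) := by push_cast; rfl
    rw [h2, Int.fract_sub_natCast]
    have h3 := Int.fract_div_natCast_eq_div_natCast_mod (k := ℝ) (m := N) (n := 2 ^ k)
    have e : ((2 ^ k : ℕ) : ℝ) = (2 : ℝ) ^ k := by push_cast; rfl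
    rw [e] at h3
    exact h3
  rw [h1, floor_scale _ h]
  congr 1
  rw [mul_div_cancel₀ _ (by positivity), Nat.floor_natCast]

/-- covered neighbourhoods give certificates -/
lemma cert_eventually {g : List ℕ × ℕ × ℕ × ℕ → ℕ → Bool} {B : ℕ} {x y θ : ℝ}
    (hx : |x| < 2 ^ B) (hy : |y| < 2 ^ B) (hθ : 0 ≤ θ ∧ θ < 1) {n : ℕ}
    (hgood : ∀ k, good g k ⌊2 ^ k * θ⌋₊ n = true)
    (hN : Nb g θ (cos (2 * π * θ) * x + sin (2 * π * θ) * y) n) :
    ∃ k₀, ∀ k ≥ k₀, cert g B k (ax B x k) (ax B y k) ⌊2 ^ k * θ⌋₊ n = true := by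
  obtain ⟨ρ, hρ, s0, hs⟩ := hN
  obtain ⟨k₁, hk₁⟩ := pow_unbounded_of_one_lt (2 ^ (B + 6) / ρ) (show (1 : ℝ) < 2 by norm_num)
  refine ⟨max s0 k₁, fun k hk => ?_⟩
  have hks : s0 ≤ k := le_trans (le_max_left _ _) hk
  have hkk : k₁ ≤ k := le_trans (le_max_right _ _) hk
  have hp : (0 : ℝ) < 2 ^ k := by positivity
  have hpow : 2 ^ (B + 6) / ρ < (2 : ℝ) ^ k := lt_of_lt_of_le hk₁ (pow_le_pow_right₀ (by norm_num) hkk)
  have ha := ax_lt hx k
  have hb := ax_lt hy k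
  have hi := floor_lt hθ k
  rw [cert_iff]
  intro d hd
  have hge := AN_ge B ha hb hi
  set a := ax B x k with hae
  set b := ax B y k with hbe
  set i := ⌊2 ^ k * θ⌋₊ with hie
  set N := AN B k a b i + d - RR B with hNe
  set v := cos (2 * π * θ) * x + sin (2 * π * θ) * y with hve
  have h1 := AN_spec B ha hb hi
  have h2 : |vx B k a b i - 2 ^ k * (v + 2 ^ (B + 10))| ≤ 18 * 2 ^ B := vx_near hx hy hθ k
  have h3 : |(N : ℝ) - AN B k a b i| ≤ 32 * 2 ^ B := by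
    have e1 : (N : ℝ) = AN B k a b i + d - RR B := by
      rw [hNe, Nat.cast_sub (by omega)]; push_cast; ring
    have e2 : (RR B : ℝ) = 32 * 2 ^ B := by
      unfold RR; push_cast; rw [pow_add]; norm_num; ring
    have e3 : (d : ℝ) ≤ 2 * RR B := by
      have : d ≤ 2 * RR B := by omega
      exact_mod_cast this
    rw [e1, e2]
    rw [e2] at e3
    have e4 : (0 : ℝ) ≤ d := Nat.cast_nonneg _
    rw [abs_le]
    constructor <;> linarith
  have hu : |((N : ℝ) / 2 ^ k - 2 ^ (B + 10)) - v| < ρ := by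
    have e : ((N : ℝ) / 2 ^ k - 2 ^ (B + 10)) - v = (N - 2 ^ k * (v + 2 ^ (B + 10))) / 2 ^ k := by
      field_simp; ring
    rw [e, abs_div, abs_of_pos hp, div_lt_iff₀ hp]
    have h4 : |(N : ℝ) - 2 ^ k * (v + 2 ^ (B + 10))| ≤ 2 ^ (B + 6) := by
      have e5 : (2 : ℝ) ^ (B + 6) = 64 * 2 ^ B := by rw [pow_add]; norm_num; ring
      have e6 : (1 : ℝ) ≤ 2 ^ B := one_le_pow₀ (by norm_num)
      rw [e5]
      rw [abs_le] at h1 h2 h3 ⊢
      constructor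
      · linarith [h1.1, h2.1, h3.1]
      · linarith [h1.2, h2.2, h3.2]
    rw [div_lt_iff₀ hρ] at hpow
    linarith
  obtain ⟨m, κ, s, h5, h6⟩ := hs _ hu
  have h7 : Nat.pair m (Nat.pair κ s) < k := lt_of_lt_of_le h5 hks
  obtain ⟨h8, h9⟩ := pair_lt h7
  rw [fract_cell N k κ B h9.le] at h6
  rw [covg_iff]
  refine ⟨k, le_rfl, ?_, ?_⟩
  · rw [Nat.sub_self, pow_zero, Nat.div_one]
    exact hgood k
  · rw [Nat.sub_self, pow_zero, Nat.div_one, Nat.div_one, cov_iff]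
    refine ⟨m, κ, s, h7, ?_⟩
    rw [hie, preI_floor (by omega)]
    exact h6

/-- the main contradiction -/
lemma no_neighbourhoods {U : List Bool →. List Bool} (hU : OptPFree U) {c : ℚ × ℚ → List Bool}
    (hc : IsCoding c) {x y : ℝ} (hdim : 1 < effdim U c x y) {θ : ℝ} (hθ : 0 ≤ θ ∧ θ < 1)
    (hr : MLRandom (orc₂ x y) θ) {g : List ℕ × ℕ × ℕ × ℕ → ℕ → Bool} (hg : Computable₂ g)
    {W : Set (List ℕ × ℕ × ℕ × ℕ)} (hW : ∀ q, q ∈ W ↔ ∃ s, g q s = true)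
    (hv : ∀ n, volume (opn W (orc θ) n) ≤ ENNReal.ofReal ((1 / 2) ^ n))
    (hN : ∀ n, Nb g θ (cos (2 * π * θ) * x + sin (2 * π * θ) * y) n) : False := by
  classical
  obtain ⟨B, hB⟩ := pow_unbounded_of_one_lt (max |x| |y|) (show (1 : ℝ) < 2 by norm_num)
  have hx : |x| < 2 ^ B := lt_of_le_of_lt (le_max_left _ _) hB
  have hy : |y| < 2 ^ B := lt_of_le_of_lt (le_max_right _ _) hB
  obtain ⟨c₀, hc₀⟩ := sums_bounded hU hc hg hx hy hdim
  obtain ⟨N, hNb⟩ := tests_bounded hg hx hy hθ hr hc₀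
  have hce : ∀ n, ∃ k₀, ∀ k ≥ k₀, cert g B k (ax B x k) (ax B y k) ⌊2 ^ k * θ⌋₊ n = true :=
    fun n => cert_eventually hx hy hθ (all_good hW (hv n)) (hN n)
  choose κ hκ using hce
  set k := (∑ n ∈ range N, κ n) + N + B + 1 with hk
  have h1 := hNb k (by omega)
  apply absurd h1
  rw [not_lt]
  unfold GG
  have h2 : range N ⊆ (range k).filter
      (fun n => cert g B k (ax B x k) (ax B y k) ⌊2 ^ k * θ⌋₊ n = true) := by
    intro n hn
    rw [mem_filter, mem_range]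
    have h3 := Finset.single_le_sum (f := κ) (fun _ _ => Nat.zero_le _) hn
    rw [mem_range] at hn
    exact ⟨by omega, hκ n k (by omega)⟩
  have h4 := card_le_card h2
  rwa [card_range] at h4

/-- covered points that are not dyadic have covered neighbourhoods -/
lemma nb_of_mem {g : List ℕ × ℕ × ℕ × ℕ → ℕ → Bool} {W : Set (List ℕ × ℕ × ℕ × ℕ)}
    (hW : ∀ q, q ∈ W ↔ ∃ s, g q s = true) {θ v : ℝ} {n : ℕ}
    (hnd : ∀ κ p : ℕ, Int.fract v ≠ (p : ℝ) / 2 ^ κ) (hm : Int.fract v ∈ opn W (orc θ) n) :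
    Nb g θ v n := by
  obtain ⟨m, κ, j, h1, h2, h3, h4⟩ := hm
  obtain ⟨s, hs⟩ := (hW _).1 h1
  have h3' : (j : ℝ) / 2 ^ κ < Int.fract v := lt_of_le_of_ne h3 (hnd κ j).symm
  refine ⟨min (Int.fract v - (j : ℝ) / 2 ^ κ) (((j : ℝ) + 1) / 2 ^ κ - Int.fract v),
    lt_min (by linarith) (by linarith), Nat.pair m (Nat.pair κ s) + 1, fun u hu => ?_⟩
  refine ⟨m, κ, s, Nat.lt_succ_self _, ?_⟩
  obtain ⟨hu1, hu2⟩ := lt_min_iff.1 hu
  rw [abs_lt] at hu1 hu2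
  have hj1 : ((j : ℝ) + 1) / 2 ^ κ ≤ 1 := by
    rw [div_le_one (by positivity)]
    exact_mod_cast h2
  have hj0 : (0 : ℝ) ≤ (j : ℝ) / 2 ^ κ := by positivity
  have h5 : Int.fract u = Int.fract v + (u - v) := by
    rw [Int.fract_eq_iff]
    refine ⟨by linarith, by linarith, ⌊v⌋, ?_⟩
    have := Int.self_sub_floor v
    linarith
  have h6 : ⌊2 ^ κ * Int.fract u⌋₊ = j := by
    rw [← cell_iff (Int.fract_nonneg u), h5]
    constructor <;> linarith
  rw [h6]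
  exact hs

/-- the test around a dyadic point -/
def gd (p κ₀ : ℕ) (q : List ℕ × ℕ × ℕ × ℕ) (_s : ℕ) : Bool :=
  (decide (q.1.length = 0) && decide (q.2.2.1 = q.2.1 + 1 + κ₀)) &&
    (decide ((q.2.2.2 + 1) % 2 ^ (q.2.1 + 1 + κ₀) = p * 2 ^ (q.2.1 + 1)) ||
      decide (q.2.2.2 = p * 2 ^ (q.2.1 + 1)))

lemma gd_iff {p κ₀ : ℕ} {l : List ℕ} {n k j s : ℕ} : gd p κ₀ (l, n, k, j) s = true ↔
    (l.length = 0 ∧ k = n + 1 + κ₀) ∧
      ((j + 1) % 2 ^ (n + 1 + κ₀) = p * 2 ^ (n + 1) ∨ j = p * 2 ^ (n + 1)) := by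
  unfold gd
  simp only [Bool.and_eq_true, Bool.or_eq_true, decide_eq_true_eq]

lemma c_gd (p κ₀ : ℕ) : Computable₂ (gd p κ₀) := by
  unfold gd
  have cq : Computable fun q : (List ℕ × ℕ × ℕ × ℕ) × ℕ => q.1 := Computable.fst
  have cl : Computable fun q : (List ℕ × ℕ × ℕ × ℕ) × ℕ => q.1.1 := Computable.fst.comp cq
  have c1 : Computable fun q : (List ℕ × ℕ × ℕ × ℕ) × ℕ => q.1.2 := Computable.snd.comp cq
  have cn : Computable fun q : (List ℕ × ℕ × ℕ × ℕ) × ℕ => q.1.2.1 := Computable.fst.comp c1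
  have c2 : Computable fun q : (List ℕ × ℕ × ℕ × ℕ) × ℕ => q.1.2.2 := Computable.snd.comp c1
  have ck : Computable fun q : (List ℕ × ℕ × ℕ × ℕ) × ℕ => q.1.2.2.1 := Computable.fst.comp c2
  have cj : Computable fun q : (List ℕ × ℕ × ℕ × ℕ) × ℕ => q.1.2.2.2 := Computable.snd.comp c2
  have cn1 : Computable fun q : (List ℕ × ℕ × ℕ × ℕ) × ℕ => q.1.2.1 + 1 :=
    c_add cn (Computable.const 1)
  have cP : Computable fun q : (List ℕ × ℕ × ℕ × ℕ) × ℕ => p * 2 ^ (q.1.2.1 + 1) :=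
    c_mul (Computable.const p) (c_pow (Computable.const 2) cn1)
  refine c_and (c_and (c_eq (Computable.list_length.comp cl) (Computable.const 0))
    (c_eq ck (c_add cn1 (Computable.const κ₀)))) (c_or (c_eq (c_mod (c_add cj (Computable.const 1))
      (c_pow (Computable.const 2) (c_add cn1 (Computable.const κ₀)))) cP) (c_eq cj cP))

lemma gd_volume {p κ₀ : ℕ} {θ : ℝ} (n : ℕ) :
    volume (opn {q | gd p κ₀ q 0 = true} (orc θ) n) ≤ ENNReal.ofReal ((1 / 2) ^ n) := by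
  classical
  set k := n + 1 + κ₀ with hk
  set I : Finset ℕ := {p * 2 ^ (n + 1), (p * 2 ^ (n + 1) + 2 ^ k - 1) % 2 ^ k} with hI
  have hk1 : 1 ≤ 2 ^ k := Nat.one_le_two_pow
  have hsub : opn {q | gd p κ₀ q 0 = true} (orc θ) n ⊆
      ⋃ j ∈ I, Set.Ico ((j : ℝ) / 2 ^ k) (((j : ℝ) + 1) / 2 ^ k) := by
    rintro u ⟨m, k', j, hq, hj, hu1, hu2⟩
    rw [Set.mem_ofPred_eq, gd_iff] at hq
    obtain ⟨⟨_, h2⟩, h3⟩ := hq
    rw [← hk] at h2 h3
    rw [h2] at hj hu1 hu2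
    simp only [Set.mem_iUnion]
    refine ⟨j, ?_, hu1, hu2⟩
    rw [hI, mem_insert, mem_singleton]
    rcases h3 with h3 | h3
    · right
      rcases Nat.lt_or_ge (j + 1) (2 ^ k) with h4 | h4
      · rw [Nat.mod_eq_of_lt h4] at h3
        rw [← h3]
        have e : j + 1 + 2 ^ k - 1 = j + 2 ^ k := by omega
        rw [e, Nat.add_mod_right, Nat.mod_eq_of_lt hj]
      · have h5 : j + 1 = 2 ^ k := by omega
        rw [h5, Nat.mod_self] at h3
        rw [← h3, zero_add, Nat.mod_eq_of_lt (by omega)]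
        omega
    · left; exact h3
  refine (measure_mono hsub).trans ?_
  rw [cells_volume]
  apply ENNReal.ofReal_le_ofReal
  have h1 : I.card ≤ 2 := Finset.card_le_two
  have h2 : (I.card : ℝ) ≤ 2 := by exact_mod_cast h1
  have h3 : (2 : ℝ) ^ k = 2 * 2 ^ n * 2 ^ κ₀ := by rw [hk, pow_add, pow_succ]; ring
  have h4 : (1 : ℝ) ≤ 2 ^ κ₀ := one_le_pow₀ (by norm_num)
  have h5 : (0 : ℝ) < 2 ^ n := by positivity
  rw [one_div_pow, mul_one_div, div_le_div_iff₀ (by positivity) (by positivity), h3]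
  nlinarith [mul_pos h5 (lt_of_lt_of_le one_pos h4)]

lemma nb_dyadic {θ v : ℝ} {p κ₀ : ℕ} (h : Int.fract v = (p : ℝ) / 2 ^ κ₀) (n : ℕ) :
    Nb (gd p κ₀) θ v n := by
  set k := n + 1 + κ₀ with hk
  have hp : (0 : ℝ) < 2 ^ k := by positivity
  have hk1 : 1 ≤ 2 ^ k := Nat.one_le_two_pow
  set P := p * 2 ^ (n + 1) with hP
  have hfr : Int.fract v = (P : ℝ) / 2 ^ k := by
    rw [h, hP, hk]
    push_cast
    rw [pow_add 2 (n + 1) κ₀]
    field_simp
  have hPlt : P < 2 ^ k := by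
    have h1 := Int.fract_lt_one v
    rw [hfr, div_lt_one hp] at h1
    exact_mod_cast h1
  have hP1 : ((P : ℝ) + 1) / 2 ^ k ≤ 1 := by
    rw [div_le_one hp]
    exact_mod_cast hPlt
  have hsp : ((P : ℝ) + 1) / 2 ^ k = (P : ℝ) / 2 ^ k + 1 / 2 ^ k := by ring
  refine ⟨1 / 2 ^ k, by positivity, Nat.pair 0 (Nat.pair k 0) + 1, fun u hu => ?_⟩
  refine ⟨0, k, 0, Nat.lt_succ_self _, ?_⟩
  rw [gd_iff]
  refine ⟨⟨by simp [pre], hk.symm ▸ rfl⟩, ?_⟩
  rw [← hk, ← hP]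
  rw [abs_lt] at hu
  have hfl := Int.self_sub_floor v
  rcases le_or_gt 0 (u - v) with h0 | h0
  · right
    have h5 : Int.fract u = Int.fract v + (u - v) := by
      rw [Int.fract_eq_iff]
      refine ⟨by have := Int.fract_nonneg v; linarith, by rw [hfr]; linarith [hu.2], ⌊v⌋, ?_⟩
      linarith
    rw [← cell_iff (Int.fract_nonneg u), h5, hfr]
    constructor
    · linarith
    · linarith [hu.2]
  · left
    rcases Nat.eq_zero_or_pos P with hz | hz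
    · have h5 : Int.fract u = 1 + (u - v) := by
        rw [Int.fract_eq_iff]
        have h6 : (1 : ℝ) / 2 ^ k ≤ 1 := by
          rw [div_le_one hp]
          exact_mod_cast hk1
        refine ⟨by linarith [hu.1], by linarith, ⌊v⌋ - 1, ?_⟩
        push_cast
        rw [hfr, hz] at hfl
        simp only [CharP.cast_eq_zero, zero_div] at hfl
        linarith
      have h6 : ⌊2 ^ k * Int.fract u⌋₊ = 2 ^ k - 1 := by
        rw [← cell_iff (Int.fract_nonneg u), h5, Nat.cast_sub hk1]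
        push_cast
        have e1 : ((2 : ℝ) ^ k - 1) / 2 ^ k = 1 - 1 / 2 ^ k := by field_simp
        have e2 : ((2 : ℝ) ^ k - 1 + 1) / 2 ^ k = 1 := by field_simp; ring
        rw [e1, e2]
        constructor <;> linarith [hu.1]
      rw [h6, hz, Nat.sub_add_cancel hk1, Nat.mod_self]
    · have hz1 : 1 ≤ P := hz
      have hm : (((P - 1 : ℕ) : ℝ)) = P - 1 := by rw [Nat.cast_sub hz1]; push_cast; ring
      have hm2 : (1 : ℝ) / 2 ^ k ≤ (P : ℝ) / 2 ^ k := by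
        apply div_le_div_of_nonneg_right _ hp.le
        exact_mod_cast hz1
      have h5 : Int.fract u = Int.fract v + (u - v) := by
        rw [Int.fract_eq_iff]
        refine ⟨by rw [hfr]; linarith [hu.1], by have := Int.fract_lt_one v; linarith, ⌊v⌋, ?_⟩
        linarith
      have h6 : ⌊2 ^ k * Int.fract u⌋₊ = P - 1 := by
        rw [← cell_iff (Int.fract_nonneg u), h5, hfr, hm]
        have e1 : ((P : ℝ) - 1) / 2 ^ k = (P : ℝ) / 2 ^ k - 1 / 2 ^ k := by ring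
        have e2 : ((P : ℝ) - 1 + 1) / 2 ^ k = (P : ℝ) / 2 ^ k := by ring
        rw [e1, e2]
        constructor
        · linarith [hu.1]
        · linarith
      rw [h6, Nat.sub_add_cancel hz1, Nat.mod_eq_of_lt hPlt]

/-- the projection is random relative to the direction -/
theorem proj_random {U : List Bool →. List Bool} (hU : OptPFree U) {c : ℚ × ℚ → List Bool}
    (hc : IsCoding c) {x y : ℝ} (hdim : 1 < effdim U c x y) {θ : ℝ} (hθ : 0 ≤ θ ∧ θ < 1)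
    (hr : MLRandom (orc₂ x y) θ) :
    MLRandom (orc θ) (Int.fract (cos (2 * π * θ) * x + sin (2 * π * θ) * y)) := by
  by_cases hnd : ∀ κ p : ℕ, Int.fract (cos (2 * π * θ) * x + sin (2 * π * θ) * y) ≠ (p : ℝ) / 2 ^ κ
  · intro W hW hv
    by_contra hcon
    push Not at hcon
    obtain ⟨g, hg, hgW⟩ := re_stage hW
    exact no_neighbourhoods hU hc hdim hθ hr hg hgW hv fun n => nb_of_mem hgW hnd (hcon n)
  · exfalso
    push Not at hnd
    obtain ⟨κ₀, p, h⟩ := hnd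
    exact no_neighbourhoods hU hc hdim hθ hr (c_gd p κ₀) (W := {q | gd p κ₀ q 0 = true})
      (fun q => ⟨fun h => ⟨0, h⟩, fun ⟨_, h⟩ => h⟩) (gd_volume) (nb_dyadic h)

/-- randomness relative to an oracle implies randomness -/
lemma random_of_rel {θ t : ℝ} (h : MLRandom (orc θ) t) : MLRandom (fun _ : ℕ => ()) t := by
  intro W hW hv
  set f : List ℕ × ℕ × ℕ × ℕ → List Unit × ℕ × ℕ × ℕ :=
    fun q => ((List.range q.1.length).map (fun _ => ()), q.2) with hf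
  have cf : Computable f := by
    refine Computable.pair ?_ Computable.snd
    exact c_map (f := fun _ _ => ()) (Computable.list_length.comp Computable.fst)
      (Computable.const ())
  have hop : ∀ n, opn {q | f q ∈ W} (orc θ) n = opn W (fun _ : ℕ => ()) n := by
    intro n
    ext u
    have h1 : ∀ m k j : ℕ, (pre (orc θ) m, n, k, j) ∈ {q | f q ∈ W} ↔
        (pre (fun _ : ℕ => ()) m, n, k, j) ∈ W := by
      intro m k j
      rw [Set.mem_ofPred_eq, hf]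
      simp only [pre, List.length_map, List.length_range]
    unfold opn
    simp only [h1]
  have hre : REPred (fun q => q ∈ {q | f q ∈ W}) := by
    have h2 := Partrec.comp (f := fun a => Part.assert (a ∈ W) fun _ => Part.some ()) hW cf
    exact h2
  obtain ⟨n, hn⟩ := h {q | f q ∈ W} hre (fun n => by rw [hop]; exact hv n)
  exact ⟨n, by rw [← hop]; exact hn⟩

end Pool.Agent.R557.PJ
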