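import Pool.Agent.R557.PJTree

set_option autoImplicit false

/-! The energy estimate. -/

namespace Pool.Agent.R557.PJ

open Finset
open Pool.Agent.R557.DS (sum_wt)

/-- mass in few tubes is bounded by the energy -/
lemma tube {ι : Type*} (P : Finset ι) (μ : ι → ℝ) (hμ : ∀ p, 0 ≤ μ p) (key : ι → ℕ) (J : Finset ℕ)
    (L : ℝ) (hL : 0 < L) :
    ∑ p ∈ P, (if key p ∈ J then μ p else 0) ≤ L / 2 * J.card +
      1 / (2 * L) * ∑ p ∈ P, ∑ p' ∈ P, (if key p = key p' then μ p * μ p' else 0) := by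
  classical
  have h1 : ∑ p ∈ P, (if key p ∈ J then μ p else 0) =
      ∑ j ∈ J, ∑ p ∈ P, (if key p = j then μ p else 0) := by
    rw [Finset.sum_comm]
    apply Finset.sum_congr rfl
    intro p _
    rw [Finset.sum_ite_eq]
  have h2 : ∀ j ∈ J, ∑ p ∈ P, (if key p = j then μ p else 0) ≤
      L / 2 + 1 / (2 * L) * (∑ p ∈ P, (if key p = j then μ p else 0)) ^ 2 := by
    intro j _
    set m := ∑ p ∈ P, (if key p = j then μ p else 0)
    have h3 : L / 2 + 1 / (2 * L) * m ^ 2 - m = (L - m) ^ 2 / (2 * L) := by field_simp; ring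
    have h4 : 0 ≤ (L - m) ^ 2 / (2 * L) := by positivity
    linarith
  rw [h1]
  refine (Finset.sum_le_sum h2).trans ?_
  rw [Finset.sum_add_distrib, Finset.sum_const, nsmul_eq_mul, ← Finset.mul_sum]
  have h3 : ∑ j ∈ J, (∑ p ∈ P, (if key p = j then μ p else 0)) ^ 2 ≤
      ∑ p ∈ P, ∑ p' ∈ P, (if key p = key p' then μ p * μ p' else 0) := by
    have h4 : ∀ j ∈ J, (∑ p ∈ P, (if key p = j then μ p else 0)) ^ 2 =
        ∑ p ∈ P, ∑ p' ∈ P, (if key p = j ∧ key p' = j then μ p * μ p' else 0) := by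
      intro j _
      rw [sq, Finset.sum_mul_sum]
      apply Finset.sum_congr rfl
      intro p _
      apply Finset.sum_congr rfl
      intro p' _
      by_cases ha : key p = j <;> by_cases hb : key p' = j <;> simp [ha, hb]
    rw [Finset.sum_congr rfl h4, Finset.sum_comm]
    apply Finset.sum_le_sum
    intro p _
    rw [Finset.sum_comm]
    apply Finset.sum_le_sum
    intro p' _
    have h5 : 0 ≤ μ p * μ p' := mul_nonneg (hμ p) (hμ p')
    by_cases hk : key p = key p'
    · rw [if_pos hk, ← hk]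
      simp only [and_self]
      rw [Finset.sum_ite_eq]
      split_ifs
      · exact le_rfl
      · exact h5
    · rw [if_neg hk]
      apply le_of_eq
      apply Finset.sum_eq_zero
      intro j _
      rw [if_neg]
      rintro ⟨h6, h7⟩
      exact hk (h6.trans h7.symm)
  have h4 : 0 ≤ 1 / (2 * L) := by positivity
  have h5 := mul_le_mul_of_nonneg_left h3 h4
  linarith

variable (g : List ℕ × ℕ × ℕ × ℕ → ℕ → Bool) (B : ℕ)

/-- closeness at scale `k` -/
def near (k a b a' b' : ℕ) : Prop :=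
  (a' < a + 2 ^ k ∧ a < a' + 2 ^ k) ∧ (b' < b + 2 ^ k ∧ b < b' + 2 ^ k)

instance (k a b a' b' : ℕ) : Decidable (near k a b a' b') := by unfold near; infer_instance

/-- directions that do not separate distant squares -/
lemma few_dirs {T k a b a' b' : ℕ} (ha : a < 2 ^ T) (hb : b < 2 ^ T) (ha' : a' < 2 ^ T)
    (hb' : b' < 2 ^ T) (hk : k < T) (hn : ¬ near k a b a' b') :
    ((range (2 ^ T)).filter (fun i => AN B T a b i = AN B T a' b' i)).card ≤ 16 * 2 ^ (T - (k + 1)) := by
  classical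
  set S := (range (2 ^ T)).filter (fun i => AN B T a b i = AN B T a' b' i) with hS
  have hD : (((2 ^ k : ℕ) : ℝ)) ≤ |(a : ℝ) - a'| ∨ (((2 ^ k : ℕ) : ℝ)) ≤ |(b : ℝ) - b'| := by
    have key : ∀ x x' : ℕ, ¬ (x' < x + 2 ^ k ∧ x < x' + 2 ^ k) →
        (((2 ^ k : ℕ) : ℝ)) ≤ |(x : ℝ) - x'| := by
      intro x x' h
      rw [not_and_or, not_lt, not_lt] at h
      rcases h with h | h
      · have : (x : ℝ) + ((2 ^ k : ℕ) : ℝ) ≤ x' := by exact_mod_cast h
        rw [abs_sub_comm]
        exact le_trans (by linarith) (le_abs_self _)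
      · have : (x' : ℝ) + ((2 ^ k : ℕ) : ℝ) ≤ x := by exact_mod_cast h
        exact le_trans (by linarith) (le_abs_self _)
    unfold near at hn
    rw [not_and_or] at hn
    rcases hn with h | h
    · exact Or.inl (key a a' h)
    · exact Or.inr (key b b' h)
  have hmaps : ∀ i ∈ S, 4 * i / 2 ^ T ∈ range 4 := by
    intro i hi
    rw [hS, mem_filter, mem_range] at hi
    rw [mem_range, Nat.div_lt_iff_lt_mul (by positivity)]
    omega
  rw [Finset.card_eq_sum_card_fiberwise hmaps]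
  have h1 : ∀ q ∈ range 4, (S.filter (fun i => 4 * i / 2 ^ T = q)).card ≤ 4 * 2 ^ (T - (k + 1)) := by
    intro q _
    set F := S.filter (fun i => 4 * i / 2 ^ T = q) with hF
    rcases F.eq_empty_or_nonempty with he | hne
    · rw [he]; simp
    obtain ⟨i₀, hi₀, hmin⟩ := Finset.exists_min_image F id hne
    have hsub : F ⊆ Finset.Icc i₀ (i₀ + 2 ^ (T - k)) := by
      intro j hj
      have h2 : i₀ ≤ j := hmin j hj
      rw [mem_Icc]
      refine ⟨h2, ?_⟩
      rw [hF, mem_filter, hS, mem_filter, mem_range] at hi₀ hj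
      have h3 : 4 * (j - i₀) ≤ 2 ^ T := by
        have h4 := Nat.div_add_mod (4 * j) (2 ^ T)
        have h5 := Nat.div_add_mod (4 * i₀) (2 ^ T)
        have h6 := Nat.mod_lt (4 * j) (show 0 < 2 ^ T by positivity)
        rw [hj.2] at h4
        rw [hi₀.2] at h5
        omega
      have h4 := sep_count B ha hb ha' hb' hD h2 hj.1.1 h3 hi₀.1.2 hj.1.2
      have h5 : 2 ^ k * (j - i₀) ≤ 2 ^ k * 2 ^ (T - k) := by
        rw [← pow_add]
        have : k + (T - k) = T := by omega
        rw [this]; exact h4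
      have h6 := Nat.le_of_mul_le_mul_left h5 (by positivity)
      omega
    have h2 := card_le_card hsub
    rw [Nat.card_Icc] at h2
    have h3 : 2 ^ (T - k) = 2 * 2 ^ (T - (k + 1)) := by
      have : T - k = (T - (k + 1)) + 1 := by omega
      rw [this, pow_succ]; ring
    have h4 : 1 ≤ 2 ^ (T - (k + 1)) := Nat.one_le_two_pow
    omega
  refine (Finset.sum_le_sum h1).trans (le_of_eq ?_)
  rw [Finset.sum_const, card_range, smul_eq_mul]
  ring

lemma dirs_le {T a b a' b' : ℕ} (ha : a < 2 ^ T) (hb : b < 2 ^ T) (ha' : a' < 2 ^ T)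
    (hb' : b' < 2 ^ T) :
    (((range (2 ^ T)).filter (fun i => AN B T a b i = AN B T a' b' i)).card : ℝ) ≤
      ∑ k ∈ range (T + 1), (if near k a b a' b' then 16 * (2 : ℝ) ^ (T - k) else 0) := by
  classical
  have hnn : ∀ k ∈ range (T + 1), (0 : ℝ) ≤ (if near k a b a' b' then 16 * (2 : ℝ) ^ (T - k) else 0) := by
    intro k _
    split_ifs
    · positivity
    · exact le_rfl
  have hT : near T a b a' b' := by unfold near; omega
  -- the least scale
  have hex : ∃ k, near k a b a' b' := ⟨T, hT⟩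
  obtain ⟨k, hk, hmin⟩ : ∃ k, near k a b a' b' ∧ ∀ k' < k, ¬ near k' a b a' b' :=
    ⟨Nat.find hex, Nat.find_spec hex, fun k' h => Nat.find_min hex h⟩
  have hkT : k ≤ T := by
    by_contra h
    exact hmin T (by omega) hT
  refine le_trans ?_ (Finset.single_le_sum hnn (mem_range.2 (Nat.lt_succ_of_le hkT)))
  rw [if_pos hk]
  rcases Nat.eq_zero_or_pos k with h0 | h0
  · rw [h0, Nat.sub_zero]
    have h1 := Finset.card_filter_le (range (2 ^ T)) (fun i => AN B T a b i = AN B T a' b' i)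
    rw [card_range] at h1
    have h2 : (((range (2 ^ T)).filter (fun i => AN B T a b i = AN B T a' b' i)).card : ℝ) ≤
        2 ^ T := by exact_mod_cast h1
    have h3 : (0 : ℝ) < 2 ^ T := by positivity
    linarith
  · have h1 := few_dirs B ha hb ha' hb' (k := k - 1) (by omega) (hmin (k - 1) (by omega))
    rw [Nat.sub_add_cancel h0] at h1
    exact_mod_cast h1

variable (c M : ℕ) (hM : 0 < M)

/-- the points -/
def PP (T : ℕ) : Finset (ℕ × ℕ) := range (2 ^ T) ×ˢ range (2 ^ T)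

/-- the flow on the points -/
noncomputable def mu (T : ℕ) (p : ℕ × ℕ) : ℝ := fl (AA g B c) M T T p.1 p.2

lemma mu_nonneg (T : ℕ) (p : ℕ × ℕ) : 0 ≤ mu g B c M T p := fl_nonneg _ _ _ _ _ _

lemma mu_total (T : ℕ) : ∑ p ∈ PP T, mu g B c M T p = VC (AA g B c) M T 0 0 0 := by
  unfold PP mu
  rw [Finset.sum_product]
  have h1 := block_mass (AA g B c) M (T := T) T le_rfl 0 0
  simp only [zero_mul, zero_add, Nat.sub_self] at h1
  rw [h1]
  rfl

lemma mu_supp {T : ℕ} {p : ℕ × ℕ} (h : mu g B c M T p ≠ 0) : AA g B c T p.1 p.2 = true := by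
  by_contra hA
  apply h
  have h1 := fl_le (AA g B c) M T T le_rfl p.1 p.2
  rw [VC_leaf, if_neg hA] at h1
  exact le_antisymm h1 (fl_nonneg _ _ _ _ _ _)

include hM in
lemma energy_le (T : ℕ) : ∑ i ∈ range (2 ^ T), ∑ p ∈ PP T, ∑ p' ∈ PP T,
    (if AN B T p.1 p.2 i = AN B T p'.1 p'.2 i then mu g B c M T p * mu g B c M T p' else 0) ≤
      288 * M * VC (AA g B c) M T 0 0 0 := by
  classical
  have h1 : ∑ i ∈ range (2 ^ T), ∑ p ∈ PP T, ∑ p' ∈ PP T,
      (if AN B T p.1 p.2 i = AN B T p'.1 p'.2 i then mu g B c M T p * mu g B c M T p' else 0) =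
      ∑ p ∈ PP T, mu g B c M T p * ∑ p' ∈ PP T, mu g B c M T p' *
        (((range (2 ^ T)).filter (fun i => AN B T p.1 p.2 i = AN B T p'.1 p'.2 i)).card : ℝ) := by
    rw [Finset.sum_comm]
    apply Finset.sum_congr rfl
    intro p _
    rw [Finset.sum_comm, Finset.mul_sum]
    apply Finset.sum_congr rfl
    intro p' _
    rw [← Finset.sum_filter, Finset.sum_const, nsmul_eq_mul]
    ring
  rw [h1, ← mu_total, Finset.mul_sum]
  apply Finset.sum_le_sum
  intro p hp
  rw [mul_comm (288 * (M : ℝ))]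
  apply mul_le_mul_of_nonneg_left _ (mu_nonneg g B c M T p)
  unfold PP at hp
  rw [mem_product, mem_range, mem_range] at hp
  have h2 : ∑ p' ∈ PP T, mu g B c M T p' *
        (((range (2 ^ T)).filter (fun i => AN B T p.1 p.2 i = AN B T p'.1 p'.2 i)).card : ℝ) ≤
      ∑ p' ∈ PP T, ∑ k ∈ range (T + 1), 16 * (2 : ℝ) ^ (T - k) *
        (if near k p.1 p.2 p'.1 p'.2 then mu g B c M T p' else 0) := by
    apply Finset.sum_le_sum
    intro p' hp'
    unfold PP at hp'
    rw [mem_product, mem_range, mem_range] at hp'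
    refine (mul_le_mul_of_nonneg_left (dirs_le B hp.1 hp.2 hp'.1 hp'.2)
      (mu_nonneg g B c M T p')).trans (le_of_eq ?_)
    rw [Finset.mul_sum]
    apply Finset.sum_congr rfl
    intro k _
    split_ifs
    · ring
    · simp
  refine h2.trans ?_
  rw [Finset.sum_comm]
  have h3 : ∀ k ∈ range (T + 1), ∑ p' ∈ PP T, 16 * (2 : ℝ) ^ (T - k) *
      (if near k p.1 p.2 p'.1 p'.2 then mu g B c M T p' else 0) ≤ 144 * (1 / 2) ^ ((T - k) / M) := by
    intro k hk
    rw [mem_range] at hk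
    rw [← Finset.mul_sum]
    have h4 := near_mass (AA g B c) M (T := T) k (by omega) p.1 p.2
    have h5 : ∑ p' ∈ PP T, (if near k p.1 p.2 p'.1 p'.2 then mu g B c M T p' else 0) ≤
        9 * (1 / 2) ^ ww M (T - k) := by
      unfold PP
      rw [Finset.sum_product]
      exact h4
    have h6 : (2 : ℝ) ^ (T - k) * (1 / 2) ^ ww M (T - k) = (1 / 2) ^ ((T - k) / M) := by
      unfold ww
      rw [pow_add, ← mul_assoc, ← mul_pow]
      norm_num
    calc _ ≤ 16 * (2 : ℝ) ^ (T - k) * (9 * (1 / 2) ^ ww M (T - k)) :=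
          mul_le_mul_of_nonneg_left h5 (by positivity)
      _ = 144 * ((2 : ℝ) ^ (T - k) * (1 / 2) ^ ww M (T - k)) := by ring
      _ = _ := by rw [h6]
  refine (Finset.sum_le_sum h3).trans ?_
  rw [← Finset.mul_sum]
  have h4 : ∑ k ∈ range (T + 1), ((1 : ℝ) / 2) ^ ((T - k) / M) =
      ∑ k ∈ range (T + 1), ((1 : ℝ) / 2) ^ (k / M) := by
    rw [← Finset.sum_range_reflect]
    apply Finset.sum_congr rfl
    intro k hk
    rw [mem_range] at hk
    congr 2
    omega
  rw [h4]
  have h5 := sum_wt M hM (T + 1)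
  linarith

lemma card_mod (p : ℕ → Bool) (T b : ℕ) :
    ((range (2 ^ (T + b))).filter (fun j => p (j % 2 ^ T) = true)).card ≤
      2 ^ b * ((range (2 ^ T)).filter (fun j => p j = true)).card := by
  classical
  have h1 : ((range (2 ^ (T + b))).filter (fun j => p (j % 2 ^ T) = true)).card ≤
      (range (2 ^ b) ×ˢ (range (2 ^ T)).filter (fun j => p j = true)).card := by
    apply Finset.card_le_card_of_injOn (fun j => (j / 2 ^ T, j % 2 ^ T))
    · intro j hj
      rw [Finset.mem_coe, mem_filter, mem_range] at hj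
      rw [Finset.mem_coe, mem_product, mem_range, mem_filter, mem_range]
      refine ⟨?_, Nat.mod_lt _ (by positivity), hj.2⟩
      simp only
      rw [Nat.div_lt_iff_lt_mul (by positivity), ← pow_add, add_comm b T]
      exact hj.1
    · intro j _ j' _ h
      simp only [Prod.mk.injEq] at h
      rw [← Nat.div_add_mod j (2 ^ T), h.1, h.2, Nat.div_add_mod]
  rwa [card_product, card_range] at h1

/-- one test -/
lemma one_test (T n i : ℕ) (hi : i < 2 ^ T) (L : ℝ) (hL : 0 < L) :
    ∑ p ∈ PP T, (if cert g B T p.1 p.2 i n = true then mu g B c M T p else 0) ≤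
      L / 2 * (2 ^ (B + 11) * 2 ^ T * (1 / 2) ^ n) + 1 / (2 * L) *
        ∑ p ∈ PP T, ∑ p' ∈ PP T, (if AN B T p.1 p.2 i = AN B T p'.1 p'.2 i then
          mu g B c M T p * mu g B c M T p' else 0) := by
  classical
  set J := (range (2 ^ (T + (B + 11)))).filter (fun j => covg g T i n (j % 2 ^ T) = true) with hJ
  have h1 := tube (PP T) (mu g B c M T) (mu_nonneg g B c M T) (fun p => AN B T p.1 p.2 i) J L hL
  have h2 : ∑ p ∈ PP T, (if cert g B T p.1 p.2 i n = true then mu g B c M T p else 0) ≤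
      ∑ p ∈ PP T, (if AN B T p.1 p.2 i ∈ J then mu g B c M T p else 0) := by
    apply Finset.sum_le_sum
    intro p hp
    unfold PP at hp
    rw [mem_product, mem_range, mem_range] at hp
    have hnn := mu_nonneg g B c M T p
    by_cases hc : cert g B T p.1 p.2 i n = true
    · rw [if_pos hc, if_pos]
      rw [hJ, mem_filter, mem_range]
      constructor
      · have h3 := AN_spec B hp.1 hp.2 hi
        have h4 := (vx_bd B (i := i) hp.1 hp.2).2
        rw [abs_le] at h3
        have h5 : (1 : ℝ) ≤ 2 ^ (B + T) := one_le_pow₀ (by norm_num)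
        have h6 : (2 : ℝ) ^ (T + (B + 11)) = 2048 * 2 ^ (B + T) := by
          rw [show T + (B + 11) = (B + T) + 11 by ring, pow_add]; norm_num; ring
        have h7 : (AN B T p.1 p.2 i : ℝ) < 2 ^ (T + (B + 11)) := by
          rw [h6]; linarith [h3.2]
        exact_mod_cast h7
      · rw [cert_iff] at hc
        have h3 := hc (RR B) (by omega)
        rwa [Nat.add_sub_cancel] at h3
    · rw [if_neg hc]
      split_ifs
      · exact hnn
      · exact le_rfl
  have h3 : (J.card : ℝ) ≤ 2 ^ (B + 11) * 2 ^ T * (1 / 2) ^ n := by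
    have h4 := card_mod (fun j => covg g T i n j) T (B + 11)
    have h5 := card_covg g T i n
    have h6 : J.card * 2 ^ n ≤ 2 ^ (B + 11) * 2 ^ T := by
      calc J.card * 2 ^ n ≤ (2 ^ (B + 11) *
            ((range (2 ^ T)).filter (fun j => covg g T i n j = true)).card) * 2 ^ n :=
            Nat.mul_le_mul_right _ h4
        _ = 2 ^ (B + 11) * (((range (2 ^ T)).filter
            (fun j => covg g T i n j = true)).card * 2 ^ n) := by ring
        _ ≤ _ := Nat.mul_le_mul_left _ h5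
    have h7 : (J.card : ℝ) * 2 ^ n ≤ 2 ^ (B + 11) * 2 ^ T := by exact_mod_cast h6
    have h8 : (2 : ℝ) ^ n * (1 / 2) ^ n = 1 := by rw [← mul_pow]; norm_num
    calc (J.card : ℝ) = J.card * (2 ^ n * (1 / 2) ^ n) := by rw [h8, mul_one]
      _ = (J.card * 2 ^ n) * (1 / 2) ^ n := by ring
      _ ≤ _ := mul_le_mul_of_nonneg_right h7 (by positivity)
  have h4 := mul_le_mul_of_nonneg_left h3 (show 0 ≤ L / 2 by positivity)
  linarith

lemma geo_le (x : ℝ) (hx0 : 0 ≤ x) (hx1 : x < 1) (T : ℕ) : ∑ n ∈ range T, x ^ n ≤ 1 / (1 - x) := by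
  have h1 : 0 < 1 - x := by linarith
  rw [le_div_iff₀ h1, mul_comm, mul_neg_geom_sum]
  have : 0 ≤ x ^ T := by positivity
  linarith

include hM in
/-- the content of the set where the sum is large is small -/
lemma content_le (T : ℕ) : VC (AA g B c) M T 0 0 0 ≤
    (6912 * M * 2 ^ (B + 10)) * (1 / 4) ^ c := by
  classical
  set m := VC (AA g B c) M T 0 0 0 with hm
  have hm0 : 0 ≤ m := VC_nonneg _ _ _ _ _ _
  have hMr : (0 : ℝ) < M := by exact_mod_cast hM
  set E := ∑ i ∈ range (2 ^ T), ∑ p ∈ PP T, ∑ p' ∈ PP T,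
    (if AN B T p.1 p.2 i = AN B T p'.1 p'.2 i then mu g B c M T p * mu g B c M T p' else 0) with hE
  have hEle : E ≤ 288 * M * m := energy_le g B c M hM T
  set γ : ℝ := 1152 * M * (1 / 2) ^ c with hγ
  have hγ0 : 0 < γ := by positivity
  -- lower bound
  have hlow : 2 ^ c * 2 ^ T * m ≤ ∑ p ∈ PP T, mu g B c M T p * (FF g B T p.1 p.2 : ℝ) := by
    rw [hm, ← mu_total, Finset.mul_sum]
    apply Finset.sum_le_sum
    intro p _
    by_cases h0 : mu g B c M T p = 0
    · rw [h0]; simp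
    · have h1 := mu_supp g B c M h0
      rw [AA_iff] at h1
      have h2 : (2 : ℝ) ^ c * 2 ^ T ≤ (FF g B T p.1 p.2 : ℝ) := by exact_mod_cast h1.2
      rw [mul_comm]
      exact mul_le_mul_of_nonneg_left h2 (mu_nonneg g B c M T p)
  -- rewrite as a sum over tests
  have hsum : ∑ p ∈ PP T, mu g B c M T p * (FF g B T p.1 p.2 : ℝ) =
      ∑ n ∈ range T, ∑ i ∈ range (2 ^ T), ∑ p ∈ PP T,
        (if cert g B T p.1 p.2 i n = true then mu g B c M T p else 0) := by
    have h1 : ∀ p ∈ PP T, mu g B c M T p * (FF g B T p.1 p.2 : ℝ) =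
        ∑ n ∈ range T, ∑ i ∈ range (2 ^ T),
          (if cert g B T p.1 p.2 i n = true then mu g B c M T p else 0) := by
      intro p _
      unfold FF GG
      push_cast
      rw [Finset.mul_sum, Finset.sum_comm]
      apply Finset.sum_congr rfl
      intro i _
      rw [← Finset.sum_filter, Finset.sum_const, nsmul_eq_mul, mul_comm]
    rw [Finset.sum_congr rfl h1, Finset.sum_comm]
    apply Finset.sum_congr rfl
    intro n _
    rw [Finset.sum_comm]
  -- each test
  have htest : ∀ n ∈ range T, ∑ i ∈ range (2 ^ T), ∑ p ∈ PP T,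
      (if cert g B T p.1 p.2 i n = true then mu g B c M T p else 0) ≤
        2 ^ T * (γ * 2 ^ (B + 10) * (2 / 3) ^ n + E / (2 * γ) * (3 / 4) ^ n) := by
    intro n _
    set L : ℝ := γ * (1 / 2) ^ T * (4 / 3) ^ n with hL
    have hL0 : 0 < L := by positivity
    have h1 : ∀ i ∈ range (2 ^ T), _ := fun i hi =>
      one_test g B c M T n i (mem_range.1 hi) L hL0
    refine (Finset.sum_le_sum h1).trans (le_of_eq ?_)
    rw [Finset.sum_add_distrib, Finset.sum_const, card_range, nsmul_eq_mul, ← Finset.mul_sum, ← hE]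
    push_cast
    have e1 : (1 / 2 : ℝ) ^ T * 2 ^ T = 1 := by rw [← mul_pow]; norm_num
    have e2 : ((4 : ℝ) / 3) ^ n * (1 / 2) ^ n = (2 / 3) ^ n := by rw [← mul_pow]; norm_num
    have e3 : (1 : ℝ) / (2 * L) = 2 ^ T * (3 / 4) ^ n / (2 * γ) := by
      have e4 : ((4 : ℝ) / 3) ^ n * (3 / 4) ^ n = 1 := by rw [← mul_pow]; norm_num
      rw [div_eq_div_iff (by positivity) (by positivity), hL]
      calc 1 * (2 * γ) = 2 * γ * (((1 / 2 : ℝ) ^ T * 2 ^ T) * (((4 : ℝ) / 3) ^ n * (3 / 4) ^ n)) := by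
            rw [e1, e4]; ring
        _ = _ := by ring
    rw [e3, hL]
    have e5 : (2 : ℝ) ^ (B + 11) = 2 * 2 ^ (B + 10) := by rw [pow_succ]; ring
    rw [e5]
    calc (2 : ℝ) ^ T * (γ * (1 / 2) ^ T * (4 / 3) ^ n / 2 * (2 * 2 ^ (B + 10) * 2 ^ T * (1 / 2) ^ n)) +
          2 ^ T * (3 / 4) ^ n / (2 * γ) * E =
          2 ^ T * (γ * 2 ^ (B + 10) * ((1 / 2 : ℝ) ^ T * 2 ^ T) * ((4 / 3) ^ n * (1 / 2) ^ n) +
            E / (2 * γ) * (3 / 4) ^ n) := by ring
      _ = _ := by rw [e1, e2]; ring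
  have hup : 2 ^ c * 2 ^ T * m ≤ 2 ^ T * (3 * γ * 2 ^ (B + 10) + 576 * M * m / γ) := by
    refine (hlow.trans_eq hsum).trans ((Finset.sum_le_sum htest).trans ?_)
    rw [← Finset.mul_sum]
    apply mul_le_mul_of_nonneg_left _ (by positivity)
    rw [Finset.sum_add_distrib, ← Finset.mul_sum, ← Finset.mul_sum]
    have g1 := geo_le (2 / 3) (by norm_num) (by norm_num) T
    have g2 := geo_le (3 / 4) (by norm_num) (by norm_num) T
    norm_num at g1 g2
    have hE0 : 0 ≤ E / (2 * γ) := by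
      apply div_nonneg _ (by positivity)
      apply Finset.sum_nonneg
      intro i _
      apply Finset.sum_nonneg
      intro p _
      apply Finset.sum_nonneg
      intro p' _
      split_ifs
      · exact mul_nonneg (mu_nonneg g B c M T p) (mu_nonneg g B c M T p')
      · exact le_rfl
    have k1 := mul_le_mul_of_nonneg_left g1 (show 0 ≤ γ * 2 ^ (B + 10) by positivity)
    have k2 := mul_le_mul_of_nonneg_left g2 hE0
    have k3 : E / (2 * γ) * 4 ≤ 576 * M * m / γ := by
      rw [div_mul_eq_mul_div, div_le_div_iff₀ (by positivity) hγ0]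
      nlinarith
    linarith
  have h2T : (0 : ℝ) < 2 ^ T := by positivity
  have hup2 : 2 ^ c * m ≤ 3 * γ * 2 ^ (B + 10) + 576 * M * m / γ := by
    have : 2 ^ T * (2 ^ c * m) ≤ 2 ^ T * (3 * γ * 2 ^ (B + 10) + 576 * M * m / γ) := by
      calc 2 ^ T * (2 ^ c * m) = 2 ^ c * 2 ^ T * m := by ring
        _ ≤ _ := hup
    exact le_of_mul_le_mul_left this h2T
  have e1 : (2 : ℝ) ^ c * (1 / 2) ^ c = 1 := by rw [← mul_pow]; norm_num
  have e2 : 576 * M * m / γ = 2 ^ c * m / 2 := by
    rw [div_eq_div_iff hγ0.ne' (by norm_num), hγ]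
    calc 576 * M * m * 2 = 1152 * M * m * (2 ^ c * (1 / 2) ^ c) := by rw [e1]; ring
      _ = _ := by ring
  rw [e2] at hup2
  have hup3 : 2 ^ c * m ≤ 6 * γ * 2 ^ (B + 10) := by linarith
  have e3 : ((1 : ℝ) / 4) ^ c = (1 / 2) ^ c * (1 / 2) ^ c := by rw [← mul_pow]; norm_num
  calc m = (2 ^ c * m) * (1 / 2) ^ c := by
        calc m = (2 ^ c * (1 / 2) ^ c) * m := by rw [e1, one_mul]
          _ = _ := by ring
    _ ≤ (6 * γ * 2 ^ (B + 10)) * (1 / 2) ^ c := mul_le_mul_of_nonneg_right hup3 (by positivity)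
    _ = _ := by rw [hγ, e3]; ring

end Pool.Agent.R557.PJ
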