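import Pool.Agent.R557.PJKol2
import Pool.Agent.R557.PJDef
import Pool.Agent.R557.CKStr
import Pool.Agent.R557.CKFin

set_option autoImplicit false

/-! Points of dimension larger than one have finite sums. -/

namespace Pool.Agent.R557.PJ

open Finset Real MeasureTheory Filter
open Pool.Agent.R557.DS
open Pool.Agent.Helper981.KP (IsKP)
open Pool.Agent.TH676.CK (OptPFree cx isKP_cx)
open Pool.Agent.R557.CK (exists_str computable_symm)
open Pool.Agent.H166R3.AT (c_add c_mul c_sub c_div c_mod c_pow c_sum c_le c_lt c_eq c_and c_or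
  c_not c_count ball ball_iff c_ball bex bex_iff c_bex)

/-- the integer coordinate at level `t` of the point `x` of `[-2^B, 2^B)` -/
noncomputable def ax (B : ℕ) (x : ℝ) (t : ℕ) : ℕ := ⌊2 ^ t * ((x + 2 ^ B) / 2 ^ (B + 1))⌋₊

lemma floor_scale (y : ℝ) {l t : ℕ} (h : l ≤ t) : ⌊2 ^ l * y⌋₊ = ⌊2 ^ t * y⌋₊ / 2 ^ (t - l) := by
  have h1 : (2 : ℝ) ^ l * y = 2 ^ t * y / ((2 ^ (t - l) : ℕ) : ℝ) := by
    push_cast
    rw [eq_div_iff (by positivity)]
    have : (2 : ℝ) ^ t = 2 ^ l * 2 ^ (t - l) := by rw [← pow_add]; congr 1; omega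
    rw [this]; ring
  rw [h1, Nat.floor_div_natCast]

lemma ax_div (B : ℕ) (x : ℝ) {l t : ℕ} (h : l ≤ t) : ax B x l = ax B x t / 2 ^ (t - l) :=
  floor_scale _ h

section
variable {B : ℕ} {x : ℝ} (hx : |x| < 2 ^ B)
include hx

lemma unit_range : 0 ≤ (x + 2 ^ B) / 2 ^ (B + 1) ∧ (x + 2 ^ B) / 2 ^ (B + 1) < 1 := by
  rw [abs_lt] at hx
  have h1 : (2 : ℝ) ^ (B + 1) = 2 * 2 ^ B := by rw [pow_succ]; ring
  constructor
  · apply div_nonneg (by linarith [hx.1]) (by positivity)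
  · rw [div_lt_one (by positivity), h1]
    linarith [hx.2]

lemma ax_lt (t : ℕ) : ax B x t < 2 ^ t := by
  obtain ⟨h1, h2⟩ := unit_range hx
  have h3 : (ax B x t : ℝ) ≤ 2 ^ t * ((x + 2 ^ B) / 2 ^ (B + 1)) := Nat.floor_le (by positivity)
  have h4 : (0 : ℝ) < 2 ^ t := by positivity
  have h5 : (ax B x t : ℝ) < 2 ^ t := by nlinarith
  exact_mod_cast h5

lemma ax_near (t : ℕ) : |2 ^ (B + 1) * (ax B x t : ℝ) / 2 ^ t - 2 ^ B - x| ≤ 2 ^ (B + 1) / 2 ^ t := by
  obtain ⟨h1, h2⟩ := unit_range hx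
  have hp : (0 : ℝ) < 2 ^ t := by positivity
  have hpB : (0 : ℝ) < 2 ^ (B + 1) := by positivity
  set y := (x + 2 ^ B) / 2 ^ (B + 1) with hy
  have hxy : x = 2 ^ (B + 1) * y - 2 ^ B := by rw [hy]; field_simp; ring
  have h3 : (ax B x t : ℝ) ≤ 2 ^ t * y := Nat.floor_le (by positivity)
  have h4 : 2 ^ t * y < (ax B x t : ℝ) + 1 := Nat.lt_floor_add_one _
  have e : 2 ^ (B + 1) * (ax B x t : ℝ) / 2 ^ t - 2 ^ B - x =
      2 ^ (B + 1) * ((ax B x t : ℝ) - 2 ^ t * y) / 2 ^ t := by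
    rw [hxy]; field_simp; ring
  rw [e, abs_div, abs_of_pos hp]
  apply div_le_div_of_nonneg_right _ hp.le
  rw [abs_mul, abs_of_pos hpB]
  have h5 : |(ax B x t : ℝ) - 2 ^ t * y| ≤ 1 := by
    rw [abs_le]; constructor <;> linarith
  nlinarith

end

lemma Kpt_le {U : List Bool →. List Bool} {c : ℚ × ℚ → List Bool} {r : ℕ} {x y : ℝ} {q : ℚ × ℚ}
    (h : √(((q.1 : ℝ) - x) ^ 2 + ((q.2 : ℝ) - y) ^ 2) ≤ (1 / 2) ^ r) :
    Kpt U c r x y ≤ cx U (c q) := Nat.sInf_le ⟨q, h, rfl⟩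

/-- the sums are bounded at points of dimension larger than one -/
lemma sums_bounded {U : List Bool →. List Bool} (hU : OptPFree U) {c : ℚ × ℚ → List Bool}
    (hc : IsCoding c) {g : List ℕ × ℕ × ℕ × ℕ → ℕ → Bool} (hg : Computable₂ g) {B : ℕ} {x y : ℝ}
    (hx : |x| < 2 ^ B) (hy : |y| < 2 ^ B) (hdim : 1 < effdim U c x y) :
    ∃ c₀ : ℕ, ∀ T, FF g B T (ax B x T) (ax B y T) < 2 ^ c₀ * 2 ^ T := by
  classical
  by_contra hcon
  push Not at hcon
  obtain ⟨str, hs⟩ := exists_str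
  have hsym := computable_symm str hs
  set K : ℕ → ℕ := fun n => cx U (str n) with hKd
  have hK : IsKP K := isKP_cx hU str hs
  set w : ℕ → ℕ := fun j => str.symm (c (rat j)) with hwd
  have hw : Computable w := hsym.comp (hc.2.comp c_rep)
  have hKw : ∀ j, K (w j) = cx U (c (rat j)) := by
    intro j
    simp only [hKd, hwd, Equiv.apply_symm_apply]
  -- choose `M`
  obtain ⟨s, hs1, hs2⟩ := EReal.lt_iff_exists_real_btwn.1 hdim
  have hs1' : (1 : ℝ) < s := by exact_mod_cast hs1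
  obtain ⟨M, hM⟩ := exists_nat_gt (3 / (s - 1))
  have hM0 : 0 < M := by
    have : (0 : ℝ) < M := lt_trans (by apply div_pos (by norm_num); linarith) hM
    exact_mod_cast this
  have hMr : (0 : ℝ) < M := by exact_mod_cast hM0
  have hMs : 1 + 3 / (M : ℝ) < s := by
    rw [div_lt_iff₀ (by linarith)] at hM
    have : 3 / (M : ℝ) < s - 1 := by
      rw [div_lt_iff₀ hMr]; linarith
    linarith
  obtain ⟨C, hC⟩ := kol_bound B M (K := K) hK hM0 hg hw
  have hfreq : ∃ᶠ r : ℕ in atTop, (Kpt U c r x y : ℝ) / r ≤ 1 + 3 / M := by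
    rw [frequently_atTop]
    intro R
    -- a large threshold
    set l₀ := R + M * (C + 4 * (B + 2)) + B + 3 with hl₀
    obtain ⟨T, hT⟩ := hcon (3 * l₀ + C + 1)
    set a := ax B x T with ha
    set b := ax B y T with hb
    have hAA : AA g B (3 * l₀ + C + 1) T a b = true :=
      (AA_iff g B).2 ⟨⟨ax_lt hx T, ax_lt hy T⟩, hT⟩
    have hsat : sat (AA g B (3 * l₀ + C + 1)) M T (T - 0) (a / 2 ^ 0) (b / 2 ^ 0) = true := by
      simp only [Nat.sub_zero, pow_zero, Nat.div_one]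
      exact leaf_sat _ M hAA
    -- the top saturated ancestor
    set Q : ℕ → Prop := fun l => l ≤ T ∧ sat (AA g B (3 * l₀ + C + 1)) M T l (a / 2 ^ (T - l))
      (b / 2 ^ (T - l)) = true with hQ
    have hex : ∃ l, Q l := ⟨T, le_rfl, by simpa using hsat⟩
    obtain ⟨l, hl, hmin⟩ : ∃ l, Q l ∧ ∀ l' < l, ¬ Q l' :=
      ⟨Nat.find hex, Nat.find_spec hex, fun l' h => Nat.find_min hex h⟩
    have hal : ax B x l = a / 2 ^ (T - l) := ax_div B x hl.1
    have hbl : ax B y l = b / 2 ^ (T - l) := ax_div B y hl.1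
    have hbound := hC (3 * l₀ + C + 1) l T (ax B x l) (ax B y l) hl.1 (ax_lt hx l) (ax_lt hy l) (by
      rw [hal, hbl]; exact hl.2) (by
      intro j hj
      have h1 := hmin (l - (j + 1)) (by omega)
      rw [hQ] at h1
      simp only [not_and, Bool.not_eq_true] at h1
      have h2 := h1 (by have := hl.1; omega)
      rw [hal, hbl, Nat.div_div_eq_div_mul, Nat.div_div_eq_div_mul, ← pow_add]
      have e : T - (l - (j + 1)) = T - l + (j + 1) := by have := hl.1; omega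
      rwa [e] at h2)
    have hlM : l / M ≤ l := Nat.div_le_self _ _
    have hl1 : l₀ < l := by omega
    refine ⟨l - (B + 2), by omega, ?_⟩
    -- the rational point
    have hnear : √((((rat (jr B l (ax B x l) (ax B y l))).1 : ℝ) - x) ^ 2 +
        (((rat (jr B l (ax B x l) (ax B y l))).2 : ℝ) - y) ^ 2) ≤ (1 / 2) ^ (l - (B + 2)) := by
      rw [rat_jr]
      push_cast
      have h1 := ax_near hx l
      have h2 := ax_near hy l
      set d₁ := 2 ^ (B + 1) * (ax B x l : ℝ) / 2 ^ l - 2 ^ B - x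
      set d₂ := 2 ^ (B + 1) * (ax B y l : ℝ) / 2 ^ l - 2 ^ B - y
      have e : ((1 : ℝ) / 2) ^ (l - (B + 2)) = 2 ^ (B + 1) / 2 ^ l + 2 ^ (B + 1) / 2 ^ l := by
        have h3 : (2 : ℝ) ^ l = 2 ^ (l - (B + 2)) * (2 * 2 ^ (B + 1)) := by
          rw [← pow_succ', ← pow_add]; congr 1; omega
        rw [h3, one_div_pow]
        field_simp
        ring
      rw [e]
      rw [Real.sqrt_le_left (by positivity)]
      have h3 : d₁ ^ 2 ≤ (2 ^ (B + 1) / 2 ^ l) ^ 2 := sq_le_sq' (by linarith [(abs_le.1 h1).1]) (abs_le.1 h1).2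
      have h4 : d₂ ^ 2 ≤ (2 ^ (B + 1) / 2 ^ l) ^ 2 := sq_le_sq' (by linarith [(abs_le.1 h2).1]) (abs_le.1 h2).2
      have h5 : (0 : ℝ) ≤ 2 ^ (B + 1) / 2 ^ l := by positivity
      nlinarith
    have hKle : Kpt U c (l - (B + 2)) x y ≤ l + 2 * (l / M) + C := by
      refine (Kpt_le hnear).trans ?_
      rw [← hKw]
      omega
    have hr0 : (0 : ℝ) < ((l - (B + 2) : ℕ) : ℝ) := by
      have : 0 < l - (B + 2) := by omega
      exact_mod_cast this
    rw [div_le_iff₀ hr0]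
    have h1 : (Kpt U c (l - (B + 2)) x y : ℝ) ≤ l + 2 * ((l / M : ℕ) : ℝ) + C := by
      exact_mod_cast hKle
    have h2 : ((l / M : ℕ) : ℝ) ≤ (l : ℝ) / M := Nat.cast_div_le
    have h3 : ((l - (B + 2) : ℕ) : ℝ) = l - (B + 2) := by
      rw [Nat.cast_sub (by omega)]; push_cast; ring
    have h4 : (M : ℝ) * (C + 4 * (B + 2)) ≤ l := by
      have : M * (C + 4 * (B + 2)) ≤ l := by omega
      exact_mod_cast this
    have h5 : (C : ℝ) + 4 * (B + 2) ≤ l / M := by
      rw [le_div_iff₀ hMr]; linarith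
    rw [h3]
    have h6 : 3 / (M : ℝ) ≤ 3 := by
      rw [div_le_iff₀ hMr]
      have : (1 : ℝ) ≤ M := by exact_mod_cast hM0
      linarith
    have h7 : (1 + 3 / (M : ℝ)) * (l - (B + 2)) = l + 3 * (l / M) - (1 + 3 / M) * (B + 2) := by
      ring
    have h8 : (1 + 3 / (M : ℝ)) * (B + 2) ≤ 4 * (B + 2) := by
      apply mul_le_mul_of_nonneg_right _ (by positivity)
      linarith
    linarith
  have hle : effdim U c x y ≤ ((1 + 3 / M : ℝ) : EReal) := by
    unfold effdim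
    apply liminf_le_of_frequently_le'
    exact hfreq.mono fun r hr => EReal.coe_le_coe_iff.2 hr
  have h1 : (s : EReal) < ((1 + 3 / M : ℝ) : EReal) := lt_of_lt_of_le hs2 hle
  have h2 : s < 1 + 3 / M := EReal.coe_lt_coe_iff.1 h1
  linarith

end Pool.Agent.R557.PJ
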