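import Pool.Agent.R557.PJEnergy
import Pool.Agent.R557.DSCore

set_option autoImplicit false

/-! Squares where the sum is large have small complexity. -/

namespace Pool.Agent.R557.PJ

open Finset
open Pool.Agent.R557.DS
open Pool.Agent.Helper981.KP (USC Kraft IsKP approx_le finite_of_kraft half_pow_le)
open Pool.Agent.R557.CK (c_ite' c_pair)
open Pool.Agent.H166R3.AT (c_add c_mul c_sub c_div c_mod c_pow c_sum c_le c_lt c_eq c_and c_or
  c_not c_count ball ball_iff c_ball bex bex_iff c_bex)

/-- objects enumerated in groups, with general weights -/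
lemma enum_gen {K : ℕ → ℕ} (hK : IsKP K) (ω : ℕ → ℕ) (hω : Computable ω) (W : ℕ)
    (hW : ∀ n, ∑ r ∈ range n, ((1 : ℝ) / 2) ^ ω r ≤ W) (P : ℕ → ℕ → ℕ → Bool)
    (hP : Computable fun q : ℕ × ℕ × ℕ => P q.1 q.2.1 q.2.2) (ℓ : ℕ → ℕ) (hℓ : Computable ℓ)
    (hc : ∀ (r : ℕ) (U : Finset ℕ) (σ : ℕ → ℕ), (∀ u ∈ U, P u r (σ u) = true) →
      U.card ≤ 2 ^ ℓ r) :
    ∃ c : ℕ, ∀ u r st, P u r st = true → K u ≤ ℓ r + ω r + c := by
  classical
  set g : ℕ → ℕ → ℕ := fun u t => if P u t.unpair.1 t.unpair.2 = true then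
    ℓ t.unpair.1 + ω t.unpair.1 + 2 * W else u + 2 with hg
  have hgc : Computable₂ g := by
    have p1 : Computable (fun p : ℕ × ℕ => p.2.unpair.1) :=
      Computable.fst.comp (Computable.unpair.comp Computable.snd)
    have p2 : Computable (fun p : ℕ × ℕ => p.2.unpair.2) :=
      Computable.snd.comp (Computable.unpair.comp Computable.snd)
    refine c_ite' (p := fun q : ℕ × ℕ => P q.1 q.2.unpair.1 q.2.unpair.2 = true) ?_
      (c_add (c_add (hℓ.comp p1) (hω.comp p1)) (Computable.const _))
      (c_add Computable.fst (Computable.const 2))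
    refine (hP.comp (Computable.pair Computable.fst (Computable.pair p1 p2))).of_eq fun q => ?_
    simp
  obtain ⟨c, hc'⟩ := approx_le hK g hgc (by
    intro U τ
    rw [← Finset.sum_filter_add_sum_filter_not U
      (fun u => P u (τ u).unpair.1 (τ u).unpair.2 = true)]
    have h1 : ∑ u ∈ U.filter (fun u => ¬ P u (τ u).unpair.1 (τ u).unpair.2 = true),
        ((1 : ℝ) / 2) ^ (g u (τ u)) ≤ 1 / 2 := by
      have h2 : ∀ u ∈ U.filter (fun u => ¬ P u (τ u).unpair.1 (τ u).unpair.2 = true),
          ((1 : ℝ) / 2) ^ (g u (τ u)) = (1 / 2) ^ (u + 2) := by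
        intro u hu
        simp only [hg, if_neg (mem_filter.1 hu).2]
      rw [Finset.sum_congr rfl h2]
      have h4 : U.filter (fun u => ¬ P u (τ u).unpair.1 (τ u).unpair.2 = true) ⊆
          range (U.sup id + 1) := by
        intro u hu
        rw [mem_range]
        have := Finset.le_sup (f := id) (mem_filter.1 hu).1
        simp only [id] at this
        omega
      refine (Finset.sum_le_sum_of_subset_of_nonneg h4 (fun _ _ _ => by positivity)).trans ?_
      have h5 := sum_geometric_two_le (U.sup id + 1)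
      calc ∑ u ∈ range (U.sup id + 1), ((1 : ℝ) / 2) ^ (u + 2) =
          (1 / 4) * ∑ u ∈ range (U.sup id + 1), ((1 : ℝ) / 2) ^ u := by
            rw [Finset.mul_sum]
            apply Finset.sum_congr rfl
            intro u _
            rw [pow_add]; ring
        _ ≤ 1 / 2 := by linarith
    have h2 : ∑ u ∈ U.filter (fun u => P u (τ u).unpair.1 (τ u).unpair.2 = true),
        ((1 : ℝ) / 2) ^ (g u (τ u)) ≤ 1 / 2 := by
      set R := U.sup (fun u => (τ u).unpair.1) + 1 with hR
      have hmaps : ∀ u ∈ U.filter (fun u => P u (τ u).unpair.1 (τ u).unpair.2 = true),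
          (τ u).unpair.1 ∈ range R := by
        intro u hu
        rw [mem_range, hR]
        exact Nat.lt_succ_of_le (Finset.le_sup (f := fun u => (τ u).unpair.1) (mem_filter.1 hu).1)
      rw [← Finset.sum_fiberwise_of_maps_to hmaps]
      have h3 : ∀ r ∈ range R, ∑ u ∈ (U.filter
          (fun u => P u (τ u).unpair.1 (τ u).unpair.2 = true)).filter
          (fun u => (τ u).unpair.1 = r), ((1 : ℝ) / 2) ^ (g u (τ u)) ≤
            (1 / 2) ^ (2 * W) * (1 / 2) ^ ω r := by
        intro r _
        have h4 : ∀ u ∈ (U.filter (fun u => P u (τ u).unpair.1 (τ u).unpair.2 = true)).filter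
            (fun u => (τ u).unpair.1 = r), ((1 : ℝ) / 2) ^ (g u (τ u)) =
              (1 / 2) ^ (ℓ r + ω r + 2 * W) := by
          intro u hu
          rw [mem_filter, mem_filter] at hu
          simp only [hg, if_pos hu.1.2, hu.2]
        rw [Finset.sum_congr rfl h4, Finset.sum_const, nsmul_eq_mul]
        have h5 := hc r ((U.filter (fun u => P u (τ u).unpair.1 (τ u).unpair.2 = true)).filter
            (fun u => (τ u).unpair.1 = r)) (fun u => (τ u).unpair.2) (by
              intro u hu
              rw [mem_filter, mem_filter] at hu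
              have := hu.1.2
              rwa [hu.2] at this)
        have h6 : ((((U.filter (fun u => P u (τ u).unpair.1 (τ u).unpair.2 = true)).filter
            (fun u => (τ u).unpair.1 = r)).card : ℕ) : ℝ) ≤ 2 ^ ℓ r := by exact_mod_cast h5
        have h7 : (2 : ℝ) ^ ℓ r * (1 / 2) ^ ℓ r = 1 := by rw [← mul_pow]; norm_num
        calc _ ≤ (2 : ℝ) ^ ℓ r * (1 / 2) ^ (ℓ r + ω r + 2 * W) :=
              mul_le_mul_of_nonneg_right h6 (by positivity)
          _ = (2 ^ ℓ r * (1 / 2) ^ ℓ r) * ((1 / 2) ^ (2 * W) * (1 / 2) ^ ω r) := by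
              rw [pow_add, pow_add]; ring
          _ = _ := by rw [h7, one_mul]
      refine (Finset.sum_le_sum h3).trans ?_
      rw [← Finset.mul_sum]
      have h4 := hW R
      have h5 : ((2 * W : ℕ) : ℝ) ≤ 2 ^ (2 * W) := by
        exact_mod_cast (Nat.lt_two_pow_self (n := 2 * W)).le
      have h6 : (2 : ℝ) ^ (2 * W) * (1 / 2) ^ (2 * W) = 1 := by rw [← mul_pow]; norm_num
      have h7 : (0 : ℝ) ≤ (1 / 2) ^ (2 * W) := by positivity
      push_cast at h5
      calc ((1 : ℝ) / 2) ^ (2 * W) * ∑ r ∈ range R, ((1 : ℝ) / 2) ^ ω r ≤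
          (1 / 2) ^ (2 * W) * W := mul_le_mul_of_nonneg_left h4 h7
        _ ≤ 1 / 2 := by nlinarith
    linarith)
  refine ⟨2 * W + c, fun u r st h => ?_⟩
  have h1 := hc' u (Nat.pair r st)
  simp only [hg, Nat.unpair_pair, h, if_true] at h1
  omega

/-- the code of the corner of a square -/
def jr (B l a b : ℕ) : ℕ := Encodable.encode
  (((((2 ^ (B + 1) * a : ℕ) : ℤ) - ((2 ^ B * 2 ^ l : ℕ) : ℤ), 2 ^ l - 1),
    (((2 ^ (B + 1) * b : ℕ) : ℤ) - ((2 ^ B * 2 ^ l : ℕ) : ℤ), 2 ^ l - 1)) : (ℤ × ℕ) × (ℤ × ℕ))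

lemma rat_jr (B l a b : ℕ) : rat (jr B l a b) =
    ((2 ^ (B + 1) * a / 2 ^ l - 2 ^ B : ℚ), (2 ^ (B + 1) * b / 2 ^ l - 2 ^ B : ℚ)) := by
  unfold rat jr
  rw [rep_encode]
  unfold valF
  have h1 : (1 : ℕ) ≤ 2 ^ l := Nat.one_le_two_pow
  have h2 : (2 : ℚ) ^ l ≠ 0 := by positivity
  simp only [Prod.mk.injEq]
  constructor
  · push_cast [Nat.cast_sub h1]
    rw [sub_add_cancel, sub_div, mul_div_assoc (2 ^ B : ℚ), div_self h2, mul_one]
  · push_cast [Nat.cast_sub h1]
    rw [sub_add_cancel, sub_div, mul_div_assoc (2 ^ B : ℚ), div_self h2, mul_one]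

lemma c_jr {α : Type*} [Primcodable α] (B : ℕ) {l a b : α → ℕ} (hl : Computable l)
    (ha : Computable a) (hb : Computable b) : Computable fun x => jr B (l x) (a x) (b x) := by
  unfold jr
  have h2 : Computable fun x => 2 ^ l x := c_pow (Computable.const 2) hl
  have h3 : Computable fun x => 2 ^ B * 2 ^ l x := c_mul (Computable.const _) h2
  have h4 : Computable fun x => 2 ^ l x - 1 := c_sub h2 (Computable.const 1)
  exact Computable.encode.comp (Computable.pair
    (Computable.pair (z_sub' (c_mul (Computable.const _) ha) h3) h4)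
    (Computable.pair (z_sub' (c_mul (Computable.const _) hb) h3) h4))

/-! ### the content is computable -/

section table
variable (A : ℕ → ℕ → ℕ → Bool) (M : ℕ)

/-- the table of contents of the squares of level `t - h` -/
def tab (t : ℕ) : ℕ → List ℕ
  | 0 => (List.range (2 ^ t * 2 ^ t)).map fun c =>
      if A t (c / 2 ^ t) (c % 2 ^ t) = true then 1 else 0
  | h + 1 => (List.range (2 ^ (t - (h + 1)) * 2 ^ (t - (h + 1)))).map fun c =>
      min (2 ^ (ww M t - ww M (t - (h + 1))))
        (∑ r ∈ range 4, (tab t h).getD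
          ((2 * (c / 2 ^ (t - (h + 1))) + r / 2) * 2 ^ (t - h) +
            (2 * (c % 2 ^ (t - (h + 1))) + r % 2)) 0)

lemma index_lt {n a b : ℕ} (ha : a < n) (hb : b < n) : a * n + b < n * n := by
  have : (a + 1) * n ≤ n * n := Nat.mul_le_mul_right n ha
  have e : (a + 1) * n = a * n + n := by ring
  omega

lemma tab_eq (t h : ℕ) : h ≤ t → ∀ a b, a < 2 ^ (t - h) → b < 2 ^ (t - h) →
    (tab A M t h).getD (a * 2 ^ (t - h) + b) 0 = ct A M t h a b := by
  induction h with
  | zero =>
    intro _ a b ha hb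
    rw [Nat.sub_zero] at ha hb ⊢
    unfold tab ct
    have hlt := index_lt ha hb
    rw [List.getD_eq_getElem _ _ (by simpa using hlt)]
    simp only [List.getElem_map, List.getElem_range]
    have e1 : (a * 2 ^ t + b) / 2 ^ t = a := by
      rw [mul_comm, Nat.mul_add_div (by positivity), Nat.div_eq_of_lt hb, add_zero]
    have e2 : (a * 2 ^ t + b) % 2 ^ t = b := by
      rw [mul_comm, Nat.mul_add_mod, Nat.mod_eq_of_lt hb]
    rw [e1, e2]
  | succ h ih =>
    intro hh a b ha hb
    unfold tab ct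
    have hlt := index_lt ha hb
    rw [List.getD_eq_getElem _ _ (by simpa using hlt)]
    simp only [List.getElem_map, List.getElem_range]
    have e1 : (a * 2 ^ (t - (h + 1)) + b) / 2 ^ (t - (h + 1)) = a := by
      rw [mul_comm, Nat.mul_add_div (by positivity), Nat.div_eq_of_lt hb, add_zero]
    have e2 : (a * 2 ^ (t - (h + 1)) + b) % 2 ^ (t - (h + 1)) = b := by
      rw [mul_comm, Nat.mul_add_mod, Nat.mod_eq_of_lt hb]
    rw [e1, e2]
    congr 1
    apply Finset.sum_congr rfl
    intro r hr
    rw [mem_range] at hr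
    have e3 : 2 ^ (t - h) = 2 * 2 ^ (t - (h + 1)) := by
      have : t - h = (t - (h + 1)) + 1 := by omega
      rw [this, pow_succ]; ring
    exact ih (by omega) _ _ (by omega) (by omega)

end table

lemma c_ww {α : Type*} [Primcodable α] (M : ℕ) {l : α → ℕ} (hl : Computable l) :
    Computable fun x => ww M (l x) := c_add hl (c_div hl (Computable.const M))

lemma c_tab {α : Type*} [Primcodable α] (A : α → ℕ → ℕ → ℕ → Bool) (M : ℕ)
    (hA : Computable fun q : α × ℕ × ℕ × ℕ => A q.1 q.2.1 q.2.2.1 q.2.2.2) {t h : α → ℕ}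
    (ht : Computable t) (hh : Computable h) : Computable fun x => tab (A x) M (t x) (h x) := by
  have c2t : Computable fun x => 2 ^ t x := c_pow (Computable.const 2) ht
  have h0 : Computable fun x => (List.range (2 ^ t x * 2 ^ t x)).map fun c =>
      if A x (t x) (c / 2 ^ t x) (c % 2 ^ t x) = true then 1 else 0 := by
    refine c_map (n := fun x => 2 ^ t x * 2 ^ t x) (f := fun x c =>
      if A x (t x) (c / 2 ^ t x) (c % 2 ^ t x) = true then 1 else 0) (c_mul c2t c2t) ?_
    refine c_ite' (p := fun p : α × ℕ => A p.1 (t p.1) (p.2 / 2 ^ t p.1) (p.2 % 2 ^ t p.1) = true)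
      ?_ (Computable.const 1) (Computable.const 0)
    refine (hA.comp (Computable.pair Computable.fst (Computable.pair (ht.comp Computable.fst)
      (Computable.pair (c_div Computable.snd (c2t.comp Computable.fst))
        (c_mod Computable.snd (c2t.comp Computable.fst)))))).of_eq fun q => ?_
    simp
  have hrec := Computable.nat_rec (f := h) (g := fun x => (List.range (2 ^ t x * 2 ^ t x)).map fun c =>
      if A x (t x) (c / 2 ^ t x) (c % 2 ^ t x) = true then 1 else 0)
    (h := fun x (q : ℕ × List ℕ) => (List.range (2 ^ (t x - (q.1 + 1)) * 2 ^ (t x - (q.1 + 1)))).map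
      fun c => min (2 ^ (ww M (t x) - ww M (t x - (q.1 + 1))))
        (∑ r ∈ range 4, q.2.getD
          ((2 * (c / 2 ^ (t x - (q.1 + 1))) + r / 2) * 2 ^ (t x - q.1) +
            (2 * (c % 2 ^ (t x - (q.1 + 1))) + r % 2)) 0)) hh h0 (by
      have cx : Computable fun p : α × ℕ × List ℕ => t p.1 := ht.comp Computable.fst
      have ch : Computable fun p : α × ℕ × List ℕ => p.2.1 := Computable.fst.comp Computable.snd
      have cl : Computable fun p : α × ℕ × List ℕ => p.2.2 := Computable.snd.comp Computable.snd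
      have c1 : Computable fun p : α × ℕ × List ℕ => t p.1 - (p.2.1 + 1) :=
        c_sub cx (c_add ch (Computable.const 1))
      have c2 : Computable fun p : α × ℕ × List ℕ => 2 ^ (t p.1 - (p.2.1 + 1)) :=
        c_pow (Computable.const 2) c1
      refine c_map (n := fun p : α × ℕ × List ℕ => 2 ^ (t p.1 - (p.2.1 + 1)) *
        2 ^ (t p.1 - (p.2.1 + 1))) (f := fun p c => min (2 ^ (ww M (t p.1) -
          ww M (t p.1 - (p.2.1 + 1)))) (∑ r ∈ range 4, p.2.2.getD
          ((2 * (c / 2 ^ (t p.1 - (p.2.1 + 1))) + r / 2) * 2 ^ (t p.1 - p.2.1) +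
            (2 * (c % 2 ^ (t p.1 - (p.2.1 + 1))) + r % 2)) 0)) (c_mul c2 c2) ?_
      refine (Primrec.nat_min.to_comp).comp ?_ ?_
      · exact (c_pow (Computable.const 2) (c_sub (c_ww M cx) (c_ww M c1))).comp Computable.fst
      · refine c_sum (α := (α × ℕ × List ℕ) × ℕ) (n := fun _ => 4) (f := fun p r => p.1.2.2.getD
          ((2 * (p.2 / 2 ^ (t p.1.1 - (p.1.2.1 + 1))) + r / 2) * 2 ^ (t p.1.1 - p.1.2.1) +
            (2 * (p.2 % 2 ^ (t p.1.1 - (p.1.2.1 + 1))) + r % 2)) 0) (Computable.const 4) ?_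
        have hg : Primrec₂ (fun (l : List ℕ) (i : ℕ) => l.getD i 0) := Primrec.list_getD 0
        have f1 : Computable fun p : ((α × ℕ × List ℕ) × ℕ) × ℕ => p.1.1 :=
          Computable.fst.comp Computable.fst
        have fc : Computable fun p : ((α × ℕ × List ℕ) × ℕ) × ℕ => p.1.2 :=
          Computable.snd.comp Computable.fst
        have fr : Computable fun p : ((α × ℕ × List ℕ) × ℕ) × ℕ => p.2 := Computable.snd
        refine hg.to_comp.comp (cl.comp f1) ?_
        have c3 : Computable fun p : α × ℕ × List ℕ => 2 ^ (t p.1 - p.2.1) :=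
          c_pow (Computable.const 2) (c_sub cx ch)
        exact c_add (c_mul (c_add (c_mul (Computable.const 2) (c_div fc (c2.comp f1)))
          (c_div fr (Computable.const 2))) (c3.comp f1))
          (c_add (c_mul (Computable.const 2) (c_mod fc (c2.comp f1)))
            (c_mod fr (Computable.const 2))))
  refine hrec.of_eq fun x => ?_
  induction h x with
  | zero => rfl
  | succ m ih => simp only at ih ⊢; rw [ih]; rfl

end Pool.Agent.R557.PJ
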