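import Pool.Agent.R557.PJKol

set_option autoImplicit false

/-! The complexity bound for squares where the sum is large. -/

namespace Pool.Agent.R557.PJ

open Finset
open Pool.Agent.R557.DS
open Pool.Agent.Helper981.KP (USC Kraft IsKP approx_le finite_of_kraft half_pow_le)
open Pool.Agent.H166R3.AT (c_add c_mul c_sub c_div c_mod c_pow c_sum c_le c_lt c_eq c_and c_or
  c_not c_count ball ball_iff c_ball bex bex_iff c_bex)

/-- saturation, computed from the table -/
def satT (A : ℕ → ℕ → ℕ → Bool) (M T l a b : ℕ) : Bool :=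
  decide ((tab A M T (T - l)).getD (a * 2 ^ l + b) 0 = 2 ^ (ww M T - ww M l))

lemma satT_eq (A : ℕ → ℕ → ℕ → Bool) (M : ℕ) {T l a b : ℕ} (hl : l ≤ T) (ha : a < 2 ^ l)
    (hb : b < 2 ^ l) : satT A M T l a b = sat A M T l a b := by
  unfold satT sat
  have e : T - (T - l) = l := Nat.sub_sub_self hl
  have h := tab_eq A M T (T - l) (by omega) a b (by rw [e]; exact ha) (by rw [e]; exact hb)
  rw [e] at h
  rw [h]

section
variable (g : List ℕ × ℕ × ℕ × ℕ → ℕ → Bool) (B M : ℕ) (w : ℕ → ℕ)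

/-- the enumeration of squares -/
def Pd (u r st : ℕ) : Bool :=
  (((decide (u = w (jr B r.unpair.2 st.unpair.2.unpair.1 st.unpair.2.unpair.2)) &&
    decide (r.unpair.2 ≤ st.unpair.1)) && (decide (st.unpair.2.unpair.1 < 2 ^ r.unpair.2) &&
    decide (st.unpair.2.unpair.2 < 2 ^ r.unpair.2))) &&
    satT (AA g B r.unpair.1) M st.unpair.1 r.unpair.2 st.unpair.2.unpair.1 st.unpair.2.unpair.2) &&
    ball r.unpair.2 (fun j => !satT (AA g B r.unpair.1) M st.unpair.1 (r.unpair.2 - (j + 1))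
      (st.unpair.2.unpair.1 / 2 ^ (j + 1)) (st.unpair.2.unpair.2 / 2 ^ (j + 1)))

lemma Pd_iff {u c l T a b : ℕ} : Pd g B M w u (Nat.pair c l) (Nat.pair T (Nat.pair a b)) = true ↔
    u = w (jr B l a b) ∧ l ≤ T ∧ a < 2 ^ l ∧ b < 2 ^ l ∧ sat (AA g B c) M T l a b = true ∧
      ∀ j < l, sat (AA g B c) M T (l - (j + 1)) (a / 2 ^ (j + 1)) (b / 2 ^ (j + 1)) = false := by
  unfold Pd
  simp only [Nat.unpair_pair, Bool.and_eq_true, decide_eq_true_eq, ball_iff, Bool.not_eq_true']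
  have hdiv : ∀ x j, x < 2 ^ l → j < l → x / 2 ^ (j + 1) < 2 ^ (l - (j + 1)) := by
    intro x j hx hj
    rw [Nat.div_lt_iff_lt_mul (by positivity), ← pow_add]
    have : l - (j + 1) + (j + 1) = l := by omega
    rwa [this]
  constructor
  · rintro ⟨⟨⟨⟨h1, h2⟩, h3, h4⟩, h5⟩, h6⟩
    refine ⟨h1, h2, h3, h4, ?_, fun j hj => ?_⟩
    · rwa [satT_eq _ _ h2 h3 h4] at h5
    · have := h6 j hj
      rwa [satT_eq _ _ (by omega) (hdiv a j h3 hj) (hdiv b j h4 hj)] at this
  · rintro ⟨h1, h2, h3, h4, h5, h6⟩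
    refine ⟨⟨⟨⟨h1, h2⟩, h3, h4⟩, ?_⟩, fun j hj => ?_⟩
    · rwa [satT_eq _ _ h2 h3 h4]
    · rw [satT_eq _ _ (by omega) (hdiv a j h3 hj) (hdiv b j h4 hj)]
      exact h6 j hj

variable {g w}

lemma c_satT (hg : Computable₂ g) {α : Type*} [Primcodable α] {c T l a b : α → ℕ}
    (hc : Computable c) (hT : Computable T) (hl : Computable l) (ha : Computable a)
    (hb : Computable b) : Computable fun x => satT (AA g B (c x)) M (T x) (l x) (a x) (b x) := by
  unfold satT
  have hgd : Primrec₂ (fun (l : List ℕ) (i : ℕ) => l.getD i 0) := Primrec.list_getD 0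
  have hA : Computable fun q : α × ℕ × ℕ × ℕ => AA g B (c q.1) q.2.1 q.2.2.1 q.2.2.2 :=
    c_AA B hg (hc.comp Computable.fst) (Computable.fst.comp Computable.snd)
      (Computable.fst.comp (Computable.snd.comp Computable.snd))
      (Computable.snd.comp (Computable.snd.comp Computable.snd))
  refine c_eq (hgd.to_comp.comp (c_tab (fun x => AA g B (c x)) M hA hT (c_sub hT hl)) ?_) ?_
  · exact c_add (c_mul ha (c_pow (Computable.const 2) hl)) hb
  · exact c_pow (Computable.const 2) (c_sub (c_ww M hT) (c_ww M hl))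

lemma c_Pd (hg : Computable₂ g) (hw : Computable w) :
    Computable fun q : ℕ × ℕ × ℕ => Pd g B M w q.1 q.2.1 q.2.2 := by
  unfold Pd
  have cr : Computable fun q : ℕ × ℕ × ℕ => q.2.1 := Computable.fst.comp Computable.snd
  have cs : Computable fun q : ℕ × ℕ × ℕ => q.2.2 := Computable.snd.comp Computable.snd
  have cc : Computable fun q : ℕ × ℕ × ℕ => q.2.1.unpair.1 :=
    Computable.fst.comp (Computable.unpair.comp cr)
  have cl : Computable fun q : ℕ × ℕ × ℕ => q.2.1.unpair.2 :=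
    Computable.snd.comp (Computable.unpair.comp cr)
  have cT : Computable fun q : ℕ × ℕ × ℕ => q.2.2.unpair.1 :=
    Computable.fst.comp (Computable.unpair.comp cs)
  have c2 : Computable fun q : ℕ × ℕ × ℕ => q.2.2.unpair.2 :=
    Computable.snd.comp (Computable.unpair.comp cs)
  have ca : Computable fun q : ℕ × ℕ × ℕ => q.2.2.unpair.2.unpair.1 :=
    Computable.fst.comp (Computable.unpair.comp c2)
  have cb : Computable fun q : ℕ × ℕ × ℕ => q.2.2.unpair.2.unpair.2 :=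
    Computable.snd.comp (Computable.unpair.comp c2)
  have cp : Computable fun q : ℕ × ℕ × ℕ => 2 ^ q.2.1.unpair.2 := c_pow (Computable.const 2) cl
  refine c_and (c_and (c_and (c_and (c_eq Computable.fst (hw.comp (c_jr B cl ca cb)))
    (c_le cl cT)) (c_and (c_lt ca cp) (c_lt cb cp))) (c_satT B M hg cc cT cl ca cb)) ?_
  refine c_ball (n := fun q : ℕ × ℕ × ℕ => q.2.1.unpair.2) (f := fun q j =>
    !satT (AA g B q.2.1.unpair.1) M q.2.2.unpair.1 (q.2.1.unpair.2 - (j + 1))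
      (q.2.2.unpair.2.unpair.1 / 2 ^ (j + 1)) (q.2.2.unpair.2.unpair.2 / 2 ^ (j + 1))) cl ?_
  have cj : Computable fun p : (ℕ × ℕ × ℕ) × ℕ => p.2 + 1 :=
    c_add Computable.snd (Computable.const 1)
  have cj2 : Computable fun p : (ℕ × ℕ × ℕ) × ℕ => 2 ^ (p.2 + 1) := c_pow (Computable.const 2) cj
  exact c_not (c_satT B M hg (cc.comp Computable.fst) (cT.comp Computable.fst)
    (c_sub (cl.comp Computable.fst) cj) (c_div (ca.comp Computable.fst) cj2)
    (c_div (cb.comp Computable.fst) cj2))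

lemma wt_sum (hM : 0 < M) (n : ℕ) :
    ∑ r ∈ range n, ((1 : ℝ) / 2) ^ (r.unpair.1 + r.unpair.2 / M) ≤ ((4 * M : ℕ) : ℝ) := by
  classical
  have h1 : ∑ r ∈ range n, ((1 : ℝ) / 2) ^ (r.unpair.1 + r.unpair.2 / M) =
      ∑ p ∈ (range n).image Nat.unpair, ((1 : ℝ) / 2) ^ (p.1 + p.2 / M) := by
    rw [Finset.sum_image]
    intro x _ y _ h
    have := congrArg (fun q : ℕ × ℕ => Nat.pair q.1 q.2) h
    simpa using this
  rw [h1]
  have h2 : (range n).image Nat.unpair ⊆ range n ×ˢ range n := by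
    intro p hp
    rw [mem_image] at hp
    obtain ⟨r, hr, rfl⟩ := hp
    rw [mem_range] at hr
    rw [mem_product, mem_range, mem_range]
    exact ⟨lt_of_le_of_lt (Nat.unpair_left_le r) hr, lt_of_le_of_lt (Nat.unpair_right_le r) hr⟩
  refine (Finset.sum_le_sum_of_subset_of_nonneg h2 (fun _ _ _ => by positivity)).trans ?_
  rw [Finset.sum_product]
  have h3 : ∀ c ∈ range n, ∑ l ∈ range n, ((1 : ℝ) / 2) ^ (c + l / M) ≤ (1 / 2) ^ c * (2 * M) := by
    intro c _
    have h4 : ∑ l ∈ range n, ((1 : ℝ) / 2) ^ (c + l / M) =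
        (1 / 2) ^ c * ∑ l ∈ range n, ((1 : ℝ) / 2) ^ (l / M) := by
      rw [Finset.mul_sum]
      apply Finset.sum_congr rfl
      intro l _
      rw [pow_add]
    rw [h4]
    exact mul_le_mul_of_nonneg_left (sum_wt M hM n) (by positivity)
  refine (Finset.sum_le_sum h3).trans ?_
  rw [← Finset.sum_mul]
  have h4 := sum_geometric_two_le n
  push_cast
  have h5 : (0 : ℝ) ≤ 2 * M := by positivity
  calc (∑ i ∈ range n, ((1 : ℝ) / 2) ^ i) * (2 * M) ≤ 2 * (2 * M) :=
        mul_le_mul_of_nonneg_right h4 h5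
    _ = _ := by ring

/-- the complexity bound -/
lemma kol_bound {K : ℕ → ℕ} (hK : IsKP K) (hM : 0 < M) (hg : Computable₂ g) (hw : Computable w) :
    ∃ C : ℕ, ∀ c l T a b, l ≤ T → a < 2 ^ l → b < 2 ^ l → sat (AA g B c) M T l a b = true →
      (∀ j < l, sat (AA g B c) M T (l - (j + 1)) (a / 2 ^ (j + 1)) (b / 2 ^ (j + 1)) = false) →
      K (w (jr B l a b)) + c ≤ l + 2 * (l / M) + C := by
  classical
  have hmonoA : ∀ c : ℕ, ∀ t a b, a < 2 ^ (t + 1) → b < 2 ^ (t + 1) →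
      AA g B c t (a / 2) (b / 2) = true → AA g B c (t + 1) a b = true :=
    fun c t a b ha hb h => AA_mono g B ha hb h
  have hbd : ∀ c : ℕ, ∀ t a b, AA g B c t a b = true → a < 2 ^ t ∧ b < 2 ^ t :=
    fun c t a b h => ((AA_iff g B).1 h).1
  -- the constant
  set C₁ : ℕ := 6912 * M * 2 ^ (B + 10) with hC₁
  have hcount : ∀ (r : ℕ) (U : Finset ℕ) (σ : ℕ → ℕ), (∀ u ∈ U, Pd g B M w u r (σ u) = true) →
      (U.card : ℝ) * (1 / 2) ^ ww M r.unpair.2 ≤ C₁ * (1 / 4) ^ r.unpair.1 := by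
    intro r U σ hU
    set c := r.unpair.1 with hc
    set l := r.unpair.2 with hl
    have hr : r = Nat.pair c l := (Nat.pair_unpair r).symm
    set T : ℕ → ℕ := fun u => (σ u).unpair.1 with hT
    set a : ℕ → ℕ := fun u => (σ u).unpair.2.unpair.1 with ha
    set b : ℕ → ℕ := fun u => (σ u).unpair.2.unpair.2 with hb
    have hσ : ∀ u, σ u = Nat.pair (T u) (Nat.pair (a u) (b u)) := by
      intro u; simp [hT, ha, hb]
    have hP : ∀ u ∈ U, u = w (jr B l (a u) (b u)) ∧ l ≤ T u ∧ a u < 2 ^ l ∧ b u < 2 ^ l ∧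
        sat (AA g B c) M (T u) l (a u) (b u) = true ∧
        ∀ j < l, sat (AA g B c) M (T u) (l - (j + 1)) (a u / 2 ^ (j + 1)) (b u / 2 ^ (j + 1)) =
          false := by
      intro u hu
      have h1 := hU u hu
      rw [hr, hσ u] at h1
      exact (Pd_iff g B M w).1 h1
    set S : Finset (ℕ × ℕ) := U.image (fun u => (a u, b u)) with hS
    have hinj : Set.InjOn (fun u => (a u, b u)) (U : Set ℕ) := by
      intro u hu v hv h
      simp only [Prod.mk.injEq] at h
      rw [(hP u hu).1, (hP v hv).1, h.1, h.2]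
    have hSc : S.card = U.card := Finset.card_image_of_injOn hinj
    set τ : ℕ × ℕ → ℕ := fun R => T (w (jr B l R.1 R.2)) with hτ
    set Tm := U.sup T + l with hTm
    have h1 := count_sat (AA g B c) M (hmonoA c) (hbd c) hM l l le_rfl Tm 0 0 S τ (by omega) (by
      intro R hR
      rw [hS, mem_image] at hR
      obtain ⟨u, hu, rfl⟩ := hR
      obtain ⟨k1, k2, k3, k4, k5, k6⟩ := hP u hu
      have hτu : τ (a u, b u) = T u := by
        simp only [hτ]
        rw [← k1]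
      simp only
      rw [hτu]
      refine ⟨Nat.div_eq_of_lt k3, Nat.div_eq_of_lt k4, k2, ?_, k5, k6⟩
      have := Finset.le_sup (f := T) hu
      omega)
    rw [hSc, Nat.sub_self] at h1
    refine h1.trans ?_
    have h2 := content_le g B c M hM Tm
    refine h2.trans (le_of_eq ?_)
    rw [hC₁]
    push_cast
    ring
  obtain ⟨C, hC⟩ := enum_gen hK (fun r => r.unpair.1 + r.unpair.2 / M)
    (c_add (Computable.fst.comp Computable.unpair)
      (c_div (Computable.snd.comp Computable.unpair) (Computable.const M))) (4 * M)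
    (wt_sum M hM) (Pd g B M w) (c_Pd B M hg hw)
    (fun r => C₁ + ww M r.unpair.2 - 2 * r.unpair.1)
    (c_sub (c_add (Computable.const C₁) (c_ww M (Computable.snd.comp Computable.unpair)))
      (c_mul (Computable.const 2) (Computable.fst.comp Computable.unpair))) (by
      intro r U σ hU
      have h1 := hcount r U σ hU
      have h2 : ((2 : ℝ)) ^ ww M r.unpair.2 * (1 / 2) ^ ww M r.unpair.2 = 1 := by
        rw [← mul_pow]; norm_num
      have h3 : (C₁ : ℝ) ≤ 2 ^ C₁ := by exact_mod_cast (Nat.lt_two_pow_self).le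
      have h4 : ((4 : ℝ)) ^ r.unpair.1 * (1 / 4) ^ r.unpair.1 = 1 := by
        rw [← mul_pow]; norm_num
      have h5 : (U.card : ℝ) * 4 ^ r.unpair.1 ≤ 2 ^ C₁ * 2 ^ ww M r.unpair.2 := by
        calc (U.card : ℝ) * 4 ^ r.unpair.1 = ((U.card : ℝ) * (1 / 2) ^ ww M r.unpair.2) *
              (2 ^ ww M r.unpair.2 * 4 ^ r.unpair.1) := by
                linear_combination (-(U.card : ℝ) * 4 ^ r.unpair.1) * h2
          _ ≤ (C₁ * (1 / 4) ^ r.unpair.1) * (2 ^ ww M r.unpair.2 * 4 ^ r.unpair.1) :=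
              mul_le_mul_of_nonneg_right h1 (by positivity)
          _ = C₁ * 2 ^ ww M r.unpair.2 := by
              linear_combination (C₁ * 2 ^ ww M r.unpair.2 : ℝ) * h4
          _ ≤ 2 ^ C₁ * 2 ^ ww M r.unpair.2 := mul_le_mul_of_nonneg_right h3 (by positivity)
      have h6 : U.card * 4 ^ r.unpair.1 ≤ 2 ^ C₁ * 2 ^ ww M r.unpair.2 := by exact_mod_cast h5
      rcases Nat.eq_zero_or_pos U.card with h0 | h0
      · rw [h0]; positivity
      have h7 : 4 ^ r.unpair.1 = 2 ^ (2 * r.unpair.1) := by rw [pow_mul]; norm_num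
      rw [h7, ← pow_add] at h6
      have h8 : 2 ^ (2 * r.unpair.1) ≤ 2 ^ (C₁ + ww M r.unpair.2) :=
        (Nat.le_mul_of_pos_left _ h0).trans h6
      have h9 : 2 * r.unpair.1 ≤ C₁ + ww M r.unpair.2 :=
        (Nat.pow_le_pow_iff_right (by norm_num)).1 h8
      have h10 : 2 ^ (C₁ + ww M r.unpair.2) = 2 ^ (C₁ + ww M r.unpair.2 - 2 * r.unpair.1) *
          2 ^ (2 * r.unpair.1) := by
        rw [← pow_add]; congr 1; omega
      rw [h10] at h6
      exact Nat.le_of_mul_le_mul_right h6 (by positivity))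
  refine ⟨C₁ + C, fun c l T a b hlT ha hb hs hns => ?_⟩
  have hPd : Pd g B M w (w (jr B l a b)) (Nat.pair c l) (Nat.pair T (Nat.pair a b)) = true :=
    (Pd_iff g B M w).2 ⟨rfl, hlT, ha, hb, hs, hns⟩
  have h1 := hC _ _ _ hPd
  simp only [Nat.unpair_pair] at h1
  -- the difference is not truncated
  have h2 := hcount (Nat.pair c l) {w (jr B l a b)} (fun _ => Nat.pair T (Nat.pair a b)) (by
    intro u hu
    rw [mem_singleton] at hu
    rw [hu]; exact hPd)
  rw [card_singleton, Nat.cast_one, one_mul, Nat.unpair_pair] at h2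
  simp only at h2
  have h3 : 2 * c ≤ C₁ + ww M l := by
    have h4 : (C₁ : ℝ) ≤ 2 ^ C₁ := by exact_mod_cast (Nat.lt_two_pow_self).le
    have h5 : ((1 : ℝ) / 4) ^ c = (1 / 2) ^ (2 * c) := by rw [pow_mul]; norm_num
    have h6 : ((1 : ℝ) / 2) ^ ww M l ≤ 2 ^ C₁ * (1 / 2) ^ (2 * c) := by
      rw [← h5]
      exact h2.trans (mul_le_mul_of_nonneg_right h4 (by positivity))
    by_contra hlt
    push Not at hlt
    have h7 : ((1 : ℝ) / 2) ^ (2 * c) ≤ (1 / 2) ^ (C₁ + ww M l + 1) :=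
      pow_le_pow_of_le_one (by norm_num) (by norm_num) hlt
    have h8 : (2 : ℝ) ^ C₁ * (1 / 2) ^ (C₁ + ww M l + 1) = (1 / 2) ^ ww M l * (1 / 2) := by
      have h9 : (2 : ℝ) ^ C₁ * (1 / 2) ^ C₁ = 1 := by rw [← mul_pow]; norm_num
      rw [pow_add, pow_add, pow_one]
      calc (2 : ℝ) ^ C₁ * ((1 / 2) ^ C₁ * (1 / 2) ^ ww M l * (1 / 2)) =
          (2 ^ C₁ * (1 / 2) ^ C₁) * ((1 / 2) ^ ww M l * (1 / 2)) := by ring
        _ = _ := by rw [h9, one_mul]
    have h10 : (2 : ℝ) ^ C₁ * (1 / 2) ^ (2 * c) ≤ 2 ^ C₁ * (1 / 2) ^ (C₁ + ww M l + 1) :=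
      mul_le_mul_of_nonneg_left h7 (by positivity)
    have h11 : (0 : ℝ) < (1 / 2) ^ ww M l := by positivity
    linarith
  have h4 : ww M l = l + l / M := rfl
  omega

end

end Pool.Agent.R557.PJ
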