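import Pool.Agent.R557.PJFin

set_option autoImplicit false

/-! Randomness of the direction bounds the number of tests passed. -/

namespace Pool.Agent.R557.PJ

open Finset Real MeasureTheory Filter
open Pool.Agent.R557.DS
open Pool.Agent.H166R3.AT (c_add c_mul c_sub c_div c_mod c_pow c_sum c_le c_lt c_eq c_and c_or
  c_not c_count ball ball_iff c_ball bex bex_iff c_bex)

lemma cell_iff {k j : ℕ} {u : ℝ} (hu : 0 ≤ u) :
    ((j : ℝ) / 2 ^ k ≤ u ∧ u < ((j : ℝ) + 1) / 2 ^ k) ↔ ⌊2 ^ k * u⌋₊ = j := by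
  have hp : (0 : ℝ) < 2 ^ k := by positivity
  rw [Nat.floor_eq_iff (by positivity), div_le_iff₀ hp, lt_div_iff₀ hp, mul_comm u]

lemma cells_volume (k : ℕ) (I : Finset ℕ) :
    volume (⋃ j ∈ I, Set.Ico ((j : ℝ) / 2 ^ k) (((j : ℝ) + 1) / 2 ^ k)) =
      ENNReal.ofReal (I.card * (1 / 2 ^ k)) := by
  have hp : (0 : ℝ) < 2 ^ k := by positivity
  rw [measure_biUnion_finset]
  · have h1 : ∀ j ∈ I, volume (Set.Ico ((j : ℝ) / 2 ^ k) (((j : ℝ) + 1) / 2 ^ k)) =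
        ENNReal.ofReal (1 / 2 ^ k) := by
      intro j _
      rw [Real.volume_Ico]
      congr 1
      ring
    rw [Finset.sum_congr rfl h1, Finset.sum_const, nsmul_eq_mul, ← ENNReal.ofReal_natCast,
      ← ENNReal.ofReal_mul (Nat.cast_nonneg _)]
  · intro j _ j' _ hne
    rw [Function.onFun, Set.disjoint_left]
    intro u hu hu'
    have hu0 : 0 ≤ u := le_trans (by positivity) hu.1
    apply hne
    rw [← (cell_iff hu0).1 ⟨hu.1, hu.2⟩, ← (cell_iff hu0).1 ⟨hu'.1, hu'.2⟩]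
  · intro j _
    exact measurableSet_Ico

/-- the coordinate computed from the oracle -/
def A₁ (B : ℕ) (l : List (ℤ × ℤ)) (k : ℕ) : ℕ :=
  ((l.getD (k - B - 1) (0, 0)).1 + ((2 ^ (k - 1) : ℕ) : ℤ)).toNat

/-- the coordinate computed from the oracle -/
def A₂ (B : ℕ) (l : List (ℤ × ℤ)) (k : ℕ) : ℕ :=
  ((l.getD (k - B - 1) (0, 0)).2 + ((2 ^ (k - 1) : ℕ) : ℤ)).toNat

lemma floor_ax {B : ℕ} {x : ℝ} {k : ℕ} (hk : B + 1 ≤ k) :
    (⌊2 ^ (k - B - 1) * x⌋ + ((2 ^ (k - 1) : ℕ) : ℤ)).toNat = ax B x k := by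
  unfold ax
  rw [← Int.floor_add_natCast, Int.floor_toNat]
  congr 1
  have h1 : (2 : ℝ) ^ k = 2 ^ (k - B - 1) * 2 ^ (B + 1) := by
    rw [← pow_add]; congr 1; omega
  have h2 : (2 : ℝ) ^ (k - 1) = 2 ^ (k - B - 1) * 2 ^ B := by
    rw [← pow_add]; congr 1; omega
  push_cast
  rw [h1, h2]
  field_simp

lemma pre_getD {β : Type*} (z : ℕ → β) (m i : ℕ) (h : i < m) (d : β) :
    (pre z m).getD i d = z i := by
  unfold pre
  rw [List.getD_eq_getElem _ _ (by simpa using h)]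
  simp

lemma A₁_eq {B : ℕ} {x y : ℝ} {k : ℕ} (hk : B + 1 ≤ k) :
    A₁ B (pre (orc₂ x y) (k - B)) k = ax B x k := by
  unfold A₁
  rw [pre_getD _ _ _ (by omega)]
  exact floor_ax hk

lemma A₂_eq {B : ℕ} {x y : ℝ} {k : ℕ} (hk : B + 1 ≤ k) :
    A₂ B (pre (orc₂ x y) (k - B)) k = ax B y k := by
  unfold A₂
  rw [pre_getD _ _ _ (by omega)]
  exact floor_ax hk

lemma c_getZ {α : Type*} [Primcodable α] {l : α → List (ℤ × ℤ)} {i : α → ℕ} (hl : Computable l)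
    (hi : Computable i) : Computable fun a => (l a).getD (i a) (0, 0) := by
  have h : Primrec₂ (fun (l : List (ℤ × ℤ)) (i : ℕ) => l.getD i (0, 0)) := Primrec.list_getD (0, 0)
  exact h.to_comp.comp hl hi

lemma c_A₁ {α : Type*} [Primcodable α] (B : ℕ) {l : α → List (ℤ × ℤ)} {k : α → ℕ}
    (hl : Computable l) (hk : Computable k) : Computable fun a => A₁ B (l a) (k a) := by
  unfold A₁
  exact z_toNat (z_add (Computable.fst.comp (c_getZ hl (c_sub (c_sub hk (Computable.const _))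
    (Computable.const _)))) (z_cast (c_pow (Computable.const 2) (c_sub hk (Computable.const 1)))))

lemma c_A₂ {α : Type*} [Primcodable α] (B : ℕ) {l : α → List (ℤ × ℤ)} {k : α → ℕ}
    (hl : Computable l) (hk : Computable k) : Computable fun a => A₂ B (l a) (k a) := by
  unfold A₂
  exact z_toNat (z_add (Computable.snd.comp (c_getZ hl (c_sub (c_sub hk (Computable.const _))
    (Computable.const _)))) (z_cast (c_pow (Computable.const 2) (c_sub hk (Computable.const 1)))))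

/-- the test relative to the point -/
def tst (g : List ℕ × ℕ × ℕ × ℕ → ℕ → Bool) (B c₀ : ℕ) (q : List (ℤ × ℤ) × ℕ × ℕ × ℕ) : Bool :=
  ((decide (B + 1 ≤ q.2.2.1) && decide (q.1.length = q.2.2.1 - B)) &&
    decide (q.2.2.2 < 2 ^ q.2.2.1)) &&
    decide (2 ^ (q.2.1 + c₀) ≤ GG g B q.2.2.1 (A₁ B q.1 q.2.2.1) (A₂ B q.1 q.2.2.1) q.2.2.2)

lemma tst_iff {g : List ℕ × ℕ × ℕ × ℕ → ℕ → Bool} {B c₀ : ℕ} {l : List (ℤ × ℤ)} {n k i : ℕ} :
    tst g B c₀ (l, n, k, i) = true ↔ ((B + 1 ≤ k ∧ l.length = k - B) ∧ i < 2 ^ k) ∧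
      2 ^ (n + c₀) ≤ GG g B k (A₁ B l k) (A₂ B l k) i := by
  unfold tst
  simp only [Bool.and_eq_true, decide_eq_true_eq]

lemma c_tst {g : List ℕ × ℕ × ℕ × ℕ → ℕ → Bool} (hg : Computable₂ g) (B c₀ : ℕ) :
    Computable (tst g B c₀) := by
  unfold tst
  have cl : Computable fun q : List (ℤ × ℤ) × ℕ × ℕ × ℕ => q.1 := Computable.fst
  have cn : Computable fun q : List (ℤ × ℤ) × ℕ × ℕ × ℕ => q.2.1 := Computable.fst.comp Computable.snd
  have c2 : Computable fun q : List (ℤ × ℤ) × ℕ × ℕ × ℕ => q.2.2 := Computable.snd.comp Computable.snd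
  have ck : Computable fun q : List (ℤ × ℤ) × ℕ × ℕ × ℕ => q.2.2.1 := Computable.fst.comp c2
  have ci : Computable fun q : List (ℤ × ℤ) × ℕ × ℕ × ℕ => q.2.2.2 := Computable.snd.comp c2
  refine c_and (c_and (c_and (c_le (Computable.const _) ck)
    (c_eq (Computable.list_length.comp cl) (c_sub ck (Computable.const _))))
    (c_lt ci (c_pow (Computable.const 2) ck))) ?_
  exact c_le (c_pow (Computable.const 2) (c_add cn (Computable.const _)))
    (c_GG B hg ck (c_A₁ B cl ck) (c_A₂ B cl ck) ci)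

lemma re_of_bool {α : Type*} [Primcodable α] {f : α → Bool} (hf : Computable f) :
    REPred (fun a => a ∈ {a | f a = true}) := by
  have h1 : ComputablePred (fun a => (f a : Prop)) :=
    ComputablePred.computable_iff.2 ⟨f, hf, rfl⟩
  exact h1.to_re.of_eq fun a => Iff.rfl

/-- at a random direction only boundedly many tests are passed -/
lemma tests_bounded {g : List ℕ × ℕ × ℕ × ℕ → ℕ → Bool} (hg : Computable₂ g) {B : ℕ} {x y θ : ℝ}
    (hx : |x| < 2 ^ B) (hy : |y| < 2 ^ B) (hθ : 0 ≤ θ ∧ θ < 1) (hr : MLRandom (orc₂ x y) θ) {c₀ : ℕ}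
    (hc₀ : ∀ T, FF g B T (ax B x T) (ax B y T) < 2 ^ c₀ * 2 ^ T) :
    ∃ N : ℕ, ∀ k, B + 1 ≤ k → GG g B k (ax B x k) (ax B y k) ⌊2 ^ k * θ⌋₊ < N := by
  classical
  set W : Set (List (ℤ × ℤ) × ℕ × ℕ × ℕ) := {q | tst g B c₀ q = true} with hW
  obtain ⟨n, hn⟩ := hr W (re_of_bool (c_tst hg B c₀)) (by
    intro n
    set S : ℕ → Set ℝ := fun k => {u | (0 ≤ u ∧ u < 1) ∧ B + 1 ≤ k ∧
      2 ^ (n + c₀) ≤ GG g B k (ax B x k) (ax B y k) ⌊2 ^ k * u⌋₊} with hS
    have hsub : opn W (orc₂ x y) n ⊆ ⋃ k, S k := by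
      rintro u ⟨m, k, i, hq, hi, hu1, hu2⟩
      rw [hW, Set.mem_ofPred_eq, tst_iff] at hq
      obtain ⟨⟨⟨h1, h2⟩, h3⟩, h4⟩ := hq
      have hm : m = k - B := by rw [← h2]; simp [pre]
      rw [hm, A₁_eq h1, A₂_eq h1] at h4
      have hu0 : 0 ≤ u := le_trans (by positivity) hu1
      rw [Set.mem_iUnion]
      refine ⟨k, ⟨hu0, ?_⟩, h1, ?_⟩
      · refine lt_of_lt_of_le hu2 ?_
        rw [div_le_one (by positivity)]
        exact_mod_cast hi
      · rw [(cell_iff hu0).1 ⟨hu1, hu2⟩]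
        exact h4
    have hmono : Monotone S := by
      apply monotone_nat_of_le_succ
      rintro k u ⟨⟨hu0, hu1⟩, h1, h2⟩
      refine ⟨⟨hu0, hu1⟩, by omega, h2.trans ?_⟩
      have e1 : ax B x k = ax B x (k + 1) / 2 := by
        have := ax_div B x (Nat.le_succ k)
        rwa [show k.succ - k = 1 by omega, pow_one] at this
      have e2 : ax B y k = ax B y (k + 1) / 2 := by
        have := ax_div B y (Nat.le_succ k)
        rwa [show k.succ - k = 1 by omega, pow_one] at this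
      have e3 : ⌊2 ^ k * u⌋₊ = ⌊2 ^ (k + 1) * u⌋₊ / 2 := by
        have := floor_scale u (Nat.le_succ k)
        rwa [show k.succ - k = 1 by omega, pow_one] at this
      rw [e1, e2, e3]
      apply GG_mono g B (ax_lt hx _) (ax_lt hy _)
      have h3 : (⌊2 ^ (k + 1) * u⌋₊ : ℝ) ≤ 2 ^ (k + 1) * u := Nat.floor_le (by positivity)
      have h4 : (0 : ℝ) < 2 ^ (k + 1) := by positivity
      have h5 : (⌊2 ^ (k + 1) * u⌋₊ : ℝ) < 2 ^ (k + 1) := by nlinarith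
      exact_mod_cast h5
    refine (measure_mono hsub).trans ?_
    rw [hmono.measure_iUnion]
    apply iSup_le
    intro k
    set I := (range (2 ^ k)).filter (fun i => 2 ^ (n + c₀) ≤ GG g B k (ax B x k) (ax B y k) i) with hI
    have hsub2 : S k ⊆ ⋃ j ∈ I, Set.Ico ((j : ℝ) / 2 ^ k) (((j : ℝ) + 1) / 2 ^ k) := by
      rintro u ⟨⟨hu0, hu1⟩, h1, h2⟩
      simp only [Set.mem_iUnion]
      have h3 := (cell_iff (k := k) (j := ⌊2 ^ k * u⌋₊) hu0).2 rfl
      refine ⟨⌊2 ^ k * u⌋₊, ?_, h3.1, h3.2⟩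
      rw [hI, mem_filter, mem_range]
      refine ⟨?_, h2⟩
      have h3 : (⌊2 ^ k * u⌋₊ : ℝ) ≤ 2 ^ k * u := Nat.floor_le (by positivity)
      have h4 : (0 : ℝ) < 2 ^ k := by positivity
      have h5 : (⌊2 ^ k * u⌋₊ : ℝ) < 2 ^ k := by nlinarith
      exact_mod_cast h5
    refine (measure_mono hsub2).trans ?_
    rw [cells_volume]
    apply ENNReal.ofReal_le_ofReal
    have h1 : I.card * 2 ^ (n + c₀) ≤ FF g B k (ax B x k) (ax B y k) := by
      unfold FF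
      rw [← smul_eq_mul, ← Finset.sum_const]
      refine (Finset.sum_le_sum (fun i hi => (mem_filter.1 hi).2)).trans ?_
      exact Finset.sum_le_sum_of_subset (Finset.filter_subset _ _)
    have h2 := lt_of_le_of_lt h1 (hc₀ k)
    have h3 : I.card * 2 ^ n < 2 ^ k := by
      have h4 : (I.card * 2 ^ n) * 2 ^ c₀ < 2 ^ k * 2 ^ c₀ := by
        calc (I.card * 2 ^ n) * 2 ^ c₀ = I.card * 2 ^ (n + c₀) := by rw [pow_add]; ring
          _ < 2 ^ c₀ * 2 ^ k := h2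
          _ = _ := mul_comm _ _
      exact lt_of_mul_lt_mul_right h4 (Nat.zero_le _)
    have h4 : (I.card : ℝ) * 2 ^ n ≤ 2 ^ k := by exact_mod_cast h3.le
    rw [one_div_pow, mul_one_div, div_le_div_iff₀ (by positivity) (by positivity), one_mul]
    exact h4)
  refine ⟨2 ^ (n + c₀), fun k hk => ?_⟩
  by_contra hlt
  push Not at hlt
  apply hn
  have h3 := (cell_iff (k := k) (j := ⌊2 ^ k * θ⌋₊) hθ.1).2 rfl
  have h6 : ⌊2 ^ k * θ⌋₊ < 2 ^ k := by
    have h3 : (⌊2 ^ k * θ⌋₊ : ℝ) ≤ 2 ^ k * θ := Nat.floor_le (by have := hθ.1; positivity)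
    have h4 : (0 : ℝ) < 2 ^ k := by positivity
    have h5 : (⌊2 ^ k * θ⌋₊ : ℝ) < 2 ^ k := by nlinarith [hθ.2]
    exact_mod_cast h5
  refine ⟨k - B, k, ⌊2 ^ k * θ⌋₊, ?_, h6, h3.1, h3.2⟩
  rw [hW, Set.mem_ofPred_eq, tst_iff]
  refine ⟨⟨⟨hk, by simp [pre]⟩, h6⟩, ?_⟩
  rw [A₁_eq hk, A₂_eq hk]
  exact hlt

end Pool.Agent.R557.PJ
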