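import Pool.Agent.R557.PJCert

set_option autoImplicit false

/-! Contents of sets of dyadic squares, and flows. -/

namespace Pool.Agent.R557.PJ

open Finset
open Pool.Agent.R557.DS (sum_wt)
open Pool.Agent.H166R3.AT (c_add c_mul c_sub c_div c_mod c_pow c_sum c_le c_lt c_eq c_and c_or
  c_not c_count ball ball_iff c_ball bex bex_iff c_bex)

/-- the weight exponent of squares of level `l` -/
def ww (M l : ℕ) : ℕ := l + l / M

lemma ww_mono (M : ℕ) {l l' : ℕ} (h : l ≤ l') : ww M l ≤ ww M l' := by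
  unfold ww
  have := Nat.div_le_div_right (c := M) h
  omega

lemma ww_succ (M l : ℕ) (hM : 0 < M) : ww M (l + 1) ≤ ww M l + 2 := by
  unfold ww
  have h1 : (l + 1) / M ≤ l / M + 1 := by
    calc (l + 1) / M ≤ (l + M) / M := Nat.div_le_div_right (by omega)
      _ = l / M + 1 := Nat.add_div_right _ hM
  omega

section
variable (A : ℕ → ℕ → ℕ → Bool) (M : ℕ)

/-- the content at stage `t` of a square of level `t - h`, in units `2 ^ (- ww M t)` -/
def ct (t : ℕ) : ℕ → ℕ → ℕ → ℕ
  | 0, a, b => if A t a b = true then 1 else 0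
  | h + 1, a, b => min (2 ^ (ww M t - ww M (t - (h + 1))))
      (∑ c ∈ range 4, ct t h (2 * a + c / 2) (2 * b + c % 2))

/-- the content as a real number -/
noncomputable def VC (t l a b : ℕ) : ℝ := (ct A M t (t - l) a b : ℝ) * (1 / 2) ^ ww M t

lemma ct_le {t h a b : ℕ} : ct A M t h a b ≤ 2 ^ (ww M t - ww M (t - h)) := by
  cases h with
  | zero => simp [ct]; split_ifs <;> simp
  | succ h => unfold ct; exact min_le_left _ _

lemma pow_half_sub {m n : ℕ} (h : n ≤ m) : (2 : ℝ) ^ (m - n) * (1 / 2) ^ m = (1 / 2) ^ n := by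
  have h1 : (2 : ℝ) ^ (m - n) * (1 / 2) ^ (m - n) = 1 := by rw [← mul_pow]; norm_num
  have h2 : ((1 : ℝ) / 2) ^ m = (1 / 2) ^ (m - n) * (1 / 2) ^ n := by
    rw [← pow_add]; congr 1; omega
  rw [h2, ← mul_assoc, h1, one_mul]

lemma VC_nonneg (t l a b : ℕ) : 0 ≤ VC A M t l a b := by unfold VC; positivity

lemma VC_le {t l : ℕ} (h : l ≤ t) (a b : ℕ) : VC A M t l a b ≤ (1 / 2) ^ ww M l := by
  unfold VC
  have h1 := ct_le A M (t := t) (h := t - l) (a := a) (b := b)
  rw [Nat.sub_sub_self h] at h1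
  have h2 : (ct A M t (t - l) a b : ℝ) ≤ 2 ^ (ww M t - ww M l) := by exact_mod_cast h1
  calc _ ≤ (2 : ℝ) ^ (ww M t - ww M l) * (1 / 2) ^ ww M t :=
        mul_le_mul_of_nonneg_right h2 (by positivity)
    _ = _ := pow_half_sub (ww_mono M h)

lemma VC_leaf (t a b : ℕ) : VC A M t t a b = if A t a b = true then (1 / 2) ^ ww M t else 0 := by
  unfold VC
  rw [Nat.sub_self]
  unfold ct
  split_ifs <;> simp

lemma VC_step {t l : ℕ} (h : l < t) (a b : ℕ) : VC A M t l a b =
    min ((1 / 2) ^ ww M l) (∑ c ∈ range 4, VC A M t (l + 1) (2 * a + c / 2) (2 * b + c % 2)) := by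
  unfold VC
  obtain ⟨k, hk⟩ : ∃ k, t - l = k + 1 := ⟨t - l - 1, by omega⟩
  have hk' : t - (l + 1) = k := by omega
  rw [hk, hk']
  have e : ct A M t (k + 1) a b = min (2 ^ (ww M t - ww M (t - (k + 1))))
      (∑ c ∈ range 4, ct A M t k (2 * a + c / 2) (2 * b + c % 2)) := by rw [ct]
  rw [e, Nat.cast_min, min_mul_of_nonneg _ _ (by positivity)]
  have e2 : t - (k + 1) = l := by omega
  rw [e2]
  congr 1
  · push_cast
    exact pow_half_sub (ww_mono M h.le)
  · push_cast
    rw [Finset.sum_mul]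

/-- saturation at stage `t` -/
def sat (t l a b : ℕ) : Bool := decide (ct A M t (t - l) a b = 2 ^ (ww M t - ww M l))

lemma sat_iff {t l : ℕ} (h : l ≤ t) (a b : ℕ) :
    sat A M t l a b = true ↔ VC A M t l a b = (1 / 2) ^ ww M l := by
  unfold sat VC
  rw [decide_eq_true_iff, ← pow_half_sub (ww_mono M h)]
  have hp : (0 : ℝ) < (1 / 2) ^ ww M t := by positivity
  rw [mul_left_inj' hp.ne']
  constructor
  · intro h; rw [h]; push_cast; rfl
  · intro h; exact_mod_cast h

lemma leaf_sat {t a b : ℕ} (h : A t a b = true) : sat A M t t a b = true := by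
  rw [sat_iff A M le_rfl, VC_leaf, if_pos h]

variable (hA : ∀ t a b, a < 2 ^ (t + 1) → b < 2 ^ (t + 1) → A t (a / 2) (b / 2) = true →
  A (t + 1) a b = true) (hbd : ∀ t a b, A t a b = true → a < 2 ^ t ∧ b < 2 ^ t) (hM : 0 < M)

include hA hbd hM in
lemma VC_mono_step (h : ℕ) : ∀ (t l a b : ℕ), t = l + h → VC A M t l a b ≤ VC A M (t + 1) l a b := by
  induction h with
  | zero =>
    intro t l a b ht
    obtain rfl : t = l := by omega
    rw [VC_leaf, VC_step A M (Nat.lt_succ_self t)]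
    split_ifs with hAt
    · apply le_min le_rfl
      obtain ⟨h1, h2⟩ := hbd t a b hAt
      have h3 : ∀ c ∈ range 4, VC A M (t + 1) (t + 1) (2 * a + c / 2) (2 * b + c % 2) =
          (1 / 2) ^ ww M (t + 1) := by
        intro c hc
        rw [mem_range] at hc
        rw [VC_leaf, if_pos]
        apply hA
        · rw [pow_succ]; omega
        · rw [pow_succ]; omega
        · rw [show (2 * a + c / 2) / 2 = a by omega, show (2 * b + c % 2) / 2 = b by omega]
          exact hAt
      rw [Finset.sum_congr rfl h3, Finset.sum_const, card_range, nsmul_eq_mul]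
      have h4 : ((1 : ℝ) / 2) ^ (ww M t + 2) ≤ (1 / 2) ^ ww M (t + 1) :=
        pow_le_pow_of_le_one (by norm_num) (by norm_num) (ww_succ M t hM)
      rw [pow_add] at h4
      push_cast
      linarith
    · apply le_min (by positivity)
      exact Finset.sum_nonneg fun _ _ => VC_nonneg A M _ _ _ _
  | succ h ih =>
    intro t l a b ht
    rw [VC_step A M (show l < t by omega), VC_step A M (show l < t + 1 by omega)]
    apply min_le_min le_rfl
    apply Finset.sum_le_sum
    intro c _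
    exact ih t (l + 1) _ _ (by omega)

include hA hbd hM in
lemma VC_mono {t t' l : ℕ} (hl : l ≤ t) (h : t ≤ t') (a b : ℕ) :
    VC A M t l a b ≤ VC A M t' l a b := by
  induction t', h using Nat.le_induction with
  | base => exact le_rfl
  | succ n hn ih => exact ih.trans (VC_mono_step A M hA hbd hM (n - l) n l a b (by omega))

include hA hbd hM in
/-- the squares that are enumerated before their ancestors are few -/
lemma count_sat (l : ℕ) (k : ℕ) : k ≤ l → ∀ (T α β : ℕ) (S : Finset (ℕ × ℕ)) (τ : ℕ × ℕ → ℕ),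
    l ≤ T → (∀ R ∈ S, R.1 / 2 ^ k = α ∧ R.2 / 2 ^ k = β ∧ l ≤ τ R ∧ τ R ≤ T ∧
      sat A M (τ R) l R.1 R.2 = true ∧
      ∀ j < k, sat A M (τ R) (l - (j + 1)) (R.1 / 2 ^ (j + 1)) (R.2 / 2 ^ (j + 1)) = false) →
    (S.card : ℝ) * (1 / 2) ^ ww M l ≤ VC A M T (l - k) α β := by
  classical
  induction k with
  | zero =>
    intro _ T α β S τ hT hS
    have hsub : S ⊆ {(α, β)} := by
      intro R hR
      obtain ⟨h1, h2, -⟩ := hS R hR
      rw [pow_zero, Nat.div_one] at h1 h2
      rw [mem_singleton]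
      exact Prod.ext h1 h2
    rcases Finset.subset_singleton_iff.1 hsub with h | h
    · rw [h]
      simp only [card_empty, Nat.cast_zero, zero_mul]
      exact VC_nonneg A M _ _ _ _
    · rw [h]
      obtain ⟨-, -, h3, h4, h5, -⟩ := hS (α, β) (by rw [h]; exact mem_singleton_self _)
      rw [sat_iff A M h3] at h5
      simp only [card_singleton, Nat.cast_one, one_mul, Nat.sub_zero]
      rw [← h5]
      exact VC_mono A M hA hbd hM h3 h4 _ _
  | succ k ih =>
    intro hk T α β S τ hT hS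
    rcases S.eq_empty_or_nonempty with h | hne
    · rw [h]
      simp only [card_empty, Nat.cast_zero, zero_mul]
      exact VC_nonneg A M _ _ _ _
    -- the last stage
    obtain ⟨R₀, hR₀, hmax⟩ := Finset.exists_max_image S τ hne
    obtain ⟨g1, g2, g3, g4, g5, g6⟩ := hS R₀ hR₀
    have hns : ¬ VC A M (τ R₀) (l - (k + 1)) α β = (1 / 2) ^ ww M (l - (k + 1)) := by
      rw [← sat_iff A M (by omega), ← g1, ← g2, g6 k (Nat.lt_succ_self k)]
      simp
    have hstep := VC_step A M (show l - (k + 1) < τ R₀ by omega) α β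
    have e1 : l - (k + 1) + 1 = l - k := by omega
    rw [e1] at hstep
    have hsum : VC A M (τ R₀) (l - (k + 1)) α β =
        ∑ c ∈ range 4, VC A M (τ R₀) (l - k) (2 * α + c / 2) (2 * β + c % 2) := by
      rcases min_choice ((1 / 2 : ℝ) ^ ww M (l - (k + 1)))
        (∑ c ∈ range 4, VC A M (τ R₀) (l - k) (2 * α + c / 2) (2 * β + c % 2)) with h | h
      · rw [h] at hstep; exact absurd hstep hns
      · rw [h] at hstep; exact hstep
    -- split into children
    set child : ℕ × ℕ → ℕ := fun R => 2 * (R.1 / 2 ^ k % 2) + R.2 / 2 ^ k % 2 with hchild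
    have hmaps : ∀ R ∈ S, child R ∈ range 4 := by
      intro R _
      rw [mem_range, hchild]
      simp only
      omega
    have hdiv : ∀ x : ℕ, x / 2 ^ (k + 1) = x / 2 ^ k / 2 := by
      intro x; rw [pow_succ, Nat.div_div_eq_div_mul]
    have hcard : (S.card : ℝ) * (1 / 2) ^ ww M l =
        ∑ c ∈ range 4, ((S.filter (fun R => child R = c)).card : ℝ) * (1 / 2) ^ ww M l := by
      rw [Finset.card_eq_sum_card_fiberwise hmaps]
      push_cast
      rw [Finset.sum_mul]
    rw [hcard]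
    refine le_trans (Finset.sum_le_sum fun c hc => ?_)
      ((hsum.symm.le).trans (VC_mono A M hA hbd hM (by omega) g4 α β))
    rw [mem_range] at hc
    apply ih (by omega) (τ R₀) _ _ _ τ g3
    intro R hR
    rw [mem_filter] at hR
    obtain ⟨f1, f2, f3, f4, f5, f6⟩ := hS R hR.1
    rw [hdiv] at f1 f2
    have hc' : 2 * (R.1 / 2 ^ k % 2) + R.2 / 2 ^ k % 2 = c := hR.2
    refine ⟨by omega, by omega, f3, hmax R hR.1, f5, fun j hj => f6 j (by omega)⟩

/-! ### flows -/

/-- the flow at stage `T` -/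
noncomputable def fl (T : ℕ) : ℕ → ℕ → ℕ → ℝ
  | 0, a, b => VC A M T 0 a b
  | l + 1, a, b => fl T l (a / 2) (b / 2) * (VC A M T (l + 1) a b /
      ∑ c ∈ range 4, VC A M T (l + 1) (2 * (a / 2) + c / 2) (2 * (b / 2) + c % 2))

lemma fl_nonneg (T l : ℕ) : ∀ a b, 0 ≤ fl A M T l a b := by
  induction l with
  | zero => intro a b; exact VC_nonneg A M _ _ _ _
  | succ l ih =>
    intro a b
    unfold fl
    exact mul_nonneg (ih _ _) (div_nonneg (VC_nonneg A M _ _ _ _)
      (Finset.sum_nonneg fun _ _ => VC_nonneg A M _ _ _ _))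

lemma fl_le (T l : ℕ) : l ≤ T → ∀ a b, fl A M T l a b ≤ VC A M T l a b := by
  induction l with
  | zero => intro _ a b; exact le_rfl
  | succ l ih =>
    intro hl a b
    unfold fl
    set S := ∑ c ∈ range 4, VC A M T (l + 1) (2 * (a / 2) + c / 2) (2 * (b / 2) + c % 2) with hS
    have hS0 : 0 ≤ S := Finset.sum_nonneg fun _ _ => VC_nonneg A M _ _ _ _
    have h1 : fl A M T l (a / 2) (b / 2) ≤ S := by
      refine (ih (by omega) _ _).trans ?_
      rw [VC_step A M (show l < T by omega)]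
      exact min_le_right _ _
    rcases hS0.eq_or_lt with h0 | h0
    · rw [← h0]; simp [VC_nonneg]
    · rw [mul_div_assoc', div_le_iff₀ h0, mul_comm]
      exact mul_le_mul_of_nonneg_left h1 (VC_nonneg A M _ _ _ _)

lemma fl_children {T l : ℕ} (hl : l < T) (a b : ℕ) :
    ∑ c ∈ range 4, fl A M T (l + 1) (2 * a + c / 2) (2 * b + c % 2) = fl A M T l a b := by
  have h1 : ∀ c ∈ range 4, fl A M T (l + 1) (2 * a + c / 2) (2 * b + c % 2) =
      fl A M T l a b * (VC A M T (l + 1) (2 * a + c / 2) (2 * b + c % 2) /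
        ∑ c ∈ range 4, VC A M T (l + 1) (2 * a + c / 2) (2 * b + c % 2)) := by
    intro c hc
    rw [mem_range] at hc
    rw [fl]
    rw [show (2 * a + c / 2) / 2 = a by omega, show (2 * b + c % 2) / 2 = b by omega]
  rw [Finset.sum_congr rfl h1, ← Finset.mul_sum, ← Finset.sum_div]
  set S := ∑ c ∈ range 4, VC A M T (l + 1) (2 * a + c / 2) (2 * b + c % 2) with hS
  have hS0 : 0 ≤ S := Finset.sum_nonneg fun _ _ => VC_nonneg A M _ _ _ _
  rcases hS0.eq_or_lt with h0 | h0
  · have h2 : fl A M T l a b ≤ S := by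
      refine (fl_le A M T l hl.le a b).trans ?_
      rw [VC_step A M hl]
      exact min_le_right _ _
    have h3 := fl_nonneg A M T l a b
    have h4 : fl A M T l a b = 0 := by rw [← h0] at h2; linarith
    rw [h4]; simp
  · rw [div_self h0.ne', mul_one]

lemma sum_four (f : ℕ → ℕ → ℝ) (a b : ℕ) : ∑ c ∈ range 4, f (2 * a + c / 2) (2 * b + c % 2) =
    (f (2 * a) (2 * b) + f (2 * a) (2 * b + 1)) + (f (2 * a + 1) (2 * b) +
      f (2 * a + 1) (2 * b + 1)) := by
  simp [Finset.sum_range_succ]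
  ring

/-- the mass of a block -/
lemma block_mass {T : ℕ} (k : ℕ) : k ≤ T → ∀ α β : ℕ,
    ∑ i ∈ range (2 ^ k), ∑ j ∈ range (2 ^ k), fl A M T T (α * 2 ^ k + i) (β * 2 ^ k + j) =
      fl A M T (T - k) α β := by
  induction k with
  | zero => intro _ α β; simp
  | succ k ih =>
    intro hk α β
    have h1 := fl_children A M (T := T) (l := T - (k + 1)) (by omega) α β
    have e1 : T - (k + 1) + 1 = T - k := by omega
    rw [e1, sum_four (fun x y => fl A M T (T - k) x y)] at h1
    rw [← h1, ← ih (by omega) (2 * α) (2 * β), ← ih (by omega) (2 * α) (2 * β + 1),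
      ← ih (by omega) (2 * α + 1) (2 * β), ← ih (by omega) (2 * α + 1) (2 * β + 1)]
    have e2 : (2 : ℕ) ^ (k + 1) = 2 ^ k + 2 ^ k := by rw [pow_succ]; ring
    rw [e2, Finset.sum_range_add]
    have e3 : ∀ i, ∑ j ∈ range (2 ^ k + 2 ^ k), fl A M T T i (β * (2 ^ k + 2 ^ k) + j) =
        ∑ j ∈ range (2 ^ k), fl A M T T i (2 * β * 2 ^ k + j) +
        ∑ j ∈ range (2 ^ k), fl A M T T i ((2 * β + 1) * 2 ^ k + j) := by
      intro i
      rw [Finset.sum_range_add]
      congr 1
      · apply Finset.sum_congr rfl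
        intro j _
        congr 1
        ring
      · apply Finset.sum_congr rfl
        intro j _
        congr 1
        ring
    simp only [e3, Finset.sum_add_distrib]
    have e4 : ∀ i, α * (2 ^ k + 2 ^ k) + i = 2 * α * 2 ^ k + i := fun i => by ring
    have e5 : ∀ i, α * (2 ^ k + 2 ^ k) + (2 ^ k + i) = (2 * α + 1) * 2 ^ k + i := fun i => by ring
    simp only [e5]
    simp only [e4]

/-- the mass near a square -/
lemma near_mass {T : ℕ} (k : ℕ) (hk : k ≤ T) (a b : ℕ) :
    ∑ a' ∈ range (2 ^ T), ∑ b' ∈ range (2 ^ T),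
      (if (a' < a + 2 ^ k ∧ a < a' + 2 ^ k) ∧ (b' < b + 2 ^ k ∧ b < b' + 2 ^ k) then
        fl A M T T a' b' else 0) ≤ 9 * (1 / 2) ^ ww M (T - k) := by
  classical
  have hp : 0 < 2 ^ k := by positivity
  -- the nine blocks
  set N : Finset (ℕ × ℕ) := (range 3 ×ˢ range 3) with hN
  have hcov : ∀ a' b' : ℕ, (a' < a + 2 ^ k ∧ a < a' + 2 ^ k) ∧ (b' < b + 2 ^ k ∧ b < b' + 2 ^ k) →
      ∃ p ∈ N, a' / 2 ^ k + 1 = a / 2 ^ k + p.1 ∧ b' / 2 ^ k + 1 = b / 2 ^ k + p.2 := by
    have h1 : ∀ a a' : ℕ, a' < a + 2 ^ k → a < a' + 2 ^ k → ∃ p < 3, a' / 2 ^ k + 1 = a / 2 ^ k + p := by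
      intro a a' h1 h2
      have h3 : a' / 2 ^ k ≤ a / 2 ^ k + 1 := by
        rw [← Nat.add_div_right _ hp]
        exact Nat.div_le_div_right (by omega)
      have h4 : a / 2 ^ k ≤ a' / 2 ^ k + 1 := by
        rw [← Nat.add_div_right _ hp]
        exact Nat.div_le_div_right (by omega)
      exact ⟨a' / 2 ^ k + 1 - a / 2 ^ k, by omega, by omega⟩
    rintro a' b' ⟨⟨h2, h3⟩, h4, h5⟩
    obtain ⟨p, hp1, hp2⟩ := h1 a a' h2 h3
    obtain ⟨q, hq1, hq2⟩ := h1 b b' h4 h5
    exact ⟨(p, q), by rw [hN, mem_product, mem_range, mem_range]; exact ⟨hp1, hq1⟩, hp2, hq2⟩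
  -- the mass of one block
  have hblock : ∀ p ∈ N, ∑ a' ∈ range (2 ^ T), ∑ b' ∈ range (2 ^ T),
      (if a' / 2 ^ k + 1 = a / 2 ^ k + p.1 ∧ b' / 2 ^ k + 1 = b / 2 ^ k + p.2 then
        fl A M T T a' b' else 0) ≤ (1 / 2) ^ ww M (T - k) := by
    intro p _
    by_cases hz : a / 2 ^ k + p.1 = 0 ∨ b / 2 ^ k + p.2 = 0
    · have h1 : ∑ a' ∈ range (2 ^ T), ∑ b' ∈ range (2 ^ T),
        (if a' / 2 ^ k + 1 = a / 2 ^ k + p.1 ∧ b' / 2 ^ k + 1 = b / 2 ^ k + p.2 then
          fl A M T T a' b' else 0) = 0 := by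
        apply Finset.sum_eq_zero
        intro a' _
        apply Finset.sum_eq_zero
        intro b' _
        rw [if_neg]
        rintro ⟨h1, h2⟩
        rcases hz with h | h
        · rw [h] at h1; exact Nat.succ_ne_zero _ h1
        · rw [h] at h2; exact Nat.succ_ne_zero _ h2
      rw [h1]; positivity
    · push Not at hz
      obtain ⟨α, hα⟩ := Nat.exists_eq_succ_of_ne_zero hz.1
      obtain ⟨β, hβ⟩ := Nat.exists_eq_succ_of_ne_zero hz.2
      have h1 : ∀ a' b', (a' / 2 ^ k + 1 = a / 2 ^ k + p.1 ∧ b' / 2 ^ k + 1 = b / 2 ^ k + p.2) ↔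
          (a' / 2 ^ k = α ∧ b' / 2 ^ k = β) := by
        intro a' b'; omega
      simp only [h1]
      have h2 := (block_mass A M k hk α β).le.trans ((fl_le A M T (T - k) (by omega) α β).trans
        (VC_le A M (by omega) α β))
      refine le_trans ?_ h2
      -- restrict the sums
      have h3 : ∀ (f : ℕ → ℝ) (α : ℕ), (∀ x, 0 ≤ f x) →
          ∑ a' ∈ range (2 ^ T), (if a' / 2 ^ k = α then f a' else 0) ≤
            ∑ i ∈ range (2 ^ k), f (α * 2 ^ k + i) := by
        intro f α hf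
        rw [← Finset.sum_filter]
        have h4 : ∑ i ∈ range (2 ^ k), f (α * 2 ^ k + i) =
            ∑ x ∈ (range (2 ^ k)).image (fun i => α * 2 ^ k + i), f x := by
          rw [Finset.sum_image]
          intro i _ j _ h
          simpa using h
        rw [h4]
        apply Finset.sum_le_sum_of_subset_of_nonneg _ (fun _ _ _ => hf _)
        intro x hx
        rw [mem_filter] at hx
        rw [mem_image]
        refine ⟨x % 2 ^ k, mem_range.2 (Nat.mod_lt _ hp), ?_⟩
        rw [← hx.2, mul_comm]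
        exact Nat.div_add_mod _ _
      have h4 : ∀ a', ∑ b' ∈ range (2 ^ T), (if a' / 2 ^ k = α ∧ b' / 2 ^ k = β then
          fl A M T T a' b' else 0) = if a' / 2 ^ k = α then
            ∑ b' ∈ range (2 ^ T), (if b' / 2 ^ k = β then fl A M T T a' b' else 0) else 0 := by
        intro a'
        by_cases h : a' / 2 ^ k = α
        · simp [h]
        · simp [h]
      simp only [h4]
      refine (h3 (fun a' => ∑ b' ∈ range (2 ^ T), (if b' / 2 ^ k = β then fl A M T T a' b' else 0))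
        α (fun a' => Finset.sum_nonneg fun b' _ => by
          split_ifs
          · exact fl_nonneg A M _ _ _ _
          · exact le_rfl)).trans ?_
      apply Finset.sum_le_sum
      intro i _
      exact h3 (fun b' => fl A M T T (α * 2 ^ k + i) b') β (fun b' => fl_nonneg A M _ _ _ _)
  have hle : ∀ a' b' : ℕ, (if (a' < a + 2 ^ k ∧ a < a' + 2 ^ k) ∧ (b' < b + 2 ^ k ∧ b < b' + 2 ^ k)
      then fl A M T T a' b' else 0) ≤ ∑ p ∈ N, (if a' / 2 ^ k + 1 = a / 2 ^ k + p.1 ∧
        b' / 2 ^ k + 1 = b / 2 ^ k + p.2 then fl A M T T a' b' else 0) := by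
    intro a' b'
    have hnn : ∀ p ∈ N, 0 ≤ (if a' / 2 ^ k + 1 = a / 2 ^ k + p.1 ∧
        b' / 2 ^ k + 1 = b / 2 ^ k + p.2 then fl A M T T a' b' else 0) := by
      intro p _
      split_ifs
      · exact fl_nonneg A M _ _ _ _
      · exact le_rfl
    split_ifs with h
    · obtain ⟨p, hp1, hp2⟩ := hcov a' b' h
      refine le_trans (le_of_eq ?_) (Finset.single_le_sum hnn hp1)
      rw [if_pos hp2]
    · exact Finset.sum_nonneg hnn
  refine (Finset.sum_le_sum fun a' _ => Finset.sum_le_sum fun b' _ => hle a' b').trans ?_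
  have hswap : ∑ a' ∈ range (2 ^ T), ∑ b' ∈ range (2 ^ T), ∑ p ∈ N,
      (if a' / 2 ^ k + 1 = a / 2 ^ k + p.1 ∧ b' / 2 ^ k + 1 = b / 2 ^ k + p.2 then
        fl A M T T a' b' else 0) = ∑ p ∈ N, ∑ a' ∈ range (2 ^ T), ∑ b' ∈ range (2 ^ T),
      (if a' / 2 ^ k + 1 = a / 2 ^ k + p.1 ∧ b' / 2 ^ k + 1 = b / 2 ^ k + p.2 then
        fl A M T T a' b' else 0) := by
    rw [Finset.sum_comm (s := N)]
    apply Finset.sum_congr rfl
    intro a' _
    exact Finset.sum_comm
  rw [hswap]
  refine (Finset.sum_le_sum hblock).trans (le_of_eq ?_)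
  rw [Finset.sum_const, hN, card_product, card_range, nsmul_eq_mul]
  norm_num

end

end Pool.Agent.R557.PJ
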