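import Pool.Agent.R557.PJCover

set_option autoImplicit false

/-! Computable approximations of scalar products with a rotating unit vector. -/

namespace Pool.Agent.R557.PJ

open Finset Real
open Pool.Agent.R557.DS
open Pool.Agent.H166R3.AT (c_add c_mul c_sub c_div c_mod c_pow)

/-- the tangent approximation for a quarter of the full turn -/
lemma tau_spec' (r : ℕ) (x : ℚ) (h0 : 0 ≤ x) (h1 : x ≤ 2 * Sr r (2 ^ r)) :
    |2 * arctan (tau r x : ℝ) - x| ≤ 4 * (1 / 2 ^ r) := by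
  have hp : (0 : ℝ) < 2 ^ r := by positivity
  have hp1 : (0 : ℝ) < 1 / 2 ^ r := by positivity
  obtain ⟨a1, a2, a3⟩ := count_down (fun j => decide (2 * Sr r (j + 1) ≤ x)) (by
    intro i j hij h
    simp only [decide_eq_true_eq] at h ⊢
    have := Sr_mono r (Nat.succ_le_succ hij)
    linarith) (2 ^ r)
  change ∀ j < kk r x, _ at a1
  change kk r x < 2 ^ r → _ at a2
  change kk r x ≤ 2 ^ r at a3
  have hte : (tau r x : ℝ) = (kk r x : ℝ) / 2 ^ r := by unfold tau; push_cast; rfl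
  rw [hte]
  set k := kk r x with hk
  obtain ⟨b1, b2⟩ := Sr_bd r k
  have b3 : (0 : ℝ) ≤ (1 / 2 ^ r) / (1 + (k / 2 ^ r) ^ 2) := by positivity
  have b4 : ((1 : ℝ) / 2 ^ r) / (1 + (k / 2 ^ r) ^ 2) ≤ 1 / 2 ^ r := by
    apply div_le_self hp1.le
    have : (0 : ℝ) ≤ ((k : ℝ) / 2 ^ r) ^ 2 := by positivity
    linarith
  have hup : (x : ℝ) ≤ 2 * (Sr r k : ℝ) + 2 * (1 / 2 ^ r) := by
    rcases Nat.lt_or_ge k (2 ^ r) with h | h
    · have h2 := a2 h
      simp only [decide_eq_false_iff_not, not_le] at h2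
      have h3 : (x : ℝ) < 2 * (Sr r (k + 1) : ℝ) := by exact_mod_cast h2
      have h4 : (Sr r (k + 1) : ℝ) = Sr r k + (1 / 2 ^ r) / (1 + (k / 2 ^ r) ^ 2) := by
        rw [Sr_succ]; push_cast; rfl
      rw [h4] at h3
      linarith
    · have h2 : k = 2 ^ r := le_antisymm a3 h
      have h3 : (x : ℝ) ≤ 2 * (Sr r (2 ^ r) : ℝ) := by exact_mod_cast h1
      rw [h2]
      linarith
  have hlo : 2 * (Sr r k : ℝ) - 1 / 2 ^ r ≤ x := by
    rcases Nat.eq_zero_or_pos k with h | h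
    · rw [h]
      simp only [Sr, range_zero, sum_empty, Rat.cast_zero, mul_zero, zero_sub]
      have : (0 : ℝ) ≤ x := by exact_mod_cast h0
      linarith
    · have h2 := a1 (k - 1) (by omega)
      simp only [decide_eq_true_eq] at h2
      rw [Nat.sub_add_cancel h] at h2
      have h3 : 2 * (Sr r k : ℝ) ≤ x := by exact_mod_cast h2
      linarith
  rw [abs_le]
  constructor
  · linarith
  · linarith

/-- half of a quarter turn -/
def yy (r t i : ℕ) : ℚ := 2 * Sr r (2 ^ r) * (i / 2 ^ t)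

/-- the tangent -/
def tt (r t i : ℕ) : ℚ := tau r (yy r t i)

/-- cosine of `4 * (2 * arctan τ)` -/
def c4 (τ : ℚ) : ℚ :=
  (((1 - τ ^ 2) / (1 + τ ^ 2)) ^ 2 - (2 * τ / (1 + τ ^ 2)) ^ 2) ^ 2 -
    (2 * (2 * τ / (1 + τ ^ 2)) * ((1 - τ ^ 2) / (1 + τ ^ 2))) ^ 2

/-- sine of `4 * (2 * arctan τ)` -/
def s4 (τ : ℚ) : ℚ :=
  2 * (2 * (2 * τ / (1 + τ ^ 2)) * ((1 - τ ^ 2) / (1 + τ ^ 2))) *
    (((1 - τ ^ 2) / (1 + τ ^ 2)) ^ 2 - (2 * τ / (1 + τ ^ 2)) ^ 2)

lemma cos_two_arctan' (t : ℝ) : cos (2 * arctan t) = (1 - t ^ 2) / (1 + t ^ 2) := by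
  have h : (0 : ℝ) < 1 + t ^ 2 := by positivity
  rw [eq_div_iff h.ne', cos_two_mul, cos_sq_arctan]
  field_simp
  ring

lemma sin_two_arctan' (t : ℝ) : sin (2 * arctan t) = 2 * t / (1 + t ^ 2) := by
  have h : (0 : ℝ) < 1 + t ^ 2 := by positivity
  have h1 : sin (arctan t) = t * cos (arctan t) := by
    have h2 := tan_mul_cos (cos_arctan_pos t).ne'
    rw [tan_arctan] at h2
    exact h2.symm
  rw [eq_div_iff h.ne', sin_two_mul, h1]
  have h2 := cos_sq_arctan t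
  have h3 : 2 * (t * cos (arctan t)) * cos (arctan t) = 2 * t * cos (arctan t) ^ 2 := by ring
  rw [h3, h2]
  field_simp

lemma c4_cast (τ : ℚ) : ((c4 τ : ℚ) : ℝ) = cos (4 * (2 * arctan (τ : ℝ))) := by
  have h1 : (4 : ℝ) * (2 * arctan (τ : ℝ)) = 2 * (2 * (2 * arctan (τ : ℝ))) := by ring
  rw [h1, cos_two_mul' (2 * (2 * arctan (τ : ℝ))), cos_two_mul' (2 * arctan (τ : ℝ)),
    sin_two_mul (2 * arctan (τ : ℝ)), cos_two_arctan', sin_two_arctan']
  unfold c4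
  push_cast
  rfl

lemma s4_cast (τ : ℚ) : ((s4 τ : ℚ) : ℝ) = sin (4 * (2 * arctan (τ : ℝ))) := by
  have h1 : (4 : ℝ) * (2 * arctan (τ : ℝ)) = 2 * (2 * (2 * arctan (τ : ℝ))) := by ring
  rw [h1, sin_two_mul (2 * (2 * arctan (τ : ℝ))), cos_two_mul' (2 * arctan (τ : ℝ)),
    sin_two_mul (2 * arctan (τ : ℝ)), cos_two_arctan', sin_two_arctan']
  unfold s4
  push_cast
  rfl

lemma angle_err (r t i : ℕ) (hi : i ≤ 2 ^ t) :
    |4 * (2 * arctan (tt r t i : ℝ)) - 2 * π * (i / 2 ^ t)| ≤ 24 * (1 / 2 ^ r) := by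
  have hp : (0 : ℝ) < 2 ^ r := by positivity
  have hpt : (0 : ℝ) < 2 ^ t := by positivity
  have hS0 : 0 ≤ Sr r (2 ^ r) := by
    have := Sr_mono r (Nat.zero_le (2 ^ r))
    simpa [Sr] using this
  have hi1 : ((i : ℚ) / 2 ^ t) ≤ 1 := by
    rw [div_le_one (by positivity)]
    exact_mod_cast hi
  have hy0 : 0 ≤ yy r t i := by unfold yy; positivity
  have hy1 : yy r t i ≤ 2 * Sr r (2 ^ r) := by
    unfold yy
    exact mul_le_of_le_one_right (by positivity) hi1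
  have h1 := tau_spec' r (yy r t i) hy0 hy1
  obtain ⟨b1, b2⟩ := Sr_bd r (2 ^ r)
  have b3 : (0 : ℝ) ≤ (1 / 2 ^ r) / (1 + (((2 ^ r : ℕ) : ℝ) / 2 ^ r) ^ 2) := by positivity
  have h2 : (((2 ^ r : ℕ) : ℝ) / 2 ^ r) = 1 := by push_cast; exact div_self hp.ne'
  rw [h2, arctan_one] at b1 b2
  have hyc : (yy r t i : ℝ) = 2 * (Sr r (2 ^ r) : ℝ) * (i / 2 ^ t) := by unfold yy; push_cast; rfl
  have hi1' : ((i : ℝ) / 2 ^ t) ≤ 1 := by
    rw [div_le_one hpt]
    exact_mod_cast hi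
  have hi0' : 0 ≤ ((i : ℝ) / 2 ^ t) := by positivity
  have b3' : (0 : ℝ) ≤ (1 / 2 ^ r) / (1 + 1 ^ 2) := by positivity
  have h3 : |(yy r t i : ℝ) - (π / 2) * (i / 2 ^ t)| ≤ 2 * (1 / 2 ^ r) := by
    rw [hyc]
    have e : 2 * (Sr r (2 ^ r) : ℝ) * (i / 2 ^ t) - (π / 2) * (i / 2 ^ t) =
        (2 * ((Sr r (2 ^ r) : ℝ) - π / 4)) * (i / 2 ^ t) := by ring
    rw [e, abs_mul, abs_of_nonneg hi0']
    have h4 : |2 * ((Sr r (2 ^ r) : ℝ) - π / 4)| ≤ 2 * (1 / 2 ^ r) := by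
      rw [abs_le]; constructor <;> linarith
    calc |2 * ((Sr r (2 ^ r) : ℝ) - π / 4)| * ((i : ℝ) / 2 ^ t) ≤ 2 * (1 / 2 ^ r) * 1 :=
          mul_le_mul h4 hi1' hi0' (by positivity)
      _ = _ := mul_one _
  unfold tt
  rw [abs_le] at h1 h3 ⊢
  constructor
  · linarith [h1.1, h1.2, h3.1, h3.2]
  · linarith [h1.1, h1.2, h3.1, h3.2]

section
variable (B : ℕ)

/-- the precision used -/
def rr (t : ℕ) : ℕ := t + B + 8

/-- the exact value: scalar product of the direction `i` with the corner of the square `(a, b)`, scaled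
by `2 ^ t` and shifted -/
noncomputable def vx (t a b i : ℕ) : ℝ :=
  cos (2 * π * (i / 2 ^ t)) * (2 ^ (B + 1) * a - 2 ^ (B + t)) +
    sin (2 * π * (i / 2 ^ t)) * (2 ^ (B + 1) * b - 2 ^ (B + t)) + 2 ^ (t + B + 10)

/-- the rational approximation -/
def qx (t a b i : ℕ) : ℚ :=
  c4 (tt (rr B t) t i) * (2 ^ (B + 1) * a - 2 ^ (B + t)) +
    s4 (tt (rr B t) t i) * (2 ^ (B + 1) * b - 2 ^ (B + t)) + 2 ^ (t + B + 10)

/-- the integer approximation -/
def AN (t a b i : ℕ) : ℕ := ⌊qx B t a b i⌋₊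

lemma coord_le {t a : ℕ} (ha : a < 2 ^ t) : |(2 : ℝ) ^ (B + 1) * a - 2 ^ (B + t)| ≤ 2 ^ (B + t) := by
  have h1 : (a : ℝ) ≤ 2 ^ t := by exact_mod_cast ha.le
  have h2 : (2 : ℝ) ^ (B + 1) = 2 * 2 ^ B := by rw [pow_succ]; ring
  have h3 : (2 : ℝ) ^ (B + t) = 2 ^ B * 2 ^ t := pow_add _ _ _
  have h4 : (0 : ℝ) < 2 ^ B := by positivity
  rw [h2, h3, abs_le]
  constructor
  · nlinarith [mul_nonneg h4.le (Nat.cast_nonneg (α := ℝ) a)]
  · nlinarith

lemma AN_spec {t a b i : ℕ} (ha : a < 2 ^ t) (hb : b < 2 ^ t) (hi : i < 2 ^ t) :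
    |(AN B t a b i : ℝ) - vx B t a b i| ≤ 2 := by
  have he := angle_err (rr B t) t i hi.le
  have hr : (1 : ℝ) / 2 ^ rr B t * 2 ^ (B + t) = 1 / 256 := by
    unfold rr
    have : (2 : ℝ) ^ (t + B + 8) = 2 ^ (B + t) * 256 := by
      rw [pow_add, add_comm t B]; norm_num
    rw [this]
    field_simp
  have hcos := abs_cos_sub_cos_le (4 * (2 * arctan (tt (rr B t) t i : ℝ))) (2 * π * (i / 2 ^ t))
  have hsin := abs_sin_sub_sin_le (4 * (2 * arctan (tt (rr B t) t i : ℝ))) (2 * π * (i / 2 ^ t))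
  rw [← c4_cast] at hcos
  rw [← s4_cast] at hsin
  have hq : |(qx B t a b i : ℝ) - vx B t a b i| ≤ 1 / 4 := by
    have e : (qx B t a b i : ℝ) - vx B t a b i =
        ((c4 (tt (rr B t) t i) : ℝ) - cos (2 * π * (i / 2 ^ t))) * (2 ^ (B + 1) * a - 2 ^ (B + t)) +
        ((s4 (tt (rr B t) t i) : ℝ) - sin (2 * π * (i / 2 ^ t))) *
          (2 ^ (B + 1) * b - 2 ^ (B + t)) := by
      unfold qx vx; push_cast; ring
    rw [e]
    refine (abs_add_le _ _).trans ?_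
    rw [abs_mul, abs_mul]
    have h1 := mul_le_mul (hcos.trans he) (coord_le B ha) (abs_nonneg _) (by positivity)
    have h2 := mul_le_mul (hsin.trans he) (coord_le B hb) (abs_nonneg _) (by positivity)
    have h3 : 24 * (1 / 2 ^ rr B t) * (2 : ℝ) ^ (B + t) = 24 * (1 / 256) := by
      rw [mul_assoc, hr]
    linarith
  have hpos : (0 : ℝ) ≤ qx B t a b i := by
    have h1 := abs_cos_le_one (2 * π * (i / 2 ^ t))
    have h2 := abs_sin_le_one (2 * π * (i / 2 ^ t))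
    have h3 := mul_le_mul h1 (coord_le B ha) (abs_nonneg _) (by norm_num)
    have h4 := mul_le_mul h2 (coord_le B hb) (abs_nonneg _) (by norm_num)
    rw [← abs_mul, one_mul] at h3 h4
    have h5 : (2 : ℝ) ^ (t + B + 10) = 2 ^ (B + t) * 1024 := by
      rw [pow_add, add_comm t B]; norm_num
    have h6 : (1 : ℝ) ≤ 2 ^ (B + t) := one_le_pow₀ (by norm_num)
    rw [abs_le] at hq h3 h4
    have h7 : vx B t a b i ≥ 2 ^ (B + t) * 1022 := by
      unfold vx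
      rw [h5]
      linarith [h3.1, h4.1]
    linarith [hq.1]
  have hpos' : 0 ≤ qx B t a b i := by exact_mod_cast hpos
  have h3 : ((⌊qx B t a b i⌋₊ : ℚ) : ℝ) ≤ qx B t a b i := by exact_mod_cast Nat.floor_le hpos'
  have h4 : (qx B t a b i : ℝ) < ((⌊qx B t a b i⌋₊ : ℚ) : ℝ) + 1 := by
    exact_mod_cast Nat.lt_floor_add_one (qx B t a b i)
  push_cast at h3 h4
  unfold AN
  rw [abs_le] at hq ⊢
  constructor <;> linarith [hq.1, hq.2]

lemma vx_bd {t a b i : ℕ} (ha : a < 2 ^ t) (hb : b < 2 ^ t) :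
    1022 * 2 ^ (B + t) ≤ vx B t a b i ∧ vx B t a b i ≤ 1026 * 2 ^ (B + t) := by
  have h1 := abs_cos_le_one (2 * π * (i / 2 ^ t))
  have h2 := abs_sin_le_one (2 * π * (i / 2 ^ t))
  have h3 := mul_le_mul h1 (coord_le B ha) (abs_nonneg _) (by norm_num)
  have h4 := mul_le_mul h2 (coord_le B hb) (abs_nonneg _) (by norm_num)
  rw [← abs_mul, one_mul] at h3 h4
  have h5 : (2 : ℝ) ^ (t + B + 10) = 2 ^ (B + t) * 1024 := by
    rw [pow_add, add_comm t B]; norm_num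
  rw [abs_le] at h3 h4
  unfold vx
  rw [h5]
  constructor <;> linarith [h3.1, h4.1, h3.2, h4.2]

/-- comparison of two levels -/
lemma vx_step {t a b i a' b' i' : ℕ} (ha : a' / 2 = a) (hb : b' / 2 = b) (hi : i' / 2 = i)
    (ha' : a' < 2 ^ (t + 1)) (hb' : b' < 2 ^ (t + 1)) :
    |vx B (t + 1) a' b' i' / 2 - vx B t a b i| ≤ 9 * 2 ^ B := by
  have hpt : (0 : ℝ) < 2 ^ t := by positivity
  have hpB : (0 : ℝ) < 2 ^ B := by positivity
  have hang : |2 * π * ((i' : ℝ) / 2 ^ (t + 1)) - 2 * π * (i / 2 ^ t)| ≤ 7 / 2 ^ (t + 1) := by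
    have h1 : (i' : ℝ) - 2 * i ≤ 1 := by
      have : i' ≤ 2 * i + 1 := by omega
      have : (i' : ℝ) ≤ 2 * i + 1 := by exact_mod_cast this
      linarith
    have h2 : 0 ≤ (i' : ℝ) - 2 * i := by
      have : 2 * i ≤ i' := by omega
      have : 2 * (i : ℝ) ≤ i' := by exact_mod_cast this
      linarith
    have e : 2 * π * ((i' : ℝ) / 2 ^ (t + 1)) - 2 * π * (i / 2 ^ t) =
        (2 * π * (i' - 2 * i)) / 2 ^ (t + 1) := by
      rw [pow_succ]; field_simp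
    rw [e, abs_div, abs_of_pos (show (0 : ℝ) < 2 ^ (t + 1) by positivity)]
    apply div_le_div_of_nonneg_right _ (by positivity)
    rw [abs_of_nonneg (by positivity)]
    have := pi_lt_d2
    have hpi := pi_pos
    nlinarith
  have hcos := (abs_cos_sub_cos_le (2 * π * ((i' : ℝ) / 2 ^ (t + 1))) (2 * π * (i / 2 ^ t))).trans hang
  have hsin := (abs_sin_sub_sin_le (2 * π * ((i' : ℝ) / 2 ^ (t + 1))) (2 * π * (i / 2 ^ t))).trans hang
  have hX : ∀ a a' : ℕ, a' / 2 = a → |((2 : ℝ) ^ (B + 1) * a' - 2 ^ (B + (t + 1))) / 2 -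
      (2 ^ (B + 1) * a - 2 ^ (B + t))| ≤ 2 ^ B := by
    intro a a' ha
    have h1 : (a' : ℝ) - 2 * a ≤ 1 := by
      have : a' ≤ 2 * a + 1 := by omega
      have : (a' : ℝ) ≤ 2 * a + 1 := by exact_mod_cast this
      linarith
    have h2 : 0 ≤ (a' : ℝ) - 2 * a := by
      have : 2 * a ≤ a' := by omega
      have : 2 * (a : ℝ) ≤ a' := by exact_mod_cast this
      linarith
    have e : ((2 : ℝ) ^ (B + 1) * a' - 2 ^ (B + (t + 1))) / 2 - (2 ^ (B + 1) * a - 2 ^ (B + t)) =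
        2 ^ B * (a' - 2 * a) := by
      rw [← add_assoc, pow_succ, pow_succ]; ring
    rw [e, abs_of_nonneg (by positivity)]
    nlinarith
  have hXb : ∀ a' : ℕ, a' < 2 ^ (t + 1) → |((2 : ℝ) ^ (B + 1) * a' - 2 ^ (B + (t + 1))) / 2| ≤
      2 ^ B * 2 ^ t := by
    intro a' ha'
    have h1 := coord_le B ha'
    rw [abs_div, abs_of_pos (show (0 : ℝ) < 2 by norm_num)]
    rw [div_le_iff₀ (by norm_num)]
    refine h1.trans (le_of_eq ?_)
    rw [← add_assoc, pow_succ, pow_add]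
  have e : vx B (t + 1) a' b' i' / 2 - vx B t a b i =
      (cos (2 * π * ((i' : ℝ) / 2 ^ (t + 1))) - cos (2 * π * (i / 2 ^ t))) *
        (((2 : ℝ) ^ (B + 1) * a' - 2 ^ (B + (t + 1))) / 2) +
      cos (2 * π * (i / 2 ^ t)) * (((2 : ℝ) ^ (B + 1) * a' - 2 ^ (B + (t + 1))) / 2 -
        (2 ^ (B + 1) * a - 2 ^ (B + t))) +
      ((sin (2 * π * ((i' : ℝ) / 2 ^ (t + 1))) - sin (2 * π * (i / 2 ^ t))) *
        (((2 : ℝ) ^ (B + 1) * b' - 2 ^ (B + (t + 1))) / 2) +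
      sin (2 * π * (i / 2 ^ t)) * (((2 : ℝ) ^ (B + 1) * b' - 2 ^ (B + (t + 1))) / 2 -
        (2 ^ (B + 1) * b - 2 ^ (B + t)))) := by
    unfold vx
    have h5 : (2 : ℝ) ^ (t + 1 + B + 10) = 2 * 2 ^ (t + B + 10) := by
      rw [show t + 1 + B + 10 = (t + B + 10) + 1 by ring, pow_succ]; ring
    rw [h5]
    ring
  rw [e]
  have k1 : |(cos (2 * π * ((i' : ℝ) / 2 ^ (t + 1))) - cos (2 * π * (i / 2 ^ t))) *
        (((2 : ℝ) ^ (B + 1) * a' - 2 ^ (B + (t + 1))) / 2)| ≤ 7 / 2 * 2 ^ B := by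
    rw [abs_mul]
    refine (mul_le_mul hcos (hXb a' ha') (abs_nonneg _) (by positivity)).trans (le_of_eq ?_)
    rw [pow_succ]; field_simp
  have k2 : |(sin (2 * π * ((i' : ℝ) / 2 ^ (t + 1))) - sin (2 * π * (i / 2 ^ t))) *
        (((2 : ℝ) ^ (B + 1) * b' - 2 ^ (B + (t + 1))) / 2)| ≤ 7 / 2 * 2 ^ B := by
    rw [abs_mul]
    refine (mul_le_mul hsin (hXb b' hb') (abs_nonneg _) (by positivity)).trans (le_of_eq ?_)
    rw [pow_succ]; field_simp
  have k3 : |cos (2 * π * (i / 2 ^ t)) * (((2 : ℝ) ^ (B + 1) * a' - 2 ^ (B + (t + 1))) / 2 -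
        (2 ^ (B + 1) * a - 2 ^ (B + t)))| ≤ 2 ^ B := by
    rw [abs_mul]
    refine (mul_le_mul (abs_cos_le_one _) (hX a a' ha) (abs_nonneg _) (by norm_num)).trans
      (le_of_eq (one_mul _))
  have k4 : |sin (2 * π * (i / 2 ^ t)) * (((2 : ℝ) ^ (B + 1) * b' - 2 ^ (B + (t + 1))) / 2 -
        (2 ^ (B + 1) * b - 2 ^ (B + t)))| ≤ 2 ^ B := by
    rw [abs_mul]
    refine (mul_le_mul (abs_sin_le_one _) (hX b b' hb) (abs_nonneg _) (by norm_num)).trans
      (le_of_eq (one_mul _))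
  rw [abs_le] at k1 k2 k3 k4 ⊢
  constructor
  · linarith [k1.1, k2.1, k3.1, k4.1]
  · linarith [k1.2, k2.2, k3.2, k4.2]

/-- few directions do not separate two squares -/
lemma sep_count {t a b a₁ b₁ D : ℕ} (ha : a < 2 ^ t) (hb : b < 2 ^ t) (ha₁ : a₁ < 2 ^ t)
    (hb₁ : b₁ < 2 ^ t) (hD : (D : ℝ) ≤ |(a : ℝ) - a₁| ∨ (D : ℝ) ≤ |(b : ℝ) - b₁|) {i j : ℕ}
    (hij : i ≤ j) (hj : j < 2 ^ t) (hq : 4 * (j - i) ≤ 2 ^ t)
    (h1 : AN B t a b i = AN B t a₁ b₁ i) (h2 : AN B t a b j = AN B t a₁ b₁ j) :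
    D * (j - i) ≤ 2 ^ t := by
  have hpt : (0 : ℝ) < 2 ^ t := by positivity
  have hpB : (1 : ℝ) ≤ 2 ^ B := one_le_pow₀ (by norm_num)
  set X : ℝ := 2 ^ (B + 1) * a - 2 ^ (B + 1) * a₁ with hX
  set Y : ℝ := 2 ^ (B + 1) * b - 2 ^ (B + 1) * b₁ with hY
  have hsmall : ∀ i, i < 2 ^ t → AN B t a b i = AN B t a₁ b₁ i →
      |cos (2 * π * (i / 2 ^ t)) * X + sin (2 * π * (i / 2 ^ t)) * Y| ≤ 4 := by
    intro i hi h
    have h3 := AN_spec B ha hb hi
    have h4 := AN_spec B ha₁ hb₁ hi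
    rw [h] at h3
    have e : cos (2 * π * (i / 2 ^ t)) * X + sin (2 * π * (i / 2 ^ t)) * Y =
        vx B t a b i - vx B t a₁ b₁ i := by
      unfold vx; rw [hX, hY]; ring
    rw [e]
    rw [abs_le] at h3 h4 ⊢
    constructor <;> linarith [h3.1, h3.2, h4.1, h4.2]
  have hi : i < 2 ^ t := lt_of_le_of_lt hij hj
  have s1 := hsmall i hi h1
  have s2 := hsmall j hj h2
  set θ := 2 * π * ((i : ℝ) / 2 ^ t) with hθ
  set φ := 2 * π * ((j : ℝ) / 2 ^ t) with hφ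
  have hd : φ - θ = 2 * π * (((j - i : ℕ) : ℝ) / 2 ^ t) := by
    rw [hφ, hθ, Nat.cast_sub hij]; ring
  set d : ℝ := ((j - i : ℕ) : ℝ) / 2 ^ t with hdd
  have hd0 : 0 ≤ d := by positivity
  have hd1 : 4 * d ≤ 1 := by
    rw [hdd, ← mul_div_assoc, div_le_one hpt]
    exact_mod_cast hq
  have hsin : 4 * d ≤ sin (φ - θ) := by
    have h3 := mul_le_sin (x := 2 * π * d) (by have := pi_pos; positivity) (by
      have := pi_pos; nlinarith)
    rw [hd]
    refine le_trans (le_of_eq ?_) h3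
    field_simp
    ring
  have e1 : X * sin (φ - θ) = (cos θ * X + sin θ * Y) * sin φ - (cos φ * X + sin φ * Y) * sin θ := by
    rw [sin_sub]; ring
  have e2 : Y * sin (φ - θ) = (cos φ * X + sin φ * Y) * cos θ - (cos θ * X + sin θ * Y) * cos φ := by
    rw [sin_sub]; ring
  have bX : |X * sin (φ - θ)| ≤ 8 := by
    rw [e1]
    refine (abs_sub _ _).trans ?_
    rw [abs_mul, abs_mul]
    have h3 := mul_le_mul s1 (abs_sin_le_one φ) (abs_nonneg _) (by norm_num)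
    have h4 := mul_le_mul s2 (abs_sin_le_one θ) (abs_nonneg _) (by norm_num)
    linarith
  have bY : |Y * sin (φ - θ)| ≤ 8 := by
    rw [e2]
    refine (abs_sub _ _).trans ?_
    rw [abs_mul, abs_mul]
    have h3 := mul_le_mul s1 (abs_cos_le_one φ) (abs_nonneg _) (by norm_num)
    have h4 := mul_le_mul s2 (abs_cos_le_one θ) (abs_nonneg _) (by norm_num)
    linarith
  have hsin0 : 0 ≤ sin (φ - θ) := le_trans (by positivity) hsin
  rw [abs_mul, abs_of_nonneg hsin0] at bX bY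
  have key : ∀ Z : ℝ, |Z| * sin (φ - θ) ≤ 8 → 2 * D ≤ |Z| → (D : ℝ) * d ≤ 1 := by
    intro Z hZ hDZ
    have h3 : (2 * D : ℝ) * (4 * d) ≤ |Z| * sin (φ - θ) :=
      mul_le_mul hDZ hsin (by positivity) (abs_nonneg _)
    linarith
  have hfin : (D : ℝ) * d ≤ 1 := by
    have h2B : (2 : ℝ) ^ (B + 1) = 2 * 2 ^ B := by rw [pow_succ]; ring
    rcases hD with hD | hD
    · apply key X bX
      have : |X| = 2 ^ (B + 1) * |(a : ℝ) - a₁| := by
        rw [hX, ← mul_sub, abs_mul, abs_of_pos (by positivity)]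
      rw [this, h2B]
      have h3 := abs_nonneg ((a : ℝ) - a₁)
      nlinarith
    · apply key Y bY
      have : |Y| = 2 ^ (B + 1) * |(b : ℝ) - b₁| := by
        rw [hY, ← mul_sub, abs_mul, abs_of_pos (by positivity)]
      rw [this, h2B]
      have h3 := abs_nonneg ((b : ℝ) - b₁)
      nlinarith
  rw [hdd, ← mul_div_assoc, div_le_one hpt] at hfin
  exact_mod_cast hfin

lemma c_AN {α : Type*} [Primcodable α] {t a b i : α → ℕ} (ht : Computable t) (ha : Computable a)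
    (hb : Computable b) (hi : Computable i) : Computable fun x => AN B (t x) (a x) (b x) (i x) := by
  unfold AN
  have hr : Computable fun x => rr B (t x) := c_add (c_add ht (Computable.const B)) (Computable.const 8)
  have hτ : CQ fun x => tt (rr B (t x)) (t x) (i x) := by
    unfold tt yy
    exact CQ.tau hr (((CQ.const 2).mul (CQ.Sr hr (c_pow (Computable.const 2) hr))).mul
      ((CQ.nat hi).div (CQ.two_pow ht)))
  have hC : CQ fun x => (1 - tt (rr B (t x)) (t x) (i x) ^ 2) /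
      (1 + tt (rr B (t x)) (t x) (i x) ^ 2) :=
    ((CQ.const 1).sub (hτ.pow 2)).div ((CQ.const 1).add (hτ.pow 2))
  have hS : CQ fun x => 2 * tt (rr B (t x)) (t x) (i x) /
      (1 + tt (rr B (t x)) (t x) (i x) ^ 2) :=
    ((CQ.const 2).mul hτ).div ((CQ.const 1).add (hτ.pow 2))
  have hcc : CQ fun x => c4 (tt (rr B (t x)) (t x) (i x)) := by
    unfold c4
    exact (((hC.pow 2).sub (hS.pow 2)).pow 2).sub ((((CQ.const 2).mul hS).mul hC).pow 2)
  have hss : CQ fun x => s4 (tt (rr B (t x)) (t x) (i x)) := by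
    unfold s4
    exact ((CQ.const 2).mul (((CQ.const 2).mul hS).mul hC)).mul ((hC.pow 2).sub (hS.pow 2))
  have hp : CQ fun x => (2 : ℚ) ^ (B + t x) := CQ.two_pow (c_add (Computable.const B) ht)
  have hp2 : CQ fun x => (2 : ℚ) ^ (t x + B + 10) :=
    CQ.two_pow (c_add (c_add ht (Computable.const B)) (Computable.const 10))
  refine CQ.floor ?_
  unfold qx
  exact ((hcc.mul (((CQ.const ((2 : ℚ) ^ (B + 1))).mul (CQ.nat ha)).sub hp)).add
    (hss.mul (((CQ.const ((2 : ℚ) ^ (B + 1))).mul (CQ.nat hb)).sub hp))).add hp2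

end

end Pool.Agent.R557.PJ
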