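import Pool.Agent.R557.CKFin

set_option autoImplicit false

/-! An approximable real with initial segments of high plain complexity, and its settling times. -/

namespace Pool.Agent.R557.RT

open Finset
open Pool.Agent.Helper981.KP (half_pow_le)
open Pool.Agent.TH676.CK (IsPlain PCount approx_plain)
open Pool.Agent.H166R3.AT (c_add c_mul c_sub c_div c_mod c_pow c_sum c_le c_lt c_eq c_and c_or
  c_not c_count)
open Pool.Agent.R557.CK

/-- partial computable maps (given by their graphs) do not increase plain complexity -/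
lemma plain_rel {C : ℕ → ℕ} (hC : IsPlain C) (R : ℕ → ℕ → Bool) (hR : Computable₂ R)
    (hf : ∀ x u u', R x u = true → R x u' = true → u = u') :
    ∃ c : ℕ, ∀ x u, R x u = true → C u ≤ C x + c := by
  classical
  obtain ⟨f, hfc, hfC⟩ := hC.1
  set g : ℕ → ℕ → ℕ := fun z t => if R t.unpair.1 z = true then f t.unpair.1 t.unpair.2 + 1
    else f z t.unpair.2 + 1 with hg
  have hgc : Computable₂ g := by
    have p1 : Computable (fun p : ℕ × ℕ => p.2.unpair.1) :=
      Computable.fst.comp (Computable.unpair.comp Computable.snd)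
    have p2 : Computable (fun p : ℕ × ℕ => p.2.unpair.2) :=
      Computable.snd.comp (Computable.unpair.comp Computable.snd)
    have hc : Computable (fun p : ℕ × ℕ => decide (R p.2.unpair.1 p.1 = true)) := by
      have : Computable (fun p : ℕ × ℕ => R p.2.unpair.1 p.1) := hR.comp p1 Computable.fst
      refine this.of_eq fun p => ?_
      cases R p.2.unpair.1 p.1 <;> rfl
    exact c_ite' hc (Computable.succ.comp (hfc.comp p1 p2))
      (Computable.succ.comp (hfc.comp Computable.fst p2))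
  obtain ⟨c, hc⟩ := approx_plain hC g hgc (by
    intro k U τ hU
    cases k with
    | zero =>
      have : U = ∅ := by
        rw [Finset.eq_empty_iff_forall_notMem]
        intro u hu
        have := hU u hu
        simp only [hg] at this
        split_ifs at this <;> omega
      rw [this]; simp
    | succ k =>
      rw [← Finset.card_filter_add_card_filter_not (s := U) (fun u => R (τ u).unpair.1 u = true)]
      have h1 : (U.filter (fun u => R (τ u).unpair.1 u = true)).card ≤ 2 ^ (k + 1) := by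
        have hinj : Set.InjOn (fun z => (τ z).unpair.1)
            ((U.filter fun z => R (τ z).unpair.1 z = true : Finset ℕ) : Set ℕ) := by
          intro a ha b hb hab
          simp only [Finset.coe_filter, Set.mem_ofPred_eq] at ha hb
          have hab' : (τ a).unpair.1 = (τ b).unpair.1 := hab
          apply hf (τ a).unpair.1 a b ha.2
          rw [hab']
          exact hb.2
        rw [← Finset.card_image_of_injOn hinj]
        apply hC.2.1
        intro x hx
        rw [Finset.mem_image] at hx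
        obtain ⟨u, hu, rfl⟩ := hx
        rw [Finset.mem_filter] at hu
        have h2 := hU u hu.1
        simp only [hg, hu.2, if_true] at h2
        have h3 := (hfC (τ u).unpair.1).1 (τ u).unpair.2
        omega
      have h2 : (U.filter (fun u => ¬ R (τ u).unpair.1 u = true)).card ≤ 2 ^ (k + 1) := by
        apply hC.2.1
        intro u hu
        rw [Finset.mem_filter] at hu
        have h2 := hU u hu.1
        simp only [hg, if_neg hu.2] at h2
        have h3 := (hfC u).1 (τ u).unpair.2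
        omega
      rw [pow_succ 2 (k + 1)]
      omega)
  refine ⟨c + 1, fun x u hxu => ?_⟩
  obtain ⟨v, hv⟩ := (hfC x).2
  have := hc u (Nat.pair x v)
  simp only [hg, Nat.unpair_pair, if_pos hxu] at this
  rw [hv] at this
  omega

lemma sixteen_geo (m : ℕ) : ∑ d ∈ range m, ((1 : ℝ) / 2) ^ (d / 16) ≤ 32 := by
  have key : ∀ m : ℕ, ∑ d ∈ range (16 * m), ((1 : ℝ) / 2) ^ (d / 16) = 32 - 32 * (1 / 2) ^ m := by
    intro m
    induction m with
    | zero => simp
    | succ m ih =>
      have e : 16 * (m + 1) = 16 * m + 16 := by ring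
      rw [e, Finset.sum_range_add, ih]
      have h : ∀ x ∈ range 16, ((1 : ℝ) / 2) ^ ((16 * m + x) / 16) = (1 / 2) ^ m := by
        intro x hx
        rw [mem_range] at hx
        congr 1
        omega
      rw [Finset.sum_congr rfl h, Finset.sum_const, card_range, nsmul_eq_mul, pow_succ]
      push_cast
      ring
  have h1 : ∑ d ∈ range m, ((1 : ℝ) / 2) ^ (d / 16) ≤ ∑ d ∈ range (16 * m), ((1 : ℝ) / 2) ^ (d / 16) := by
    apply Finset.sum_le_sum_of_subset_of_nonneg _ (fun _ _ _ => by positivity)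
    intro d hd
    rw [mem_range] at hd ⊢
    omega
  have h2 := key m
  have h3 : (0 : ℝ) ≤ (1 / 2) ^ m := by positivity
  linarith

def gq (m : ℕ) : ℕ := m + m / 16 + 7

lemma gq_mono {m m' : ℕ} (h : m ≤ m') : gq m ≤ gq m' := by unfold gq; omega

/-- the Kraft sum -/
lemma kraft_gq {C : ℕ → ℕ} (hC : PCount C) (U : Finset ℕ) :
    ∑ x ∈ U, ((1 : ℝ) / 2) ^ (gq (C x)) ≤ 1 / 2 := by
  classical
  have hmaps : ∀ x ∈ U, C x ∈ range (U.sup C + 1) := by
    intro x hx
    rw [mem_range]
    have := Finset.le_sup (f := C) hx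
    omega
  rw [← Finset.sum_fiberwise_of_maps_to hmaps]
  have h1 : ∀ m ∈ range (U.sup C + 1), ∑ x ∈ U.filter (fun x => C x = m),
      ((1 : ℝ) / 2) ^ (gq (C x)) ≤ (1 / 64) * (1 / 2) ^ (m / 16) := by
    intro m _
    have h2 : ∑ x ∈ U.filter (fun x => C x = m), ((1 : ℝ) / 2) ^ (gq (C x)) =
        ((U.filter (fun x => C x = m)).card : ℝ) * (1 / 2) ^ (gq m) := by
      rw [← nsmul_eq_mul, ← Finset.sum_const]
      apply Finset.sum_congr rfl
      intro x hx
      rw [(mem_filter.1 hx).2]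
    have h3 : (U.filter (fun x => C x = m)).card ≤ 2 ^ (m + 1) :=
      hC m _ (fun x hx => (mem_filter.1 hx).2.le)
    have h4 : ((U.filter (fun x => C x = m)).card : ℝ) ≤ 2 ^ (m + 1) := by exact_mod_cast h3
    have h5 : (2 : ℝ) ^ m * (1 / 2) ^ m = 1 := by rw [← mul_pow]; norm_num
    rw [h2]
    calc ((U.filter (fun x => C x = m)).card : ℝ) * (1 / 2) ^ (gq m)
        ≤ 2 ^ (m + 1) * (1 / 2) ^ (gq m) := mul_le_mul_of_nonneg_right h4 (by positivity)
      _ = (1 / 64) * (1 / 2) ^ (m / 16) := by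
          unfold gq
          rw [pow_add, pow_add, pow_add]
          linear_combination ((1 / 64 : ℝ) * (1 / 2) ^ (m / 16)) * h5
  refine (Finset.sum_le_sum h1).trans ?_
  rw [← Finset.mul_sum]
  have := sixteen_geo (U.sup C + 1)
  linarith

section
variable (b : ℕ → ℕ → ℕ)

def Bq (t : ℕ) : ℕ := ∑ x ∈ range t, gq (b x t)

def Mq (t : ℕ) : ℕ := ∑ x ∈ range t, 2 ^ (Bq b t - gq (b x t))

/-- the first `n` bits of the approximation at stage `t`, as a number -/
def vv (n t : ℕ) : ℕ := 2 ^ n * Mq b t / 2 ^ (Bq b t)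

noncomputable def aq (t : ℕ) : ℝ := ∑ x ∈ range t, ((1 : ℝ) / 2) ^ (gq (b x t))

lemma c_vv (hb : Computable₂ b) {α : Type*} [Primcodable α] {n t : α → ℕ} (hn : Computable n)
    (ht : Computable t) : Computable (fun x => vv b (n x) (t x)) := by
  have h1 : Computable₂ (fun (x : α) (y : ℕ) => gq (b y (t x))) := by
    unfold gq
    have h2 : Computable (fun q : α × ℕ => b q.2 (t q.1)) :=
      hb.comp Computable.snd (ht.comp Computable.fst)
    exact c_add (c_add h2 (c_div h2 (Computable.const 16))) (Computable.const 7)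
  have h2 : Computable (fun x => Bq b (t x)) := by
    unfold Bq
    exact c_sum ht h1
  have h3 : Computable (fun x => Mq b (t x)) := by
    unfold Mq
    refine c_sum ht (f := fun x y => 2 ^ (Bq b (t x) - gq (b y (t x)))) ?_
    exact c_pow (Computable.const 2) (c_sub (h2.comp Computable.fst) h1)
  unfold vv
  exact c_div (c_mul (c_pow (Computable.const 2) hn) h3) (c_pow (Computable.const 2) h2)

lemma Mq_val (t : ℕ) : (Mq b t : ℝ) = 2 ^ (Bq b t) * aq b t := by
  unfold Mq aq
  push_cast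
  rw [Finset.mul_sum]
  apply Finset.sum_congr rfl
  intro x hx
  have h2 : gq (b x t) ≤ Bq b t := by
    unfold Bq
    exact Finset.single_le_sum (f := fun x => gq (b x t)) (fun _ _ => Nat.zero_le _) hx
  have h3 : (2 : ℝ) ^ (Bq b t - gq (b x t)) * 2 ^ (gq (b x t)) = 2 ^ (Bq b t) := by
    rw [← pow_add]; congr 1; omega
  have h4 : ((1 : ℝ) / 2) ^ (gq (b x t)) * 2 ^ (gq (b x t)) = 1 := by
    rw [← mul_pow]; norm_num
  rw [← h3]
  linear_combination (- (2 : ℝ) ^ (Bq b t - gq (b x t))) * h4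

lemma vv_le (n t : ℕ) : (vv b n t : ℝ) ≤ 2 ^ n * aq b t := by
  have h1 : vv b n t * 2 ^ (Bq b t) ≤ 2 ^ n * Mq b t := Nat.div_mul_le_self _ _
  have h2 : (vv b n t : ℝ) * 2 ^ (Bq b t) ≤ 2 ^ n * (Mq b t : ℝ) := by exact_mod_cast h1
  rw [Mq_val] at h2
  have h3 : (0 : ℝ) < 2 ^ (Bq b t) := by positivity
  apply le_of_mul_le_mul_right _ h3
  linarith

lemma lt_vv (n t : ℕ) : 2 ^ n * aq b t < (vv b n t : ℝ) + 1 := by
  have h1 : 2 ^ n * Mq b t < (vv b n t + 1) * 2 ^ (Bq b t) := by
    unfold vv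
    rw [mul_comm (_ + 1)]
    exact Nat.lt_mul_div_succ _ (by positivity)
  have h2 : 2 ^ n * (Mq b t : ℝ) < ((vv b n t : ℝ) + 1) * 2 ^ (Bq b t) := by exact_mod_cast h1
  rw [Mq_val] at h2
  have h3 : (0 : ℝ) < 2 ^ (Bq b t) := by positivity
  apply lt_of_mul_lt_mul_right _ h3.le
  linarith

lemma vv_div (n m t : ℕ) : vv b (n + m) t / 2 ^ m = vv b n t := by
  unfold vv
  rw [Nat.div_div_eq_div_mul, pow_add, mul_assoc, mul_comm (2 ^ m) (Mq b t), ← mul_assoc,
    Nat.mul_div_mul_right _ _ (by positivity)]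

variable {b} (hb3 : ∀ x t t', t ≤ t' → b x t' ≤ b x t)

include hb3 in
lemma aq_mono {t t' : ℕ} (h : t ≤ t') : aq b t ≤ aq b t' := by
  unfold aq
  refine (Finset.sum_le_sum (g := fun x => ((1 : ℝ) / 2) ^ (gq (b x t'))) ?_).trans
    (Finset.sum_le_sum_of_subset_of_nonneg ?_ (fun _ _ _ => by positivity))
  · intro x _
    exact half_pow_le (gq_mono (hb3 x t t' h))
  · intro x hx
    rw [mem_range] at hx ⊢
    omega

include hb3 in
lemma vv_mono (n : ℕ) {t t' : ℕ} (h : t ≤ t') : vv b n t ≤ vv b n t' := by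
  have h1 := vv_le b n t
  have h2 := lt_vv b n t'
  have h3 : (2 : ℝ) ^ n * aq b t ≤ 2 ^ n * aq b t' :=
    mul_le_mul_of_nonneg_left (aq_mono hb3 h) (by positivity)
  have h4 : (vv b n t : ℝ) < vv b n t' + 1 := by linarith
  have h5 : vv b n t < vv b n t' + 1 := by exact_mod_cast h4
  omega

variable {C : ℕ → ℕ} (hC : PCount C) (hb1 : ∀ x t, C x ≤ b x t)
  (hb2 : ∀ x, ∃ t₀, ∀ t ≥ t₀, b x t = C x)

include hC hb1 in
lemma vv_lt (n t : ℕ) : vv b n t < 2 ^ n := by
  have h1 := vv_le b n t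
  have h2 : aq b t ≤ 1 / 2 := by
    unfold aq
    exact (Finset.sum_le_sum (fun x _ => half_pow_le (gq_mono (hb1 x t)))).trans (kraft_gq hC _)
  have h3 : (0 : ℝ) < 2 ^ n := by positivity
  have h4 : (vv b n t : ℝ) < 2 ^ n := by nlinarith
  exact_mod_cast h4

include hC hb1 hb3 in
lemma exists_S (n : ℕ) : ∃ s, ∀ t ≥ s, vv b n t = vv b n s := by
  by_contra hcon
  push Not at hcon
  have key : ∀ m : ℕ, ∃ s, m ≤ vv b n s := by
    intro m
    induction m with
    | zero => exact ⟨0, Nat.zero_le _⟩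
    | succ m ih =>
      obtain ⟨s, hs⟩ := ih
      obtain ⟨t, ht, hne⟩ := hcon s
      have := vv_mono hb3 n ht
      exact ⟨t, by omega⟩
  obtain ⟨s, hs⟩ := key (2 ^ n)
  have := vv_lt hC hb1 n s
  omega

open Classical in
/-- the settling time of the first `n` bits -/
noncomputable def SS (b : ℕ → ℕ → ℕ) (n : ℕ) : ℕ := sInf {s | ∀ t ≥ s, vv b n t = vv b n s}

/-- the final value of the first `n` bits -/
noncomputable def ww (b : ℕ → ℕ → ℕ) (n : ℕ) : ℕ := vv b n (SS b n)

include hC hb1 hb3 in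
lemma SS_spec (n : ℕ) {t : ℕ} (ht : SS b n ≤ t) : vv b n t = ww b n :=
  Nat.sInf_mem (s := {s | ∀ t ≥ s, vv b n t = vv b n s}) (exists_S hb3 hC hb1 n) t ht

include hC hb1 hb3 in
lemma SS_least (n : ℕ) {t : ℕ} (ht : vv b n t = ww b n) : SS b n ≤ t := by
  apply Nat.sInf_le
  intro t' ht'
  rw [ht]
  have h1 := vv_mono hb3 n ht'
  have h2 := vv_mono hb3 n (le_max_left t' (SS b n))
  have h3 := SS_spec hb3 hC hb1 n (le_max_right t' (SS b n))
  omega

include hC hb1 hb3 in
lemma SS_mono {n m : ℕ} (h : n ≤ m) : SS b n ≤ SS b m := by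
  obtain ⟨d, rfl⟩ := Nat.exists_eq_add_of_le h
  apply Nat.sInf_le
  intro t ht
  rw [← vv_div b n d t, ← vv_div b n d (SS b (n + d)), SS_spec hb3 hC hb1 (n + d) ht]
  rfl

include hC hb1 hb3 in
lemma ww_div (n m : ℕ) : ww b (n + m) / 2 ^ m = ww b n := by
  have h := SS_mono hb3 hC hb1 (Nat.le_add_right n m)
  unfold ww
  rw [vv_div]
  exact SS_spec hb3 hC hb1 n h

include hC hb1 hb2 hb3 in
/-- settling times are complex -/
lemma le_gq (n : ℕ) : n ≤ gq (C (SS b n)) := by
  by_contra hcon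
  push Not at hcon
  set x := SS b n with hx
  obtain ⟨t0, ht0⟩ := hb2 x
  set t := t0 + x + 1 with ht
  have h1 : aq b x + (1 / 2) ^ (gq (C x)) ≤ aq b t := by
    unfold aq
    have h2 : (insert x (range x)) ⊆ range t := by
      intro y hy
      rw [mem_insert, mem_range] at hy
      rw [mem_range]
      omega
    have h3 := Finset.sum_le_sum_of_subset_of_nonneg (f := fun y => ((1 : ℝ) / 2) ^ (gq (b y t))) h2
      (fun _ _ _ => by positivity)
    rw [Finset.sum_insert (by simp)] at h3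
    have h4 : ∑ y ∈ range x, ((1 : ℝ) / 2) ^ (gq (b y x)) ≤ ∑ y ∈ range x, ((1 : ℝ) / 2) ^ (gq (b y t)) :=
      Finset.sum_le_sum (fun y _ => half_pow_le (gq_mono (hb3 y x t (by omega))))
    have h5 : b x t = C x := ht0 t (by omega)
    have h6 : ((1 : ℝ) / 2) ^ (gq (b x t)) + ∑ y ∈ range x, ((1 : ℝ) / 2) ^ (gq (b y t)) ≤
        ∑ y ∈ range t, ((1 : ℝ) / 2) ^ (gq (b y t)) := h3
    rw [h5] at h6
    linarith
  have h2 := SS_spec hb3 hC hb1 n (t := t) (by omega)
  have h3 := vv_le b n x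
  have h4 := lt_vv b n t
  have h5 : vv b n x = ww b n := rfl
  rw [h2] at h4
  rw [h5] at h3
  have h6 : (2 : ℝ) ^ n * (1 / 2) ^ (gq (C x)) ≥ 1 := by
    have h7 : (2 : ℝ) ^ n = 2 ^ (n - gq (C x)) * 2 ^ (gq (C x)) := by
      rw [← pow_add]; congr 1; omega
    have h8 : (2 : ℝ) ^ (gq (C x)) * (1 / 2) ^ (gq (C x)) = 1 := by rw [← mul_pow]; norm_num
    rw [h7, mul_assoc, h8, mul_one]
    exact one_le_pow₀ (by norm_num)
  have h7 : (2 : ℝ) ^ n * (aq b x + (1 / 2) ^ (gq (C x))) ≤ 2 ^ n * aq b t :=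
    mul_le_mul_of_nonneg_left h1 (by positivity)
  have h8 := lt_vv b n x
  rw [h5] at h8
  rw [mul_add] at h7
  -- `2 ^ n * aq b x ≥ ww` is needed: it is `h3`
  linarith

end

end Pool.Agent.R557.RT
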