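import Pool.Agent.R557.RTBase

set_option autoImplicit false

/-! The oracle machine. -/

namespace Pool.Agent.R557.RT

open Finset
open Pool.Agent.Helper981.KP (half_pow_le)
open Pool.Agent.TH676.CK (IsPlain PCount approx_plain)
open Pool.Agent.H166R3.AT (c_add c_mul c_sub c_div c_mod c_pow c_sum c_le c_lt c_eq c_and c_or
  c_not c_count c_ball ball ball_iff)
open Pool.Agent.R557.CK

/-- the number with binary digits `w` -/
def dec (w : List Bool) : ℕ :=
  ∑ m ∈ range (2 ^ w.length), (if bitl w.length m = w then m else 0)

lemma dec_bitl {t m : ℕ} (h : m < 2 ^ t) : dec (bitl t m) = m := by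
  unfold dec
  rw [bitl_length, Finset.sum_eq_single m]
  · simp
  · intro m' hm' hne
    rw [mem_range] at hm'
    rw [if_neg]
    intro h2
    exact hne (bitl_inj hm' h h2)
  · intro h2
    rw [mem_range] at h2
    exact absurd h h2

lemma c_dec {α : Type*} [Primcodable α] {w : α → List Bool} (hw : Computable w) :
    Computable (fun x => dec (w x)) := by
  unfold dec
  refine c_sum (c_pow (Computable.const 2) (Computable.list_length.comp hw))
    (f := fun x m => if bitl (w x).length m = w x then m else 0) ?_
  have hw1 : Computable (fun q : α × ℕ => w q.1) := hw.comp Computable.fst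
  exact c_ite' (c_eq (c_bitl (Computable.list_length.comp hw1) Computable.snd) hw1)
    Computable.snd (Computable.const 0)

lemma c_idx {α : Type*} [Primcodable α] {w : α → List Bool} (hw : Computable w) :
    Computable (fun x => (w x).idxOf true) := by
  have h1 : Primrec (fun w : List Bool => w.idxOf true) :=
    Primrec.list_idxOf.comp (Primrec.const true) Primrec.id
  exact h1.to_comp.comp hw

lemma c_drop {α : Type*} [Primcodable α] {n : α → ℕ} {w : α → List Bool} (hn : Computable n)
    (hw : Computable w) : Computable (fun x => (w x).drop (n x)) := by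
  have h1 : Primrec₂ (fun (n : ℕ) (w : List Bool) => w.drop n) := Primrec.list_drop
  exact h1.to_comp.comp hn hw

lemma c_getB {α : Type*} [Primcodable α] {l : α → List Bool} {s : α → ℕ} (hl : Computable l)
    (hs : Computable s) : Computable (fun x => (l x).getD (s x) false) := by
  have h1 := ((Primrec.list_getD (false : Bool)).to_comp).comp hl hs
  exact h1

section
variable (b : ℕ → ℕ → ℕ)

/-- the parameters of a program -/
def pe (p : List Bool) : ℕ := p.idxOf true
def pm (p : List Bool) : ℕ := dec (p.drop (pe p + 1))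
def pk (p : List Bool) : ℕ := 2 ^ pe p
def pn (p : List Bool) : ℕ := 2 ^ (2 * (pe p / 2) + 2)

/-- the condition -/
def cond (τ p : List Bool) (j : ℕ) : Bool :=
  decide (vv b (pk p) j.unpair.1 = pm p % 2 ^ pk p) &&
  (ball j.unpair.1 (fun t => !decide (vv b (pk p) t = pm p % 2 ^ pk p)) &&
  (decide (j.unpair.1 < j.unpair.2) && (decide (j.unpair.2 < τ.length) &&
  (τ.getD j.unpair.2 false &&
  ball j.unpair.2 (fun x => decide (x ≤ j.unpair.1) || !τ.getD x false)))))

/-- the output -/
def outn (p : List Bool) (j : ℕ) : ℕ :=
  Nat.pair (pn p) (vv b (2 * pk p) j.unpair.2 * 2 ^ (pn p - 2 * pk p) + pm p / 2 ^ pk p)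

/-- the machine -/
noncomputable def mach (str : ℕ ≃ List Bool) (τ p : List Bool) : Part (List Bool) :=
  (Nat.rfind (fun j => Part.some (cond b τ p j))).map (fun j => str (outn b p j))

lemma cond_iff (τ p : List Bool) (j : ℕ) : cond b τ p j = true ↔
    vv b (pk p) j.unpair.1 = pm p % 2 ^ pk p ∧
    (∀ t < j.unpair.1, vv b (pk p) t ≠ pm p % 2 ^ pk p) ∧
    j.unpair.1 < j.unpair.2 ∧ j.unpair.2 < τ.length ∧ τ.getD j.unpair.2 false = true ∧
    ∀ x < j.unpair.2, j.unpair.1 < x → τ.getD x false = false := by
  unfold cond
  simp only [Bool.and_eq_true, decide_eq_true_eq, ball_iff, Bool.or_eq_true]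
  refine and_congr Iff.rfl (and_congr ?_ (and_congr Iff.rfl (and_congr Iff.rfl
    (and_congr Iff.rfl ?_))))
  · refine forall_congr' fun t => forall_congr' fun _ => ?_
    rw [Bool.not_eq_true', decide_eq_false_iff_not]
  · refine forall_congr' fun x => forall_congr' fun _ => ?_
    rw [Bool.not_eq_true']
    constructor
    · rintro (h | h) h2
      · omega
      · exact h
    · intro h
      by_cases h2 : x ≤ j.unpair.1
      · exact Or.inl h2
      · exact Or.inr (h (by omega))

lemma getD_ext {τ τ' : List Bool} (h : τ <+: τ') {x : ℕ} (hx : x < τ.length) :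
    τ'.getD x false = τ.getD x false := by
  obtain ⟨l, rfl⟩ := h
  rw [List.getD_append _ _ _ _ hx]

lemma cond_mono {τ τ' : List Bool} (h : τ <+: τ') {p : List Bool} {j : ℕ}
    (hc : cond b τ p j = true) : cond b τ' p j = true := by
  rw [cond_iff] at hc ⊢
  obtain ⟨h1, h2, h3, h4, h5, h6⟩ := hc
  refine ⟨h1, h2, h3, lt_of_lt_of_le h4 h.length_le, ?_, ?_⟩
  · rw [getD_ext h h4]; exact h5
  · intro x hx hx2
    rw [getD_ext h (by omega)]
    exact h6 x hx hx2

lemma cond_unique {τ p : List Bool} {j j' : ℕ} (h : cond b τ p j = true)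
    (h' : cond b τ p j' = true) : j = j' := by
  rw [cond_iff] at h h'
  obtain ⟨h1, h2, h3, h4, h5, h6⟩ := h
  obtain ⟨g1, g2, g3, g4, g5, g6⟩ := h'
  have e1 : j.unpair.1 = j'.unpair.1 := by
    rcases lt_trichotomy j.unpair.1 j'.unpair.1 with h | h | h
    · exact absurd h1 (g2 _ h)
    · exact h
    · exact absurd g1 (h2 _ h)
  have e2 : j.unpair.2 = j'.unpair.2 := by
    rcases lt_trichotomy j.unpair.2 j'.unpair.2 with h | h | h
    · have := g6 _ h (by omega)
      rw [h5] at this
      exact absurd this (by simp)
    · exact h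
    · have := h6 _ h (by omega)
      rw [g5] at this
      exact absurd this (by simp)
  rw [← Nat.pair_unpair j, ← Nat.pair_unpair j', e1, e2]

lemma mem_mach {str : ℕ ≃ List Bool} {τ p : List Bool} {x : List Bool} :
    x ∈ mach b str τ p ↔ ∃ j, cond b τ p j = true ∧ x = str (outn b p j) := by
  unfold mach
  rw [Part.mem_map_iff]
  constructor
  · rintro ⟨j, hj, rfl⟩
    have h1 := ((Nat.mem_rfind (p := fun j => Part.some (cond b τ p j))).1 hj).1
    exact ⟨j, (Part.mem_some_iff.1 h1).symm, rfl⟩
  · rintro ⟨j, hj, rfl⟩
    refine ⟨j, ?_, rfl⟩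
    refine (Nat.mem_rfind (p := fun j => Part.some (cond b τ p j))).2 ⟨?_, ?_⟩
    · simp [hj]
    · intro m hm
      rw [Part.mem_some_iff]
      symm
      by_contra h
      rw [Bool.not_eq_false] at h
      have := cond_unique b hj h
      omega

lemma mach_mono {str : ℕ ≃ List Bool} {τ τ' p x : List Bool} (h : τ <+: τ')
    (hx : x ∈ mach b str τ p) : x ∈ mach b str τ' p := by
  rw [mem_mach] at hx ⊢
  obtain ⟨j, hj, hxj⟩ := hx
  exact ⟨j, cond_mono b h hj, hxj⟩

lemma mach_partrec {str : ℕ ≃ List Bool} (hs : Computable str) (hb : Computable₂ b) :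
    Partrec₂ (mach b str) := by
  -- building blocks
  have cpe : ∀ {α : Type} [Primcodable α] {p : α → List Bool}, Computable p →
      Computable (fun x => pe (p x)) := fun hp => c_idx hp
  have cpm : ∀ {α : Type} [Primcodable α] {p : α → List Bool}, Computable p →
      Computable (fun x => pm (p x)) := fun hp =>
    c_dec (c_drop (c_add (cpe hp) (Computable.const 1)) hp)
  have cpk : ∀ {α : Type} [Primcodable α] {p : α → List Bool}, Computable p →
      Computable (fun x => pk (p x)) := fun hp => c_pow (Computable.const 2) (cpe hp)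
  have cpn : ∀ {α : Type} [Primcodable α] {p : α → List Bool}, Computable p →
      Computable (fun x => pn (p x)) := fun hp =>
    c_pow (Computable.const 2) (c_add (c_mul (Computable.const 2)
      (c_div (cpe hp) (Computable.const 2))) (Computable.const 2))
  have c1 : Computable (fun q : (List Bool × List Bool) × ℕ => q.1.1) :=
    Computable.fst.comp Computable.fst
  have c2 : Computable (fun q : (List Bool × List Bool) × ℕ => q.1.2) :=
    Computable.snd.comp Computable.fst
  have ct : Computable (fun q : (List Bool × List Bool) × ℕ => q.2.unpair.1) :=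
    Computable.fst.comp (Computable.unpair.comp Computable.snd)
  have cx : Computable (fun q : (List Bool × List Bool) × ℕ => q.2.unpair.2) :=
    Computable.snd.comp (Computable.unpair.comp Computable.snd)
  have hcond : Computable (fun q : (List Bool × List Bool) × ℕ => cond b q.1.1 q.1.2 q.2) := by
    unfold cond
    refine c_and ?_ (c_and ?_ (c_and ?_ (c_and ?_ (c_and ?_ ?_))))
    · exact c_eq (c_vv b hb (cpk c2) ct) (c_mod (cpm c2) (c_pow (Computable.const 2) (cpk c2)))
    · refine c_ball ct (f := fun (q : (List Bool × List Bool) × ℕ) t =>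
        !decide (vv b (pk q.1.2) t = pm q.1.2 % 2 ^ pk q.1.2)) ?_
      have c2' : Computable (fun q : ((List Bool × List Bool) × ℕ) × ℕ => q.1.1.2) :=
        c2.comp Computable.fst
      exact c_not (c_eq (c_vv b hb (cpk c2') Computable.snd)
        (c_mod (cpm c2') (c_pow (Computable.const 2) (cpk c2'))))
    · exact c_lt ct cx
    · exact c_lt cx (Computable.list_length.comp c1)
    · exact c_getB c1 cx
    · refine c_ball cx (f := fun (q : (List Bool × List Bool) × ℕ) x =>
        decide (x ≤ q.2.unpair.1) || !q.1.1.getD x false) ?_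
      exact c_or (c_le Computable.snd (ct.comp Computable.fst))
        (c_not (c_getB (c1.comp Computable.fst) Computable.snd))
  have hcond2 : Computable₂ (fun (q : List Bool × List Bool) (j : ℕ) => cond b q.1 q.2 j) := hcond
  have h1 : Partrec (fun q : List Bool × List Bool =>
      Nat.rfind (fun j => Part.some (cond b q.1 q.2 j))) :=
    Partrec.rfind (p := fun (q : List Bool × List Bool) j => Part.some (cond b q.1 q.2 j))
      hcond2.partrec₂
  have h2 : Computable₂ (fun (q : List Bool × List Bool) (j : ℕ) => str (outn b q.2 j)) := by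
    have h3 : Computable (fun q : (List Bool × List Bool) × ℕ => str (outn b q.1.2 q.2)) := by
      refine hs.comp ?_
      unfold outn
      exact c_pair (cpn c2) (c_add (c_mul (c_vv b hb (c_mul (Computable.const 2) (cpk c2)) cx)
        (c_pow (Computable.const 2) (c_sub (cpn c2) (c_mul (Computable.const 2) (cpk c2)))))
        (c_div (cpm c2) (c_pow (Computable.const 2) (cpk c2))))
    exact h3
  exact Partrec.map h1 h2

end

end Pool.Agent.R557.RT
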